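import Mathlib

/-! Tools for finite sums of integer valued functions with finite support -/

namespace Pool.Agent.Helper11

variable {α : Type*}

theorem supp_add {f g : α → ℤ} (hf : {a | f a ≠ 0}.Finite) (hg : {a | g a ≠ 0}.Finite) :
    {a | f a + g a ≠ 0}.Finite := by
  apply (hf.union hg).subset
  intro a ha
  by_contra h
  rw [Set.mem_union, not_or] at h
  obtain ⟨h1, h2⟩ := h
  simp only [Set.mem_ofPred_eq, not_not] at h1 h2
  exact ha (by rw [h1, h2, add_zero])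

theorem supp_sub {f g : α → ℤ} (hf : {a | f a ≠ 0}.Finite) (hg : {a | g a ≠ 0}.Finite) :
    {a | f a - g a ≠ 0}.Finite := by
  apply (hf.union hg).subset
  intro a ha
  by_contra h
  rw [Set.mem_union, not_or] at h
  obtain ⟨h1, h2⟩ := h
  simp only [Set.mem_ofPred_eq, not_not] at h1 h2
  exact ha (by rw [h1, h2, sub_zero])

theorem supp_const_mul {f : α → ℤ} (c : ℤ) (hf : {a | f a ≠ 0}.Finite) :
    {a | c * f a ≠ 0}.Finite := by
  apply hf.subset
  intro a ha h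
  exact ha (by rw [h, mul_zero])

theorem supp_max {f : α → ℤ} (hf : {a | f a ≠ 0}.Finite) :
    {a | max 0 (f a) ≠ 0}.Finite := by
  apply hf.subset
  intro a ha h
  exact ha (by rw [h]; rfl)

theorem supp_of_imp {f : α → ℤ} {S : Set α} (hS : S.Finite) (h : ∀ a, a ∉ S → f a = 0) :
    {a | f a ≠ 0}.Finite := by
  apply hS.subset
  intro a ha
  by_contra h'
  exact ha (h a h')

open Classical in
theorem supp_ind {S : Set α} (hS : S.Finite) : {a | (if a ∈ S then (1 : ℤ) else 0) ≠ 0}.Finite :=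
  supp_of_imp hS fun a ha => by rw [if_neg ha]

theorem supp_sum {ι : Type*} (s : Finset ι) (f : ι → α → ℤ) (hf : ∀ i ∈ s, {a | f i a ≠ 0}.Finite) :
    {a | ∑ i ∈ s, f i a ≠ 0}.Finite := by
  classical
  have h : (⋃ i ∈ s, {a | f i a ≠ 0}).Finite := Set.Finite.biUnion s.finite_toSet hf
  apply h.subset
  intro a ha
  by_contra h'
  apply ha
  refine Finset.sum_eq_zero fun i hi => ?_
  by_contra h2
  exact h' (Set.mem_biUnion hi h2)

theorem fs_add {f g : α → ℤ} (hf : {a | f a ≠ 0}.Finite) (hg : {a | g a ≠ 0}.Finite) :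
    ∑ᶠ a, (f a + g a) = ∑ᶠ a, f a + ∑ᶠ a, g a :=
  finsum_add_distrib hf hg

theorem fs_sub {f g : α → ℤ} (hf : {a | f a ≠ 0}.Finite) (hg : {a | g a ≠ 0}.Finite) :
    ∑ᶠ a, (f a - g a) = ∑ᶠ a, f a - ∑ᶠ a, g a :=
  finsum_sub_distrib hf hg

theorem fs_neg (f : α → ℤ) : ∑ᶠ a, (- f a) = - ∑ᶠ a, f a := by
  exact finsum_neg_distrib f

theorem fs_const_mul (f : α → ℤ) (c : ℤ) :
    ∑ᶠ a, c * f a = c * ∑ᶠ a, f a := by
  exact (mul_finsum f c).symm

theorem fs_sum {ι : Type*} (s : Finset ι) (f : ι → α → ℤ) (hf : ∀ i ∈ s, {a | f i a ≠ 0}.Finite) :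
    ∑ᶠ a, ∑ i ∈ s, f i a = ∑ i ∈ s, ∑ᶠ a, f i a := by
  exact finsum_sum_comm s (fun a i => f i a) hf

theorem fs_nonneg {f : α → ℤ} (h : ∀ a, 0 ≤ f a) : 0 ≤ ∑ᶠ a, f a := finsum_nonneg h

theorem fs_mono {f g : α → ℤ} (hf : {a | f a ≠ 0}.Finite) (hg : {a | g a ≠ 0}.Finite)
    (h : ∀ a, f a ≤ g a) : ∑ᶠ a, f a ≤ ∑ᶠ a, g a := by
  have h1 : ∑ᶠ a, (g a - f a) = ∑ᶠ a, g a - ∑ᶠ a, f a := fs_sub hg hf
  have h2 : 0 ≤ ∑ᶠ a, (g a - f a) := fs_nonneg fun a => sub_nonneg.2 (h a)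
  omega

theorem fs_single_le {f : α → ℤ} (hf : {a | f a ≠ 0}.Finite) (h : ∀ a, 0 ≤ f a) (a : α) :
    f a ≤ ∑ᶠ a, f a := by
  classical
  have h1 : f a = ∑ᶠ b, (if b = a then f a else 0) := by
    rw [finsum_eq_single _ a]
    · simp
    · intro b hb; rw [if_neg hb]
  rw [h1]
  refine fs_mono ?_ hf ?_
  · apply (Set.finite_singleton a).subset
    intro b hb
    by_contra h2
    exact hb (if_neg h2)
  · intro b
    by_cases hb : b = a
    · rw [if_pos hb, hb]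
    · rw [if_neg hb]; exact h b

open Classical in
theorem fs_ind {S : Set α} (hS : S.Finite) :
    ∑ᶠ a, (if a ∈ S then (1 : ℤ) else 0) = (S.ncard : ℤ) := by
  rw [finsum_eq_sum_of_support_subset (s := hS.toFinset)]
  · rw [Set.ncard_eq_toFinset_card S hS]
    rw [Finset.sum_congr rfl (g := fun _ => (1 : ℤ))]
    · simp
    · intro a ha
      rw [if_pos ((Set.Finite.mem_toFinset hS).1 ha)]
  · intro a ha
    rw [Set.Finite.coe_toFinset]
    by_contra h
    exact ha (if_neg h)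

theorem fs_pos {f : α → ℤ} (hf : {a | f a ≠ 0}.Finite) (h : ∀ a, 0 ≤ f a) {a : α} (ha : 0 < f a) :
    0 < ∑ᶠ a, f a := lt_of_lt_of_le ha (fs_single_le hf h a)

end Pool.Agent.Helper11
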