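import Pool.Agent.Helper11.Chi
import Pool.Agent.Helper11.FinsumTools

set_option linter.unusedSectionVars false

namespace Pool.Agent.Helper11

open IntermediateField Polynomial

section

variable {k L : Type*} [Field k] [Field L] [Algebra k L]

namespace Place

variable (v : Place k L)

theorem aeval_mem_ge {x : L} (hx : v.ord x ≤ 0) (P : k[X]) {m : ℕ} (hm : P.natDegree ≤ m) :
    aeval x P ∈ v.ge (m * v.ord x) := by
  rw [aeval_eq_sum_range]
  refine sum_mem fun i hi => v.smul_mem_ge _ ?_
  rw [Finset.mem_range] at hi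
  have h1 : x ^ i ∈ v.ge (i * v.ord x) := by
    have := v.mem_ge_ord (x ^ i)
    rwa [v.ord_pow] at this
  refine v.ge_anti ?_ h1
  have : (i : ℤ) ≤ m := by exact_mod_cast (by omega : i ≤ m)
  nlinarith

theorem aeval_mem_ge_zero {x : L} (hx : x ∈ v.ge 0) (P : k[X]) : aeval x P ∈ v.ge 0 := by
  rw [aeval_eq_sum_range]
  refine sum_mem fun i _ => v.smul_mem_ge _ ?_
  have := v.pow_mem_ge hx i
  simpa using this

theorem ord_aeval {x : L} (hx : v.ord x < 0) {P : k[X]} (hP : P ≠ 0) :
    aeval x P ≠ 0 ∧ v.ord (aeval x P) = P.natDegree * v.ord x := by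
  have hx0 : x ≠ 0 := v.ne_zero_of_ord_ne_zero hx.ne
  have h1 : aeval x P = aeval x P.eraseLead + algebraMap k L P.leadingCoeff * x ^ P.natDegree := by
    conv_lhs => rw [← P.eraseLead_add_C_mul_X_pow]
    rw [map_add, map_mul, aeval_C, map_pow, aeval_X]
  have h2 : algebraMap k L P.leadingCoeff ≠ 0 := by
    rw [Ne, map_eq_zero]; exact leadingCoeff_ne_zero.2 hP
  have h3 : algebraMap k L P.leadingCoeff * x ^ P.natDegree ≠ 0 := mul_ne_zero h2 (pow_ne_zero _ hx0)
  have h4 : v.ord (algebraMap k L P.leadingCoeff * x ^ P.natDegree) = P.natDegree * v.ord x := by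
    rw [v.ord_mul _ _ h2 (pow_ne_zero _ hx0), v.ord_algebraMap, v.ord_pow, zero_add]
  rw [h1]
  have h5 := v.ord_add_eq_right (x := aeval x P.eraseLead) h3 (by
    by_cases h0 : aeval x P.eraseLead = 0
    · exact Or.inl h0
    right
    rw [h4]
    by_cases hd : P.natDegree = 0
    · exfalso; apply h0
      have h6 : P.eraseLead = 0 := by
        rw [eq_C_of_natDegree_eq_zero hd, eraseLead_C]
      rw [h6, map_zero]
    have h7 := v.le_ord_of_mem (v.aeval_mem_ge hx.le P.eraseLead P.eraseLead_natDegree_le) h0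
    have h8 : ((P.natDegree - 1 : ℕ) : ℤ) = (P.natDegree : ℤ) - 1 := by omega
    rw [h8] at h7
    nlinarith)
  rw [h4] at h5
  exact h5

end Place

end

variable {k L : Type*} [Field k] [Field L] [Algebra k L] [FunField k L] [CharZero k] [IsAlgClosed k]

theorem supp_ord (x : L) : {v : Place k L | v.ord x ≠ 0}.Finite := finite_ord_ne_zero x

theorem supp_negpart (x : L) : {v : Place k L | max 0 (-v.ord x) ≠ 0}.Finite := by
  apply (supp_ord (k := k) x).subset
  intro v hv h
  exact hv (by rw [h]; rfl)

theorem supp_pospart (x : L) : {v : Place k L | max 0 (v.ord x) ≠ 0}.Finite := by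
  apply (supp_ord (k := k) x).subset
  intro v hv h
  exact hv (by rw [h]; rfl)

omit [FunField k L] [CharZero k] [IsAlgClosed k] in
theorem ht_nonneg (x : L) : 0 ≤ ht k x := fs_nonneg fun _ => le_max_left _ _

theorem ht_eq_pos (x : L) : ht k x = ∑ᶠ v : Place k L, max 0 (v.ord x) := by
  have h1 : ∑ᶠ v : Place k L, (max 0 (v.ord x) - max 0 (-v.ord x)) = 0 := by
    refine Eq.trans (finsum_congr fun v => ?_) (finsum_ord (k := k) x)
    rcases le_total 0 (v.ord x) with h | h
    · rw [max_eq_right h, max_eq_left (by omega)]; ring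
    · rw [max_eq_left h, max_eq_right (by omega)]; ring
  rw [fs_sub (supp_pospart x) (supp_negpart x)] at h1
  unfold ht
  omega

theorem ht_inv (x : L) : ht k x⁻¹ = ht k x := by
  rw [ht_eq_pos]
  unfold ht
  exact finsum_congr fun v => by rw [v.ord_inv]

omit [FunField k L] [CharZero k] [IsAlgClosed k] in
theorem ht_neg (x : L) : ht k (-x) = ht k x := by
  unfold ht
  exact finsum_congr fun v => by rw [v.ord_neg]

omit [FunField k L] [CharZero k] [IsAlgClosed k] in
theorem ht_algebraMap (c : k) : ht k (algebraMap k L c) = 0 := by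
  unfold ht
  rw [finsum_congr (g := fun _ => (0 : ℤ))]
  · exact finsum_zero
  · intro v
    rw [v.ord_algebraMap]
    rfl

theorem ht_eq_finrank {x : L} (hx : Transcendental k x) :
    ht k x = (Module.finrank k⟮x⟯ L : ℤ) := finsum_neg_ord hx

theorem ht_pos {x : L} (hx : Transcendental k x) : 0 < ht k x := by
  rw [ht_eq_finrank hx]
  have := FunField.finiteDimensional_adjoin hx
  exact_mod_cast Module.finrank_pos

theorem ht_eq_zero {x : L} (hx : ¬ Transcendental k x) : ht k x = 0 := by
  have : IsAlgebraic k x := not_not.1 hx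
  obtain ⟨c, rfl⟩ := mem_range_of_isAlgebraic this
  exact ht_algebraMap c

omit [FunField k L] [CharZero k] [IsAlgClosed k] in
theorem ht_pow (x : L) (n : ℕ) : ht k (x ^ n) = n * ht k x := by
  unfold ht
  rw [← fs_const_mul]
  refine finsum_congr fun v => ?_
  rw [v.ord_pow]
  rcases le_total 0 (v.ord x) with h | h
  · rw [max_eq_left (by nlinarith), max_eq_left (by omega), mul_zero]
  · rw [max_eq_right (by nlinarith), max_eq_right (by omega)]; ring

theorem ht_mul_le (x y : L) : ht k (x * y) ≤ ht k x + ht k y := by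
  unfold ht
  rw [← fs_add (supp_negpart x) (supp_negpart y)]
  refine fs_mono (supp_negpart _) (supp_add (supp_negpart x) (supp_negpart y)) fun v => ?_
  by_cases hx : x = 0
  · subst hx; rw [zero_mul, v.ord_zero]; simp
  by_cases hy : y = 0
  · subst hy; rw [mul_zero, v.ord_zero]; simp
  rw [v.ord_mul _ _ hx hy]
  omega

theorem ht_add_le (x y : L) : ht k (x + y) ≤ ht k x + ht k y := by
  unfold ht
  rw [← fs_add (supp_negpart x) (supp_negpart y)]
  refine fs_mono (supp_negpart _) (supp_add (supp_negpart x) (supp_negpart y)) fun v => ?_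
  by_cases hx : x = 0
  · subst hx; rw [zero_add, v.ord_zero]; simp
  by_cases hy : y = 0
  · subst hy; rw [add_zero, v.ord_zero]; simp
  by_cases hxy : x + y = 0
  · rw [hxy, v.ord_zero]
    have := le_max_left 0 (-v.ord x)
    have := le_max_left 0 (-v.ord y)
    simp only [neg_zero, max_self]
    omega
  have := v.ord_add x y hx hy hxy
  omega

/-- the height of a polynomial in `x` -/
theorem ht_aeval (x : L) {P : k[X]} (hP : P ≠ 0) : ht k (aeval x P) = P.natDegree * ht k x := by
  unfold ht
  rw [← fs_const_mul]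
  refine finsum_congr fun v => ?_
  rcases le_or_gt 0 (v.ord x) with h | h
  · rw [max_eq_left (a := (0 : ℤ)) (b := -v.ord x) (by omega), mul_zero]
    by_cases h0 : aeval x P = 0
    · rw [h0, v.ord_zero]; rfl
    have := v.le_ord_of_mem (v.aeval_mem_ge_zero (v.mem_ge_of_le h) P) h0
    omega
  · rw [(v.ord_aeval h hP).2, max_eq_right (a := (0 : ℤ)) (b := -v.ord x) (by omega),
      max_eq_right (by nlinarith)]
    ring

theorem ht_add_const (x : L) (c : k) : ht k (x + algebraMap k L c) = ht k x := by
  have := ht_aeval (k := k) x (P := X + C c) (X_add_C_ne_zero c)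
  rw [natDegree_X_add_C] at this
  simpa using this

theorem ht_one_sub (x : L) : ht k (1 - x) = ht k x := by
  have := ht_add_const (k := k) (-x) 1
  rw [map_one, ht_neg] at this
  rw [← this]; congr 1; ring

end Pool.Agent.Helper11
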