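import Pool.Agent.Helper11.Place

namespace Pool.Agent.Helper11

open IntermediateField Polynomial

variable {k L : Type*} [Field k] [Field L] [Algebra k L]

theorem FunField.isAlgebraic_adjoin [FunField k L] {x : L} (hx : Transcendental k x) :
    Algebra.IsAlgebraic k⟮x⟯ L := by
  have h1 : AlgebraicIndependent k (fun _ : Unit => x) := by
    rwa [algebraicIndependent_unique_type_iff]
  have h2 : IsTranscendenceBasis k (fun _ : Unit => x) := by
    apply h1.isTranscendenceBasis_of_lift_trdeg_le_of_finite
    rw [FunField.trdeg (k := k) (L := L)]
    simp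
  have h3 := h2.isAlgebraic_field
  have h4 : Set.range (fun _ : Unit => x) = {x} := by simp
  rw [h4] at h3
  exact h3

theorem FunField.finiteDimensional_adjoin [FunField k L] {x : L} (hx : Transcendental k x) :
    FiniteDimensional k⟮x⟯ L := by
  have := FunField.isAlgebraic_adjoin hx
  have h1 : Algebra.EssFiniteType k L := FunField.fg
  have h2 : Algebra.EssFiniteType k⟮x⟯ L := Algebra.EssFiniteType.of_comp k k⟮x⟯ L
  exact Algebra.finite_of_essFiniteType_of_isAlgebraic

theorem FunField.exists_transcendental [FunField k L] : ∃ x : L, Transcendental k x := by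
  by_contra h
  push Not at h
  have h1 : Algebra.IsAlgebraic k L := ⟨fun x => by
    have := h x
    rwa [Transcendental, not_not] at this⟩
  have h2 : Algebra.trdeg k L = 0 := trdeg_eq_zero
  rw [FunField.trdeg (k := k) (L := L)] at h2
  exact one_ne_zero h2

theorem mem_range_of_isAlgebraic [IsAlgClosed k] {x : L} (hx : IsAlgebraic k x) :
    ∃ c : k, algebraMap k L c = x := by
  have h1 : IsIntegral k x := hx.isIntegral
  have h2 : (minpoly k x).degree = 1 :=
    IsAlgClosed.degree_eq_one_of_irreducible k (minpoly.irreducible h1)
  rw [minpoly.degree_eq_one_iff] at h2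
  exact h2

/-- a finite extension of a function field is a function field -/
theorem FunField.of_finite {F : Type*} [Field F] [Algebra k F] [Algebra F L] [IsScalarTower k F L]
    [FunField k F] [FiniteDimensional F L] : FunField k L := by
  refine ⟨?_, ?_⟩
  · have h1 : Algebra.EssFiniteType k F := FunField.fg
    exact Algebra.EssFiniteType.comp k F L
  · have h0 : Algebra.IsAlgebraic F L := inferInstance
    have h1 := lift_trdeg_add_eq k F L
    rw [trdeg_eq_zero (R := F) (A := L), FunField.trdeg (k := k) (L := F)] at h1
    simpa using h1.symm

end Pool.Agent.Helper11
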