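import Pool.Agent.Helper11.FunFieldBasic

namespace Pool.Agent.Helper11

open IntermediateField Polynomial

variable {k L : Type*} [Field k] [Field L] [Algebra k L]

namespace Place

variable (v : Place k L)

theorem ord_aeval_eq_zero [IsAlgClosed k] {y : L} (h : ∀ c : k, v.ord (y - algebraMap k L c) = 0)
    (hy : Transcendental k y) (p : k[X]) (hp : p ≠ 0) : v.ord (aeval y p) = 0 := by
  have hsplit : p.Splits := IsAlgClosed.splits p
  have h1 := hsplit.eq_prod_roots
  have h2 : aeval y p = algebraMap k L p.leadingCoeff * (p.roots.map fun a => y - algebraMap k L a).prod := by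
    conv_lhs => rw [h1]
    rw [map_mul, aeval_C, map_multiset_prod, Multiset.map_map]
    congr 2
    exact Multiset.map_congr rfl fun a _ => by simp
  have hne : ∀ a : k, y - algebraMap k L a ≠ 0 := by
    intro a ha
    apply hy
    have : y = algebraMap k L a := by linear_combination ha
    rw [this]
    exact isAlgebraic_algebraMap a
  have h3 : ∀ s : Multiset k, (s.map fun a => y - algebraMap k L a).prod ≠ 0 ∧
      v.ord (s.map fun a => y - algebraMap k L a).prod = 0 := by
    intro s
    induction s using Multiset.induction_on with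
    | empty => simp [v.ord_one]
    | cons a s ih =>
      rw [Multiset.map_cons, Multiset.prod_cons]
      refine ⟨mul_ne_zero (hne a) ih.1, ?_⟩
      rw [v.ord_mul _ _ (hne a) ih.1, h a, ih.2, add_zero]
  rw [h2, v.ord_mul _ _ (by simpa using hp) (h3 _).1, v.ord_algebraMap, (h3 _).2, add_zero]

/-- residue of an integral element -/
theorem exists_residue [IsAlgClosed k] [FunField k L] {y : L} (hy : y ∈ v.ge 0) :
    ∃ c : k, y - algebraMap k L c ∈ v.ge 1 := by
  by_contra hcon
  push Not at hcon
  have h0 : ∀ c : k, v.ord (y - algebraMap k L c) = 0 := by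
    intro c
    have h1 : y - algebraMap k L c ∈ v.ge 0 := sub_mem hy (v.algebraMap_mem_ge c)
    have h2 := hcon c
    rw [v.mem_ge] at h2
    push Not at h2
    have := v.le_ord_of_mem h1 h2.1
    omega
  have htr : Transcendental k y := by
    intro halg
    obtain ⟨c, rfl⟩ := mem_range_of_isAlgebraic halg
    apply hcon c
    rw [sub_self]
    exact zero_mem _
  have h1 : ∀ a : k⟮y⟯, a ≠ 0 → v.ord (a : L) = 0 := by
    rintro ⟨a, ha⟩ hne
    simp only
    rw [IntermediateField.mem_adjoin_simple_iff] at ha
    obtain ⟨r, s, rfl⟩ := ha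
    have hr : r ≠ 0 := by
      rintro rfl; apply hne; ext; simp
    have hs : s ≠ 0 := by
      rintro rfl; apply hne; ext; simp
    have hr' : aeval y r ≠ 0 := fun h => htr ⟨r, hr, h⟩
    have hs' : aeval y s ≠ 0 := fun h => htr ⟨s, hs, h⟩
    rw [v.ord_div hr' hs', v.ord_aeval_eq_zero h0 htr r hr, v.ord_aeval_eq_zero h0 htr s hs, sub_zero]
  have := FunField.isAlgebraic_adjoin htr
  obtain ⟨p, hp0, hp⟩ := Algebra.IsAlgebraic.isAlgebraic (R := k⟮y⟯) v.unif
  set i0 := p.natTrailingDegree with hi0
  have hc : p.coeff i0 ≠ 0 := by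
    rw [hi0]; exact Polynomial.trailingCoeff_nonzero_iff_nonzero.2 hp0
  rw [Polynomial.aeval_eq_sum_range] at hp
  have hmem : i0 ∈ Finset.range (p.natDegree + 1) := by
    rw [Finset.mem_range]
    have := Polynomial.natTrailingDegree_le_natDegree p
    omega
  rw [← Finset.add_sum_erase _ _ hmem] at hp
  have h2 : p.coeff i0 • v.unif ^ i0 ∈ v.ge (i0 + 1) := by
    rw [eq_neg_of_add_eq_zero_left hp]
    refine neg_mem (sum_mem fun i hi => ?_)
    rw [Finset.mem_erase] at hi
    by_cases hci : p.coeff i = 0
    · rw [hci, zero_smul]; exact zero_mem _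
    have hlt : i0 < i := by
      have := Polynomial.natTrailingDegree_le_of_ne_zero hci
      omega
    have h3 : p.coeff i • v.unif ^ i = (p.coeff i : L) * v.unif ^ i := by
      rw [Algebra.smul_def]; rfl
    right
    rw [h3, v.ord_mul _ _ (by simpa using hci) (pow_ne_zero _ v.unif_ne_zero), h1 _ hci, v.ord_pow,
      v.ord_unif]
    omega
  have h3 : p.coeff i0 • v.unif ^ i0 = (p.coeff i0 : L) * v.unif ^ i0 := by
    rw [Algebra.smul_def]; rfl
  rw [h3] at h2
  have h4 := v.le_ord_of_mem h2 (mul_ne_zero (by simpa using hc) (pow_ne_zero _ v.unif_ne_zero))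
  rw [v.ord_mul _ _ (by simpa using hc) (pow_ne_zero _ v.unif_ne_zero), h1 _ hc, v.ord_pow,
      v.ord_unif] at h4
  omega

/-- if `x` has nonzero order then it is transcendental -/
theorem transcendental_of_ord_ne_zero [IsAlgClosed k] {x : L} (h : v.ord x ≠ 0) : Transcendental k x := by
  intro halg
  obtain ⟨c, rfl⟩ := mem_range_of_isAlgebraic halg
  exact h (v.ord_algebraMap c)

end Place

end Pool.Agent.Helper11
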