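import Pool.Agent.Helper11.Model
import Pool.Agent.Helper11.Residue

namespace Pool.Agent.Helper11

open IntermediateField Polynomial IsDedekindDomain

open scoped IntermediateField.algebraAdjoinAdjoin

theorem finrank_eq_one_of_bijective {K M : Type*} [CommRing K] [Nontrivial K] [CommRing M]
    [Algebra K M] (h : Function.Bijective (algebraMap K M)) : Module.finrank K M = 1 := by
  let e : K ≃ₗ[K] M := LinearEquiv.ofBijective (Algebra.linearMap K M) h
  rw [← e.finrank_eq, Module.finrank_self]

section

variable {k L : Type*} [Field k] [Field L] [Algebra k L] [FunField k L] [CharZero k] {x : L}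
  [hxF : Fact (Transcendental k x)]

omit [FunField k L] [CharZero k] in
theorem irreducible_xR : Irreducible (xR k x) := by
  have h := Polynomial.algEquivOfTranscendental_apply_X k x hxF.out
  have : xR k x = Polynomial.algEquivOfTranscendental k x hxF.out X := h.symm
  rw [this]
  exact (MulEquiv.irreducible_iff (Polynomial.algEquivOfTranscendental k x hxF.out).toMulEquiv).2
    Polynomial.irreducible_X

omit [FunField k L] [CharZero k] in
theorem isMaximal_span_xR : (Ideal.span {xR k x} : Ideal (Rx k x)).IsMaximal := by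
  have := isPrincipalIdealRing_Rx k hxF.out
  exact PrincipalIdealRing.isMaximal_of_irreducible irreducible_xR

theorem placeOfPrime_injective : Function.Injective (placeOfPrime (k := k) (L := L) (x := x)) := by
  intro P Q h
  ext a
  have h1 : ∀ (P : HeightOneSpectrum (Ox k x)) (a : Ox k x), a ∈ P.asIdeal ↔
      a = 0 ∨ 0 < (placeOfPrime P).ord (a : L) := by
    intro P a
    by_cases ha : a = 0
    · simp [ha]
    have ha' : (algebraMap (Ox k x) L a) ≠ 0 := by
      intro h
      exact ha (Subtype.ext h)
    have hv := (Valuation.ne_zero_iff (P.valuation L)).2 ha'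
    rw [← P.valuation_lt_one_iff_mem (K := L), placeOfPrime_ord]
    have h2 : P.valuation L (algebraMap (Ox k x) L a) < 1 ↔
        (P.valuation L (algebraMap (Ox k x) L a)).log < 0 := by
      rw [← WithZero.log_one, WithZero.log_lt_log hv one_ne_zero]
    simp only [ha, false_or]
    rw [show ((a : L)) = algebraMap (Ox k x) L a from rfl]
    constructor
    · intro h3
      have := h2.1 h3
      omega
    · intro h3
      apply h2.2
      omega
  rw [h1, h1, h]

omit [FunField k L] [CharZero k] in
theorem mem_Rx_iff_ord (v : Place k L) (hv : 0 < v.ord x) (a : Rx k x)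
    : a ∈ (Ideal.span {xR k x} : Ideal (Rx k x)) ↔ (a : L) ∈ v.ge 1 := by
  have hx1 : x ∈ v.ge 1 := Or.inr hv
  have hmax := isMaximal_span_xR (k := k) (x := x)
  have hle : (Ideal.span {xR k x} : Ideal (Rx k x)) ≤
      (v.centerIdeal (x := x) (v.ge_anti zero_le_one hx1)).comap (algebraMap (Rx k x) (Ox k x)) := by
    rw [Ideal.span_le, Set.singleton_subset_iff]
    exact hx1
  have hne : (v.centerIdeal (x := x) (v.ge_anti zero_le_one hx1)).comap
      (algebraMap (Rx k x) (Ox k x)) ≠ ⊤ := by
    have := v.centerIdeal_isPrime (x := x) (v.ge_anti zero_le_one hx1)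
    exact Ideal.IsPrime.ne_top (Ideal.comap_isPrime _ _)
  have heq := hmax.eq_of_le hne hle
  rw [heq]
  exact Iff.rfl

theorem ord_eq_ramificationIdx (P : HeightOneSpectrum (Ox k x))
    [hP : P.asIdeal.LiesOver (Ideal.span {xR k x} : Ideal (Rx k x))] :
    (placeOfPrime P).ord x =
      ((Ideal.span {xR k x} : Ideal (Rx k x)).ramificationIdx' P.asIdeal : ℤ) := by
  have hmax := isMaximal_span_xR (k := k) (x := x)
  let V : HeightOneSpectrum (Rx k x) :=
    ⟨Ideal.span {xR k x}, hmax.isPrime, by
      rw [Ne, Ideal.span_singleton_eq_bot]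
      exact irreducible_xR.ne_zero⟩
  have hlies : P.asIdeal.LiesOver V.asIdeal := hP
  have h1 := HeightOneSpectrum.intValuation_liesOver V P (xR k x)
  rw [V.intValuation_singleton irreducible_xR.ne_zero rfl] at h1
  have h2 : P.valuation L x = P.intValuation (algebraMap (Rx k x) (Ox k x) (xR k x)) := by
    rw [← P.valuation_of_algebraMap (K := L)]
    rfl
  rw [placeOfPrime_ord, h2, ← h1, ← WithZero.exp_nsmul, WithZero.log_exp]
  simp [V]

variable [IsAlgClosed k]

theorem inertiaDeg_eq_one (P : HeightOneSpectrum (Ox k x))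
    [hP : P.asIdeal.LiesOver (Ideal.span {xR k x} : Ideal (Rx k x))] :
    (Ideal.span {xR k x} : Ideal (Rx k x)).inertiaDeg' P.asIdeal = 1 := by
  have hmax := isMaximal_span_xR (k := k) (x := x)
  have hPmax : P.asIdeal.IsMaximal := P.isMaximal
  rw [Ideal.inertiaDeg'_algebraMap]
  have hsurj : Function.Surjective (algebraMap (Rx k x ⧸ (Ideal.span {xR k x} : Ideal (Rx k x)))
      (Ox k x ⧸ P.asIdeal)) := by
    intro s
    obtain ⟨s, rfl⟩ := Ideal.Quotient.mk_surjective s
    have hge : x ∈ (placeOfPrime P).ge 0 := by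
      have hxF' := hxF
      right
      rw [placeOfPrime_ord]
      have h2 : P.valuation L (algebraMap (Ox k x) L (algebraMap (Rx k x) (Ox k x) (xR k x))) ≤ 1 :=
        P.valuation_le_one _
      have h3 : x ≠ 0 := fun h => (irreducible_xR (k := k) (x := x)).ne_zero (Subtype.ext h)
      have h4 : P.valuation L x ≠ 0 := (Valuation.ne_zero_iff _).2 h3
      have h5 : P.valuation L x ≤ 1 := h2
      rw [← WithZero.log_le_log h4 one_ne_zero, WithZero.log_one] at h5
      omega
    obtain ⟨c, hc⟩ := (placeOfPrime P).exists_residue ((placeOfPrime P).mem_ge_of_mem_Ox hge s)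
    refine ⟨Ideal.Quotient.mk _ (algebraMap k (Rx k x) c), ?_⟩
    rw [Ideal.Quotient.algebraMap_mk_of_liesOver]
    rw [eq_comm, Ideal.Quotient.eq]
    have h6 : ((s - algebraMap (Rx k x) (Ox k x) (algebraMap k (Rx k x) c) : Ox k x) : L) ∈
        (placeOfPrime P).ge 1 := hc
    by_contra hcon
    have h7 := (P.valuation_eq_one_iff_notMem (K := L)).2 hcon
    have h8 : (placeOfPrime P).ord ((s - algebraMap (Rx k x) (Ox k x) (algebraMap k (Rx k x) c) : Ox k x) : L) = 0 := by
      rw [placeOfPrime_ord]
      have : P.valuation L ((s - algebraMap (Rx k x) (Ox k x) (algebraMap k (Rx k x) c) : Ox k x) : L) = 1 := h7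
      rw [this]; simp
    rcases h6 with h6 | h6
    · apply hcon
      have : (s - algebraMap (Rx k x) (Ox k x) (algebraMap k (Rx k x) c) : Ox k x) = 0 := Subtype.ext h6
      rw [this]
      exact zero_mem _
    · omega
  have hnt : Nontrivial (Rx k x ⧸ (Ideal.span {xR k x} : Ideal (Rx k x))) :=
    Ideal.Quotient.nontrivial_iff.2 hmax.ne_top
  exact finrank_eq_one_of_bijective ⟨FaithfulSMul.algebraMap_injective _ _, hsurj⟩


variable (k L x) in
/-- the primes of the integral closure of `k[x]` dividing `x` -/
noncomputable def primesX : Finset (Ideal (Ox k x)) :=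
  IsDedekindDomain.primesOverFinset (Ideal.span {xR k x} : Ideal (Rx k x)) (Ox k x)

omit [IsAlgClosed k] [FunField k L] [CharZero k] in
theorem span_xR_ne_bot : (Ideal.span {xR k x} : Ideal (Rx k x)) ≠ ⊥ := by
  rw [Ne, Ideal.span_singleton_eq_bot]
  exact irreducible_xR.ne_zero

omit [IsAlgClosed k] in
theorem mem_primesX (P : Ideal (Ox k x)) :
    P ∈ primesX k L x ↔ P ∈ (Ideal.span {xR k x} : Ideal (Rx k x)).primesOver (Ox k x) := by
  have hmax := isMaximal_span_xR (k := k) (x := x)
  exact IsDedekindDomain.mem_primesOverFinset_iff span_xR_ne_bot _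

/-- the place attached to a prime dividing `x` -/
noncomputable def placeX (P : primesX k L x) : Place k L :=
  placeOfPrime (⟨P.1, ((mem_primesX P.1).1 P.2).1, by
    have := ((mem_primesX P.1).1 P.2).2
    exact Ideal.ne_bot_of_liesOver_of_ne_bot (span_xR_ne_bot (k := k) (x := x)) P.1⟩ : HeightOneSpectrum (Ox k x))

theorem placeX_injective : Function.Injective (placeX (k := k) (L := L) (x := x)) := by
  intro P Q h
  have := placeOfPrime_injective h
  rw [HeightOneSpectrum.mk.injEq] at this
  exact Subtype.ext this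

theorem placeX_ord (P : primesX k L x) : (placeX P).ord x =
    ((Ideal.span {xR k x} : Ideal (Rx k x)).ramificationIdx' P.1 : ℤ) := by
  have h2 := ((mem_primesX P.1).1 P.2).2
  have := ((mem_primesX P.1).1 P.2).1
  exact @ord_eq_ramificationIdx k L _ _ _ _ _ x _ ⟨P.1, this, _⟩ h2

theorem exists_placeX (v : Place k L) (hv : 0 < v.ord x) :
    ∃ P : primesX k L x, placeX P = v := by
  have hx1 : x ∈ v.ge 1 := Or.inr hv
  have hx0 : x ∈ v.ge 0 := v.ge_anti zero_le_one hx1
  have hmax := isMaximal_span_xR (k := k) (x := x)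
  have hle : (Ideal.span {xR k x} : Ideal (Rx k x)) ≤
      (v.centerIdeal (x := x) hx0).comap (algebraMap (Rx k x) (Ox k x)) := by
    rw [Ideal.span_le, Set.singleton_subset_iff]
    exact hx1
  have hpr := v.centerIdeal_isPrime (x := x) hx0
  have hne : (v.centerIdeal (x := x) hx0).comap (algebraMap (Rx k x) (Ox k x)) ≠ ⊤ :=
    Ideal.IsPrime.ne_top (Ideal.comap_isPrime _ _)
  have heq := hmax.eq_of_le hne hle
  have hmem : v.centerIdeal (x := x) hx0 ∈ primesX k L x := by
    rw [mem_primesX]
    exact ⟨hpr, ⟨heq⟩⟩
  exact ⟨⟨_, hmem⟩, (v.eq_placeOfPrime_center hx0).symm⟩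

theorem finite_pos_ord' : {v : Place k L | 0 < v.ord x}.Finite := by
  apply (Set.finite_range (placeX (k := k) (L := L) (x := x))).subset
  intro v hv
  exact exists_placeX v hv

theorem finsum_pos_ord' :
    ∑ᶠ v : Place k L, max 0 (v.ord x) = (Module.finrank k⟮x⟯ L : ℤ) := by
  classical
  have hmax := isMaximal_span_xR (k := k) (x := x)
  have hfd := FunField.finiteDimensional_adjoin hxF.out
  rw [finsum_eq_sum_of_support_subset (s := Finset.univ.image (placeX (k := k) (L := L) (x := x))),
    Finset.sum_image (fun a _ b _ h => placeX_injective h)]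
  · have h1 : ∀ P : primesX k L x, max 0 ((placeX P).ord x) =
        (((Ideal.span {xR k x} : Ideal (Rx k x)).ramificationIdx' P.1 *
          (Ideal.span {xR k x} : Ideal (Rx k x)).inertiaDeg' P.1 : ℕ) : ℤ) := by
      intro P
      have h2 := ((mem_primesX P.1).1 P.2).2
      have h3 := ((mem_primesX P.1).1 P.2).1
      have h4 : (Ideal.span {xR k x} : Ideal (Rx k x)).inertiaDeg' P.1 = 1 :=
        @inertiaDeg_eq_one k L _ _ _ _ _ x _ _ ⟨P.1, h3,
          Ideal.ne_bot_of_liesOver_of_ne_bot (span_xR_ne_bot (k := k) (x := x)) P.1⟩ h2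
      rw [h4, mul_one, placeX_ord, max_eq_right (by positivity)]
    rw [Finset.sum_congr rfl fun P _ => h1 P, ← Nat.cast_sum]
    have h5 := Ideal.sum_ramification_inertia (Ox k x) k⟮x⟯ L
      (p := (Ideal.span {xR k x} : Ideal (Rx k x))) span_xR_ne_bot
    rw [← h5]
    congr 1
    exact Finset.sum_coe_sort (primesX k L x) fun P =>
      (Ideal.span {xR k x} : Ideal (Rx k x)).ramificationIdx' P *
          (Ideal.span {xR k x} : Ideal (Rx k x)).inertiaDeg' P
  · intro v hv
    rw [Function.mem_support] at hv
    have h6 : 0 < v.ord x := by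
      by_contra h
      exact hv (max_eq_left (not_lt.1 h))
    obtain ⟨P, hP⟩ := exists_placeX v h6
    rw [Finset.coe_image, Finset.coe_univ, Set.image_univ]
    exact ⟨P, hP⟩

end

section

variable {k L : Type*} [Field k] [Field L] [Algebra k L] [FunField k L] [CharZero k] [IsAlgClosed k]

theorem finite_pos_ord (x : L) : {v : Place k L | 0 < v.ord x}.Finite := by
  by_cases hx : Transcendental k x
  · have : Fact (Transcendental k x) := ⟨hx⟩
    exact finite_pos_ord'
  · convert Set.finite_empty
    ext v
    simp only [Set.mem_ofPred_eq, Set.mem_empty_iff_false, iff_false]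
    intro h
    exact hx (v.transcendental_of_ord_ne_zero h.ne')

/-- the places where `x` has nonzero order form a finite set -/
theorem finite_ord_ne_zero (x : L) : {v : Place k L | v.ord x ≠ 0}.Finite := by
  apply ((finite_pos_ord x).union (finite_pos_ord x⁻¹)).subset
  intro v hv
  rcases lt_or_gt_of_ne hv with h | h
  · right
    change 0 < v.ord x⁻¹
    rw [v.ord_inv]; omega
  · left; exact h

theorem finsum_pos_ord {x : L} (hx : Transcendental k x) :
    ∑ᶠ v : Place k L, max 0 (v.ord x) = (Module.finrank k⟮x⟯ L : ℤ) := by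
  have : Fact (Transcendental k x) := ⟨hx⟩
  exact finsum_pos_ord'

omit [FunField k L] [CharZero k] [IsAlgClosed k] in
theorem adjoin_inv (x : L) : k⟮x⁻¹⟯ = k⟮x⟯ := by
  apply le_antisymm
  · rw [IntermediateField.adjoin_simple_le_iff]
    exact inv_mem (IntermediateField.mem_adjoin_simple_self k x)
  · rw [IntermediateField.adjoin_simple_le_iff]
    have := inv_mem (IntermediateField.mem_adjoin_simple_self k x⁻¹)
    rwa [inv_inv] at this

/-- the degree of the divisor of zeros equals the degree of the divisor of poles -/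
theorem finsum_neg_ord {x : L} (hx : Transcendental k x) :
    ∑ᶠ v : Place k L, max 0 (-v.ord x) = (Module.finrank k⟮x⟯ L : ℤ) := by
  have hx' : Transcendental k x⁻¹ := by
    intro h
    apply hx
    have := h.inv
    rwa [inv_inv] at this
  have h1 := finsum_pos_ord hx'
  rw [adjoin_inv] at h1
  rw [← h1]
  exact finsum_congr fun v => by rw [v.ord_inv]

/-- the product formula -/
theorem finsum_ord (x : L) : ∑ᶠ v : Place k L, v.ord x = 0 := by
  by_cases hx : Transcendental k x
  · have h1 := finsum_pos_ord hx
    have h2 := finsum_neg_ord hx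
    have h3 : ∀ v : Place k L, v.ord x = max 0 (v.ord x) - max 0 (-v.ord x) := by
      intro v
      rcases le_total 0 (v.ord x) with h | h
      · rw [max_eq_right h, max_eq_left (by omega)]; ring
      · rw [max_eq_left h, max_eq_right (by omega)]; ring
    rw [finsum_congr h3, finsum_sub_distrib, h1, h2, sub_self]
    · apply (finite_ord_ne_zero x).subset
      intro v hv hv'
      apply hv
      simp [hv']
    · apply (finite_ord_ne_zero x).subset
      intro v hv hv'
      apply hv
      simp [hv']
  · have : ∀ v : Place k L, v.ord x = 0 := by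
      intro v
      by_contra h
      exact hx (v.transcendental_of_ord_ne_zero h)
    simp [this]

end

end Pool.Agent.Helper11
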