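import Pool.Agent.Helper11.Diff

namespace Pool.Agent.Helper11

open IntermediateField Polynomial KaehlerDifferential

variable {k L : Type*} [Field k] [Field L] [Algebra k L] [FunField k L] [CharZero k] [IsAlgClosed k]

namespace Place

variable (v : Place k L)

omit [FunField k L] [IsAlgClosed k] in
theorem ord_intCast {n : ℤ} (hn : n ≠ 0) : (n : L) ≠ 0 ∧ v.ord (n : L) = 0 := by
  constructor
  · intro h
    have h1 : algebraMap k L (n : k) = 0 := by rw [map_intCast]; exact h
    rw [map_eq_zero] at h1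
    exact hn (Int.cast_eq_zero.1 h1)
  · have := v.ord_algebraMap (n : k)
    simpa using this

theorem dv_unif_zpow_mul (n : ℤ) (z : L) :
    v.dv (v.unif ^ n * z) = v.unif ^ n * v.dv z + (n : L) * (z * v.unif ^ (n - 1)) := by
  rw [Derivation.leibniz, Derivation.leibniz_zpow, v.dv_unif, smul_eq_mul, smul_eq_mul, smul_eq_mul,
    zsmul_eq_mul]
  ring

theorem dv_mem_ge {y : L} {n : ℤ} (hy : y ∈ v.ge n) : v.dv y ∈ v.ge (n - 1) := by
  set z := v.unif ^ (-n) * y with hz
  have hz0 : z ∈ v.ge 0 := by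
    have := v.mul_mem_ge (v.mem_ge_ord (v.unif ^ (-n))) hy
    rw [v.ord_zpow, v.ord_unif, mul_one, neg_add_cancel] at this
    exact this
  have hyz : y = v.unif ^ n * z := by
    rw [hz, ← mul_assoc, ← zpow_add₀ v.unif_ne_zero]; simp
  rw [hyz, v.dv_unif_zpow_mul]
  refine add_mem ?_ ?_
  · have := v.mul_mem_ge (v.mem_ge_ord (v.unif ^ n)) (v.dv_mem_ge_zero hz0)
    rw [v.ord_zpow, v.ord_unif] at this
    refine v.ge_anti ?_ this
    omega
  · have := v.mul_mem_ge (v.intCast_mem_ge n) (v.mul_mem_ge hz0 (v.mem_ge_ord (v.unif ^ (n - 1))))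
    rw [v.ord_zpow, v.ord_unif] at this
    refine v.ge_anti ?_ this
    omega

theorem ord_dv {y : L} (hy : v.ord y ≠ 0) : v.dv y ≠ 0 ∧ v.ord (v.dv y) = v.ord y - 1 := by
  have hy0 : y ≠ 0 := v.ne_zero_of_ord_ne_zero hy
  set n := v.ord y with hn
  set z := v.unif ^ (-n) * y with hz
  have hz1 : z ≠ 0 := mul_ne_zero (zpow_ne_zero _ v.unif_ne_zero) hy0
  have hz0 : v.ord z = 0 := by
    rw [hz, v.ord_mul _ _ (zpow_ne_zero _ v.unif_ne_zero) hy0, v.ord_zpow, v.ord_unif, ← hn]
    omega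
  have hyz : y = v.unif ^ n * z := by
    rw [hz, ← mul_assoc, ← zpow_add₀ v.unif_ne_zero]; simp
  obtain ⟨hn1, hn2⟩ := v.ord_intCast hy
  have h1 : (n : L) * (z * v.unif ^ (n - 1)) ≠ 0 :=
    mul_ne_zero hn1 (mul_ne_zero hz1 (zpow_ne_zero _ v.unif_ne_zero))
  have h2 : v.ord ((n : L) * (z * v.unif ^ (n - 1))) = n - 1 := by
    rw [v.ord_mul _ _ hn1 (mul_ne_zero hz1 (zpow_ne_zero _ v.unif_ne_zero)), hn2,
      v.ord_mul _ _ hz1 (zpow_ne_zero _ v.unif_ne_zero), hz0, v.ord_zpow, v.ord_unif]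
    ring
  have h3 : v.unif ^ n * v.dv z ∈ v.ge n := by
    have := v.mul_mem_ge (v.mem_ge_ord (v.unif ^ n)) (v.dv_mem_ge_zero (v.mem_ge_of_le hz0.ge))
    rw [v.ord_zpow, v.ord_unif] at this
    simpa using this
  have h4 := v.ord_add_eq_right (x := v.unif ^ n * v.dv z) h1 (by
    by_cases h0 : v.unif ^ n * v.dv z = 0
    · exact Or.inl h0
    · right
      have := v.le_ord_of_mem h3 h0
      omega)
  rw [← v.dv_unif_zpow_mul, ← hyz, h2] at h4
  exact h4

theorem ord_dv_unif' {y : L} (hy : v.ord y = 1) : v.dv y ≠ 0 ∧ v.ord (v.dv y) = 0 := by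
  have := v.ord_dv (y := y) (by rw [hy]; decide)
  rw [hy] at this
  simpa using this

/-- any derivation `d/dx` is a multiple of `dv` -/
theorem der_eq {x : L} (hx : Transcendental k x) (y : L) :
    der hx y = der hx v.unif * v.dv y := der_chain hx v.transcendental_unif y

theorem dv_self_mul {x : L} (hx : Transcendental k x) : der hx v.unif * v.dv x = 1 := by
  rw [← v.der_eq hx, der_self]

theorem dv_ne_zero {x : L} (hx : Transcendental k x) : v.dv x ≠ 0 := by
  intro h
  have := v.dv_self_mul hx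
  rw [h, mul_zero] at this
  exact zero_ne_one this

theorem ord_der_unif {x : L} (hx : Transcendental k x) :
    v.ord (der hx v.unif) = - v.ord (v.dv x) := by
  have h := v.dv_self_mul hx
  have h1 : der hx v.unif ≠ 0 := by
    intro h0; rw [h0, zero_mul] at h; exact zero_ne_one h
  have h2 := v.ord_mul _ _ h1 (v.dv_ne_zero hx)
  rw [h, v.ord_one] at h2
  omega

theorem ordDiff_eq (ω : Ω[L⁄k]) :
    v.ordDiff ω = v.ord ((kaehlerEquiv v.transcendental_unif).symm ω) := by
  classical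
  have hex : ∃ f : L, ∃ π : L, v.ord π = 1 ∧ ω = f • D k L π := by
    refine ⟨(kaehlerEquiv v.transcendental_unif).symm ω, v.unif, v.ord_unif, ?_⟩
    rw [← kaehlerEquiv_apply v.transcendental_unif, LinearEquiv.apply_symm_apply]
  unfold Place.ordDiff
  rw [dif_pos hex]
  obtain ⟨π, hπ1, hπ2⟩ := hex.choose_spec
  set f := hex.choose with hf
  obtain ⟨h1, h2⟩ := v.ord_dv_unif' hπ1
  have h3 : (kaehlerEquiv v.transcendental_unif).symm ω = f * v.dv π := by
    rw [LinearEquiv.symm_apply_eq, kaehlerEquiv_apply, mul_smul]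
    rw [show v.dv π • D k L v.unif = D k L π from (D_eq_der_smul v.transcendental_unif π).symm]
    exact hπ2
  rw [h3]
  by_cases hf0 : f = 0
  · rw [hf0, zero_mul]
  · rw [v.ord_mul _ _ hf0 h1, h2, add_zero]

theorem ordDiff_smul_D (g t : L) : v.ordDiff (g • D k L t) = v.ord (g * v.dv t) := by
  rw [v.ordDiff_eq]
  congr 1
  rw [LinearEquiv.symm_apply_eq, kaehlerEquiv_apply, mul_smul]
  congr 1
  exact D_eq_der_smul v.transcendental_unif t

theorem ordDiff_D (t : L) : v.ordDiff (D k L t) = v.ord (v.dv t) := by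
  have := v.ordDiff_smul_D 1 t
  rwa [one_smul, one_mul] at this

theorem ordDiff_smul {g : L} {ω : Ω[L⁄k]} (hg : g ≠ 0) (hω : ω ≠ 0) :
    v.ordDiff (g • ω) = v.ord g + v.ordDiff ω := by
  rw [v.ordDiff_eq, v.ordDiff_eq, map_smul, smul_eq_mul, v.ord_mul _ _ hg]
  intro h
  rw [LinearEquiv.symm_apply_eq, map_zero] at h
  exact hω h

omit [IsAlgClosed k] in
/-- elements of the valuation ring are quotients of integral elements -/
theorem exists_frac {x : L} (hx : Transcendental k x) (hx0 : x ∈ v.ge 0) {y : L} (hy : y ∈ v.ge 0) :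
    ∃ n d : Ox k x, ((d : Ox k x) : L) ≠ 0 ∧ v.ord (d : L) = 0 ∧ y * (d : L) = (n : L) := by
  have hF : Fact (Transcendental k x) := ⟨hx⟩
  by_cases hy0 : y = 0
  · refine ⟨0, 1, ?_, ?_, ?_⟩
    · simp
    · simpa using v.ord_one
    · simp [hy0]
  set P := v.center hx0 with hP
  have hvP : v = placeOfPrime P := v.eq_placeOfPrime_center hx0
  have hPy : P.valuation L y ≤ 1 := by
    have h1 := v.le_ord_of_mem hy hy0
    have h1' : 0 ≤ (placeOfPrime P).ord y := hvP ▸ h1
    rw [placeOfPrime_ord] at h1'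
    have h4 : P.valuation L y ≠ 0 := (Valuation.ne_zero_iff _).2 hy0
    rw [← WithZero.log_le_log h4 one_ne_zero, WithZero.log_one]
    omega
  obtain ⟨n, d, hnd⟩ := P.exists_primeCompl_mul_eq_of_integer y hPy
  have hd : (d : Ox k x) ∉ v.centerIdeal hx0 := d.2
  have hd1 := v.ord_eq_zero_of_notMem hx0 _ hd
  have hd0 : ((d : Ox k x) : L) ≠ 0 := by
    intro h; exact hd (Or.inl h)
  exact ⟨n, d, hd0, hd1, hnd⟩

/-- a derivation which is bounded below on the integral closure is bounded below on the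
valuation ring -/
theorem derivation_mem_ge {x : L} (hx : Transcendental k x) (hx0 : x ∈ v.ge 0)
    (δ : Derivation k L L) {m : ℤ} (hδ : ∀ a : Ox k x, δ (a : L) ∈ v.ge m) {y : L}
    (hy : y ∈ v.ge 0) : δ y ∈ v.ge m := by
  obtain ⟨n, d, hd0, hd1, hnd⟩ := v.exists_frac hx hx0 hy
  have h5 := congrArg δ hnd
  rw [Derivation.leibniz, smul_eq_mul, smul_eq_mul] at h5
  have h6 : δ y = ((d : Ox k x) : L)⁻¹ * (δ (n : L) - y * δ ((d : Ox k x) : L)) := by
    field_simp
    linear_combination h5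
  rw [h6]
  have h7 : δ (n : L) - y * δ ((d : Ox k x) : L) ∈ v.ge m := by
    refine sub_mem (hδ n) ?_
    have := v.mul_mem_ge hy (hδ (d : Ox k x))
    rwa [zero_add] at this
  have h8 := v.mul_mem_ge (v.mem_ge_ord ((d : Ox k x) : L)⁻¹) h7
  rw [v.ord_inv, hd1] at h8
  simpa using h8

end Place

/-- `d/dx` maps the integral closure into itself up to a common denominator -/
theorem exists_denominator {x : L} (hx : Transcendental k x) :
    ∃ g : L, g ≠ 0 ∧ ∀ v : Place k L, x ∈ v.ge 0 → ∀ y ∈ v.ge 0, g * der hx y ∈ v.ge 0 := by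
  classical
  have hF : Fact (Transcendental k x) := ⟨hx⟩
  obtain ⟨s, hs⟩ := (finite_Ox k hF.out).fg_top
  obtain ⟨b, hb⟩ := IsLocalization.exist_integer_multiples (nonZeroDivisors (Ox k x)) s
    (fun e : Ox k x => der hx (e : L))
  have hb0 : ((b : Ox k x) : L) ≠ 0 := by
    intro h
    have : (b : Ox k x) = 0 := Subtype.ext h
    exact nonZeroDivisors.coe_ne_zero b this
  refine ⟨((b : Ox k x) : L), hb0, fun v hx0 y hy => ?_⟩
  have hR : ∀ r : Rx k x, der hx (r : L) ∈ v.ge 0 := by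
    rintro ⟨r, hr⟩
    obtain ⟨p, rfl⟩ := Algebra.adjoin_mem_exists_aeval _ _ hr
    simp only
    rw [(der hx).map_aeval, der_self, smul_eq_mul, mul_one]
    exact v.mem_ge_of_mem_Rx hx0 ⟨_, Polynomial.aeval_mem_adjoin_singleton k x⟩
  have hbge : ((b : Ox k x) : L) ∈ v.ge 0 := v.mem_ge_of_mem_Ox hx0 _
  have hO : ∀ a : Ox k x, (((b : Ox k x) : L) • der hx) (a : L) ∈ v.ge 0 := by
    intro a
    have ha : a ∈ Submodule.span (Rx k x) (s : Set (Ox k x)) := by rw [hs]; trivial
    induction ha using Submodule.span_induction with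
    | mem e he =>
      obtain ⟨c, hc⟩ := hb e he
      change ((b : Ox k x) : L) * der hx (e : L) ∈ _
      have : ((b : Ox k x) : L) * der hx (e : L) = (c : L) := by
        have h2 : algebraMap (Ox k x) L c = (b : Ox k x) • der hx (e : L) := hc
        rw [Algebra.smul_def] at h2
        exact h2.symm
      rw [this]
      exact v.mem_ge_of_mem_Ox hx0 _
    | zero =>
      change (((b : Ox k x) : L) • der hx) 0 ∈ _
      rw [map_zero]; exact zero_mem _
    | add a b' _ _ ha hb' =>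
      change (((b : Ox k x) : L) • der hx) ((a : L) + (b' : L)) ∈ _
      rw [map_add]; exact add_mem ha hb'
    | smul r a _ ha =>
      change (((b : Ox k x) : L) • der hx) ((r : L) * (a : L)) ∈ _
      rw [Derivation.leibniz, smul_eq_mul, smul_eq_mul]
      refine add_mem ?_ ?_
      · have := v.mul_mem_ge (v.mem_ge_of_mem_Rx hx0 r) ha
        rwa [zero_add] at this
      · have h3 := v.mul_mem_ge (v.mem_ge_of_mem_Ox hx0 a) (v.mul_mem_ge hbge (hR r))
        rw [zero_add, zero_add] at h3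
        exact h3
  exact v.derivation_mem_ge hx hx0 (((b : Ox k x) : L) • der hx) hO hy

/-- at a place where `x` is finite, `dx` is holomorphic -/
theorem Place.dv_mem_ge_of_mem (v : Place k L) {x : L} (hx0 : x ∈ v.ge 0) : v.dv x ∈ v.ge 0 :=
  v.dv_mem_ge_zero hx0

/-- for almost all places `dx` has order zero -/
theorem finite_ord_dv_ne_zero {x : L} (hx : Transcendental k x) :
    {v : Place k L | v.ord (v.dv x) ≠ 0}.Finite := by
  obtain ⟨g, hg0, hg⟩ := exists_denominator hx
  apply ((finite_ord_ne_zero (k := k) x).union (finite_ord_ne_zero (k := k) g)).subset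
  intro v hv
  by_contra hcon
  rw [Set.mem_union, not_or] at hcon
  obtain ⟨h1, h2⟩ := hcon
  simp only [Set.mem_ofPred_eq, not_not] at h1 h2
  have hx0 : x ∈ v.ge 0 := v.mem_ge_of_le h1.ge
  have h3 := hg v hx0 v.unif (v.mem_ge_of_le (by rw [v.ord_unif]; decide))
  have h4 := v.dv_mem_ge_zero hx0
  have h5 := v.le_ord_of_mem h4 (v.dv_ne_zero hx)
  have h6 : der hx v.unif ≠ 0 := der_ne_zero hx v.transcendental_unif
  have h7 := v.le_ord_of_mem h3 (mul_ne_zero hg0 h6)
  rw [v.ord_mul _ _ hg0 h6, h2, v.ord_der_unif] at h7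
  exact hv (by omega)

theorem finite_ordDiff_ne_zero (ω : Ω[L⁄k]) : {v : Place k L | v.ordDiff ω ≠ 0}.Finite := by
  obtain ⟨x, hx⟩ := FunField.exists_transcendental (k := k) (L := L)
  obtain ⟨g, rfl⟩ := (kaehlerEquiv hx).surjective ω
  rw [kaehlerEquiv_apply]
  by_cases hg : g = 0
  · subst hg
    convert Set.finite_empty
    ext v
    simp only [Set.mem_ofPred_eq, Set.mem_empty_iff_false, iff_false, not_not]
    rw [v.ordDiff_smul_D, zero_mul, v.ord_zero]
  apply ((finite_ord_ne_zero (k := k) g).union (finite_ord_dv_ne_zero hx)).subset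
  intro v hv
  by_contra hcon
  rw [Set.mem_union, not_or] at hcon
  obtain ⟨h1, h2⟩ := hcon
  simp only [Set.mem_ofPred_eq, not_not] at h1 h2
  apply hv
  rw [v.ordDiff_smul_D, v.ord_mul _ _ hg (v.dv_ne_zero hx), h1, h2, add_zero]

theorem finsum_ordDiff_eq {ω ω' : Ω[L⁄k]} (h : ω ≠ 0) (h' : ω' ≠ 0) :
    ∑ᶠ v : Place k L, v.ordDiff ω = ∑ᶠ v : Place k L, v.ordDiff ω' := by
  obtain ⟨x, hx⟩ := FunField.exists_transcendental (k := k) (L := L)
  obtain ⟨g, hg⟩ := (kaehlerEquiv hx).surjective ω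
  obtain ⟨g', hg'⟩ := (kaehlerEquiv hx).surjective ω'
  have hg0 : g ≠ 0 := by rintro rfl; apply h; rw [← hg, map_zero]
  have hg0' : g' ≠ 0 := by rintro rfl; apply h'; rw [← hg', map_zero]
  have h1 : ω = (g / g') • ω' := by
    rw [← hg, ← hg', ← map_smul, smul_eq_mul, div_mul_cancel₀ _ hg0']
  have h2 : ∀ v : Place k L, v.ordDiff ω = v.ord (g / g') + v.ordDiff ω' := by
    intro v
    rw [h1]
    exact v.ordDiff_smul (div_ne_zero hg0 hg0') h'
  rw [finsum_congr h2, finsum_add_distrib (finite_ord_ne_zero (k := k) _)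
    (finite_ordDiff_ne_zero ω'), finsum_ord, zero_add]

/-- the degree of the divisor of any nonzero differential is `chi` -/
theorem finsum_ordDiff {ω : Ω[L⁄k]} (h : ω ≠ 0) : ∑ᶠ v : Place k L, v.ordDiff ω = chi k L := by
  classical
  have hex : ∃ ω : Ω[L⁄k], ω ≠ 0 := ⟨ω, h⟩
  unfold chi
  rw [dif_pos hex]
  exact finsum_ordDiff_eq h hex.choose_spec

theorem finsum_ord_dv {x : L} (hx : Transcendental k x) :
    ∑ᶠ v : Place k L, v.ord (v.dv x) = chi k L := by
  rw [← finsum_ordDiff (D_ne_zero hx)]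
  exact finsum_congr fun v => (v.ordDiff_D x).symm

end Pool.Agent.Helper11
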