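import Pool.Agent.Helper11.Defs

namespace Pool.Agent.Helper11

namespace Place

variable {k L : Type*} [Field k] [Field L] [Algebra k L] (v : Place k L)

theorem ord_one : v.ord 1 = 0 := by
  have := v.ord_algebraMap 1
  simpa using this

theorem ord_neg_one : v.ord (-1) = 0 := by
  have := v.ord_algebraMap (-1)
  simpa using this

theorem ord_neg (x : L) : v.ord (-x) = v.ord x := by
  by_cases hx : x = 0
  · simp [hx]
  · have := v.ord_mul (-1) x (by simp) hx
    rw [v.ord_neg_one, zero_add] at this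
    simpa using this

theorem ord_inv (x : L) : v.ord x⁻¹ = - v.ord x := by
  by_cases hx : x = 0
  · simp [hx, v.ord_zero]
  · have := v.ord_mul x x⁻¹ hx (inv_ne_zero hx)
    rw [mul_inv_cancel₀ hx, v.ord_one] at this
    omega

theorem ord_div {x y : L} (hx : x ≠ 0) (hy : y ≠ 0) : v.ord (x / y) = v.ord x - v.ord y := by
  rw [div_eq_mul_inv, v.ord_mul x _ hx (inv_ne_zero hy), v.ord_inv]
  ring

theorem ord_pow (x : L) (n : ℕ) : v.ord (x ^ n) = n * v.ord x := by
  by_cases hx : x = 0
  · rcases n with _ | n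
    · simp [hx, v.ord_one]
    · simp [hx, v.ord_zero]
  · induction n with
    | zero => simp [v.ord_one]
    | succ n ih =>
      rw [pow_succ, v.ord_mul _ _ (pow_ne_zero _ hx) hx, ih]
      push_cast
      ring

theorem ord_zpow (x : L) (n : ℤ) : v.ord (x ^ n) = n * v.ord x := by
  rcases n with n | n
  · simpa using v.ord_pow x n
  · rw [zpow_negSucc, v.ord_inv, v.ord_pow]
    push_cast [Int.negSucc_eq]
    ring

theorem ord_prod {ι : Type*} (s : Finset ι) (f : ι → L) (hf : ∀ i ∈ s, f i ≠ 0) :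
    v.ord (∏ i ∈ s, f i) = ∑ i ∈ s, v.ord (f i) := by
  classical
  induction s using Finset.induction_on with
  | empty => simp [v.ord_one]
  | insert a s ha ih =>
    rw [Finset.prod_insert ha, Finset.sum_insert ha, v.ord_mul _ _ (hf a (by simp))
      (Finset.prod_ne_zero_iff.2 fun i hi => hf i (by simp [hi])), ih fun i hi => hf i (by simp [hi])]

/-- the elements of order at least `n`, together with `0` -/
def ge (n : ℤ) : AddSubgroup L where
  carrier := {x | x = 0 ∨ n ≤ v.ord x}
  zero_mem' := Or.inl rfl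
  add_mem' := by
    rintro x y (rfl | hx) (rfl | hy)
    · simp
    · rw [zero_add]; exact Or.inr hy
    · rw [add_zero]; exact Or.inr hx
    · by_cases h0 : x = 0
      · subst h0; rw [zero_add]; exact Or.inr hy
      by_cases h1 : y = 0
      · subst h1; rw [add_zero]; exact Or.inr hx
      by_cases h2 : x + y = 0
      · exact Or.inl h2
      · right
        have := v.ord_add x y h0 h1 h2
        exact le_trans (le_min hx hy) this
  neg_mem' := by
    rintro x (rfl | hx)
    · simp
    · right; rw [v.ord_neg]; exact hx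

theorem mem_ge {n : ℤ} {x : L} : x ∈ v.ge n ↔ x = 0 ∨ n ≤ v.ord x := Iff.rfl

theorem mem_ge_of_le {n : ℤ} {x : L} (h : n ≤ v.ord x) : x ∈ v.ge n := Or.inr h

theorem mem_ge_ord (x : L) : x ∈ v.ge (v.ord x) := Or.inr le_rfl

theorem le_ord_of_mem {n : ℤ} {x : L} (h : x ∈ v.ge n) (hx : x ≠ 0) : n ≤ v.ord x :=
  h.resolve_left hx

theorem ge_anti {m n : ℤ} (h : m ≤ n) : v.ge n ≤ v.ge m := by
  rintro x (rfl | hx)
  · exact zero_mem _
  · exact Or.inr (h.trans hx)

theorem mul_mem_ge {m n : ℤ} {x y : L} (hx : x ∈ v.ge m) (hy : y ∈ v.ge n) :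
    x * y ∈ v.ge (m + n) := by
  by_cases h0 : x = 0
  · subst h0; rw [zero_mul]; exact zero_mem _
  by_cases h1 : y = 0
  · subst h1; rw [mul_zero]; exact zero_mem _
  right
  rw [v.ord_mul x y h0 h1]
  exact add_le_add (v.le_ord_of_mem hx h0) (v.le_ord_of_mem hy h1)

theorem one_mem_ge : (1 : L) ∈ v.ge 0 := Or.inr (by rw [v.ord_one])

theorem algebraMap_mem_ge (c : k) : algebraMap k L c ∈ v.ge 0 := Or.inr (by rw [v.ord_algebraMap])

theorem natCast_mem_ge (n : ℕ) : (n : L) ∈ v.ge 0 := by
  have := v.algebraMap_mem_ge (n : k)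
  simpa using this

theorem intCast_mem_ge (n : ℤ) : (n : L) ∈ v.ge 0 := by
  have := v.algebraMap_mem_ge (n : k)
  simpa using this

theorem pow_mem_ge {m : ℤ} {x : L} (hx : x ∈ v.ge m) (n : ℕ) : x ^ n ∈ v.ge (n * m) := by
  induction n with
  | zero => simpa using v.one_mem_ge
  | succ n ih =>
    rw [pow_succ]
    have := v.mul_mem_ge ih hx
    push_cast
    rw [add_mul, one_mul]
    exact this

theorem prod_mem_ge {ι : Type*} (s : Finset ι) (f : ι → L) (a : ι → ℤ)
    (hf : ∀ i ∈ s, f i ∈ v.ge (a i)) : ∏ i ∈ s, f i ∈ v.ge (∑ i ∈ s, a i) := by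
  classical
  induction s using Finset.induction_on with
  | empty => simpa using v.one_mem_ge
  | insert b s hb ih =>
    rw [Finset.prod_insert hb, Finset.sum_insert hb]
    exact v.mul_mem_ge (hf b (by simp)) (ih fun i hi => hf i (by simp [hi]))

theorem smul_mem_ge {n : ℤ} {x : L} (c : k) (hx : x ∈ v.ge n) : c • x ∈ v.ge n := by
  rw [Algebra.smul_def]
  have := v.mul_mem_ge (v.algebraMap_mem_ge c) hx
  rwa [zero_add] at this

/-- order of a sum, strict case -/
theorem ord_add_eq_left {x y : L} (hx : x ≠ 0) (h : y = 0 ∨ v.ord x < v.ord y) :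
    x + y ≠ 0 ∧ v.ord (x + y) = v.ord x := by
  rcases h with rfl | h
  · simpa using hx
  by_cases hy : y = 0
  · subst hy; simpa using hx
  have hxy : x + y ≠ 0 := by
    intro h0
    have : y = -x := by linear_combination h0
    rw [this, v.ord_neg] at h
    exact lt_irrefl _ h
  refine ⟨hxy, le_antisymm ?_ ?_⟩
  · by_contra hlt
    push Not at hlt
    have h1 : x = (x + y) + (-y) := by ring
    have h2 := v.ord_add (x + y) (-y) hxy (neg_ne_zero.2 hy) (by rw [← h1]; exact hx)
    rw [← h1, v.ord_neg] at h2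
    have := lt_min hlt h
    omega
  · have := v.ord_add x y hx hy hxy
    exact le_trans (le_min le_rfl h.le) this

theorem ord_add_eq_right {x y : L} (hy : y ≠ 0) (h : x = 0 ∨ v.ord y < v.ord x) :
    x + y ≠ 0 ∧ v.ord (x + y) = v.ord y := by
  rw [add_comm]
  exact v.ord_add_eq_left hy h

theorem ne_zero_of_ord_ne_zero {x : L} (h : v.ord x ≠ 0) : x ≠ 0 := by
  rintro rfl
  exact h v.ord_zero

/-- a uniformizer at `v` -/
noncomputable def unif : L := v.exists_ord_eq_one.choose

theorem ord_unif : v.ord v.unif = 1 := v.exists_ord_eq_one.choose_spec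

theorem unif_ne_zero : v.unif ≠ 0 := v.ne_zero_of_ord_ne_zero (by rw [v.ord_unif]; decide)

end Place

end Pool.Agent.Helper11
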