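import Pool.Agent.Helper11.Degree

namespace Pool.Agent.Helper11

open IntermediateField Polynomial KaehlerDifferential TensorProduct

variable {k L : Type*} [Field k] [Field L] [Algebra k L] [FunField k L] [CharZero k]

theorem kaehler_bijective {x : L} (hx : Transcendental k x) :
    Function.Bijective (fun f : L => f • (D k L x)) := by
  let K := k⟮x⟯
  let xK : K := AdjoinSimple.gen k x
  let : Algebra k[X] K := (aeval xK).toAlgebra
  let : Algebra k[X] L := (aeval x).toAlgebra
  have : IsScalarTower k k[X] K := IsScalarTower.of_algebraMap_eq fun c => by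
    change _ = aeval xK (C c); simp
  have : IsScalarTower k k[X] L := IsScalarTower.of_algebraMap_eq fun c => by
    change _ = aeval x (C c); simp
  have : IsScalarTower k[X] K L := IsScalarTower.of_algebraMap_eq fun p => by
    change aeval x p = algebraMap K L (aeval xK p)
    rw [← Polynomial.aeval_algebraMap_apply]
    rfl
  have hxK : Transcendental k xK := by
    intro h
    exact hx (h.algHom (IsScalarTower.toAlgHom k K L))
  have : FaithfulSMul k[X] K := by
    rw [faithfulSMul_iff_algebraMap_injective]
    exact transcendental_iff_injective.1 hxK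
  have : IsFractionRing k[X] K := by
    refine IsFractionRing.of_field _ _ fun z => ?_
    obtain ⟨z, hz⟩ := z
    rw [IntermediateField.mem_adjoin_simple_iff] at hz
    obtain ⟨r, s, hrs⟩ := hz
    refine ⟨r, s, ?_⟩
    apply (algebraMap K L).injective
    rw [map_div₀, ← IsScalarTower.algebraMap_apply k[X] K L, ← IsScalarTower.algebraMap_apply k[X] K L]
    exact hrs
  have : Algebra.FormallyEtale k[X] K := Algebra.FormallyEtale.of_isLocalization (nonZeroDivisors k[X])
  have := FunField.finiteDimensional_adjoin hx
  have : CharZero K := charZero_of_injective_algebraMap (algebraMap k K).injective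
  have : Algebra.FormallyEtale K L := Algebra.FormallyEtale.of_isSeparable K L
  have : Algebra.FormallyEtale k[X] L := Algebra.FormallyEtale.comp k[X] K L
  let e1 := KaehlerDifferential.tensorKaehlerEquivOfFormallyEtale k k[X] L
  let e2 : L ⊗[k[X]] k[X] ≃ₗ[L] L ⊗[k[X]] Ω[k[X]⁄k] :=
    TensorProduct.AlgebraTensorModule.congr (LinearEquiv.refl L L) (polynomialEquiv k).symm
  let e3 : L ≃ₗ[L] L ⊗[k[X]] k[X] := (TensorProduct.AlgebraTensorModule.rid k[X] L L).symm
  have h : (fun f : L => f • (D k L x)) = (e3.trans (e2.trans e1)) := by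
    ext f
    simp only [LinearEquiv.trans_apply, e1, e2, e3]
    rw [show (TensorProduct.AlgebraTensorModule.rid k[X] L L).symm f = f ⊗ₜ 1 from rfl]
    rw [TensorProduct.AlgebraTensorModule.congr_tmul, tensorKaehlerEquivOfFormallyEtale_apply,
      mapBaseChange_tmul]
    simp only [LinearEquiv.refl_apply, polynomialEquiv_symm, one_smul]
    rw [map_D]
    congr 2
    change x = aeval x X
    simp
  rw [h]
  exact LinearEquiv.bijective _

/-- the module of differentials is spanned by `dx` -/
noncomputable def kaehlerEquiv {x : L} (hx : Transcendental k x) : L ≃ₗ[L] Ω[L⁄k] :=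
  LinearEquiv.ofBijective (LinearMap.toSpanSingleton L _ (D k L x)) (kaehler_bijective hx)

theorem kaehlerEquiv_apply {x : L} (hx : Transcendental k x) (f : L) :
    kaehlerEquiv hx f = f • D k L x := rfl

/-- the derivation `d/dx` of `L` -/
noncomputable def der {x : L} (hx : Transcendental k x) : Derivation k L L :=
  (kaehlerEquiv hx).symm.toLinearMap.compDer (D k L)

theorem D_eq_der_smul {x : L} (hx : Transcendental k x) (y : L) :
    D k L y = der hx y • D k L x := by
  have : kaehlerEquiv hx (der hx y) = D k L y := (kaehlerEquiv hx).apply_symm_apply (D k L y)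
  rw [← this, kaehlerEquiv_apply]

theorem der_eq_of_D_eq {x : L} (hx : Transcendental k x) {y f : L}
    (h : D k L y = f • D k L x) : der hx y = f := by
  apply (kaehlerEquiv hx).injective
  rw [kaehlerEquiv_apply, kaehlerEquiv_apply, ← h, ← D_eq_der_smul]

theorem der_self {x : L} (hx : Transcendental k x) : der hx x = 1 :=
  der_eq_of_D_eq hx (by rw [one_smul])

theorem der_algebraMap {x : L} (hx : Transcendental k x) (c : k) : der hx (algebraMap k L c) = 0 :=
  Derivation.map_algebraMap _ _

theorem D_ne_zero {x : L} (hx : Transcendental k x) : D k L x ≠ 0 := by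
  intro h
  have h1 := (kaehlerEquiv hx).injective (a₁ := 1) (a₂ := 0) (by
    rw [kaehlerEquiv_apply, kaehlerEquiv_apply, h, smul_zero, smul_zero])
  exact one_ne_zero h1

/-- chain rule -/
theorem der_chain {x y : L} (hx : Transcendental k x) (hy : Transcendental k y) (z : L) :
    der hx z = der hx y * der hy z := by
  apply der_eq_of_D_eq hx
  rw [D_eq_der_smul hy z, D_eq_der_smul hx y, smul_smul, mul_comm]

theorem der_ne_zero {x y : L} (hx : Transcendental k x) (hy : Transcendental k y) :
    der hx y ≠ 0 := by
  intro h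
  have := der_chain hx hy x
  rw [der_self, h, zero_mul] at this
  exact one_ne_zero this

theorem der_eq_zero_iff [IsAlgClosed k] {x y : L} (hx : Transcendental k x) :
    der hx y = 0 ↔ ∃ c : k, algebraMap k L c = y := by
  constructor
  · intro h
    by_contra hcon
    have hy : Transcendental k y := by
      intro halg
      exact hcon (mem_range_of_isAlgebraic halg)
    exact der_ne_zero hx hy h
  · rintro ⟨c, rfl⟩
    exact der_algebraMap hx c

namespace Place

variable [IsAlgClosed k] (v : Place k L)

omit [FunField k L] [CharZero k] in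
theorem transcendental_unif : Transcendental k v.unif :=
  v.transcendental_of_ord_ne_zero (by rw [v.ord_unif]; decide)

/-- the derivation with respect to the chosen uniformizer -/
noncomputable def dv : Derivation k L L := der v.transcendental_unif

theorem dv_unif : v.dv v.unif = 1 := der_self _

theorem dv_bounded : ∃ M : ℕ, ∀ y ∈ v.ge 0, v.dv y ∈ v.ge (-M) := by
  classical
  have hF : Fact (Transcendental k v.unif) := ⟨v.transcendental_unif⟩
  set x := v.unif with hx
  have hx0 : x ∈ v.ge 0 := v.mem_ge_of_le (by rw [v.ord_unif]; decide)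
  obtain ⟨s, hs⟩ := (finite_Ox k hF.out).fg_top
  -- bound on generators
  obtain ⟨M, hM⟩ : ∃ M : ℕ, ∀ e ∈ s, v.dv (e : L) ∈ v.ge (-M) := by
    refine ⟨s.sup fun e => (- v.ord (v.dv (e : L))).toNat, fun e he => ?_⟩
    right
    have := Finset.le_sup (f := fun e : Ox k x => (- v.ord (v.dv (e : L))).toNat) he
    omega
  have hR : ∀ r : Rx k x, v.dv (r : L) ∈ v.ge 0 := by
    rintro ⟨r, hr⟩
    obtain ⟨p, rfl⟩ := Algebra.adjoin_mem_exists_aeval _ _ hr
    simp only
    rw [(v.dv).map_aeval, v.dv_unif, smul_eq_mul, mul_one]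
    exact v.mem_ge_of_mem_Rx hx0 ⟨_, Polynomial.aeval_mem_adjoin_singleton k x⟩
  have hO : ∀ a : Ox k x, v.dv (a : L) ∈ v.ge (-M) := by
    intro a
    have ha : a ∈ Submodule.span (Rx k x) (s : Set (Ox k x)) := by rw [hs]; trivial
    induction ha using Submodule.span_induction with
    | mem e he => exact hM e he
    | zero => 
      change v.dv 0 ∈ _
      rw [map_zero]; exact zero_mem _
    | add a b _ _ ha hb =>
      change v.dv ((a : L) + (b : L)) ∈ _
      rw [map_add]; exact add_mem ha hb
    | smul r a _ ha =>
      change v.dv ((r : L) * (a : L)) ∈ _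
      rw [Derivation.leibniz, smul_eq_mul, smul_eq_mul]
      refine add_mem ?_ ?_
      · have := v.mul_mem_ge (v.mem_ge_of_mem_Rx hx0 r) ha
        rwa [zero_add] at this
      · have := v.mul_mem_ge (v.mem_ge_of_mem_Ox hx0 a) (hR r)
        refine v.ge_anti ?_ this
        omega
  refine ⟨M, fun y hy => ?_⟩
  set P := v.center hx0 with hP
  have hvP : v = placeOfPrime P := v.eq_placeOfPrime_center hx0
  by_cases hy0 : y = 0
  · rw [hy0, map_zero]; exact zero_mem _
  have hPy : P.valuation L y ≤ 1 := by
    have h1 := v.le_ord_of_mem hy hy0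
    have h1' : 0 ≤ (placeOfPrime P).ord y := hvP ▸ h1
    rw [placeOfPrime_ord] at h1'
    have h4 : P.valuation L y ≠ 0 := (Valuation.ne_zero_iff _).2 hy0
    rw [← WithZero.log_le_log h4 one_ne_zero, WithZero.log_one]
    omega
  obtain ⟨n, d, hnd⟩ := P.exists_primeCompl_mul_eq_of_integer y hPy
  have hd : (d : Ox k x) ∉ v.centerIdeal hx0 := d.2
  have hd1 := v.ord_eq_zero_of_notMem hx0 _ hd
  have hd0 : ((d : Ox k x) : L) ≠ 0 := by
    intro h; exact hd (Or.inl h)
  have hnd' : y * ((d : Ox k x) : L) = (n : L) := hnd
  have h5 := congrArg v.dv hnd'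
  rw [Derivation.leibniz, smul_eq_mul, smul_eq_mul] at h5
  have h6 : v.dv y = ((d : Ox k x) : L)⁻¹ * (v.dv (n : L) - y * v.dv ((d : Ox k x) : L)) := by
    field_simp
    linear_combination h5
  rw [h6]
  have h7 : v.dv (n : L) - y * v.dv ((d : Ox k x) : L) ∈ v.ge (-M) := by
    refine sub_mem (hO n) ?_
    have := v.mul_mem_ge hy (hO (d : Ox k x))
    rwa [zero_add] at this
  have h8 := v.mul_mem_ge (v.mem_ge_ord ((d : Ox k x) : L)⁻¹) h7
  rw [v.ord_inv, hd1] at h8
  simpa using h8

/-- the derivation with respect to a uniformizer preserves the valuation ring -/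
theorem dv_mem_ge_zero {y : L} (hy : y ∈ v.ge 0) : v.dv y ∈ v.ge 0 := by
  obtain ⟨M, hM⟩ := v.dv_bounded
  induction M generalizing y with
  | zero => simpa using hM y hy
  | succ M ih =>
    apply ih hy
    intro y hy
    obtain ⟨c, hc⟩ := v.exists_residue hy
    set z := (y - algebraMap k L c) / v.unif with hz
    have hz0 : z ∈ v.ge 0 := by
      have := v.mul_mem_ge hc (v.mem_ge_ord v.unif⁻¹)
      rw [v.ord_inv, v.ord_unif] at this
      simpa [hz, div_eq_mul_inv] using this
    have hyz : y = algebraMap k L c + v.unif * z := by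
      rw [hz]; field_simp [v.unif_ne_zero]; ring
    rw [hyz, map_add, Derivation.map_algebraMap, zero_add, Derivation.leibniz, v.dv_unif, smul_eq_mul,
      smul_eq_mul, mul_one]
    refine add_mem ?_ (v.ge_anti (by omega) hz0)
    have h1 := v.mul_mem_ge (v.mem_ge_ord v.unif) (hM z hz0)
    rw [v.ord_unif] at h1
    refine v.ge_anti ?_ h1
    push_cast; omega

end Place

end Pool.Agent.Helper11
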