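import Pool.Agent.Helper11.Mason

set_option linter.unusedSectionVars false

namespace Pool.Agent.Helper11

open IntermediateField Polynomial KaehlerDifferential

variable {k F L : Type*} [Field k] [Field F] [Field L] [Algebra k F] [Algebra k L] [Algebra F L]
  [IsScalarTower k F L] [FunField k F] [FunField k L] [CharZero k] [IsAlgClosed k]
  [FiniteDimensional F L]

omit [FunField k F] [FunField k L] [CharZero k] [IsAlgClosed k] [FiniteDimensional F L] in
theorem transcendental_algebraMap {x : F} (hx : Transcendental k x) :
    Transcendental k (algebraMap F L x) := by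
  intro h
  exact hx ((isAlgebraic_algHom_iff (IsScalarTower.toAlgHom k F L) (algebraMap F L).injective).1 h)

theorem finrank_adjoin_algebraMap (x : F) :
    Module.finrank k⟮(algebraMap F L x)⟯ L = Module.finrank k⟮x⟯ F * Module.finrank F L := by
  have h1 : (k⟮x⟯).map (IsScalarTower.toAlgHom k F L) = k⟮(algebraMap F L x)⟯ := by
    rw [IntermediateField.adjoin_map]
    simp
  rw [Module.finrank_mul_finrank k⟮x⟯ F L, ← h1]
  symm
  refine Algebra.finrank_eq_of_equiv_equiv
    (equivMap k⟮x⟯ (IsScalarTower.toAlgHom k F L)).toRingEquiv (RingEquiv.refl L) ?_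
  ext a
  rfl

/-- the height in a finite extension -/
theorem ht_ext (x : F) :
    ht k (algebraMap F L x) = (Module.finrank F L : ℤ) * ht k x := by
  by_cases hx : Transcendental k x
  · rw [ht_eq_finrank hx, ht_eq_finrank (transcendental_algebraMap hx), finrank_adjoin_algebraMap]
    push_cast; ring
  · rw [ht_eq_zero hx, mul_zero]
    apply ht_eq_zero
    intro h
    apply hx
    intro h2
    exact h ((isAlgebraic_algHom_iff (IsScalarTower.toAlgHom k F L)
      (algebraMap F L).injective).2 h2)

namespace Place

variable (w : Place k L)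

theorem exists_pos_restrict (F : Type*) [Field F] [Algebra k F] [Algebra F L]
    [IsScalarTower k F L] [FunField k F] :
    ∃ x : F, 0 < w.ord (algebraMap F L x) := by
  obtain ⟨t, ht⟩ := FunField.exists_transcendental (k := k) (L := F)
  rcases lt_or_ge (w.ord (algebraMap F L t)) 0 with h | h
  · refine ⟨t⁻¹, ?_⟩
    rw [map_inv₀, w.ord_inv]; omega
  · obtain ⟨c, hc⟩ := w.exists_residue (w.mem_ge_of_le h)
    refine ⟨t - algebraMap k F c, ?_⟩
    rw [map_sub, ← IsScalarTower.algebraMap_apply]
    have h0 : algebraMap F L t - algebraMap k L c ≠ 0 := by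
      intro h1
      have h2 : t - algebraMap k F c = 0 := by
        apply (algebraMap F L).injective
        rw [map_sub, ← IsScalarTower.algebraMap_apply, h1, map_zero]
      apply ht
      rw [sub_eq_zero.1 h2]
      exact isAlgebraic_algebraMap c
    have := w.le_ord_of_mem hc h0
    omega

/-- restriction of a place to a subfield -/
theorem exists_restrict (F : Type*) [Field F] [Algebra k F] [Algebra F L]
    [IsScalarTower k F L] [FunField k F] :
    ∃ (v : Place k F) (e : ℕ), 0 < e ∧ ∀ x : F, w.ord (algebraMap F L x) = e * v.ord x := by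
  classical
  have hex : ∃ n : ℕ, 0 < n ∧ ∃ x : F, w.ord (algebraMap F L x) = n := by
    obtain ⟨x, hx⟩ := w.exists_pos_restrict F
    refine ⟨(w.ord (algebraMap F L x)).toNat, by omega, x, by omega⟩
  set e := Nat.find hex with he
  obtain ⟨he0, π, hπ⟩ := Nat.find_spec hex
  rw [← he] at he0 hπ
  have hπ0 : π ≠ 0 := by
    rintro rfl
    rw [map_zero, w.ord_zero] at hπ
    omega
  have hπ1 : algebraMap F L π ≠ 0 := by rwa [Ne, map_eq_zero]
  have hdiv : ∀ x : F, (e : ℤ) ∣ w.ord (algebraMap F L x) := by
    intro x
    by_cases hx : x = 0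
    · subst hx; rw [map_zero, w.ord_zero]; exact dvd_zero _
    have hx1 : algebraMap F L x ≠ 0 := by rwa [Ne, map_eq_zero]
    set a := w.ord (algebraMap F L x) with ha
    have h1 : w.ord (algebraMap F L (x * π ^ (-(a / e)))) = a % e := by
      rw [map_mul, map_zpow₀, w.ord_mul _ _ hx1 (zpow_ne_zero _ hπ1), w.ord_zpow, hπ, ← ha]
      have := Int.emod_add_mul_ediv a e
      linear_combination -this
    by_contra hcon
    have h2 : a % e ≠ 0 := fun h => hcon (Int.dvd_of_emod_eq_zero h)
    have h3 : 0 ≤ a % e := Int.emod_nonneg _ (by omega)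
    have h4 : a % e < e := Int.emod_lt_of_pos _ (by omega)
    have h5 : (a % e).toNat < Nat.find hex := by
      rw [← he]; omega
    apply Nat.find_min hex h5
    refine ⟨by omega, x * π ^ (-(a / e)), ?_⟩
    rw [h1]; omega
  choose f hf using hdiv
  have heZ : (e : ℤ) ≠ 0 := by omega
  refine ⟨{ ord := f
            ord_zero := ?_
            ord_mul := ?_
            ord_add := ?_
            ord_algebraMap := ?_
            exists_ord_eq_one := ?_ }, e, he0, hf⟩
  · have := hf 0
    rw [map_zero, w.ord_zero] at this
    rcases mul_eq_zero.1 this.symm with h | h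
    · exact absurd h heZ
    · exact h
  · intro x y hx hy
    have hx1 : algebraMap F L x ≠ 0 := by rwa [Ne, map_eq_zero]
    have hy1 : algebraMap F L y ≠ 0 := by rwa [Ne, map_eq_zero]
    have := hf (x * y)
    rw [map_mul, w.ord_mul _ _ hx1 hy1, hf x, hf y, ← mul_add] at this
    exact (mul_left_cancel₀ heZ this).symm
  · intro x y hx hy hxy
    have hx1 : algebraMap F L x ≠ 0 := by rwa [Ne, map_eq_zero]
    have hy1 : algebraMap F L y ≠ 0 := by rwa [Ne, map_eq_zero]
    have hxy1 : algebraMap F L x + algebraMap F L y ≠ 0 := by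
      rw [← map_add]; rwa [Ne, map_eq_zero]
    have := w.ord_add _ _ hx1 hy1 hxy1
    rw [← map_add, hf x, hf y, hf (x + y), ← mul_min_of_nonneg _ _ (by omega)] at this
    exact le_of_mul_le_mul_left this (by omega)
  · intro c
    have := hf (algebraMap k F c)
    rw [← IsScalarTower.algebraMap_apply, w.ord_algebraMap] at this
    rcases mul_eq_zero.1 this.symm with h | h
    · exact absurd h heZ
    · exact h
  · refine ⟨π, ?_⟩
    have := hf π
    rw [hπ] at this
    have h2 : (e : ℤ) * 1 = e * f π := by rw [mul_one]; exact this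
    exact (mul_left_cancel₀ heZ h2).symm

/-- the restriction of a place -/
noncomputable def res (F : Type*) [Field F] [Algebra k F] [Algebra F L]
    [IsScalarTower k F L] [FunField k F] : Place k F := (w.exists_restrict F).choose

/-- the ramification index -/
noncomputable def ram (F : Type*) [Field F] [Algebra k F] [Algebra F L]
    [IsScalarTower k F L] [FunField k F] : ℕ := (w.exists_restrict F).choose_spec.choose

theorem ram_pos (F : Type*) [Field F] [Algebra k F] [Algebra F L]
    [IsScalarTower k F L] [FunField k F] : 0 < w.ram F :=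
  (w.exists_restrict F).choose_spec.choose_spec.1

theorem ord_restrict (x : F) : w.ord (algebraMap F L x) = w.ram F * (w.res F).ord x :=
  (w.exists_restrict F).choose_spec.choose_spec.2 x

theorem ord_unif_res : w.ord (algebraMap F L (w.res F).unif) = w.ram F := by
  rw [w.ord_restrict, (w.res F).ord_unif, mul_one]

/-- compatibility of the derivations -/
theorem dv_algebraMap (v : Place k F) (x : F) :
    w.dv (algebraMap F L x) = w.dv (algebraMap F L v.unif) * algebraMap F L (v.dv x) := by
  set d := (w.dv).compAlgebraMap F with hd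
  have h1 : ∀ y : F, w.dv (algebraMap F L y) = d.liftKaehlerDifferential (D k F y) := by
    intro y
    rw [Derivation.liftKaehlerDifferential_comp_D]
    rfl
  rw [h1, h1, D_eq_der_smul v.transcendental_unif x, map_smul, Algebra.smul_def, mul_comm]
  rfl

/-- the order of the differential `dx` at a place of an extension -/
theorem ord_dv_algebraMap {x : F} (hx : Transcendental k x) :
    w.ord (w.dv (algebraMap F L x)) = (w.ram F : ℤ) - 1 + w.ram F * (w.res F).ord ((w.res F).dv x) := by
  have h1 : w.ord (algebraMap F L (w.res F).unif) ≠ 0 := by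
    rw [w.ord_unif_res]
    have := w.ram_pos F
    omega
  obtain ⟨h2, h3⟩ := w.ord_dv h1
  have h4 : algebraMap F L ((w.res F).dv x) ≠ 0 := by
    rw [Ne, map_eq_zero]; exact (w.res F).dv_ne_zero hx
  rw [w.dv_algebraMap (w.res F), w.ord_mul _ _ h2 h4, h3, w.ord_unif_res, w.ord_restrict]

end Place

end Pool.Agent.Helper11
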