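import Pool.Agent.Helper11.Ext

set_option linter.unusedSectionVars false

namespace Pool.Agent.Helper11

open IntermediateField Polynomial KaehlerDifferential

section LemmaU

variable {k L : Type*} [Field k] [Field L] [Algebra k L] [FunField k L] [CharZero k] [IsAlgClosed k]

namespace Place

variable (w : Place k L)

theorem derivation_eq (δ : Derivation k L L) (y : L) : δ y = w.dv y * δ w.unif := by
  have h1 : ∀ y : L, δ y = δ.liftKaehlerDifferential (D k L y) := by
    intro y
    rw [Derivation.liftKaehlerDifferential_comp_D]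
  rw [h1, h1 w.unif, D_eq_der_smul w.transcendental_unif y, map_smul, smul_eq_mul]
  rfl

/-- If a derivation preserves a subring of the valuation ring with the full quotient field then it
does not lower the order of a uniformizer below zero. -/
theorem ord_derivation_unif_nonneg (δ : Derivation k L L) (A : Set L)
    (hA : ∀ a ∈ A, a ∈ w.ge 0) (hδ : ∀ a ∈ A, δ a ∈ A)
    (hfrac : ∀ y : L, ∃ a ∈ A, ∃ b ∈ A, b ≠ 0 ∧ y * b = a) (h0 : δ w.unif ≠ 0) :
    0 ≤ w.ord (δ w.unif) := by
  by_contra hneg
  push Not at hneg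
  set s : ℤ := 1 - w.ord (δ w.unif) with hs
  have key : ∀ n : ℕ, ∀ y ∈ A, y ≠ 0 → w.ord y = n → s ∣ n := by
    intro n
    induction n using Nat.strong_induction_on with
    | _ n ih =>
      intro y hy hy0 hyn
      by_cases hn : n = 0
      · subst hn; exact dvd_zero _
      have h1 : w.ord y ≠ 0 := by rw [hyn]; exact_mod_cast hn
      obtain ⟨h2, h3⟩ := w.ord_dv h1
      have h4 : w.ord (δ y) = n - s := by
        rw [w.derivation_eq δ y, w.ord_mul _ _ h2 h0, h3, hyn, hs]; ring
      have h5 : δ y ≠ 0 := by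
        rw [w.derivation_eq δ y]; exact mul_ne_zero h2 h0
      have h6 := w.le_ord_of_mem (hA _ (hδ y hy)) h5
      rw [h4] at h6
      have h7 := ih (n - s).toNat (by omega) (δ y) (hδ y hy) h5 (by rw [h4]; omega)
      have h8 : (((n : ℤ) - s).toNat : ℤ) = n - s := by omega
      rw [h8] at h7
      have h9 := dvd_add h7 (dvd_refl s)
      rwa [sub_add_cancel] at h9
  obtain ⟨a, ha, b, hb, hb0, hab⟩ := hfrac w.unif
  have ha0 : a ≠ 0 := by rw [← hab]; exact mul_ne_zero w.unif_ne_zero hb0
  have h1 := w.ord_mul _ _ w.unif_ne_zero hb0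
  rw [hab, w.ord_unif] at h1
  have h2 := w.le_ord_of_mem (hA a ha) ha0
  have h3 := w.le_ord_of_mem (hA b hb) hb0
  have h4 := key (w.ord a).toNat a ha ha0 (by omega)
  have h5 := key (w.ord b).toNat b hb hb0 (by omega)
  have h6 : ((w.ord a).toNat : ℤ) - ((w.ord b).toNat : ℤ) = 1 := by omega
  have h7 := dvd_sub h4 h5
  rw [h6] at h7
  have := Int.le_of_dvd one_pos h7
  omega

end Place

end LemmaU

variable {k F L : Type*} [Field k] [Field F] [Field L] [Algebra k F] [Algebra k L] [Algebra F L]
  [IsScalarTower k F L] [FunField k F] [FunField k L] [CharZero k] [IsAlgClosed k]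
  [FiniteDimensional F L]

/-- criterion for a place to be unramified -/
theorem Place.ram_eq_one (w : Place k L) (T : Set L) (hT : IntermediateField.adjoin F T = ⊤)
    (hT0 : ∀ x ∈ T, x ∈ w.ge 0)
    (hδ : ∀ x ∈ T, der (transcendental_algebraMap (L := L) (w.res F).transcendental_unif) x ∈
      Algebra.adjoin k ((algebraMap F L '' {y | y ∈ (w.res F).ge 0}) ∪ T)) :
    w.ram F = 1 := by
  set v := w.res F with hv
  have hπ := transcendental_algebraMap (L := L) v.transcendental_unif
  set δ := der hπ with hδdef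
  set A := Algebra.adjoin k ((algebraMap F L '' {y | y ∈ v.ge 0}) ∪ T) with hAdef
  have hram := w.ram_pos F
  -- δ on F
  have hδF : ∀ y : F, δ (algebraMap F L y) = algebraMap F L (v.dv y) := by
    intro y
    have h1 := w.dv_algebraMap v y
    have h2 := w.derivation_eq δ (algebraMap F L y)
    have h3 := w.derivation_eq δ (algebraMap F L v.unif)
    have h4 : δ (algebraMap F L v.unif) = 1 := der_self hπ
    rw [h2, h1]
    rw [h4] at h3
    linear_combination -(algebraMap F L (v.dv y)) * h3
  have hA : ∀ a ∈ A, a ∈ w.ge 0 := by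
    intro a ha
    induction ha using Algebra.adjoin_induction with
    | mem x hx =>
      rcases hx with ⟨y, hy, rfl⟩ | hx
      · rcases hy with rfl | hy
        · rw [map_zero]; exact zero_mem _
        · apply w.mem_ge_of_le
          rw [w.ord_restrict]
          exact mul_nonneg (by positivity) hy
      · exact hT0 x hx
    | algebraMap r => exact w.algebraMap_mem_ge r
    | add x y _ _ hx hy => exact add_mem hx hy
    | mul x y _ _ hx hy =>
      have := w.mul_mem_ge hx hy
      rwa [zero_add] at this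
  have hδA : ∀ a ∈ A, δ a ∈ A := by
    intro a ha
    induction ha using Algebra.adjoin_induction with
    | mem x hx =>
      rcases hx with ⟨y, hy, rfl⟩ | hx
      · rw [hδF]
        exact Algebra.subset_adjoin (Or.inl ⟨_, v.dv_mem_ge_zero hy, rfl⟩)
      · exact hδ x hx
    | algebraMap r => rw [Derivation.map_algebraMap]; exact zero_mem _
    | add x y _ _ hx hy => rw [map_add]; exact add_mem hx hy
    | mul x y hx' hy' hx hy =>
      rw [Derivation.leibniz, smul_eq_mul, smul_eq_mul]
      exact add_mem (mul_mem hx' hy) (mul_mem hy' hx)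
  have hfracF : ∀ y : F, ∃ a ∈ A, ∃ b ∈ A, b ≠ 0 ∧ (algebraMap F L y) * b = a := by
    intro y
    by_cases h : y ∈ v.ge 0
    · exact ⟨_, Algebra.subset_adjoin (Or.inl ⟨y, h, rfl⟩), 1, one_mem _, one_ne_zero, mul_one _⟩
    · have hy0 : y ≠ 0 := fun h0 => h (Or.inl h0)
      have hy1 : y⁻¹ ∈ v.ge 0 := by
        right
        rw [v.ord_inv]
        have : ¬ (0 ≤ v.ord y) := fun h0 => h (Or.inr h0)
        omega
      refine ⟨1, one_mem _, _, Algebra.subset_adjoin (Or.inl ⟨_, hy1, rfl⟩), ?_, ?_⟩
      · rw [Ne, map_eq_zero]; exact inv_ne_zero hy0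
      · rw [← map_mul, mul_inv_cancel₀ hy0, map_one]
  have hfrac : ∀ y : L, ∃ a ∈ (A : Set L), ∃ b ∈ (A : Set L), b ≠ 0 ∧ y * b = a := by
    intro y
    have hy : y ∈ IntermediateField.adjoin F T := by rw [hT]; trivial
    induction hy using IntermediateField.adjoin_induction with
    | mem x hx => exact ⟨x, Algebra.subset_adjoin (Or.inr hx), 1, one_mem _, one_ne_zero, mul_one _⟩
    | algebraMap x => exact hfracF x
    | add x y _ _ hx hy =>
      obtain ⟨a, ha, b, hb, hb0, hab⟩ := hx
      obtain ⟨c, hc, d, hd, hd0, hcd⟩ := hy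
      refine ⟨a * d + c * b, add_mem (mul_mem ha hd) (mul_mem hc hb), b * d, mul_mem hb hd,
        mul_ne_zero hb0 hd0, ?_⟩
      rw [← hab, ← hcd]; ring
    | inv x _ hx =>
      obtain ⟨a, ha, b, hb, hb0, hab⟩ := hx
      by_cases hx0 : x = 0
      · refine ⟨0, zero_mem _, 1, one_mem _, one_ne_zero, ?_⟩
        rw [hx0, inv_zero, zero_mul]
      refine ⟨b, hb, a, ha, ?_, ?_⟩
      · rw [← hab]; exact mul_ne_zero hx0 hb0
      · rw [← hab, ← mul_assoc, inv_mul_cancel₀ hx0, one_mul]
    | mul x y _ _ hx hy =>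
      obtain ⟨a, ha, b, hb, hb0, hab⟩ := hx
      obtain ⟨c, hc, d, hd, hd0, hcd⟩ := hy
      refine ⟨a * c, mul_mem ha hc, b * d, mul_mem hb hd, mul_ne_zero hb0 hd0, ?_⟩
      rw [← hab, ← hcd]; ring
  have h0 : δ w.unif ≠ 0 := der_ne_zero hπ w.transcendental_unif
  have h1 := w.ord_derivation_unif_nonneg δ A hA hδA hfrac h0
  have h2 := w.ord_der_unif hπ
  have h3 : w.ord (algebraMap F L v.unif) ≠ 0 := by
    rw [hv, w.ord_unif_res]; omega
  have h4 := (w.ord_dv h3).2
  rw [hv, w.ord_unif_res] at h4
  rw [← hv] at h4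
  rw [h2, h4] at h1
  omega

theorem finite_res_fiber (v : Place k F) : {w : Place k L | w.res F = v}.Finite := by
  apply (supp_ord (k := k) (algebraMap F L v.unif)).subset
  intro w hw h
  have hw' : w.res F = v := hw
  have := w.ord_unif_res (F := F)
  rw [hw', h] at this
  have := w.ram_pos F
  omega

open Classical in
theorem finsum_ram_fiber_le (v : Place k F) :
    ∑ᶠ w : Place k L, (if w.res F = v then (w.ram F : ℤ) else 0) ≤
      (Module.finrank F L : ℤ) * ht k v.unif := by
  rw [← ht_ext (L := L), ht_eq_pos]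
  refine fs_mono ?_ (supp_pospart _) ?_
  · refine supp_of_imp (finite_res_fiber (L := L) v) fun w hw => ?_
    rw [if_neg]; exact hw
  · intro w
    split_ifs with h
    · rw [← h, w.ord_unif_res]
      exact le_max_right _ _
    · exact le_max_left _ _

theorem supp_ram_mul (g : Place k F → ℤ) (hg : {v | g v ≠ 0}.Finite) :
    {w : Place k L | (w.ram F : ℤ) * g (w.res F) ≠ 0}.Finite := by
  have h : (⋃ v ∈ {v | g v ≠ 0}, {w : Place k L | w.res F = v}).Finite :=
    hg.biUnion fun v _ => finite_res_fiber v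
  apply h.subset
  intro w hw
  refine Set.mem_biUnion (x := w.res F) ?_ rfl
  intro h0
  exact hw (by rw [h0, mul_zero])

/-- pulled back functions have bounded sum -/
theorem finsum_ram_mul_le (g : Place k F → ℤ) (hg0 : ∀ v, 0 ≤ g v) (hg : {v | g v ≠ 0}.Finite) :
    ∑ᶠ w : Place k L, (w.ram F : ℤ) * g (w.res F) ≤
      (Module.finrank F L : ℤ) * ∑ᶠ v : Place k F, g v * ht k v.unif := by
  classical
  have h1 : ∀ w : Place k L, (w.ram F : ℤ) * g (w.res F) =
      ∑ v ∈ hg.toFinset, g v * (if w.res F = v then (w.ram F : ℤ) else 0) := by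
    intro w
    by_cases h : g (w.res F) = 0
    · rw [h, mul_zero]
      symm
      refine Finset.sum_eq_zero fun v _ => ?_
      split_ifs with h2
      · rw [← h2, h, zero_mul]
      · rw [mul_zero]
    · rw [Finset.sum_eq_single_of_mem (w.res F) (by simpa using h)]
      · rw [if_pos rfl]; ring
      · intro v _ hv
        rw [if_neg (Ne.symm hv), mul_zero]
  rw [finsum_congr h1, fs_sum]
  · rw [finsum_eq_sum_of_support_subset (s := hg.toFinset)]
    · rw [Finset.mul_sum]
      refine Finset.sum_le_sum fun v _ => ?_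
      rw [fs_const_mul]
      have := mul_le_mul_of_nonneg_left (finsum_ram_fiber_le (L := L) v) (hg0 v)
      linarith
    · intro v hv
      rw [Set.Finite.coe_toFinset]
      intro h
      exact hv (by simp only [h, zero_mul])
  · intro v _
    apply (finite_res_fiber (L := L) v).subset
    intro w hw
    by_contra h
    apply hw
    have h' : ¬ w.res F = v := h
    rw [if_neg h', mul_zero]

/-- Riemann-Hurwitz inequality: the extension is unramified outside `S`. The constant does
not depend on the extension. -/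
theorem chi_add_card_le {t : F} (htr : Transcendental k t) (S : Set (Place k L)) (hS : S.Finite)
    (hram : ∀ w ∉ S, w.ram F = 1) :
    chi k L + (S.ncard : ℤ) ≤ (Module.finrank F L : ℤ) *
      (∑ᶠ v : Place k F, max 0 (v.ord (v.dv t)) * ht k v.unif) +
      ∑ᶠ w ∈ S, (w.ram F : ℤ) := by
  classical
  have h1 := finsum_ram_mul_le (L := L) (fun v : Place k F => max 0 (v.ord (v.dv t)))
    (fun v => le_max_left _ _) (supp_max (finite_ord_dv_ne_zero htr))
  have hfin1 := supp_ram_mul (L := L) (fun v : Place k F => max 0 (v.ord (v.dv t)))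
    (supp_max (finite_ord_dv_ne_zero htr))
  have htL := transcendental_algebraMap (L := L) htr
  have h2 : ∑ᶠ w ∈ S, (w.ram F : ℤ) = ∑ᶠ w : Place k L, (if w ∈ S then (w.ram F : ℤ) else 0) := by
    refine finsum_congr fun w => ?_
    by_cases hw : w ∈ S
    · simp [hw]
    · simp [hw]
  have hfin2 : {w : Place k L | (if w ∈ S then (w.ram F : ℤ) else 0) ≠ 0}.Finite :=
    supp_of_imp hS fun w hw => if_neg hw
  rw [← fs_ind hS, ← finsum_ord_dv htL, ← fs_add (finite_ord_dv_ne_zero htL) (supp_ind hS), h2]
  refine le_trans ?_ (add_le_add_left h1 _)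
  rw [← fs_add hfin1 hfin2]
  refine fs_mono (supp_add (finite_ord_dv_ne_zero htL) (supp_ind hS)) (supp_add hfin1 hfin2) ?_
  intro w
  have h3 := w.ord_dv_algebraMap (F := F) htr
  have h4 := w.ram_pos F
  have h5 : (w.ram F : ℤ) * (w.res F).ord ((w.res F).dv t) ≤
      (w.ram F : ℤ) * max 0 ((w.res F).ord ((w.res F).dv t)) :=
    mul_le_mul_of_nonneg_left (le_max_right _ _) (by omega)
  by_cases hw : w ∈ S
  · rw [if_pos hw, if_pos hw, h3]
    linarith
  · rw [if_neg hw, if_neg hw, h3, hram w hw]
    rw [hram w hw] at h5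
    push_cast at h5 ⊢
    linarith

end Pool.Agent.Helper11
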