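import Mathlib

/-! Extension of derivations in characteristic zero -/

set_option linter.unusedSectionVars false

namespace Pool.Agent.Helper11

theorem formallySmooth_field (K E : Type*) [Field K] [Field E] [Algebra K E] [CharZero K] :
    Algebra.FormallySmooth K E := by
  obtain ⟨ι, v, hv⟩ := exists_isTranscendenceBasis' K E
  have h1 : Algebra.IsAlgebraic (IntermediateField.adjoin K (Set.range v)) E := hv.isAlgebraic_field
  have h2 : CharZero (IntermediateField.adjoin K (Set.range v)) :=
    charZero_of_injective_algebraMap (algebraMap K _).injective
  have h3 : Algebra.IsSeparable (IntermediateField.adjoin K (Set.range v)) E := inferInstance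
  exact Algebra.FormallySmooth.of_algebraicIndependent_of_isSeparable hv.1

theorem formallySmooth_domain (A E : Type*) [CommRing A] [IsDomain A] [Field E] [Algebra A E]
    [CharZero A] [FaithfulSMul A E] : Algebra.FormallySmooth A E := by
  let K := FractionRing A
  let _ : Algebra K E := FractionRing.liftAlgebra A E
  have hst : IsScalarTower A K E := FractionRing.isScalarTower_liftAlgebra A E
  have h0 : CharZero K := inferInstance
  have h1 : Algebra.FormallySmooth A K := .of_isLocalization (nonZeroDivisors A)
  have h2 : Algebra.FormallySmooth K E := formallySmooth_field K E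
  exact Algebra.FormallySmooth.comp A K E

/-- the dual numbers, without their algebra structures -/
def DualN (E : Type*) := TrivSqZeroExt E E

noncomputable instance (E : Type*) [Field E] : CommRing (DualN E) :=
  inferInstanceAs (CommRing (TrivSqZeroExt E E))

/-- the projection of the dual numbers -/
noncomputable def DualN.fstR (E : Type*) [Field E] : DualN E →+* E :=
  (TrivSqZeroExt.fstHom E E E).toRingHom

/-- derivations extend in characteristic zero -/
theorem exists_derivation_extend {k A E : Type*} [Field k] [CommRing A] [IsDomain A] [Field E]
    [Algebra k A] [Algebra k E] [Algebra A E] [IsScalarTower k A E] [CharZero A]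
    [FaithfulSMul A E] (d : Derivation k A E) :
    ∃ D : Derivation k E E, ∀ a, D (algebraMap A E a) = d a := by
  let φ : A →+* DualN E :=
    { toFun := fun a => (show TrivSqZeroExt E E from (algebraMap A E a, d a))
      map_one' := by
        apply TrivSqZeroExt.ext
        · change algebraMap A E 1 = 1
          rw [map_one]
        · change d 1 = 0
          exact d.map_one_eq_zero
      map_zero' := by
        apply TrivSqZeroExt.ext
        · change algebraMap A E 0 = 0
          rw [map_zero]
        · change d 0 = 0
          exact map_zero d
      map_add' := by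
        intro a b
        apply TrivSqZeroExt.ext
        · change algebraMap A E (a + b) = algebraMap A E a + algebraMap A E b
          rw [map_add]
        · change d (a + b) = d a + d b
          exact map_add d a b
      map_mul' := by
        intro a b
        apply TrivSqZeroExt.ext
        · change algebraMap A E (a * b) = algebraMap A E a * algebraMap A E b
          rw [map_mul]
        · change d (a * b) = algebraMap A E a • d b + MulOpposite.op (algebraMap A E b) • d a
          rw [d.leibniz, algebraMap_smul]
          congr 1
          rw [op_smul_eq_smul, algebraMap_smul] }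
  let _ : Algebra A (DualN E) := φ.toAlgebra
  let g : DualN E →ₐ[A] E := { DualN.fstR E with commutes' := fun a => rfl }
  have hg : Function.Surjective g := fun x => ⟨(show TrivSqZeroExt E E from (x, 0)), rfl⟩
  have hgapply : ∀ x : DualN E, g x = TrivSqZeroExt.fst (show TrivSqZeroExt E E from x) :=
    fun x => rfl
  have hnil : IsNilpotent (RingHom.ker (g : DualN E →+* E)) := by
    refine ⟨2, ?_⟩
    rw [pow_two, Ideal.zero_eq_bot, eq_bot_iff, Ideal.mul_le]
    intro x hx y hy
    have hx' : TrivSqZeroExt.fst (show TrivSqZeroExt E E from x) = 0 := hx
    have hy' : TrivSqZeroExt.fst (show TrivSqZeroExt E E from y) = 0 := hy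
    rw [Ideal.mem_bot]
    apply TrivSqZeroExt.ext
    · change TrivSqZeroExt.fst (show TrivSqZeroExt E E from x) *
        TrivSqZeroExt.fst (show TrivSqZeroExt E E from y) = 0
      rw [hx', zero_mul]
    · change TrivSqZeroExt.fst (show TrivSqZeroExt E E from x) • _ +
        MulOpposite.op (TrivSqZeroExt.fst (show TrivSqZeroExt E E from y)) • _ = (0 : E)
      rw [hx', hy', zero_smul, MulOpposite.op_zero, zero_smul, add_zero]
  have hsm := formallySmooth_domain A E
  let h : E →ₐ[A] DualN E := Algebra.FormallySmooth.liftOfSurjective (AlgHom.id A E) g hg hnil
  have hh : ∀ x, TrivSqZeroExt.fst (show TrivSqZeroExt E E from h x) = x := by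
    intro x
    rw [← hgapply]
    exact Algebra.FormallySmooth.liftOfSurjective_apply (AlgHom.id A E) g hg hnil x
  let s : E → E := fun x => TrivSqZeroExt.snd (show TrivSqZeroExt E E from h x)
  have hsA : ∀ a, s (algebraMap A E a) = d a := by
    intro a
    have h1 : h (algebraMap A E a) = φ a := h.commutes a
    change TrivSqZeroExt.snd (show TrivSqZeroExt E E from h (algebraMap A E a)) = d a
    rw [h1]; rfl
  have hadd : ∀ x y, s (x + y) = s x + s y := by
    intro x y
    change TrivSqZeroExt.snd (show TrivSqZeroExt E E from h (x + y)) = _
    rw [map_add]; rfl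
  have hmul : ∀ x y, s (x * y) = x * s y + y * s x := by
    intro x y
    change TrivSqZeroExt.snd (show TrivSqZeroExt E E from h (x * y)) = _
    rw [map_mul]
    change TrivSqZeroExt.fst (show TrivSqZeroExt E E from h x) • s y +
      MulOpposite.op (TrivSqZeroExt.fst (show TrivSqZeroExt E E from h y)) • s x = _
    rw [hh, hh, op_smul_eq_smul, smul_eq_mul, smul_eq_mul]
  have hk : ∀ c : k, s (algebraMap k E c) = 0 := by
    intro c
    rw [IsScalarTower.algebraMap_apply k A E, hsA, d.map_algebraMap]
  have h1 : s 1 = 0 := by
    have := hk 1
    rwa [map_one] at this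
  let Dl : E →ₗ[k] E :=
    { toFun := s
      map_add' := hadd
      map_smul' := by
        intro c x
        rw [Algebra.smul_def, hmul, hk, mul_zero, add_zero, RingHom.id_apply, Algebra.smul_def] }
  refine ⟨Derivation.mk' Dl fun x y => ?_, hsA⟩
  rw [smul_eq_mul, smul_eq_mul]
  exact hmul x y

end Pool.Agent.Helper11
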