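import Pool.Agent.Helper11.TowerExist

set_option linter.unusedSectionVars false

namespace Pool.Agent.Helper11

open IntermediateField Polynomial

section

variable {k L : Type*} [Field k] [Field L] [Algebra k L]

theorem Place.sum_mem_ge (v : Place k L) {ι : Type*} (s : Finset ι) (f : ι → L) (n : ℤ)
    (hf : ∀ i ∈ s, f i ∈ v.ge n) : ∑ i ∈ s, f i ∈ v.ge n := sum_mem hf

/-- a sum of nonzero terms with pairwise distinct orders is nonzero -/
theorem Place.sum_ne_zero (v : Place k L) {ι : Type*} (s : Finset ι) (hs : s.Nonempty) (f : ι → L)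
    (hf : ∀ i ∈ s, f i ≠ 0) (hinj : ∀ i ∈ s, ∀ j ∈ s, v.ord (f i) = v.ord (f j) → i = j) :
    ∑ i ∈ s, f i ≠ 0 := by
  classical
  obtain ⟨i, hi, hmin⟩ := s.exists_min_image (fun i => v.ord (f i)) hs
  rw [← Finset.add_sum_erase s f hi]
  have h1 : ∑ j ∈ s.erase i, f j ∈ v.ge (v.ord (f i) + 1) := by
    refine v.sum_mem_ge _ _ _ fun j hj => v.mem_ge_of_le ?_
    have hj1 := Finset.mem_of_mem_erase hj
    have hj2 := Finset.ne_of_mem_erase hj
    have h2 := hmin j hj1
    have h3 : v.ord (f i) ≠ v.ord (f j) := fun h => hj2 (hinj i hi j hj1 h).symm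
    omega
  refine (v.ord_add_eq_left (hf i hi) ?_).1
  by_cases h0 : ∑ j ∈ s.erase i, f j = 0
  · exact Or.inl h0
  · right
    have := v.le_ord_of_mem h1 h0
    omega

end

variable {k F : Type*} [Field k] [Field F] [Algebra k F] [FunField k F] [CharZero k]
  [IsAlgClosed k]

theorem exists_pos_ord {x : F} (hx : Transcendental k x) : ∃ v : Place k F, 0 < v.ord x := by
  by_contra hcon
  push Not at hcon
  have h1 := ht_pos hx
  rw [ht_eq_pos, finsum_congr (g := fun _ => (0 : ℤ)) fun v => max_eq_left (hcon v)] at h1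
  rw [finsum_zero] at h1
  exact lt_irrefl _ h1

theorem exists_coeff_bound {N : ℕ} (G : MvPolynomial (Fin N) F) (t : F) :
    ∃ B : ℕ, ∀ v : Place k F, 0 < v.ord t → ∀ a ∈ G.support, |v.ord (G.coeff a)| ≤ B := by
  classical
  have hfin : {v : Place k F | 0 < v.ord t}.Finite := finite_pos_ord t
  refine ⟨∑ v ∈ hfin.toFinset, ∑ a ∈ G.support, (v.ord (G.coeff a)).natAbs, fun v hv a ha => ?_⟩
  have h1 : (v.ord (G.coeff a)).natAbs ≤ ∑ a ∈ G.support, (v.ord (G.coeff a)).natAbs :=
    Finset.single_le_sum (f := fun a => (v.ord (G.coeff a)).natAbs) (fun _ _ => Nat.zero_le _) ha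
  have h2 : ∑ a ∈ G.support, (v.ord (G.coeff a)).natAbs ≤
      ∑ v ∈ hfin.toFinset, ∑ a ∈ G.support, (v.ord (G.coeff a)).natAbs :=
    Finset.single_le_sum (f := fun v : Place k F => ∑ a ∈ G.support, (v.ord (G.coeff a)).natAbs)
      (fun _ _ => Nat.zero_le _) (by simpa using hv)
  rw [Int.abs_eq_natAbs]
  exact_mod_cast h1.trans h2

variable {L : Type*} [Field L] [Algebra k L] [Algebra F L]
  [IsScalarTower k F L] [FunField k L] [FiniteDimensional F L]

theorem aeval_ne_zero_of_ord {N : ℕ} {G : MvPolynomial (Fin N) F} (hG : G ≠ 0) {t : F}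
    (x : Fin N → L) (hx : ∀ i, x i ≠ 0) (e : Fin N → ℕ) (w : Place k L)
    (hw : 0 < w.ord (algebraMap F L t)) (D c : ℕ)
    (hord : ∀ i, (D : ℤ) * w.ord (x i) = c * w.ord (algebraMap F L t) * e i)
    (hinj : ∀ a ∈ G.support, ∀ b ∈ G.support, ∑ i, a i * e i = ∑ i, b i * e i → a = b)
    (B : ℕ) (hB : ∀ v : Place k F, 0 < v.ord t → ∀ a ∈ G.support, |v.ord (G.coeff a)| ≤ B)
    (hDB : D * (2 * B) < c) : MvPolynomial.aeval x G ≠ 0 := by
  classical
  rw [MvPolynomial.aeval_def, MvPolynomial.eval₂_eq']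
  have hterm : ∀ a ∈ G.support, (algebraMap F L) (G.coeff a) ≠ 0 ∧
      ∏ i, x i ^ a i ≠ 0 := by
    intro a ha
    refine ⟨?_, Finset.prod_ne_zero_iff.2 fun i _ => pow_ne_zero _ (hx i)⟩
    rw [Ne, map_eq_zero]
    exact MvPolynomial.mem_support_iff.1 ha
  refine w.sum_ne_zero _ ?_ _ (fun a ha => mul_ne_zero (hterm a ha).1 (hterm a ha).2) ?_
  · rw [Finset.nonempty_iff_ne_empty, Ne, MvPolynomial.support_eq_empty]
    exact hG
  · intro a ha b hb hab
    rw [w.ord_mul _ _ (hterm a ha).1 (hterm a ha).2, w.ord_mul _ _ (hterm b hb).1 (hterm b hb).2,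
      w.ord_prod _ _ (fun i _ => pow_ne_zero _ (hx i)),
      w.ord_prod _ _ (fun i _ => pow_ne_zero _ (hx i))] at hab
    simp only [w.ord_pow] at hab
    by_contra hne
    have h1 : ∀ a : Fin N →₀ ℕ, (D : ℤ) * ∑ i, (a i : ℤ) * w.ord (x i) =
        c * w.ord (algebraMap F L t) * ((∑ i, a i * e i : ℕ) : ℤ) := by
      intro a
      push_cast
      rw [Finset.mul_sum, Finset.mul_sum]
      refine Finset.sum_congr rfl fun i _ => ?_
      linear_combination (a i : ℤ) * hord i
    have h2 : (D : ℤ) * (w.ord (algebraMap F L (G.coeff a)) - w.ord (algebraMap F L (G.coeff b))) =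
        c * w.ord (algebraMap F L t) * (((∑ i, b i * e i : ℕ) : ℤ) - ((∑ i, a i * e i : ℕ) : ℤ)) := by
      have h3 := h1 a
      have h4 := h1 b
      linear_combination (D : ℤ) * hab - h3 + h4
    have h5 : ((∑ i, b i * e i : ℕ) : ℤ) - ((∑ i, a i * e i : ℕ) : ℤ) ≠ 0 := by
      intro h6
      apply hne
      apply hinj a ha b hb
      omega
    rw [w.ord_restrict, w.ord_restrict, w.ord_restrict] at h2
    rw [w.ord_restrict] at hw
    have hram := w.ram_pos F
    have hv : 0 < (w.res F).ord t := by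
      by_contra h
      push Not at h
      have : (w.ram F : ℤ) * (w.res F).ord t ≤ 0 := mul_nonpos_of_nonneg_of_nonpos (by omega) h
      omega
    have h7 := hB _ hv a ha
    have h8 := hB _ hv b hb
    set p := (w.res F).ord (G.coeff a)
    set q := (w.res F).ord (G.coeff b)
    set τ := (w.res F).ord t
    set z := ((∑ i, b i * e i : ℕ) : ℤ) - ((∑ i, a i * e i : ℕ) : ℤ)
    have h9 : (D : ℤ) * (p - q) = c * τ * z := by
      have h10 : (w.ram F : ℤ) * ((D : ℤ) * (p - q)) = (w.ram F : ℤ) * (c * τ * z) := by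
        linear_combination h2
      exact mul_left_cancel₀ (by omega) h10
    have h11 : |(D : ℤ) * (p - q)| ≤ D * (2 * B) := by
      rw [abs_mul, abs_of_nonneg (by omega : (0 : ℤ) ≤ D)]
      apply mul_le_mul_of_nonneg_left _ (by omega)
      have := abs_sub p q
      linarith
    have h12 : (c : ℤ) ≤ |c * τ * z| := by
      rw [abs_mul, abs_mul, abs_of_nonneg (by omega : (0 : ℤ) ≤ c), abs_of_pos hv]
      have h13 : 1 ≤ |z| := Int.one_le_abs h5
      have h14 : 1 ≤ τ := hv
      have h15 : (c : ℤ) * 1 ≤ c * τ := mul_le_mul_of_nonneg_left h14 (by omega)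
      have h16 : (c : ℤ) * τ * 1 ≤ c * τ * |z| := mul_le_mul_of_nonneg_left h13 (by positivity)
      linarith
    rw [h9] at h11
    have h17 : (D : ℤ) * (2 * B) < c := by exact_mod_cast hDB
    linarith

/-- uniqueness of expansions in base `b` -/
theorem digits_inj (b : ℕ) : ∀ (n : ℕ) (a a' : Fin n → ℕ), (∀ i, a i < b) → (∀ i, a' i < b) →
    ∑ i, a i * b ^ (i : ℕ) = ∑ i, a' i * b ^ (i : ℕ) → a = a' := by
  intro n
  induction n with
  | zero => intro a a' _ _ _; exact Subsingleton.elim _ _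
  | succ n ih =>
    intro a a' ha ha' h
    rw [Fin.sum_univ_succ, Fin.sum_univ_succ] at h
    simp only [Fin.val_zero, pow_zero, mul_one, Fin.val_succ] at h
    have h1 : ∀ c : Fin (n + 1) → ℕ, ∑ i : Fin n, c i.succ * b ^ ((i : ℕ) + 1) =
        b * ∑ i : Fin n, c i.succ * b ^ (i : ℕ) := by
      intro c
      rw [Finset.mul_sum]
      refine Finset.sum_congr rfl fun i _ => ?_
      rw [pow_succ]; ring
    rw [h1, h1] at h
    have hb : 0 < b := lt_of_le_of_lt (Nat.zero_le _) (ha 0)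
    have h2 : a 0 = a' 0 := by
      have := congrArg (· % b) h
      simpa [Nat.add_mul_mod_self_left, Nat.mod_eq_of_lt (ha 0), Nat.mod_eq_of_lt (ha' 0)] using this
    rw [h2] at h
    have h3 : ∑ i : Fin n, a i.succ * b ^ (i : ℕ) = ∑ i : Fin n, a' i.succ * b ^ (i : ℕ) :=
      Nat.eq_of_mul_eq_mul_left hb (Nat.add_left_cancel h)
    have h4 := ih (fun i => a i.succ) (fun i => a' i.succ) (fun i => ha _) (fun i => ha' _) h3
    funext i
    refine Fin.cases h2 (fun j => ?_) i
    exact congrFun h4 j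

namespace IsTower

variable {t : F} {M m q : ℕ} {s y : ℕ → L} (T : IsTower t M m q s y)

include T

theorem ord_s_of_pos (htr : Transcendental k t) (hM : 1 ≤ M) (w : Place k L)
    (hw : 0 < w.ord (algebraMap F L t)) : ∀ i ≤ m, 0 < w.ord (s i) ∧
      2 ^ i * w.ord (s i) = M * w.ord (algebraMap F L t) := by
  intro i
  induction i with
  | zero =>
    intro _
    rw [T.zero, map_pow, w.ord_pow]
    refine ⟨by positivity, by ring⟩
  | succ i ih =>
    intro hi
    obtain ⟨h1, h2⟩ := ih (by omega)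
    have h3 := w.ord_step_of_pos (T.transcendental_s htr hM i (by omega)) (T.succ i (by omega)) h1
    refine ⟨by omega, ?_⟩
    rw [← h2, pow_succ, ← h3]; ring

end IsTower

end Pool.Agent.Helper11
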