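import Mathlib

/-! The identity `z ^ (2k+1) - 1 = ∑ c_j (z-1)^(2j+1) z^(k-j)` with positive integers `c_j`. -/

namespace Pool.Agent.Helper11

open Polynomial

/-- auxiliary polynomials `(D_(k+1), E_(k+1))` -/
noncomputable def bbDE : ℕ → ℕ[X] × ℕ[X]
  | 0 => (X + 2, X)
  | k + 1 => ((bbDE k).1 + ((bbDE k).2 + X * (bbDE k).1), (bbDE k).2 + X * (bbDE k).1)

/-- the polynomials `S_k` -/
noncomputable def bbS : ℕ → ℕ[X]
  | 0 => 1
  | k + 1 => bbS k + (bbDE k).1

theorem bbD_coeff_pos (k : ℕ) : ∀ j ≤ k + 1, 0 < (bbDE k).1.coeff j := by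
  induction k with
  | zero =>
    intro j hj
    interval_cases j
    · simp [bbDE]
    · simp only [bbDE, coeff_add, coeff_X_one]
      omega
  | succ k ih =>
    intro j hj
    simp only [bbDE, coeff_add]
    rcases Nat.eq_zero_or_pos j with rfl | hj0
    · have := ih 0 (Nat.zero_le _)
      omega
    · obtain ⟨i, rfl⟩ : ∃ i, j = i + 1 := ⟨j - 1, by omega⟩
      rw [coeff_X_mul]
      have := ih i (by omega)
      omega

theorem bbDE_natDegree (k : ℕ) : (bbDE k).1.natDegree ≤ k + 1 ∧ (bbDE k).2.natDegree ≤ k + 1 := by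
  induction k with
  | zero =>
    simp only [bbDE]
    refine ⟨?_, natDegree_X_le⟩
    refine (natDegree_add_le _ _).trans (max_le natDegree_X_le ?_)
    exact (natDegree_ofNat (R := ℕ) 2).le.trans (by norm_num)
  | succ k ih =>
    have h1 : ((bbDE k).2 + X * (bbDE k).1).natDegree ≤ k + 1 + 1 := by
      refine (natDegree_add_le _ _).trans (max_le (by omega) ?_)
      refine natDegree_mul_le.trans ?_
      have := natDegree_X_le (R := ℕ)
      omega
    refine ⟨?_, h1⟩
    exact (natDegree_add_le _ _).trans (max_le (by omega) h1)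

theorem bbS_coeff_pos (k : ℕ) : ∀ j ≤ k, 0 < (bbS k).coeff j := by
  cases k with
  | zero =>
    intro j hj
    have : j = 0 := by omega
    subst this
    simp [bbS]
  | succ k =>
    intro j hj
    simp only [bbS, coeff_add]
    have := bbD_coeff_pos k j hj
    omega

theorem bbS_natDegree (k : ℕ) : (bbS k).natDegree ≤ k := by
  induction k with
  | zero => simp [bbS]
  | succ k ih =>
    exact (natDegree_add_le _ _).trans (max_le (by omega) (bbDE_natDegree k).1)

section

variable {R : Type*} [CommRing R] {z y : R}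

theorem bbDE_eval (hy : z * y = (z - 1) ^ 2) (k : ℕ) :
    z ^ (k + 1) * aeval y (bbDE k).1 = z ^ (2 * k + 2) + 1 ∧
      z ^ (k + 1) * aeval y (bbDE k).2 = (z - 1) * (z ^ (2 * k + 1) - 1) := by
  induction k with
  | zero =>
    simp only [bbDE, map_add, aeval_X, map_ofNat]
    constructor
    · linear_combination hy
    · linear_combination hy
  | succ k ih =>
    obtain ⟨h1, h2⟩ := ih
    have h3 : z ^ (k + 1 + 1) * (aeval y (bbDE k).2 + y * aeval y (bbDE k).1) =
        (z - 1) * (z ^ (2 * (k + 1) + 1) - 1) := by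
      have : z ^ (k + 1 + 1) * (aeval y (bbDE k).2 + y * aeval y (bbDE k).1) =
          z * (z ^ (k + 1) * aeval y (bbDE k).2) + z * y * (z ^ (k + 1) * aeval y (bbDE k).1) := by
        ring
      rw [this, h1, h2, hy]
      ring
    simp only [bbDE, map_add, map_mul, aeval_X]
    refine ⟨?_, h3⟩
    rw [mul_add, h3]
    have : z ^ (k + 1 + 1) * aeval y (bbDE k).1 = z * (z ^ (k + 1) * aeval y (bbDE k).1) := by ring
    rw [this, h1]
    ring

theorem bbS_eval (hy : z * y = (z - 1) ^ 2) (k : ℕ) :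
    z ^ k * (z - 1) * aeval y (bbS k) = z ^ (2 * k + 1) - 1 := by
  induction k with
  | zero => simp [bbS]
  | succ k ih =>
    simp only [bbS, map_add]
    have h1 := (bbDE_eval hy k).1
    have : z ^ (k + 1) * (z - 1) * (aeval y (bbS k) + aeval y (bbDE k).1) =
        z * (z ^ k * (z - 1) * aeval y (bbS k)) + (z - 1) * (z ^ (k + 1) * aeval y (bbDE k).1) := by
      ring
    rw [this, ih, h1]
    ring

end

/-- the Browkin-Brzezinski identity -/
theorem bb_identity {R : Type*} [Field R] {z : R} (hz : z ≠ 0) (k : ℕ) :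
    z ^ (2 * k + 1) + ∑ j ∈ Finset.range (k + 1),
      (-((bbS k).coeff j : R) * (z - 1) ^ (2 * j + 1) * z ^ (k - j)) = 1 := by
  have hy : z * ((z - 1) ^ 2 / z) = (z - 1) ^ 2 := by field_simp
  have h1 := bbS_eval hy k
  rw [aeval_eq_sum_range' (Nat.lt_succ_of_le (bbS_natDegree k)), Finset.mul_sum] at h1
  have h2 : ∑ j ∈ Finset.range (k + 1),
      (-((bbS k).coeff j : R) * (z - 1) ^ (2 * j + 1) * z ^ (k - j)) =
      - ∑ j ∈ Finset.range (k + 1),
        z ^ k * (z - 1) * ((bbS k).coeff j • ((z - 1) ^ 2 / z) ^ j) := by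
    rw [← Finset.sum_neg_distrib]
    refine Finset.sum_congr rfl fun j hj => ?_
    rw [Finset.mem_range] at hj
    have h3 : z ^ k = z ^ (k - j) * z ^ j := by rw [← pow_add]; congr 1; omega
    rw [nsmul_eq_mul, div_pow, ← pow_mul, h3]
    field_simp
    ring
  rw [h2, h1]
  ring

end Pool.Agent.Helper11
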