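import Mathlib

/-!
# Function fields of one variable: places, differentials, heights

Definitions used by the statements of the hand-ins for MP_4dacf8_ag.
-/

namespace Pool.Agent.Helper11

open scoped KaehlerDifferential

/-- `L` is a function field of one variable over `k`: a finitely generated field extension
of transcendence degree one. (`k` will be algebraically closed of characteristic zero.) -/
class FunField (k L : Type*) [Field k] [Field L] [Algebra k L] : Prop where
  fg : Algebra.EssFiniteType k L
  trdeg : Algebra.trdeg k L = 1

/-- A place of `L / k`: a normalized (surjective) discrete valuation `ord` of `L` which is trivial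
on `k`, with the convention `ord 0 = 0`. When `L / k` is a function field of one variable over an
algebraically closed field, the places are the points of the smooth projective curve with
function field `L`. -/
@[ext]
structure Place (k L : Type*) [Field k] [Field L] [Algebra k L] where
  /-- the order function -/
  ord : L → ℤ
  ord_zero : ord 0 = 0
  ord_mul : ∀ x y, x ≠ 0 → y ≠ 0 → ord (x * y) = ord x + ord y
  ord_add : ∀ x y, x ≠ 0 → y ≠ 0 → x + y ≠ 0 → min (ord x) (ord y) ≤ ord (x + y)
  ord_algebraMap : ∀ c : k, ord (algebraMap k L c) = 0
  exists_ord_eq_one : ∃ x, ord x = 1

/-- The order at the place `v` of a rational differential `ω` of `L / k`: the order of `f`, where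
`ω = f dπ` with `π` a uniformizer at `v`. -/
noncomputable def Place.ordDiff {k L : Type*} [Field k] [Field L] [Algebra k L] (v : Place k L)
    (ω : Ω[L⁄k]) : ℤ :=
  open Classical in
  if h : ∃ f : L, ∃ π : L, v.ord π = 1 ∧ ω = f • KaehlerDifferential.D k L π then
    v.ord h.choose else 0

/-- `chi k L = 2 g - 2` where `g` is the genus of `L / k`: the degree of the divisor of a nonzero
rational differential of `L / k`, i.e. the degree of the canonical divisor. -/
noncomputable def chi (k L : Type*) [Field k] [Field L] [Algebra k L] : ℤ :=
  open Classical in
  if h : ∃ ω : Ω[L⁄k], ω ≠ 0 then ∑ᶠ v : Place k L, v.ordDiff h.choose else 0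

/-- The height of `x ∈ L`, i.e. the degree of the divisor of poles of `x` (equal to the degree of
the map to `ℙ¹` given by `x`). It is not normalized. -/
noncomputable def ht (k : Type*) {L : Type*} [Field k] [Field L] [Algebra k L] (x : L) : ℤ :=
  ∑ᶠ v : Place k L, max 0 (-v.ord x)

end Pool.Agent.Helper11
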