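import Mathlib

/-! Constant points -/

namespace Pool.Agent.Helper11

/-- the point with homogeneous coordinates `f` is a constant point (or `f = 0`): `f` is
proportional to a vector with entries in `k` -/
def IsConstPt (k : Type*) {L ι : Type*} [Field k] [Field L] [Algebra k L] (f : ι → L) : Prop :=
  ∃ (c : L) (q : ι → k), ∀ i, f i = c * algebraMap k L (q i)

end Pool.Agent.Helper11
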