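import Mathlib
import Pool.Agent.Helper11.Defs

/-! Projective height of a tuple -/

namespace Pool.Agent.Helper11

/-- The minimal order at `v` of the nonzero entries of a tuple `x`. -/
noncomputable def Place.minOrd {k L ι : Type*} [Field k] [Field L] [Algebra k L] (v : Place k L)
    (x : ι → L) : ℤ :=
  sInf {n : ℤ | ∃ i, x i ≠ 0 ∧ n = v.ord (x i)}

/-- The (unnormalized) height of the point with homogeneous coordinates `x`, i.e. the degree of the
pull-back of `O(1)` to the curve with function field `L`. -/
noncomputable def htP (k : Type*) {L ι : Type*} [Field k] [Field L] [Algebra k L] (x : ι → L) : ℤ :=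
  ∑ᶠ v : Place k L, -v.minOrd x

end Pool.Agent.Helper11
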