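import Mathlib

/-! The Hilbert function of an ideal of a polynomial ring -/

set_option linter.unusedSectionVars false

namespace Pool.Agent.Helper11

open MvPolynomial

variable {k ι : Type*} [Field k] [Fintype ι]

/-- the graded pieces are finite dimensional -/
instance finite_homogeneousSubmodule (j : ℕ) :
    Module.Finite k (homogeneousSubmodule ι k j) := by
  have h : homogeneousSubmodule ι k j ≤ restrictTotalDegree ι k j := by
    intro P hP
    rw [mem_restrictTotalDegree]
    exact hP.totalDegree_le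
  exact Module.Finite.of_injective (Submodule.inclusion h) (Submodule.inclusion_injective h)

/-- the image of the forms of degree `j` in the quotient -/
noncomputable def gr (I : Ideal (MvPolynomial ι k)) (j : ℕ) :
    Submodule k (MvPolynomial ι k ⧸ I) :=
  (homogeneousSubmodule ι k j).map (Ideal.Quotient.mkₐ k I).toLinearMap

/-- the Hilbert function -/
noncomputable def hilb (I : Ideal (MvPolynomial ι k)) (j : ℕ) : ℕ := Module.finrank k (gr I j)

instance finite_gr (I : Ideal (MvPolynomial ι k)) (j : ℕ) : Module.Finite k (gr I j) := by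
  unfold gr; infer_instance

/-- a family of polynomials is independent modulo an ideal -/
def IndepMod {β : Type*} [Fintype β] (I : Ideal (MvPolynomial ι k)) (M : β → MvPolynomial ι k) :
    Prop := ∀ c : β → k, ∑ i, C (c i) * M i ∈ I → c = 0

theorem indepMod_iff {β : Type*} [Fintype β] (I : Ideal (MvPolynomial ι k))
    (M : β → MvPolynomial ι k) :
    IndepMod I M ↔ LinearIndependent k fun i => (Ideal.Quotient.mk I (M i)) := by
  rw [Fintype.linearIndependent_iff]
  have h : ∀ c : β → k, (∑ i, c i • (Ideal.Quotient.mk I (M i)) = 0) ↔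
      ∑ i, C (c i) * M i ∈ I := by
    intro c
    rw [← Ideal.Quotient.eq_zero_iff_mem, map_sum]
    have h2 : ∀ i, c i • (Ideal.Quotient.mk I (M i)) = Ideal.Quotient.mk I (C (c i) * M i) := by
      intro i
      rw [← MvPolynomial.smul_eq_C_mul]
      rfl
    rw [Finset.sum_congr rfl fun i _ => h2 i]
  constructor
  · intro h1 c hc
    have := h1 c ((h c).1 hc)
    exact fun i => congrFun this i
  · intro h1 c hc
    exact funext (h1 c ((h c).2 hc))

theorem card_le_hilb {β : Type*} [Fintype β] {I : Ideal (MvPolynomial ι k)} {j : ℕ}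
    {M : β → MvPolynomial ι k} (hM : ∀ i, (M i).IsHomogeneous j) (h : IndepMod I M) :
    Fintype.card β ≤ hilb I j := by
  rw [indepMod_iff] at h
  have h1 : ∀ i, Ideal.Quotient.mk I (M i) ∈ gr I j := fun i => ⟨M i, hM i, rfl⟩
  have h2 : LinearIndependent k fun i => (⟨Ideal.Quotient.mk I (M i), h1 i⟩ : gr I j) := by
    apply LinearIndependent.of_comp (gr I j).subtype
    exact h
  exact h2.fintype_card_le_finrank

theorem exists_basis_mod (I : Ideal (MvPolynomial ι k)) (j : ℕ) :
    ∃ M : Fin (hilb I j) → MvPolynomial ι k, (∀ i, (M i).IsHomogeneous j) ∧ IndepMod I M ∧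
      ∀ P : MvPolynomial ι k, P.IsHomogeneous j →
        ∃ c : Fin (hilb I j) → k, P - ∑ i, C (c i) * M i ∈ I := by
  classical
  have b : Module.Basis (Fin (hilb I j)) k (gr I j) := Module.finBasis k (gr I j)
  have hex : ∀ i, ∃ M : MvPolynomial ι k, M.IsHomogeneous j ∧ Ideal.Quotient.mk I M = b i := by
    intro i
    obtain ⟨M, hM, hM2⟩ := (b i).2
    exact ⟨M, hM, hM2⟩
  choose M hM hM2 using hex
  refine ⟨M, hM, ?_, ?_⟩
  · rw [indepMod_iff]
    have h1 := b.linearIndependent.map' (gr I j).subtype (Submodule.ker_subtype _)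
    have h2 : (fun i => Ideal.Quotient.mk I (M i)) = (gr I j).subtype ∘ b := by
      funext i
      rw [hM2]; rfl
    rw [h2]; exact h1
  · intro P hP
    obtain ⟨z, hz⟩ : ∃ z : gr I j, (z : MvPolynomial ι k ⧸ I) = Ideal.Quotient.mk I P :=
      ⟨⟨Ideal.Quotient.mk I P, P, hP, rfl⟩, rfl⟩
    refine ⟨b.repr z, ?_⟩
    rw [← Ideal.Quotient.eq_zero_iff_mem, map_sub, map_sum, sub_eq_zero, ← hz]
    have h1 := congrArg (gr I j).subtype (b.sum_repr z)
    rw [map_sum] at h1
    have h2 : (gr I j).subtype z = (z : MvPolynomial ι k ⧸ I) := rfl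
    rw [h2] at h1
    rw [← h1]
    refine Finset.sum_congr rfl fun i _ => ?_
    rw [map_smul, ← MvPolynomial.smul_eq_C_mul]
    have h3 : (gr I j).subtype (b i) = Ideal.Quotient.mk I (M i) := (hM2 i).symm
    rw [h3]; rfl

/-- the set of zeros of an ideal -/
def zs (I : Ideal (MvPolynomial ι k)) : Set (ι → k) := {p | ∀ G ∈ I, eval p G = 0}

theorem mem_of_zero_on_zs [IsAlgClosed k] {I : Ideal (MvPolynomial ι k)} (hI : I.IsPrime)
    {P : MvPolynomial ι k} (h : ∀ p ∈ zs I, eval p P = 0) : P ∈ I := by
  have h1 := MvPolynomial.IsPrime.vanishingIdeal_zeroLocus (K := k) I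
  rw [← h1, mem_vanishingIdeal_iff]
  intro x hx
  exact h x fun G hG => hx G hG

section dense

variable [IsAlgClosed k]

/-- evaluation on the polynomials of bounded degree -/
noncomputable def evD (D : ℕ) (p : ι → k) : restrictTotalDegree ι k D →ₗ[k] k :=
  (aeval p : MvPolynomial ι k →ₐ[k] k).toLinearMap.comp (Submodule.subtype _)

theorem evD_apply (D : ℕ) (p : ι → k) (P : restrictTotalDegree ι k D) :
    evD D p P = eval p (P : MvPolynomial ι k) := rfl

theorem exists_dense {I : Ideal (MvPolynomial ι k)} (hI : I.IsPrime) {w : MvPolynomial ι k}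
    (hw : w ∉ I) (D : ℕ) : ∃ X : Finset (ι → k), (∀ x ∈ X, x ∈ zs I ∧ eval x w ≠ 0) ∧
      ∀ P : MvPolynomial ι k, P.totalDegree ≤ D → (∀ x ∈ X, eval x P = 0) → P ∈ I := by
  classical
  set T : Set (ι → k) := {x | x ∈ zs I ∧ eval x w ≠ 0} with hT
  have hfg : (Submodule.span k (evD D '' T)).FG := IsNoetherian.noetherian _
  obtain ⟨s', hs', hspan⟩ := (Submodule.fg_span_iff_fg_span_finset_subset _).1 hfg
  have hch : ∀ φ : s', ∃ x ∈ T, evD D x = φ := fun φ => hs' φ.2
  choose g hg hg2 using hch
  refine ⟨Finset.univ.image g, ?_, ?_⟩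
  · intro x hx
    rw [Finset.mem_image] at hx
    obtain ⟨φ, _, rfl⟩ := hx
    exact hg φ
  · intro P hP hPX
    have hPm : P ∈ restrictTotalDegree ι k D := (mem_restrictTotalDegree _ _ _).2 hP
    have h1 : ∀ φ ∈ Submodule.span k (evD D '' T), φ ⟨P, hPm⟩ = 0 := by
      rw [hspan]
      intro φ hφ
      induction hφ using Submodule.span_induction with
      | mem φ hφ =>
        have h5 : evD D (g ⟨φ, hφ⟩) = φ := hg2 ⟨φ, hφ⟩
        rw [← h5, evD_apply]
        exact hPX _ (Finset.mem_image_of_mem _ (Finset.mem_univ _))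
      | zero => rfl
      | add φ ψ _ _ h1 h2 => rw [LinearMap.add_apply, h1, h2, add_zero]
      | smul c φ _ h1 => rw [LinearMap.smul_apply, h1, smul_zero]
    have h2 : P * w ∈ I := by
      apply mem_of_zero_on_zs hI
      intro p hp
      rw [map_mul]
      by_cases h3 : eval p w = 0
      · rw [h3, mul_zero]
      · have h4 := h1 (evD D p) (Submodule.subset_span ⟨p, ⟨hp, h3⟩, rfl⟩)
        rw [evD_apply] at h4
        rw [h4, zero_mul]
    exact (hI.mem_or_mem h2).resolve_right hw

/-- evaluation at a zero of `I` is a combination of the evaluations at the points of a dense set -/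
theorem exists_eval_comb {I : Ideal (MvPolynomial ι k)} {D : ℕ} {X : Finset (ι → k)}
    (hX : ∀ P : MvPolynomial ι k, P.totalDegree ≤ D → (∀ x ∈ X, eval x P = 0) → P ∈ I)
    {p : ι → k} (hp : p ∈ zs I) :
    ∃ c : X → k, ∀ P : MvPolynomial ι k, P.totalDegree ≤ D →
      eval p P = ∑ x : X, c x * eval (x : ι → k) P := by
  classical
  have h1 : evD D p ∈ Submodule.span k (Set.range fun x : X => evD D (x : ι → k)) := by
    apply mem_span_of_iInf_ker_le_ker
    intro P hP
    rw [Submodule.mem_iInf] at hP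
    rw [LinearMap.mem_ker, evD_apply]
    apply hp
    apply hX _ ((mem_restrictTotalDegree _ _ _).1 P.2)
    intro x hx
    exact hP ⟨x, hx⟩
  rw [Submodule.mem_span_range_iff_exists_fun] at h1
  obtain ⟨c, hc⟩ := h1
  refine ⟨c, fun P hP => ?_⟩
  have h2 := LinearMap.congr_fun hc ⟨P, (mem_restrictTotalDegree _ _ _).2 hP⟩
  rw [evD_apply] at h2
  rw [← h2, LinearMap.sum_apply]
  rfl

theorem eval_comb_map {L : Type*} [Field L] [Algebra k L] {D : ℕ} {X : Finset (ι → k)}
    {p : ι → k} {c : X → k}
    (hc : ∀ P : MvPolynomial ι k, P.totalDegree ≤ D →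
      eval p P = ∑ x : X, c x * eval (x : ι → k) P) {P : MvPolynomial ι L}
    (hP : P.totalDegree ≤ D) :
    eval (fun i => algebraMap k L (p i)) P =
      ∑ x : X, algebraMap k L (c x) * eval (fun i => algebraMap k L ((x : ι → k) i)) P := by
  classical
  have h1 : ∀ (q : ι → k), eval (fun i => algebraMap k L (q i)) P =
      ∑ d ∈ P.support, P.coeff d * algebraMap k L (eval q (monomial d (1 : k))) := by
    intro q
    rw [eval_eq]
    refine Finset.sum_congr rfl fun d _ => ?_
    rw [eval_monomial, one_mul, Finsupp.prod, map_prod]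
    congr 1
    refine Finset.prod_congr rfl fun i _ => ?_
    rw [map_pow]
  rw [h1]
  simp only [h1]
  have h2 : ∀ d ∈ P.support, P.coeff d * algebraMap k L (eval p (monomial d (1 : k))) =
      ∑ x : X, algebraMap k L (c x) *
        (P.coeff d * algebraMap k L (eval (x : ι → k) (monomial d (1 : k)))) := by
    intro d hd
    rw [hc (monomial d 1), map_sum, Finset.mul_sum]
    · refine Finset.sum_congr rfl fun x _ => ?_
      rw [map_mul]; ring
    · refine le_trans (totalDegree_monomial_le _ _) ?_
      exact le_trans (le_totalDegree hd) hP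
  rw [Finset.sum_congr rfl h2, Finset.sum_comm]
  refine Finset.sum_congr rfl fun x _ => ?_
  rw [Finset.mul_sum]

end dense

end Pool.Agent.Helper11
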