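import Pool.Agent.Helper11.LinesExist

set_option linter.unusedSectionVars false

namespace Pool.Agent.Helper11

open MvPolynomial

section

variable {k L : Type*} [Field k] [Field L] [Algebra k L] [FunField k L] [CharZero k]
  [IsAlgClosed k]

/-- a nonconstant point has a nonconstant ratio of coordinates -/
theorem exists_transcendental_ratio {ι : Type*} {f : ι → L} (hf : ¬ IsConstPt k f) :
    ∃ i j, f i ≠ 0 ∧ f j ≠ 0 ∧ Transcendental k (f i / f j) := by
  have hex : ∃ j, f j ≠ 0 := by
    by_contra hcon
    push Not at hcon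
    exact hf ⟨0, 0, fun i => by simp [hcon i]⟩
  obtain ⟨j, hj⟩ := hex
  by_contra hcon
  push Not at hcon
  apply hf
  have h1 : ∀ i, ∃ c : k, algebraMap k L c = f i / f j := by
    intro i
    by_cases hi : f i = 0
    · exact ⟨0, by rw [hi]; simp⟩
    · have h2 := hcon i j hi hj
      rw [Transcendental, not_not] at h2
      exact mem_range_of_isAlgebraic h2
  choose q hq using h1
  exact ⟨f j, q, fun i => by rw [hq i]; field_simp⟩

/-- the height of a ratio of coordinates is at most the projective height -/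
theorem ht_ratio_le {ι : Type*} [Finite ι] {f : ι → L} {i j : ι} (hi : f i ≠ 0) (hj : f j ≠ 0) :
    ht k (f i / f j) ≤ htP k f := by
  have h1 : ∀ v : Place k L, max 0 (-v.ord (f i / f j)) ≤ -v.minOrd f + v.ord (f j) := by
    intro v
    have h2 := v.minOrd_le f hi
    have h3 := v.minOrd_le f hj
    rw [div_eq_mul_inv, v.ord_mul _ _ hi (inv_ne_zero hj), v.ord_inv]
    omega
  have hs : {v : Place k L | -v.minOrd f ≠ 0}.Finite := by
    have := supp_minOrd (k := k) f
    refine this.subset fun v hv => ?_
    have hv' : -v.minOrd f ≠ 0 := hv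
    show v.minOrd f ≠ 0
    omega
  refine (fs_mono (supp_negpart _) (supp_add hs (supp_ord (f j))) h1).trans (le_of_eq ?_)
  rw [fs_add hs (supp_ord (f j)), finsum_ord, add_zero]
  rfl

theorem chi_add_two_htP_nonneg {ι : Type*} [Finite ι] {f : ι → L} (hf : ¬ IsConstPt k f) :
    0 ≤ chi k L + 2 * htP k f := by
  obtain ⟨i, j, hi, hj, htr⟩ := exists_transcendental_ratio hf
  have h1 := neg_two_mul_ht_le_chi htr
  have h2 := ht_ratio_le (k := k) (f := f) hi hj
  linarith

end

theorem genPos_of_linearIndependent {k : Type*} [Field k] {r : ℕ} (hr : 3 ≤ r)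
    {H : Fin r → Fin 3 → k}
    (hH : ∀ i j l, i ≠ j → i ≠ l → j ≠ l → LinearIndependent k ![H i, H j, H l]) : GenPos H := by
  have hthree : ∀ i j l, i ≠ j → i ≠ l → j ≠ l → dot3 (H i) (cr (H j) (H l)) ≠ 0 := by
    intro i j l hij hil hjl h0
    have h1 := hH i j l hij hil hjl
    have h2 : (Matrix.of ![H i, H j, H l]).det ≠ 0 := by
      have h3 : LinearIndependent k (Matrix.of ![H i, H j, H l]).row := h1
      rw [Matrix.linearIndependent_rows_iff_isUnit, Matrix.isUnit_iff_isUnit_det] at h3
      exact h3.ne_zero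
    apply h2
    rw [← h0, Matrix.det_fin_three]
    simp [dot3, cr]
    ring
  have hother : ∀ i j : Fin r, i ≠ j → ∃ l, i ≠ l ∧ j ≠ l := by
    intro i j _
    by_contra hcon
    push Not at hcon
    have h1 : (Finset.univ : Finset (Fin r)) ⊆ {i, j} := by
      intro l _
      rw [Finset.mem_insert, Finset.mem_singleton]
      by_cases h : i = l
      · exact Or.inl h.symm
      · exact Or.inr (hcon l h).symm
    have h2 := Finset.card_le_card h1
    rw [Finset.card_univ, Fintype.card_fin] at h2
    have h3 := Finset.card_le_two (a := i) (b := j)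
    omega
  refine ⟨?_, ?_, hthree⟩
  · intro i h0
    obtain ⟨j, hij⟩ : ∃ j : Fin r, i ≠ j := by
      have : Nontrivial (Fin r) := Fin.nontrivial_iff_two_le.2 (by omega)
      obtain ⟨j, hj⟩ := exists_ne i
      exact ⟨j, hj.symm⟩
    obtain ⟨l, hil, hjl⟩ := hother i j hij
    apply hthree i j l hij hil hjl
    simp [h0, dot3]
  · intro i j hij h0
    obtain ⟨l, hil, hjl⟩ := hother i j hij
    apply hthree l i j hil.symm hjl.symm hij
    simp [h0, dot3]

section

universe u w

variable {k : Type u} [Field k] [CharZero k] [IsAlgClosed k]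

theorem lines_result {r : ℕ} (hr : 4 ≤ r) {H : Fin r → Fin 3 → k} (hH : GenPos H) {t d : ℕ}
    (hcount : r * (t * (t + 1)) < (d + 1) * (d + 2)) :
    ∃ Z : MvPolynomial (Fin 3) k, Z ≠ 0 ∧ (∃ N, Z.IsHomogeneous N) ∧
    ∀ (L : Type w) [Field L] [Algebra k L] [FunField k L] (f : Fin 3 → L), ¬ IsConstPt k f →
      (∀ i, lin (H i) f ≠ 0) → aeval f Z ≠ 0 →
      (t : ℤ) * (r * htP k f - ∑ i, ((hitSet (H i) f : Set (Place k L)).ncard : ℤ)) ≤
        d * (chi k L + 2 * htP k f) := by
  have hbasis := fun i => exists_basis (hH.ne i)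
  choose A B hdet using hbasis
  obtain ⟨G, hG0, hG, hmult⟩ := exists_form A B H hcount
  obtain ⟨Z, hZ0, hZhom, hZ⟩ := exists_exceptional.{u, w} d G hG0 hG
  refine ⟨Z, hZ0, hZhom, ?_⟩
  intro L _ _ _ f hf hfH hfZ
  obtain ⟨x, hx⟩ := FunField.exists_transcendental (k := k) (L := L)
  have hf0 : ∃ i, f i ≠ 0 := by
    by_contra hcon
    push Not at hcon
    exact hf ⟨0, 0, fun i => by simp [hcon i]⟩
  by_cases hW : aeval (cr f (fun i => der hx (f i))) G = 0
  · have h1 := (hZ L f x hx hf hW).resolve_right hfZ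
    obtain ⟨lam, q, hq⟩ := h1
    have hp0 : cr f (fun i => der hx (f i)) ≠ 0 := fun h => hf (isConstPt_of_cr_der hx h)
    have hlam : cr f (fun i => der hx (f i)) = fun i => lam * algebraMap k L (q i) := funext hq
    have hlam0 : lam ≠ 0 := by
      intro h
      apply hp0
      rw [hlam, h]
      ext i; simp
    have hq0 : q ≠ 0 := by
      intro h
      apply hp0
      rw [hlam, h]
      ext i; simp
    have hqf : lin q f = 0 := by
      have h2 : dot3 f (cr f (fun i => der hx (f i))) = 0 := dot3_cr_left _ _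
      rw [hlam] at h2
      have h3 : dot3 f (fun i => lam * algebraMap k L (q i)) = lam * lin q f := by
        simp only [dot3, lin]; ring
      rw [h3] at h2
      exact (mul_eq_zero.1 h2).resolve_left hlam0
    have hqH : ∀ i, cr q (H i) ≠ 0 := by
      intro i h
      obtain ⟨j, hj⟩ : ∃ j, q j ≠ 0 := by
        by_contra hcon
        push Not at hcon
        exact hq0 (funext hcon)
      apply hfH i
      have h2 : ∀ a, H i a = (H i j / q j) * q a := by
        intro a
        have h3 := cr_apply_eq_zero h j a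
        field_simp
        linear_combination h3
      have h3 : lin (H i) f = algebraMap k L (H i j / q j) * lin q f := by
        simp only [lin, dot3]
        rw [h2 0, h2 1, h2 2]
        simp only [map_mul]
        ring
      rw [h3, hqf, mul_zero]
    have h2 := lines_const hH hf0 hfH hx hqH hq0 hlam0 hlam
    have h3 := chi_add_two_htP_nonneg hf
    have h4 : 2 * t ≤ d := by
      by_contra hcon
      push Not at hcon
      have h5 : (d + 1) * (d + 2) ≤ (2 * t) * (2 * t + 1) := Nat.mul_le_mul (by omega) (by omega)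
      have h6 : 4 * (t * (t + 1)) ≤ r * (t * (t + 1)) := Nat.mul_le_mul_right _ hr
      nlinarith
    have h5 : (2 * t : ℤ) ≤ d := by exact_mod_cast h4
    have h6 : (t : ℤ) * (r * htP k f - ∑ i, ((hitSet (H i) f : Set (Place k L)).ncard : ℤ)) ≤
        t * (2 * chi k L + 4 * htP k f) := mul_le_mul_of_nonneg_left h2 (by positivity)
    have h7 : (2 * t : ℤ) * (chi k L + 2 * htP k f) ≤ d * (chi k L + 2 * htP k f) :=
      mul_le_mul_of_nonneg_right h5 h3
    linarith
  · have h1 := lines_main_mult hH hG hdet hmult hf0 hfH hx hW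
    linarith

end

end Pool.Agent.Helper11
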