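import Pool.Agent.Helper11.MIMain
import Pool.Agent.Helper11.HilbDefs
import Pool.Agent.Helper11.LinesAssemble

set_option linter.unusedSectionVars false

namespace Pool.Agent.Helper11

open MvPolynomial

section

variable {k L ι : Type*} [Field k] [Field L] [Algebra k L] [Fintype ι]

/-- evaluation at a constant point of a polynomial with coefficients in `L` -/
noncomputable def evalL (x : ι → k) (P : MvPolynomial ι L) : L :=
  eval (fun i => algebraMap k L (x i)) P

/-- the linear form with coefficients `F` -/
noncomputable def linP (F : ι → L) : MvPolynomial ι L := ∑ i, C (F i) * X i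

/-- combination of polynomials with coefficients in `L` -/
noncomputable def combL {β : Type*} [Fintype β] (M : β → MvPolynomial ι k) (P : β → L) :
    MvPolynomial ι L := ∑ i, C (P i) * map (algebraMap k L) (M i)

theorem evalL_linP (F : ι → L) (x : ι → k) : evalL x (linP F) = pairing F x := by
  simp [evalL, linP, pairing]

theorem eval_map_algebraMap (x : ι → k) (M : MvPolynomial ι k) :
    eval (fun i => algebraMap k L (x i)) (map (algebraMap k L) M) = algebraMap k L (eval x M) := by
  rw [eval_map]
  have := eval₂_comp_left (algebraMap k L) (RingHom.id k) x M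
  rw [RingHom.comp_id] at this
  exact this.symm

theorem evalL_combL {β : Type*} [Fintype β] (M : β → MvPolynomial ι k) (P : β → L) (x : ι → k) :
    evalL x (combL M P) = ∑ i, P i * algebraMap k L (eval x (M i)) := by
  unfold evalL combL
  rw [map_sum]
  refine Finset.sum_congr rfl fun i _ => ?_
  rw [map_mul, eval_C, eval_map_algebraMap]

theorem evalL_mul (x : ι → k) (P Q : MvPolynomial ι L) : evalL x (P * Q) = evalL x P * evalL x Q :=
  map_mul _ _ _

theorem evalL_add (x : ι → k) (P Q : MvPolynomial ι L) : evalL x (P + Q) = evalL x P + evalL x Q :=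
  map_add _ _ _

theorem evalL_sub (x : ι → k) (P Q : MvPolynomial ι L) : evalL x (P - Q) = evalL x P - evalL x Q :=
  map_sub _ _ _

theorem isHomogeneous_linP (F : ι → L) : (linP F).IsHomogeneous 1 := by
  refine IsHomogeneous.sum _ _ _ fun i _ => ?_
  have := (isHomogeneous_C ι (F i)).mul (isHomogeneous_X L i)
  rwa [zero_add] at this

theorem isHomogeneous_combL {β : Type*} [Fintype β] {M : β → MvPolynomial ι k} {j : ℕ}
    (hM : ∀ i, (M i).IsHomogeneous j) (P : β → L) : (combL M P).IsHomogeneous j := by
  refine IsHomogeneous.sum _ _ _ fun i _ => ?_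
  have := (isHomogeneous_C ι (P i)).mul ((hM i).map (algebraMap k L))
  rwa [zero_add] at this

/-- `F` is good for the prime `q` -/
def Good (q : Ideal (MvPolynomial ι k)) (F F' : ι → L) : Prop :=
  ∃ w, w ∉ q ∧ ∃ A B : MvPolynomial ι L, ∀ p ∈ zs q,
    algebraMap k L (eval p w) = evalL p A * pairing F p + evalL p B * pairing F' p

/-- no reduction of `F` is orthogonal to the zero set of `q` -/
def NonDeg (q : Ideal (MvPolynomial ι k)) (F : ι → L) : Prop :=
  ∀ (v : Place k L) (c : ι → k),
    (∀ i, F i - v.unif ^ v.minOrd F * algebraMap k L (c i) ∈ v.ge (v.minOrd F + 1)) →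
      ∑ i, C (c i) * X i ∉ q

theorem Good.pairing_ne_zero [FunField k L] [CharZero k] [IsAlgClosed k]
    {q : Ideal (MvPolynomial ι k)} {F : ι → L} {δ : Derivation k L L}
    {w : MvPolynomial ι k} {A B : MvPolynomial ι L}
    (h : ∀ p ∈ zs q, algebraMap k L (eval p w) =
      evalL p A * pairing F p + evalL p B * pairing (fun i => δ (F i)) p)
    {x : ι → k} (hx : x ∈ zs q) (hw : eval x w ≠ 0) : pairing F x ≠ 0 := by
  intro h0
  have h1 := h x hx
  rw [← derivation_pairing, h0, map_zero, mul_zero, mul_zero, add_zero, map_eq_zero] at h1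
  exact hw h1

end

section

variable {k L ι : Type*} [Field k] [Field L] [Algebra k L] [FunField k L] [CharZero k]
  [IsAlgClosed k] [Fintype ι]

/-- the subspace `R_{j-1} φ` is contained in `kerK` -/
theorem hilb_le_finrank_kerK {q : Ideal (MvPolynomial ι k)} {j : ℕ}
    {M : Fin (hilb q (j + 1)) → MvPolynomial ι k}
    (hM3 : ∀ P : MvPolynomial ι k, P.IsHomogeneous (j + 1) →
        ∃ c : Fin (hilb q (j + 1)) → k, P - ∑ i, C (c i) * M i ∈ q)
    {X₀ : Finset (ι → k)} (hX : ∀ x ∈ X₀, x ∈ zs q)
    (hX2 : ∀ P : MvPolynomial ι k, P.totalDegree ≤ j → (∀ x ∈ X₀, eval x P = 0) → P ∈ q)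
    {F F' : ι → L} (hφ : ∀ x ∈ X₀, pairing F x ≠ 0) {Γ : Type*} [Fintype Γ] (pΓ : Γ → ι → k) :
    hilb q j ≤ Module.finrank L (kerK F F' (Sum.elim (fun x : X₀ => (x : ι → k)) pΓ)
      (fun i x => eval (Sum.elim (fun x : X₀ => (x : ι → k)) pΓ x) (M i))) := by
  classical
  obtain ⟨N, hN, hN2, -⟩ := exists_basis_mod q j
  -- multiplication by the variables
  have hmul : ∀ (i : ι) (b : Fin (hilb q j)), ∃ c : Fin (hilb q (j + 1)) → k,
      X i * N b - ∑ a, C (c a) * M a ∈ q := by
    intro i b
    apply hM3
    have := (isHomogeneous_X k i).mul (hN b)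
    rwa [add_comm] at this
  choose A hA using hmul
  have hA2 : ∀ i b, ∀ x ∈ X₀, ∑ a, A i b a * eval x (M a) = x i * eval x (N b) := by
    intro i b x hx
    have h1 := hX x hx _ (hA i b)
    rw [map_sub, map_mul, eval_X, map_sum] at h1
    simp only [map_mul, eval_C] at h1
    exact (sub_eq_zero.1 h1).symm
  -- the linear map
  set Θ : (ι → L) → (Fin (hilb q j) → L) →ₗ[L] (Fin (hilb q (j + 1)) → L) := fun G =>
    { toFun := fun T a => ∑ i, ∑ b, G i * T b * algebraMap k L (A i b a)
      map_add' := by
        intro T T'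
        funext a
        simp only [Pi.add_apply, ← Finset.sum_add_distrib]
        refine Finset.sum_congr rfl fun i _ => Finset.sum_congr rfl fun b _ => ?_
        ring
      map_smul' := by
        intro c T
        funext a
        simp only [Pi.smul_apply, smul_eq_mul, Finset.mul_sum, RingHom.id_apply]
        refine Finset.sum_congr rfl fun i _ => Finset.sum_congr rfl fun b _ => ?_
        ring } with hΘ
  set pt : X₀ ⊕ Γ → ι → k := Sum.elim (fun x : X₀ => (x : ι → k)) pΓ with hpt
  set m : Fin (hilb q (j + 1)) → X₀ ⊕ Γ → k := fun i x => eval (pt x) (M i) with hm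
  set n : Fin (hilb q j) → X₀ → k := fun b x => eval (x : ι → k) (N b) with hn
  have hΘev : ∀ (G : ι → L) (T : Fin (hilb q j) → L) (x : X₀),
      evL m (Θ G T) (Sum.inl x) = pairing G (x : ι → k) * evL n T x := by
    intro G T x
    have h1 : evL m (Θ G T) (Sum.inl x) = ∑ i, ∑ b, G i * T b *
        algebraMap k L (∑ a, A i b a * eval (x : ι → k) (M a)) := by
      unfold evL
      have h2 : ∀ a, Θ G T a = ∑ i, ∑ b, G i * T b * algebraMap k L (A i b a) := fun a => rfl
      simp only [h2, Finset.sum_mul, map_sum, Finset.mul_sum]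
      rw [Finset.sum_comm]
      refine Finset.sum_congr rfl fun i _ => ?_
      rw [Finset.sum_comm]
      refine Finset.sum_congr rfl fun b _ => Finset.sum_congr rfl fun a _ => ?_
      rw [map_mul]
      simp only [hm, hpt, Sum.elim_inl]
      ring
    rw [h1]
    unfold pairing evL
    rw [Finset.sum_mul_sum]
    refine Finset.sum_congr rfl fun i _ => Finset.sum_congr rfl fun b _ => ?_
    rw [hA2 i b x x.2, map_mul]
    ring
  have hnli : LinearIndependent k n := by
    rw [Fintype.linearIndependent_iff]
    intro c hc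
    have h1 : ∑ b, C (c b) * N b ∈ q := by
      apply hX2
      · refine (IsHomogeneous.sum _ _ j fun b _ => ?_ : (∑ b, C (c b) * N b).IsHomogeneous j).totalDegree_le
        have := (isHomogeneous_C ι (c b)).mul (hN b)
        rwa [zero_add] at this
      · intro x hx
        have h2 := congrFun hc ⟨x, hx⟩
        rw [Finset.sum_apply] at h2
        rw [map_sum]
        simpa using h2
    have h2 := hN2 c h1
    exact fun i => congrFun h2 i
  have hinj : Function.Injective (Θ F) := by
    rw [← LinearMap.ker_eq_bot, LinearMap.ker_eq_bot']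
    intro T hT
    apply evL_injective hnli
    intro x
    have h1 := hΘev F T x
    rw [hT, evL_zero] at h1
    exact (mul_eq_zero.1 h1.symm).resolve_left (hφ x x.2)
  have hmem : ∀ T, Θ F T ∈ kerK F F' pt m := by
    intro T
    refine ⟨Θ F' T, fun x => ?_⟩
    rw [hΘev, hΘev]
    have : pt (Sum.inl x) = (x : ι → k) := rfl
    rw [this]; ring
  have h1 := LinearMap.finrank_le_finrank_of_injective
    (f := (Θ F).codRestrict (kerK F F' pt m) hmem) (by
      intro a b hab
      apply hinj
      exact congrArg Subtype.val hab)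
  rwa [Module.finrank_fintype_fun_eq_card, Fintype.card_fin] at h1

/-- expansion of a polynomial over `L` of bounded degree, divided by `w`, along a basis of functions
on a finite set -/
theorem exists_coord_of_degree {X₀ : Finset (ι → k)} {w : MvPolynomial ι k} {J d : ℕ}
    {u : Fin d → X₀ → k}
    (hu : ∀ G : MvPolynomial ι k, G.totalDegree ≤ J → ∃ c : Fin d → k, ∀ x : X₀,
      (eval (x : ι → k) w)⁻¹ * eval (x : ι → k) G = ∑ l, c l * u l x)
    {T : MvPolynomial ι L} (hT : T.totalDegree ≤ J) :
    ∃ g : Fin d → L, ∀ x : X₀,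
      (algebraMap k L (eval (x : ι → k) w))⁻¹ * evalL (x : ι → k) T = evL u g x := by
  classical
  have h1 : ∀ s : ι →₀ ℕ, ∃ c : Fin d → k, s ∈ T.support → ∀ x : X₀,
      (eval (x : ι → k) w)⁻¹ * eval (x : ι → k) (monomial s (1 : k)) = ∑ l, c l * u l x := by
    intro s
    by_cases hs : s ∈ T.support
    · obtain ⟨c, hc⟩ := hu (monomial s 1) (le_trans (totalDegree_monomial_le _ _)
        (le_trans (le_totalDegree hs) hT))
      exact ⟨c, fun _ => hc⟩
    · exact ⟨0, fun h => absurd h hs⟩
  choose c hc using h1
  refine ⟨fun l => ∑ s ∈ T.support, T.coeff s * algebraMap k L (c s l), fun x => ?_⟩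
  unfold evalL evL
  rw [eval_eq _ T, Finset.mul_sum]
  simp only [Finset.sum_mul]
  rw [Finset.sum_comm]
  refine Finset.sum_congr rfl fun s hs => ?_
  have h2 := hc s hs x
  have h3 : ∏ i ∈ s.support, (algebraMap k L ((x : ι → k) i)) ^ s i =
      algebraMap k L (eval (x : ι → k) (monomial s (1 : k))) := by
    rw [eval_monomial, one_mul, Finsupp.prod, map_prod]
    refine Finset.prod_congr rfl fun i _ => ?_
    rw [map_pow]
  rw [h3]
  have h4 := congrArg (algebraMap k L) h2
  rw [map_mul, map_inv₀, map_sum] at h4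
  have h5 : (algebraMap k L (eval (x : ι → k) w))⁻¹ *
      (T.coeff s * algebraMap k L (eval (x : ι → k) (monomial s (1 : k)))) =
      T.coeff s * ((algebraMap k L (eval (x : ι → k) w))⁻¹ *
        algebraMap k L (eval (x : ι → k) (monomial s (1 : k)))) := by ring
  rw [h5, h4, Finset.mul_sum]
  refine Finset.sum_congr rfl fun l _ => ?_
  rw [map_mul]; ring

/-- functions `G / w` on a finite set -/
theorem exists_basis_fn (X₀ : Finset (ι → k)) (w : MvPolynomial ι k) (J : ℕ) :
    ∃ (d : ℕ) (u : Fin d → X₀ → k), LinearIndependent k u ∧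
      (∀ G : MvPolynomial ι k, G.totalDegree ≤ J → ∃ c : Fin d → k, ∀ x : X₀,
        (eval (x : ι → k) w)⁻¹ * eval (x : ι → k) G = ∑ l, c l * u l x) ∧
      (∀ c : Fin d → k, ∃ G : MvPolynomial ι k, G.totalDegree ≤ J ∧ ∀ x : X₀,
        ∑ l, c l * u l x = (eval (x : ι → k) w)⁻¹ * eval (x : ι → k) G) := by
  classical
  set E : restrictTotalDegree ι k J →ₗ[k] (X₀ → k) :=
    { toFun := fun G x => (eval (x : ι → k) w)⁻¹ * eval (x : ι → k) (G : MvPolynomial ι k)
      map_add' := by
        intro G G'
        funext x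
        simp [mul_add]
      map_smul' := by
        intro c G
        funext x
        simp only [Submodule.coe_smul, smul_eval, Pi.smul_apply, smul_eq_mul, RingHom.id_apply]
        ring } with hE
  let U : Submodule k (X₀ → k) := LinearMap.range E
  let b := Module.finBasis k U
  refine ⟨Module.finrank k U, fun l => (b l : X₀ → k), ?_, ?_, ?_⟩
  · exact b.linearIndependent.map' U.subtype (Submodule.ker_subtype _)
  · intro G hG
    obtain ⟨z, hz⟩ : ∃ z : U, (z : X₀ → k) = E ⟨G, (mem_restrictTotalDegree _ _ _).2 hG⟩ :=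
      ⟨⟨_, ⟨G, (mem_restrictTotalDegree _ _ _).2 hG⟩, rfl⟩, rfl⟩
    refine ⟨b.repr z, fun x => ?_⟩
    have h1 := congrFun (congrArg U.subtype (b.sum_repr z)) x
    rw [map_sum, Finset.sum_apply] at h1
    have h2 : U.subtype z x = (eval (x : ι → k) w)⁻¹ * eval (x : ι → k) G := congrFun hz x
    rw [← h2, ← h1]
    rfl
  · intro c
    have h1 : (∑ l, c l • (b l : X₀ → k)) ∈ U := Submodule.sum_mem _ fun l _ =>
      U.smul_mem _ (b l).2
    obtain ⟨G, hG⟩ := h1
    refine ⟨G, (mem_restrictTotalDegree _ _ _).1 G.2, fun x => ?_⟩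
    have h2 := congrFun hG x
    rw [Finset.sum_apply] at h2
    exact h2.symm

/-- **The main inequality** for a prime ideal. -/
theorem mi_poly {q : Ideal (MvPolynomial ι k)} (hq : q.IsPrime) {F : ι → L} {t : L}
    (ht : Transcendental k t) (hF : ¬ IsConstPt k F) (hnd : NonDeg q F)
    (hgood : Good q F (fun i => der ht (F i))) {j : ℕ} {Γ : Type*} [Fintype Γ] [DecidableEq Γ]
    (pΓ : Γ → ι → k) (hΓ : ∀ p, pΓ p ∈ zs q) (hφΓ : ∀ p, pairing F (pΓ p) ≠ 0)
    (hsurj : ∀ g : Γ → k, ∃ G : MvPolynomial ι k, G.IsHomogeneous (j + 1) ∧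
      ∀ p, eval (pΓ p) G = g p) :
    ∑ p, ∑ᶠ v : Place k L, exc v F (pΓ p) ≤
      (hilb q (j + 1) - hilb q j : ℤ) * (2 * htP k F + chi k L) := by
  classical
  set F' : ι → L := fun i => der ht (F i) with hF'
  obtain ⟨w, hw, A, B, hAB⟩ := hgood
  obtain ⟨M, hM, hM2, hM3⟩ := exists_basis_mod q (j + 1)
  set J := max A.totalDegree B.totalDegree + (j + 1) with hJ
  obtain ⟨X₀, hX₀, hX₀2⟩ := exists_dense hq hw (J + 1)
  have hXzs : ∀ x ∈ X₀, x ∈ zs q := fun x hx => (hX₀ x hx).1
  have hφX : ∀ x ∈ X₀, pairing F x ≠ 0 := fun x hx =>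
    Good.pairing_ne_zero hAB (hXzs x hx) (hX₀ x hx).2
  obtain ⟨d, u, hu, hu2, hu3⟩ := exists_basis_fn X₀ w J
  set pt : X₀ ⊕ Γ → ι → k := Sum.elim (fun x : X₀ => (x : ι → k)) pΓ with hpt
  set m : Fin (hilb q (j + 1)) → X₀ ⊕ Γ → k := fun i x => eval (pt x) (M i) with hm
  have hptzs : ∀ x, pt x ∈ zs q := by
    rintro (x | p)
    · exact hXzs x x.2
    · exact hΓ p
  have hevm : ∀ (P : Fin (hilb q (j + 1)) → L) (x : X₀ ⊕ Γ),
      evL m P x = evalL (pt x) (combL M P) := by
    intro P x
    rw [evalL_combL]; rfl
  -- the main data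
  have D : MIData k F F' pt m u := by
    refine ⟨?_, hu, ?_, ?_, ?_, ?_⟩
    · rw [Fintype.linearIndependent_iff]
      intro c hc
      have h1 : ∑ i, C (c i) * M i ∈ q := by
        apply hX₀2
        · refine le_trans (IsHomogeneous.sum _ _ (j + 1) fun i _ => ?_ :
            (∑ i, C (c i) * M i).IsHomogeneous (j + 1)).totalDegree_le (by omega)
          have := (isHomogeneous_C ι (c i)).mul (hM i)
          rwa [zero_add] at this
        · intro x hx
          have h2 := congrFun hc ⟨x, hx⟩
          rw [Finset.sum_apply] at h2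
          rw [map_sum]
          simpa [hm, hpt] using h2
      exact fun i => congrFun (hM2 c h1) i
    · intro g
      obtain ⟨G, hG, hG2⟩ := hsurj g
      obtain ⟨c, hc⟩ := hM3 G hG
      refine ⟨c, fun p => ?_⟩
      have h1 := hΓ p _ hc
      rw [map_sub, map_sum, sub_eq_zero, hG2] at h1
      rw [h1]
      refine Finset.sum_congr rfl fun i _ => ?_
      rw [map_mul, eval_C]
      rfl
    · rintro (x | p)
      · exact hφX x x.2
      · exact hφΓ p
    · intro P Q hPQ
      have hPdeg : (combL M P : MvPolynomial ι L).totalDegree ≤ j + 1 :=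
        (isHomogeneous_combL hM P).totalDegree_le
      have hQdeg : (combL M Q : MvPolynomial ι L).totalDegree ≤ j + 1 :=
        (isHomogeneous_combL hM Q).totalDegree_le
      constructor
      · intro p
        set Δ : MvPolynomial ι L := linP F * combL M P - linP F' * combL M Q with hΔ
        have hΔdeg : Δ.totalDegree ≤ J + 1 := by
          have h1 : Δ.IsHomogeneous (1 + (j + 1)) :=
            ((isHomogeneous_linP F).mul (isHomogeneous_combL hM P)).sub
              ((isHomogeneous_linP F').mul (isHomogeneous_combL hM Q))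
          exact le_trans h1.totalDegree_le (by omega)
        obtain ⟨c, hc⟩ := exists_eval_comb hX₀2 (hΓ p)
        have h2 := eval_comb_map (L := L) hc hΔdeg
        have h3 : ∀ x : X₀, evalL (x : ι → k) Δ = 0 := by
          intro x
          rw [hΔ, evalL_sub, evalL_mul, evalL_mul, evalL_linP, evalL_linP]
          have h4 := hPQ x
          rw [hevm, hevm] at h4
          exact sub_eq_zero.2 h4
        have h4 : evalL (pΓ p) Δ = 0 := by
          have h5 : evalL (pΓ p) Δ = ∑ x : X₀, algebraMap k L (c x) * evalL (x : ι → k) Δ := h2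
          rw [h5]
          exact Finset.sum_eq_zero fun x _ => by rw [h3, mul_zero]
        rw [hΔ, evalL_sub, evalL_mul, evalL_mul, evalL_linP, evalL_linP] at h4
        rw [hevm, hevm]
        exact sub_eq_zero.1 h4
      · set T : MvPolynomial ι L := A * combL M Q + B * combL M P with hT
        have hTdeg : T.totalDegree ≤ J := by
          refine le_trans (totalDegree_add _ _) (max_le ?_ ?_)
          · refine le_trans (totalDegree_mul _ _) ?_
            have := le_max_left A.totalDegree B.totalDegree
            omega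
          · refine le_trans (totalDegree_mul _ _) ?_
            have := le_max_right A.totalDegree B.totalDegree
            omega
        obtain ⟨g, hg⟩ := exists_coord_of_degree (L := L) hu2 hTdeg
        refine ⟨g, fun x => ?_⟩
        rw [← hg x, hevm]
        have h1 := hPQ x
        rw [hevm, hevm] at h1
        have h2 := hAB (x : ι → k) (hXzs x x.2)
        have h3 : algebraMap k L (eval (x : ι → k) w) ≠ 0 := by
          rw [Ne, map_eq_zero]; exact (hX₀ x x.2).2
        have h4 : pt (Sum.inl x) = (x : ι → k) := rfl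
        rw [h4] at h1 ⊢
        rw [hT, evalL_add, evalL_mul, evalL_mul]
        field_simp
        rw [h2]
        linear_combination (-evalL (x : ι → k) B) * h1
    · intro v c hc g hg
      obtain ⟨G, hG, hG2⟩ := hu3 g
      have h1 : (∑ i, C (c i) * X i) * G ∈ q := by
        apply hX₀2
        · refine le_trans (totalDegree_mul _ _) ?_
          have h2 : (∑ i, C (c i) * X i : MvPolynomial ι k).IsHomogeneous 1 := by
            refine IsHomogeneous.sum _ _ _ fun i _ => ?_
            have := (isHomogeneous_C ι (c i)).mul (isHomogeneous_X k i)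
            rwa [zero_add] at this
          have := h2.totalDegree_le
          omega
        · intro x hx
          have h2 := hg ⟨x, hx⟩
          rw [hG2] at h2
          rw [map_mul, map_sum]
          simp only [map_mul, eval_C, eval_X]
          have h3 : (∑ i, c i * x i) * ((eval x w)⁻¹ * eval x G) = 0 := h2
          have h4 := (hX₀ x hx).2
          have h5 : (∑ i, c i * x i) * eval x G = 0 := by
            rw [mul_left_comm] at h3
            exact (mul_eq_zero.1 h3).resolve_left (inv_ne_zero h4)
          exact h5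
      have h2 := (hq.mem_or_mem h1).resolve_left (hnd v c hc)
      rw [Fintype.linearIndependent_iff] at hu
      funext l
      refine hu g ?_ l
      funext x
      rw [Finset.sum_apply]
      have h3 : ∑ l, g l * u l x = 0 := by
        rw [hG2, hXzs x x.2 G h2, mul_zero]
      exact h3
  have hmain := D.main ht
  have hker := hilb_le_finrank_kerK (F' := F') hM3 hXzs (fun P hP => hX₀2 P (by omega)) hφX pΓ
  have hW := chi_add_two_htP_nonneg hF (k := k)
  rw [Fintype.card_fin] at hmain
  refine le_trans hmain (mul_le_mul_of_nonneg_right ?_ (by linarith))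
  have h1 : (hilb q j : ℤ) ≤ (Module.finrank L (kerK F F' pt m) : ℤ) := by exact_mod_cast hker
  linarith

end

end Pool.Agent.Helper11
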