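import Pool.Agent.Helper11.ExcSpec
import Pool.Agent.Helper11.MIPoly

/-! The exceptional set attached to a prime ideal -/

set_option linter.unusedSectionVars false

namespace Pool.Agent.Helper11

open MvPolynomial

section

variable {k ι : Type*} [Field k] [Fintype ι]

/-- the member with coordinates `θ` of the linear system, over a field extension -/
noncomputable def linS {K α : Type*} [Field K] [Algebra k K] [Fintype α]
    (s : α → MvPolynomial ι k) (θ : α → K) : MvPolynomial ι K :=
  ∑ a, C (θ a) * map (algebraMap k K) (s a)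

/-- the ideal of the conditions `F(x) = 0`, `⟨η, s(x)⟩ = 0` and `⟨D η, s(x)⟩ = 0` -/
noncomputable def cc (I : Ideal (MvPolynomial ι k)) {K α : Type*} [Field K] [Algebra k K]
    [Fintype α] (s : α → MvPolynomial ι k) (η : α → K) : Ideal (MvPolynomial ι K) :=
  Ideal.span ({G | ∃ F ∈ I, (∃ d, F.IsHomogeneous d) ∧ G = map (algebraMap k K) F} ∪
    ({linS s η} ∪ {G | ∃ D : Derivation k K K, G = linS s fun i => D (η i)}))

variable {K α : Type*} [Field K] [Algebra k K] [Fintype α] (s : α → MvPolynomial ι k)

theorem map_mem_cc {I : Ideal (MvPolynomial ι k)} (hI : HomI I) (η : α → K)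
    {F : MvPolynomial ι k} (hF : F ∈ I) : map (algebraMap k K) F ∈ cc I s η := by
  rw [← sum_homogeneousComponent F, map_sum]
  refine Ideal.sum_mem _ fun i _ => Ideal.subset_span (Or.inl ?_)
  exact ⟨_, hI F hF i, ⟨i, homogeneousComponent_isHomogeneous i F⟩, rfl⟩

theorem homogeneousComponent_map (j : ℕ) (F : MvPolynomial ι k) :
    homogeneousComponent j (map (algebraMap k K) F) =
      map (algebraMap k K) (homogeneousComponent j F) := by
  ext d
  rw [coeff_map, coeff_homogeneousComponent, coeff_homogeneousComponent, coeff_map]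
  split_ifs
  · rfl
  · rw [map_zero]

attribute [local instance] MvPolynomial.gradedAlgebra

variable {s} {e : ℕ} (hs : ∀ a, (s a).IsHomogeneous e)

include hs in
theorem isHomogeneous_linS (θ : α → K) : (linS s θ).IsHomogeneous e := by
  refine IsHomogeneous.sum _ _ _ fun i _ => ?_
  have := (isHomogeneous_C ι (θ i)).mul ((hs i).map (algebraMap k K))
  rwa [zero_add] at this

include hs in
theorem homI_cc (I : Ideal (MvPolynomial ι k)) (η : α → K) : HomI (cc I s η) := by
  rw [homI_iff]
  apply Ideal.homogeneous_span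
  rintro G (⟨F, _, ⟨d, hd⟩, rfl⟩ | hG | ⟨D, rfl⟩)
  · exact ⟨d, hd.map _⟩
  · rw [Set.mem_singleton_iff] at hG
    subst hG
    exact ⟨e, isHomogeneous_linS hs _⟩
  · exact ⟨e, isHomogeneous_linS hs _⟩

variable [IsAlgClosed k] [CharZero k]

include hs in
/-- **Elimination.** Some nontrivial condition on the points of the variety follows. -/
theorem exists_elim {I : Ideal (MvPolynomial ι k)} (hIp : I.IsPrime) (hI : HomI I)
    (hX : ∃ i, (X i : MvPolynomial ι k) ∉ I) {c : ℕ}
    (hrank : ∀ x ∈ zs I, x ≠ 0 → Module.finrank k (conormal I x) = c) {p : α → k}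
    (htrans : ∀ x ∈ zs I, x ≠ 0 → eval x (mem' s p) = 0 → grad (mem' s p) x ∉ conormal I x)
    (η : α → K) (hη : ∀ P : MvPolynomial α k, aeval η P = 0 → eval p P = 0) :
    ∃ Z : MvPolynomial ι k, Z ∉ I ∧ map (algebraMap k K) Z ∈ cc I s η := by
  classical
  by_contra hcon
  push Not at hcon
  set N : Submonoid (MvPolynomial ι K) := (I.primeCompl).map (map (algebraMap k K)) with hN
  have hdisj : Disjoint (cc I s η : Set (MvPolynomial ι K)) N := by
    rw [Set.disjoint_left]
    rintro G hG ⟨Z, hZ, rfl⟩
    exact hcon Z hZ hG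
  obtain ⟨P, hP, hccP, hPN⟩ := Ideal.exists_le_prime_disjoint _ _ hdisj
  have hmem : ∀ F : MvPolynomial ι k, map (algebraMap k K) F ∈ P → F ∈ I := by
    intro F hF
    by_contra hFI
    exact Set.disjoint_left.1 hPN hF ⟨F, hFI, rfl⟩
  let E := FractionRing (MvPolynomial ι K ⧸ P)
  let Ψ : MvPolynomial ι K →+* E := (algebraMap (MvPolynomial ι K ⧸ P) E).comp (Ideal.Quotient.mk P)
  have hΨ : ∀ G, Ψ G = 0 ↔ G ∈ P := by
    intro G
    rw [← Ideal.Quotient.eq_zero_iff_mem]
    change algebraMap (MvPolynomial ι K ⧸ P) E (Ideal.Quotient.mk P G) = 0 ↔ _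
    exact map_eq_zero_iff _ (IsFractionRing.injective _ _)
  set xb : ι → E := fun i => Ψ (X i) with hxb
  have hΨC : ∀ a : K, Ψ (C a) = algebraMap K E a := fun a => rfl
  have hΨeq : ∀ G : MvPolynomial ι K, Ψ G = aeval xb G := by
    intro G
    have h1 : Ψ = (aeval xb : MvPolynomial ι K →ₐ[K] E).toRingHom := by
      apply MvPolynomial.ringHom_ext
      · intro a
        rw [hΨC]
        exact (aeval_C _ _).symm
      · intro i
        exact (aeval_X xb i).symm
    rw [h1]; rfl
  have haeval : ∀ F : MvPolynomial ι k, aeval xb F = Ψ (map (algebraMap k K) F) := by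
    intro F
    rw [hΨeq, aeval_map_algebraMap]
  have hxI : ∀ F ∈ I, aeval xb F = 0 := by
    intro F hF
    rw [haeval, hΨ]
    exact hccP (map_mem_cc s hI η hF)
  have hker : ∀ F : MvPolynomial ι k, aeval xb F = 0 → F ∈ I := by
    intro F hF
    rw [haeval, hΨ] at hF
    exact hmem F hF
  have hlin : ∀ θ : α → K, linS s θ ∈ P → ∑ i, algebraMap K E (θ i) * aeval xb (s i) = 0 := by
    intro θ hθ
    rw [← hΨ] at hθ
    rw [← hθ]
    unfold linS
    rw [map_sum]
    refine Finset.sum_congr rfl fun i _ => ?_
    rw [map_mul, hΨC, haeval]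
  have h1 := hlin η (hccP (Ideal.subset_span (Or.inr (Or.inl rfl))))
  have h2 : ∀ D : Derivation k K K, ∑ i, algebraMap K E (D (η i)) * aeval xb (s i) = 0 := fun D =>
    hlin (fun i => D (η i)) (hccP (Ideal.subset_span (Or.inr (Or.inr ⟨D, rfl⟩))))
  have hspan := mem_span_gradients (k := k) s xb η h1 h2
  have hη' : ∀ P : MvPolynomial α k, eval p P ≠ 0 →
      aeval (fun i => algebraMap K E (η i)) P ≠ 0 := by
    intro Q hQ h0
    apply hQ
    apply hη
    have h3 : aeval (fun i => algebraMap K E (η i)) Q = algebraMap K E (aeval η Q) :=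
      aeval_algebraMap_apply E η Q
    rw [h3, map_eq_zero] at h0
    exact h0
  refine specialization hI hrank hs htrans hxI ?_ hη' h1 ?_
  · intro h0
    obtain ⟨i, hi⟩ := hX
    apply hi
    apply hker
    rw [aeval_X, h0]; rfl
  · intro F σ hF
    exact det_eq_zero_of_mem_span hIp hX hrank xb hxI hker hspan hF σ

include hs in
/-- homogeneous version of the elimination -/
theorem exists_elim_homogeneous {I : Ideal (MvPolynomial ι k)} (hIp : I.IsPrime) (hI : HomI I)
    (hX : ∃ i, (X i : MvPolynomial ι k) ∉ I) {c : ℕ}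
    (hrank : ∀ x ∈ zs I, x ≠ 0 → Module.finrank k (conormal I x) = c) {p : α → k}
    (htrans : ∀ x ∈ zs I, x ≠ 0 → eval x (mem' s p) = 0 → grad (mem' s p) x ∉ conormal I x)
    (η : α → K) (hη : ∀ P : MvPolynomial α k, aeval η P = 0 → eval p P = 0) :
    ∃ (d : ℕ) (Z : MvPolynomial ι k), Z.IsHomogeneous d ∧ Z ∉ I ∧
      map (algebraMap k K) Z ∈ cc I s η := by
  obtain ⟨Z, hZ, hZ2⟩ := exists_elim hs hIp hI hX hrank htrans η hη
  by_contra hcon
  push Not at hcon
  apply hZ
  rw [← sum_homogeneousComponent Z]
  refine Ideal.sum_mem _ fun i _ => ?_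
  by_contra h
  apply hcon i _ (homogeneousComponent_isHomogeneous i Z) h
  rw [← homogeneousComponent_map]
  exact homI_cc hs I η _ hZ2 i

end

section

variable {k ι α : Type*} [Field k] [Fintype ι] [Fintype α] [IsAlgClosed k] [CharZero k]

theorem der_eq_smul {L E : Type*} [Field L] [Algebra k L] [FunField k L] [Field E] [Algebra k E]
    [Algebra L E] [IsScalarTower k L E] {t : L} (ht : Transcendental k t) (d : Derivation k L E)
    (y : L) : d y = algebraMap L E (der ht y) * d t := by
  have h1 : ∀ x, d x = d.liftKaehlerDifferential (KaehlerDifferential.D k L x) := by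
    intro x
    rw [Derivation.liftKaehlerDifferential_comp_D]
  rw [h1 y, D_eq_der_smul ht y, map_smul, ← h1, Algebra.smul_def]

/-- if `f` and its derivative are orthogonal to `η`, then `f` satisfies all the conditions -/
theorem step2_core {K L E : Type*} [Field K] [Algebra k K] [Field L] [Algebra k L] [FunField k L]
    [Field E] [Algebra k E] [Algebra K E] [Algebra L E] [IsScalarTower k K E]
    [IsScalarTower k L E] {I : Ideal (MvPolynomial ι k)} (s : α → MvPolynomial ι k) (η : α → K)
    {t : L} (ht : Transcendental k t) (f : ι → L) (hf : ∀ F ∈ I, aeval f F = 0)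
    (h1 : ∑ a, algebraMap K E (η a) * algebraMap L E (aeval f (s a)) = 0)
    (h2 : ∑ a, algebraMap K E (η a) * algebraMap L E (der ht (aeval f (s a))) = 0)
    {Z : MvPolynomial ι k} (hZ : map (algebraMap k K) Z ∈ cc I s η) : aeval f Z = 0 := by
  classical
  let Φ : MvPolynomial ι K →+* E := eval₂Hom (algebraMap K E) fun i => algebraMap L E (f i)
  have hΦmap : ∀ F : MvPolynomial ι k, Φ (map (algebraMap k K) F) = algebraMap L E (aeval f F) := by
    intro F
    have h3 : Φ (map (algebraMap k K) F) =
        eval₂ (algebraMap k E) (fun i => algebraMap L E (f i)) F := by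
      change eval₂ _ _ (map _ F) = _
      rw [eval₂_map, ← IsScalarTower.algebraMap_eq]
    rw [h3]
    exact (aeval_algebraMap_apply E f F)
  have hΦlin : ∀ θ : α → K, Φ (linS s θ) =
      ∑ a, algebraMap K E (θ a) * algebraMap L E (aeval f (s a)) := by
    intro θ
    unfold linS
    rw [map_sum]
    refine Finset.sum_congr rfl fun i _ => ?_
    rw [map_mul, hΦmap]
    congr 1
    exact eval₂Hom_C _ _ _
  have hker : cc I s η ≤ RingHom.ker Φ := by
    unfold cc
    rw [Ideal.span_le]
    rintro G (⟨F, hF, _, rfl⟩ | hG | ⟨D, rfl⟩)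
    · change Φ _ = 0
      rw [hΦmap, hf F hF, map_zero]
    · rw [Set.mem_singleton_iff] at hG
      subst hG
      change Φ _ = 0
      rw [hΦlin, h1]
    · change Φ _ = 0
      rw [hΦlin]
      have hchar : CharZero K := charZero_of_injective_algebraMap (algebraMap k K).injective
      obtain ⟨D', hD'⟩ := exists_derivation_extend ((Algebra.linearMap K E).compDer D)
      have hD'2 : ∀ a, D' (algebraMap K E a) = algebraMap K E (D a) := hD'
      have h3 : D' (∑ a, algebraMap K E (η a) * algebraMap L E (aeval f (s a))) = 0 := by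
        rw [h1, map_zero]
      rw [map_sum] at h3
      have h4 : ∀ i, D' (algebraMap K E (η i) * algebraMap L E (aeval f (s i))) =
          D' (algebraMap L E t) *
            (algebraMap K E (η i) * algebraMap L E (der ht (aeval f (s i)))) +
          algebraMap K E (D (η i)) * algebraMap L E (aeval f (s i)) := by
        intro i
        have h5 := der_eq_smul ht (D'.compAlgebraMap L) (aeval f (s i))
        have h6 : ∀ x, (D'.compAlgebraMap L) x = D' (algebraMap L E x) := fun x => rfl
        rw [h6, h6] at h5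
        rw [D'.leibniz, hD'2, smul_eq_mul, smul_eq_mul, h5]
        ring
      rw [Finset.sum_congr rfl fun i _ => h4 i, Finset.sum_add_distrib, ← Finset.mul_sum, h2,
        mul_zero, zero_add] at h3
      exact h3
  have h3 := hker hZ
  rw [RingHom.mem_ker, hΦmap, map_eq_zero] at h3
  exact h3

/-- the coordinate functions in the fraction field -/
noncomputable def genPt (q : Ideal (MvPolynomial α k)) [q.IsPrime] :
    α → FractionRing (MvPolynomial α k ⧸ q) :=
  fun i => algebraMap _ _ (Ideal.Quotient.mk q (X i))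

theorem aeval_genPt (q : Ideal (MvPolynomial α k)) [q.IsPrime] (P : MvPolynomial α k) :
    aeval (genPt q) P = algebraMap _ (FractionRing (MvPolynomial α k ⧸ q))
      (Ideal.Quotient.mk q P) := by
  let Φ : MvPolynomial α k →+* FractionRing (MvPolynomial α k ⧸ q) :=
    (algebraMap _ _).comp (Ideal.Quotient.mk q)
  have h1 : (aeval (genPt q) : MvPolynomial α k →ₐ[k] _).toRingHom = Φ := by
    apply MvPolynomial.ringHom_ext
    · intro a
      exact aeval_C _ _
    · intro i
      exact aeval_X _ _
  exact RingHom.congr_fun h1 P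

theorem good_of_not_exceptional {q : Ideal (MvPolynomial α k)} [hq : q.IsPrime]
    {I : Ideal (MvPolynomial ι k)} (s : α → MvPolynomial ι k)
    {L : Type*} [Field L] [Algebra k L] [FunField k L] {t : L}
    (ht : Transcendental k t) (x : ι → L) (hf : ∀ F ∈ I, aeval x F = 0)
    {Z : MvPolynomial ι k} (hZ : map (algebraMap k _) Z ∈ cc I s (genPt q))
    (hZf : aeval x Z ≠ 0) :
    Good q (fun a => aeval x (s a)) (fun a => der ht (aeval x (s a))) := by
  classical
  by_contra hnot
  set f : α → L := fun a => aeval x (s a) with hfdef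
  set g : Ideal (MvPolynomial α L) := Ideal.map (map (algebraMap k L)) q ⊔
    (Ideal.span {linP f} ⊔ Ideal.span {linP fun a => der ht (f a)}) with hg
  set N : Submonoid (MvPolynomial α L) := (q.primeCompl).map (map (algebraMap k L)) with hN
  have hdisj : Disjoint (g : Set (MvPolynomial α L)) N := by
    rw [Set.disjoint_left]
    rintro G hG ⟨w, hw, rfl⟩
    apply hnot
    rw [SetLike.mem_coe, hg, Submodule.mem_sup] at hG
    obtain ⟨y, hy, z, hz, hyz⟩ := hG
    rw [Submodule.mem_sup] at hz
    obtain ⟨a, ha, b, hb, hab⟩ := hz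
    rw [Ideal.mem_span_singleton'] at ha hb
    obtain ⟨A, rfl⟩ := ha
    obtain ⟨B, rfl⟩ := hb
    refine ⟨w, hw, A, B, fun p hp => ?_⟩
    have hy0 : evalL p y = 0 := by
      have hle : Ideal.map (map (algebraMap k L)) q ≤
          RingHom.ker (eval fun i => algebraMap k L (p i)) := by
        rw [Ideal.map_le_iff_le_comap]
        intro P hP
        change eval (fun i => algebraMap k L (p i)) (map (algebraMap k L) P) = 0
        rw [eval_map_algebraMap, hp P hP, map_zero]
      exact hle hy
    have h1 := congrArg (evalL p) hyz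
    rw [← hab, evalL_add, evalL_add, hy0, zero_add, evalL_mul, evalL_mul, evalL_linP,
      evalL_linP] at h1
    have h2 : evalL p (map (algebraMap k L) w) = algebraMap k L (eval p w) :=
      eval_map_algebraMap p w
    rw [← h2, ← h1]
  obtain ⟨P, hP, hgP, hPN⟩ := Ideal.exists_le_prime_disjoint _ _ hdisj
  have hmem : ∀ F : MvPolynomial α k, map (algebraMap k L) F ∈ P → F ∈ q := by
    intro F hF
    by_contra hFI
    exact Set.disjoint_left.1 hPN hF ⟨F, hFI, rfl⟩
  let E := FractionRing (MvPolynomial α L ⧸ P)
  let Ψ : MvPolynomial α L →+* E := (algebraMap (MvPolynomial α L ⧸ P) E).comp (Ideal.Quotient.mk P)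
  have hΨ : ∀ G, Ψ G = 0 ↔ G ∈ P := by
    intro G
    rw [← Ideal.Quotient.eq_zero_iff_mem]
    change algebraMap (MvPolynomial α L ⧸ P) E (Ideal.Quotient.mk P G) = 0 ↔ _
    exact map_eq_zero_iff _ (IsFractionRing.injective _ _)
  have hΨC : ∀ a : L, Ψ (C a) = algebraMap L E a := fun a => rfl
  -- the embedding of the fraction field of `S / q`
  let γ : (MvPolynomial α k ⧸ q) →ₐ[k] E := Ideal.Quotient.liftₐ q
    (aeval fun i => Ψ (X i)) (by
      intro a ha
      have h1 : aeval (fun i => Ψ (X i)) a = Ψ (map (algebraMap k L) a) := by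
        have h3 : (aeval (fun i => Ψ (X i)) : MvPolynomial α k →ₐ[k] E).toRingHom =
            Ψ.comp (map (algebraMap k L)) := by
          apply MvPolynomial.ringHom_ext
          · intro c
            rw [RingHom.comp_apply, map_C, hΨC, ← IsScalarTower.algebraMap_apply]
            exact aeval_C _ _
          · intro i
            rw [RingHom.comp_apply, map_X]
            exact aeval_X _ _
        exact RingHom.congr_fun h3 a
      rw [h1, hΨ]
      apply hgP
      rw [hg]
      exact Submodule.mem_sup_left (Ideal.mem_map_of_mem _ ha))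
  have hγ : ∀ P' : MvPolynomial α k, γ (Ideal.Quotient.mk q P') = Ψ (map (algebraMap k L) P') := by
    intro P'
    have h3 : (γ.toRingHom.comp (Ideal.Quotient.mk q)) = Ψ.comp (map (algebraMap k L)) := by
      apply MvPolynomial.ringHom_ext
      · intro c
        rw [RingHom.comp_apply, RingHom.comp_apply, map_C, hΨC, ← IsScalarTower.algebraMap_apply]
        exact γ.commutes c
      · intro i
        rw [RingHom.comp_apply, RingHom.comp_apply, map_X]
        change aeval (fun i => Ψ (X i)) (X i : MvPolynomial α k) = _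
        rw [aeval_X]
    exact RingHom.congr_fun h3 P'
  have hγinj : Function.Injective γ := by
    rw [injective_iff_map_eq_zero]
    intro a ha
    obtain ⟨a, rfl⟩ := Ideal.Quotient.mk_surjective a
    rw [hγ, hΨ] at ha
    rw [Ideal.Quotient.eq_zero_iff_mem]
    exact hmem _ ha
  let K := FractionRing (MvPolynomial α k ⧸ q)
  let γK : K →ₐ[k] E := IsFractionRing.liftAlgHom hγinj
  let _ : Algebra K E := γK.toRingHom.toAlgebra
  have hst : IsScalarTower k K E := by
    apply IsScalarTower.of_algebraMap_eq
    intro a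
    exact (γK.commutes a).symm
  have hη : ∀ i, algebraMap K E (genPt q i) = Ψ (X i) := by
    intro i
    have h3 : γK (genPt q i) = γ (Ideal.Quotient.mk q (X i)) :=
      IsFractionRing.lift_algebraMap (show Function.Injective γ.toRingHom from hγinj) _
    change γK (genPt q i) = _
    rw [h3, hγ, map_X]
  have hlin : ∀ θ : α → L, linP θ ∈ P →
      ∑ i, algebraMap K E (genPt q i) * algebraMap L E (θ i) = 0 := by
    intro θ hθ
    rw [← hΨ] at hθ
    rw [← hθ]
    unfold linP
    rw [map_sum]
    refine Finset.sum_congr rfl fun i _ => ?_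
    rw [map_mul, hΨC, hη, mul_comm]
  apply hZf
  refine step2_core (K := K) (E := E) s (genPt q) ht x hf ?_ ?_ hZ
  · apply hlin f
    apply hgP
    rw [hg]
    exact Submodule.mem_sup_right (Submodule.mem_sup_left (Ideal.mem_span_singleton_self _))
  · apply hlin fun a => der ht (f a)
    apply hgP
    rw [hg]
    exact Submodule.mem_sup_right (Submodule.mem_sup_right (Ideal.mem_span_singleton_self _))

end

end Pool.Agent.Helper11
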