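import Pool.Agent.Helper11.ExcSpecR
import Pool.Agent.Helper11.Exceptional

/-! The certificate for the exceptional set -/

set_option linter.unusedSectionVars false

namespace Pool.Agent.Helper11

open MvPolynomial

section hom

variable {R ι : Type*} [CommRing R]

theorem isHomogeneous_det {n : ℕ} {M : Matrix (Fin n) (Fin n) (MvPolynomial ι R)} {r : Fin n → ℕ}
    (h : ∀ i j, (M i j).IsHomogeneous (r i)) : M.det.IsHomogeneous (∑ i, r i) := by
  rw [Matrix.det_apply]
  refine IsHomogeneous.sum _ _ _ fun σ _ => ?_
  have h1 : (∏ i, M (σ i) i).IsHomogeneous (∑ i, r i) := by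
    have h2 := IsHomogeneous.prod Finset.univ (fun i => M (σ i) i) (fun i => r (σ i))
      (fun i _ => h (σ i) i)
    rwa [Equiv.sum_comp σ r] at h2
  rcases Int.units_eq_one_or (Equiv.Perm.sign σ) with h2 | h2
  · rw [h2, one_smul]; exact h1
  · rw [h2, Units.neg_smul, one_smul]
    have := (homogeneousSubmodule ι R (∑ i, r i)).neg_mem h1
    exact this

end hom

section theta

variable {k ι : Type*} [Field k] [Fintype ι] {K β : Type*} [Field K] [Algebra k K]

/-- evaluation of the parameters -/
noncomputable def theta (ζ : β → K) :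
    MvPolynomial β (MvPolynomial ι k) →+* MvPolynomial ι K :=
  eval₂Hom (map (algebraMap k K)) fun j => C (ζ j)

theorem theta_C (ζ : β → K) (F : MvPolynomial ι k) :
    theta ζ (C F) = map (algebraMap k K) F := eval₂Hom_C _ _ _

theorem theta_X (ζ : β → K) (j : β) : theta (ι := ι) (k := k) ζ (X j) = C (ζ j) :=
  eval₂Hom_X' _ _ _

theorem theta_monomial (ζ : β → K) (m : β →₀ ℕ) (F : MvPolynomial ι k) :
    theta ζ (monomial m F) = C (m.prod fun j e => ζ j ^ e) * map (algebraMap k K) F := by
  unfold theta
  rw [coe_eval₂Hom, eval₂_monomial, mul_comm]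
  congr 1
  rw [Finsupp.prod, Finsupp.prod, map_prod]
  simp

/-- the part of degree `d` in the second set of variables -/
noncomputable def homX (d : ℕ) (H : MvPolynomial β (MvPolynomial ι k)) :
    MvPolynomial β (MvPolynomial ι k) :=
  ∑ m ∈ H.support, monomial m (homogeneousComponent d (coeff m H))

theorem coeff_homX (d : ℕ) (H : MvPolynomial β (MvPolynomial ι k)) (m : β →₀ ℕ) :
    coeff m (homX d H) = homogeneousComponent d (coeff m H) := by
  classical
  unfold homX
  rw [coeff_sum]
  simp only [coeff_monomial]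
  rw [Finset.sum_ite_eq' H.support m]
  split_ifs with h
  · rfl
  · rw [notMem_support_iff.1 h, map_zero]

theorem theta_homX (ζ : β → K) (d : ℕ) (H : MvPolynomial β (MvPolynomial ι k)) :
    theta ζ (homX d H) = homogeneousComponent d (theta ζ H) := by
  classical
  conv_rhs => rw [H.as_sum]
  unfold homX
  rw [map_sum, map_sum, map_sum]
  refine Finset.sum_congr rfl fun m _ => ?_
  rw [theta_monomial, theta_monomial, homogeneousComponent_C_mul, homogeneousComponent_map]

end theta

section cert

variable {k ι α : Type*} [Field k] [Fintype ι] [Fintype α] [IsAlgClosed k] [CharZero k]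

theorem trdeg_fractionRing (q : Ideal (MvPolynomial α k)) [hq : q.IsPrime] :
    Algebra.trdeg k (FractionRing (MvPolynomial α k ⧸ q)) = tdeg q := by
  have h1 := trdeg_add_eq k (MvPolynomial α k ⧸ q) (A := FractionRing (MvPolynomial α k ⧸ q))
  have h2 : Algebra.IsAlgebraic (MvPolynomial α k ⧸ q)
      (FractionRing (MvPolynomial α k ⧸ q)) := IsLocalization.isAlgebraic _ (nonZeroDivisors _)
  rw [trdeg_eq_zero (R := MvPolynomial α k ⧸ q), add_zero, trdeg_eq_tdeg] at h1
  exact h1.symm

/-- the members of `cc` vanish at a point of the curve -/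
theorem step2_ker {K L E : Type*} [Field K] [Algebra k K] [Field L] [Algebra k L] [FunField k L]
    [Field E] [Algebra k E] [Algebra K E] [Algebra L E] [IsScalarTower k K E]
    [IsScalarTower k L E] {I : Ideal (MvPolynomial ι k)} (s : α → MvPolynomial ι k) (η : α → K)
    {t : L} (ht : Transcendental k t) (f : ι → L) (hf : ∀ F ∈ I, aeval f F = 0)
    (h1 : ∑ a, algebraMap K E (η a) * algebraMap L E (aeval f (s a)) = 0)
    (h2 : ∑ a, algebraMap K E (η a) * algebraMap L E (der ht (aeval f (s a))) = 0) :
    cc I s η ≤ RingHom.ker (eval₂Hom (algebraMap K E) fun i => algebraMap L E (f i)) := by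
  classical
  let Φ : MvPolynomial ι K →+* E := eval₂Hom (algebraMap K E) fun i => algebraMap L E (f i)
  have hΦmap : ∀ F : MvPolynomial ι k, Φ (map (algebraMap k K) F) = algebraMap L E (aeval f F) := by
    intro F
    have h3 : Φ (map (algebraMap k K) F) =
        eval₂ (algebraMap k E) (fun i => algebraMap L E (f i)) F := by
      change eval₂ _ _ (map _ F) = _
      rw [eval₂_map, ← IsScalarTower.algebraMap_eq]
    rw [h3]
    exact (aeval_algebraMap_apply E f F)
  have hΦlin : ∀ θ : α → K, Φ (linS s θ) =
      ∑ a, algebraMap K E (θ a) * algebraMap L E (aeval f (s a)) := by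
    intro θ
    unfold linS
    rw [map_sum]
    refine Finset.sum_congr rfl fun i _ => ?_
    rw [map_mul, hΦmap]
    congr 1
    exact eval₂Hom_C _ _ _
  change cc I s η ≤ RingHom.ker Φ
  unfold cc
  rw [Ideal.span_le]
  rintro G (⟨F, hF, _, rfl⟩ | hG | ⟨D, rfl⟩)
  · change Φ _ = 0
    rw [hΦmap, hf F hF, map_zero]
  · rw [Set.mem_singleton_iff] at hG
    subst hG
    change Φ _ = 0
    rw [hΦlin, h1]
  · change Φ _ = 0
    rw [hΦlin]
    have hchar : CharZero K := charZero_of_injective_algebraMap (algebraMap k K).injective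
    obtain ⟨D', hD'⟩ := exists_derivation_extend ((Algebra.linearMap K E).compDer D)
    have hD'2 : ∀ a, D' (algebraMap K E a) = algebraMap K E (D a) := hD'
    have h3 : D' (∑ a, algebraMap K E (η a) * algebraMap L E (aeval f (s a))) = 0 := by
      rw [h1, map_zero]
    rw [map_sum] at h3
    have h4 : ∀ i, D' (algebraMap K E (η i) * algebraMap L E (aeval f (s i))) =
        D' (algebraMap L E t) *
          (algebraMap K E (η i) * algebraMap L E (der ht (aeval f (s i)))) +
        algebraMap K E (D (η i)) * algebraMap L E (aeval f (s i)) := by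
      intro i
      have h5 := der_eq_smul ht (D'.compAlgebraMap L) (aeval f (s i))
      have h6 : ∀ x, (D'.compAlgebraMap L) x = D' (algebraMap L E x) := fun x => rfl
      rw [h6, h6] at h5
      rw [D'.leibniz, hD'2, smul_eq_mul, smul_eq_mul, h5]
      ring
    rw [Finset.sum_congr rfl fun i _ => h4 i, Finset.sum_add_distrib, ← Finset.mul_sum, h2,
      mul_zero, zero_add] at h3
    exact h3

/-- the independence of coordinates of both kinds -/
theorem indep_of_disjoint {K : Type*} [Field K] [Algebra k K] {I : Ideal (MvPolynomial ι k)}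
    (hI : I.IsPrime) {β : Type*} {ζ : β → K} {P : Ideal (MvPolynomial ι K)}
    (hP : ∀ H : MvPolynomial β (MvPolynomial ι k), theta ζ H ∈ P →
      map (Ideal.Quotient.mk I) H = 0) {n : ℕ} {z : Fin n → ι}
    (hz : AIM I fun a => (X (z a) : MvPolynomial ι k)) :
    AlgebraicIndependent k (Sum.elim (fun j => Ideal.Quotient.mk P (C (ζ j)))
      (fun a => Ideal.Quotient.mk P (X (z a)))) := by
  classical
  have hdom : IsDomain (MvPolynomial ι k ⧸ I) := Ideal.Quotient.isDomain I
  -- the model family
  have h01 := (aim_iff _ _).1 hz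
  have h02 := algebraicIndependent_X β (MvPolynomial ι k ⧸ I)
  have hmodel := AlgebraicIndependent.sumElim_comp h01 h02
  rw [algebraicIndependent_iff] at hmodel ⊢
  intro R hR
  apply hmodel
  set gm : β ⊕ Fin n → MvPolynomial β (MvPolynomial ι k) :=
    Sum.elim (fun j => X j) (fun a => C (X (z a))) with hgm
  set H : MvPolynomial β (MvPolynomial ι k) := aeval gm R with hH
  have h1 : Ideal.Quotient.mk P (theta ζ H) = 0 := by
    rw [← hR]
    have h3 : (((Ideal.Quotient.mk P).comp (theta ζ)).comp
        ((aeval gm : MvPolynomial (β ⊕ Fin n) k →ₐ[k] _)).toRingHom) =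
        ((aeval (Sum.elim (fun j => Ideal.Quotient.mk P (C (ζ j)))
          (fun a => Ideal.Quotient.mk P (X (z a)))) :
          MvPolynomial (β ⊕ Fin n) k →ₐ[k] _)).toRingHom := by
      apply MvPolynomial.ringHom_ext
      · intro a
        change Ideal.Quotient.mk P (theta ζ (aeval gm (C a))) = aeval _ (C a)
        rw [aeval_C, aeval_C]
        have h4 : algebraMap k (MvPolynomial β (MvPolynomial ι k)) a = C (C a) := rfl
        rw [h4, theta_C, map_C]
        rfl
      · intro b
        change Ideal.Quotient.mk P (theta ζ (aeval gm (X b))) = aeval _ (X b)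
        rw [aeval_X, aeval_X]
        rcases b with j | a
        · change Ideal.Quotient.mk P (theta ζ (X j)) = Ideal.Quotient.mk P (C (ζ j))
          rw [theta_X]
        · change Ideal.Quotient.mk P (theta ζ (C (X (z a)))) = Ideal.Quotient.mk P (X (z a))
          rw [theta_C, map_X]
    exact RingHom.congr_fun h3 R
  have h2 := hP H (Ideal.Quotient.eq_zero_iff_mem.1 h1)
  rw [← h2]
  have h3 : ∀ g : β ⊕ Fin n → MvPolynomial β (MvPolynomial ι k ⧸ I),
      (∀ b, g b = map (Ideal.Quotient.mk I) (gm b)) →
      ((aeval g : MvPolynomial (β ⊕ Fin n) k →ₐ[k] _)).toRingHom =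
      (map (Ideal.Quotient.mk I)).comp
        ((aeval gm : MvPolynomial (β ⊕ Fin n) k →ₐ[k] _)).toRingHom := by
    intro g hg
    apply MvPolynomial.ringHom_ext
    · intro a
      change aeval g (C a) = map _ (aeval gm (C a))
      rw [aeval_C, aeval_C]
      have h4 : algebraMap k (MvPolynomial β (MvPolynomial ι k)) a = C (C a) := rfl
      rw [h4, map_C]
      rfl
    · intro b
      change aeval g (X b) = map _ (aeval gm (X b))
      rw [aeval_X, aeval_X, hg]
  refine RingHom.congr_fun (h3 _ ?_) R
  rintro (j | a)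
  · change X j = map _ (X j)
    rw [map_X]
  · change _ = map _ (C (X (z a)))
    rw [map_C]
    rfl

end cert

end Pool.Agent.Helper11
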