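import Pool.Agent.Helper11.ExcCert

/-! Existence of the certificate for the exceptional set -/

set_option linter.unusedSectionVars false

namespace Pool.Agent.Helper11

open MvPolynomial

section

variable {k ι α : Type*} [Field k] [Fintype ι] [Fintype α] [IsAlgClosed k] [CharZero k]

/-- the polynomial whose vanishing expresses the tangency with the generic member -/
noncomputable def detK {K : Type*} [Field K] [Algebra k K] (s : α → MvPolynomial ι k) (η : α → K)
    {c : ℕ} (F : Fin c → MvPolynomial ι k) (σ : Fin (c + 1) → ι) : MvPolynomial ι K :=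
  (consM (fun b => ∑ a, C (η a) * map (algebraMap k K) (pderiv (σ b) (s a)))
    fun i b => map (algebraMap k K) (pderiv (σ b) (F i))).det

theorem isHomogeneous_detK {K : Type*} [Field K] [Algebra k K] {s : α → MvPolynomial ι k} {e : ℕ}
    (hs : ∀ a, (s a).IsHomogeneous e) (η : α → K) {c : ℕ} {F : Fin c → MvPolynomial ι k}
    {d : Fin c → ℕ} (hF : ∀ i, (F i).IsHomogeneous (d i)) (σ : Fin (c + 1) → ι) :
    (detK s η F σ).IsHomogeneous (∑ i, (Fin.cons (e - 1) (fun i => d i - 1) : Fin (c + 1) → ℕ) i) := by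
  refine isHomogeneous_det fun i j => ?_
  refine Fin.cases ?_ (fun i => ?_) i
  · rw [consM_zero, Fin.cons_zero]
    refine IsHomogeneous.sum _ _ _ fun a _ => ?_
    have := (isHomogeneous_C ι (η a)).mul (((hs a).pderiv (i := σ j)).map (algebraMap k K))
    rwa [zero_add] at this
  · rw [consM_succ, Fin.cons_succ]
    exact (hF i).pderiv.map _

/-- the value of `detK` at a point -/
theorem map_detK {K E : Type*} [Field K] [Algebra k K] [Field E] [Algebra k E]
    (s : α → MvPolynomial ι k) (η : α → K) {c : ℕ} (F : Fin c → MvPolynomial ι k)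
    (σ : Fin (c + 1) → ι) (Φ : MvPolynomial ι K →+* E) {η' : α → E} {xb : ι → E}
    (hC : ∀ a, Φ (C (η a)) = η' a) (hmap : ∀ F, Φ (map (algebraMap k K) F) = aeval xb F) :
    Φ (detK s η F σ) = (consM (fun b => ∑ a, η' a * aeval xb (pderiv (σ b) (s a)))
        fun i b => aeval xb (pderiv (σ b) (F i))).det := by
  unfold detK
  rw [map_det_consM]
  congr 1
  congr 1
  · funext b
    rw [map_sum]
    refine Finset.sum_congr rfl fun a _ => ?_
    rw [map_mul, hC, hmap]
  · funext i b
    rw [hmap]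

/-- the set-up at a prime of `K[x]` -/
theorem frac_setup {K : Type*} [Field K] [Algebra k K] {P : Ideal (MvPolynomial ι K)}
    [P.IsPrime] (F : MvPolynomial ι k) :
    aeval (fun i => algebraMap (MvPolynomial ι K ⧸ P) (FractionRing (MvPolynomial ι K ⧸ P))
      (Ideal.Quotient.mk P (X i))) F =
      algebraMap (MvPolynomial ι K ⧸ P) (FractionRing (MvPolynomial ι K ⧸ P))
        (Ideal.Quotient.mk P (map (algebraMap k K) F)) := by
  let E := FractionRing (MvPolynomial ι K ⧸ P)
  let Ψ : MvPolynomial ι K →+* E := (algebraMap (MvPolynomial ι K ⧸ P) E).comp (Ideal.Quotient.mk P)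
  set xb : ι → E := fun i => Ψ (X i) with hxb
  have hΨC : ∀ a : K, Ψ (C a) = algebraMap K E a := fun a => rfl
  have h1 : Ψ = (aeval xb : MvPolynomial ι K →ₐ[K] E).toRingHom := by
    apply MvPolynomial.ringHom_ext
    · intro a
      rw [hΨC]
      exact (aeval_C _ _).symm
    · intro i
      exact (aeval_X xb i).symm
  change aeval xb F = Ψ (map (algebraMap k K) F)
  rw [h1]
  change _ = aeval xb (map (algebraMap k K) F)
  rw [aeval_map_algebraMap]

variable {s : α → MvPolynomial ι k} {e : ℕ} (hs : ∀ a, (s a).IsHomogeneous e)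

include hs in
/-- **The certificate.** -/
theorem exists_cert {I : Ideal (MvPolynomial ι k)} (hIp : I.IsPrime) (hI : HomI I) {c : ℕ}
    (hc : Fintype.card ι ≤ c + tdeg I) {κ : Type*} [Fintype κ] {lf : κ → MvPolynomial ι k}
    (hlf : ∀ i, (lf i).IsHomogeneous 1) (hκ : Fintype.card κ + 2 ≤ tdeg I) {p : α → k}
    (htrans : ∀ x ∈ zs I, x ≠ 0 → (∀ i, eval x (lf i) = 0) → eval x (mem' s p) = 0 →
      Module.finrank k (conormal I x) = c ∧ grad (mem' s p) x ∉ conormal I x)
    {K : Type*} [Field K] [Algebra k K] {δ : ℕ} (hδ : Algebra.trdeg k K = δ) (η : α → K)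
    (hη : ∀ P : MvPolynomial α k, aeval η P = 0 → eval p P = 0) {β : Type*} [Fintype β]
    (ζ : β → K) (hβ : δ ≤ Fintype.card β + 1) :
    ∃ (d : ℕ) (H : MvPolynomial β (MvPolynomial ι k)), (∀ m, (coeff m H).IsHomogeneous d) ∧
      (∃ m, coeff m H ∉ I) ∧ theta ζ H ∈ cc I s η := by
  classical
  by_contra hcon
  push Not at hcon
  have hcc := homI_cc hs I η
  -- the non-homogeneous version
  have hcon' : ∀ H : MvPolynomial β (MvPolynomial ι k), theta ζ H ∈ cc I s η →
      map (Ideal.Quotient.mk I) H = 0 := by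
    intro H hH
    ext m
    rw [coeff_map, coeff_zero, Ideal.Quotient.eq_zero_iff_mem,
      ← sum_homogeneousComponent (coeff m H)]
    refine Ideal.sum_mem _ fun d _ => ?_
    by_contra hne
    refine hcon d (homX d H) (fun m => ?_) ⟨m, ?_⟩ ?_
    · rw [coeff_homX]; exact homogeneousComponent_isHomogeneous _ _
    · rwa [coeff_homX]
    · rw [theta_homX]
      exact hcc _ hH d
  have hdomI : IsDomain (MvPolynomial ι k ⧸ I) := Ideal.Quotient.isDomain I
  set 𝔫 : Ideal (MvPolynomial β (MvPolynomial ι k)) :=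
    RingHom.ker (map (Ideal.Quotient.mk I)) with hn
  have h𝔫 : 𝔫.IsPrime := RingHom.ker_isPrime _
  set N : Submonoid (MvPolynomial ι K) := 𝔫.primeCompl.map (theta ζ) with hN
  have hdisj : Disjoint (cc I s η : Set (MvPolynomial ι K)) N := by
    rw [Set.disjoint_left]
    rintro G hG ⟨H, hH, rfl⟩
    exact hH (hcon' H hG)
  obtain ⟨P, hP, hccP, hPN⟩ := Ideal.exists_le_prime_disjoint _ _ hdisj
  have hmem : ∀ H : MvPolynomial β (MvPolynomial ι k), theta ζ H ∈ P →
      map (Ideal.Quotient.mk I) H = 0 := by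
    intro H hH
    by_contra hne
    exact Set.disjoint_left.1 hPN hH ⟨H, hne, rfl⟩
  have hmemI : ∀ F : MvPolynomial ι k, map (algebraMap k K) F ∈ P → F ∈ I := by
    intro F hF
    have h1 := hmem (C F) (by rwa [theta_C])
    rw [map_C] at h1
    have h2 := (C_injective β _) (h1.trans (C_0).symm)
    exact Ideal.Quotient.eq_zero_iff_mem.1 h2
  let E := FractionRing (MvPolynomial ι K ⧸ P)
  let Ψ : MvPolynomial ι K →+* E := (algebraMap (MvPolynomial ι K ⧸ P) E).comp (Ideal.Quotient.mk P)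
  have hΨ : ∀ G, Ψ G = 0 ↔ G ∈ P := by
    intro G
    rw [← Ideal.Quotient.eq_zero_iff_mem]
    change algebraMap (MvPolynomial ι K ⧸ P) E (Ideal.Quotient.mk P G) = 0 ↔ _
    exact map_eq_zero_iff _ (IsFractionRing.injective _ _)
  set xb : ι → E := fun i => Ψ (X i) with hxb
  have hΨC : ∀ a : K, Ψ (C a) = algebraMap K E a := fun a => rfl
  have haeval : ∀ F : MvPolynomial ι k, aeval xb F = Ψ (map (algebraMap k K) F) := fun F =>
    frac_setup F
  have hxI : ∀ F ∈ I, aeval xb F = 0 := by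
    intro F hF
    rw [haeval, hΨ]
    exact hccP (map_mem_cc s hI η hF)
  have hker : ∀ F : MvPolynomial ι k, aeval xb F = 0 → F ∈ I := by
    intro F hF
    rw [haeval, hΨ] at hF
    exact hmemI F hF
  have hlin : ∀ θ : α → K, linS s θ ∈ P → ∑ i, algebraMap K E (θ i) * aeval xb (s i) = 0 := by
    intro θ hθ
    rw [← hΨ] at hθ
    rw [← hθ]
    unfold linS
    rw [map_sum]
    refine Finset.sum_congr rfl fun i _ => ?_
    rw [map_mul, hΨC, haeval]
  have h1 := hlin η (hccP (Ideal.subset_span (Or.inr (Or.inl rfl))))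
  have h2 : ∀ D : Derivation k K K, ∑ i, algebraMap K E (D (η i)) * aeval xb (s i) = 0 := fun D =>
    hlin (fun i => D (η i)) (hccP (Ideal.subset_span (Or.inr (Or.inr ⟨D, rfl⟩))))
  have hspan := mem_span_gradients (k := k) s xb η h1 h2
  -- the tangency polynomials belong to `P`
  have hdetP : ∀ (F : Fin c → MvPolynomial ι k) (σ : Fin (c + 1) → ι), (∀ a, F a ∈ I) →
      detK s η F σ ∈ P := by
    intro F σ hF
    rw [← hΨ, map_detK s η F σ Ψ (fun a => hΨC _) (fun F => (haeval F).symm)]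
    exact det_eq_zero_of_mem_span' (fun F hF σ => minors_mem_dim hIp hc hF σ) xb hxI hker hspan hF σ
  -- dimension count
  obtain ⟨zI, hzI⟩ := exists_aim hIp
  have hind := indep_of_disjoint (ζ := ζ) (P := P) hIp hmem hzI
  have htd : tdeg I - 1 ≤ tdeg P := by
    apply le_tdeg_of_indep (k := k) hP hδ _ hind
    rw [Fintype.card_sum, Fintype.card_fin]
    omega
  -- the homogeneous core
  obtain ⟨P₁, hP₁, hP₁h, hP₁le, hP₁mem⟩ := exists_hom_core hP
  have hccP₁ : cc I s η ≤ P₁ := by
    intro G hG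
    rw [← sum_homogeneousComponent G]
    refine Ideal.sum_mem _ fun d _ => ?_
    exact hP₁mem _ d (homogeneousComponent_isHomogeneous _ _) (hccP (hcc G hG d))
  have hdetP₁ : ∀ (F : Fin c → MvPolynomial ι k) (σ : Fin (c + 1) → ι),
      (∀ a, F a ∈ I ∧ ∃ d, (F a).IsHomogeneous d) → detK s η F σ ∈ P₁ := by
    intro F σ hF
    choose d hd using fun a => (hF a).2
    exact hP₁mem _ _ (isHomogeneous_detK hs η hd σ) (hdetP F σ fun a => (hF a).1)
  have htd₁ := tdeg_anti hP hP₁ hP₁le
  -- the linear section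
  obtain ⟨P₂, hP₂, hP₂h, hP₂le, hP₂l, htd₂⟩ := exists_linear_section hP₁ hP₁h
    (Finset.univ.image fun i => map (algebraMap k K) (lf i)) (by
      intro G hG
      rw [Finset.mem_image] at hG
      obtain ⟨i, _, rfl⟩ := hG
      exact (hlf i).map _)
  have hcardle : (Finset.univ.image fun i => map (algebraMap k K) (lf i)).card ≤
      Fintype.card κ := Finset.card_image_le
  obtain ⟨i₀, hi₀⟩ := exists_X_notMem_of_tdeg hP₂ (by omega)
  let E₂ := FractionRing (MvPolynomial ι K ⧸ P₂)
  let Ψ₂ : MvPolynomial ι K →+* E₂ :=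
    (algebraMap (MvPolynomial ι K ⧸ P₂) E₂).comp (Ideal.Quotient.mk P₂)
  have hΨ₂ : ∀ G, Ψ₂ G = 0 ↔ G ∈ P₂ := by
    intro G
    rw [← Ideal.Quotient.eq_zero_iff_mem]
    change algebraMap (MvPolynomial ι K ⧸ P₂) E₂ (Ideal.Quotient.mk P₂ G) = 0 ↔ _
    exact map_eq_zero_iff _ (IsFractionRing.injective _ _)
  set xb₂ : ι → E₂ := fun i => Ψ₂ (X i) with hxb₂
  have hΨ₂C : ∀ a : K, Ψ₂ (C a) = algebraMap K E₂ a := fun a => rfl
  have haeval₂ : ∀ F : MvPolynomial ι k, aeval xb₂ F = Ψ₂ (map (algebraMap k K) F) := fun F =>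
    frac_setup F
  refine specialization' (E := E₂) (η := fun a => algebraMap K E₂ (η a)) (xb := xb₂) hI hlf hs
    htrans ?_ ?_ ?_ ?_ ?_ ?_
  · intro F hF
    rw [haeval₂, hΨ₂]
    exact hP₂le (hccP₁ (map_mem_cc s hI η hF))
  · intro h0
    apply hi₀
    rw [← hΨ₂]
    exact congrFun h0 i₀
  · intro Q hQ h0
    apply hQ
    have h3 : aeval (fun i => algebraMap K E₂ (η i)) Q = algebraMap K E₂ (aeval η Q) :=
      aeval_algebraMap_apply E₂ η Q
    rw [h3, map_eq_zero] at h0
    exact hη Q h0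
  · have h3 : Ψ₂ (linS s η) = 0 := by
      rw [hΨ₂]
      exact hP₂le (hccP₁ (Ideal.subset_span (Or.inr (Or.inl rfl))))
    rw [← h3]
    unfold linS
    rw [map_sum]
    refine Finset.sum_congr rfl fun i _ => ?_
    rw [map_mul, hΨ₂C, haeval₂]
  · intro i
    rw [haeval₂, hΨ₂]
    exact hP₂l _ (Finset.mem_image_of_mem _ (Finset.mem_univ i))
  · intro F σ hF
    rw [← map_detK s η F σ Ψ₂ (fun a => hΨ₂C _) (fun F => (haeval₂ F).symm), hΨ₂]
    exact hP₂le (hdetP₁ F σ hF)

end

end Pool.Agent.Helper11
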