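import Pool.Agent.Helper11.LinesMult

set_option linter.unusedSectionVars false

namespace Pool.Agent.Helper11

open MvPolynomial Cardinal

section alg

variable {k : Type*} [Field k]

theorem exists_dvd_aeval_prime {G : MvPolynomial (Fin 3) k} (hG : Prime G)
    (y : Fin 3 → MvPolynomial (Fin 3) k) :
    ∃ Z : MvPolynomial (Fin 3) k, Z ≠ 0 ∧ G ∣ aeval y Z := by
  by_contra hcon
  push Not at hcon
  set I : Ideal (MvPolynomial (Fin 3) k) := Ideal.span {G} with hI
  haveI hprime : I.IsPrime := (Ideal.span_singleton_prime hG.ne_zero).2 hG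
  set π : MvPolynomial (Fin 3) k →ₐ[k] (MvPolynomial (Fin 3) k ⧸ I) := Ideal.Quotient.mkₐ k I
    with hπ
  have hπ0 : ∀ P, π P = 0 ↔ G ∣ P := by
    intro P
    rw [hπ, Ideal.Quotient.mkₐ_eq_mk, Ideal.Quotient.eq_zero_iff_mem, hI,
      Ideal.mem_span_singleton]
  have hy : AlgebraicIndependent k (fun i => π (y i)) := by
    rw [algebraicIndependent_iff]
    intro Z hZ
    by_contra hZ0
    apply hcon Z hZ0
    rw [← hπ0, ← hZ]
    have := comp_aeval y π
    exact congrArg (fun φ => φ Z) this
  have hle := hy.lift_cardinalMk_le_trdeg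
  haveI : Algebra.IsAlgebraic (Algebra.adjoin k (Set.range fun i => π (X i)))
      (MvPolynomial (Fin 3) k ⧸ I) := by
    have htop : Algebra.adjoin k (Set.range fun i => π (X i)) = ⊤ := by
      have h1 : (Set.range fun i => π (X i)) = π '' (Set.range X) := by
        rw [← Set.range_comp]; rfl
      rw [h1, ← AlgHom.map_adjoin, adjoin_range_X, Algebra.map_top, AlgHom.range_eq_top]
      exact Ideal.Quotient.mkₐ_surjective k I
    refine ⟨fun a => ?_⟩
    have ha : a ∈ Algebra.adjoin k (Set.range fun i => π (X i)) := by rw [htop]; trivial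
    exact isAlgebraic_algebraMap (⟨a, ha⟩ : Algebra.adjoin k (Set.range fun i => π (X i)))
  have hx := Algebra.IsAlgebraic.isTranscendenceBasis_of_lift_le_trdeg_of_finite k
    (fun i : Fin 3 => π (X i)) hle
  have h1 := (algebraicIndependent_iff.1 hx.1) G (by
    have h2 := comp_aeval (X : Fin 3 → MvPolynomial (Fin 3) k) π
    have h3 : aeval (fun i => π (X i)) G = π (aeval X G) := (congrArg (fun φ => φ G) h2).symm
    rw [h3, aeval_X_left_apply, hπ0])
  exact hG.ne_zero h1

theorem exists_dvd_aeval {G : MvPolynomial (Fin 3) k} (hG : G ≠ 0)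
    (y : Fin 3 → MvPolynomial (Fin 3) k) :
    ∃ Z : MvPolynomial (Fin 3) k, Z ≠ 0 ∧ G ∣ aeval y Z := by
  induction G using UniqueFactorizationMonoid.induction_on_prime with
  | h₁ => exact absurd rfl hG
  | h₂ x hx => exact ⟨1, one_ne_zero, hx.dvd⟩
  | h₃ a p ha hp ih =>
    obtain ⟨Z1, h1, h2⟩ := ih ha
    obtain ⟨Z2, h3, h4⟩ := exists_dvd_aeval_prime hp y
    refine ⟨Z2 * Z1, mul_ne_zero h3 h1, ?_⟩
    rw [map_mul]
    exact mul_dvd_mul h4 h2

attribute [local instance] MvPolynomial.gradedAlgebra

theorem dvd_homogeneousComponent {G P : MvPolynomial (Fin 3) k} {e : ℕ} (hG : G.IsHomogeneous e)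
    (h : G ∣ P) (n : ℕ) : G ∣ homogeneousComponent n P := by
  rw [← Ideal.mem_span_singleton] at h ⊢
  refine homogeneousComponent_mem_of_mem ?_ h n
  apply Ideal.homogeneous_span
  intro x hx
  rw [Set.mem_singleton_iff] at hx
  rw [hx]
  exact ⟨e, hG⟩

theorem exists_dvd_aeval_homogeneous {G : MvPolynomial (Fin 3) k} (hG : G ≠ 0) {e : ℕ}
    (hGe : G.IsHomogeneous e) {y : Fin 3 → MvPolynomial (Fin 3) k} {m : ℕ} (hm : 1 ≤ m)
    (hy : ∀ i, (y i).IsHomogeneous m) :
    ∃ Z : MvPolynomial (Fin 3) k, Z ≠ 0 ∧ (∃ N, Z.IsHomogeneous N) ∧ G ∣ aeval y Z := by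
  obtain ⟨Z, hZ, hdvd⟩ := exists_dvd_aeval hG y
  obtain ⟨N, hN⟩ : ∃ N, homogeneousComponent N Z ≠ 0 := by
    by_contra hcon
    push Not at hcon
    apply hZ
    rw [← sum_homogeneousComponent Z]
    exact Finset.sum_eq_zero fun i _ => hcon i
  refine ⟨homogeneousComponent N Z, hN, ⟨N, homogeneousComponent_isHomogeneous N Z⟩, ?_⟩
  have h1 := dvd_homogeneousComponent hGe hdvd (m * N)
  have h2 : homogeneousComponent (m * N) (aeval y Z) = aeval y (homogeneousComponent N Z) := by
    conv_lhs => rw [← sum_homogeneousComponent Z]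
    rw [map_sum, map_sum]
    have h3 : ∀ s, homogeneousComponent (m * N) (aeval y (homogeneousComponent s Z)) =
        if m * N = m * s then aeval y (homogeneousComponent s Z) else 0 := by
      intro s
      apply homogeneousComponent_of_mem
      exact (homogeneousComponent_isHomogeneous s Z).aeval _ hy
    rw [Finset.sum_congr rfl fun s _ => h3 s]
    rw [Finset.sum_eq_single N]
    · rw [if_pos rfl]
    · intro s _ hs
      rw [if_neg]
      intro h4
      exact hs (Nat.eq_of_mul_eq_mul_left (by omega) h4).symm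
    · intro h4
      rw [if_pos rfl]
      have : homogeneousComponent N Z = 0 := by
        apply homogeneousComponent_eq_zero
        rw [Finset.mem_range] at h4
        omega
      exact absurd this hN
  rwa [h2] at h1

end alg

theorem derivation_aeval {k L σ : Type*} [Fintype σ] [Field k] [Field L] [Algebra k L]
    (δ : Derivation k L L) (p : σ → L) (G : MvPolynomial σ k) :
    δ (aeval p G) = ∑ i, aeval p (pderiv i G) * δ (p i) := by
  classical
  induction G using MvPolynomial.induction_on with
  | C a => simp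
  | add P Q hP hQ =>
    rw [map_add, map_add, hP, hQ, ← Finset.sum_add_distrib]
    refine Finset.sum_congr rfl fun i _ => ?_
    rw [map_add, map_add]; ring
  | mul_X P j hP =>
    rw [map_mul, aeval_X, Derivation.leibniz, hP]
    simp only [pderiv_mul, map_add, map_mul, aeval_X, smul_eq_mul, pderiv_X, add_mul,
      Finset.sum_add_distrib, Finset.mul_sum]
    rw [add_comm]
    congr 1
    · refine Finset.sum_congr rfl fun i _ => ?_
      ring
    · rw [Finset.sum_eq_single j]
      · simp
      · intro i _ hi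
        rw [Pi.single_eq_of_ne (Ne.symm hi)]
        simp
      · intro h; exact absurd (Finset.mem_univ _) h

section field

variable {L : Type*} [Field L]

/-- two vectors orthogonal to `p` and `q` are proportional if `p × q ≠ 0` -/
theorem exists_smul_of_orth {p q f y : Fin 3 → L} (hpq : cr p q ≠ 0) (hf : f ≠ 0)
    (h1 : dot3 p f = 0) (h2 : dot3 q f = 0) (h3 : dot3 p y = 0) (h4 : dot3 q y = 0) :
    ∃ c : L, y = fun i => c * f i := by
  have key : ∀ g : Fin 3 → L, dot3 p g = 0 → dot3 q g = 0 →
      ∀ i j, cr p q i * g j = cr p q j * g i := by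
    intro g hp hq i j
    have h5 : ∀ a b c : L, a - b = c → c = 0 → a = b := fun a b c h h' => by
      rw [← sub_eq_zero, h, h']
    fin_cases i <;> fin_cases j
    · rfl
    · apply h5 _ _ (dot3 p g * q 2 - dot3 q g * p 2)
      · simp [cr, dot3]; ring
      · rw [hp, hq]; ring
    · apply h5 _ _ (-(dot3 p g * q 1 - dot3 q g * p 1))
      · simp [cr, dot3]; ring
      · rw [hp, hq]; ring
    · apply h5 _ _ (-(dot3 p g * q 2 - dot3 q g * p 2))
      · simp [cr, dot3]; ring
      · rw [hp, hq]; ring
    · rfl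
    · apply h5 _ _ (dot3 p g * q 0 - dot3 q g * p 0)
      · simp [cr, dot3]; ring
      · rw [hp, hq]; ring
    · apply h5 _ _ (dot3 p g * q 1 - dot3 q g * p 1)
      · simp [cr, dot3]; ring
      · rw [hp, hq]; ring
    · apply h5 _ _ (-(dot3 p g * q 0 - dot3 q g * p 0))
      · simp [cr, dot3]; ring
      · rw [hp, hq]; ring
    · rfl
  obtain ⟨l, hl⟩ : ∃ l, cr p q l ≠ 0 := by
    by_contra hcon
    push Not at hcon
    exact hpq (funext hcon)
  have hfl : f l ≠ 0 := by
    intro h
    apply hf
    ext j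
    have h5 := key f h1 h2 l j
    rw [h, mul_zero] at h5
    exact (mul_eq_zero.1 h5).resolve_left hl
  refine ⟨y l / f l, ?_⟩
  ext j
  have h5 := key f h1 h2 l j
  have h6 := key y h3 h4 l j
  have h7 : cr p q l * (f l * y j) = cr p q l * (y l * f j) := by
    linear_combination f l * h6 - y l * h5
  have h8 := mul_left_cancel₀ hl h7
  field_simp
  linear_combination h8

end field

end Pool.Agent.Helper11
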