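import Pool.Agent.Helper11.DerExt
import Pool.Agent.Helper11.LinesExc

/-! Derivations and conormal vectors -/

set_option linter.unusedSectionVars false

namespace Pool.Agent.Helper11

open MvPolynomial

/-- derivations with prescribed values at the coordinates of a point -/
theorem exists_derivation_point {k E ι : Type*} [Field k] [CharZero k] [Field E] [Algebra k E]
    [Fintype ι] (xb a : ι → E)
    (h : ∀ F : MvPolynomial ι k, aeval xb F = 0 → ∑ i, aeval xb (pderiv i F) * a i = 0) :
    ∃ D : Derivation k E E, ∀ i, D (xb i) = a i := by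
  classical
  set A : Subalgebra k E := (aeval xb : MvPolynomial ι k →ₐ[k] E).range with hA
  set Δ : MvPolynomial ι k → E := fun F => ∑ i, aeval xb (pderiv i F) * a i with hΔ
  have hΔadd : ∀ F G, Δ (F + G) = Δ F + Δ G := by
    intro F G
    simp only [hΔ, map_add, add_mul, Finset.sum_add_distrib]
  have hΔsub : ∀ F G, Δ (F - G) = Δ F - Δ G := by
    intro F G
    simp only [hΔ, map_sub, sub_mul, Finset.sum_sub_distrib]
  have hΔmul : ∀ F G, Δ (F * G) = aeval xb F * Δ G + aeval xb G * Δ F := by
    intro F G
    simp only [hΔ, Derivation.leibniz, smul_eq_mul, map_add, map_mul, Finset.mul_sum,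
      ← Finset.sum_add_distrib]
    exact Finset.sum_congr rfl fun i _ => by ring
  have hΔC : ∀ c : k, Δ (C c) = 0 := by
    intro c
    simp [hΔ]
  have hΔX : ∀ i, Δ (X i) = a i := by
    intro i
    simp only [hΔ, pderiv_X]
    rw [Finset.sum_eq_single i]
    · simp
    · intro j _ hj
      rw [Pi.single_eq_of_ne (Ne.symm hj)]
      simp
    · intro h; exact absurd (Finset.mem_univ _) h
  have hwd : ∀ F G : MvPolynomial ι k, aeval xb F = aeval xb G → Δ F = Δ G := by
    intro F G hFG
    have h1 := h (F - G) (by rw [map_sub, hFG, sub_self])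
    have h2 := hΔsub F G
    rw [show Δ (F - G) = 0 from h1] at h2
    exact (sub_eq_zero.1 h2.symm)
  have hch : ∀ y : A, ∃ F : MvPolynomial ι k, aeval xb F = (y : E) := fun y => y.2
  choose P hP using hch
  let dl : A →ₗ[k] E :=
    { toFun := fun y => Δ (P y)
      map_add' := by
        intro y z
        rw [← hΔadd]
        apply hwd
        rw [map_add, hP, hP, hP]
        rfl
      map_smul' := by
        intro c y
        have h1 : Δ (P (c • y)) = Δ (C c * P y) := by
          apply hwd
          rw [map_mul, hP, hP, aeval_C, Algebra.smul_def]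
          rfl
        rw [h1, hΔmul, hΔC, mul_zero, add_zero, aeval_C, RingHom.id_apply, Algebra.smul_def] }
  let d : Derivation k A E := Derivation.mk' dl fun y z => by
    change Δ (P (y * z)) = y • Δ (P z) + z • Δ (P y)
    have h1 : Δ (P (y * z)) = Δ (P y * P z) := by
      apply hwd
      rw [map_mul, hP, hP, hP]
      rfl
    rw [h1, hΔmul, hP, hP]
    rfl
  have hchar : CharZero A := charZero_of_injective_algebraMap (algebraMap k A).injective
  have hfaith : FaithfulSMul A E := inferInstance
  obtain ⟨D, hD⟩ := exists_derivation_extend d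
  refine ⟨D, fun i => ?_⟩
  have h1 := hD ⟨xb i, X i, by simp⟩
  have h2 : d ⟨xb i, X i, by simp⟩ = Δ (X i) := by
    apply hwd
    rw [hP, aeval_X]
  rw [h2, hΔX] at h1
  exact h1

/-- derivations with values in an extension field are combinations of derivations -/
theorem derivation_base {k K E ι : Type*} [Field k] [Field K] [Field E] [Algebra k K]
    [Algebra k E] [Algebra K E] [IsScalarTower k K E] [Fintype ι] (y : ι → K) (z : ι → E)
    (h : ∀ D : Derivation k K K, ∑ i, algebraMap K E (D (y i)) * z i = 0)
    (d : Derivation k K E) : ∑ i, d (y i) * z i = 0 := by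
  classical
  let b := Module.Basis.ofVectorSpace K (Ω[K⁄k])
  have hd : ∀ x, d x = d.liftKaehlerDifferential (KaehlerDifferential.D k K x) := by
    intro x
    rw [Derivation.liftKaehlerDifferential_comp_D]
  set s := Finset.univ.biUnion fun i => (b.repr (KaehlerDifferential.D k K (y i))).support with hs
  have h1 : ∀ i, d (y i) = ∑ l ∈ s, algebraMap K E (b.repr (KaehlerDifferential.D k K (y i)) l) *
      d.liftKaehlerDifferential (b l) := by
    intro i
    rw [hd]
    conv_lhs => rw [← b.linearCombination_repr (KaehlerDifferential.D k K (y i))]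
    rw [Finsupp.linearCombination_apply, Finsupp.sum_of_support_subset (s := s), map_sum]
    · refine Finset.sum_congr rfl fun l _ => ?_
      rw [map_smul, Algebra.smul_def]
    · intro l hl
      rw [hs, Finset.mem_biUnion]
      exact ⟨i, Finset.mem_univ _, hl⟩
    · intro l _
      rw [zero_smul]
  have h2 : ∑ i, d (y i) * z i = ∑ l ∈ s, d.liftKaehlerDifferential (b l) *
      ∑ i, algebraMap K E (b.repr (KaehlerDifferential.D k K (y i)) l) * z i := by
    simp only [h1, Finset.sum_mul, Finset.mul_sum]
    rw [Finset.sum_comm]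
    refine Finset.sum_congr rfl fun l _ => Finset.sum_congr rfl fun i _ => ?_
    ring
  rw [h2]
  refine Finset.sum_eq_zero fun l _ => ?_
  let D : Derivation k K K := (b.coord l).compDer (KaehlerDifferential.D k K)
  have h3 := h D
  have h4 : ∀ i, D (y i) = b.repr (KaehlerDifferential.D k K (y i)) l := fun i => rfl
  simp only [h4] at h3
  rw [h3, mul_zero]

/-- the gradient of a form which is tangent at a generic point is a combination of gradients -/
theorem mem_span_gradients {k K E ι α : Type*} [Field k] [CharZero k] [Field K] [Field E]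
    [Algebra k K] [Algebra k E] [Algebra K E] [IsScalarTower k K E] [Fintype ι] [Fintype α]
    (s : α → MvPolynomial ι k) (xb : ι → E) (η : α → K)
    (h1 : ∑ a, algebraMap K E (η a) * aeval xb (s a) = 0)
    (h2 : ∀ D : Derivation k K K, ∑ a, algebraMap K E (D (η a)) * aeval xb (s a) = 0) :
    (fun i => ∑ a, algebraMap K E (η a) * aeval xb (pderiv i (s a))) ∈ Submodule.span E
      {v : ι → E | ∃ F : MvPolynomial ι k, aeval xb F = 0 ∧ v = fun i => aeval xb (pderiv i F)} := by
  classical
  by_contra hcon
  obtain ⟨φ, hφ, hφ2⟩ := Submodule.exists_le_ker_of_notMem hcon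
  set b : ι → E := fun i => φ (Pi.single i 1) with hb
  have hφb : ∀ v : ι → E, φ v = ∑ i, v i * b i := by
    intro v
    have : v = ∑ i, v i • (Pi.single i 1 : ι → E) := by
      ext j
      simp [Finset.sum_apply, Pi.single_apply]
    conv_lhs => rw [this]
    rw [map_sum]
    refine Finset.sum_congr rfl fun i _ => ?_
    rw [map_smul, smul_eq_mul]
  obtain ⟨D, hD⟩ := exists_derivation_point (k := k) xb b (by
    intro F hF
    have h3 := hφ2 (Submodule.subset_span ⟨F, hF, rfl⟩)
    rw [LinearMap.mem_ker, hφb] at h3
    exact h3)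
  apply hφ
  rw [hφb]
  have h3 : D (∑ a, algebraMap K E (η a) * aeval xb (s a)) = 0 := by rw [h1, map_zero]
  rw [map_sum] at h3
  have h4 : ∀ a, D (algebraMap K E (η a) * aeval xb (s a)) =
      (∑ i, algebraMap K E (η a) * aeval xb (pderiv i (s a)) * b i) +
        D (algebraMap K E (η a)) * aeval xb (s a) := by
    intro a
    rw [D.leibniz, derivation_aeval, smul_eq_mul, smul_eq_mul, mul_comm (aeval xb (s a)),
      Finset.mul_sum]
    congr 1
    refine Finset.sum_congr rfl fun i _ => ?_
    rw [hD]; ring
  rw [Finset.sum_congr rfl fun a _ => h4 a, Finset.sum_add_distrib] at h3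
  have h5 := derivation_base η (fun a => aeval xb (s a)) h2 (D.compAlgebraMap K)
  have h6 : ∀ a, (D.compAlgebraMap K) (η a) = D (algebraMap K E (η a)) := fun a => rfl
  simp only [h6] at h5
  rw [h5, add_zero, Finset.sum_comm] at h3
  rw [← h3]
  refine Finset.sum_congr rfl fun i _ => ?_
  rw [Finset.sum_mul]

end Pool.Agent.Helper11
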