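import Pool.Agent.Helper11.HilbPrime
import Pool.Agent.Helper11.FunFieldBasic

/-! Transcendence degrees: two counting lemmas -/

set_option linter.unusedSectionVars false

namespace Pool.Agent.Helper11

open MvPolynomial

universe u v w

/-- among `n` elements independent over `k`, all but one remain independent over a function field
of one variable -/
theorem exists_indep_omit {k : Type u} {L : Type v} {E : Type w} [Field k] [Field L] [Field E]
    [Algebra k L] [Algebra k E] [Algebra L E] [IsScalarTower k L E]
    (hL : Algebra.trdeg k L = 1) {n : ℕ} (hn : 1 ≤ n) {z : Fin n → E}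
    (hz : AlgebraicIndependent k z) :
    ∃ i : Fin n, AlgebraicIndependent L (fun j : {j : Fin n // j ≠ i} => z j) := by
  classical
  let A : Subalgebra L E := Algebra.adjoin L (Set.range z)
  let zA : Fin n → A := fun i => ⟨z i, Algebra.subset_adjoin ⟨i, rfl⟩⟩
  have hadj : Algebra.adjoin L (Set.range zA) = ⊤ := by
    have h1 := Algebra.adjoin_adjoin_coe_preimage (R := L) (s := Set.range z)
    have h2 : ((↑) : Algebra.adjoin L (Set.range z) → E) ⁻¹' Set.range z = Set.range zA := by
      ext x
      constructor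
      · rintro ⟨i, hi⟩
        exact ⟨i, Subtype.ext hi⟩
      · rintro ⟨i, rfl⟩
        exact ⟨i, rfl⟩
    rw [h2] at h1
    exact h1
  have halg : Algebra.IsAlgebraic (Algebra.adjoin L (Set.range zA)) A := by
    rw [hadj]
    refine ⟨fun y => ?_⟩
    exact isAlgebraic_algebraMap (⟨y, Algebra.mem_top⟩ : (⊤ : Subalgebra L A))
  obtain ⟨t, hts, ht⟩ := exists_isTranscendenceBasis_subset (R := L) (Set.range zA)
  have hzA : AlgebraicIndependent k zA := by
    have h1 : (fun i => (IsScalarTower.toAlgHom k A E) (zA i)) = z := rfl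
    exact AlgebraicIndependent.of_comp (IsScalarTower.toAlgHom k A E) (by
      have : (⇑(IsScalarTower.toAlgHom k A E) ∘ zA) = z := rfl
      rw [this]
      exact hz)
  have h1 := hzA.lift_cardinalMk_le_trdeg
  rw [Cardinal.mk_fin, Cardinal.lift_natCast] at h1
  have h2 := lift_trdeg_add_eq k L A
  have h3 := ht.cardinalMk_eq_trdeg
  have htfin : t.Finite := (Set.finite_range zA).subset hts
  have hcard : n ≤ 1 + htfin.toFinset.card := by
    rw [← h3, hL] at h2
    have h4 : Cardinal.mk t = (htfin.toFinset.card : Cardinal) := by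
      rw [← Cardinal.mk_coe_finset]
      apply Cardinal.mk_congr
      exact Equiv.setCongr (by simp)
    rw [h4, Cardinal.lift_one, Cardinal.lift_natCast] at h2
    have h5 : ((n : ℕ) : Cardinal) ≤ Cardinal.lift.{v} (Algebra.trdeg k A) := by
      have h6 := Cardinal.lift_le.{v}.2 h1
      rw [Cardinal.lift_natCast] at h6
      simpa using h6
    rw [← h2] at h5
    exact_mod_cast h5
  -- the indices of the basis
  have hch : ∀ x : t, ∃ i : Fin n, zA i = x := fun x => hts x.2
  choose c hc using hch
  set T : Finset (Fin n) := Finset.univ.filter fun i => zA i ∈ t with hT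
  have hT2 : htfin.toFinset.card ≤ T.card := by
    refine Finset.card_le_card_of_injOn (fun x => if h : x ∈ t then c ⟨x, h⟩ else ⟨0, hn⟩) ?_ ?_
    · intro x hx
      have hx' : x ∈ t := by simpa using hx
      simp only [hx', dif_pos, hT, Finset.coe_filter, Finset.mem_univ, true_and,
        Set.mem_ofPred_eq]
      rw [hc]
      exact hx'
    · intro x hx y hy hxy
      have hx' : x ∈ t := by simpa using hx
      have hy' : y ∈ t := by simpa using hy
      simp only [hx', hy', dif_pos] at hxy
      have h6 := hc ⟨x, hx'⟩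
      have h7 := hc ⟨y, hy'⟩
      rw [hxy, h7] at h6
      exact h6.symm
  have hcompl : Tᶜ.card ≤ 1 := by
    rw [Finset.card_compl, Fintype.card_fin]
    omega
  obtain ⟨i, hi⟩ : ∃ i : Fin n, ∀ j, j ≠ i → j ∈ T := by
    rcases Finset.eq_empty_or_nonempty Tᶜ with h | ⟨i, hi⟩
    · refine ⟨⟨0, hn⟩, fun j _ => ?_⟩
      by_contra hj
      have : j ∈ Tᶜ := Finset.mem_compl.2 hj
      rw [h] at this
      simp at this
    · refine ⟨i, fun j hj => ?_⟩
      by_contra hj'
      exact hj (Finset.card_le_one.1 hcompl j (Finset.mem_compl.2 hj') i hi)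
  refine ⟨i, ?_⟩
  have hmem : ∀ j : {j : Fin n // j ≠ i}, zA j ∈ t := by
    intro j
    have := hi j j.2
    rw [hT, Finset.mem_filter] at this
    exact this.2
  let g : {j : Fin n // j ≠ i} → t := fun j => ⟨zA j, hmem j⟩
  have hginj : Function.Injective g := by
    intro a b hab
    have h6 : zA a = zA b := congrArg (fun x : t => (x : A)) hab
    have h7 : z a = z b := congrArg (fun x : A => (x : E)) h6
    exact Subtype.ext (hz.injective h7)
  have h6 := ht.1.comp g hginj
  have h7 := h6.map' (f := A.val) Subtype.val_injective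
  exact h7

/-- counting: lower bound for the transcendence degree over a larger field -/
theorem le_tdeg_of_indep {k K ι : Type*} [Field k] [Field K] [Algebra k K] [Fintype ι]
    {P : Ideal (MvPolynomial ι K)} (hP : P.IsPrime) {δ n : ℕ} (hK : Algebra.trdeg k K = δ)
    {β : Type*} [Fintype β] (hβ : n + δ ≤ Fintype.card β) {y : β → MvPolynomial ι K ⧸ P}
    (hy : AlgebraicIndependent k y) : n ≤ tdeg P := by
  have hdom : IsDomain (MvPolynomial ι K ⧸ P) := Ideal.Quotient.isDomain P
  have hst : IsScalarTower k K (MvPolynomial ι K ⧸ P) := inferInstance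
  have h1 := hy.lift_cardinalMk_le_trdeg
  rw [Cardinal.mk_fintype, Cardinal.lift_natCast] at h1
  have h2 := lift_trdeg_add_eq k K (MvPolynomial ι K ⧸ P)
  rw [hK, trdeg_eq_tdeg P, Cardinal.lift_natCast, Cardinal.lift_natCast] at h2
  have h3 : Algebra.trdeg k (MvPolynomial ι K ⧸ P) < Cardinal.aleph0 := by
    rw [← Cardinal.lift_lt_aleph0, ← h2]
    exact_mod_cast Cardinal.natCast_lt_aleph0 (n := δ + tdeg P)
  obtain ⟨N, hN⟩ := Cardinal.lt_aleph0.1 h3
  rw [hN, Cardinal.lift_natCast] at h1 h2
  have h4 : δ + tdeg P = N := by exact_mod_cast h2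
  have h5 : Fintype.card β ≤ N := by exact_mod_cast h1
  omega

end Pool.Agent.Helper11
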