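import Pool.Agent.Helper11.ExcCert2

/-! Points outside the exceptional set are good -/

set_option linter.unusedSectionVars false

namespace Pool.Agent.Helper11

open MvPolynomial

section

variable {k ι α : Type*} [Field k] [Fintype ι] [Fintype α] [IsAlgClosed k] [CharZero k]

/-- evaluation at a point of the curve and the parameters -/
theorem phi_theta {K L E β : Type*} [Field K] [Algebra k K] [Field L] [Algebra k L]
    [Field E] [Algebra k E] [Algebra K E] [Algebra L E] [IsScalarTower k K E]
    [IsScalarTower k L E] (f : ι → L) (ζ : β → K) (H : MvPolynomial β (MvPolynomial ι k)) :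
    eval₂Hom (algebraMap K E) (fun i => algebraMap L E (f i)) (theta ζ H) =
      aeval (fun j => algebraMap K E (ζ j))
        (map (aeval f : MvPolynomial ι k →ₐ[k] L).toRingHom H) := by
  have h1 : (eval₂Hom (algebraMap K E) (fun i => algebraMap L E (f i))).comp (theta ζ) =
      ((aeval (fun j => algebraMap K E (ζ j)) : MvPolynomial β L →ₐ[L] E).toRingHom).comp
        (map (aeval f : MvPolynomial ι k →ₐ[k] L).toRingHom) := by
    apply MvPolynomial.ringHom_ext
    · intro F
      rw [RingHom.comp_apply, RingHom.comp_apply, theta_C, map_C]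
      change _ = aeval _ (C (aeval f F))
      rw [aeval_C]
      change eval₂ _ _ (map _ F) = _
      rw [eval₂_map, ← IsScalarTower.algebraMap_eq]
      exact (aeval_algebraMap_apply E f F)
    · intro j
      rw [RingHom.comp_apply, RingHom.comp_apply, theta_X, map_X]
      change _ = aeval _ (X j)
      rw [aeval_X]
      exact eval₂Hom_C _ _ _
  exact RingHom.congr_fun h1 H

/-- the certificate excludes the points of the curve -/
theorem cert_false {q : Ideal (MvPolynomial α k)} [q.IsPrime] {z : Fin (tdeg q) → α}
    (hz : AIM q fun a => (X (z a) : MvPolynomial α k)) (htd : 1 ≤ tdeg q)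
    {K : Type*} [Field K] [Algebra k K] {η : α → K}
    (hη : ∀ P : MvPolynomial α k, aeval η P = 0 → P ∈ q)
    {L E : Type*} [Field L] [Algebra k L] [FunField k L] [Field E] [Algebra k E] [Algebra K E]
    [Algebra L E] [IsScalarTower k K E] [IsScalarTower k L E] {I : Ideal (MvPolynomial ι k)}
    (s : α → MvPolynomial ι k) (f : ι → L)
    (hker : cc I s η ≤ RingHom.ker (eval₂Hom (algebraMap K E) fun i => algebraMap L E (f i)))
    (H : ∀ i : Fin (tdeg q), MvPolynomial {j // j ≠ i} (MvPolynomial ι k))
    (m : ∀ i : Fin (tdeg q), ({j // j ≠ i} →₀ ℕ))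
    (hH : ∀ i, theta (fun j : {j : Fin (tdeg q) // j ≠ i} => η (z j)) (H i) ∈ cc I s η)
    (hne : ∀ i, aeval f (coeff (m i) (H i)) ≠ 0) : False := by
  have hind : AlgebraicIndependent k fun a => algebraMap K E (η (z a)) := by
    rw [algebraicIndependent_iff]
    intro P hP
    have h1 : aeval (fun a => algebraMap K E (η (z a))) P =
        algebraMap K E (aeval (fun a => η (z a)) P) := aeval_algebraMap_apply E _ P
    rw [h1, map_eq_zero] at hP
    apply hz
    apply hη
    rw [← hP, ← AlgHom.comp_apply, comp_aeval]
    simp only [aeval_X]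
  obtain ⟨i, hi⟩ := exists_indep_omit (FunField.trdeg (k := k) (L := L)) htd hind
  have h1 := hker (hH i)
  rw [RingHom.mem_ker, phi_theta] at h1
  have h2 := (algebraicIndependent_iff.1 hi) _ h1
  have h3 := congrArg (coeff (m i)) h2
  rw [coeff_map, coeff_zero] at h3
  exact hne i h3

theorem good_of_cert {q : Ideal (MvPolynomial α k)} [hq : q.IsPrime]
    {I : Ideal (MvPolynomial ι k)} (s : α → MvPolynomial ι k) {z : Fin (tdeg q) → α}
    (hz : AIM q fun a => (X (z a) : MvPolynomial α k)) (htd : 1 ≤ tdeg q)
    {L : Type*} [Field L] [Algebra k L] [FunField k L] {t : L}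
    (ht : Transcendental k t) (x : ι → L) (hf : ∀ F ∈ I, aeval x F = 0)
    (H : ∀ i : Fin (tdeg q), MvPolynomial {j // j ≠ i} (MvPolynomial ι k))
    (m : ∀ i : Fin (tdeg q), ({j // j ≠ i} →₀ ℕ))
    (hH : ∀ i, theta (fun j : {j : Fin (tdeg q) // j ≠ i} => genPt q (z j)) (H i) ∈
      cc I s (genPt q))
    (hne : ∀ i, aeval x (coeff (m i) (H i)) ≠ 0) :
    Good q (fun a => aeval x (s a)) (fun a => der ht (aeval x (s a))) := by
  classical
  by_contra hnot
  set f : α → L := fun a => aeval x (s a) with hfdef
  set g : Ideal (MvPolynomial α L) := Ideal.map (map (algebraMap k L)) q ⊔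
    (Ideal.span {linP f} ⊔ Ideal.span {linP fun a => der ht (f a)}) with hg
  set N : Submonoid (MvPolynomial α L) := (q.primeCompl).map (map (algebraMap k L)) with hN
  have hdisj : Disjoint (g : Set (MvPolynomial α L)) N := by
    rw [Set.disjoint_left]
    rintro G hG ⟨w, hw, rfl⟩
    apply hnot
    rw [SetLike.mem_coe, hg, Submodule.mem_sup] at hG
    obtain ⟨y, hy, z, hz, hyz⟩ := hG
    rw [Submodule.mem_sup] at hz
    obtain ⟨a, ha, b, hb, hab⟩ := hz
    rw [Ideal.mem_span_singleton'] at ha hb
    obtain ⟨A, rfl⟩ := ha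
    obtain ⟨B, rfl⟩ := hb
    refine ⟨w, hw, A, B, fun p hp => ?_⟩
    have hy0 : evalL p y = 0 := by
      have hle : Ideal.map (map (algebraMap k L)) q ≤
          RingHom.ker (eval fun i => algebraMap k L (p i)) := by
        rw [Ideal.map_le_iff_le_comap]
        intro P hP
        change eval (fun i => algebraMap k L (p i)) (map (algebraMap k L) P) = 0
        rw [eval_map_algebraMap, hp P hP, map_zero]
      exact hle hy
    have h1 := congrArg (evalL p) hyz
    rw [← hab, evalL_add, evalL_add, hy0, zero_add, evalL_mul, evalL_mul, evalL_linP,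
      evalL_linP] at h1
    have h2 : evalL p (map (algebraMap k L) w) = algebraMap k L (eval p w) :=
      eval_map_algebraMap p w
    rw [← h2, ← h1]
  obtain ⟨P, hP, hgP, hPN⟩ := Ideal.exists_le_prime_disjoint _ _ hdisj
  have hmem : ∀ F : MvPolynomial α k, map (algebraMap k L) F ∈ P → F ∈ q := by
    intro F hF
    by_contra hFI
    exact Set.disjoint_left.1 hPN hF ⟨F, hFI, rfl⟩
  let E := FractionRing (MvPolynomial α L ⧸ P)
  let Ψ : MvPolynomial α L →+* E := (algebraMap (MvPolynomial α L ⧸ P) E).comp (Ideal.Quotient.mk P)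
  have hΨ : ∀ G, Ψ G = 0 ↔ G ∈ P := by
    intro G
    rw [← Ideal.Quotient.eq_zero_iff_mem]
    change algebraMap (MvPolynomial α L ⧸ P) E (Ideal.Quotient.mk P G) = 0 ↔ _
    exact map_eq_zero_iff _ (IsFractionRing.injective _ _)
  have hΨC : ∀ a : L, Ψ (C a) = algebraMap L E a := fun a => rfl
  -- the embedding of the fraction field of `S / q`
  let γ : (MvPolynomial α k ⧸ q) →ₐ[k] E := Ideal.Quotient.liftₐ q
    (aeval fun i => Ψ (X i)) (by
      intro a ha
      have h1 : aeval (fun i => Ψ (X i)) a = Ψ (map (algebraMap k L) a) := by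
        have h3 : (aeval (fun i => Ψ (X i)) : MvPolynomial α k →ₐ[k] E).toRingHom =
            Ψ.comp (map (algebraMap k L)) := by
          apply MvPolynomial.ringHom_ext
          · intro c
            rw [RingHom.comp_apply, map_C, hΨC, ← IsScalarTower.algebraMap_apply]
            exact aeval_C _ _
          · intro i
            rw [RingHom.comp_apply, map_X]
            exact aeval_X _ _
        exact RingHom.congr_fun h3 a
      rw [h1, hΨ]
      apply hgP
      rw [hg]
      exact Submodule.mem_sup_left (Ideal.mem_map_of_mem _ ha))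
  have hγ : ∀ P' : MvPolynomial α k, γ (Ideal.Quotient.mk q P') = Ψ (map (algebraMap k L) P') := by
    intro P'
    have h3 : (γ.toRingHom.comp (Ideal.Quotient.mk q)) = Ψ.comp (map (algebraMap k L)) := by
      apply MvPolynomial.ringHom_ext
      · intro c
        rw [RingHom.comp_apply, RingHom.comp_apply, map_C, hΨC, ← IsScalarTower.algebraMap_apply]
        exact γ.commutes c
      · intro i
        rw [RingHom.comp_apply, RingHom.comp_apply, map_X]
        change aeval (fun i => Ψ (X i)) (X i : MvPolynomial α k) = _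
        rw [aeval_X]
    exact RingHom.congr_fun h3 P'
  have hγinj : Function.Injective γ := by
    rw [injective_iff_map_eq_zero]
    intro a ha
    obtain ⟨a, rfl⟩ := Ideal.Quotient.mk_surjective a
    rw [hγ, hΨ] at ha
    rw [Ideal.Quotient.eq_zero_iff_mem]
    exact hmem _ ha
  let K := FractionRing (MvPolynomial α k ⧸ q)
  let γK : K →ₐ[k] E := IsFractionRing.liftAlgHom hγinj
  let _ : Algebra K E := γK.toRingHom.toAlgebra
  have hst : IsScalarTower k K E := by
    apply IsScalarTower.of_algebraMap_eq
    intro a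
    exact (γK.commutes a).symm
  have hη : ∀ i, algebraMap K E (genPt q i) = Ψ (X i) := by
    intro i
    have h3 : γK (genPt q i) = γ (Ideal.Quotient.mk q (X i)) :=
      IsFractionRing.lift_algebraMap (show Function.Injective γ.toRingHom from hγinj) _
    change γK (genPt q i) = _
    rw [h3, hγ, map_X]
  have hlin : ∀ θ : α → L, linP θ ∈ P →
      ∑ i, algebraMap K E (genPt q i) * algebraMap L E (θ i) = 0 := by
    intro θ hθ
    rw [← hΨ] at hθ
    rw [← hθ]
    unfold linP
    rw [map_sum]
    refine Finset.sum_congr rfl fun i _ => ?_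
    rw [map_mul, hΨC, hη, mul_comm]
  have hker := step2_ker (K := K) (E := E) (I := I) s (genPt q) ht x hf
    (hlin _ (hgP (by
      rw [hg]
      exact Submodule.mem_sup_right (Submodule.mem_sup_left (Ideal.mem_span_singleton_self _)))))
    (hlin _ (hgP (by
      rw [hg]
      exact Submodule.mem_sup_right (Submodule.mem_sup_right (Ideal.mem_span_singleton_self _)))))
  refine cert_false (K := K) (E := E) hz htd (η := genPt q) ?_ s x hker H m hH hne
  intro P' hP'
  rw [aeval_genPt] at hP'
  have h4 : Ideal.Quotient.mk q P' = 0 :=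
    (map_eq_zero_iff _ (IsFractionRing.injective _ _)).1 hP'
  exact Ideal.Quotient.eq_zero_iff_mem.1 h4

end

end Pool.Agent.Helper11
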