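import Pool.Agent.Helper11.ExcSpec
import Pool.Agent.Helper11.ExcDim

/-! Linear sections, conormal minors and specialization for generically reduced divisors -/

set_option linter.unusedSectionVars false

namespace Pool.Agent.Helper11

open MvPolynomial

section children

variable {k ι : Type*} [Field k] [Fintype ι]

attribute [local instance] MvPolynomial.gradedAlgebra

theorem exists_X_notMem_of_tdeg {q : Ideal (MvPolynomial ι k)} (hq : q.IsPrime)
    (h : 1 ≤ tdeg q) : ∃ i, (X i : MvPolynomial ι k) ∉ q := by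
  obtain ⟨s, hs⟩ := exists_aim hq
  refine ⟨s ⟨0, h⟩, fun hmem => ?_⟩
  have h1 := hs (X ⟨0, h⟩) (by rwa [aeval_X])
  exact X_ne_zero _ h1

theorem homI_le_irrelevant {q : Ideal (MvPolynomial ι k)} (hq : q.IsPrime) (hq2 : HomI q)
    {F : MvPolynomial ι k} (hF : F ∈ q) : constantCoeff F = 0 := by
  by_contra hne
  have h1 := hq2 F hF 0
  rw [homogeneousComponent_zero] at h1
  apply hq.ne_top
  rw [Ideal.eq_top_iff_one]
  have h2 := q.mul_mem_left (C (coeff 0 F)⁻¹) h1
  rw [← C_mul, inv_mul_cancel₀ (by exact hne), C_1] at h2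
  exact h2

/-- a homogeneous prime and some linear forms are contained in a homogeneous prime of the expected
dimension -/
theorem exists_linear_section {q : Ideal (MvPolynomial ι k)} (hq : q.IsPrime) (hq2 : HomI q)
    (s : Finset (MvPolynomial ι k)) (hs : ∀ G ∈ s, G.IsHomogeneous 1) :
    ∃ q' : Ideal (MvPolynomial ι k), q'.IsPrime ∧ HomI q' ∧ q ≤ q' ∧ (∀ G ∈ s, G ∈ q') ∧
      tdeg q ≤ tdeg q' + s.card := by
  classical
  induction s using Finset.induction_on with
  | empty => exact ⟨q, hq, hq2, le_rfl, by simp, by simp⟩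
  | insert G s hG ih =>
    obtain ⟨q₁, h1, h2, h3, h4, h5⟩ := ih fun F hF => hs F (Finset.mem_insert_of_mem hF)
    rw [Finset.card_insert_of_notMem hG]
    by_cases hmem : G ∈ q₁
    · refine ⟨q₁, h1, h2, h3, ?_, by omega⟩
      intro F hF
      rw [Finset.mem_insert] at hF
      rcases hF with rfl | hF
      · exact hmem
      · exact h4 F hF
    · have hle : q₁ ⊔ Ideal.span {G} ≤ RingHom.ker (constantCoeff : MvPolynomial ι k →+* k) := by
        rw [sup_le_iff]
        refine ⟨fun F hF => homI_le_irrelevant h1 h2 hF, ?_⟩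
        rw [Ideal.span_singleton_le_iff_mem, RingHom.mem_ker]
        have h6 := hs G (Finset.mem_insert_self _ _)
        rw [constantCoeff_eq]
        by_contra hne
        have := h6 hne
        simp at this
      have hker : (RingHom.ker (constantCoeff : MvPolynomial ι k →+* k)).IsPrime :=
        RingHom.ker_isPrime _
      obtain ⟨q', hq', -⟩ := Ideal.exists_minimalPrimes_le hle
      refine ⟨q', hq'.isPrime, homI_of_minimal h2 (hs G (Finset.mem_insert_self _ _)) hq',
        h3.trans (le_trans le_sup_left hq'.le), ?_, ?_⟩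
      · intro F hF
        rw [Finset.mem_insert] at hF
        rcases hF with rfl | hF
        · exact hq'.le (Ideal.mem_sup_right (Ideal.mem_span_singleton_self _))
        · exact hq'.le (Ideal.mem_sup_left (h4 F hF))
      · have := tdeg_child h1 hmem hq'
        omega

/-- the homogeneous core of a prime -/
theorem exists_hom_core {P : Ideal (MvPolynomial ι k)} (hP : P.IsPrime) :
    ∃ P' : Ideal (MvPolynomial ι k), P'.IsPrime ∧ HomI P' ∧ P' ≤ P ∧
      ∀ (G : MvPolynomial ι k) (d : ℕ), G.IsHomogeneous d → G ∈ P → G ∈ P' := by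
  refine ⟨(P.homogeneousCore (homogeneousSubmodule ι k)).toIdeal,
    Ideal.IsPrime.homogeneousCore hP, ?_, Ideal.toIdeal_homogeneousCore_le _ _, ?_⟩
  · rw [homI_iff]
    exact (P.homogeneousCore (homogeneousSubmodule ι k)).isHomogeneous
  · intro G d hG hGP
    exact Ideal.mem_homogeneousCore_of_homogeneous_of_mem ⟨d, hG⟩ hGP

theorem tdeg_anti {P P' : Ideal (MvPolynomial ι k)} (hP : P.IsPrime) (hP' : P'.IsPrime)
    (h : P' ≤ P) : tdeg P ≤ tdeg P' := by
  obtain ⟨s, hs⟩ := exists_aim hP
  exact le_tdeg hP' (aim_mono h hs)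

end children

section minors

variable {k ι : Type*} [Field k] [Fintype ι] [CharZero k]

/-- the minors of the Jacobian matrix which vanish for reasons of dimension -/
theorem minors_vanish {E : Type*} [Field E] [Algebra k E] (xb : ι → E) {n c : ℕ}
    (hnc : Fintype.card ι ≤ c + n) {z : Fin n → ι} (hz : AlgebraicIndependent k fun a => xb (z a))
    {F : Fin (c + 1) → MvPolynomial ι k} (hF : ∀ a, aeval xb (F a) = 0) (σ : Fin (c + 1) → ι) :
    (Matrix.of fun a b => aeval xb (pderiv (σ b) (F a))).det = 0 := by
  classical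
  -- the derivations
  let φ : MvPolynomial (Fin n) k →ₐ[k] E := aeval fun a => xb (z a)
  let _ : Algebra (MvPolynomial (Fin n) k) E := φ.toRingHom.toAlgebra
  have hst : IsScalarTower k (MvPolynomial (Fin n) k) E := by
    apply IsScalarTower.of_algebraMap_eq
    intro a
    exact (φ.commutes a).symm
  have hinj : Function.Injective (algebraMap (MvPolynomial (Fin n) k) E) := hz
  have hfaith : FaithfulSMul (MvPolynomial (Fin n) k) E :=
    (faithfulSMul_iff_algebraMap_injective _ _).2 hinj
  have hD : ∀ l : Fin n, ∃ D : Derivation k E E, ∀ m, D (xb (z m)) = if m = l then 1 else 0 := by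
    intro l
    obtain ⟨D, hD⟩ := exists_derivation_extend
      (mkDerivation k (fun m : Fin n => (if m = l then 1 else 0 : E)))
    refine ⟨D, fun m => ?_⟩
    have h1 := hD (X m)
    have h2 : algebraMap (MvPolynomial (Fin n) k) E (X m) = xb (z m) := aeval_X _ _
    rw [h2, mkDerivation_X] at h1
    exact h1
  choose D hD using hD
  -- the linear map
  let T : (ι → E) →ₗ[E] (Fin n → E) :=
    { toFun := fun v l => ∑ i, v i * D l (xb i)
      map_add' := by
        intro v w
        funext l
        simp [add_mul, Finset.sum_add_distrib]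
      map_smul' := by
        intro a v
        funext l
        simp [Finset.mul_sum, mul_assoc] }
  have hT : Function.Surjective T := by
    have hTz : ∀ m, T (Pi.single (z m) 1) = Pi.single m 1 := by
      intro m
      funext l
      change ∑ i, (Pi.single (z m) 1 : ι → E) i * D l (xb i) = _
      rw [Finset.sum_eq_single (z m)]
      · rw [Pi.single_eq_same, one_mul, hD, Pi.single_apply]
        simp [eq_comm]
      · intro i _ hi
        rw [Pi.single_eq_of_ne hi, zero_mul]
      · intro h; exact absurd (Finset.mem_univ _) h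
    intro w
    refine ⟨∑ m, w m • Pi.single (z m) 1, ?_⟩
    rw [map_sum]
    simp only [map_smul, hTz]
    funext l
    simp [Finset.sum_apply, Pi.single_apply]
  have hker : Module.finrank E (LinearMap.ker T) ≤ c := by
    have h1 := T.finrank_range_add_finrank_ker
    rw [LinearMap.range_eq_top.2 hT, finrank_top, Module.finrank_fintype_fun_eq_card,
      Module.finrank_fintype_fun_eq_card, Fintype.card_fin] at h1
    omega
  have hmem : ∀ a, (fun i => aeval xb (pderiv i (F a))) ∈ LinearMap.ker T := by
    intro a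
    rw [LinearMap.mem_ker]
    funext l
    change ∑ i, aeval xb (pderiv i (F a)) * D l (xb i) = 0
    rw [← derivation_aeval, hF, map_zero]
  have hlt : Module.finrank E (LinearMap.ker T) < Fintype.card (Fin (c + 1)) := by
    rw [Fintype.card_fin]; omega
  have h1 : ¬ LinearIndependent E fun a : Fin (c + 1) =>
      (⟨_, hmem a⟩ : LinearMap.ker T) := by
    intro h
    have := h.fintype_card_le_finrank
    omega
  rw [Fintype.linearIndependent_iff] at h1
  push Not at h1
  obtain ⟨g, hg, i, hi⟩ := h1
  rw [← Matrix.exists_vecMul_eq_zero_iff]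
  refine ⟨g, fun h0 => hi (congrFun h0 i), ?_⟩
  funext b
  have h2 := congrArg (Submodule.subtype _) hg
  rw [map_sum, map_zero] at h2
  have h3 := congrFun h2 (σ b)
  rw [Finset.sum_apply] at h3
  simpa [Matrix.vecMul, dotProduct] using h3

/-- the minors of the Jacobian matrix of size larger than the codimension belong to the ideal -/
theorem minors_mem_dim {I : Ideal (MvPolynomial ι k)} (hI : I.IsPrime) {c : ℕ}
    (hc : Fintype.card ι ≤ c + tdeg I)
    {F : Fin (c + 1) → MvPolynomial ι k} (hF : ∀ a, F a ∈ I) (σ : Fin (c + 1) → ι) :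
    (Matrix.of fun a b => pderiv (σ b) (F a)).det ∈ I := by
  classical
  let E := FractionRing (MvPolynomial ι k ⧸ I)
  let Ψ : MvPolynomial ι k →+* E := (algebraMap (MvPolynomial ι k ⧸ I) E).comp (Ideal.Quotient.mk I)
  have hΨ : ∀ G, Ψ G = 0 ↔ G ∈ I := by
    intro G
    rw [← Ideal.Quotient.eq_zero_iff_mem]
    change algebraMap (MvPolynomial ι k ⧸ I) E (Ideal.Quotient.mk I G) = 0 ↔ _
    exact map_eq_zero_iff _ (IsFractionRing.injective _ _)
  set xb : ι → E := fun i => Ψ (X i) with hxb
  have hae : ∀ G : MvPolynomial ι k, aeval xb G = Ψ G := by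
    intro G
    have h1 : (aeval xb : MvPolynomial ι k →ₐ[k] E).toRingHom = Ψ := by
      apply MvPolynomial.ringHom_ext
      · intro a
        exact aeval_C _ _
      · intro i
        exact aeval_X xb i
    rw [← h1]; rfl
  obtain ⟨z, hz⟩ := exists_aim hI
  have hz2 : AlgebraicIndependent k fun a => xb (z a) := by
    rw [algebraicIndependent_iff]
    intro P hP
    apply hz
    rw [← hΨ, ← hae]
    have h1 : aeval xb (aeval (fun a => (X (z a) : MvPolynomial ι k)) P) =
        aeval (fun a => xb (z a)) P := by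
      rw [← AlgHom.comp_apply, comp_aeval]
      simp only [aeval_X]
    rw [h1, hP]
  have h1 := minors_vanish xb hc hz2 (F := F) (fun a => by rw [hae, hΨ]; exact hF a) σ
  rw [← hΨ, ← hae, ← AlgHom.coe_toRingHom, RingHom.map_det]
  rw [← h1]
  rfl

/-- a combination of gradients: the augmented minors vanish -/
theorem det_eq_zero_of_mem_span' {I : Ideal (MvPolynomial ι k)} {c : ℕ}
    (hmin : ∀ (F : Fin (c + 1) → MvPolynomial ι k), (∀ a, F a ∈ I) → ∀ σ : Fin (c + 1) → ι,
      (Matrix.of fun a b => pderiv (σ b) (F a)).det ∈ I)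
    {E : Type*} [Field E] [Algebra k E] (xb : ι → E) (hxb : ∀ F ∈ I, aeval xb F = 0)
    (hker : ∀ F : MvPolynomial ι k, aeval xb F = 0 → F ∈ I)
    {v : ι → E} (hv : v ∈ Submodule.span E
      {v : ι → E | ∃ F : MvPolynomial ι k, aeval xb F = 0 ∧ v = fun i => aeval xb (pderiv i F)})
    {F : Fin c → MvPolynomial ι k} (hF : ∀ a, F a ∈ I) (σ : Fin (c + 1) → ι) :
    (consM (fun b => v (σ b)) fun i b => aeval xb (pderiv (σ b) (F i))).det = 0 := by
  induction hv using Submodule.span_induction with
  | mem v hv =>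
    obtain ⟨F₀, hF₀, rfl⟩ := hv
    have h1 := hmin (Fin.cons F₀ F) (by
      intro a
      refine Fin.cases ?_ (fun i => ?_) a
      · exact hker _ hF₀
      · exact hF i) σ
    have h2 := hxb _ h1
    rw [← AlgHom.coe_toRingHom, RingHom.map_det] at h2
    rw [← h2]
    congr 1
    ext a b
    refine Fin.cases ?_ (fun i => ?_) a
    · rfl
    · rfl
  | zero =>
    rw [det_consM]
    exact Finset.sum_eq_zero fun j _ => by simp
  | add v w _ _ h1 h2 =>
    rw [det_consM] at h1 h2 ⊢
    have h3 : ∀ j, (v + w) (σ j) * ((-1) ^ (j : ℕ) * (Matrix.of fun (a b : Fin c) =>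
        aeval xb (pderiv (σ (j.succAbove b)) (F a))).det) =
        v (σ j) * ((-1) ^ (j : ℕ) * (Matrix.of fun (a b : Fin c) =>
        aeval xb (pderiv (σ (j.succAbove b)) (F a))).det) +
        w (σ j) * ((-1) ^ (j : ℕ) * (Matrix.of fun (a b : Fin c) =>
        aeval xb (pderiv (σ (j.succAbove b)) (F a))).det) := by
      intro j
      rw [Pi.add_apply, add_mul]
    rw [Finset.sum_congr rfl fun j _ => h3 j, Finset.sum_add_distrib, h1, h2, add_zero]
  | smul e v _ h1 =>
    rw [det_consM] at h1 ⊢
    have h3 : ∀ j, (e • v) (σ j) * ((-1) ^ (j : ℕ) * (Matrix.of fun (a b : Fin c) =>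
        aeval xb (pderiv (σ (j.succAbove b)) (F a))).det) =
        e * (v (σ j) * ((-1) ^ (j : ℕ) * (Matrix.of fun (a b : Fin c) =>
        aeval xb (pderiv (σ (j.succAbove b)) (F a))).det)) := by
      intro j
      rw [Pi.smul_apply, smul_eq_mul, mul_assoc]
    rw [Finset.sum_congr rfl fun j _ => h3 j, ← Finset.mul_sum, h1, mul_zero]

end minors

end Pool.Agent.Helper11
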