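import Pool.Agent.Helper11.HilbDefs

/-! Numerical lemmas on Hilbert functions -/

set_option linter.unusedSectionVars false

namespace Pool.Agent.Helper11

open MvPolynomial

theorem mc_mono_succ {s : ℕ} (hs : 1 ≤ s) (x : ℕ) : s.multichoose x ≤ s.multichoose (x + 1) := by
  obtain ⟨s, rfl⟩ : ∃ s', s = s' + 1 := ⟨s - 1, by omega⟩
  rw [Nat.multichoose_succ_succ]; omega

theorem mc_mono {s : ℕ} (hs : 1 ≤ s) {x y : ℕ} (h : x ≤ y) : s.multichoose x ≤ s.multichoose y :=
  monotone_nat_of_le_succ (mc_mono_succ hs) h

theorem mc_pos {s : ℕ} (hs : 1 ≤ s) (x : ℕ) : 1 ≤ s.multichoose x := by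
  have := mc_mono hs (Nat.zero_le x)
  rwa [Nat.multichoose_zero_right] at this

theorem mc_diff {s : ℕ} (hs : 1 ≤ s) (x d : ℕ) :
    (s + 1).multichoose (x + d) ≤ (s + 1).multichoose x + d * s.multichoose (x + d) := by
  induction d with
  | zero => simp
  | succ d ih =>
    have h1 : (s + 1).multichoose (x + (d + 1)) =
        s.multichoose (x + d + 1) + (s + 1).multichoose (x + d) :=
      Nat.multichoose_succ_succ _ _
    have h2 := mc_mono_succ hs (x + d)
    have h3 : d * s.multichoose (x + d) ≤ d * s.multichoose (x + d + 1) :=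
      Nat.mul_le_mul_left _ h2
    have h4 : (d + 1) * s.multichoose (x + (d + 1)) =
        d * s.multichoose (x + d + 1) + s.multichoose (x + d + 1) := by
      rw [← add_assoc]; ring
    omega

/-- summation along an arithmetic progression -/
theorem ap_sum {f : ℕ → ℕ} {s d c : ℕ} {μ : ℝ} (hμ : 0 ≤ μ) (hs : 1 ≤ s) (hd : 1 ≤ d)
    (hcd : d ≤ c) (h : ∀ J, c ≤ J → (f (J - d) : ℝ) + μ * s.multichoose (J - c) ≤ f J) :
    ∀ J, c ≤ J → μ * (s + 1).multichoose (J - c) ≤ d * f J := by
  intro J
  induction J using Nat.strong_induction_on with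
  | _ J ih =>
  intro hJ
  have h1 := h J hJ
  by_cases hJ2 : c + d ≤ J
  · have h2 := ih (J - d) (by omega) (by omega)
    have h3 := mc_diff hs (J - d - c) d
    have h4 : J - d - c + d = J - c := by omega
    rw [h4] at h3
    have h5 : ((s + 1).multichoose (J - c) : ℝ) ≤
        (s + 1).multichoose (J - d - c) + d * s.multichoose (J - c) := by exact_mod_cast h3
    have h6 : (d : ℝ) * ((f (J - d) : ℝ) + μ * s.multichoose (J - c)) ≤ d * f J :=
      mul_le_mul_of_nonneg_left h1 (Nat.cast_nonneg _)
    have h7 : μ * (s + 1).multichoose (J - c) ≤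
        μ * ((s + 1).multichoose (J - d - c) + d * s.multichoose (J - c)) :=
      mul_le_mul_of_nonneg_left h5 hμ
    have h8 : μ * ((s + 1).multichoose (J - d - c) + d * (s.multichoose (J - c) : ℝ)) =
        μ * (s + 1).multichoose (J - d - c) + d * (μ * s.multichoose (J - c)) := by ring
    rw [mul_add] at h6
    linarith
  · push Not at hJ2
    have h3 := mc_diff hs 0 (J - c)
    rw [zero_add, Nat.multichoose_zero_right] at h3
    have h4 := mc_pos hs (J - c)
    have h5 : (s + 1).multichoose (J - c) ≤ d * s.multichoose (J - c) := by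
      have h6 : (J - c + 1) * s.multichoose (J - c) ≤ d * s.multichoose (J - c) :=
        Nat.mul_le_mul_right _ (by omega)
      have h7 : (J - c + 1) * s.multichoose (J - c) =
          (J - c) * s.multichoose (J - c) + s.multichoose (J - c) := by ring
      omega
    have h6 : ((s + 1).multichoose (J - c) : ℝ) ≤ d * s.multichoose (J - c) := by
      exact_mod_cast h5
    have h7 : (0 : ℝ) ≤ f (J - d) := Nat.cast_nonneg _
    have h8 : μ * (s.multichoose (J - c) : ℝ) ≤ f J := by linarith
    calc μ * ((s + 1).multichoose (J - c) : ℝ) ≤ μ * (d * s.multichoose (J - c)) :=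
          mul_le_mul_of_nonneg_left h6 hμ
      _ = d * (μ * s.multichoose (J - c)) := by ring
      _ ≤ d * f J := mul_le_mul_of_nonneg_left h8 (Nat.cast_nonneg _)

theorem mc_le_pow (n j : ℕ) : n.multichoose j ≤ (j + 1) ^ n := by
  induction n generalizing j with
  | zero =>
    cases j with
    | zero => simp
    | succ j => simp
  | succ n ih =>
    induction j with
    | zero => simp
    | succ j ihj =>
      rw [Nat.multichoose_succ_succ]
      have h1 := ih (j + 1)
      have h2 : (j + 1) ^ (n + 1) ≤ (j + 1) * (j + 1 + 1) ^ n := by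
        rw [pow_succ, mul_comm]
        exact Nat.mul_le_mul_left _ (Nat.pow_le_pow_left (by omega) n)
      calc n.multichoose (j + 1) + (n + 1).multichoose j ≤
            (j + 1 + 1) ^ n + (j + 1) * (j + 1 + 1) ^ n := by omega
        _ = (j + 1 + 1) ^ (n + 1) := by ring

theorem mc_two_mul (n c : ℕ) : n.multichoose (2 * c) ≤ 2 ^ n * n.multichoose c := by
  induction n generalizing c with
  | zero =>
    cases c with
    | zero => simp
    | succ c =>
      have : 2 * (c + 1) = 2 * c + 1 + 1 := by ring
      rw [this]; simp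
  | succ n ih =>
    induction c with
    | zero => simp [Nat.one_le_two_pow]
    | succ c ihc =>
      have h0 : 2 * (c + 1) = 2 * c + 1 + 1 := by ring
      have h1 : (n + 1).multichoose (2 * (c + 1)) =
          n.multichoose (2 * c + 1 + 1) + (n.multichoose (2 * c + 1) +
            (n + 1).multichoose (2 * c)) := by
        rw [h0, Nat.multichoose_succ_succ, Nat.multichoose_succ_succ]
      have h2 : n.multichoose (2 * c + 1) ≤ n.multichoose (2 * c + 1 + 1) := by
        cases n with
        | zero => simp
        | succ n => exact mc_mono_succ (by omega) _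
      have h3 := ih (c + 1)
      rw [h0] at h3
      rw [h1, Nat.multichoose_succ_succ, pow_succ]
      have h4 : 2 ^ n * 2 * (n.multichoose (c + 1) + (n + 1).multichoose c) =
          2 * (2 ^ n * n.multichoose (c + 1)) + 2 ^ n * 2 * (n + 1).multichoose c := by ring
      rw [h4]
      rw [pow_succ] at ihc
      omega

theorem mu_le_of_forall {n c : ℕ} (hn : 1 ≤ n) {μ : ℝ}
    (h : ∀ J, c ≤ J → μ * n.multichoose (J - c) ≤ n.multichoose J) : μ ≤ 2 ^ n := by
  have h1 := h (2 * c) (by omega)
  have h2 : 2 * c - c = c := by omega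
  rw [h2] at h1
  have h3 : (n.multichoose (2 * c) : ℝ) ≤ 2 ^ n * n.multichoose c := by
    exact_mod_cast mc_two_mul n c
  have h4 : (0 : ℝ) < n.multichoose c := by exact_mod_cast mc_pos hn c
  exact le_of_mul_le_mul_right (h1.trans h3) h4

/-- the growth of a Hilbert function is slow somewhere -/
theorem exists_slow (n : ℕ) {K : ℝ} (hK : 1 < K) : ∃ D : ℕ, ∀ H : ℕ → ℕ, 1 ≤ H 0 →
    (∀ j, H j ≤ (j + 1) ^ n) → ∃ j < D, K * ((H (j + 1) : ℝ) - H j) ≤ H (j + 1) := by
  set ρ : ℝ := K / (K - 1) with hρ
  have hK1 : 0 < K - 1 := by linarith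
  have hρ1 : 1 < ρ := by
    rw [hρ, lt_div_iff₀ hK1]; linarith
  have hlim := tendsto_pow_const_div_const_pow_of_one_lt n hρ1
  have hev := hlim.eventually (gt_mem_nhds (show (0 : ℝ) < ρ⁻¹ by positivity))
  obtain ⟨D', hD'⟩ := Filter.eventually_atTop.1 hev
  refine ⟨D', fun H h0 hH => ?_⟩
  by_contra hcon
  push Not at hcon
  have h1 : ∀ j ≤ D', ρ ^ j ≤ H j := by
    intro j
    induction j with
    | zero =>
      intro _
      rw [pow_zero]
      exact_mod_cast h0
    | succ j ih =>
      intro hj
      have h2 := ih (by omega)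
      have h3 := hcon j (by omega)
      have h4 : K * (H j : ℝ) ≤ (K - 1) * H (j + 1) := by linarith
      have h5 : ρ * (H j : ℝ) ≤ H (j + 1) := by
        rw [hρ, div_mul_eq_mul_div, div_le_iff₀ hK1]
        linarith
      calc ρ ^ (j + 1) = ρ * ρ ^ j := by ring
        _ ≤ ρ * H j := mul_le_mul_of_nonneg_left h2 (by positivity)
        _ ≤ H (j + 1) := h5
  have h2 := h1 D' le_rfl
  have h3 := hD' (D' + 1) (by omega)
  have h4 : (H D' : ℝ) ≤ ((D' + 1 : ℕ) : ℝ) ^ n := by
    have := hH D'
    exact_mod_cast this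
  have hρpos : 0 < ρ := by linarith
  rw [div_lt_iff₀ (by positivity), pow_succ] at h3
  have h5 : ρ⁻¹ * (ρ ^ D' * ρ) = ρ ^ D' := by
    field_simp
  rw [h5] at h3
  linarith

section

variable {k ι : Type*} [Field k] [Fintype ι]

theorem hilb_le_multichoose (q : Ideal (MvPolynomial ι k)) (j : ℕ) :
    hilb q j ≤ (Fintype.card ι).multichoose j := by
  classical
  rw [← Sym.card_sym_eq_multichoose ι j]
  have hle : gr q j ≤ Submodule.span k (Set.range fun d : Sym ι j =>
      Ideal.Quotient.mk q (monomial (Multiset.toFinsupp (d : Multiset ι)) (1 : k))) := by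
    rintro _ ⟨P, hP, rfl⟩
    have hP' : P.IsHomogeneous j := hP
    have h1 : (Ideal.Quotient.mkₐ k q).toLinearMap P =
        ∑ d ∈ P.support, P.coeff d • Ideal.Quotient.mk q (monomial d (1 : k)) := by
      conv_lhs => rw [P.as_sum, map_sum]
      refine Finset.sum_congr rfl fun d _ => ?_
      have h2 : monomial d (P.coeff d) = P.coeff d • monomial d (1 : k) := by
        rw [smul_monomial, smul_eq_mul, mul_one]
      rw [h2, map_smul]
      rfl
    rw [h1]
    refine Submodule.sum_mem _ fun d hd => Submodule.smul_mem _ _ (Submodule.subset_span ?_)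
    have hdeg : d.degree = j := by
      have := hP' (mem_support_iff.1 hd)
      rwa [Finsupp.degree_eq_weight_one]
    refine ⟨⟨Finsupp.toMultiset d, ?_⟩, ?_⟩
    · rw [Finsupp.card_toMultiset, ← hdeg]
      rfl
    · simp
  have hfin : Module.Finite k (Submodule.span k (Set.range fun d : Sym ι j =>
      Ideal.Quotient.mk q (monomial (Multiset.toFinsupp (d : Multiset ι)) (1 : k)))) :=
    FiniteDimensional.span_of_finite k (Set.finite_range _)
  have hfr := Submodule.finrank_mono hle
  have h2 := finrank_range_le_card (R := k) (fun d : Sym ι j =>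
      Ideal.Quotient.mk q (monomial (Multiset.toFinsupp (d : Multiset ι)) (1 : k)))
  exact hfr.trans h2

theorem hilb_zero {q : Ideal (MvPolynomial ι k)} (hq : q.IsPrime) : 1 ≤ hilb q 0 := by
  have h := card_le_hilb (β := Unit) (I := q) (j := 0) (M := fun _ => 1)
    (fun _ => isHomogeneous_one _ _) (by
      intro c hc
      simp only [Finset.univ_unique, mul_one, Finset.sum_singleton] at hc
      by_contra hne
      have h1 : c () ≠ 0 := by
        intro h0; apply hne; funext i; exact h0
      apply hq.ne_top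
      apply Ideal.eq_top_of_isUnit_mem _ hc
      exact (isUnit_iff_ne_zero.2 h1).map C)
  simpa using h

end

end Pool.Agent.Helper11
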