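import Pool.Agent.Helper11.Residue

set_option linter.unusedSectionVars false

namespace Pool.Agent.Helper11

open Matrix

section Minor

variable {K : Type*} [Field K] {β n : Type*} [Fintype β] [DecidableEq β] [Fintype n]
  [DecidableEq n]

/-- columns of a matrix with independent rows: extend an independent set of columns to an
invertible square submatrix -/
theorem exists_minor_extension (A : Matrix β n K) (hA : LinearIndependent K A.row) (s : Set n)
    (hs : LinearIndepOn K A.col s) :
    ∃ σ : β → n, Function.Injective σ ∧ s ⊆ Set.range σ ∧ (A.submatrix id σ).det ≠ 0 := by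
  classical
  obtain ⟨b, _, hsb, hspan, hb⟩ := exists_linearIndepOn_extension hs (Set.subset_univ s)
  have hrank : A.rank = Fintype.card β := hA.rank_matrix
  rw [Matrix.rank_eq_finrank_span_cols] at hrank
  have htop : Submodule.span K (Set.range A.col) = ⊤ := by
    apply Submodule.eq_top_of_finrank_eq
    rw [hrank, Module.finrank_fintype_fun_eq_card]
  have htop2 : Submodule.span K (A.col '' b) = ⊤ := by
    rw [eq_top_iff, ← htop, Submodule.span_le, ← Set.image_univ]
    exact hspan
  have hcard : Fintype.card b = Fintype.card β := by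
    have h1 := finrank_span_eq_card hb
    have h2 : Set.range (fun x : b => A.col x) = A.col '' b := by
      ext x; simp
    rw [h2, htop2, finrank_top, Module.finrank_fintype_fun_eq_card] at h1
    exact h1.symm
  have e : β ≃ b := Fintype.equivOfCardEq hcard.symm
  refine ⟨fun i => (e i : n), fun i j h => e.injective (Subtype.ext h), ?_, ?_⟩
  · intro x hx
    exact ⟨e.symm ⟨x, hsb hx⟩, by simp⟩
  · have h1 : LinearIndependent K (A.submatrix id fun i => (e i : n)).col :=
      hb.comp e e.injective
    rw [Matrix.linearIndependent_cols_iff_isUnit, Matrix.isUnit_iff_isUnit_det] at h1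
    exact h1.ne_zero

theorem exists_minor_ne_zero (A : Matrix β n K) (hA : LinearIndependent K A.row) :
    ∃ σ : β → n, (A.submatrix id σ).det ≠ 0 := by
  obtain ⟨σ, _, _, h⟩ := exists_minor_extension A hA ∅ (linearIndepOn_empty K _)
  exact ⟨σ, h⟩

theorem exists_relation_of_minors (A : Matrix β n K) (h : ∀ σ : β → n, (A.submatrix id σ).det = 0) :
    ∃ c : β → K, c ≠ 0 ∧ ∀ j, ∑ i, c i * A i j = 0 := by
  classical
  by_contra hcon
  push Not at hcon
  have hA : LinearIndependent K A.row := by
    rw [Fintype.linearIndependent_iff]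
    intro c hc
    by_contra hne
    push Not at hne
    obtain ⟨i, hi⟩ := hne
    obtain ⟨j, hj⟩ := hcon c (fun h0 => hi (by rw [h0]; rfl))
    apply hj
    have := congrFun hc j
    simpa [Finset.sum_apply, Matrix.row] using this
  obtain ⟨σ, hσ⟩ := exists_minor_ne_zero A hA
  exact hσ (h σ)

end Minor

namespace Place

variable {k L : Type*} [Field k] [Field L] [Algebra k L] (v : Place k L)

section Minor

variable {β n : Type*} [Fintype β] [DecidableEq β] [Fintype n] [DecidableEq n]

/-- choose a nonzero maximal minor of minimal order; then the normalized matrix is integral -/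
theorem exists_min_minor (A : Matrix β n L) (hA : LinearIndependent L A.row) :
    ∃ σ : β → n, (A.submatrix id σ).det ≠ 0 ∧
      (∀ τ : β → n, (A.submatrix id τ).det ∈ v.ge (v.ord (A.submatrix id σ).det)) ∧
      ∀ i j, ((A.submatrix id σ)⁻¹ * A) i j ∈ v.ge 0 := by
  classical
  obtain ⟨σ₀, hσ₀⟩ := exists_minor_ne_zero A hA
  have hne : (Finset.univ.filter fun τ : β → n => (A.submatrix id τ).det ≠ 0).Nonempty :=
    ⟨σ₀, by simpa using hσ₀⟩
  obtain ⟨σ, hσ, hmin⟩ := Finset.exists_min_image _ (fun τ : β → n => v.ord (A.submatrix id τ).det)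
    hne
  rw [Finset.mem_filter] at hσ
  have hge : ∀ τ : β → n, (A.submatrix id τ).det ∈ v.ge (v.ord (A.submatrix id σ).det) := by
    intro τ
    by_cases h0 : (A.submatrix id τ).det = 0
    · rw [h0]; exact zero_mem _
    · exact v.mem_ge_of_le (hmin τ (by simpa using h0))
  refine ⟨σ, hσ.2, hge, fun i j => ?_⟩
  have hdet := hσ.2
  have h1 : ((A.submatrix id σ)⁻¹ * A) i j =
      ((A.submatrix id σ).det)⁻¹ * (A.submatrix id (Function.update σ i j)).det := by
    have h2 : ((A.submatrix id σ)⁻¹ * A) i j = ((A.submatrix id σ)⁻¹ *ᵥ (A.col j)) i := by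
      simp [Matrix.mul_apply, Matrix.mulVec, dotProduct, Matrix.col]
    rw [h2, Matrix.inv_def, Matrix.smul_mulVec, ← Matrix.cramer_eq_adjugate_mulVec]
    simp only [Pi.smul_apply, smul_eq_mul, Matrix.cramer_apply]
    rw [Ring.inverse_eq_inv']
    congr 2
    ext a c
    simp only [Matrix.updateCol_apply, Matrix.submatrix_apply, id_eq, Function.update_apply,
      Matrix.col]
    split_ifs <;> simp
  rw [h1]
  have h3 := v.mul_mem_ge (v.mem_ge_ord ((A.submatrix id σ).det)⁻¹) (hge (Function.update σ i j))
  rw [v.ord_inv, neg_add_cancel] at h3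
  exact h3

end Minor

/-- the valuation ring -/
def O : Subring L where
  carrier := {x | x ∈ v.ge 0}
  mul_mem' := by
    intro a b ha hb
    have := v.mul_mem_ge ha hb
    rwa [add_zero] at this
  one_mem' := v.one_mem_ge
  add_mem' := fun ha hb => (v.ge 0).add_mem ha hb
  zero_mem' := (v.ge 0).zero_mem
  neg_mem' := by
    intro a ha
    exact (v.ge 0).neg_mem ha

theorem mem_O {x : L} : x ∈ v.O ↔ x ∈ v.ge 0 := Iff.rfl

theorem algebraMap_mem_ge_one {c : k} (h : algebraMap k L c ∈ v.ge 1) : c = 0 := by
  by_contra hc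
  have h1 := v.le_ord_of_mem h (by simpa using hc)
  rw [v.ord_algebraMap] at h1
  omega

variable [CharZero k] [IsAlgClosed k] [FunField k L]

theorem existsUnique_residue {x : L} (hx : x ∈ v.ge 0) :
    ∃! c : k, x - algebraMap k L c ∈ v.ge 1 := by
  obtain ⟨c, hc⟩ := v.exists_residue hx
  refine ⟨c, hc, fun c' hc' => ?_⟩
  have h1 : algebraMap k L (c' - c) ∈ v.ge 1 := by
    have := sub_mem hc hc'
    have h2 : x - algebraMap k L c - (x - algebraMap k L c') = algebraMap k L (c' - c) := by
      rw [map_sub]; ring
    rwa [h2] at this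
  exact sub_eq_zero.1 (v.algebraMap_mem_ge_one h1)

/-- the residue of an integral element -/
noncomputable def resO (x : v.O) : k := (v.existsUnique_residue x.2).choose

theorem resO_spec (x : v.O) : (x : L) - algebraMap k L (v.resO x) ∈ v.ge 1 :=
  (v.existsUnique_residue x.2).choose_spec.1

theorem resO_eq {x : v.O} {c : k} (h : (x : L) - algebraMap k L c ∈ v.ge 1) : v.resO x = c :=
  ((v.existsUnique_residue x.2).choose_spec.2 c h).symm

/-- the residue map as a ring homomorphism -/
noncomputable def resHom : v.O →+* k where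
  toFun := v.resO
  map_one' := v.resO_eq (by simp)
  map_zero' := v.resO_eq (by simp)
  map_add' x y := v.resO_eq (by
    have h1 := add_mem (v.resO_spec x) (v.resO_spec y)
    have h2 : ((x + y : v.O) : L) - algebraMap k L (v.resO x + v.resO y) =
      (x : L) - algebraMap k L (v.resO x) + ((y : L) - algebraMap k L (v.resO y)) := by
      rw [map_add, Subring.coe_add]; ring
    rw [h2]; exact h1)
  map_mul' x y := v.resO_eq (by
    have h1 : (x : L) * ((y : L) - algebraMap k L (v.resO y)) ∈ v.ge (0 + 1) :=
      v.mul_mem_ge x.2 (v.resO_spec y)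
    have h2 : ((x : L) - algebraMap k L (v.resO x)) * algebraMap k L (v.resO y) ∈ v.ge (1 + 0) :=
      v.mul_mem_ge (v.resO_spec x) (v.algebraMap_mem_ge _)
    rw [zero_add] at h1
    rw [add_zero] at h2
    have h3 : ((x * y : v.O) : L) - algebraMap k L (v.resO x * v.resO y) =
      (x : L) * ((y : L) - algebraMap k L (v.resO y)) +
        ((x : L) - algebraMap k L (v.resO x)) * algebraMap k L (v.resO y) := by
      rw [map_mul, Subring.coe_mul]; ring
    rw [h3]; exact add_mem h1 h2)

theorem resHom_spec (x : v.O) : (x : L) - algebraMap k L (v.resHom x) ∈ v.ge 1 := v.resO_spec x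

theorem resHom_algebraMap (c : k) (h : algebraMap k L c ∈ v.O) : v.resHom ⟨_, h⟩ = c :=
  v.resO_eq (by simp)

theorem resHom_eq_zero {x : v.O} : v.resHom x = 0 ↔ (x : L) ∈ v.ge 1 := by
  constructor
  · intro h
    have := v.resHom_spec x
    rwa [h, map_zero, sub_zero] at this
  · intro h
    exact v.resO_eq (by simpa using h)

/-- a matrix over the valuation ring whose reduction has independent rows has a maximal minor which
is a unit -/
theorem exists_unit_minor {β n : Type*} [Fintype β] [DecidableEq β] [Fintype n] [DecidableEq n]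
    (A : Matrix β n L) (hA : ∀ i j, A i j ∈ v.ge 0)
    (h : ∀ c : β → k, (∀ j, ∑ i, algebraMap k L (c i) * A i j ∈ v.ge 1) → c = 0) :
    ∃ σ : β → n, (A.submatrix id σ).det ≠ 0 ∧ v.ord (A.submatrix id σ).det = 0 := by
  classical
  by_contra hcon
  push Not at hcon
  let B : Matrix β n v.O := fun i j => ⟨A i j, hA i j⟩
  let C : Matrix β n k := B.map v.resHom
  have hdet : ∀ σ : β → n, (A.submatrix id σ).det = (((B.submatrix id σ).det : v.O) : L) := by
    intro σ
    have h1 : A.submatrix id σ = (v.O.subtype).mapMatrix (B.submatrix id σ) := by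
      ext i j; rfl
    rw [h1, ← RingHom.map_det]; rfl
  have hC : ∀ σ : β → n, (C.submatrix id σ).det = 0 := by
    intro σ
    have h1 : C.submatrix id σ = v.resHom.mapMatrix (B.submatrix id σ) := by
      ext i j; rfl
    rw [h1, ← RingHom.map_det, v.resHom_eq_zero, ← hdet σ]
    by_cases h0 : (A.submatrix id σ).det = 0
    · rw [h0]; exact zero_mem _
    · have h2 := hcon σ h0
      have h3 : 0 ≤ v.ord (A.submatrix id σ).det := by
        apply v.le_ord_of_mem _ h0
        rw [hdet]
        exact (B.submatrix id σ).det.2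
      exact v.mem_ge_of_le (by omega)
  obtain ⟨c, hc0, hc⟩ := exists_relation_of_minors C hC
  apply hc0
  apply h
  intro j
  have h1 : ∑ i, algebraMap k L (c i) * A i j =
      ((∑ i, (⟨algebraMap k L (c i), v.algebraMap_mem_ge _⟩ : v.O) * B i j : v.O) : L) := by
    rw [AddSubmonoidClass.coe_finsetSum]; rfl
  rw [h1, ← v.resHom_eq_zero, map_sum]
  rw [← hc j]
  refine Finset.sum_congr rfl fun i _ => ?_
  rw [map_mul, v.resHom_algebraMap]
  rfl

end Place

end Pool.Agent.Helper11
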