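import Pool.Agent.Helper11.HilbChildren
import Pool.Agent.Helper11.HilbNum
import Pool.Agent.Helper11.MinorTools

/-! The greedy partition of a finite set of points -/

set_option linter.unusedSectionVars false

namespace Pool.Agent.Helper11

open MvPolynomial

section

variable {k ι : Type*} [Field k] [Fintype ι]

/-- forms of degree `j` take arbitrary values on the finite set `Γ` -/
def SurjOn' (j : ℕ) (Γ : Finset (ι → k)) : Prop :=
  ∀ g : (ι → k) → k, ∃ G : MvPolynomial ι k, G.IsHomogeneous j ∧ ∀ p ∈ Γ, eval p G = g p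

/-- the main inequality for the cost function `n` -/
def MIH (q : Ideal (MvPolynomial ι k)) (Γ₀ : Finset (ι → k)) (n : (ι → k) → ℝ) (W : ℝ) : Prop :=
  ∀ (j : ℕ) (Γ : Finset (ι → k)), Γ ⊆ Γ₀ → (∀ p ∈ Γ, p ∈ zs q) → SurjOn' (j + 1) Γ →
    Γ.card = hilb q (j + 1) → ∑ p ∈ Γ, n p ≤ ((hilb q (j + 1) : ℝ) - hilb q j) * W

theorem smul_mem_zs {q : Ideal (MvPolynomial ι k)} (hq : HomI q) {p : ι → k} (hp : p ∈ zs q)
    (c : k) : (fun i => c * p i) ∈ zs q := by
  intro G hG
  rw [← sum_homogeneousComponent G, map_sum]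
  refine Finset.sum_eq_zero fun j _ => ?_
  have h2 : eval (fun i => c * p i) (homogeneousComponent j G) =
      c ^ j * eval p (homogeneousComponent j G) := by
    have h3 := homogeneousComponent_isHomogeneous j G
    rw [eval_eq, eval_eq, Finset.mul_sum]
    refine Finset.sum_congr rfl fun d hd => ?_
    have hdeg : d.degree = j := by
      have := h3 (mem_support_iff.1 hd)
      rwa [Finsupp.degree_eq_weight_one]
    have h4 : ∏ i ∈ d.support, (c * p i) ^ d i = c ^ j * ∏ i ∈ d.support, p i ^ d i := by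
      simp only [mul_pow]
      rw [Finset.prod_mul_distrib, Finset.prod_pow_eq_pow_sum, ← hdeg]
      rfl
    rw [h4]; ring
  rw [h2, hp _ (hq G hG j), mul_zero]

theorem exists_X_notMem {q : Ideal (MvPolynomial ι k)} {p : ι → k} (hp : p ∈ zs q) (h0 : p ≠ 0) :
    ∃ i, (X i : MvPolynomial ι k) ∉ q := by
  by_contra hcon
  push Not at hcon
  apply h0
  funext i
  have := hp _ (hcon i)
  rwa [eval_X] at this

theorem one_le_tdeg [Infinite k] {q : Ideal (MvPolynomial ι k)} (hq : q.IsPrime) (hq2 : HomI q)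
    {p : ι → k} (hp : p ∈ zs q) (h0 : p ≠ 0) : 1 ≤ tdeg q := by
  obtain ⟨i, hi⟩ : ∃ i, p i ≠ 0 := by
    by_contra hcon
    push Not at hcon
    exact h0 (funext hcon)
  apply le_tdeg hq (Z := fun _ : Fin 1 => (X i : MvPolynomial ι k))
  intro f hf
  apply MvPolynomial.funext
  intro y
  rw [map_zero]
  have h1 := smul_mem_zs hq2 hp (y 0 / p i) _ hf
  have h2 : eval (fun l => y 0 / p i * p l) (aeval (fun _ : Fin 1 => (X i : MvPolynomial ι k)) f) =
      eval y f := by
    have h3 : ∀ g : MvPolynomial (Fin 1) k,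
        eval (fun l => y 0 / p i * p l) (aeval (fun _ : Fin 1 => (X i : MvPolynomial ι k)) g) =
        eval y g := by
      intro g
      have h4 : ((eval (fun l => y 0 / p i * p l)).comp
          (aeval (fun _ : Fin 1 => (X i : MvPolynomial ι k)) : _ →ₐ[k] _).toRingHom) = eval y := by
        apply MvPolynomial.ringHom_ext
        · intro a
          simp
        · intro a
          have : a = 0 := Subsingleton.elim _ _
          subst this
          simp [hi]
      exact RingHom.congr_fun h4 g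
    exact h3 f
  rw [h2] at h1
  exact h1

/-- either the forms of degree `j` take arbitrary values on a large subset, or there is a new form
vanishing on the finite set -/
theorem surj_or_form {q : Ideal (MvPolynomial ι k)} (j : ℕ) (Γ : Finset (ι → k)) :
    (∃ Γ' ⊆ Γ, Γ'.card = hilb q j ∧ SurjOn' j Γ') ∨
      ∃ G : MvPolynomial ι k, G.IsHomogeneous j ∧ G ∉ q ∧ ∀ p ∈ Γ, eval p G = 0 := by
  classical
  obtain ⟨M, hM, hM2, -⟩ := exists_basis_mod q j
  set E : Matrix (Fin (hilb q j)) Γ k := fun i p => eval (p : ι → k) (M i) with hE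
  by_cases hli : LinearIndependent k E.row
  · left
    obtain ⟨σ, hσ⟩ := exists_minor_ne_zero E hli
    have hinj : Function.Injective σ := by
      intro a b hab
      by_contra hne
      exact hσ (Matrix.det_zero_of_column_eq hne fun i => by simp [hab])
    have hinj2 : Function.Injective fun a => (σ a : ι → k) :=
      Subtype.val_injective.comp hinj
    refine ⟨Finset.univ.image fun a => (σ a : ι → k), ?_, ?_, ?_⟩
    · intro p hp
      rw [Finset.mem_image] at hp
      obtain ⟨a, _, rfl⟩ := hp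
      exact (σ a).2
    · rw [Finset.card_image_of_injective _ hinj2, Finset.card_univ, Fintype.card_fin]
    · intro g
      set A : Matrix (Fin (hilb q j)) (Fin (hilb q j)) k := E.submatrix id σ with hA
      have hu : IsUnit A.det := isUnit_iff_ne_zero.2 hσ
      set c : Fin (hilb q j) → k := Matrix.vecMul (fun a => g (σ a)) A⁻¹ with hc
      have hc2 : Matrix.vecMul c A = fun a => g (σ a) := by
        rw [hc, Matrix.vecMul_vecMul, Matrix.nonsing_inv_mul _ hu, Matrix.vecMul_one]
      refine ⟨∑ i, C (c i) * M i, ?_, ?_⟩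
      · refine IsHomogeneous.sum _ _ _ fun i _ => ?_
        have := (isHomogeneous_C ι (c i)).mul (hM i)
        rwa [zero_add] at this
      · intro p hp
        rw [Finset.mem_image] at hp
        obtain ⟨a, _, rfl⟩ := hp
        have h1 := congrFun hc2 a
        simp only [← h1, Matrix.vecMul, dotProduct, map_sum, map_mul, eval_C]
        rfl
  · right
    rw [Fintype.linearIndependent_iff] at hli
    push Not at hli
    obtain ⟨c, hc, i, hi⟩ := hli
    refine ⟨∑ i, C (c i) * M i, ?_, ?_, ?_⟩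
    · refine IsHomogeneous.sum _ _ _ fun i _ => ?_
      have := (isHomogeneous_C ι (c i)).mul (hM i)
      rwa [zero_add] at this
    · intro h
      exact hi (congrFun (hM2 c h) i)
    · intro p hp
      have h1 := congrFun hc ⟨p, hp⟩
      rw [Finset.sum_apply] at h1
      rw [map_sum]
      simpa [hE, Matrix.row] using h1

theorem greedy [Infinite k] {K : ℝ} (hK : 1 < K) {D₀ : ℕ} (hD₀ : ∀ H : ℕ → ℕ, 1 ≤ H 0 →
      (∀ j, H j ≤ (j + 1) ^ Fintype.card ι) → ∃ j < D₀, K * ((H (j + 1) : ℝ) - H j) ≤ H (j + 1))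
    {m : ℕ} (Deg : Ideal (MvPolynomial ι k) → Prop) (Γ₀ : Finset (ι → k))
    (h0 : ∀ p ∈ Γ₀, p ≠ 0)
    (hDeg : ∀ q : Ideal (MvPolynomial ι k), Deg q → ∀ Γ ⊆ Γ₀, (∀ p ∈ Γ, p ∈ zs q) →
      Γ.card ≤ m) (t : ℕ) :
    ∀ q : Ideal (MvPolynomial ι k), q.IsPrime → HomI q → tdeg q = t → ∀ Γ ⊆ Γ₀,
      (∀ p ∈ Γ, p ∈ zs q) →
      ∃ (Q : Finset (Ideal (MvPolynomial ι k))) (μ : ℝ) (c : ℕ), 0 ≤ μ ∧
        (∀ q' ∈ Q, q'.IsPrime ∧ HomI q' ∧ ¬ Deg q' ∧ ∃ p ∈ Γ₀, p ∈ zs q') ∧
        (∀ J, c ≤ J → μ * t.multichoose (J - c) ≤ hilb q J) ∧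
        ∀ (n : (ι → k) → ℝ) (W : ℝ), 0 ≤ W → (∀ p ∈ Γ₀, n p ≤ W) →
          (∀ q' ∈ Q, MIH q' Γ₀ n W) →
          ∑ p ∈ Γ, n p ≤ (Γ.card / K + m * D₀ ^ t * μ) * W := by
  classical
  induction t with
  | zero =>
    intro q hq hq2 ht Γ hΓ hΓq
    have hemp : Γ = ∅ := by
      rw [Finset.eq_empty_iff_forall_notMem]
      intro p hp
      have := one_le_tdeg hq hq2 (hΓq p hp) (h0 p (hΓ hp))
      omega
    subst hemp
    refine ⟨∅, 0, 0, le_rfl, by simp, by simp, ?_⟩
    intro n W hW _ _
    simp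
  | succ t ih =>
    intro q hq hq2 ht
    by_cases hd : Deg q
    · intro Γ hΓ hΓq
      refine ⟨∅, 1, 0, zero_le_one, by simp, ?_, ?_⟩
      · intro J _
        rw [one_mul, Nat.sub_zero, ← ht]
        exact_mod_cast multichoose_le_hilb hq J
      · intro n W hW hn _
        have hcard : (Γ.card : ℝ) ≤ m := by exact_mod_cast hDeg q hd Γ hΓ hΓq
        obtain ⟨j, hj, -⟩ := hD₀ (hilb q) (hilb_zero hq) fun j =>
          (hilb_le_multichoose q j).trans (mc_le_pow _ _)
        have hD1 : (1 : ℝ) ≤ D₀ := by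
          have : 1 ≤ D₀ := by omega
          exact_mod_cast this
        have h1 : ∑ p ∈ Γ, n p ≤ Γ.card * W := by
          rw [← nsmul_eq_mul]
          exact Finset.sum_le_card_nsmul _ _ _ fun p hp => hn p (hΓ hp)
        have h2 : (Γ.card : ℝ) ≤ Γ.card / K + m * D₀ ^ (t + 1) * 1 := by
          have h3 : (1 : ℝ) ≤ (D₀ : ℝ) ^ (t + 1) := one_le_pow₀ hD1
          have h4 : (0 : ℝ) ≤ Γ.card / K := by positivity
          have h5 : (m : ℝ) * 1 ≤ m * D₀ ^ (t + 1) :=
            mul_le_mul_of_nonneg_left h3 (Nat.cast_nonneg _)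
          linarith
        exact h1.trans (mul_le_mul_of_nonneg_right h2 hW)
    · obtain ⟨j, hj, hslow⟩ := hD₀ (hilb q) (hilb_zero hq) fun j =>
        (hilb_le_multichoose q j).trans (mc_le_pow _ _)
      intro Γ
      induction hN : Γ.card using Nat.strong_induction_on generalizing Γ with
      | _ N ihN =>
      intro hΓ hΓq
      have hKpos : 0 < K := by linarith
      rcases Γ.eq_empty_or_nonempty with hemp | hne
      · subst hemp
        refine ⟨∅, 0, 0, le_rfl, by simp, by simp, ?_⟩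
        intro n W hW _ _
        rw [← hN]
        simp
      rcases surj_or_form (q := q) (j + 1) Γ with ⟨Γ', hΓ', hcard', hsurj⟩ | ⟨G, hG, hGq, hGΓ⟩
      · -- remove a large subset
        have hpos : 1 ≤ Γ'.card := by
          rw [hcard']
          refine le_trans ?_ (multichoose_le_hilb hq (j + 1))
          rw [ht]
          exact mc_pos (by omega) _
        have hcard2 : (Γ \ Γ').card + Γ'.card = Γ.card := by
          exact Finset.card_sdiff_add_card_eq_card hΓ'
        obtain ⟨Q, μ, c, hμ, hQ, hμc, hfin⟩ := ihN (Γ \ Γ').card (by omega) (Γ \ Γ') rfl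
          (fun p hp => hΓ (Finset.mem_sdiff.1 hp).1) (fun p hp => hΓq p (Finset.mem_sdiff.1 hp).1)
        refine ⟨insert q Q, μ, c, hμ, ?_, hμc, ?_⟩
        · intro q' hq'
          rw [Finset.mem_insert] at hq'
          rcases hq' with rfl | hq'
          · obtain ⟨p, hp⟩ := hne
            exact ⟨hq, hq2, hd, p, hΓ hp, hΓq p hp⟩
          · exact hQ q' hq'
        · intro n W hW hn hMI
          have h1 := hfin n W hW hn fun q' hq' => hMI q' (Finset.mem_insert_of_mem hq')
          have h2 := hMI q (Finset.mem_insert_self _ _) j Γ' (fun p hp => hΓ (hΓ' hp))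
            (fun p hp => hΓq p (hΓ' hp)) hsurj hcard'
          rw [← Finset.sum_sdiff hΓ']
          have h3 : ((hilb q (j + 1) : ℝ) - hilb q j) ≤ Γ'.card / K := by
            rw [le_div_iff₀ hKpos, hcard', mul_comm]
            exact hslow
          have h4 := mul_le_mul_of_nonneg_right h3 hW
          have h5 : ((N : ℕ) : ℝ) = (Γ \ Γ').card + Γ'.card := by
            rw [← hN, ← hcard2]; push_cast; ring
          rw [h5]
          have h6 : (((Γ \ Γ').card + Γ'.card : ℝ) / K + m * D₀ ^ (t + 1) * μ) * W =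
              (((Γ \ Γ').card : ℝ) / K + m * D₀ ^ (t + 1) * μ) * W + (Γ'.card / K) * W := by ring
          rw [h6]
          linarith
      · -- a new form: pass to the components
        set T : Finset (Ideal (MvPolynomial ι k)) :=
          ((Ideal.finite_minimalPrimes_of_isNoetherianRing _ (q ⊔ Ideal.span {G})).toFinset).filter
            (fun q' => ∃ p ∈ Γ, p ∈ zs q') with hT
        have hTmem : ∀ q' ∈ T, q' ∈ (q ⊔ Ideal.span {G}).minimalPrimes ∧ ∃ p ∈ Γ, p ∈ zs q' := by
          intro q' hq'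
          rw [hT, Finset.mem_filter, Set.Finite.mem_toFinset] at hq'
          exact hq'
        have hTprime : ∀ q' ∈ T, q'.IsPrime := fun q' hq' => (hTmem q' hq').1.isPrime
        have hThom : ∀ q' ∈ T, HomI q' := fun q' hq' =>
          homI_of_minimal hq2 hG (hTmem q' hq').1
        have hTle : ∀ q' ∈ T, q ≤ q' ∧ G ∈ q' := fun q' hq' =>
          ⟨le_trans le_sup_left (hTmem q' hq').1.le,
            (hTmem q' hq').1.le (Ideal.mem_sup_right (Ideal.mem_span_singleton_self G))⟩
        have hTinc : ∀ q' ∈ T, ∀ q'' ∈ T, q' ≤ q'' → q' = q'' := fun q' hq' q'' hq'' hle =>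
          le_antisymm hle ((hTmem q'' hq'').1.2 (hTmem q' hq').1.1 hle)
        have hTirr : ∀ q' ∈ T, ∃ i, (X i : MvPolynomial ι k) ∉ q' := by
          intro q' hq'
          obtain ⟨p, hp, hpq⟩ := (hTmem q' hq').2
          exact exists_X_notMem hpq (h0 p (hΓ hp))
        have hTdeg : ∀ q' ∈ T, tdeg q' = t := by
          intro q' hq'
          have h1 := tdeg_child hq hGq (hTmem q' hq').1
          have h2 : q < q' := lt_of_le_of_ne (hTle q' hq').1
            (fun h => hGq (by rw [h]; exact (hTle q' hq').2))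
          have h3 := tdeg_lt hq (hTprime q' hq') h2
          omega
        have hcov : ∀ p : ι → k, ∃ q' : Ideal (MvPolynomial ι k), p ∈ Γ → q' ∈ T ∧ p ∈ zs q' := by
          intro p
          by_cases hp : p ∈ Γ
          · set I : Ideal (MvPolynomial ι k) := RingHom.ker (eval p) with hI
            have hIprime : I.IsPrime := RingHom.ker_isPrime _
            have hle : q ⊔ Ideal.span {G} ≤ I := by
              rw [sup_le_iff]
              refine ⟨fun P hP => hΓq p hp P hP, ?_⟩
              rw [Ideal.span_singleton_le_iff_mem]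
              exact hGΓ p hp
            obtain ⟨q', hq', hq'I⟩ := Ideal.exists_minimalPrimes_le hle
            have hpz : p ∈ zs q' := fun P hP => hq'I hP
            refine ⟨q', fun _ => ⟨?_, hpz⟩⟩
            rw [hT, Finset.mem_filter, Set.Finite.mem_toFinset]
            exact ⟨hq', p, hp, hpz⟩
          · exact ⟨⊥, fun h => absurd h hp⟩
        choose b hb using hcov
        have hex : ∀ q' : Ideal (MvPolynomial ι k), ∃ (Q : Finset (Ideal (MvPolynomial ι k)))
            (μ : ℝ) (c : ℕ), q' ∈ T → 0 ≤ μ ∧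
            (∀ q'' ∈ Q, q''.IsPrime ∧ HomI q'' ∧ ¬ Deg q'' ∧ ∃ p ∈ Γ₀, p ∈ zs q'') ∧
            (∀ J, c ≤ J → μ * t.multichoose (J - c) ≤ hilb q' J) ∧
            ∀ (n : (ι → k) → ℝ) (W : ℝ), 0 ≤ W → (∀ p ∈ Γ₀, n p ≤ W) →
              (∀ q'' ∈ Q, MIH q'' Γ₀ n W) →
              ∑ p ∈ Γ.filter (fun p => b p = q'), n p ≤
                ((Γ.filter (fun p => b p = q')).card / K + m * D₀ ^ t * μ) * W := by
          intro q'
          by_cases hq' : q' ∈ T
          · obtain ⟨Q, μ, c, h⟩ := ih q' (hTprime q' hq') (hThom q' hq') (hTdeg q' hq')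
              (Γ.filter (fun p => b p = q')) (fun p hp => hΓ (Finset.mem_filter.1 hp).1)
              (fun p hp => by
                rw [Finset.mem_filter] at hp
                have := (hb p hp.1).2
                rwa [hp.2] at this)
            exact ⟨Q, μ, c, fun _ => h⟩
          · exact ⟨∅, 0, 0, fun h => absurd h hq'⟩
        choose Q μ c hQμc using hex
        obtain ⟨c₀, hc₀⟩ := hilb_children hq hG hGq hTle hTprime hThom hTinc hTirr
        -- `t ≥ 1`
        have ht1 : 1 ≤ t := by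
          obtain ⟨p, hp⟩ := hne
          have h1 := hb p hp
          have h2 := one_le_tdeg (hTprime _ h1.1) (hThom _ h1.1) h1.2 (h0 p (hΓ hp))
          rwa [hTdeg _ h1.1] at h2
        set μ' : ℝ := ∑ q' ∈ T, μ q' with hμ'
        have hμ'0 : 0 ≤ μ' := Finset.sum_nonneg fun q' hq' => (hQμc q' hq').1
        set c' : ℕ := c₀ + ∑ q' ∈ T, c q' + (j + 1) with hc'
        have hcle : ∀ q' ∈ T, c q' ≤ ∑ q' ∈ T, c q' := fun q' hq' =>
          Finset.single_le_sum (fun _ _ => Nat.zero_le _) hq'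
        have hstep : ∀ J, c' ≤ J →
            (hilb q (J - (j + 1)) : ℝ) + μ' * t.multichoose (J - c') ≤ hilb q J := by
          intro J hJ
          have h1 := hc₀ J (by omega) (by omega)
          have h2 : (∑ q' ∈ T, (hilb q' (J - c₀) : ℝ)) + hilb q (J - (j + 1)) ≤ hilb q J := by
            exact_mod_cast h1
          have h3 : μ' * t.multichoose (J - c') ≤ ∑ q' ∈ T, (hilb q' (J - c₀) : ℝ) := by
            rw [hμ', Finset.sum_mul]
            refine Finset.sum_le_sum fun q' hq' => ?_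
            have h4 := hcle q' hq'
            have h5 := (hQμc q' hq').2.2.1 (J - c₀) (by omega)
            have h6 : t.multichoose (J - c') ≤ t.multichoose (J - c₀ - c q') :=
              mc_mono ht1 (by omega)
            have h7 : (t.multichoose (J - c') : ℝ) ≤ t.multichoose (J - c₀ - c q') := by
              exact_mod_cast h6
            exact (mul_le_mul_of_nonneg_left h7 (hQμc q' hq').1).trans h5
          linarith
        have hap := ap_sum hμ'0 ht1 (by omega : 1 ≤ j + 1) (by omega) hstep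
        have hj1 : (0 : ℝ) < ((j + 1 : ℕ) : ℝ) := by positivity
        refine ⟨T.biUnion Q, μ' / ((j + 1 : ℕ) : ℝ), c', div_nonneg hμ'0 hj1.le, ?_, ?_, ?_⟩
        · intro q'' hq''
          rw [Finset.mem_biUnion] at hq''
          obtain ⟨q', hq', hq''⟩ := hq''
          exact (hQμc q' hq').2.1 q'' hq''
        · intro J hJ
          rw [div_mul_eq_mul_div, div_le_iff₀ hj1, mul_comm (hilb q J : ℝ)]
          exact hap J hJ
        · intro n W hW hn hMI
          have h1 : ∑ p ∈ Γ, n p = ∑ q' ∈ T, ∑ p ∈ Γ.filter (fun p => b p = q'), n p := by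
            rw [Finset.sum_fiberwise_of_maps_to]
            intro p hp
            exact (hb p hp).1
          have h2 : (Γ.card : ℝ) = ∑ q' ∈ T, ((Γ.filter (fun p => b p = q')).card : ℝ) := by
            have := Finset.card_eq_sum_card_fiberwise (f := b) (s := Γ) (t := T)
              (fun p hp => (hb p hp).1)
            exact_mod_cast this
          rw [h1]
          have h3 : ∑ q' ∈ T, ∑ p ∈ Γ.filter (fun p => b p = q'), n p ≤
              ∑ q' ∈ T, (((Γ.filter (fun p => b p = q')).card : ℝ) / K + m * D₀ ^ t * μ q') * W :=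
            Finset.sum_le_sum fun q' hq' => (hQμc q' hq').2.2.2 n W hW hn
              fun q'' hq'' => hMI q'' (Finset.mem_biUnion.2 ⟨q', hq', hq''⟩)
          refine h3.trans ?_
          rw [← Finset.sum_mul, Finset.sum_add_distrib, ← Finset.sum_div, ← h2,
            ← Finset.mul_sum, ← hN]
          apply mul_le_mul_of_nonneg_right _ hW
          have h4 : μ' ≤ D₀ * (μ' / ((j + 1 : ℕ) : ℝ)) := by
            rw [mul_div_assoc', le_div_iff₀ hj1, mul_comm]
            apply mul_le_mul_of_nonneg_right _ hμ'0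
            have : j + 1 ≤ D₀ := hj
            exact_mod_cast this
          have h5 : (m : ℝ) * D₀ ^ (t + 1) * (μ' / ((j + 1 : ℕ) : ℝ)) =
              m * D₀ ^ t * (D₀ * (μ' / ((j + 1 : ℕ) : ℝ))) := by ring
          rw [h5]
          have h6 : (m : ℝ) * D₀ ^ t * μ' ≤ m * D₀ ^ t * (D₀ * (μ' / ((j + 1 : ℕ) : ℝ))) :=
            mul_le_mul_of_nonneg_left h4 (by positivity)
          linarith

theorem tdeg_bot : tdeg (⊥ : Ideal (MvPolynomial ι k)) = Fintype.card ι := by
  classical
  have hbot : (⊥ : Ideal (MvPolynomial ι k)).IsPrime := Ideal.isPrime_bot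
  apply le_antisymm
  · obtain ⟨s, hs⟩ := exists_aim hbot
    have hinj : Function.Injective s := by
      intro a b hab
      by_contra hne
      have h1 := hs (X a - X b) (by
        rw [map_sub, aeval_X, aeval_X, hab, sub_self]
        exact zero_mem _)
      have h2 : (X a : MvPolynomial (Fin (tdeg (⊥ : Ideal (MvPolynomial ι k)))) k) = X b :=
        sub_eq_zero.1 h1
      exact hne (X_injective h2)
    have := Fintype.card_le_of_injective s hinj
    rwa [Fintype.card_fin] at this
  · apply le_tdeg' hbot (Z := fun i => (X i : MvPolynomial ι k))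
    intro f hf
    have h1 : aeval (fun i => (X i : MvPolynomial ι k)) f = f := aeval_X_left_apply f
    rw [h1] at hf
    exact hf

theorem homI_bot : HomI (⊥ : Ideal (MvPolynomial ι k)) := by
  intro P hP i
  rw [Ideal.mem_bot] at hP ⊢
  rw [hP, map_zero]

theorem greedy_total [Infinite k] {K : ℝ} (hK : 1 < K) {D₀ : ℕ} (hD₀ : ∀ H : ℕ → ℕ, 1 ≤ H 0 →
      (∀ j, H j ≤ (j + 1) ^ Fintype.card ι) → ∃ j < D₀, K * ((H (j + 1) : ℝ) - H j) ≤ H (j + 1))
    {m : ℕ} (Deg : Ideal (MvPolynomial ι k) → Prop) (Γ₀ : Finset (ι → k))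
    (h0 : ∀ p ∈ Γ₀, p ≠ 0)
    (hDeg : ∀ q : Ideal (MvPolynomial ι k), Deg q → ∀ Γ ⊆ Γ₀, (∀ p ∈ Γ, p ∈ zs q) →
      Γ.card ≤ m) (hι : 1 ≤ Fintype.card ι) :
    ∃ Q : Finset (Ideal (MvPolynomial ι k)),
      (∀ q' ∈ Q, q'.IsPrime ∧ HomI q' ∧ ¬ Deg q' ∧ ∃ p ∈ Γ₀, p ∈ zs q') ∧
      ∀ (n : (ι → k) → ℝ) (W : ℝ), 0 ≤ W → (∀ p ∈ Γ₀, n p ≤ W) →
        (∀ q' ∈ Q, MIH q' Γ₀ n W) →
        ∑ p ∈ Γ₀, n p ≤ (Γ₀.card / K + m * D₀ ^ Fintype.card ι * 2 ^ Fintype.card ι) * W := by
  obtain ⟨Q, μ, c, hμ, hQ, hμc, hfin⟩ := greedy hK hD₀ Deg Γ₀ h0 hDeg (Fintype.card ι) ⊥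
    Ideal.isPrime_bot homI_bot tdeg_bot Γ₀ (Finset.Subset.refl _) (by
      intro p _ P hP
      rw [Ideal.mem_bot] at hP
      rw [hP, map_zero])
  refine ⟨Q, hQ, fun n W hW hn hMI => (hfin n W hW hn hMI).trans ?_⟩
  apply mul_le_mul_of_nonneg_right _ hW
  have h1 : μ ≤ 2 ^ Fintype.card ι := by
    apply mu_le_of_forall hι (c := c)
    intro J hJ
    refine (hμc J hJ).trans ?_
    exact_mod_cast hilb_le_multichoose _ J
  have h2 : (m : ℝ) * D₀ ^ Fintype.card ι * μ ≤ m * D₀ ^ Fintype.card ι * 2 ^ Fintype.card ι :=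
    mul_le_mul_of_nonneg_left h1 (by positivity)
  linarith

end

end Pool.Agent.Helper11
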