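import Pool.Agent.Helper11.ExcDer
import Pool.Agent.Helper11.Greedy

/-! Conormal spaces and specialization -/

set_option linter.unusedSectionVars false

namespace Pool.Agent.Helper11

open MvPolynomial

/-- the gradient of a polynomial at a point -/
noncomputable def grad {k ι : Type*} [Field k] (F : MvPolynomial ι k) (x : ι → k) : ι → k :=
  fun i => eval x (pderiv i F)

/-- the conormal space of the zero set of `I` at the point `x`: the span of the gradients at `x`
of the elements of `I` -/
noncomputable def conormal {k ι : Type*} [Field k] (I : Ideal (MvPolynomial ι k)) (x : ι → k) :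
    Submodule k (ι → k) :=
  Submodule.span k {v | ∃ F ∈ I, v = grad F x}

/-- a square matrix with prescribed first row -/
def consM {R : Type*} {c : ℕ} (v : Fin (c + 1) → R) (A : Fin c → Fin (c + 1) → R) :
    Matrix (Fin (c + 1)) (Fin (c + 1)) R :=
  Matrix.of (Fin.cons v A : Fin (c + 1) → Fin (c + 1) → R)

theorem consM_zero {R : Type*} {c : ℕ} (v : Fin (c + 1) → R) (A : Fin c → Fin (c + 1) → R)
    (j : Fin (c + 1)) : consM v A 0 j = v j := rfl

theorem consM_succ {R : Type*} {c : ℕ} (v : Fin (c + 1) → R) (A : Fin c → Fin (c + 1) → R)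
    (i : Fin c) (j : Fin (c + 1)) : consM v A i.succ j = A i j := rfl

theorem det_consM {R : Type*} [CommRing R] {c : ℕ} (v : Fin (c + 1) → R)
    (A : Fin c → Fin (c + 1) → R) :
    (consM v A).det = ∑ j, v j * ((-1) ^ (j : ℕ) *
      (Matrix.of fun (a b : Fin c) => A a (j.succAbove b)).det) := by
  rw [Matrix.det_succ_row_zero]
  refine Finset.sum_congr rfl fun j _ => ?_
  rw [consM_zero]
  have h1 : (consM v A).submatrix Fin.succ j.succAbove =
      Matrix.of fun (a b : Fin c) => A a (j.succAbove b) := by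
    ext a b; rfl
  rw [h1]; ring

theorem det_consM_scale {R : Type*} [CommRing R] {c : ℕ} (v : Fin (c + 1) → R)
    (A : Fin c → Fin (c + 1) → R) (l : Fin c → R) :
    (consM v fun i j => l i * A i j).det = (∏ i, l i) * (consM v A).det := by
  have h1 := Matrix.det_mul_column (Fin.cons 1 l : Fin (c + 1) → R) (consM v A)
  rw [Fin.prod_univ_succ, Fin.cons_zero, one_mul] at h1
  simp only [Fin.cons_succ] at h1
  rw [← h1]
  congr 1
  ext a b
  refine Fin.cases ?_ (fun i => ?_) a
  · simp [consM_zero]
  · simp [consM_succ]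

theorem map_det_consM {R S : Type*} [CommRing R] [CommRing S] (f : R →+* S) {c : ℕ}
    (v : Fin (c + 1) → R) (A : Fin c → Fin (c + 1) → R) :
    f (consM v A).det = (consM (fun j => f (v j)) fun i j => f (A i j)).det := by
  rw [RingHom.map_det]
  congr 1
  ext a b
  refine Fin.cases ?_ (fun i => ?_) a
  · rfl
  · rfl

section

variable {k ι : Type*} [Field k] [Fintype ι] [IsAlgClosed k]

theorem finrank_conormal_lt_det {c : ℕ} {I : Ideal (MvPolynomial ι k)} {x : ι → k}
    (hx : Module.finrank k (conormal I x) = c) {F : Fin (c + 1) → MvPolynomial ι k}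
    (hF : ∀ a, F a ∈ I) (σ : Fin (c + 1) → ι) :
    (Matrix.of fun a b => eval x (pderiv (σ b) (F a))).det = 0 := by
  classical
  -- the gradients are dependent
  have h1 : ¬ LinearIndependent k fun a => (⟨grad (F a) x, Submodule.subset_span ⟨F a, hF a, rfl⟩⟩ :
      conormal I x) := by
    intro hli
    have h2 := hli.fintype_card_le_finrank
    rw [hx, Fintype.card_fin] at h2
    omega
  rw [Fintype.linearIndependent_iff] at h1
  push Not at h1
  obtain ⟨g, hg, i, hi⟩ := h1
  rw [← Matrix.exists_vecMul_eq_zero_iff]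
  refine ⟨g, fun h0 => hi (congrFun h0 i), ?_⟩
  funext b
  have h2 := congrArg (Submodule.subtype _) hg
  rw [map_sum, map_zero] at h2
  have h3 := congrFun h2 (σ b)
  rw [Finset.sum_apply] at h3
  simpa [Matrix.vecMul, dotProduct, grad] using h3

theorem minors_mem {I : Ideal (MvPolynomial ι k)} (hI : I.IsPrime)
    (hX : ∃ i, (X i : MvPolynomial ι k) ∉ I) {c : ℕ}
    (hrank : ∀ x ∈ zs I, x ≠ 0 → Module.finrank k (conormal I x) = c)
    {F : Fin (c + 1) → MvPolynomial ι k} (hF : ∀ a, F a ∈ I) (σ : Fin (c + 1) → ι) :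
    (Matrix.of fun a b => pderiv (σ b) (F a)).det ∈ I := by
  obtain ⟨i, hi⟩ := hX
  refine (hI.mem_or_mem (x := X i) ?_).resolve_left hi
  apply mem_of_zero_on_zs hI
  intro x hx
  rw [map_mul, eval_X]
  by_cases h0 : x = 0
  · rw [h0]; simp
  · have h1 := finrank_conormal_lt_det (hrank x hx h0) hF σ
    rw [RingHom.map_det]
    have h2 : (eval x).mapMatrix (Matrix.of fun a b => pderiv (σ b) (F a)) =
        Matrix.of fun a b => eval x (pderiv (σ b) (F a)) := by
      ext a b; rfl
    rw [h2, h1, mul_zero]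

/-- a combination of gradients: the augmented minors vanish -/
theorem det_eq_zero_of_mem_span {I : Ideal (MvPolynomial ι k)} (hI : I.IsPrime)
    (hX : ∃ i, (X i : MvPolynomial ι k) ∉ I) {c : ℕ}
    (hrank : ∀ x ∈ zs I, x ≠ 0 → Module.finrank k (conormal I x) = c)
    {E : Type*} [Field E] [Algebra k E] (xb : ι → E) (hxb : ∀ F ∈ I, aeval xb F = 0)
    (hker : ∀ F : MvPolynomial ι k, aeval xb F = 0 → F ∈ I)
    {v : ι → E} (hv : v ∈ Submodule.span E
      {v : ι → E | ∃ F : MvPolynomial ι k, aeval xb F = 0 ∧ v = fun i => aeval xb (pderiv i F)})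
    {F : Fin c → MvPolynomial ι k} (hF : ∀ a, F a ∈ I) (σ : Fin (c + 1) → ι) :
    (consM (fun b => v (σ b)) fun i b => aeval xb (pderiv (σ b) (F i))).det = 0 := by
  induction hv using Submodule.span_induction with
  | mem v hv =>
    obtain ⟨F₀, hF₀, rfl⟩ := hv
    have h1 := minors_mem hI hX hrank (F := Fin.cons F₀ F) (by
      intro a
      refine Fin.cases ?_ (fun i => ?_) a
      · exact hker _ hF₀
      · exact hF i) σ
    have h2 := hxb _ h1
    rw [← AlgHom.coe_toRingHom, RingHom.map_det] at h2
    rw [← h2]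
    congr 1
    ext a b
    refine Fin.cases ?_ (fun i => ?_) a
    · rfl
    · rfl
  | zero =>
    rw [det_consM]
    exact Finset.sum_eq_zero fun j _ => by simp
  | add v w _ _ h1 h2 =>
    rw [det_consM] at h1 h2 ⊢
    have h3 : ∀ j, (v + w) (σ j) * ((-1) ^ (j : ℕ) * (Matrix.of fun (a b : Fin c) =>
        aeval xb (pderiv (σ (j.succAbove b)) (F a))).det) =
        v (σ j) * ((-1) ^ (j : ℕ) * (Matrix.of fun (a b : Fin c) =>
        aeval xb (pderiv (σ (j.succAbove b)) (F a))).det) +
        w (σ j) * ((-1) ^ (j : ℕ) * (Matrix.of fun (a b : Fin c) =>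
        aeval xb (pderiv (σ (j.succAbove b)) (F a))).det) := by
      intro j
      rw [Pi.add_apply, add_mul]
    rw [Finset.sum_congr rfl fun j _ => h3 j, Finset.sum_add_distrib, h1, h2, add_zero]
  | smul e v _ h1 =>
    rw [det_consM] at h1 ⊢
    have h3 : ∀ j, (e • v) (σ j) * ((-1) ^ (j : ℕ) * (Matrix.of fun (a b : Fin c) =>
        aeval xb (pderiv (σ (j.succAbove b)) (F a))).det) =
        e * (v (σ j) * ((-1) ^ (j : ℕ) * (Matrix.of fun (a b : Fin c) =>
        aeval xb (pderiv (σ (j.succAbove b)) (F a))).det)) := by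
      intro j
      rw [Pi.smul_apply, smul_eq_mul, mul_assoc]
    rw [Finset.sum_congr rfl fun j _ => h3 j, ← Finset.mul_sum, h1, mul_zero]

/-- the polynomial cutting out the tangency locus -/
noncomputable def detP (G : MvPolynomial ι k) {c : ℕ} (F : Fin c → MvPolynomial ι k)
    (σ : Fin (c + 1) → ι) : MvPolynomial ι k :=
  (consM (fun b => pderiv (σ b) G) fun i b => pderiv (σ b) (F i)).det

/-- the ideal of the points of tangency of the hypersurface `G = 0` -/
noncomputable def tanI (I : Ideal (MvPolynomial ι k)) (c : ℕ) (G : MvPolynomial ι k) :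
    Ideal (MvPolynomial ι k) :=
  Ideal.span ((I : Set (MvPolynomial ι k)) ∪ ({G} ∪
    {P | ∃ (F : Fin c → MvPolynomial ι k) (σ : Fin (c + 1) → ι),
      (∀ a, F a ∈ I ∧ ∃ d, (F a).IsHomogeneous d) ∧ P = detP G F σ}))

theorem conormal_eq_span_homogeneous {I : Ideal (MvPolynomial ι k)} (hI : HomI I) (x : ι → k) :
    conormal I x = Submodule.span k {v | ∃ F, (F ∈ I ∧ ∃ d, F.IsHomogeneous d) ∧ v = grad F x} := by
  apply le_antisymm
  · unfold conormal
    rw [Submodule.span_le]
    rintro v ⟨F, hF, rfl⟩
    have h1 : grad F x = ∑ i ∈ Finset.range (F.totalDegree + 1),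
        grad (homogeneousComponent i F) x := by
      funext j
      rw [Finset.sum_apply]
      unfold grad
      conv_lhs => rw [← sum_homogeneousComponent F]
      rw [map_sum, map_sum]
    rw [h1]
    refine Submodule.sum_mem _ fun i _ => Submodule.subset_span ?_
    exact ⟨homogeneousComponent i F, ⟨hI F hF i, i, homogeneousComponent_isHomogeneous i F⟩, rfl⟩
  · rw [Submodule.span_le]
    rintro v ⟨F, ⟨hF, _⟩, rfl⟩
    exact Submodule.subset_span ⟨F, hF, rfl⟩

theorem zero_of_mem_zs_tanI {I : Ideal (MvPolynomial ι k)} (hI : HomI I) {c : ℕ}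
    (hrank : ∀ x ∈ zs I, x ≠ 0 → Module.finrank k (conormal I x) = c) {G : MvPolynomial ι k}
    (htrans : ∀ x ∈ zs I, x ≠ 0 → eval x G = 0 → grad G x ∉ conormal I x) {x : ι → k}
    (hx : x ∈ zs (tanI I c G)) : x = 0 := by
  classical
  by_contra h0
  have hxI : x ∈ zs I := fun F hF => hx F (Ideal.subset_span (Or.inl hF))
  have hpx : eval x G = 0 := hx _ (Ideal.subset_span (Or.inr (Or.inl rfl)))
  have h1 := htrans x hxI h0 hpx
  have h2 := hrank x hxI h0
  rw [conormal_eq_span_homogeneous hI] at h1 h2
  have h3 := Submodule.exists_fun_fin_finrank_span_eq k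
    {v | ∃ F, (F ∈ I ∧ ∃ d, F.IsHomogeneous d) ∧ v = grad F x}
  rw [h2] at h3
  obtain ⟨v, hv, hv2, hv3⟩ := h3
  choose F hF hFv using hv
  have hli : LinearIndependent k (Fin.cons (grad G x) v : Fin (c + 1) → ι → k) :=
    linearIndependent_finCons.2 ⟨hv3, by rw [hv2]; exact h1⟩
  obtain ⟨σ, hσ⟩ := exists_minor_ne_zero
    (Matrix.of (Fin.cons (grad G x) v : Fin (c + 1) → ι → k)) hli
  apply hσ
  have h4 := hx _ (Ideal.subset_span (Or.inr (Or.inr ⟨F, σ, hF, rfl⟩)))
  unfold detP at h4
  rw [map_det_consM] at h4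
  rw [← h4]
  congr 1
  ext a b
  refine Fin.cases ?_ (fun i => ?_) a
  · simp [consM_zero, grad]
  · simp [consM_succ, hFv, grad]

theorem exists_pow_mem_tanI {I : Ideal (MvPolynomial ι k)} (hI : HomI I) {c : ℕ}
    (hrank : ∀ x ∈ zs I, x ≠ 0 → Module.finrank k (conormal I x) = c) {G : MvPolynomial ι k}
    (htrans : ∀ x ∈ zs I, x ≠ 0 → eval x G = 0 → grad G x ∉ conormal I x) (i : ι) :
    ∃ M : ℕ, (X i : MvPolynomial ι k) ^ M ∈ tanI I c G := by
  have h1 : (X i : MvPolynomial ι k) ∈ (tanI I c G).radical := by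
    rw [← vanishingIdeal_zeroLocus_eq_radical (K := k), mem_vanishingIdeal_iff]
    intro x hx
    have h2 : x = 0 := zero_of_mem_zs_tanI hI hrank htrans (fun G hG => hx G hG)
    rw [h2]; simp
  exact h1

/-- scaling of a homogeneous polynomial -/
theorem aeval_scale {E : Type*} [Field E] [Algebra k E] {F : MvPolynomial ι k} {d : ℕ}
    (hF : F.IsHomogeneous d) (l : E) (xb : ι → E) :
    aeval (fun i => l * xb i) F = l ^ d * aeval xb F := by
  rw [aeval_def, aeval_def, eval₂_eq, eval₂_eq, Finset.mul_sum]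
  refine Finset.sum_congr rfl fun e he => ?_
  have hdeg : e.degree = d := by
    have := hF (mem_support_iff.1 he)
    rwa [Finsupp.degree_eq_weight_one]
  have h4 : ∏ i ∈ e.support, (l * xb i) ^ e i = l ^ d * ∏ i ∈ e.support, xb i ^ e i := by
    simp only [mul_pow]
    rw [Finset.prod_mul_distrib, Finset.prod_pow_eq_pow_sum, ← hdeg]
    rfl
  rw [h4]; ring

theorem aeval_scale_eq_zero {E : Type*} [Field E] [Algebra k E] {I : Ideal (MvPolynomial ι k)}
    (hI : HomI I) {xb : ι → E} (hxb : ∀ F ∈ I, aeval xb F = 0) (l : E) {F : MvPolynomial ι k}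
    (hF : F ∈ I) : aeval (fun i => l * xb i) F = 0 := by
  rw [← sum_homogeneousComponent F, map_sum]
  refine Finset.sum_eq_zero fun j _ => ?_
  rw [aeval_scale (homogeneousComponent_isHomogeneous j F), hxb _ (hI F hF j), mul_zero]

/-- the member of the linear system with coordinates `p` -/
noncomputable def mem' {α : Type*} [Fintype α] (s : α → MvPolynomial ι k) (p : α → k) :
    MvPolynomial ι k := ∑ a, C (p a) * s a

/-- **Specialization.** A conormal member of the linear system cannot specialize to a transversal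
member. -/
theorem specialization {I : Ideal (MvPolynomial ι k)} (hI : HomI I) {c : ℕ}
    (hrank : ∀ x ∈ zs I, x ≠ 0 → Module.finrank k (conormal I x) = c)
    {α : Type*} [Fintype α] {s : α → MvPolynomial ι k} {e : ℕ} (hs : ∀ a, (s a).IsHomogeneous e)
    {p : α → k}
    (htrans : ∀ x ∈ zs I, x ≠ 0 → eval x (mem' s p) = 0 → grad (mem' s p) x ∉ conormal I x)
    {E : Type*} [Field E] [Algebra k E] {η : α → E} {xb : ι → E} (hxb : ∀ F ∈ I, aeval xb F = 0)
    (hx0 : xb ≠ 0) (hη : ∀ P : MvPolynomial α k, eval p P ≠ 0 → aeval η P ≠ 0)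
    (h1 : ∑ a, η a * aeval xb (s a) = 0)
    (h2 : ∀ (F : Fin c → MvPolynomial ι k) (σ : Fin (c + 1) → ι), (∀ a, F a ∈ I) →
      (consM (fun b => ∑ a, η a * aeval xb (pderiv (σ b) (s a)))
        fun i b => aeval xb (pderiv (σ b) (F i))).det = 0) : False := by
  classical
  set m : Ideal (MvPolynomial α k) := RingHom.ker (eval p) with hm
  have hmprime : m.IsPrime := RingHom.ker_isPrime _
  set g : MvPolynomial α k →+* E := (aeval η : MvPolynomial α k →ₐ[k] E).toRingHom with hg
  have hunit : ∀ y : m.primeCompl, IsUnit (g y) := by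
    intro y
    rw [isUnit_iff_ne_zero]
    exact hη _ y.2
  let f : Localization.AtPrime m →+* E := IsLocalization.lift (M := m.primeCompl) hunit
  have hf : ∀ P, f (algebraMap (MvPolynomial α k) (Localization.AtPrime m) P) = aeval η P :=
    fun P => IsLocalization.lift_eq hunit P
  obtain ⟨V, hV, hloc⟩ := IsLocalRing.exists_factor_valuationRing f
  let fV : Localization.AtPrime m →+* V := f.codRestrict V.toSubring hV
  let ρ : V →+* IsLocalRing.ResidueField V := IsLocalRing.residue V
  let G : MvPolynomial α k →+* V := fV.comp (algebraMap _ _)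
  have hG : ∀ P, ((G P : V) : E) = aeval η P := fun P => by
    change f (algebraMap (MvPolynomial α k) (Localization.AtPrime m) P) = _
    exact hf P
  have hGm : ∀ P ∈ m, ρ (G P) = 0 := by
    intro P hP
    rw [IsLocalRing.residue_eq_zero_iff]
    rw [IsLocalRing.mem_maximalIdeal, mem_nonunits_iff]
    intro hu
    have h3 : IsUnit (algebraMap (MvPolynomial α k) (Localization.AtPrime m) P) :=
      hloc.map_nonunit _ hu
    exact ((IsLocalization.AtPrime.isUnit_to_map_iff _ m P).1 h3) hP
  -- scale the point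
  obtain ⟨j, hj⟩ : ∃ j, xb j ≠ 0 := by
    by_contra hcon
    push Not at hcon
    exact hx0 (funext hcon)
  obtain ⟨i₀, -, hi₀⟩ := Finset.exists_max_image Finset.univ (fun i => V.valuation (xb i))
    ⟨j, Finset.mem_univ j⟩
  have hi₀0 : xb i₀ ≠ 0 := by
    intro h0
    have h3 := hi₀ j (Finset.mem_univ j)
    rw [h0, map_zero, le_zero_iff, map_eq_zero] at h3
    exact hj h3
  set l : E := (xb i₀)⁻¹ with hl
  have hzV : ∀ i, l * xb i ∈ V := by
    intro i
    rw [← V.valuation_le_one_iff, map_mul, hl, map_inv₀]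
    have h3 := hi₀ i (Finset.mem_univ i)
    have h4 : V.valuation (xb i₀) ≠ 0 := by rwa [Ne, map_eq_zero]
    calc (V.valuation (xb i₀))⁻¹ * V.valuation (xb i) ≤
          (V.valuation (xb i₀))⁻¹ * V.valuation (xb i₀) := mul_le_mul_right h3 _
      _ = 1 := inv_mul_cancel₀ h4
  let zV : ι → V := fun i => ⟨l * xb i, hzV i⟩
  let θ : k →+* V := G.comp C
  let H : MvPolynomial ι k →+* V := eval₂Hom θ zV
  have hθ : ∀ a, ((θ a : V) : E) = algebraMap k E a := by
    intro a
    change ((G (C a) : V) : E) = _
    rw [hG, aeval_C]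
  have hHC : ∀ a, H (C a) = θ a := fun a => eval₂Hom_C _ _ _
  have hH : ∀ F, ((H F : V) : E) = aeval (fun i => l * xb i) F := by
    intro F
    have h3 : V.subtype.comp H = (aeval (fun i => l * xb i) : MvPolynomial ι k →ₐ[k] E).toRingHom := by
      apply MvPolynomial.ringHom_ext
      · intro a
        change ((H (C a) : V) : E) = aeval (fun i => l * xb i) (C a)
        rw [aeval_C, ← hθ, hHC]
      · intro i
        change ((H (X i) : V) : E) = aeval (fun i => l * xb i) (X i)
        rw [aeval_X]
        have : H (X i) = zV i := eval₂Hom_X' _ _ _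
        rw [this]
    exact RingHom.congr_fun h3 F
  have hVzero : ∀ a : V, ((a : V) : E) = 0 → a = 0 := fun a ha => Subtype.ext ha
  have hρX : ∀ i, ρ (G (X i)) = ρ (θ (p i)) := by
    intro i
    have h3 := hGm (X i - C (p i)) (by rw [hm, RingHom.mem_ker]; simp)
    rw [map_sub, map_sub, sub_eq_zero] at h3
    exact h3
  have hker : tanI I c (mem' s p) ≤ RingHom.ker (ρ.comp H) := by
    unfold tanI
    rw [Ideal.span_le]
    rintro P (hP | hP | ⟨F, σ, hF, rfl⟩)
    · have h3 : H P = 0 := hVzero _ (by rw [hH]; exact aeval_scale_eq_zero hI hxb l hP)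
      change (ρ.comp H) P = 0
      rw [RingHom.comp_apply, h3, map_zero]
    · rw [Set.mem_singleton_iff] at hP
      subst hP
      change (ρ.comp H) (mem' s p) = 0
      have h3 : ∑ a, G (X a) * H (s a) = 0 := by
        apply hVzero
        rw [AddSubmonoidClass.coe_finsetSum]
        have h4 : ∀ a, ((G (X a) * H (s a) : V) : E) = l ^ e * (η a * aeval xb (s a)) := by
          intro a
          change ((G (X a) : V) : E) * ((H (s a) : V) : E) = _
          rw [hG, aeval_X, hH, aeval_scale (hs a)]; ring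
        rw [Finset.sum_congr rfl fun i _ => h4 i, ← Finset.mul_sum, h1, mul_zero]
      have h4 := congrArg ρ h3
      rw [map_sum, map_zero] at h4
      unfold mem'
      rw [map_sum, ← h4]
      refine Finset.sum_congr rfl fun i _ => ?_
      rw [map_mul, map_mul, hρX]
      congr 1
      change ρ (H (C (p i))) = _
      rw [hHC]
    · change (ρ.comp H) (detP (mem' s p) F σ) = 0
      unfold detP
      rw [map_det_consM]
      have h3 : (consM (fun b => ∑ a, G (X a) * H (pderiv (σ b) (s a)))
          fun i b => H (pderiv (σ b) (F i))).det = 0 := by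
        apply hVzero
        have h4 := map_det_consM V.subtype (fun b => ∑ a, G (X a) * H (pderiv (σ b) (s a)))
          (fun i b => H (pderiv (σ b) (F i)))
        have h5 : (fun b => V.subtype (∑ a, G (X a) * H (pderiv (σ b) (s a)))) =
            fun b => l ^ (e - 1) * ∑ a, η a * aeval xb (pderiv (σ b) (s a)) := by
          funext b
          rw [map_sum, Finset.mul_sum]
          refine Finset.sum_congr rfl fun a _ => ?_
          change ((G (X a) : V) : E) * ((H (pderiv (σ b) (s a)) : V) : E) = _
          rw [hG, aeval_X, hH, aeval_scale (hs a).pderiv]; ring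
        choose d hd using fun a => (hF a).2
        have h6 : (fun i b => V.subtype (H (pderiv (σ b) (F i)))) =
            fun i b => l ^ (d i - 1) * aeval xb (pderiv (σ b) (F i)) := by
          funext i b
          change ((H (pderiv (σ b) (F i)) : V) : E) = _
          rw [hH, aeval_scale (hd i).pderiv]
        have h7 : (consM (fun b => l ^ (e - 1) * ∑ a, η a * aeval xb (pderiv (σ b) (s a)))
            fun i b => aeval xb (pderiv (σ b) (F i))).det = 0 := by
          have h8 := h2 F σ (fun a => (hF a).1)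
          rw [det_consM] at h8 ⊢
          have h9 : ∀ j, l ^ (e - 1) * (∑ a, η a * aeval xb (pderiv (σ j) (s a))) *
              ((-1) ^ (j : ℕ) * (Matrix.of fun (a b : Fin c) =>
                aeval xb (pderiv (σ (j.succAbove b)) (F a))).det) = l ^ (e - 1) *
              ((∑ a, η a * aeval xb (pderiv (σ j) (s a))) *
              ((-1) ^ (j : ℕ) * (Matrix.of fun (a b : Fin c) =>
                aeval xb (pderiv (σ (j.succAbove b)) (F a))).det)) := fun j => by ring
          rw [Finset.sum_congr rfl fun j _ => h9 j, ← Finset.mul_sum, h8, mul_zero]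
        rw [h5, h6, det_consM_scale, h7, mul_zero] at h4
        exact h4
      have h4 := congrArg ρ h3
      rw [map_det_consM, map_zero] at h4
      rw [← h4]
      congr 1
      congr 1
      funext b
      unfold mem'
      rw [map_sum, map_sum, map_sum]
      refine Finset.sum_congr rfl fun a _ => ?_
      rw [pderiv_C_mul, map_mul, map_mul, hρX]
      change ρ (H (C (p a))) * _ = _
      rw [hHC]
      rfl
  obtain ⟨M, hM⟩ := exists_pow_mem_tanI hI hrank htrans i₀
  have h3 := hker hM
  rw [RingHom.mem_ker, RingHom.comp_apply, map_pow, map_pow] at h3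
  have h4 : H (X i₀) = 1 := by
    apply Subtype.ext
    rw [hH, aeval_X, hl, inv_mul_cancel₀ hi₀0]
    rfl
  rw [h4, map_one, one_pow] at h3
  exact one_ne_zero h3

end

end Pool.Agent.Helper11
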