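import Pool.Agent.Helper11.ExcRed

/-! Specialization on linear sections -/

set_option linter.unusedSectionVars false

namespace Pool.Agent.Helper11

open MvPolynomial

section

variable {k ι : Type*} [Field k] [Fintype ι] [IsAlgClosed k]

/-- the ideal of the points of a linear section at which the hypersurface `G = 0` is singular -/
noncomputable def tanL (I : Ideal (MvPolynomial ι k)) (c : ℕ) {κ : Type*}
    (lf : κ → MvPolynomial ι k) (G : MvPolynomial ι k) : Ideal (MvPolynomial ι k) :=
  Ideal.span ((I : Set (MvPolynomial ι k)) ∪ (Set.range lf ∪ ({G} ∪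
    {P | ∃ (F : Fin c → MvPolynomial ι k) (σ : Fin (c + 1) → ι),
      (∀ a, F a ∈ I ∧ ∃ d, (F a).IsHomogeneous d) ∧ P = detP G F σ})))

theorem zero_of_mem_zs_tanL {I : Ideal (MvPolynomial ι k)} (hI : HomI I) {c : ℕ} {κ : Type*}
    {lf : κ → MvPolynomial ι k} {G : MvPolynomial ι k}
    (htrans : ∀ x ∈ zs I, x ≠ 0 → (∀ i, eval x (lf i) = 0) → eval x G = 0 →
      Module.finrank k (conormal I x) = c ∧ grad G x ∉ conormal I x) {x : ι → k}
    (hx : x ∈ zs (tanL I c lf G)) : x = 0 := by
  classical
  by_contra h0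
  have hxI : x ∈ zs I := fun F hF => hx F (Ideal.subset_span (Or.inl hF))
  have hpx : eval x G = 0 := hx _ (Ideal.subset_span (Or.inr (Or.inr (Or.inl rfl))))
  have hlx : ∀ i, eval x (lf i) = 0 := fun i =>
    hx _ (Ideal.subset_span (Or.inr (Or.inl ⟨i, rfl⟩)))
  obtain ⟨h2, h1⟩ := htrans x hxI h0 hlx hpx
  rw [conormal_eq_span_homogeneous hI] at h1 h2
  have h3 := Submodule.exists_fun_fin_finrank_span_eq k
    {v | ∃ F, (F ∈ I ∧ ∃ d, F.IsHomogeneous d) ∧ v = grad F x}
  rw [h2] at h3
  obtain ⟨v, hv, hv2, hv3⟩ := h3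
  choose F hF hFv using hv
  have hli : LinearIndependent k (Fin.cons (grad G x) v : Fin (c + 1) → ι → k) :=
    linearIndependent_finCons.2 ⟨hv3, by rw [hv2]; exact h1⟩
  obtain ⟨σ, hσ⟩ := exists_minor_ne_zero
    (Matrix.of (Fin.cons (grad G x) v : Fin (c + 1) → ι → k)) hli
  apply hσ
  have h4 := hx _ (Ideal.subset_span (Or.inr (Or.inr (Or.inr ⟨F, σ, hF, rfl⟩))))
  unfold detP at h4
  rw [map_det_consM] at h4
  rw [← h4]
  congr 1
  ext a b
  refine Fin.cases ?_ (fun i => ?_) a
  · simp [consM_zero, grad]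
  · simp [consM_succ, hFv, grad]

theorem exists_pow_mem_tanL {I : Ideal (MvPolynomial ι k)} (hI : HomI I) {c : ℕ} {κ : Type*}
    {lf : κ → MvPolynomial ι k} {G : MvPolynomial ι k}
    (htrans : ∀ x ∈ zs I, x ≠ 0 → (∀ i, eval x (lf i) = 0) → eval x G = 0 →
      Module.finrank k (conormal I x) = c ∧ grad G x ∉ conormal I x) (i : ι) :
    ∃ M : ℕ, (X i : MvPolynomial ι k) ^ M ∈ tanL I c lf G := by
  have h1 : (X i : MvPolynomial ι k) ∈ (tanL I c lf G).radical := by
    rw [← vanishingIdeal_zeroLocus_eq_radical (K := k), mem_vanishingIdeal_iff]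
    intro x hx
    have h2 : x = 0 := zero_of_mem_zs_tanL hI htrans (fun G hG => hx G hG)
    rw [h2]; simp
  exact h1

/-- **Specialization.** A point of a linear section at which a member of the linear system is
conormal cannot specialize. -/
theorem specialization' {I : Ideal (MvPolynomial ι k)} (hI : HomI I) {c : ℕ}
    {κ : Type*} {lf : κ → MvPolynomial ι k} (hlf : ∀ i, (lf i).IsHomogeneous 1)
    {α : Type*} [Fintype α] {s : α → MvPolynomial ι k} {e : ℕ} (hs : ∀ a, (s a).IsHomogeneous e)
    {p : α → k}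
    (htrans : ∀ x ∈ zs I, x ≠ 0 → (∀ i, eval x (lf i) = 0) → eval x (mem' s p) = 0 →
      Module.finrank k (conormal I x) = c ∧ grad (mem' s p) x ∉ conormal I x)
    {E : Type*} [Field E] [Algebra k E] {η : α → E} {xb : ι → E} (hxb : ∀ F ∈ I, aeval xb F = 0)
    (hx0 : xb ≠ 0) (hη : ∀ P : MvPolynomial α k, eval p P ≠ 0 → aeval η P ≠ 0)
    (h1 : ∑ a, η a * aeval xb (s a) = 0) (hlx : ∀ i, aeval xb (lf i) = 0)
    (h2 : ∀ (F : Fin c → MvPolynomial ι k) (σ : Fin (c + 1) → ι),
      (∀ a, F a ∈ I ∧ ∃ d, (F a).IsHomogeneous d) →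
      (consM (fun b => ∑ a, η a * aeval xb (pderiv (σ b) (s a)))
        fun i b => aeval xb (pderiv (σ b) (F i))).det = 0) : False := by
  classical
  set m : Ideal (MvPolynomial α k) := RingHom.ker (eval p) with hm
  have hmprime : m.IsPrime := RingHom.ker_isPrime _
  set g : MvPolynomial α k →+* E := (aeval η : MvPolynomial α k →ₐ[k] E).toRingHom with hg
  have hunit : ∀ y : m.primeCompl, IsUnit (g y) := by
    intro y
    rw [isUnit_iff_ne_zero]
    exact hη _ y.2
  let f : Localization.AtPrime m →+* E := IsLocalization.lift (M := m.primeCompl) hunit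
  have hf : ∀ P, f (algebraMap (MvPolynomial α k) (Localization.AtPrime m) P) = aeval η P :=
    fun P => IsLocalization.lift_eq hunit P
  obtain ⟨V, hV, hloc⟩ := IsLocalRing.exists_factor_valuationRing f
  let fV : Localization.AtPrime m →+* V := f.codRestrict V.toSubring hV
  let ρ : V →+* IsLocalRing.ResidueField V := IsLocalRing.residue V
  let G : MvPolynomial α k →+* V := fV.comp (algebraMap _ _)
  have hG : ∀ P, ((G P : V) : E) = aeval η P := fun P => by
    change f (algebraMap (MvPolynomial α k) (Localization.AtPrime m) P) = _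
    exact hf P
  have hGm : ∀ P ∈ m, ρ (G P) = 0 := by
    intro P hP
    rw [IsLocalRing.residue_eq_zero_iff]
    rw [IsLocalRing.mem_maximalIdeal, mem_nonunits_iff]
    intro hu
    have h3 : IsUnit (algebraMap (MvPolynomial α k) (Localization.AtPrime m) P) :=
      hloc.map_nonunit _ hu
    exact ((IsLocalization.AtPrime.isUnit_to_map_iff _ m P).1 h3) hP
  -- scale the point
  obtain ⟨j, hj⟩ : ∃ j, xb j ≠ 0 := by
    by_contra hcon
    push Not at hcon
    exact hx0 (funext hcon)
  obtain ⟨i₀, -, hi₀⟩ := Finset.exists_max_image Finset.univ (fun i => V.valuation (xb i))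
    ⟨j, Finset.mem_univ j⟩
  have hi₀0 : xb i₀ ≠ 0 := by
    intro h0
    have h3 := hi₀ j (Finset.mem_univ j)
    rw [h0, map_zero, le_zero_iff, map_eq_zero] at h3
    exact hj h3
  set l : E := (xb i₀)⁻¹ with hl
  have hzV : ∀ i, l * xb i ∈ V := by
    intro i
    rw [← V.valuation_le_one_iff, map_mul, hl, map_inv₀]
    have h3 := hi₀ i (Finset.mem_univ i)
    have h4 : V.valuation (xb i₀) ≠ 0 := by rwa [Ne, map_eq_zero]
    calc (V.valuation (xb i₀))⁻¹ * V.valuation (xb i) ≤
          (V.valuation (xb i₀))⁻¹ * V.valuation (xb i₀) := mul_le_mul_right h3 _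
      _ = 1 := inv_mul_cancel₀ h4
  let zV : ι → V := fun i => ⟨l * xb i, hzV i⟩
  let θ : k →+* V := G.comp C
  let H : MvPolynomial ι k →+* V := eval₂Hom θ zV
  have hθ : ∀ a, ((θ a : V) : E) = algebraMap k E a := by
    intro a
    change ((G (C a) : V) : E) = _
    rw [hG, aeval_C]
  have hHC : ∀ a, H (C a) = θ a := fun a => eval₂Hom_C _ _ _
  have hH : ∀ F, ((H F : V) : E) = aeval (fun i => l * xb i) F := by
    intro F
    have h3 : V.subtype.comp H = (aeval (fun i => l * xb i) : MvPolynomial ι k →ₐ[k] E).toRingHom := by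
      apply MvPolynomial.ringHom_ext
      · intro a
        change ((H (C a) : V) : E) = aeval (fun i => l * xb i) (C a)
        rw [aeval_C, ← hθ, hHC]
      · intro i
        change ((H (X i) : V) : E) = aeval (fun i => l * xb i) (X i)
        rw [aeval_X]
        have : H (X i) = zV i := eval₂Hom_X' _ _ _
        rw [this]
    exact RingHom.congr_fun h3 F
  have hVzero : ∀ a : V, ((a : V) : E) = 0 → a = 0 := fun a ha => Subtype.ext ha
  have hρX : ∀ i, ρ (G (X i)) = ρ (θ (p i)) := by
    intro i
    have h3 := hGm (X i - C (p i)) (by rw [hm, RingHom.mem_ker]; simp)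
    rw [map_sub, map_sub, sub_eq_zero] at h3
    exact h3
  have hker : tanL I c lf (mem' s p) ≤ RingHom.ker (ρ.comp H) := by
    unfold tanL
    rw [Ideal.span_le]
    rintro P (hP | ⟨i, rfl⟩ | hP | ⟨F, σ, hF, rfl⟩)
    · have h3 : H P = 0 := hVzero _ (by rw [hH]; exact aeval_scale_eq_zero hI hxb l hP)
      change (ρ.comp H) P = 0
      rw [RingHom.comp_apply, h3, map_zero]
    · have h3 : H (lf i) = 0 := hVzero _ (by rw [hH, aeval_scale (hlf i), hlx, mul_zero])
      change (ρ.comp H) (lf i) = 0
      rw [RingHom.comp_apply, h3, map_zero]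
    · rw [Set.mem_singleton_iff] at hP
      subst hP
      change (ρ.comp H) (mem' s p) = 0
      have h3 : ∑ a, G (X a) * H (s a) = 0 := by
        apply hVzero
        rw [AddSubmonoidClass.coe_finsetSum]
        have h4 : ∀ a, ((G (X a) * H (s a) : V) : E) = l ^ e * (η a * aeval xb (s a)) := by
          intro a
          change ((G (X a) : V) : E) * ((H (s a) : V) : E) = _
          rw [hG, aeval_X, hH, aeval_scale (hs a)]; ring
        rw [Finset.sum_congr rfl fun i _ => h4 i, ← Finset.mul_sum, h1, mul_zero]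
      have h4 := congrArg ρ h3
      rw [map_sum, map_zero] at h4
      unfold mem'
      rw [map_sum, ← h4]
      refine Finset.sum_congr rfl fun i _ => ?_
      rw [map_mul, map_mul, hρX]
      congr 1
      change ρ (H (C (p i))) = _
      rw [hHC]
    · change (ρ.comp H) (detP (mem' s p) F σ) = 0
      unfold detP
      rw [map_det_consM]
      have h3 : (consM (fun b => ∑ a, G (X a) * H (pderiv (σ b) (s a)))
          fun i b => H (pderiv (σ b) (F i))).det = 0 := by
        apply hVzero
        have h4 := map_det_consM V.subtype (fun b => ∑ a, G (X a) * H (pderiv (σ b) (s a)))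
          (fun i b => H (pderiv (σ b) (F i)))
        have h5 : (fun b => V.subtype (∑ a, G (X a) * H (pderiv (σ b) (s a)))) =
            fun b => l ^ (e - 1) * ∑ a, η a * aeval xb (pderiv (σ b) (s a)) := by
          funext b
          rw [map_sum, Finset.mul_sum]
          refine Finset.sum_congr rfl fun a _ => ?_
          change ((G (X a) : V) : E) * ((H (pderiv (σ b) (s a)) : V) : E) = _
          rw [hG, aeval_X, hH, aeval_scale (hs a).pderiv]; ring
        choose d hd using fun a => (hF a).2
        have h6 : (fun i b => V.subtype (H (pderiv (σ b) (F i)))) =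
            fun i b => l ^ (d i - 1) * aeval xb (pderiv (σ b) (F i)) := by
          funext i b
          change ((H (pderiv (σ b) (F i)) : V) : E) = _
          rw [hH, aeval_scale (hd i).pderiv]
        have h7 : (consM (fun b => l ^ (e - 1) * ∑ a, η a * aeval xb (pderiv (σ b) (s a)))
            fun i b => aeval xb (pderiv (σ b) (F i))).det = 0 := by
          have h8 := h2 F σ hF
          rw [det_consM] at h8 ⊢
          have h9 : ∀ j, l ^ (e - 1) * (∑ a, η a * aeval xb (pderiv (σ j) (s a))) *
              ((-1) ^ (j : ℕ) * (Matrix.of fun (a b : Fin c) =>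
                aeval xb (pderiv (σ (j.succAbove b)) (F a))).det) = l ^ (e - 1) *
              ((∑ a, η a * aeval xb (pderiv (σ j) (s a))) *
              ((-1) ^ (j : ℕ) * (Matrix.of fun (a b : Fin c) =>
                aeval xb (pderiv (σ (j.succAbove b)) (F a))).det)) := fun j => by ring
          rw [Finset.sum_congr rfl fun j _ => h9 j, ← Finset.mul_sum, h8, mul_zero]
        rw [h5, h6, det_consM_scale, h7, mul_zero] at h4
        exact h4
      have h4 := congrArg ρ h3
      rw [map_det_consM, map_zero] at h4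
      rw [← h4]
      congr 1
      congr 1
      funext b
      unfold mem'
      rw [map_sum, map_sum, map_sum]
      refine Finset.sum_congr rfl fun a _ => ?_
      rw [pderiv_C_mul, map_mul, map_mul, hρX]
      change ρ (H (C (p a))) * _ = _
      rw [hHC]
      rfl
  obtain ⟨M, hM⟩ := exists_pow_mem_tanL hI htrans i₀
  have h3 := hker hM
  rw [RingHom.mem_ker, RingHom.comp_apply, map_pow, map_pow] at h3
  have h4 : H (X i₀) = 1 := by
    apply Subtype.ext
    rw [hH, aeval_X, hl, inv_mul_cancel₀ hi₀0]
    rfl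
  rw [h4, map_one, one_pow] at h3
  exact one_ne_zero h3

end

end Pool.Agent.Helper11
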