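import Pool.Agent.Helper11.LinAvoid

/-! The exceptional set of a prime ideal, for generically reduced members -/

set_option linter.unusedSectionVars false

namespace Pool.Agent.Helper11

open MvPolynomial

universe u w

/-- the member `p` of the linear system is a divisor of `X`, and each of its components contains
a smooth point of it which is a smooth point of `X` -/
def RedMem {k ι α : Type*} [Field k] [Fintype ι] [Fintype α] (I : Ideal (MvPolynomial ι k))
    (c : ℕ) (s : α → MvPolynomial ι k) (p : α → k) : Prop :=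
  ∀ 𝔮 ∈ (I ⊔ Ideal.span {mem' s p}).minimalPrimes, ∃ x ∈ zs 𝔮, x ≠ 0 ∧
    Module.finrank k (conormal I x) = c ∧ grad (mem' s p) x ∉ conormal I x

theorem RedMem.notMem {k ι α : Type*} [Field k] [Fintype ι] [Fintype α]
    {I : Ideal (MvPolynomial ι k)} {c : ℕ} {s : α → MvPolynomial ι k} {p : α → k}
    (h : RedMem I c s p) (hI : I.IsPrime) : mem' s p ∉ I := by
  intro hmem
  have h1 : I ⊔ Ideal.span {mem' s p} = I := by
    rw [sup_eq_left, Ideal.span_singleton_le_iff_mem]
    exact hmem
  have h2 := h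
  unfold RedMem at h2
  rw [h1, Ideal.minimalPrimes_eq_subsingleton_self] at h2
  obtain ⟨x, hx, _, _, h3⟩ := h2 I (Set.mem_singleton I)
  exact h3 (Submodule.subset_span ⟨_, hmem, rfl⟩)

theorem exists_Z_prime' {k : Type u} {ι α : Type*} [Field k] [Fintype ι] [Fintype α]
    [IsAlgClosed k] [CharZero k] {I : Ideal (MvPolynomial ι k)} (hIp : I.IsPrime) (hI : HomI I)
    {c e : ℕ} (hc : Fintype.card ι ≤ c + tdeg I) (hd : 2 ≤ tdeg I) {s : α → MvPolynomial ι k}
    (hs : ∀ a, (s a).IsHomogeneous e) {p : α → k} (hred : RedMem I c s p)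
    {q : Ideal (MvPolynomial α k)} (hq : q.IsPrime) (hqh : HomI q) (hpq : p ∈ zs q) :
    ∃ (d : ℕ) (Z : MvPolynomial ι k), Z.IsHomogeneous d ∧ Z ∉ I ∧
      ∀ (L : Type w) [Field L] [Algebra k L] [FunField k L] (t : L) (ht : Transcendental k t)
        (f : ι → L), (∀ F ∈ I, aeval f F = 0) → aeval f Z ≠ 0 →
        Good q (fun a => aeval f (s a)) (fun a => der ht (aeval f (s a))) := by
  classical
  have hGI := hred.notMem hIp
  have hp0 : p ≠ 0 := by
    rintro rfl
    apply hGI
    have : mem' s (0 : α → k) = 0 := by simp [mem']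
    rw [this]
    exact zero_mem _
  have htd : 1 ≤ tdeg q := one_le_tdeg hq hqh hpq hp0
  obtain ⟨z, hz⟩ := exists_aim hq
  have hmem : (mem' s p).IsHomogeneous e := by
    unfold mem'
    refine IsHomogeneous.sum _ _ _ fun a _ => ?_
    have := (isHomogeneous_C ι (p a)).mul (hs a)
    rwa [zero_add] at this
  obtain ⟨lf, hlf, hlf2⟩ := exists_linear_smooth (D := tdeg I - 2) hIp hI hc hmem (by omega)
    hred hGI
  have hcert : ∀ i : Fin (tdeg q), ∃ (d : ℕ) (H : MvPolynomial {j : Fin (tdeg q) // j ≠ i}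
      (MvPolynomial ι k)), (∀ m, (coeff m H).IsHomogeneous d) ∧ (∃ m, coeff m H ∉ I) ∧
      theta (fun j : {j : Fin (tdeg q) // j ≠ i} => genPt q (z j)) H ∈ cc I s (genPt q) := by
    intro i
    refine exists_cert (K := FractionRing (MvPolynomial α k ⧸ q)) hs hIp hI hc (κ := Fin (tdeg I - 2))
      (lf := lf) hlf (by rw [Fintype.card_fin]; omega) (p := p) hlf2 (trdeg_fractionRing q)
      (genPt q) ?_ _ ?_
    · intro P hP
      rw [aeval_genPt] at hP
      have h1 : Ideal.Quotient.mk q P = 0 :=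
        (map_eq_zero_iff _ (IsFractionRing.injective _ _)).1 hP
      exact hpq P (Ideal.Quotient.eq_zero_iff_mem.1 h1)
    · rw [Fintype.card_subtype_compl, Fintype.card_fin, Fintype.card_subtype_eq]
      omega
  choose d H hHd hHm hHth using hcert
  choose m hm using hHm
  refine ⟨∑ i, d i, ∏ i, coeff (m i) (H i), IsHomogeneous.prod _ _ _ fun i _ => hHd i (m i),
    ?_, ?_⟩
  · intro h
    rw [hIp.prod_mem_iff] at h
    obtain ⟨i, _, h⟩ := h
    exact hm i h
  · intro L _ _ _ t ht f hf hfZ
    rw [map_prod, Finset.prod_ne_zero_iff] at hfZ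
    exact good_of_cert s hz htd ht f hf H m hHth fun i => hfZ i (Finset.mem_univ i)

end Pool.Agent.Helper11
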