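import Pool.Agent.Helper11.UnitEq

set_option linter.unusedSectionVars false

namespace Pool.Agent.Helper11

section Hit

variable {k L : Type*} [Field k] [Field L] [Algebra k L] [FunField k L] [CharZero k]
  [IsAlgClosed k]

/-- the places at which the point `u` meets the hyperplane with coefficients `α` (both in
homogeneous coordinates over `L`). -/
def hitPlaces (k : Type*) {L : Type*} [Field k] [Field L] [Algebra k L] {n : ℕ}
    (α u : Fin n → L) : Set (Place k L) :=
  {v | v.minOrd α + v.minOrd u < v.ord (∑ i, α i * u i)}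

theorem minOrd_add_le_ord_sum {n : ℕ} (v : Place k L) {α u : Fin n → L}
    (h : ∑ i, α i * u i ≠ 0) : v.minOrd α + v.minOrd u ≤ v.ord (∑ i, α i * u i) := by
  refine v.le_ord_of_mem (v.sum_mem_ge _ _ _ fun i _ => ?_) h
  exact v.mul_mem_ge (v.mem_ge_minOrd α i) (v.mem_ge_minOrd u i)

theorem hitPlaces_card_le {n : ℕ} {α u : Fin n → L} (h : ∑ i, α i * u i ≠ 0) :
    (hitPlaces k α u).Finite ∧ ((hitPlaces k α u).ncard : ℤ) ≤ htP k α + htP k u := by
  have hfin1 := supp_minOrd (k := k) α
  have hfin2 := supp_minOrd (k := k) u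
  have hfin3 := supp_ord (k := k) (∑ i, α i * u i)
  have hg : {v : Place k L | (v.ord (∑ i, α i * u i) + ((-v.minOrd α) + (-v.minOrd u))) ≠ 0}.Finite :=
    supp_add hfin3 (supp_add (by simpa using hfin1) (by simpa using hfin2))
  have hfin : (hitPlaces k α u).Finite := by
    refine hg.subset fun v hv => ?_
    have hv' : v.minOrd α + v.minOrd u < v.ord (∑ i, α i * u i) := hv
    show v.ord (∑ i, α i * u i) + ((-v.minOrd α) + (-v.minOrd u)) ≠ 0
    omega
  refine ⟨hfin, ?_⟩
  classical
  rw [← fs_ind hfin]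
  have h1 : ∑ᶠ v : Place k L, (v.ord (∑ i, α i * u i) + ((-v.minOrd α) + (-v.minOrd u))) =
      htP k α + htP k u := by
    rw [fs_add hfin3 (supp_add (by simpa using hfin1) (by simpa using hfin2)),
      fs_add (by simpa using hfin1) (by simpa using hfin2), finsum_ord, zero_add]
    rfl
  rw [← h1]
  refine fs_mono (supp_ind hfin) hg fun v => ?_
  have h2 := minOrd_add_le_ord_sum v h
  split_ifs with hv
  · have hv' : v.minOrd α + v.minOrd u < v.ord (∑ i, α i * u i) := hv
    omega
  · omega

theorem htP_le_sum_ht {n : ℕ} (α : Fin n → L) : htP k α ≤ ∑ i, ht k (α i) := by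
  unfold htP ht
  rw [← fs_sum _ _ (fun i _ => supp_negpart (α i))]
  refine fs_mono (by simpa using supp_minOrd (k := k) α)
    (supp_sum _ _ fun i _ => supp_negpart (α i)) fun v => ?_
  by_cases hx : ∃ i, α i ≠ 0
  · obtain ⟨i, _, hi⟩ := v.exists_minOrd α hx
    rw [hi]
    refine (le_max_right 0 _).trans ?_
    exact Finset.single_le_sum (f := fun i => max 0 (-v.ord (α i))) (fun _ _ => le_max_left _ _)
      (Finset.mem_univ i)
  · have h1 : {n : ℤ | ∃ i, α i ≠ 0 ∧ n = v.ord (α i)} = ∅ := by
      ext n
      simp only [Set.mem_ofPred_eq, Set.mem_empty_iff_false, iff_false]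
      rintro ⟨i, hi, _⟩
      exact hx ⟨i, hi⟩
    have h2 : v.minOrd α = 0 := by
      unfold Place.minOrd
      rw [h1, Int.csInf_empty]
    rw [h2, neg_zero]
    exact Finset.sum_nonneg fun _ _ => le_max_left _ _

end Hit

section

variable {k F L : Type*} [Field k] [Field F] [Field L] [Algebra k F] [Algebra k L] [Algebra F L]
  [IsScalarTower k F L] [FunField k F] [FunField k L] [CharZero k] [IsAlgClosed k]
  [FiniteDimensional F L]

theorem htP_algebraMap_le {n : ℕ} (α : Fin n → F) :
    htP k (fun i => algebraMap F L (α i)) ≤ (Module.finrank F L : ℤ) * ∑ i, ht k (α i) := by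
  refine (htP_le_sum_ht _).trans ?_
  rw [Finset.mul_sum]
  exact Finset.sum_le_sum fun i _ => (ht_ext (α i)).le

/-- the linear form with coefficients `α` -/
noncomputable def linForm {R : Type*} [CommRing R] {n : ℕ} (α : Fin n → R) :
    MvPolynomial (Fin n) R :=
  ∑ i, MvPolynomial.C (α i) * MvPolynomial.X i

theorem aeval_linForm {n : ℕ} (α : Fin n → F) (u : Fin n → L) :
    MvPolynomial.aeval u (linForm α) = ∑ i, algebraMap F L (α i) * u i := by
  unfold linForm
  rw [map_sum]
  refine Finset.sum_congr rfl fun i _ => ?_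
  rw [map_mul, MvPolynomial.aeval_C, MvPolynomial.aeval_X]

theorem coeff_linForm {R : Type*} [CommRing R] {n : ℕ} (α : Fin n → R) (a : Fin n →₀ ℕ) :
    MvPolynomial.coeff a (linForm α) = ∑ i, if Finsupp.single i 1 = a then α i else 0 := by
  classical
  unfold linForm
  rw [MvPolynomial.coeff_sum]
  refine Finset.sum_congr rfl fun i _ => ?_
  rw [MvPolynomial.coeff_C_mul, MvPolynomial.coeff_X, mul_ite, mul_one, mul_zero]

theorem linForm_support {R : Type*} [CommRing R] {n : ℕ} (α : Fin n → R) {a : Fin n →₀ ℕ}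
    (ha : a ∈ (linForm α).support) : ∃ i, a = Finsupp.single i 1 := by
  classical
  rw [MvPolynomial.mem_support_iff, coeff_linForm] at ha
  by_contra hcon
  push Not at hcon
  apply ha
  refine Finset.sum_eq_zero fun i _ => if_neg fun h => hcon i h.symm

theorem linForm_ne_zero {R : Type*} [CommRing R] {n : ℕ} {α : Fin n → R} (hα : α ≠ 0) :
    linForm α ≠ 0 := by
  classical
  intro h
  apply hα
  funext i
  have h1 := congrArg (MvPolynomial.coeff (Finsupp.single i 1)) h
  rw [coeff_linForm, MvPolynomial.coeff_zero] at h1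
  rw [Finset.sum_eq_single i] at h1
  · simpa using h1
  · intro j _ hj
    rw [if_neg]
    intro h2
    exact hj (Finsupp.single_left_injective one_ne_zero h2)
  · simp

end

end Pool.Agent.Helper11
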