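import Pool.Agent.Helper11.HilbDefs

/-! The growth of the Hilbert function of an ideal (standard monomials and double counting) -/

set_option linter.unusedSectionVars false

namespace Pool.Agent.Helper11

open MvPolynomial

section greedyBasis

variable {k V τ : Type*} [Field k] [AddCommGroup V] [Module k V] [LinearOrder τ]

/-- the indices of the vectors which are not combinations of the previous ones -/
noncomputable def stdSet (v : τ → V) (T : Finset τ) : Finset τ := by
  classical
  exact T.filter fun w => v w ∉ Submodule.span k (v '' {u | u ∈ T ∧ u < w})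

theorem mem_stdSet (v : τ → V) (T : Finset τ) (w : τ) :
    w ∈ stdSet (k := k) v T ↔ w ∈ T ∧ v w ∉ Submodule.span k (v '' {u | u ∈ T ∧ u < w}) := by
  classical
  unfold stdSet
  rw [Finset.mem_filter]

theorem stdSet_spec (v : τ → V) (T : Finset τ) :
    LinearIndepOn k v (stdSet (k := k) v T : Set τ) ∧
      Submodule.span k (v '' (stdSet (k := k) v T : Set τ)) = Submodule.span k (v '' (T : Set τ)) := by
  classical
  induction T using Finset.induction_on_max with
  | empty =>
    have h : stdSet (k := k) v (∅ : Finset τ) = ∅ := by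
      ext w
      rw [mem_stdSet]
      simp
    rw [h]
    simp
  | insert a S hS ih =>
    have haS : a ∉ S := fun h => lt_irrefl _ (hS a h)
    have hset : ∀ w ∈ S, {u | u ∈ insert a S ∧ u < w} = {u | u ∈ S ∧ u < w} := by
      intro w hw
      ext u
      simp only [Set.mem_ofPred_eq, Finset.mem_insert]
      constructor
      · rintro ⟨rfl | h, hlt⟩
        · exact absurd (hlt.trans (hS w hw)) (lt_irrefl _)
        · exact ⟨h, hlt⟩
      · rintro ⟨h, hlt⟩
        exact ⟨Or.inr h, hlt⟩
    have hseta : {u | u ∈ insert a S ∧ u < a} = (S : Set τ) := by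
      ext u
      simp only [Set.mem_ofPred_eq, Finset.mem_insert, Finset.mem_coe]
      constructor
      · rintro ⟨rfl | h, hlt⟩
        · exact absurd hlt (lt_irrefl _)
        · exact h
      · intro h
        exact ⟨Or.inr h, hS u h⟩
    by_cases hmem : v a ∈ Submodule.span k (v '' (S : Set τ))
    · have hstd : stdSet (k := k) v (insert a S) = stdSet (k := k) v S := by
        ext w
        rw [mem_stdSet, mem_stdSet]
        constructor
        · rintro ⟨h1, h2⟩
          rw [Finset.mem_insert] at h1
          rcases h1 with rfl | h1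
          · rw [hseta] at h2
            exact absurd hmem h2
          · rw [hset w h1] at h2
            exact ⟨h1, h2⟩
        · rintro ⟨h1, h2⟩
          exact ⟨Finset.mem_insert_of_mem h1, by rwa [hset w h1]⟩
      rw [hstd]
      refine ⟨ih.1, ih.2.trans ?_⟩
      rw [Finset.coe_insert, Set.image_insert_eq, Submodule.span_insert_eq_span hmem]
    · have hstd : stdSet (k := k) v (insert a S) = insert a (stdSet (k := k) v S) := by
        ext w
        rw [Finset.mem_insert, mem_stdSet, mem_stdSet]
        constructor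
        · rintro ⟨h1, h2⟩
          rw [Finset.mem_insert] at h1
          rcases h1 with rfl | h1
          · exact Or.inl rfl
          · rw [hset w h1] at h2
            exact Or.inr ⟨h1, h2⟩
        · rintro (rfl | ⟨h1, h2⟩)
          · exact ⟨Finset.mem_insert_self _ _, by rwa [hseta]⟩
          · exact ⟨Finset.mem_insert_of_mem h1, by rwa [hset w h1]⟩
      have ha' : a ∉ (stdSet (k := k) v S : Set τ) := by
        intro h
        rw [Finset.mem_coe, mem_stdSet] at h
        exact haS h.1
      rw [hstd]
      constructor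
      · rw [Finset.coe_insert, linearIndepOn_insert ha']
        exact ⟨ih.1, by rwa [ih.2]⟩
      · rw [Finset.coe_insert, Finset.coe_insert, Set.image_insert_eq, Set.image_insert_eq,
          Submodule.span_insert, Submodule.span_insert, ih.2]

theorem card_stdSet (v : τ → V) (T : Finset τ) :
    (stdSet (k := k) v T).card = Module.finrank k (Submodule.span k (v '' (T : Set τ))) := by
  classical
  obtain ⟨h1, h2⟩ := stdSet_spec (k := k) v T
  rw [← h2, ← Fintype.card_coe]
  have h3 : LinearIndependent k fun w : stdSet (k := k) v T => v w := h1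
  have h4 := finrank_span_eq_card h3
  have h5 : Set.range (fun w : stdSet (k := k) v T => v w) =
      v '' (stdSet (k := k) v T : Set τ) := by
    ext x
    simp
  rw [← h5, h4]

end greedyBasis

section hilbert

variable {k ι : Type*} [Field k] [Fintype ι]

/-- the exponents of degree `j` -/
noncomputable def expoSet (ι : Type*) [Fintype ι] (j : ℕ) : Finset (Lex (ι →₀ ℕ)) := by
  classical
  exact ((Finset.univ : Finset ι).finsuppAntidiag j).map toLex.toEmbedding

theorem mem_expoSet {j : ℕ} {w : Lex (ι →₀ ℕ)} : w ∈ expoSet ι j ↔ ∑ i, (ofLex w : ι →₀ ℕ) i = j := by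
  classical
  unfold expoSet
  rw [Finset.mem_map]
  constructor
  · rintro ⟨a, ha, rfl⟩
    rw [Finset.mem_finsuppAntidiag] at ha
    exact ha.1
  · intro h
    refine ⟨ofLex w, ?_, rfl⟩
    rw [Finset.mem_finsuppAntidiag]
    exact ⟨h, Finset.subset_univ _⟩

theorem degree_eq_sum' (w : ι →₀ ℕ) : w.degree = ∑ i, w i := by
  rw [Finsupp.degree_apply]
  exact Finset.sum_subset (Finset.subset_univ _) fun i _ hi => Finsupp.notMem_support_iff.1 hi

/-- the class of a monomial -/
noncomputable def monoC (I : Ideal (MvPolynomial ι k)) (w : Lex (ι →₀ ℕ)) :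
    MvPolynomial ι k ⧸ I := Ideal.Quotient.mk I (monomial (ofLex w) 1)

theorem gr_eq_span (I : Ideal (MvPolynomial ι k)) (j : ℕ) :
    gr I j = Submodule.span k (monoC I '' (expoSet ι j : Set (Lex (ι →₀ ℕ)))) := by
  apply le_antisymm
  · rintro _ ⟨P, hP, rfl⟩
    have hP' : P.IsHomogeneous j := hP
    have h1 : (Ideal.Quotient.mkₐ k I).toLinearMap P =
        ∑ d ∈ P.support, P.coeff d • Ideal.Quotient.mk I (monomial d (1 : k)) := by
      conv_lhs => rw [P.as_sum, map_sum]
      refine Finset.sum_congr rfl fun d _ => ?_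
      have h2 : monomial d (P.coeff d) = P.coeff d • monomial d (1 : k) := by
        rw [smul_monomial, smul_eq_mul, mul_one]
      rw [h2, map_smul]
      rfl
    rw [h1]
    refine Submodule.sum_mem _ fun d hd => Submodule.smul_mem _ _ (Submodule.subset_span ?_)
    refine ⟨toLex d, ?_, rfl⟩
    rw [Finset.mem_coe, mem_expoSet]
    have hdeg : d.degree = j := by
      have := hP' (mem_support_iff.1 hd)
      rwa [Finsupp.degree_eq_weight_one]
    rw [← hdeg, degree_eq_sum']
    rfl
  · rw [Submodule.span_le]
    rintro _ ⟨w, hw, rfl⟩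
    rw [Finset.mem_coe, mem_expoSet] at hw
    refine ⟨monomial (ofLex w) 1, ?_, rfl⟩
    apply isHomogeneous_monomial
    rw [degree_eq_sum', hw]

/-- the growth of the Hilbert function is at most that of the polynomial ring -/
theorem hilb_succ_le (I : Ideal (MvPolynomial ι k)) (j : ℕ) :
    (j + 1) * hilb I (j + 1) ≤ (j + Fintype.card ι) * hilb I j := by
  classical
  let _ : LinearOrder ι := linearOrderOfSTO WellOrderingRel
  set B : ℕ → Finset (Lex (ι →₀ ℕ)) := fun j => stdSet (k := k) (monoC I) (expoSet ι j) with hB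
  have hcard : ∀ j, (B j).card = hilb I j := by
    intro j
    rw [hB]
    simp only
    rw [card_stdSet, ← gr_eq_span]
    rfl
  -- the standard monomials are stable under division
  have hdiv : ∀ w ∈ B (j + 1), ∀ i, 1 ≤ (ofLex w : ι →₀ ℕ) i →
      toLex (ofLex w - Finsupp.single i 1) ∈ B j := by
    intro w hw i hi
    have hw' := (mem_stdSet _ _ _).1 hw
    have hwdeg := mem_expoSet.1 hw'.1
    have hle : Finsupp.single i 1 ≤ ofLex w := by
      rw [Finsupp.single_le_iff]; exact hi
    set u : ι →₀ ℕ := ofLex w - Finsupp.single i 1 with hu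
    have huw : u + Finsupp.single i 1 = ofLex w := tsub_add_cancel_of_le hle
    have hudeg : ∑ l, u l = j := by
      have h1 : ∑ l, (u + Finsupp.single i 1 : ι →₀ ℕ) l = j + 1 := by rw [huw]; exact hwdeg
      simp only [Finsupp.add_apply, Finset.sum_add_distrib] at h1
      have h2 : ∑ l, (Finsupp.single i 1 : ι →₀ ℕ) l = 1 := by
        rw [Finset.sum_eq_single i]
        · simp
        · intro l _ hl
          rw [Finsupp.single_eq_of_ne hl]
        · intro h; exact absurd (Finset.mem_univ _) h
      omega
    refine (mem_stdSet _ _ _).2 ⟨mem_expoSet.2 hudeg, fun hcon => hw'.2 ?_⟩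
    -- multiply by the variable
    let f : (MvPolynomial ι k ⧸ I) →ₗ[k] (MvPolynomial ι k ⧸ I) :=
      LinearMap.mulLeft k (Ideal.Quotient.mk I (X i))
    have hf : ∀ x : Lex (ι →₀ ℕ), f (monoC I x) = monoC I (toLex (ofLex x + Finsupp.single i 1)) := by
      intro x
      have h0 : ∀ y : ι →₀ ℕ, monoC I (toLex y) = Ideal.Quotient.mk I (monomial y 1) :=
        fun y => rfl
      have h00 : monoC I x = Ideal.Quotient.mk I (monomial (ofLex x) 1) := rfl
      rw [h0, h00, LinearMap.mulLeft_apply, ← map_mul, X, monomial_mul, one_mul, add_comm]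
    have h1 : monoC I w = f (monoC I (toLex u)) := by
      rw [hf]
      congr 1
      change w = toLex (u + Finsupp.single i 1)
      rw [huw]
      rfl
    rw [h1]
    have h2 : f (monoC I (toLex u)) ∈ (Submodule.span k (monoC I ''
        {x | x ∈ expoSet ι j ∧ x < toLex u})).map f := Submodule.mem_map_of_mem hcon
    rw [Submodule.map_span] at h2
    refine Submodule.span_mono ?_ h2
    rintro _ ⟨_, ⟨x, ⟨hx1, hx2⟩, rfl⟩, rfl⟩
    refine ⟨toLex (ofLex x + Finsupp.single i 1), ⟨?_, ?_⟩, (hf x).symm⟩
    · rw [mem_expoSet] at hx1 ⊢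
      change ∑ l, ((ofLex x : ι →₀ ℕ) + Finsupp.single i 1 : ι →₀ ℕ) l = j + 1
      simp only [Finsupp.add_apply, Finset.sum_add_distrib]
      have h2 : ∑ l, (Finsupp.single i 1 : ι →₀ ℕ) l = 1 := by
        rw [Finset.sum_eq_single i]
        · simp
        · intro l _ hl
          rw [Finsupp.single_eq_of_ne hl]
        · intro h; exact absurd (Finset.mem_univ _) h
      rw [hx1, h2]
    · have h3 : x + toLex (Finsupp.single i 1) < toLex u + toLex (Finsupp.single i 1) :=
        add_lt_add_left hx2 _
      have h4 : toLex u + toLex (Finsupp.single i 1) = w := by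
        change toLex (u + Finsupp.single i 1) = w
        rw [huw]; rfl
      rw [h4] at h3
      exact h3
  -- double counting
  have h1 : ∀ i, ∑ w ∈ B (j + 1), (ofLex w : ι →₀ ℕ) i ≤ ∑ u ∈ B j, ((ofLex u : ι →₀ ℕ) i + 1) := by
    intro i
    have h2 : ∑ w ∈ B (j + 1), (ofLex w : ι →₀ ℕ) i = ∑ w ∈ (B (j + 1)).filter (fun w => 1 ≤ (ofLex w : ι →₀ ℕ) i),
        (ofLex w : ι →₀ ℕ) i := by
      rw [Finset.sum_filter]
      refine Finset.sum_congr rfl fun w _ => ?_
      split_ifs with h
      · rfl
      · omega
    rw [h2]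
    set g : Lex (ι →₀ ℕ) → Lex (ι →₀ ℕ) := fun w => toLex (ofLex w - Finsupp.single i 1) with hg
    have hginv : ∀ w : Lex (ι →₀ ℕ), 1 ≤ (ofLex w : ι →₀ ℕ) i → ofLex (g w) + Finsupp.single i 1 = ofLex w := by
      intro w hw
      have hle : Finsupp.single i 1 ≤ ofLex w := by
        rw [Finsupp.single_le_iff]; exact hw
      exact tsub_add_cancel_of_le hle
    have hginj : Set.InjOn g ((B (j + 1)).filter (fun w => 1 ≤ (ofLex w : ι →₀ ℕ) i) : Set _) := by
      intro w hw w' hw' h
      rw [Finset.mem_coe, Finset.mem_filter] at hw hw'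
      have h3 := hginv w hw.2
      rw [h, hginv w' hw'.2] at h3
      exact (ofLex.injective h3).symm
    have h3 : ∑ w ∈ (B (j + 1)).filter (fun w => 1 ≤ (ofLex w : ι →₀ ℕ) i), (ofLex w : ι →₀ ℕ) i =
        ∑ u ∈ ((B (j + 1)).filter (fun w => 1 ≤ (ofLex w : ι →₀ ℕ) i)).image g, ((ofLex u : ι →₀ ℕ) i + 1) := by
      rw [Finset.sum_image hginj]
      refine Finset.sum_congr rfl fun w hw => ?_
      rw [Finset.mem_filter] at hw
      have h4 := congrArg (fun x : ι →₀ ℕ => x i) (hginv w hw.2)
      simp only [Finsupp.add_apply, Finsupp.single_eq_same] at h4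
      exact h4.symm
    rw [h3]
    apply Finset.sum_le_sum_of_subset
    intro u hu
    rw [Finset.mem_image] at hu
    obtain ⟨w, hw, rfl⟩ := hu
    rw [Finset.mem_filter] at hw
    exact hdiv w hw.1 i hw.2
  have h2 : ∑ i, ∑ w ∈ B (j + 1), (ofLex w : ι →₀ ℕ) i = (j + 1) * hilb I (j + 1) := by
    rw [Finset.sum_comm, ← hcard, Finset.sum_congr rfl (g := fun _ => j + 1), Finset.sum_const,
      smul_eq_mul, mul_comm]
    intro w hw
    exact mem_expoSet.1 ((mem_stdSet _ _ _).1 hw).1
  have h3 : ∑ i, ∑ u ∈ B j, ((ofLex u : ι →₀ ℕ) i + 1) = (j + Fintype.card ι) * hilb I j := by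
    rw [Finset.sum_comm, ← hcard, Finset.sum_congr rfl (g := fun _ => j + Fintype.card ι),
      Finset.sum_const, smul_eq_mul, mul_comm]
    intro w hw
    rw [Finset.sum_add_distrib, mem_expoSet.1 ((mem_stdSet _ _ _).1 hw).1]
    simp
  rw [← h2, ← h3]
  exact Finset.sum_le_sum fun i _ => h1 i

end hilbert

end Pool.Agent.Helper11
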