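import Pool.Agent.Helper11.Greedy
import Pool.Agent.Helper11.Macaulay

/-! The greedy partition of a finite set of points, with explicit constants -/

set_option linter.unusedSectionVars false

namespace Pool.Agent.Helper11

open MvPolynomial

section num

theorem mc_ratio (s J c : ℕ) :
    ((s + 1).multichoose (J + c) : ℝ) ≤
      (s + 1).multichoose J * ((1 : ℝ) + c / (J + 1)) ^ s := by
  induction c with
  | zero => simp
  | succ c ih =>
    -- `(s + 1).multichoose (x + 1) * (x + 1) = (s + 1).multichoose x * (x + 1 + s)`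
    have hx : ∀ x : ℕ, (s + 1).multichoose (x + 1) * (x + 1) =
        (s + 1).multichoose x * (x + 1 + s) := by
      intro x
      rw [Nat.multichoose_eq, Nat.multichoose_eq]
      have h1 : s + 1 + (x + 1) - 1 = (s + x) + 1 := by omega
      have h2 : s + 1 + x - 1 = s + x := by omega
      rw [h1, h2]
      have h3 := Nat.add_one_mul_choose_eq (s + x) x
      have h4 : (s + x).choose x * (x + 1 + s) = (s + x + 1) * (s + x).choose x := by ring
      rw [h4, h3]
    have h1 := hx (J + c)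
    have h2 : ((s + 1).multichoose (J + (c + 1)) : ℝ) * (J + c + 1) =
        (s + 1).multichoose (J + c) * (J + c + 1 + s) := by
      have : J + (c + 1) = J + c + 1 := by ring
      rw [this]
      exact_mod_cast h1
    have hpos : (0 : ℝ) < (J : ℝ) + c + 1 := by positivity
    have hJ : (0 : ℝ) < (J : ℝ) + 1 := by positivity
    have h3 : ((s + 1).multichoose (J + (c + 1)) : ℝ) =
        (s + 1).multichoose (J + c) * (1 + s * (1 / ((J : ℝ) + c + 1))) := by
      field_simp
      linarith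
    rw [h3]
    have h4 : (1 : ℝ) + s * (1 / ((J : ℝ) + c + 1)) ≤ (1 + 1 / ((J : ℝ) + c + 1)) ^ s := by
      apply one_add_mul_le_pow
      have : (0 : ℝ) ≤ 1 / ((J : ℝ) + c + 1) := by positivity
      linarith
    have h5 : (1 : ℝ) + ((c + 1 : ℕ) : ℝ) / (J + 1) =
        (1 + c / (J + 1)) * (1 + 1 / ((J : ℝ) + c + 1)) := by
      push_cast
      field_simp
      ring
    rw [h5, mul_pow, ← mul_assoc]
    exact mul_le_mul ih h4 (by positivity) (by positivity)

theorem mu_le_one {n c : ℕ} (hn : 1 ≤ n) {μ : ℝ}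
    (h : ∀ J, c ≤ J → μ * n.multichoose (J - c) ≤ n.multichoose J) : μ ≤ 1 := by
  obtain ⟨s, rfl⟩ : ∃ s, n = s + 1 := ⟨n - 1, by omega⟩
  have h1 : ∀ J : ℕ, μ ≤ ((1 : ℝ) + c / (J + 1)) ^ s := by
    intro J
    have h2 := h (J + c) (by omega)
    rw [Nat.add_sub_cancel] at h2
    have h3 := h2.trans (mc_ratio s J c)
    have h4 : (0 : ℝ) < (s + 1).multichoose J := by exact_mod_cast mc_pos (by omega) J
    rw [mul_comm] at h3
    exact le_of_mul_le_mul_left h3 h4
  have h2 : Filter.Tendsto (fun J : ℕ => ((1 : ℝ) + c / (J + 1)) ^ s) Filter.atTop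
      (nhds ((1 + 0) ^ s)) := by
    apply Filter.Tendsto.pow
    apply Filter.Tendsto.add tendsto_const_nhds
    have h3 := (tendsto_one_div_add_atTop_nhds_zero_nat (𝕜 := ℝ)).const_mul (c : ℝ)
    rw [mul_zero] at h3
    refine h3.congr fun J => ?_
    rw [mul_one_div]
  rw [add_zero, one_pow] at h2
  exact ge_of_tendsto' h2 h1

variable {k ι : Type*} [Field k] [Fintype ι]

/-- the growth of a Hilbert function is slow somewhere, explicitly -/
theorem exists_slow2 (K : ℕ) (hι : 1 ≤ Fintype.card ι) (q : Ideal (MvPolynomial ι k)) :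
    ∃ j < max 1 (K * (Fintype.card ι - 1)),
      (K : ℝ) * ((hilb q (j + 1) : ℝ) - hilb q j) ≤ hilb q (j + 1) := by
  set M := Fintype.card ι with hM
  refine ⟨max 1 (K * (M - 1)) - 1, by have := le_max_left 1 (K * (M - 1)); omega, ?_⟩
  set j := max 1 (K * (M - 1)) - 1 with hj
  have hj1 : j + 1 = max 1 (K * (M - 1)) := by
    have := le_max_left 1 (K * (M - 1)); omega
  have h1 := hilb_succ_le q j
  rw [← hM] at h1
  have h2 : ((j : ℝ) + 1) * hilb q (j + 1) ≤ (j + M) * hilb q j := by exact_mod_cast h1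
  have hM1 : ((M - 1 : ℕ) : ℝ) = (M : ℝ) - 1 := by
    rw [Nat.cast_sub hι, Nat.cast_one]
  have h3 : (K : ℝ) * (M - 1) ≤ j + 1 := by
    rw [← hM1]
    exact_mod_cast (le_max_right 1 (K * (M - 1))).trans hj1.ge
  have h0 : (0 : ℝ) ≤ hilb q (j + 1) := Nat.cast_nonneg _
  have h0' : (0 : ℝ) ≤ hilb q j := Nat.cast_nonneg _
  have hjpos : (0 : ℝ) < (j : ℝ) + 1 := by positivity
  have hK0 : (0 : ℝ) ≤ K := Nat.cast_nonneg _
  by_cases hle : (hilb q (j + 1) : ℝ) ≤ hilb q j
  · have h4 : (K : ℝ) * ((hilb q (j + 1) : ℝ) - hilb q j) ≤ 0 :=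
      mul_nonpos_of_nonneg_of_nonpos hK0 (by linarith)
    linarith
  · push Not at hle
    have h5 : ((j : ℝ) + 1) * ((hilb q (j + 1) : ℝ) - hilb q j) ≤ (M - 1) * hilb q j := by
      linarith
    have hM0 : (0 : ℝ) ≤ (M : ℝ) - 1 := by rw [← hM1]; exact Nat.cast_nonneg _
    have h6 : ((j : ℝ) + 1) * (K * ((hilb q (j + 1) : ℝ) - hilb q j)) ≤
        ((j : ℝ) + 1) * hilb q j := by
      calc ((j : ℝ) + 1) * (K * ((hilb q (j + 1) : ℝ) - hilb q j)) =
            K * (((j : ℝ) + 1) * ((hilb q (j + 1) : ℝ) - hilb q j)) := by ring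
        _ ≤ K * ((M - 1) * hilb q j) := mul_le_mul_of_nonneg_left h5 hK0
        _ = (K * (M - 1)) * hilb q j := by ring
        _ ≤ ((j : ℝ) + 1) * hilb q j := mul_le_mul_of_nonneg_right h3 h0'
    have h7 := le_of_mul_le_mul_left h6 hjpos
    linarith

end num

section

variable {k ι : Type*} [Field k] [Fintype ι]

theorem greedy2 [Infinite k] {K : ℝ} (hK : 0 < K) {D₀ : ℕ}
    (hD₀ : ∀ q : Ideal (MvPolynomial ι k),
      ∃ j < D₀, K * ((hilb q (j + 1) : ℝ) - hilb q j) ≤ hilb q (j + 1))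
    {m : ℕ} (Deg : Ideal (MvPolynomial ι k) → Prop) (Γ₀ : Finset (ι → k))
    (h0 : ∀ p ∈ Γ₀, p ≠ 0)
    (hDeg : ∀ q : Ideal (MvPolynomial ι k), Deg q → ∀ Γ ⊆ Γ₀, (∀ p ∈ Γ, p ∈ zs q) →
      Γ.card ≤ m) (t : ℕ) :
    ∀ q : Ideal (MvPolynomial ι k), q.IsPrime → HomI q → tdeg q = t → ∀ Γ ⊆ Γ₀,
      (∀ p ∈ Γ, p ∈ zs q) →
      ∃ (Q : Finset (Ideal (MvPolynomial ι k))) (μ : ℝ) (c : ℕ), 0 ≤ μ ∧
        (∀ q' ∈ Q, q'.IsPrime ∧ HomI q' ∧ ¬ Deg q' ∧ ∃ p ∈ Γ₀, p ∈ zs q') ∧
        (∀ J, c ≤ J → μ * t.multichoose (J - c) ≤ hilb q J) ∧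
        ∀ (n : (ι → k) → ℝ) (W : ℝ), 0 ≤ W → (∀ p ∈ Γ₀, n p ≤ W) →
          (∀ q' ∈ Q, MIH q' Γ₀ n W) →
          ∑ p ∈ Γ, n p ≤ (Γ.card / K + m * D₀ ^ (t - 1) * μ) * W := by
  classical
  induction t with
  | zero =>
    intro q hq hq2 ht Γ hΓ hΓq
    have hemp : Γ = ∅ := by
      rw [Finset.eq_empty_iff_forall_notMem]
      intro p hp
      have := one_le_tdeg hq hq2 (hΓq p hp) (h0 p (hΓ hp))
      omega
    subst hemp
    refine ⟨∅, 0, 0, le_rfl, by simp, by simp, ?_⟩
    intro n W hW _ _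
    simp
  | succ t ih =>
    intro q hq hq2 ht
    by_cases hd : Deg q
    · intro Γ hΓ hΓq
      refine ⟨∅, 1, 0, zero_le_one, by simp, ?_, ?_⟩
      · intro J _
        rw [one_mul, Nat.sub_zero, ← ht]
        exact_mod_cast multichoose_le_hilb hq J
      · intro n W hW hn _
        have hcard : (Γ.card : ℝ) ≤ m := by exact_mod_cast hDeg q hd Γ hΓ hΓq
        obtain ⟨j, hj, -⟩ := hD₀ q
        have hD1 : (1 : ℝ) ≤ D₀ := by
          have : 1 ≤ D₀ := by omega
          exact_mod_cast this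
        have h1 : ∑ p ∈ Γ, n p ≤ Γ.card * W := by
          rw [← nsmul_eq_mul]
          exact Finset.sum_le_card_nsmul _ _ _ fun p hp => hn p (hΓ hp)
        have h2 : (Γ.card : ℝ) ≤ Γ.card / K + m * D₀ ^ (t + 1 - 1) * 1 := by
          have h3 : (1 : ℝ) ≤ (D₀ : ℝ) ^ (t + 1 - 1) := one_le_pow₀ hD1
          have h4 : (0 : ℝ) ≤ Γ.card / K := by positivity
          have h5 : (m : ℝ) * 1 ≤ m * D₀ ^ (t + 1 - 1) :=
            mul_le_mul_of_nonneg_left h3 (Nat.cast_nonneg _)
          linarith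
        exact h1.trans (mul_le_mul_of_nonneg_right h2 hW)
    · obtain ⟨j, hj, hslow⟩ := hD₀ q
      intro Γ
      induction hN : Γ.card using Nat.strong_induction_on generalizing Γ with
      | _ N ihN =>
      intro hΓ hΓq
      have hKpos : 0 < K := hK
      rcases Γ.eq_empty_or_nonempty with hemp | hne
      · subst hemp
        refine ⟨∅, 0, 0, le_rfl, by simp, by simp, ?_⟩
        intro n W hW _ _
        rw [← hN]
        simp
      rcases surj_or_form (q := q) (j + 1) Γ with ⟨Γ', hΓ', hcard', hsurj⟩ | ⟨G, hG, hGq, hGΓ⟩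
      · -- remove a large subset
        have hpos : 1 ≤ Γ'.card := by
          rw [hcard']
          refine le_trans ?_ (multichoose_le_hilb hq (j + 1))
          rw [ht]
          exact mc_pos (by omega) _
        have hcard2 : (Γ \ Γ').card + Γ'.card = Γ.card := by
          exact Finset.card_sdiff_add_card_eq_card hΓ'
        obtain ⟨Q, μ, c, hμ, hQ, hμc, hfin⟩ := ihN (Γ \ Γ').card (by omega) (Γ \ Γ') rfl
          (fun p hp => hΓ (Finset.mem_sdiff.1 hp).1) (fun p hp => hΓq p (Finset.mem_sdiff.1 hp).1)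
        refine ⟨insert q Q, μ, c, hμ, ?_, hμc, ?_⟩
        · intro q' hq'
          rw [Finset.mem_insert] at hq'
          rcases hq' with rfl | hq'
          · obtain ⟨p, hp⟩ := hne
            exact ⟨hq, hq2, hd, p, hΓ hp, hΓq p hp⟩
          · exact hQ q' hq'
        · intro n W hW hn hMI
          have h1 := hfin n W hW hn fun q' hq' => hMI q' (Finset.mem_insert_of_mem hq')
          have h2 := hMI q (Finset.mem_insert_self _ _) j Γ' (fun p hp => hΓ (hΓ' hp))
            (fun p hp => hΓq p (hΓ' hp)) hsurj hcard'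
          rw [← Finset.sum_sdiff hΓ']
          have h3 : ((hilb q (j + 1) : ℝ) - hilb q j) ≤ Γ'.card / K := by
            rw [le_div_iff₀ hKpos, hcard', mul_comm]
            exact hslow
          have h4 := mul_le_mul_of_nonneg_right h3 hW
          have h5 : ((N : ℕ) : ℝ) = (Γ \ Γ').card + Γ'.card := by
            rw [← hN, ← hcard2]; push_cast; ring
          rw [h5]
          have h6 : (((Γ \ Γ').card + Γ'.card : ℝ) / K + m * D₀ ^ (t + 1 - 1) * μ) * W =
              (((Γ \ Γ').card : ℝ) / K + m * D₀ ^ (t + 1 - 1) * μ) * W + (Γ'.card / K) * W := by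
            ring
          rw [h6]
          linarith
      · -- a new form: pass to the components
        set T : Finset (Ideal (MvPolynomial ι k)) :=
          ((Ideal.finite_minimalPrimes_of_isNoetherianRing _ (q ⊔ Ideal.span {G})).toFinset).filter
            (fun q' => ∃ p ∈ Γ, p ∈ zs q') with hT
        have hTmem : ∀ q' ∈ T, q' ∈ (q ⊔ Ideal.span {G}).minimalPrimes ∧ ∃ p ∈ Γ, p ∈ zs q' := by
          intro q' hq'
          rw [hT, Finset.mem_filter, Set.Finite.mem_toFinset] at hq'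
          exact hq'
        have hTprime : ∀ q' ∈ T, q'.IsPrime := fun q' hq' => (hTmem q' hq').1.isPrime
        have hThom : ∀ q' ∈ T, HomI q' := fun q' hq' =>
          homI_of_minimal hq2 hG (hTmem q' hq').1
        have hTle : ∀ q' ∈ T, q ≤ q' ∧ G ∈ q' := fun q' hq' =>
          ⟨le_trans le_sup_left (hTmem q' hq').1.le,
            (hTmem q' hq').1.le (Ideal.mem_sup_right (Ideal.mem_span_singleton_self G))⟩
        have hTinc : ∀ q' ∈ T, ∀ q'' ∈ T, q' ≤ q'' → q' = q'' := fun q' hq' q'' hq'' hle =>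
          le_antisymm hle ((hTmem q'' hq'').1.2 (hTmem q' hq').1.1 hle)
        have hTirr : ∀ q' ∈ T, ∃ i, (X i : MvPolynomial ι k) ∉ q' := by
          intro q' hq'
          obtain ⟨p, hp, hpq⟩ := (hTmem q' hq').2
          exact exists_X_notMem hpq (h0 p (hΓ hp))
        have hTdeg : ∀ q' ∈ T, tdeg q' = t := by
          intro q' hq'
          have h1 := tdeg_child hq hGq (hTmem q' hq').1
          have h2 : q < q' := lt_of_le_of_ne (hTle q' hq').1
            (fun h => hGq (by rw [h]; exact (hTle q' hq').2))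
          have h3 := tdeg_lt hq (hTprime q' hq') h2
          omega
        have hcov : ∀ p : ι → k, ∃ q' : Ideal (MvPolynomial ι k), p ∈ Γ → q' ∈ T ∧ p ∈ zs q' := by
          intro p
          by_cases hp : p ∈ Γ
          · set I : Ideal (MvPolynomial ι k) := RingHom.ker (eval p) with hI
            have hIprime : I.IsPrime := RingHom.ker_isPrime _
            have hle : q ⊔ Ideal.span {G} ≤ I := by
              rw [sup_le_iff]
              refine ⟨fun P hP => hΓq p hp P hP, ?_⟩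
              rw [Ideal.span_singleton_le_iff_mem]
              exact hGΓ p hp
            obtain ⟨q', hq', hq'I⟩ := Ideal.exists_minimalPrimes_le hle
            have hpz : p ∈ zs q' := fun P hP => hq'I hP
            refine ⟨q', fun _ => ⟨?_, hpz⟩⟩
            rw [hT, Finset.mem_filter, Set.Finite.mem_toFinset]
            exact ⟨hq', p, hp, hpz⟩
          · exact ⟨⊥, fun h => absurd h hp⟩
        choose b hb using hcov
        have hex : ∀ q' : Ideal (MvPolynomial ι k), ∃ (Q : Finset (Ideal (MvPolynomial ι k)))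
            (μ : ℝ) (c : ℕ), q' ∈ T → 0 ≤ μ ∧
            (∀ q'' ∈ Q, q''.IsPrime ∧ HomI q'' ∧ ¬ Deg q'' ∧ ∃ p ∈ Γ₀, p ∈ zs q'') ∧
            (∀ J, c ≤ J → μ * t.multichoose (J - c) ≤ hilb q' J) ∧
            ∀ (n : (ι → k) → ℝ) (W : ℝ), 0 ≤ W → (∀ p ∈ Γ₀, n p ≤ W) →
              (∀ q'' ∈ Q, MIH q'' Γ₀ n W) →
              ∑ p ∈ Γ.filter (fun p => b p = q'), n p ≤
                ((Γ.filter (fun p => b p = q')).card / K + m * D₀ ^ (t - 1) * μ) * W := by
          intro q'
          by_cases hq' : q' ∈ T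
          · obtain ⟨Q, μ, c, h⟩ := ih q' (hTprime q' hq') (hThom q' hq') (hTdeg q' hq')
              (Γ.filter (fun p => b p = q')) (fun p hp => hΓ (Finset.mem_filter.1 hp).1)
              (fun p hp => by
                rw [Finset.mem_filter] at hp
                have := (hb p hp.1).2
                rwa [hp.2] at this)
            exact ⟨Q, μ, c, fun _ => h⟩
          · exact ⟨∅, 0, 0, fun h => absurd h hq'⟩
        choose Q μ c hQμc using hex
        obtain ⟨c₀, hc₀⟩ := hilb_children hq hG hGq hTle hTprime hThom hTinc hTirr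
        -- `t ≥ 1`
        have ht1 : 1 ≤ t := by
          obtain ⟨p, hp⟩ := hne
          have h1 := hb p hp
          have h2 := one_le_tdeg (hTprime _ h1.1) (hThom _ h1.1) h1.2 (h0 p (hΓ hp))
          rwa [hTdeg _ h1.1] at h2
        set μ' : ℝ := ∑ q' ∈ T, μ q' with hμ'
        have hμ'0 : 0 ≤ μ' := Finset.sum_nonneg fun q' hq' => (hQμc q' hq').1
        set c' : ℕ := c₀ + ∑ q' ∈ T, c q' + (j + 1) with hc'
        have hcle : ∀ q' ∈ T, c q' ≤ ∑ q' ∈ T, c q' := fun q' hq' =>
          Finset.single_le_sum (fun _ _ => Nat.zero_le _) hq'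
        have hstep : ∀ J, c' ≤ J →
            (hilb q (J - (j + 1)) : ℝ) + μ' * t.multichoose (J - c') ≤ hilb q J := by
          intro J hJ
          have h1 := hc₀ J (by omega) (by omega)
          have h2 : (∑ q' ∈ T, (hilb q' (J - c₀) : ℝ)) + hilb q (J - (j + 1)) ≤ hilb q J := by
            exact_mod_cast h1
          have h3 : μ' * t.multichoose (J - c') ≤ ∑ q' ∈ T, (hilb q' (J - c₀) : ℝ) := by
            rw [hμ', Finset.sum_mul]
            refine Finset.sum_le_sum fun q' hq' => ?_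
            have h4 := hcle q' hq'
            have h5 := (hQμc q' hq').2.2.1 (J - c₀) (by omega)
            have h6 : t.multichoose (J - c') ≤ t.multichoose (J - c₀ - c q') :=
              mc_mono ht1 (by omega)
            have h7 : (t.multichoose (J - c') : ℝ) ≤ t.multichoose (J - c₀ - c q') := by
              exact_mod_cast h6
            exact (mul_le_mul_of_nonneg_left h7 (hQμc q' hq').1).trans h5
          linarith
        have hap := ap_sum hμ'0 ht1 (by omega : 1 ≤ j + 1) (by omega) hstep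
        have hj1 : (0 : ℝ) < ((j + 1 : ℕ) : ℝ) := by positivity
        refine ⟨T.biUnion Q, μ' / ((j + 1 : ℕ) : ℝ), c', div_nonneg hμ'0 hj1.le, ?_, ?_, ?_⟩
        · intro q'' hq''
          rw [Finset.mem_biUnion] at hq''
          obtain ⟨q', hq', hq''⟩ := hq''
          exact (hQμc q' hq').2.1 q'' hq''
        · intro J hJ
          rw [div_mul_eq_mul_div, div_le_iff₀ hj1, mul_comm (hilb q J : ℝ)]
          exact hap J hJ
        · intro n W hW hn hMI
          have h1 : ∑ p ∈ Γ, n p = ∑ q' ∈ T, ∑ p ∈ Γ.filter (fun p => b p = q'), n p := by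
            rw [Finset.sum_fiberwise_of_maps_to]
            intro p hp
            exact (hb p hp).1
          have h2 : (Γ.card : ℝ) = ∑ q' ∈ T, ((Γ.filter (fun p => b p = q')).card : ℝ) := by
            have := Finset.card_eq_sum_card_fiberwise (f := b) (s := Γ) (t := T)
              (fun p hp => (hb p hp).1)
            exact_mod_cast this
          rw [h1]
          have h3 : ∑ q' ∈ T, ∑ p ∈ Γ.filter (fun p => b p = q'), n p ≤
              ∑ q' ∈ T, (((Γ.filter (fun p => b p = q')).card : ℝ) / K +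
                m * D₀ ^ (t - 1) * μ q') * W :=
            Finset.sum_le_sum fun q' hq' => (hQμc q' hq').2.2.2 n W hW hn
              fun q'' hq'' => hMI q'' (Finset.mem_biUnion.2 ⟨q', hq', hq''⟩)
          refine h3.trans ?_
          rw [← Finset.sum_mul, Finset.sum_add_distrib, ← Finset.sum_div, ← h2,
            ← Finset.mul_sum, ← hN]
          apply mul_le_mul_of_nonneg_right _ hW
          have h4 : μ' ≤ D₀ * (μ' / ((j + 1 : ℕ) : ℝ)) := by
            rw [mul_div_assoc', le_div_iff₀ hj1, mul_comm]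
            apply mul_le_mul_of_nonneg_right _ hμ'0
            have : j + 1 ≤ D₀ := hj
            exact_mod_cast this
          have h5 : (m : ℝ) * D₀ ^ (t + 1 - 1) * (μ' / ((j + 1 : ℕ) : ℝ)) =
              m * D₀ ^ (t - 1) * (D₀ * (μ' / ((j + 1 : ℕ) : ℝ))) := by
            have h7 : t + 1 - 1 = (t - 1) + 1 := by omega
            rw [h7, pow_succ]
            ring
          rw [h5]
          have h6 : (m : ℝ) * D₀ ^ (t - 1) * μ' ≤
              m * D₀ ^ (t - 1) * (D₀ * (μ' / ((j + 1 : ℕ) : ℝ))) :=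
            mul_le_mul_of_nonneg_left h4 (by positivity)
          linarith


theorem greedy_total2 [Infinite k] {K : ℕ} (hK : 1 ≤ K)
    {m : ℕ} (Deg : Ideal (MvPolynomial ι k) → Prop) (Γ₀ : Finset (ι → k))
    (h0 : ∀ p ∈ Γ₀, p ≠ 0)
    (hDeg : ∀ q : Ideal (MvPolynomial ι k), Deg q → ∀ Γ ⊆ Γ₀, (∀ p ∈ Γ, p ∈ zs q) →
      Γ.card ≤ m) (hι : 1 ≤ Fintype.card ι) :
    ∃ Q : Finset (Ideal (MvPolynomial ι k)),
      (∀ q' ∈ Q, q'.IsPrime ∧ HomI q' ∧ ¬ Deg q' ∧ ∃ p ∈ Γ₀, p ∈ zs q') ∧
      ∀ (n : (ι → k) → ℝ) (W : ℝ), 0 ≤ W → (∀ p ∈ Γ₀, n p ≤ W) →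
        (∀ q' ∈ Q, MIH q' Γ₀ n W) →
        ∑ p ∈ Γ₀, n p ≤ (Γ₀.card / K +
          m * ((K * (Fintype.card ι - 1)) ^ (Fintype.card ι - 1) : ℕ)) * W := by
  have hKpos : (0 : ℝ) < K := by exact_mod_cast hK
  obtain ⟨Q, μ, c, hμ, hQ, hμc, hfin⟩ := greedy2 hKpos (fun q => exists_slow2 K hι q) Deg Γ₀ h0
    hDeg (Fintype.card ι) ⊥
    Ideal.isPrime_bot homI_bot tdeg_bot Γ₀ (Finset.Subset.refl _) (by
      intro p _ P hP
      rw [Ideal.mem_bot] at hP
      rw [hP, map_zero])
  refine ⟨Q, hQ, fun n W hW hn hMI => (hfin n W hW hn hMI).trans ?_⟩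
  apply mul_le_mul_of_nonneg_right _ hW
  have h1 : μ ≤ 1 := by
    apply mu_le_one hι (c := c)
    intro J hJ
    refine (hμc J hJ).trans ?_
    exact_mod_cast hilb_le_multichoose _ J
  have hpow : ((max 1 (K * (Fintype.card ι - 1)) : ℕ) : ℝ) ^ (Fintype.card ι - 1) =
      ((K * (Fintype.card ι - 1)) ^ (Fintype.card ι - 1) : ℕ) := by
    rcases Nat.eq_zero_or_pos (Fintype.card ι - 1) with h | h
    · rw [h]; simp
    · have h2 : 1 ≤ K * (Fintype.card ι - 1) := Nat.mul_pos hK h
      rw [max_eq_right h2]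
      push_cast
      ring
  rw [hpow]
  have h2 : (m : ℝ) * ((K * (Fintype.card ι - 1)) ^ (Fintype.card ι - 1) : ℕ) * μ ≤
      m * ((K * (Fintype.card ι - 1)) ^ (Fintype.card ι - 1) : ℕ) * 1 :=
    mul_le_mul_of_nonneg_left h1 (by positivity)
  linarith

end

end Pool.Agent.Helper11
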