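import Pool.Agent.Helper11.HilbPrime

/-! Hilbert functions of the components of a hypersurface section -/

set_option linter.unusedSectionVars false

namespace Pool.Agent.Helper11

open MvPolynomial

attribute [local instance] MvPolynomial.gradedAlgebra

section

variable {k ι : Type*} [Field k] [Fintype ι]

/-- homogeneous ideals -/
def HomI (q : Ideal (MvPolynomial ι k)) : Prop := ∀ P ∈ q, ∀ i, homogeneousComponent i P ∈ q

theorem homI_iff (q : Ideal (MvPolynomial ι k)) :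
    HomI q ↔ q.IsHomogeneous (homogeneousSubmodule ι k) := by
  constructor
  · intro h i P hP
    have := h P hP i
    rwa [← decomposition.decompose'_apply] at this
  · intro h P hP i
    have := h i hP
    rwa [← decomposition.decompose'_apply]

theorem homI_of_minimal {q q' : Ideal (MvPolynomial ι k)} (hq : HomI q) {G : MvPolynomial ι k}
    {d : ℕ} (hG : G.IsHomogeneous d) (hq' : q' ∈ (q ⊔ Ideal.span {G}).minimalPrimes) :
    HomI q' := by
  rw [homI_iff] at hq ⊢
  have h1 : (q ⊔ Ideal.span {G}).IsHomogeneous (homogeneousSubmodule ι k) := by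
    apply hq.sup
    apply Ideal.homogeneous_span
    rintro x rfl
    exact ⟨d, hG⟩
  have hprime : q'.IsPrime := hq'.isPrime
  have h2 : (q'.homogeneousCore (homogeneousSubmodule ι k)).toIdeal.IsPrime :=
    Ideal.IsPrime.homogeneousCore hprime
  have h3 : q ⊔ Ideal.span {G} ≤ (q'.homogeneousCore (homogeneousSubmodule ι k)).toIdeal := by
    have h4 := Ideal.homogeneousCore_mono (homogeneousSubmodule ι k) hq'.le
    have h5 : (q ⊔ Ideal.span {G}) =
        ((q ⊔ Ideal.span {G}).homogeneousCore (homogeneousSubmodule ι k)).toIdeal :=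
      h1.toIdeal_homogeneousCore_eq_self.symm
    rw [h5]
    exact h4
  have h4 := hq'.2 ⟨h2, h3⟩ (Ideal.toIdeal_homogeneousCore_le _ _)
  have h5 : q' = (q'.homogeneousCore (homogeneousSubmodule ι k)).toIdeal :=
    le_antisymm h4 (Ideal.toIdeal_homogeneousCore_le _ _)
  rw [h5]
  exact HomogeneousIdeal.isHomogeneous _

theorem exists_homogeneous_mem_not_mem {q q' : Ideal (MvPolynomial ι k)} (hq : HomI q)
    (h : ¬ q ≤ q') : ∃ (m : ℕ) (u : MvPolynomial ι k), u.IsHomogeneous m ∧ u ∈ q ∧ u ∉ q' := by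
  rw [SetLike.not_le_iff_exists] at h
  obtain ⟨P, hP, hP'⟩ := h
  by_contra hcon
  push Not at hcon
  apply hP'
  rw [← sum_homogeneousComponent P]
  exact Ideal.sum_mem _ fun i _ => hcon i _ (homogeneousComponent_isHomogeneous i P) (hq P hP i)

theorem exists_separating {T : Finset (Ideal (MvPolynomial ι k))} (hT : ∀ q ∈ T, q.IsPrime)
    (hT2 : ∀ q ∈ T, HomI q) (hinc : ∀ q ∈ T, ∀ q' ∈ T, q ≤ q' → q = q')
    (hirr : ∀ q ∈ T, ∃ i, (X i : MvPolynomial ι k) ∉ q) :
    ∃ (c : ℕ) (u : Ideal (MvPolynomial ι k) → MvPolynomial ι k), ∀ q ∈ T,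
      (u q).IsHomogeneous c ∧ u q ∉ q ∧ ∀ q' ∈ T, q' ≠ q → u q ∈ q' := by
  classical
  have h1 : ∀ q q' : Ideal (MvPolynomial ι k), ∃ (m : ℕ) (u : MvPolynomial ι k),
      q ∈ T → q' ∈ T → q' ≠ q → u.IsHomogeneous m ∧ u ∈ q' ∧ u ∉ q := by
    intro q q'
    by_cases h : q ∈ T ∧ q' ∈ T ∧ q' ≠ q
    · obtain ⟨m, u, hu⟩ := exists_homogeneous_mem_not_mem (hT2 q' h.2.1)
        (fun hle => h.2.2 (hinc q' h.2.1 q h.1 hle))
      exact ⟨m, u, fun _ _ _ => hu⟩
    · exact ⟨0, 0, fun a b c => absurd ⟨a, b, c⟩ h⟩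
  choose m u hu using h1
  have h2 : ∀ q : Ideal (MvPolynomial ι k), ∃ x : MvPolynomial ι k, q ∈ T →
      x.IsHomogeneous 1 ∧ x ∉ q := by
    intro q
    by_cases h : q ∈ T
    · obtain ⟨i, hi⟩ := hirr q h
      exact ⟨X i, fun _ => ⟨isHomogeneous_X k i, hi⟩⟩
    · exact ⟨0, fun h' => absurd h' h⟩
  choose x hx using h2
  set e : Ideal (MvPolynomial ι k) → ℕ := fun q => ∑ q' ∈ T.erase q, m q q' with he
  set c := ∑ q ∈ T, e q with hc
  have hle : ∀ q ∈ T, e q ≤ c := fun q hq => Finset.single_le_sum (fun _ _ => Nat.zero_le _) hq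
  refine ⟨c, fun q => x q ^ (c - e q) * ∏ q' ∈ T.erase q, u q q', fun q hq => ⟨?_, ?_, ?_⟩⟩
  · have h3 : (∏ q' ∈ T.erase q, u q q').IsHomogeneous (e q) := by
      apply IsHomogeneous.prod
      intro q' hq'
      rw [Finset.mem_erase] at hq'
      exact (hu q q' hq hq'.2 hq'.1).1
    have h4 := ((hx q hq).1.pow (c - e q)).mul h3
    have h5 : 1 * (c - e q) + e q = c := by
      have := hle q hq
      omega
    rwa [h5] at h4
  · have hqp := hT q hq
    intro h
    rcases hqp.mem_or_mem h with h | h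
    · exact (hx q hq).2 (hqp.mem_of_pow_mem _ h)
    · rw [hqp.prod_mem_iff] at h
      obtain ⟨q', hq', h⟩ := h
      rw [Finset.mem_erase] at hq'
      exact (hu q q' hq hq'.2 hq'.1).2.2 h
  · intro q' hq' hne
    apply Ideal.mul_mem_left
    have h3 : q' ∈ T.erase q := Finset.mem_erase.2 ⟨hne, hq'⟩
    rw [← Finset.mul_prod_erase _ _ h3]
    exact Ideal.mul_mem_right _ _ (hu q q' hq hq' hne).2.1

theorem hilb_children {q : Ideal (MvPolynomial ι k)} (hq : q.IsPrime) {G : MvPolynomial ι k}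
    {d : ℕ} (hG : G.IsHomogeneous d) (hGq : G ∉ q) {T : Finset (Ideal (MvPolynomial ι k))}
    (hTq : ∀ q' ∈ T, q ≤ q' ∧ G ∈ q') (hT : ∀ q ∈ T, q.IsPrime)
    (hT2 : ∀ q ∈ T, HomI q) (hinc : ∀ q ∈ T, ∀ q' ∈ T, q ≤ q' → q = q')
    (hirr : ∀ q ∈ T, ∃ i, (X i : MvPolynomial ι k) ∉ q) :
    ∃ c : ℕ, ∀ J, c ≤ J → d ≤ J →
      ∑ q' ∈ T, hilb q' (J - c) + hilb q (J - d) ≤ hilb q J := by
  classical
  obtain ⟨c, u, hu⟩ := exists_separating hT hT2 hinc hirr
  refine ⟨c, fun J hcJ hdJ => ?_⟩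
  have hb : ∀ q' : Ideal (MvPolynomial ι k), ∃ M : Fin (hilb q' (J - c)) → MvPolynomial ι k,
      (∀ i, (M i).IsHomogeneous (J - c)) ∧ IndepMod q' M := by
    intro q'
    obtain ⟨M, h1, h2, _⟩ := exists_basis_mod q' (J - c)
    exact ⟨M, h1, h2⟩
  choose M hM hM2 using hb
  obtain ⟨N, hN, hN2, -⟩ := exists_basis_mod q (J - d)
  have hcard : Fintype.card ((Σ q' : T, Fin (hilb q'.1 (J - c))) ⊕ Fin (hilb q (J - d))) =
      ∑ q' ∈ T, hilb q' (J - c) + hilb q (J - d) := by
    rw [Fintype.card_sum, Fintype.card_sigma, Fintype.card_fin]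
    congr 1
    rw [← Finset.sum_coe_sort T]
    exact Finset.sum_congr rfl fun _ _ => Fintype.card_fin _
  rw [← hcard]
  refine card_le_hilb (M := Sum.elim (fun a => u a.1 * M a.1 a.2) (fun i => G * N i)) ?_ ?_
  · rintro (⟨q', i⟩ | i)
    · have := (hu q'.1 q'.2).1.mul (hM q'.1 i)
      have h5 : c + (J - c) = J := by omega
      rwa [h5] at this
    · have := hG.mul (hN i)
      have h5 : d + (J - d) = J := by omega
      rwa [h5] at this
  · intro a ha
    rw [Fintype.sum_sum_type] at ha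
    simp only [Sum.elim_inl, Sum.elim_inr] at ha
    have hG2 : ∑ i, C (a (Sum.inr i)) * (G * N i) = G * ∑ i, C (a (Sum.inr i)) * N i := by
      rw [Finset.mul_sum]
      exact Finset.sum_congr rfl fun i _ => by ring
    have h1 : ∀ q' : T, ∀ i, a (Sum.inl ⟨q', i⟩) = 0 := by
      intro q'
      have h2 : u q'.1 * ∑ i, C (a (Sum.inl ⟨q', i⟩)) * M q'.1 i ∈ q'.1 := by
        have h3 := (hTq q'.1 q'.2).1 ha
        have h4 : ∑ i, C (a (Sum.inr i)) * (G * N i) ∈ q'.1 := by
          rw [hG2]; exact Ideal.mul_mem_right _ _ (hTq q'.1 q'.2).2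
        have h5 := (Ideal.add_mem_iff_left _ h4).1 h3
        rw [Fintype.sum_sigma] at h5
        rw [← Finset.add_sum_erase _ _ (Finset.mem_univ q')] at h5
        have h6 : ∑ x ∈ Finset.univ.erase q', ∑ y, C (a (Sum.inl ⟨x, y⟩)) * (u x.1 * M x.1 y) ∈
            q'.1 := by
          refine Ideal.sum_mem _ fun x hx => Ideal.sum_mem _ fun y _ => ?_
          rw [Finset.mem_erase] at hx
          apply Ideal.mul_mem_left
          apply Ideal.mul_mem_right
          exact (hu x.1 x.2).2.2 q'.1 q'.2 (fun h => hx.1 (Subtype.ext h.symm))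
        have h7 := (Ideal.add_mem_iff_left _ h6).1 h5
        rw [Finset.mul_sum]
        convert! h7 using 1
        exact Finset.sum_congr rfl fun i _ => by ring
      have h3 := ((hT q'.1 q'.2).mem_or_mem h2).resolve_left (hu q'.1 q'.2).2.1
      exact fun i => congrFun (hM2 q'.1 _ h3) i
    have h2 : G * ∑ i, C (a (Sum.inr i)) * N i ∈ q := by
      rw [← hG2]
      have h3 : ∑ x : (Σ q' : T, Fin (hilb q'.1 (J - c))), C (a (Sum.inl x)) * (u x.1 * M x.1 x.2) =
          0 := by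
        refine Finset.sum_eq_zero fun x _ => ?_
        rw [h1 x.1 x.2, C_0, zero_mul]
      rw [h3, zero_add] at ha
      exact ha
    have h3 := (hq.mem_or_mem h2).resolve_left hGq
    have h4 := hN2 _ h3
    funext x
    rcases x with ⟨q', i⟩ | i
    · exact h1 q' i
    · exact congrFun h4 i

end

end Pool.Agent.Helper11
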