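import Pool.Agent.Helper11.HilbDefs

/-! Transcendence degree modulo a prime ideal of a polynomial ring -/

set_option linter.unusedSectionVars false

namespace Pool.Agent.Helper11

open MvPolynomial

section

variable {k ι : Type*} [Field k] [Fintype ι]

/-- algebraic independence modulo an ideal -/
def AIM {β : Type*} (q : Ideal (MvPolynomial ι k)) (Z : β → MvPolynomial ι k) : Prop :=
  ∀ f : MvPolynomial β k, aeval Z f ∈ q → f = 0

theorem mk_aeval {β : Type*} (q : Ideal (MvPolynomial ι k)) (Z : β → MvPolynomial ι k)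
    (f : MvPolynomial β k) :
    Ideal.Quotient.mk q (aeval Z f) = aeval (fun i => Ideal.Quotient.mk q (Z i)) f := by
  have := (aeval_unique ((Ideal.Quotient.mkₐ k q).comp (aeval Z))).symm
  have h2 := congrArg (fun g => g f) this
  simp only [AlgHom.comp_apply] at h2
  have h3 : (fun i => (Ideal.Quotient.mkₐ k q) ((aeval Z) (X i : MvPolynomial β k))) =
      fun i => Ideal.Quotient.mk q (Z i) := by
    funext i
    rw [aeval_X]; rfl
  have h4 : (⇑((Ideal.Quotient.mkₐ k q).comp (aeval Z)) ∘ X : β → _) =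
      fun i => Ideal.Quotient.mk q (Z i) := h3
  rw [h4] at h2
  exact h2.symm

theorem aim_iff {β : Type*} (q : Ideal (MvPolynomial ι k)) (Z : β → MvPolynomial ι k) :
    AIM q Z ↔ AlgebraicIndependent k fun i => Ideal.Quotient.mk q (Z i) := by
  rw [algebraicIndependent_iff]
  unfold AIM
  constructor
  · intro h f hf
    apply h
    rw [← Ideal.Quotient.eq_zero_iff_mem, mk_aeval]; exact hf
  · intro h f hf
    apply h
    rw [← Ideal.Quotient.eq_zero_iff_mem, mk_aeval] at hf; exact hf

/-- the transcendence degree modulo an ideal -/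
noncomputable def tdeg (q : Ideal (MvPolynomial ι k)) : ℕ :=
  (Algebra.trdeg k (MvPolynomial ι k ⧸ q)).toNat

variable {q : Ideal (MvPolynomial ι k)}

variable (q) in
theorem trdeg_eq_tdeg :
    Algebra.trdeg k (MvPolynomial ι k ⧸ q) = (tdeg q : Cardinal) := by
  have h : Algebra.trdeg k (MvPolynomial ι k ⧸ q) < Cardinal.aleph0 :=
    trdeg_lt_aleph0_of_finiteType
  unfold tdeg
  rw [Cardinal.cast_toNat_of_lt_aleph0 h]

theorem le_tdeg (hq : q.IsPrime) {n : ℕ} {Z : Fin n → MvPolynomial ι k} (h : AIM q Z) :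
    n ≤ tdeg q := by
  have : Nontrivial (MvPolynomial ι k ⧸ q) := Ideal.Quotient.nontrivial_iff.2 hq.ne_top
  rw [aim_iff] at h
  have h1 := h.lift_cardinalMk_le_trdeg
  rw [trdeg_eq_tdeg q, Cardinal.mk_fin, Cardinal.lift_natCast, Cardinal.lift_natCast] at h1
  exact_mod_cast h1

theorem exists_aim (hq : q.IsPrime) :
    ∃ s : Fin (tdeg q) → ι, AIM q fun a => (X (s a) : MvPolynomial ι k) := by
  classical
  have hdom : IsDomain (MvPolynomial ι k ⧸ q) := Ideal.Quotient.isDomain q
  set x : ι → MvPolynomial ι k ⧸ q := fun i => Ideal.Quotient.mk q (X i) with hx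
  have hadj : Algebra.adjoin k (Set.range x) = ⊤ := by
    rw [Algebra.adjoin_range_eq_range_aeval, AlgHom.range_eq_top]
    intro y
    obtain ⟨P, rfl⟩ := Ideal.Quotient.mk_surjective y
    refine ⟨P, ?_⟩
    have := mk_aeval q (fun i => (X i : MvPolynomial ι k)) P
    rw [aeval_X_left_apply] at this
    exact this.symm
  have halg : Algebra.IsAlgebraic (Algebra.adjoin k (Set.range x)) (MvPolynomial ι k ⧸ q) := by
    rw [hadj]
    refine ⟨fun y => ?_⟩
    exact isAlgebraic_algebraMap (⟨y, Algebra.mem_top⟩ : (⊤ : Subalgebra k (MvPolynomial ι k ⧸ q)))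
  obtain ⟨t, hts, ht⟩ := exists_isTranscendenceBasis_subset (R := k) (Set.range x)
  have hcard := ht.cardinalMk_eq_trdeg
  rw [trdeg_eq_tdeg q] at hcard
  have hfin : Finite t := by
    rw [← Cardinal.lt_aleph0_iff_finite, hcard]
    exact Cardinal.natCast_lt_aleph0
  have : Fintype t := Fintype.ofFinite t
  have hcard2 : Fintype.card t = tdeg q := by
    rw [Cardinal.mk_fintype] at hcard
    exact_mod_cast hcard
  let e : Fin (tdeg q) ≃ t := (Fintype.equivFinOfCardEq hcard2).symm
  have hch : ∀ a : Fin (tdeg q), ∃ i : ι, x i = (e a : MvPolynomial ι k ⧸ q) := fun a =>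
    hts (e a).2
  choose s hs using hch
  refine ⟨s, ?_⟩
  rw [aim_iff]
  have h1 := ht.1.comp e e.injective
  have h2 : (fun i => Ideal.Quotient.mk q (X (s i))) =
      (fun x : t => (x : MvPolynomial ι k ⧸ q)) ∘ e := by
    funext a
    exact hs a
  rw [h2]
  exact h1

theorem multichoose_le_hilb (hq : q.IsPrime) (j : ℕ) : (tdeg q).multichoose j ≤ hilb q j := by
  classical
  obtain ⟨s, hs⟩ := exists_aim hq
  rw [← Fintype.card_fin (tdeg q), ← Sym.card_sym_eq_multichoose (Fin (tdeg q)) j]
  let e : Sym (Fin (tdeg q)) j → (Fin (tdeg q) →₀ ℕ) := fun d => Multiset.toFinsupp (d : Multiset _)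
  have he : Function.Injective e := by
    intro a b hab
    exact Subtype.ext (Multiset.toFinsupp.injective hab)
  have hdeg : ∀ d, (e d).degree = j := by
    intro d
    rw [Finsupp.degree_eq_sum]
    have h2 : Multiset.card (d : Multiset (Fin (tdeg q))) = j := d.2
    conv_rhs => rw [← h2]
    have h3 := Multiset.sum_count_eq_card (s := Finset.univ) (m := (d : Multiset (Fin (tdeg q))))
      (fun a _ => Finset.mem_univ a)
    rw [← h3]
    refine Finset.sum_congr rfl fun i _ => ?_
    rw [Multiset.toFinsupp_apply]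
  refine card_le_hilb (M := fun d => aeval (fun a => (X (s a) : MvPolynomial ι k))
    (monomial (e d) (1 : k))) ?_ ?_
  · intro d
    have h1 := (isHomogeneous_monomial (1 : k) (hdeg d)).aeval
      (fun a => (X (s a) : MvPolynomial ι k)) (n := 1) (fun a => isHomogeneous_X k (s a))
    rwa [one_mul] at h1
  · intro c hc
    have h1 : ∑ d, C (c d) * aeval (fun a => (X (s a) : MvPolynomial ι k)) (monomial (e d) (1 : k)) =
        aeval (fun a => (X (s a) : MvPolynomial ι k)) (∑ d, monomial (e d) (c d)) := by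
      rw [map_sum]
      refine Finset.sum_congr rfl fun d _ => ?_
      have h2 : (monomial (e d) (c d) : MvPolynomial (Fin (tdeg q)) k) =
          C (c d) * monomial (e d) 1 := by
        rw [C_mul_monomial, mul_one]
      rw [h2, map_mul, aeval_C]
      rfl
    rw [h1] at hc
    have h2 := hs _ hc
    funext d
    have h3 := congrArg (coeff (e d)) h2
    rw [coeff_sum, coeff_zero] at h3
    rw [Finset.sum_eq_single d] at h3
    · rw [coeff_monomial, if_pos rfl] at h3
      exact h3
    · intro d' _ hd'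
      rw [coeff_monomial, if_neg (fun h => hd' (he h))]
    · intro h; exact absurd (Finset.mem_univ _) h

theorem aim_mono {q q' : Ideal (MvPolynomial ι k)} (h : q ≤ q') {β : Type*}
    {Z : β → MvPolynomial ι k} (hZ : AIM q' Z) : AIM q Z := fun f hf => hZ f (h hf)

theorem tdeg_lt {q q' : Ideal (MvPolynomial ι k)} (hq : q.IsPrime) (hq' : q'.IsPrime) (h : q < q') :
    tdeg q' < tdeg q := by
  classical
  have hdom : IsDomain (MvPolynomial ι k ⧸ q) := Ideal.Quotient.isDomain q
  obtain ⟨s, hs⟩ := exists_aim hq'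
  have hs2 := aim_mono h.le hs
  have hle := le_tdeg hq hs2
  refine lt_of_le_of_ne hle fun heq => ?_
  rw [aim_iff] at hs2
  have htb := hs2.isTranscendenceBasis_of_lift_trdeg_le_of_finite (by
    rw [trdeg_eq_tdeg q, Cardinal.mk_fin, Cardinal.lift_natCast, Cardinal.lift_natCast, heq])
  have halg := htb.isAlgebraic
  obtain ⟨g, hg', hg⟩ := Set.exists_of_ssubset h
  have hg0 : Ideal.Quotient.mk q g ≠ 0 := by
    rwa [Ne, Ideal.Quotient.eq_zero_iff_mem]
  obtain ⟨r, hr0, hr⟩ := (halg.isAlgebraic (Ideal.Quotient.mk q g)).exists_nonzero_dvd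
    (mem_nonZeroDivisors_of_ne_zero hg0)
  -- `r` is a polynomial in the coordinates
  have hr2 : (r : MvPolynomial ι k ⧸ q) ∈
      (aeval (R := k) fun i => Ideal.Quotient.mk q (X (s i))).range := by
    rw [← Algebra.adjoin_range_eq_range_aeval]; exact r.2
  obtain ⟨f, hf⟩ := hr2
  have h1 : algebraMap (Algebra.adjoin k (Set.range fun i => Ideal.Quotient.mk q (X (s i))))
      (MvPolynomial ι k ⧸ q) r = (r : MvPolynomial ι k ⧸ q) := rfl
  have hf2 : Ideal.Quotient.mk q (aeval (fun a => (X (s a) : MvPolynomial ι k)) f) =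
      (r : MvPolynomial ι k ⧸ q) := by
    rw [mk_aeval]; exact hf
  rw [h1, ← hf2] at hr
  obtain ⟨y, hy⟩ := hr
  obtain ⟨y, rfl⟩ := Ideal.Quotient.mk_surjective y
  rw [← map_mul, Ideal.Quotient.eq] at hy
  have h3 : aeval (fun a => (X (s a) : MvPolynomial ι k)) f ∈ q' := by
    have h4 := q'.add_mem (h.le hy) (q'.mul_mem_right y hg')
    rwa [sub_add_cancel] at h4
  have h5 := hs f h3
  apply hr0
  apply Subtype.ext
  rw [← hf2, h5, map_zero, map_zero]
  rfl

theorem le_tdeg' (hq : q.IsPrime) {β : Type*} [Fintype β] {Z : β → MvPolynomial ι k}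
    (h : AIM q Z) : Fintype.card β ≤ tdeg q := by
  apply le_tdeg hq (Z := Z ∘ (Fintype.equivFin β).symm)
  rw [aim_iff] at h ⊢
  exact h.comp _ (Fintype.equivFin β).symm.injective

end

section krull

variable {k ι : Type*} [Field k] [Fintype ι]

/-- a prime element of a polynomial ring involves some variable -/
theorem exists_degreeOf_ne_zero {s : ℕ} {p : MvPolynomial (Fin s) k} (hp : Prime p) :
    ∃ i, p.degreeOf i ≠ 0 := by
  by_contra hcon
  push Not at hcon
  have h1 : p = C (p.coeff 0) := by
    ext m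
    rw [coeff_C]
    split_ifs with h
    · rw [h]
    · by_contra h2
      have hm : m ∈ p.support := mem_support_iff.2 h2
      apply h
      ext i
      have h3 := degreeOf_le_iff.1 (hcon i).le m hm
      simp at h3
      simp [h3]
  apply hp.not_isUnit
  rw [h1]
  apply IsUnit.map
  rw [isUnit_iff_ne_zero]
  intro h0
  rw [h0, C_0] at h1
  exact hp.ne_zero h1

theorem not_dvd_rename {s : ℕ} {p : MvPolynomial (Fin s) k} {i : Fin s} (hi : p.degreeOf i ≠ 0)
    {f : MvPolynomial {j : Fin s // j ≠ i} k} (hf : f ≠ 0) :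
    ¬ p ∣ rename (Subtype.val : {j : Fin s // j ≠ i} → Fin s) f := by
  classical
  rintro ⟨c, hc⟩
  have h0 : rename (Subtype.val : {j : Fin s // j ≠ i} → Fin s) f ≠ 0 := by
    intro h
    exact hf (rename_injective _ Subtype.val_injective (by rw [h, map_zero]))
  have hpc : p * c ≠ 0 := by rwa [← hc]
  have h1 := degreeOf_mul_eq (n := i) (left_ne_zero_of_mul hpc) (right_ne_zero_of_mul hpc)
  rw [← hc] at h1
  have h2 : (rename (Subtype.val : {j : Fin s // j ≠ i} → Fin s) f).degreeOf i = 0 := by
    rw [degreeOf_def, degrees_rename_of_injective Subtype.val_injective, Multiset.count_eq_zero]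
    intro h
    rw [Multiset.mem_map] at h
    obtain ⟨j, _, hj⟩ := h
    exact j.2 hj
  omega

/-- Krull's principal ideal theorem in terms of transcendence degrees -/
theorem tdeg_child {q q' : Ideal (MvPolynomial ι k)} (hq : q.IsPrime) {G : MvPolynomial ι k}
    (hG : G ∉ q) (hq' : q' ∈ (q ⊔ Ideal.span {G}).minimalPrimes) : tdeg q ≤ tdeg q' + 1 := by
  classical
  have hdom : IsDomain (MvPolynomial ι k ⧸ q) := Ideal.Quotient.isDomain q
  have hq'prime : q'.IsPrime := hq'.isPrime
  have hle : q ≤ q' := le_trans le_sup_left hq'.le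
  have hGq' : G ∈ q' := hq'.le (Ideal.mem_sup_right (Ideal.mem_span_singleton_self G))
  have hht := Ideal.map_height_le_one_of_mem_minimalPrimes hq'
  set A := MvPolynomial ι k ⧸ q with hA
  set P : Ideal A := q'.map (Ideal.Quotient.mk q) with hP
  have hPprime : P.IsPrime := Ideal.map_isPrime_of_surjective Ideal.Quotient.mk_surjective
    (by rw [Ideal.mk_ker]; exact hle)
  obtain ⟨s, g, hginj, hgint⟩ := exists_integral_inj_algHom_of_fg k A
  let _ : Algebra (MvPolynomial (Fin s) k) A := g.toRingHom.toAlgebra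
  have halgmap : ∀ f, algebraMap (MvPolynomial (Fin s) k) A f = g f := fun f => rfl
  have hint : Algebra.IsIntegral (MvPolynomial (Fin s) k) A := ⟨hgint⟩
  have hfaith : FaithfulSMul (MvPolynomial (Fin s) k) A :=
    (faithfulSMul_iff_algebraMap_injective _ _).2 hginj
  -- upper bound for the transcendence degree of `A`
  have hs : tdeg q ≤ s := by
    have hrange : Algebra.adjoin k (Set.range fun a : Fin s => g (X a)) = g.range := by
      rw [Algebra.adjoin_range_eq_range_aeval]
      congr 1
      exact (aeval_unique g).symm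
    have halg : Algebra.IsAlgebraic (Algebra.adjoin k (Set.range fun a : Fin s => g (X a))) A := by
      rw [hrange]
      refine ⟨fun y => ?_⟩
      obtain ⟨Q, hQ, hQ2⟩ := hgint y
      refine ⟨Q.map g.rangeRestrict.toRingHom, ?_, ?_⟩
      · exact (hQ.map _).ne_zero
      · rw [Polynomial.aeval_def, Polynomial.eval₂_map]
        exact hQ2
    have h1 := Algebra.IsAlgebraic.trdeg_le_cardinalMk k (Set.range fun a : Fin s => g (X a))
    have h2 : Cardinal.mk (Set.range fun a : Fin s => g (X a)) ≤ (s : Cardinal) := by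
      have := Cardinal.mk_range_le_lift (f := fun a : Fin s => g (X a))
      simpa using this
    have h3 := h1.trans h2
    rw [trdeg_eq_tdeg q] at h3
    exact_mod_cast h3
  -- the contraction of `P`
  have hPne : P ≠ ⊥ := by
    intro h0
    apply hG
    have h1 : Ideal.Quotient.mk q G ∈ P := Ideal.mem_map_of_mem _ hGq'
    rw [h0, Ideal.mem_bot] at h1
    exact Ideal.Quotient.eq_zero_iff_mem.1 h1
  set PB : Ideal (MvPolynomial (Fin s) k) := P.under (MvPolynomial (Fin s) k) with hPB
  have hPBprime : PB.IsPrime := Ideal.comap_isPrime _ _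
  have hPBne : PB ≠ ⊥ := fun h0 => hPne (Ideal.eq_bot_of_comap_eq_bot h0)
  obtain ⟨p, hpPB, hp⟩ := hPBprime.exists_mem_prime_of_ne_bot hPBne
  have hpprime : (Ideal.span {p} : Ideal (MvPolynomial (Fin s) k)).IsPrime :=
    (Ideal.span_singleton_prime hp.ne_zero).2 hp
  have hlies : P.LiesOver PB := ⟨rfl⟩
  obtain ⟨P', hP'le, hP'prime, hP'over⟩ := Ideal.exists_ideal_le_liesOver_of_le
    (p := Ideal.span {p}) (q := PB) P ((Ideal.span_singleton_le_iff_mem _).2 hpPB)
  have hP'ne : P' ≠ ⊥ := by
    intro h0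
    have h1 : (Ideal.span {p} : Ideal (MvPolynomial (Fin s) k)) = P'.under _ := hP'over.over
    rw [h0] at h1
    have h2 : p ∈ (⊥ : Ideal A).under (MvPolynomial (Fin s) k) := by
      rw [← h1]; exact Ideal.mem_span_singleton_self p
    have h3 : g p = 0 := h2
    exact hp.ne_zero (hginj (by rw [h3, map_zero]))
  have hP'eq : P' = P := by
    by_contra hne
    have hlt : P' < P := lt_of_le_of_ne hP'le hne
    have h1 := Ideal.height_strict_mono_of_isPrime_of_isPrime hlt
    have h2 : P'.height < 1 := lt_of_lt_of_le h1 hht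
    have h3 : P'.height = 0 := Order.lt_one_iff.1 h2
    exact hP'ne (Ideal.height_eq_zero_iff_eq_bot.1 h3)
  have hPBeq : ∀ f, g f ∈ P → p ∣ f := by
    intro f hf
    have h1 : (Ideal.span {p} : Ideal (MvPolynomial (Fin s) k)) = P'.under _ := hP'over.over
    rw [hP'eq] at h1
    rw [← Ideal.mem_span_singleton, h1]
    exact hf
  obtain ⟨i, hi⟩ := exists_degreeOf_ne_zero hp
  -- lift the coordinates
  have hlift : ∀ j : {j : Fin s // j ≠ i}, ∃ Z : MvPolynomial ι k,
      Ideal.Quotient.mk q Z = g (X (j : Fin s)) := fun j => Ideal.Quotient.mk_surjective _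
  choose Z hZ using hlift
  have hZaim : AIM q' Z := by
    intro f hf
    by_contra hf0
    apply not_dvd_rename hi hf0
    apply hPBeq
    have h1 : Ideal.Quotient.mk q (aeval Z f) ∈ P := Ideal.mem_map_of_mem _ hf
    rw [mk_aeval] at h1
    have h2 : (fun j => Ideal.Quotient.mk q (Z j)) =
        fun j : {j : Fin s // j ≠ i} => g (X (j : Fin s)) := funext hZ
    rw [h2] at h1
    have h3 : g (rename (Subtype.val : {j : Fin s // j ≠ i} → Fin s) f) =
        aeval (fun j : {j : Fin s // j ≠ i} => g (X (j : Fin s))) f := by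
      have h4 := (aeval_unique g)
      conv_lhs => rw [h4]
      rw [aeval_rename]
      rfl
    rw [h3]
    exact h1
  have h1 := le_tdeg' hq'prime hZaim
  rw [Fintype.card_subtype_compl, Fintype.card_fin, Fintype.card_unique] at h1
  omega

end krull

end Pool.Agent.Helper11
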