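import Pool.Agent.Helper11.ExcGood

/-! Linear subspaces avoiding a closed set; generically reduced divisors -/

set_option linter.unusedSectionVars false

namespace Pool.Agent.Helper11

open MvPolynomial

section

variable {k ι : Type*} [Field k] [Fintype ι] [IsAlgClosed k]

attribute [local instance] MvPolynomial.gradedAlgebra

theorem homI_of_minimalPrimes {q q' : Ideal (MvPolynomial ι k)} (hq : HomI q)
    (hq' : q' ∈ q.minimalPrimes) : HomI q' := by
  rw [homI_iff] at hq ⊢
  have hprime : q'.IsPrime := hq'.isPrime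
  have h2 : (q'.homogeneousCore (homogeneousSubmodule ι k)).toIdeal.IsPrime :=
    Ideal.IsPrime.homogeneousCore hprime
  have h3 : q ≤ (q'.homogeneousCore (homogeneousSubmodule ι k)).toIdeal := by
    intro F hF
    rw [← sum_homogeneousComponent F]
    refine Ideal.sum_mem _ fun d _ => ?_
    apply Ideal.mem_homogeneousCore_of_homogeneous_of_mem
    · exact ⟨d, homogeneousComponent_isHomogeneous _ _⟩
    · apply hq'.le
      have := hq d hF
      rwa [← decomposition.decompose'_apply]
  have h4 := hq'.2 ⟨h2, h3⟩ (Ideal.toIdeal_homogeneousCore_le _ _)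
  have h5 : (q'.homogeneousCore (homogeneousSubmodule ι k)).toIdeal = q' :=
    le_antisymm (Ideal.toIdeal_homogeneousCore_le _ _) h4
  rw [← h5]
  exact (q'.homogeneousCore (homogeneousSubmodule ι k)).isHomogeneous

theorem homI_sup_span {q : Ideal (MvPolynomial ι k)} (hq : HomI q) {G : MvPolynomial ι k} {d : ℕ}
    (hG : G.IsHomogeneous d) : HomI (q ⊔ Ideal.span {G}) := by
  rw [homI_iff] at hq ⊢
  apply hq.sup
  apply Ideal.homogeneous_span
  rintro x rfl
  exact ⟨d, hG⟩

theorem exists_point_of_prime {q : Ideal (MvPolynomial ι k)} (hq : q.IsPrime)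
    (h : 1 ≤ tdeg q) : ∃ x ∈ zs q, x ≠ 0 := by
  obtain ⟨i, hi⟩ := exists_X_notMem_of_tdeg hq h
  by_contra hcon
  push Not at hcon
  apply hi
  apply mem_of_zero_on_zs hq
  intro x hx
  rw [hcon x hx]
  simp

/-- a linear form which does not vanish at finitely many points -/
theorem exists_linear_form (T : Finset (ι → k)) (hT : ∀ x ∈ T, x ≠ 0) :
    ∃ c : ι → k, ∀ x ∈ T, ∑ i, c i * x i ≠ 0 := by
  classical
  have h1 : (∏ x ∈ T, ∑ i, X i * C (x i) : MvPolynomial ι k) ≠ 0 := by
    rw [Finset.prod_ne_zero_iff]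
    intro x hx h0
    apply hT x hx
    funext i
    have h2 := congrArg (eval (Pi.single i 1 : ι → k)) h0
    rw [map_sum, map_zero] at h2
    simp only [map_mul, eval_X, eval_C] at h2
    rw [Finset.sum_eq_single i] at h2
    · simpa using h2
    · intro j _ hj
      rw [Pi.single_eq_of_ne hj, zero_mul]
    · intro h; exact absurd (Finset.mem_univ _) h
  obtain ⟨c, hc⟩ : ∃ c : ι → k, eval c (∏ x ∈ T, ∑ i, X i * C (x i) : MvPolynomial ι k) ≠ 0 := by
    by_contra hcon
    push Not at hcon
    apply h1
    apply MvPolynomial.funext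
    intro c
    rw [hcon c, map_zero]
  refine ⟨c, fun x hx => ?_⟩
  rw [map_prod, Finset.prod_ne_zero_iff] at hc
  have h2 := hc x hx
  rw [map_sum] at h2
  simpa using h2

/-- the linear form with given coefficients -/
noncomputable def lform (c : ι → k) : MvPolynomial ι k := ∑ i, C (c i) * X i

theorem isHomogeneous_lform (c : ι → k) : (lform c).IsHomogeneous 1 := by
  refine IsHomogeneous.sum _ _ _ fun i _ => ?_
  have := (isHomogeneous_C ι (c i)).mul (isHomogeneous_X k i)
  rwa [zero_add] at this

theorem eval_lform (c x : ι → k) : eval x (lform c) = ∑ i, c i * x i := by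
  unfold lform
  rw [map_sum]
  simp

/-- a linear subspace of the expected codimension avoiding a closed set -/
theorem exists_linear_avoid (D : ℕ) : ∀ {q : Ideal (MvPolynomial ι k)} (_ : HomI q)
    (_ : ∀ q' : Ideal (MvPolynomial ι k), q'.IsPrime → HomI q' → q ≤ q' → tdeg q' ≤ D),
    ∃ c : Fin D → ι → k, ∀ x ∈ zs q, (∀ i, ∑ j, c i j * x j = 0) → x = 0 := by
  classical
  induction D with
  | zero =>
    intro q hq h
    refine ⟨fun i => i.elim0, fun x hx _ => ?_⟩
    by_contra h0
    have hle : q ≤ RingHom.ker (eval x) := fun F hF => hx F hF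
    have hker : (RingHom.ker (eval x)).IsPrime := RingHom.ker_isPrime _
    obtain ⟨q', hq', hle'⟩ := Ideal.exists_minimalPrimes_le hle
    have h1 := h q' hq'.isPrime (homI_of_minimalPrimes hq hq') hq'.le
    have h2 := one_le_tdeg hq'.isPrime (homI_of_minimalPrimes hq hq') (p := x)
      (fun F hF => hle' hF) h0
    omega
  | succ D ih =>
    intro q hq h
    -- points on the components
    set T : Finset (Ideal (MvPolynomial ι k)) :=
      (Ideal.finite_minimalPrimes_of_isNoetherianRing _ q).toFinset.filter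
        (fun q' => 1 ≤ tdeg q') with hT
    have hpt : ∀ q' : Ideal (MvPolynomial ι k), ∃ x : ι → k, q' ∈ T → x ∈ zs q' ∧ x ≠ 0 := by
      intro q'
      by_cases hq' : q' ∈ T
      · rw [hT, Finset.mem_filter, Set.Finite.mem_toFinset] at hq'
        obtain ⟨x, hx, hx0⟩ := exists_point_of_prime hq'.1.isPrime hq'.2
        exact ⟨x, fun _ => ⟨hx, hx0⟩⟩
      · exact ⟨0, fun h => absurd h hq'⟩
    choose pt hpt using hpt
    obtain ⟨c₀, hc₀⟩ := exists_linear_form (T.image pt) (by
      intro x hx
      rw [Finset.mem_image] at hx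
      obtain ⟨q', hq', rfl⟩ := hx
      exact (hpt q' hq').2)
    have hnot : ∀ q' ∈ T, lform c₀ ∉ q' := by
      intro q' hq' hmem
      have h1 := (hpt q' hq').1 _ hmem
      rw [eval_lform] at h1
      exact hc₀ _ (Finset.mem_image_of_mem _ hq') h1
    obtain ⟨c, hc⟩ := ih (homI_sup_span hq (isHomogeneous_lform c₀)) (by
      intro q' hq'1 hq'2 hle
      have hle1 : q ≤ q' := le_trans le_sup_left hle
      have hmem : lform c₀ ∈ q' := hle (Ideal.mem_sup_right (Ideal.mem_span_singleton_self _))
      obtain ⟨q'', hq'', hle''⟩ := Ideal.exists_minimalPrimes_le hle1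
      have h1 := h q'' hq''.isPrime (homI_of_minimalPrimes hq hq'') hq''.le
      by_cases h2 : 1 ≤ tdeg q''
      · have h3 : q'' ∈ T := by
          rw [hT, Finset.mem_filter, Set.Finite.mem_toFinset]
          exact ⟨hq'', h2⟩
        have h4 : q'' < q' := lt_of_le_of_ne hle'' (fun h => hnot q'' h3 (by rw [h]; exact hmem))
        have h5 := tdeg_lt hq''.isPrime hq'1 h4
        omega
      · have h3 := tdeg_anti hq'1 hq''.isPrime hle''
        omega)
    refine ⟨Fin.cons c₀ c, fun x hx hx2 => hc x ?_ fun i => ?_⟩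
    · intro F hF
      rw [Submodule.mem_sup] at hF
      obtain ⟨a, ha, b, hb, rfl⟩ := hF
      rw [Ideal.mem_span_singleton'] at hb
      obtain ⟨g, rfl⟩ := hb
      have h0 := hx2 0
      rw [Fin.cons_zero] at h0
      rw [map_add, map_mul, hx a ha, eval_lform, h0, mul_zero, add_zero]
    · have := hx2 i.succ
      rwa [Fin.cons_succ] at this

end

section reduced

variable {k ι : Type*} [Field k] [Fintype ι] [IsAlgClosed k] [CharZero k]

attribute [local instance] MvPolynomial.gradedAlgebra

theorem homI_span_union {I : Ideal (MvPolynomial ι k)} (hI : HomI I)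
    {S : Set (MvPolynomial ι k)} (hS : ∀ G ∈ S, ∃ d, G.IsHomogeneous d) :
    HomI (Ideal.span ((I : Set (MvPolynomial ι k)) ∪ S)) := by
  rw [Ideal.span_union, Ideal.span_eq]
  rw [homI_iff] at hI ⊢
  apply hI.sup
  apply Ideal.homogeneous_span
  intro x hx
  exact hS x hx

/-- the rank of the Jacobian matrix is at most the codimension -/
theorem finrank_conormal_le {I : Ideal (MvPolynomial ι k)} (hIp : I.IsPrime)
    {c : ℕ} (hc : Fintype.card ι ≤ c + tdeg I) {x : ι → k} (hx : x ∈ zs I) :
    Module.finrank k (conormal I x) ≤ c := by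
  classical
  by_contra hcon
  push Not at hcon
  have h3 := Submodule.exists_fun_fin_finrank_span_eq k {v | ∃ F ∈ I, v = grad F x}
  obtain ⟨v, hv, hv2, hv3⟩ := h3
  choose F hF hFv using hv
  have hcast : ∀ a : Fin (c + 1), (a : ℕ) < Module.finrank k (Submodule.span k
      {v | ∃ F ∈ I, v = grad F x}) := fun a => by
    have h1 : c < Module.finrank k (Submodule.span k {v | ∃ F ∈ I, v = grad F x}) := hcon
    have h2 := a.2
    omega
  let e : Fin (c + 1) → Fin (Module.finrank k (Submodule.span k
      {v | ∃ F ∈ I, v = grad F x})) := fun a => ⟨a, hcast a⟩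
  have he : Function.Injective e := fun a b hab => Fin.ext (by
    have := congrArg Fin.val hab
    exact this)
  have hli : LinearIndependent k (v ∘ e) := hv3.comp e he
  obtain ⟨σ, hσ⟩ := exists_minor_ne_zero (Matrix.of (v ∘ e)) hli
  apply hσ
  have h4 := hx _ (minors_mem_dim hIp hc (F := F ∘ e) (fun a => hF _) σ)
  rw [RingHom.map_det] at h4
  rw [← h4]
  congr 1
  ext a b
  simp [hFv, grad]

/-- the smooth points of a divisor are those at which some minor does not vanish -/
theorem smooth_of_notMem_zs {I : Ideal (MvPolynomial ι k)} (hIp : I.IsPrime)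
    {c : ℕ} (hc : Fintype.card ι ≤ c + tdeg I) {G : MvPolynomial ι k} {x : ι → k}
    (hx : x ∈ zs I) {F : Fin c → MvPolynomial ι k} (hF : ∀ a, F a ∈ I) {σ : Fin (c + 1) → ι}
    (hne : eval x (detP G F σ) ≠ 0) :
    Module.finrank k (conormal I x) = c ∧ grad G x ∉ conormal I x := by
  have hle := finrank_conormal_le hIp hc hx
  have hli : LinearIndependent k (Fin.cons (grad G x) (fun i => grad (F i) x) :
      Fin (c + 1) → ι → k) := by
    rw [Fintype.linearIndependent_iff]
    by_contra hcon
    push Not at hcon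
    obtain ⟨g, hg, i, hi⟩ := hcon
    apply hne
    unfold detP
    rw [map_det_consM, ← Matrix.exists_vecMul_eq_zero_iff]
    refine ⟨g, fun h0 => hi (congrFun h0 i), ?_⟩
    funext b
    have h1 := congrFun hg (σ b)
    rw [Finset.sum_apply, Fin.sum_univ_succ] at h1
    simp only [Matrix.vecMul, dotProduct, Fin.sum_univ_succ, consM_zero, consM_succ]
    simpa [grad] using h1
  rw [linearIndependent_finCons] at hli
  obtain ⟨h1, h2⟩ := hli
  have h3 : Submodule.span k (Set.range fun i => grad (F i) x) ≤ conormal I x := by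
    rw [Submodule.span_le]
    rintro v ⟨i, rfl⟩
    exact Submodule.subset_span ⟨F i, hF i, rfl⟩
  have h4 : Module.finrank k (Submodule.span k (Set.range fun i => grad (F i) x)) = c := by
    rw [finrank_span_eq_card h1, Fintype.card_fin]
  have h5 : Submodule.span k (Set.range fun i => grad (F i) x) = conormal I x :=
    Submodule.eq_of_le_of_finrank_le h3 (by omega)
  refine ⟨by rw [← h5]; exact h4, ?_⟩
  rw [← h5]
  exact h2

/-- every component of the divisor contains a smooth point: a linear section of dimension one is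
contained in the smooth locus -/
theorem exists_linear_smooth {I : Ideal (MvPolynomial ι k)} (hIp : I.IsPrime) (hI : HomI I)
    {c : ℕ} (hc : Fintype.card ι ≤ c + tdeg I) {G : MvPolynomial ι k} {e : ℕ}
    (hG : G.IsHomogeneous e) {D : ℕ} (hD : tdeg I ≤ D + 2)
    (hred : ∀ 𝔮 ∈ (I ⊔ Ideal.span {G}).minimalPrimes, ∃ x ∈ zs 𝔮, x ≠ 0 ∧
      Module.finrank k (conormal I x) = c ∧ grad G x ∉ conormal I x) (hGI : G ∉ I) :
    ∃ lf : Fin D → MvPolynomial ι k, (∀ i, (lf i).IsHomogeneous 1) ∧
      ∀ x ∈ zs I, x ≠ 0 → (∀ i, eval x (lf i) = 0) → eval x G = 0 →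
        Module.finrank k (conormal I x) = c ∧ grad G x ∉ conormal I x := by
  classical
  have hhom : HomI (tanI I c G) := by
    apply homI_span_union hI
    rintro P (hP | ⟨F, σ, hF, rfl⟩)
    · rw [Set.mem_singleton_iff] at hP
      subst hP
      exact ⟨e, hG⟩
    · choose d hd using fun a => (hF a).2
      refine ⟨_, isHomogeneous_det (r := (Fin.cons (e - 1) (fun i => d i - 1) : Fin (c + 1) → ℕ))
        fun i j => ?_⟩
      refine Fin.cases ?_ (fun i => ?_) i
      · rw [consM_zero, Fin.cons_zero]; exact hG.pderiv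
      · rw [consM_succ, Fin.cons_succ]; exact (hd i).pderiv
  -- a smooth point is not in the zero set
  have hsm : ∀ x ∈ zs I, Module.finrank k (conormal I x) = c → grad G x ∉ conormal I x →
      x ∉ zs (tanI I c G) := by
    intro x hx h2 h1 hcon
    rw [conormal_eq_span_homogeneous hI] at h1 h2
    have h3 := Submodule.exists_fun_fin_finrank_span_eq k
      {v | ∃ F, (F ∈ I ∧ ∃ d, F.IsHomogeneous d) ∧ v = grad F x}
    rw [h2] at h3
    obtain ⟨v, hv, hv2, hv3⟩ := h3
    choose F hF hFv using hv
    have hli : LinearIndependent k (Fin.cons (grad G x) v : Fin (c + 1) → ι → k) :=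
      linearIndependent_finCons.2 ⟨hv3, by rw [hv2]; exact h1⟩
    obtain ⟨σ, hσ⟩ := exists_minor_ne_zero
      (Matrix.of (Fin.cons (grad G x) v : Fin (c + 1) → ι → k)) hli
    apply hσ
    have h4 := hcon _ (Ideal.subset_span (Or.inr (Or.inr ⟨F, σ, hF, rfl⟩)))
    unfold detP at h4
    rw [map_det_consM] at h4
    rw [← h4]
    congr 1
    ext a b
    refine Fin.cases ?_ (fun i => ?_) a
    · simp [consM_zero, grad]
    · simp [consM_succ, hFv, grad]
  obtain ⟨cf, hcf⟩ := exists_linear_avoid D hhom (by
    intro q' hq'1 hq'2 hle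
    have hle1 : I ⊔ Ideal.span {G} ≤ q' := by
      rw [sup_le_iff]
      refine ⟨fun F hF => hle (Ideal.subset_span (Or.inl hF)), ?_⟩
      rw [Ideal.span_singleton_le_iff_mem]
      exact hle (Ideal.subset_span (Or.inr (Or.inl rfl)))
    obtain ⟨𝔮, h𝔮, hle2⟩ := Ideal.exists_minimalPrimes_le hle1
    obtain ⟨x, hx, hx0, hx1, hx2⟩ := hred 𝔮 h𝔮
    have hxI : x ∈ zs I := fun F hF => hx F (h𝔮.le (Ideal.mem_sup_left hF))
    have hlt : 𝔮 < q' := by
      refine lt_of_le_of_ne hle2 fun h => ?_
      apply hsm x hxI hx1 hx2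
      intro F hF
      apply hx
      rw [h]
      exact hle hF
    have hlt2 : I < 𝔮 := by
      refine lt_of_le_of_ne (le_trans le_sup_left h𝔮.le) fun h => ?_
      apply hGI
      rw [h]
      exact h𝔮.le (Ideal.mem_sup_right (Ideal.mem_span_singleton_self _))
    have h1 := tdeg_lt h𝔮.isPrime hq'1 hlt
    have h2 := tdeg_lt hIp h𝔮.isPrime hlt2
    omega)
  refine ⟨fun i => lform (cf i), fun i => isHomogeneous_lform _, fun x hx hx0 hl hGx => ?_⟩
  by_contra hcon
  apply hx0
  apply hcf x _ fun i => by rw [← eval_lform]; exact hl i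
  intro F hF
  have hle : tanI I c G ≤ RingHom.ker (eval x) := by
    unfold tanI
    rw [Ideal.span_le]
    rintro P (hP | hP | ⟨F, σ, hF, rfl⟩)
    · exact hx P hP
    · rw [Set.mem_singleton_iff] at hP
      subst hP
      exact hGx
    · change eval x _ = 0
      by_contra hne
      exact hcon (smooth_of_notMem_zs hIp hc hx (fun a => (hF a).1) hne)
  exact hle hF

end reduced

end Pool.Agent.Helper11
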