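import Pool.Agent.Helper11.LinesFinal

set_option linter.unusedSectionVars false

namespace Pool.Agent.Helper11

open MvPolynomial

/-- index set of the monomials of degree less than `d` in two variables -/
abbrev MonIdx (d : ℕ) := (s : Fin d) × Fin ((s : ℕ) + 1)

theorem two_mul_card_monIdx (d : ℕ) : 2 * Fintype.card (MonIdx d) = d * (d + 1) := by
  rw [Fintype.card_sigma]
  simp only [Fintype.card_fin]
  rw [Fin.sum_univ_eq_sum_range (fun s => s + 1) d]
  induction d with
  | zero => simp
  | succ n ih => rw [Finset.sum_range_succ, mul_add, ih]; ring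

/-- the exponent `(j, s - j, d - s)` -/
noncomputable def expo (d s j : ℕ) : Fin 3 →₀ ℕ :=
  Finsupp.equivFunOnFinite.symm ![j, s - j, d - s]

theorem expo_zero (d s j : ℕ) : expo d s j 0 = j := rfl
theorem expo_one (d s j : ℕ) : expo d s j 1 = s - j := rfl
theorem expo_two (d s j : ℕ) : expo d s j 2 = d - s := rfl

section

variable {k : Type*} [Field k]

/-- the form with given coefficients -/
noncomputable def polyL (k : Type*) [Field k] (d : ℕ) :
    (MonIdx (d + 1) → k) →ₗ[k] MvPolynomial (Fin 3) k :=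
  ∑ i : MonIdx (d + 1), (LinearMap.proj i : (MonIdx (d + 1) → k) →ₗ[k] k).smulRight
    (monomial (expo d i.1 i.2) (1 : k))

theorem polyL_apply (d : ℕ) (c : MonIdx (d + 1) → k) :
    polyL k d c = ∑ i, monomial (expo d i.1 i.2) (c i) := by
  unfold polyL
  rw [LinearMap.sum_apply]
  refine Finset.sum_congr rfl fun i _ => ?_
  rw [LinearMap.smulRight_apply, LinearMap.proj_apply, smul_monomial, smul_eq_mul, mul_one]

theorem expo_inj {d : ℕ} {a b : MonIdx (d + 1)}
    (h : expo d a.1 a.2 = expo d b.1 b.2) : a = b := by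
  obtain ⟨⟨s, hs⟩, ⟨j, hj⟩⟩ := a
  obtain ⟨⟨s', hs'⟩, ⟨j', hj'⟩⟩ := b
  have h0 := DFunLike.congr_fun h 0
  have h1 := DFunLike.congr_fun h 1
  have h2 := DFunLike.congr_fun h 2
  simp only [expo_zero, expo_one, expo_two] at h0 h1 h2
  simp only at hj hj'
  obtain rfl : s = s' := by omega
  obtain rfl : j = j' := h0
  rfl

theorem coeff_polyL (d : ℕ) (c : MonIdx (d + 1) → k) (a : MonIdx (d + 1)) :
    coeff (expo d a.1 a.2) (polyL k d c) = c a := by
  classical
  rw [polyL_apply, coeff_sum, Finset.sum_eq_single a]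
  · rw [coeff_monomial, if_pos rfl]
  · intro b _ hb
    rw [coeff_monomial, if_neg]
    intro h
    exact hb (expo_inj h)
  · intro h; exact absurd (Finset.mem_univ _) h

theorem polyL_ne_zero {d : ℕ} {c : MonIdx (d + 1) → k} (hc : c ≠ 0) : polyL k d c ≠ 0 := by
  intro h
  apply hc
  ext a
  rw [← coeff_polyL d c a, h, coeff_zero]
  rfl

theorem degree_expo {d s j : ℕ} (hs : s ≤ d) (hj : j ≤ s) : (expo d s j).degree = d := by
  rw [Finsupp.degree_eq_sum, Fin.sum_univ_three, expo_zero, expo_one, expo_two]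
  omega

theorem isHomogeneous_polyL (d : ℕ) (c : MonIdx (d + 1) → k) : (polyL k d c).IsHomogeneous d := by
  rw [polyL_apply]
  refine IsHomogeneous.sum _ _ _ fun i _ => ?_
  exact isHomogeneous_monomial _ (degree_expo (by have := i.1.2; omega) (by have := i.2.2; omega))

theorem isHomogeneous_sub3 (A B H : Fin 3 → k) {G : MvPolynomial (Fin 3) k} {d : ℕ}
    (hG : G.IsHomogeneous d) : (sub3 A B H G).IsHomogeneous d := by
  have h := hG.aeval (fun i => X 0 * C (A i) + X 1 * C (B i) + X 2 * C (H i) :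
    Fin 3 → MvPolynomial (Fin 3) k) (n := 1) (fun i => by
      have h1 : ∀ (l : Fin 3) (b : k), (X l * C b : MvPolynomial (Fin 3) k).IsHomogeneous 1 :=
        fun l b => (isHomogeneous_X k l).mul (isHomogeneous_C _ b)
      exact ((h1 _ _).add (h1 _ _)).add (h1 _ _))
  rwa [one_mul] at h

/-- the conditions -/
noncomputable def condL {r : ℕ} (A B H : Fin r → Fin 3 → k) (d t : ℕ) :
    (MonIdx (d + 1) → k) →ₗ[k] (Fin r × MonIdx t → k) :=
  LinearMap.pi fun i =>
    (lcoeff k (expo d i.2.1 i.2.2)).comp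
      ((aeval (fun a => X 0 * C (A i.1 a) + X 1 * C (B i.1 a) + X 2 * C (H i.1 a) :
        Fin 3 → MvPolynomial (Fin 3) k)).toLinearMap.comp (polyL k d))

theorem condL_apply {r : ℕ} (A B H : Fin r → Fin 3 → k) (d t : ℕ) (c : MonIdx (d + 1) → k)
    (i : Fin r) (a : MonIdx t) :
    condL A B H d t c (i, a) =
      coeff (expo d a.1 a.2) (sub3 (A i) (B i) (H i) (polyL k d c)) := rfl

theorem exists_form {r : ℕ} (A B H : Fin r → Fin 3 → k) {d t : ℕ}
    (hcount : r * (t * (t + 1)) < (d + 1) * (d + 2)) :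
    ∃ G : MvPolynomial (Fin 3) k, G ≠ 0 ∧ G.IsHomogeneous d ∧
      ∀ i, MultAt G (A i) (B i) (H i) t := by
  have hker : (condL A B H d t).ker ≠ ⊥ := by
    apply LinearMap.ker_ne_bot_of_finrank_lt
    rw [Module.finrank_fintype_fun_eq_card, Module.finrank_fintype_fun_eq_card,
      Fintype.card_prod, Fintype.card_fin]
    have h1 := two_mul_card_monIdx t
    have h2 := two_mul_card_monIdx (d + 1)
    have h3 : 2 * (r * Fintype.card (MonIdx t)) < 2 * Fintype.card (MonIdx (d + 1)) := by
      rw [h2]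
      calc 2 * (r * Fintype.card (MonIdx t)) = r * (2 * Fintype.card (MonIdx t)) := by ring
        _ = r * (t * (t + 1)) := by rw [h1]
        _ < _ := hcount
    omega
  obtain ⟨c, hc, hc0⟩ := (Submodule.ne_bot_iff _).1 hker
  refine ⟨polyL k d c, polyL_ne_zero hc0, isHomogeneous_polyL d c, ?_⟩
  intro i a ha
  by_contra hlt
  push Not at hlt
  rw [mem_support_iff] at ha
  apply ha
  have hdeg : a 0 + a 1 + a 2 = d := by
    have h1 := isHomogeneous_sub3 (A i) (B i) (H i) (isHomogeneous_polyL d c) ha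
    rw [Finsupp.weight_apply, Finsupp.sum_fintype _ _ (fun _ => by simp), Fin.sum_univ_three] at h1
    simpa using h1
  have h2 : a = expo d (a 0 + a 1) (a 0) := by
    ext l
    match l with
    | 0 => rw [expo_zero]
    | 1 => rw [expo_one]; omega
    | 2 => rw [expo_two]; omega
  rw [LinearMap.mem_ker] at hc
  have h3 := congrFun hc (i, (⟨⟨a 0 + a 1, hlt⟩, ⟨a 0, by simp only; omega⟩⟩ : MonIdx t))
  rw [condL_apply] at h3
  simp only [Pi.zero_apply] at h3
  rw [h2]
  exact h3

end

end Pool.Agent.Helper11
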