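import Pool.Agent.Helper11.LinesExc
import Pool.Agent.Helper11.DefsC

set_option linter.unusedSectionVars false

namespace Pool.Agent.Helper11

open MvPolynomial

section

variable {k L : Type*} [Field k] [Field L] [Algebra k L] [FunField k L] [CharZero k]
  [IsAlgClosed k]

theorem cr_apply_eq_zero {a b : Fin 3 → L} (h : cr a b = 0) (i j : Fin 3) : a i * b j = a j * b i := by
  have h0 : a 1 * b 2 - a 2 * b 1 = 0 := congrFun h 0
  have h1 : a 2 * b 0 - a 0 * b 2 = 0 := congrFun h 1
  have h2 : a 0 * b 1 - a 1 * b 0 = 0 := congrFun h 2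
  have key : ∀ i j : Fin 3, a i * b j - a j * b i = 0 := by
    intro i j
    match i, j with
    | 0, 0 => ring
    | 0, 1 => exact h2
    | 0, 2 => linear_combination -h1
    | 1, 0 => linear_combination -h2
    | 1, 1 => ring
    | 1, 2 => exact h0
    | 2, 0 => exact h1
    | 2, 1 => linear_combination -h0
    | 2, 2 => ring
  exact sub_eq_zero.1 (key i j)

theorem isConstPt_of_cr_der {x : L} (hx : Transcendental k x) {p : Fin 3 → L}
    (h : cr p (fun i => der hx (p i)) = 0) : IsConstPt k p := by
  by_cases hp : ∃ j, p j ≠ 0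
  · obtain ⟨j, hj⟩ := hp
    have h1 : ∀ i, ∃ c : k, algebraMap k L c = p i / p j := by
      intro i
      rw [← der_eq_zero_iff hx]
      have h2 := cr_apply_eq_zero h i j
      rw [Derivation.leibniz_div]
      simp only [smul_eq_mul]
      rw [show p j * der hx (p i) - p i * der hx (p j) = 0 by linear_combination -h2, mul_zero]
    choose q hq using h1
    refine ⟨p j, q, fun i => ?_⟩
    rw [hq i]; field_simp
  · push Not at hp
    exact ⟨0, 0, fun i => by simp [hp i]⟩

/-- the point `f` is proportional to the gradient of `G` at `p = f × f'` -/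
theorem grad_proportional {x : L} (hx : Transcendental k x) {f : Fin 3 → L} (hf : f ≠ 0)
    {G : MvPolynomial (Fin 3) k} {e : ℕ} (hG : G.IsHomogeneous e)
    (hW : aeval (cr f (fun i => der hx (f i))) G = 0)
    (hp : cr (cr f (fun i => der hx (f i)))
      (fun j => der hx (cr f (fun i => der hx (f i)) j)) ≠ 0) :
    ∃ c : L, (fun i => aeval (cr f (fun i => der hx (f i))) (pderiv i G)) = fun i => c * f i := by
  set p := cr f (fun i => der hx (f i)) with hpdef
  have h0 : der hx (dot3 p f) = dot3 (fun j => der hx (p j)) f + dot3 p (fun i => der hx (f i)) := by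
    simp only [dot3, map_add, Derivation.leibniz, smul_eq_mul]; ring
  have h1 : dot3 p f = 0 := by rw [hpdef, dot3_comm]; exact dot3_cr_left _ _
  have h1' : dot3 p (fun i => der hx (f i)) = 0 := by
    rw [hpdef, dot3_comm]; exact dot3_cr_right _ _
  have h2 : dot3 (fun j => der hx (p j)) f = 0 := by
    rw [h1, h1', map_zero, add_zero] at h0
    exact h0.symm
  refine exists_smul_of_orth hp hf h1 h2 ?_ ?_
  · have h3 := congrArg (aeval p) hG.sum_X_mul_pderiv
    rw [map_sum, map_nsmul, hW, smul_zero, Fin.sum_univ_three] at h3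
    simp only [map_mul, aeval_X] at h3
    exact h3
  · have h3 := derivation_aeval (der hx) p G
    rw [hW, map_zero, Fin.sum_univ_three] at h3
    simp only [dot3]
    rw [h3]
    ring

theorem aeval_aeval {σ τ : Type*} (p : σ → L) (y : τ → MvPolynomial σ k) (Z : MvPolynomial τ k) :
    aeval (fun i => aeval p (y i)) Z = aeval p (aeval y Z) := by
  have := comp_aeval y (aeval p : MvPolynomial σ k →ₐ[k] L)
  exact (congrArg (fun φ => φ Z) this).symm

end

section

universe u w

variable {k : Type u} [Field k] [CharZero k] [IsAlgClosed k]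

/-- the exceptional locus of the differential form -/
theorem exists_exceptional (e : ℕ) : ∀ (G : MvPolynomial (Fin 3) k), G ≠ 0 → G.IsHomogeneous e →
    ∃ Z : MvPolynomial (Fin 3) k, Z ≠ 0 ∧ (∃ N, Z.IsHomogeneous N) ∧
    ∀ (L : Type w) [Field L] [Algebra k L] [FunField k L] (f : Fin 3 → L) (x : L)
      (hx : Transcendental k x), ¬ IsConstPt k f →
      aeval (cr f (fun i => der hx (f i))) G = 0 →
      IsConstPt k (cr f (fun i => der hx (f i))) ∨ aeval f Z = 0 := by
  induction e using Nat.strong_induction_on with
  | _ e ih =>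
    intro G hG0 hG
    rcases Nat.eq_zero_or_pos e with he | he
    · refine ⟨1, one_ne_zero, ⟨0, isHomogeneous_one _ _⟩, ?_⟩
      intro L _ _ _ f x hx hf hW
      exfalso
      subst he
      have h1 := totalDegree_eq_zero_iff_eq_C.1 ((totalDegree_zero_iff_isHomogeneous _ (p := G)).2 hG)
      rw [h1, aeval_C, map_eq_zero] at hW
      rw [hW, C_0] at h1
      exact hG0 h1
    obtain ⟨j, hj⟩ : ∃ j, pderiv j G ≠ 0 := by
      by_contra hcon
      push Not at hcon
      have h1 := hG.sum_X_mul_pderiv
      rw [Finset.sum_eq_zero fun i _ => by rw [hcon i, mul_zero]] at h1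
      rw [eq_comm, nsmul_eq_mul, mul_eq_zero] at h1
      rcases h1 with h1 | h1
      · rw [Nat.cast_eq_zero] at h1; omega
      · exact hG0 h1
    obtain ⟨Z1, hZ1, ⟨N1, hN1⟩, h1⟩ := ih (e - 1) (by omega) (pderiv j G) hj hG.pderiv
    by_cases he1 : e = 1
    · refine ⟨1, one_ne_zero, ⟨0, isHomogeneous_one _ _⟩, ?_⟩
      intro L _ _ _ f x hx hf hW
      left
      have hf0 : f ≠ 0 := by
        intro h; exact hf ⟨0, 0, fun i => by simp [h]⟩
      by_cases hp : cr (cr f (fun i => der hx (f i)))
        (fun j => der hx (cr f (fun i => der hx (f i)) j)) = 0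
      · exact isConstPt_of_cr_der hx hp
      · exfalso
        obtain ⟨c, hc⟩ := grad_proportional hx hf0 hG hW hp
        have hconst : ∀ i, ∃ b : k, pderiv i G = C b := by
          intro i
          have h2 : (pderiv i G).IsHomogeneous 0 := by
            have := hG.pderiv (i := i)
            rwa [he1] at this
          exact ⟨_, totalDegree_eq_zero_iff_eq_C.1 ((totalDegree_zero_iff_isHomogeneous _).2 h2)⟩
        choose b hb using hconst
        have h3 : ∀ i, algebraMap k L (b i) = c * f i := by
          intro i
          have := congrFun hc i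
          simp only [hb, aeval_C] at this
          exact this
        have hc0 : c ≠ 0 := by
          intro h
          rw [h] at h3
          have h4 := h3 j
          rw [zero_mul, map_eq_zero] at h4
          apply hj
          rw [hb j, h4, C_0]
        exact hf ⟨c⁻¹, b, fun i => by rw [h3 i]; field_simp⟩
    · obtain ⟨Z2, hZ2, ⟨N2, hN2⟩, h2⟩ := exists_dvd_aeval_homogeneous hG0 hG
        (y := fun i => pderiv i G) (m := e - 1) (by omega) (fun i => hG.pderiv)
      refine ⟨Z1 * Z2, mul_ne_zero hZ1 hZ2, ⟨N1 + N2, hN1.mul hN2⟩, ?_⟩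
      intro L _ _ _ f x hx hf hW
      have hf0 : f ≠ 0 := by
        intro h; exact hf ⟨0, 0, fun i => by simp [h]⟩
      by_cases hp : cr (cr f (fun i => der hx (f i)))
        (fun j => der hx (cr f (fun i => der hx (f i)) j)) = 0
      · exact Or.inl (isConstPt_of_cr_der hx hp)
      · obtain ⟨c, hc⟩ := grad_proportional hx hf0 hG hW hp
        by_cases hc0 : c = 0
        · have h3 := h1 L f x hx hf (by
            have := congrFun hc j
            simp only [hc0, zero_mul] at this
            exact this)
          rcases h3 with h3 | h3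
          · exact Or.inl h3
          · right; rw [map_mul, h3, zero_mul]
        · right
          have h4 : aeval (fun i => aeval (cr f (fun i => der hx (f i))) (pderiv i G)) Z2 = 0 := by
            rw [aeval_aeval]
            obtain ⟨Q, hQ⟩ := h2
            rw [hQ, map_mul, hW, zero_mul]
          rw [hc, aeval_mul_of_homogeneous hN2] at h4
          rw [map_mul, (mul_eq_zero.1 h4).resolve_left (pow_ne_zero _ hc0), mul_zero]

end

end Pool.Agent.Helper11
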