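import Pool.Agent.Helper11.LinesLocal

set_option linter.unusedSectionVars false

namespace Pool.Agent.Helper11

section alg

variable {R : Type*} [CommRing R]

theorem cramer3 (A B C f : Fin 3 → R) (c : Fin 3) :
    dot3 A (cr B C) * f c = dot3 A f * cr B C c + dot3 B f * cr C A c + dot3 C f * cr A B c := by
  fin_cases c <;> simp [cr, dot3] <;> ring

theorem dot3_mul_right (A f : Fin 3 → R) (g : R) :
    dot3 A (fun i => g * f i) = g * dot3 A f := by
  simp [dot3]; ring

theorem dot3_comm (A f : Fin 3 → R) : dot3 A f = dot3 f A := by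
  simp [dot3]; ring

theorem cr_mul_mul (a b : Fin 3 → R) (g h : R) :
    cr (fun i => g * a i) (fun i => g * b i + h * a i) = fun i => g ^ 2 * cr a b i := by
  ext i; fin_cases i <;> simp [cr] <;> ring

theorem cr_mul_right (a b : Fin 3 → R) (g : R) : cr a (fun i => g * b i) = fun i => g * cr a b i := by
  ext i; fin_cases i <;> simp [cr] <;> ring

end alg

/-- lines in general position (no three of them have a common point) -/
structure GenPos {k : Type*} [Field k] {r : ℕ} (H : Fin r → Fin 3 → k) : Prop where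
  ne : ∀ i, H i ≠ 0
  two : ∀ i j, i ≠ j → cr (H i) (H j) ≠ 0
  three : ∀ i j l, i ≠ j → i ≠ l → j ≠ l → dot3 (H i) (cr (H j) (H l)) ≠ 0

variable {k L : Type*} [Field k] [Field L] [Algebra k L] [FunField k L] [CharZero k]
  [IsAlgClosed k]

/-- the linear form with coefficients `H` evaluated at `f` -/
def lin {k L : Type*} [Field k] [Field L] [Algebra k L] (H : Fin 3 → k) (f : Fin 3 → L) : L :=
  dot3 (fun i => algebraMap k L (H i)) f

theorem derivation_lin (δ : Derivation k L L) (H : Fin 3 → k) (f : Fin 3 → L) :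
    δ (lin H f) = lin H (fun i => δ (f i)) := by
  simp only [lin, dot3, map_add, Derivation.leibniz, Derivation.map_algebraMap, smul_eq_mul,
    mul_zero, add_zero]

section local_

variable (v : Place k L) {r : ℕ} {H : Fin r → Fin 3 → k} (hH : GenPos H)

theorem lin_mem_ge {n : ℤ} {f : Fin 3 → L} (hf : ∀ i, f i ∈ v.ge n) (H : Fin 3 → k) :
    lin H f ∈ v.ge n := by
  have hm : ∀ (c : k) {y : L} {n : ℤ}, y ∈ v.ge n → algebraMap k L c * y ∈ v.ge n := by
    intro c y n hy
    have := v.mul_mem_ge (v.algebraMap_mem_ge c) hy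
    simpa using this
  unfold lin dot3
  exact add_mem (add_mem (hm _ (hf _)) (hm _ (hf _))) (hm _ (hf _))

include hH in
/-- at most two of the forms vanish at a place -/
theorem card_lines_le_two {f : Fin 3 → L} (hf0 : ∃ i, f i ∉ v.ge 1)
    {i j l : Fin r} (hij : i ≠ j) (hil : i ≠ l) (hjl : j ≠ l) (hi : lin (H i) f ∈ v.ge 1)
    (hj : lin (H j) f ∈ v.ge 1) : lin (H l) f ∉ v.ge 1 := by
  intro hl
  obtain ⟨c, hc⟩ := hf0
  apply hc
  have hdet := hH.three i j l hij hil hjl
  set A : Fin 3 → L := fun a => algebraMap k L (H i a)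
  set B : Fin 3 → L := fun a => algebraMap k L (H j a)
  set C : Fin 3 → L := fun a => algebraMap k L (H l a)
  have h1 := cramer3 A B C f c
  have h2 : dot3 A (cr B C) = algebraMap k L (dot3 (H i) (cr (H j) (H l))) := by
    simp [A, B, C, dot3, cr]
  have hcr : ∀ (X Y : Fin 3 → k) (a : Fin 3),
      cr (fun i => algebraMap k L (X i)) (fun i => algebraMap k L (Y i)) a =
        algebraMap k L (cr X Y a) := by
    intro X Y a
    fin_cases a <;> simp [cr]
  have hm : ∀ (c : k) {y : L} {n : ℤ}, y ∈ v.ge n → y * algebraMap k L c ∈ v.ge n := by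
    intro c y n hy
    have := v.mul_mem_ge hy (v.algebraMap_mem_ge c)
    simpa using this
  have h3 : dot3 A (cr B C) * f c ∈ v.ge 1 := by
    rw [h1, hcr, hcr, hcr]
    exact add_mem (add_mem (hm _ hi) (hm _ hj)) (hm _ hl)
  rw [h2] at h3
  have h4 : algebraMap k L (dot3 (H i) (cr (H j) (H l))) ≠ 0 := by rwa [Ne, map_eq_zero]
  have h5 : f c = (algebraMap k L (dot3 (H i) (cr (H j) (H l))))⁻¹ *
      (algebraMap k L (dot3 (H i) (cr (H j) (H l))) * f c) := by field_simp
  rw [h5]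
  have := v.mul_mem_ge (v.ord_algebraMap_inv_mem (dot3 (H i) (cr (H j) (H l)))) h3
  simpa using this

theorem cr_cr_lin_mem {f : Fin 3 → L} (hf : ∀ i, f i ∈ v.ge 0) {H : Fin 3 → k} {μ : ℤ}
    (hμ : lin H f ∈ v.ge μ) (i : Fin 3) :
    cr (cr f (fun i => v.dv (f i))) (fun i => algebraMap k L (H i)) i ∈ v.ge (μ - 1) := by
  rw [cr_cr]
  have h1 := v.mul_mem_ge hμ (v.dv_mem_ge_zero (hf i))
  have h2 : lin H (fun i => v.dv (f i)) ∈ v.ge (μ - 1) := by
    rw [← derivation_lin]; exact v.dv_mem_ge hμ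
  have h3 := v.mul_mem_ge h2 (hf i)
  refine sub_mem (v.ge_anti (by omega) h1) ?_
  rw [add_zero] at h3
  exact h3

/-- sums with at most two positive contributions -/
theorem sum_two_le {r : ℕ} (a : Fin r → ℤ) (w : ℤ) (h0 : 0 ≤ w) (h1 : ∀ i, a i ≤ w)
    (h2 : ∀ i j, i ≠ j → 0 < a i → 0 < a j → a i + a j ≤ w)
    (h3 : ∀ i j l, i ≠ j → i ≠ l → j ≠ l → 0 < a i → 0 < a j → a l ≤ 0) :
    ∑ i, max 0 (a i) ≤ w := by
  classical
  by_cases hex : ∃ i, 0 < a i
  · obtain ⟨i, hi⟩ := hex
    by_cases hex2 : ∃ j, i ≠ j ∧ 0 < a j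
    · obtain ⟨j, hij, hj⟩ := hex2
      rw [Finset.sum_eq_add_of_mem i j (Finset.mem_univ _) (Finset.mem_univ _) hij]
      · rw [max_eq_right hi.le, max_eq_right hj.le]
        exact h2 i j hij hi hj
      · rintro l _ ⟨hl1, hl2⟩
        exact max_eq_left (h3 i j l hij hl1.symm hl2.symm hi hj)
    · push Not at hex2
      rw [Finset.sum_eq_single i]
      · rw [max_eq_right hi.le]; exact h1 i
      · intro j _ hj
        exact max_eq_left (hex2 j hj.symm)
      · intro h; exact absurd (Finset.mem_univ _) h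
  · push Not at hex
    rw [Finset.sum_eq_zero fun i _ => max_eq_left (hex i)]
    exact h0

include hH in
/-- local inequality for a primitive tuple -/
theorem lines_local_primitive {G : MvPolynomial (Fin 3) k} {e : ℕ} (hG : G.IsHomogeneous e)
    (he : 2 ≤ e) (hGH : ∀ i, MvPolynomial.eval (H i) G = 0) {f : Fin 3 → L}
    (hf : ∀ i, f i ∈ v.ge 0) (hf0 : ∃ i, f i ∉ v.ge 1) (hfH : ∀ i, lin (H i) f ≠ 0)
    (hw : MvPolynomial.aeval (cr f (fun i => v.dv (f i))) G ≠ 0) :
    ∑ i, max 0 (v.ord (lin (H i) f) - 1) ≤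
      v.ord (MvPolynomial.aeval (cr f (fun i => v.dv (f i))) G) := by
  set g := cr f (fun i => v.dv (f i)) with hg
  have hg0 : ∀ i, g i ∈ v.ge 0 := by
    have h1 : ∀ i j, f i * v.dv (f j) ∈ v.ge 0 := fun i j => by
      have := v.mul_mem_ge (hf i) (v.dv_mem_ge_zero (hf j))
      simpa using this
    intro i
    fin_cases i
    · exact sub_mem (h1 1 2) (h1 2 1)
    · exact sub_mem (h1 2 0) (h1 0 2)
    · exact sub_mem (h1 0 1) (h1 1 0)
  have hone : ∀ i, ∀ l, cr g (fun a => algebraMap k L (H i a)) l ∈ v.ge (v.ord (lin (H i) f) - 1) :=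
    fun i l => cr_cr_lin_mem v hf (v.mem_ge_ord _) l
  have hnn : ∀ i, 0 ≤ v.ord (lin (H i) f) := fun i =>
    v.le_ord_of_mem (lin_mem_ge v hf _) (hfH i)
  refine sum_two_le _ _ (v.le_ord_of_mem (v.mvAeval_mem_ge_zero hg0 G) hw) ?_ ?_ ?_
  · intro i
    exact v.le_ord_of_mem (v.one_line hG (hH.ne i) (hGH i) hg0 (hone i)) hw
  · intro i j hij hi hj
    rcases le_total (v.ord (lin (H i) f)) (v.ord (lin (H j) f)) with h | h
    · exact v.le_ord_of_mem (v.two_lines hG he (hH.ne j) (hGH j) (hH.two i j hij) hi.le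
        (by omega) (hone i) (hone j)) hw
    · have := v.le_ord_of_mem (v.two_lines hG he (hH.ne i) (hGH i) (hH.two j i hij.symm) hj.le
        (by omega) (hone j) (hone i)) hw
      omega
  · intro i j l hij hil hjl hi hj
    have h1 := card_lines_le_two v hH hf0 hij hil hjl (v.mem_ge_of_le (by omega))
      (v.mem_ge_of_le (by omega))
    by_contra h2
    push Not at h2
    exact h1 (v.mem_ge_of_le (by omega))

include hH in
/-- local inequality for a tuple contained in a constant line -/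
theorem lines_local_const {f : Fin 3 → L} (hf : ∀ i, f i ∈ v.ge 0) (hf0 : ∃ i, f i ∉ v.ge 1)
    (hfH : ∀ i, lin (H i) f ≠ 0) {q : Fin 3 → k} (hq : ∀ i, cr q (H i) ≠ 0) {lam : L}
    (hlam : cr f (fun i => v.dv (f i)) = fun i => lam * algebraMap k L (q i)) (hlam0 : lam ≠ 0)
    (hq0 : q ≠ 0) :
    ∑ i, max 0 (v.ord (lin (H i) f) - 1) ≤ 2 * v.ord lam := by
  set g := cr f (fun i => v.dv (f i)) with hg
  have hg0 : ∀ i, g i ∈ v.ge 0 := by
    have h1 : ∀ i j, f i * v.dv (f j) ∈ v.ge 0 := fun i j => by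
      have := v.mul_mem_ge (hf i) (v.dv_mem_ge_zero (hf j))
      simpa using this
    intro i
    fin_cases i
    · exact sub_mem (h1 1 2) (h1 2 1)
    · exact sub_mem (h1 2 0) (h1 0 2)
    · exact sub_mem (h1 0 1) (h1 1 0)
  have hnn : ∀ i, 0 ≤ v.ord (lin (H i) f) := fun i =>
    v.le_ord_of_mem (lin_mem_ge v hf _) (hfH i)
  have hlam1 : 0 ≤ v.ord lam := by
    obtain ⟨j, hj⟩ : ∃ j, q j ≠ 0 := by
      by_contra hcon
      push Not at hcon
      exact hq0 (funext hcon)
    have h1 := hg0 j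
    rw [hlam] at h1
    have h2 := v.le_ord_of_mem h1 (mul_ne_zero hlam0 (by rwa [Ne, map_eq_zero]))
    rwa [v.ord_mul _ _ hlam0 (by rwa [Ne, map_eq_zero]), v.ord_algebraMap, add_zero] at h2
  have hone : ∀ i, v.ord (lin (H i) f) - 1 ≤ v.ord lam := by
    intro i
    obtain ⟨l, hl⟩ : ∃ l, cr q (H i) l ≠ 0 := by
      by_contra hcon
      push Not at hcon
      exact hq i (funext hcon)
    have h1 := cr_cr_lin_mem v hf (v.mem_ge_ord (lin (H i) f)) l
    rw [← hg, hlam, cr_mul_left] at h1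
    simp only at h1
    have h2 : cr (fun i => algebraMap k L (q i)) (fun a => algebraMap k L (H i a)) l =
        algebraMap k L (cr q (H i) l) := by
      fin_cases l <;> simp [cr]
    rw [h2] at h1
    have h3 : algebraMap k L (cr q (H i) l) ≠ 0 := by rwa [Ne, map_eq_zero]
    have h4 := v.le_ord_of_mem h1 (mul_ne_zero hlam0 h3)
    rwa [v.ord_mul _ _ hlam0 h3, v.ord_algebraMap, add_zero] at h4
  refine sum_two_le _ _ (by omega) ?_ ?_ ?_
  · intro i
    have := hone i
    omega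
  · intro i j _ _ _
    have := hone i
    have := hone j
    omega
  · intro i j l hij hil hjl hi hj
    have h1 := card_lines_le_two v hH hf0 hij hil hjl (v.mem_ge_of_le (by omega))
      (v.mem_ge_of_le (by omega))
    by_contra h2
    push Not at h2
    exact h1 (v.mem_ge_of_le (by omega))

end local_

/-- the normalized tuple at a place -/
theorem exists_primitive (v : Place k L) (f : Fin 3 → L) (hf : ∃ i, f i ≠ 0) :
    ∃ g : L, g ≠ 0 ∧ v.ord g = - v.minOrd f ∧ (∀ i, g * f i ∈ v.ge 0) ∧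
      (∃ i, g * f i ∉ v.ge 1) := by
  refine ⟨v.unif ^ (-v.minOrd f), zpow_ne_zero _ v.unif_ne_zero, ?_, ?_, ?_⟩
  · rw [v.ord_zpow, v.ord_unif, mul_one]
  · intro i
    have := v.mul_mem_ge (v.mem_ge_ord (v.unif ^ (-v.minOrd f))) (v.mem_ge_minOrd f i)
    rw [v.ord_zpow, v.ord_unif, mul_one, neg_add_cancel] at this
    exact this
  · obtain ⟨i, hi, h2⟩ := v.exists_minOrd f hf
    refine ⟨i, fun h3 => ?_⟩
    have h4 := v.le_ord_of_mem h3 (mul_ne_zero (zpow_ne_zero _ v.unif_ne_zero) hi)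
    rw [v.ord_mul _ _ (zpow_ne_zero _ v.unif_ne_zero) hi, v.ord_zpow, v.ord_unif, h2] at h4
    omega

theorem cr_derivation_mul (δ : Derivation k L L) (f : Fin 3 → L) (g : L) :
    cr (fun i => g * f i) (fun i => δ (g * f i)) = fun i => g ^ 2 * cr f (fun i => δ (f i)) i := by
  have h1 : (fun i => δ (g * f i)) = fun i => g * δ (f i) + δ g * f i := by
    ext i
    rw [Derivation.leibniz, smul_eq_mul, smul_eq_mul]; ring
  rw [h1, cr_mul_mul]

end Pool.Agent.Helper11
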