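import Pool.Agent.Helper11.Height

set_option linter.unusedSectionVars false

namespace Pool.Agent.Helper11

open IntermediateField Polynomial

variable {k L : Type*} [Field k] [Field L] [Algebra k L] [FunField k L] [CharZero k] [IsAlgClosed k]

namespace Place

variable (v : Place k L)

theorem ord_one_sub_of_pos {x : L} (h : 0 < v.ord x) : v.ord (1 - x) = 0 := by
  have := v.ord_add_eq_left (x := 1) (y := -x) one_ne_zero (by
    right; rw [v.ord_neg, v.ord_one]; exact h)
  rw [v.ord_one] at this
  rw [sub_eq_add_neg]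
  exact this.2

theorem ord_one_sub_of_neg {x : L} (h : v.ord x < 0) : v.ord (1 - x) = v.ord x := by
  have := v.ord_add_eq_right (x := 1) (y := -x) (neg_ne_zero.2 (v.ne_zero_of_ord_ne_zero h.ne)) (by
    right; rw [v.ord_neg, v.ord_one]; exact h)
  rw [v.ord_neg] at this
  rw [sub_eq_add_neg]
  exact this.2

theorem ord_one_sub_nonneg {x : L} (h : 0 ≤ v.ord x) : 0 ≤ v.ord (1 - x) := by
  by_cases h1 : 1 - x = 0
  · rw [h1, v.ord_zero]
  · exact v.le_ord_of_mem (sub_mem v.one_mem_ge (v.mem_ge_of_le h)) h1

theorem dv_one_sub (x : L) : v.dv (1 - x) = - v.dv x := by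
  rw [map_sub, Derivation.map_one_eq_zero, zero_sub]

theorem ord_dv_nonneg {x : L} (hx : 0 ≤ v.ord x) : 0 ≤ v.ord (v.dv x) := by
  by_cases h : v.dv x = 0
  · rw [h, v.ord_zero]
  · exact v.le_ord_of_mem (v.dv_mem_ge_zero (v.mem_ge_of_le hx)) h

end Place

/-- the support of the divisor `x = 0, 1, ∞` -/
def suppS (k : Type*) {L : Type*} [Field k] [Field L] [Algebra k L] (x : L) : Set (Place k L) :=
  {v | v.ord x ≠ 0 ∨ v.ord (1 - x) ≠ 0}

theorem finite_suppS (x : L) : (suppS k x).Finite := by
  exact (supp_ord (k := k) x).union (supp_ord (k := k) (1 - x))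

open Classical in
theorem mason_local (v : Place k L) {x : L} :
    max 0 (v.ord x) + max 0 (v.ord (1 - x)) - max 0 (-v.ord x) -
      (if v ∈ suppS k x then 1 else 0) ≤ v.ord (v.dv x) := by
  rcases lt_trichotomy (v.ord x) 0 with h | h | h
  · have h1 := v.ord_one_sub_of_neg h
    have h2 := (v.ord_dv h.ne).2
    have hm : v ∈ suppS k x := Or.inl h.ne
    rw [if_pos hm, h1, h2]
    rw [max_eq_left (by omega), max_eq_right (a := 0) (b := -v.ord x) (by omega)]
    omega
  · have h3 := v.ord_one_sub_nonneg h.ge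
    rcases h3.lt_or_eq with h4 | h4
    · have h5 := (v.ord_dv h4.ne').2
      rw [v.dv_one_sub, v.ord_neg] at h5
      have hm : v ∈ suppS k x := Or.inr h4.ne'
      rw [if_pos hm, h5, h]
      rw [max_eq_right h3]
      simp
    · rw [← h4, h]
      rw [if_neg]
      · simpa using v.ord_dv_nonneg h.ge
      · rintro (h6 | h6)
        · exact h6 h
        · exact h6 h4.symm
  · have h1 := v.ord_one_sub_of_pos h
    have h2 := (v.ord_dv h.ne').2
    have hm : v ∈ suppS k x := Or.inl h.ne'
    rw [if_pos hm, h1, h2]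
    rw [max_eq_right h.le, max_eq_left (a := 0) (b := -v.ord x) (by omega)]
    omega

/-- the theorem of Mason and Stothers -/
theorem mason {x : L} (hx : Transcendental k x) :
    ht k x ≤ chi k L + ((suppS k x).ncard : ℤ) := by
  classical
  have h1 := fs_mono (f := fun v : Place k L => max 0 (v.ord x) + max 0 (v.ord (1 - x)) -
    max 0 (-v.ord x) - (if v ∈ suppS k x then 1 else 0)) (g := fun v => v.ord (v.dv x))
    (supp_sub (supp_sub (supp_add (supp_pospart x) (supp_pospart _)) (supp_negpart x))
      (supp_ind (finite_suppS x))) (finite_ord_dv_ne_zero hx) (fun v => mason_local v)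
  rw [fs_sub (supp_sub (supp_add (supp_pospart x) (supp_pospart _)) (supp_negpart x))
      (supp_ind (finite_suppS x)), fs_sub (supp_add (supp_pospart x) (supp_pospart _)) (supp_negpart x),
      fs_add (supp_pospart x) (supp_pospart _), finsum_ord_dv hx, fs_ind (finite_suppS x),
      ← ht_eq_pos, ← ht_eq_pos, ht_one_sub] at h1
  change ht k x + ht k x - ht k x - _ ≤ _ at h1
  omega

/-- `2 g - 2 ≥ -2 ht x` -/
theorem neg_two_mul_ht_le_chi {x : L} (hx : Transcendental k x) : - (2 * ht k x) ≤ chi k L := by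
  have h1 := fs_mono (f := fun v : Place k L => (-2) * max 0 (-v.ord x))
    (g := fun v => v.ord (v.dv x)) (supp_const_mul _ (supp_negpart x)) (finite_ord_dv_ne_zero hx)
    (fun v => by
      rcases lt_or_ge (v.ord x) 0 with h | h
      · rw [(v.ord_dv h.ne).2, max_eq_right (by omega)]; omega
      · have := v.ord_dv_nonneg h
        rw [max_eq_left (by omega)]; omega)
  rw [fs_const_mul, finsum_ord_dv hx] at h1
  change -2 * ht k x ≤ _ at h1
  omega

end Pool.Agent.Helper11
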