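import Pool.Agent.Helper11.ProjHeight
import Pool.Agent.Helper11.Mason

set_option linter.unusedSectionVars false

namespace Pool.Agent.Helper11

/-- cross product -/
def cr {R : Type*} [CommRing R] (a b : Fin 3 → R) : Fin 3 → R :=
  ![a 1 * b 2 - a 2 * b 1, a 2 * b 0 - a 0 * b 2, a 0 * b 1 - a 1 * b 0]

/-- scalar product -/
def dot3 {R : Type*} [CommRing R] (a b : Fin 3 → R) : R := a 0 * b 0 + a 1 * b 1 + a 2 * b 2

section alg

variable {R : Type*} [CommRing R] (a b c : Fin 3 → R)

theorem cr_cr (i : Fin 3) : cr (cr a b) c i = dot3 c a * b i - dot3 c b * a i := by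
  fin_cases i <;> simp [cr, dot3] <;> ring

theorem dot3_cr_left : dot3 a (cr a b) = 0 := by simp [cr, dot3]; ring

theorem dot3_cr_right : dot3 b (cr a b) = 0 := by simp [cr, dot3]; ring

theorem cr_outer (g H H' : Fin 3 → R) (l j : Fin 3) :
    cr H H' l * g j = cr g H' l * H j - cr g H l * H' j +
      (if l = j then dot3 (cr g H) H' else 0) := by
  fin_cases l <;> fin_cases j <;> simp [cr, dot3] <;> ring

theorem cr_mul_left (g : R) : cr (fun i => g * a i) b = fun i => g * cr a b i := by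
  ext i; fin_cases i <;> simp [cr] <;> ring

theorem cr_pair (g H : Fin 3 → R) (i j : Fin 3) :
    g i * H j - g j * H i = 0 ∨ ∃ l, g i * H j - g j * H i = cr g H l ∨
      g i * H j - g j * H i = - cr g H l := by
  fin_cases i <;> fin_cases j
  · left; ring
  · right; exact ⟨2, Or.inl (by simp [cr])⟩
  · right; exact ⟨1, Or.inr (by simp [cr])⟩
  · right; exact ⟨2, Or.inr (by simp [cr])⟩
  · left; ring
  · right; exact ⟨0, Or.inl (by simp [cr])⟩
  · right; exact ⟨1, Or.inl (by simp [cr])⟩
  · right; exact ⟨0, Or.inr (by simp [cr])⟩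
  · left; ring

theorem aeval_const_eq {k L : Type*} [CommRing k] [CommRing L] [Algebra k L] {σ : Type*}
    (H : σ → k) (G : MvPolynomial σ k) :
    MvPolynomial.aeval (fun i => algebraMap k L (H i)) G =
      algebraMap k L (MvPolynomial.eval H G) := by
  have h1 := MvPolynomial.aeval_algebraMap_apply (B := L) H G
  rw [MvPolynomial.aeval_eq_eval] at h1
  exact h1

/-- scaling a homogeneous polynomial -/
theorem aeval_mul_of_homogeneous {k L : Type*} [CommRing k] [CommRing L] [Algebra k L] {σ : Type*}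
    [Fintype σ] {G : MvPolynomial σ k} {e : ℕ} (hG : G.IsHomogeneous e) (c : L) (x : σ → L) :
    MvPolynomial.aeval (fun i => c * x i) G = c ^ e * MvPolynomial.aeval x G := by
  rw [MvPolynomial.aeval_def, MvPolynomial.aeval_def, MvPolynomial.eval₂_eq',
    MvPolynomial.eval₂_eq', Finset.mul_sum]
  refine Finset.sum_congr rfl fun a ha => ?_
  have h1 : ∑ i, a i = e := by
    have := hG (MvPolynomial.mem_support_iff.1 ha)
    rw [Finsupp.weight_apply, Finsupp.sum_fintype _ _ (fun _ => by simp)] at this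
    simpa using this
  have h2 : ∏ i, (c * x i) ^ a i = c ^ e * ∏ i, x i ^ a i := by
    rw [← h1, ← Finset.prod_pow_eq_pow_sum, ← Finset.prod_mul_distrib]
    exact Finset.prod_congr rfl fun i _ => mul_pow _ _ _
  rw [h2]; ring

end alg

section

variable {k L : Type*} [Field k] [Field L] [Algebra k L] (v : Place k L)

theorem Place.mvAeval_mem_ge_zero {σ : Type*} {x : σ → L} (hx : ∀ i, x i ∈ v.ge 0)
    (P : MvPolynomial σ k) : MvPolynomial.aeval x P ∈ v.ge 0 := by
  induction P using MvPolynomial.induction_on with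
  | C a => rw [MvPolynomial.aeval_C]; exact v.algebraMap_mem_ge a
  | add p q hp hq => rw [map_add]; exact add_mem hp hq
  | mul_X p i hp =>
    rw [map_mul, MvPolynomial.aeval_X]
    have := v.mul_mem_ge hp (hx i)
    simpa using this

theorem Place.mvAeval_sub_mem_ge {σ : Type*} {x y : σ → L} (hx : ∀ i, x i ∈ v.ge 0)
    (hy : ∀ i, y i ∈ v.ge 0) {m : ℤ} (h : ∀ i, x i - y i ∈ v.ge m) (P : MvPolynomial σ k) :
    MvPolynomial.aeval x P - MvPolynomial.aeval y P ∈ v.ge m := by
  induction P using MvPolynomial.induction_on with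
  | C a => rw [MvPolynomial.aeval_C, MvPolynomial.aeval_C, sub_self]; exact zero_mem _
  | add p q hp hq =>
    rw [map_add, map_add]
    have := add_mem hp hq
    convert this using 1; ring
  | mul_X p i hp =>
    rw [map_mul, map_mul, MvPolynomial.aeval_X, MvPolynomial.aeval_X]
    have h1 := v.mul_mem_ge hp (hx i)
    have h2 := v.mul_mem_ge (v.mvAeval_mem_ge_zero hy p) (h i)
    rw [add_zero] at h1
    rw [zero_add] at h2
    have := add_mem h1 h2
    convert this using 1; ring

theorem Place.ord_algebraMap_inv_mem (c : k) : (algebraMap k L c)⁻¹ ∈ v.ge 0 := by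
  rw [← map_inv₀]; exact v.algebraMap_mem_ge _

variable {G : MvPolynomial (Fin 3) k} {e : ℕ} (hG : G.IsHomogeneous e)

include hG

/-- one line -/
theorem Place.one_line {H : Fin 3 → k} (hH : H ≠ 0) (hGH : MvPolynomial.eval H G = 0)
    {g : Fin 3 → L} (hg : ∀ i, g i ∈ v.ge 0) {m : ℤ}
    (hm : ∀ i, cr g (fun i => algebraMap k L (H i)) i ∈ v.ge m) :
    MvPolynomial.aeval g G ∈ v.ge m := by
  obtain ⟨j, hj⟩ : ∃ j, H j ≠ 0 := by
    by_contra hcon
    push Not at hcon
    exact hH (funext hcon)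
  have hj' : algebraMap k L (H j) ≠ 0 := by rwa [Ne, map_eq_zero]
  set lam : L := g j * (algebraMap k L (H j))⁻¹ with hlam
  have hlam0 : lam ∈ v.ge 0 := by
    have := v.mul_mem_ge (hg j) (v.ord_algebraMap_inv_mem (H j))
    simpa using this
  have h1 : MvPolynomial.aeval (fun i => lam * algebraMap k L (H i)) G = 0 := by
    rw [aeval_mul_of_homogeneous hG]
    rw [aeval_const_eq, hGH, map_zero, mul_zero]
  have h2 := v.mvAeval_sub_mem_ge (x := g) (y := fun i => lam * algebraMap k L (H i)) hg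
    (fun i => by
      have := v.mul_mem_ge hlam0 (v.algebraMap_mem_ge (H i))
      simpa using this) (m := m) (fun i => ?_) G
  · rwa [h1, sub_zero] at h2
  · have h3 : g i - lam * algebraMap k L (H i) =
        (algebraMap k L (H j))⁻¹ * (g i * algebraMap k L (H j) - g j * algebraMap k L (H i)) := by
      rw [hlam]; field_simp
    rw [h3]
    have h4 : g i * algebraMap k L (H j) - g j * algebraMap k L (H i) ∈ v.ge m := by
      rcases cr_pair g (fun i => algebraMap k L (H i)) i j with h5 | ⟨l, h5 | h5⟩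
      · rw [h5]; exact zero_mem _
      · rw [h5]; exact hm l
      · rw [h5]; exact neg_mem (hm l)
    have := v.mul_mem_ge (v.ord_algebraMap_inv_mem (H j)) h4
    simpa using this

/-- two lines -/
theorem Place.two_lines (he : 2 ≤ e) {H H' : Fin 3 → k} (hH' : H' ≠ 0)
    (hGH' : MvPolynomial.eval H' G = 0) (hind : cr H H' ≠ 0)
    {g : Fin 3 → L} {a b : ℤ} (ha0 : 0 ≤ a) (hab : a ≤ b)
    (ha : ∀ i, cr g (fun i => algebraMap k L (H i)) i ∈ v.ge a)
    (hb : ∀ i, cr g (fun i => algebraMap k L (H' i)) i ∈ v.ge b) :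
    MvPolynomial.aeval g G ∈ v.ge (a + b) := by
  obtain ⟨l, hl⟩ : ∃ l, cr H H' l ≠ 0 := by
    by_contra hcon
    push Not at hcon
    exact hind (funext hcon)
  set H1 : Fin 3 → L := fun i => algebraMap k L (H i) with hH1
  set H1' : Fin 3 → L := fun i => algebraMap k L (H' i) with hH1'
  have hcr : cr H1 H1' l = algebraMap k L (cr H H' l) := by
    fin_cases l <;> simp [cr, hH1, hH1']
  have hb' : ∀ i, cr g H1' i ∈ v.ge a := fun i => v.ge_anti hab (hb i)
  have hm : ∀ (c : k) {y : L} {n : ℤ}, y ∈ v.ge n → y * algebraMap k L c ∈ v.ge n := by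
    intro c y n hy
    have := v.mul_mem_ge hy (v.algebraMap_mem_ge c)
    simpa using this
  have hga : ∀ j, g j ∈ v.ge a := by
    intro j
    have h1 := cr_outer g H1 H1' l j
    have h2 : cr H1 H1' l * g j ∈ v.ge a := by
      rw [h1]
      refine add_mem (sub_mem (hm _ (hb' l)) (hm _ (ha l))) ?_
      split_ifs
      · unfold dot3
        exact add_mem (add_mem (hm _ (ha _)) (hm _ (ha _))) (hm _ (ha _))
      · exact zero_mem _
    rw [hcr] at h2
    have h3 : algebraMap k L (cr H H' l) ≠ 0 := by rwa [Ne, map_eq_zero]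
    have h4 : g j = (algebraMap k L (cr H H' l))⁻¹ * (algebraMap k L (cr H H' l) * g j) := by
      field_simp
    rw [h4]
    have := v.mul_mem_ge (v.ord_algebraMap_inv_mem (cr H H' l)) h2
    simpa using this
  set ϖ : L := v.unif ^ a with hϖ
  have hϖ0 : ϖ ≠ 0 := zpow_ne_zero _ v.unif_ne_zero
  have hϖord : v.ord ϖ = a := by rw [hϖ, v.ord_zpow, v.ord_unif, mul_one]
  have hg' : ∀ i, ϖ⁻¹ * g i ∈ v.ge 0 := by
    intro i
    have := v.mul_mem_ge (v.mem_ge_ord ϖ⁻¹) (hga i)
    rw [v.ord_inv, hϖord] at this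
    simpa using this
  have h5 := v.one_line hG hH' hGH' (g := fun i => ϖ⁻¹ * g i) hg' (m := b - a) (fun i => by
    rw [cr_mul_left]
    have := v.mul_mem_ge (v.mem_ge_ord ϖ⁻¹) (hb i)
    rw [v.ord_inv, hϖord] at this
    refine v.ge_anti ?_ this
    omega)
  have h6 : MvPolynomial.aeval g G = ϖ ^ e * MvPolynomial.aeval (fun i => ϖ⁻¹ * g i) G := by
    rw [← aeval_mul_of_homogeneous hG]
    congr 1
    have : (fun i => ϖ * (ϖ⁻¹ * g i)) = g := by
      ext i; field_simp
    rw [this]
  rw [h6]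
  have h7 := v.mul_mem_ge (v.mem_ge_ord (ϖ ^ e)) h5
  rw [v.ord_pow, hϖord] at h7
  refine v.ge_anti ?_ h7
  have : (2 : ℤ) ≤ e := by exact_mod_cast he
  nlinarith

end

end Pool.Agent.Helper11
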