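import Pool.Agent.Helper11.LinesSum

set_option linter.unusedSectionVars false

namespace Pool.Agent.Helper11

open MvPolynomial

section alg

variable {k : Type*} [Field k]

/-- `G (X_0 A + X_1 B + X_2 H)` -/
noncomputable def sub3 (A B H : Fin 3 → k) (G : MvPolynomial (Fin 3) k) :
    MvPolynomial (Fin 3) k :=
  aeval (fun i => X 0 * C (A i) + X 1 * C (B i) + X 2 * C (H i)) G

/-- the form `G` has multiplicity at least `t` at the point `H` (computed in the basis
`A, B, H`) -/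
def MultAt (G : MvPolynomial (Fin 3) k) (A B H : Fin 3 → k) (t : ℕ) : Prop :=
  ∀ a ∈ (sub3 A B H G).support, t ≤ a 0 + a 1

theorem MultAt.dvd {G : MvPolynomial (Fin 3) k} {A B H : Fin 3 → k} {t : ℕ}
    (h : MultAt G A B H t) (hdet : dot3 A (cr B H) ≠ 0) {R : Type*} [CommRing R] [Algebra k R]
    (ε s : R) (Y : Fin 3 → R) :
    ε ^ t ∣ aeval (fun i => s * algebraMap k R (H i) + ε * Y i) G := by
  classical
  set δ : R := algebraMap k R (dot3 A (cr B H))⁻¹ with hδ
  set A' : Fin 3 → R := fun i => algebraMap k R (A i) with hA'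
  set B' : Fin 3 → R := fun i => algebraMap k R (B i) with hB'
  set H' : Fin 3 → R := fun i => algebraMap k R (H i) with hH'
  set x : Fin 3 → R := ![ε * (δ * dot3 Y (cr B' H')), ε * (δ * dot3 Y (cr H' A')),
    s + ε * (δ * dot3 Y (cr A' B'))] with hx
  have hdet' : dot3 A' (cr B' H') = algebraMap k R (dot3 A (cr B H)) := by
    simp [dot3, cr, hA', hB', hH']
  have hδ1 : δ * dot3 A' (cr B' H') = 1 := by
    rw [hdet', hδ, ← map_mul, inv_mul_cancel₀ hdet, map_one]
  have hY : ∀ i, Y i = δ * dot3 Y (cr B' H') * A' i + δ * dot3 Y (cr H' A') * B' i +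
      δ * dot3 Y (cr A' B') * H' i := by
    intro i
    have h1 : dot3 A' (cr B' H') * Y i = dot3 Y (cr B' H') * A' i + dot3 Y (cr H' A') * B' i +
      dot3 Y (cr A' B') * H' i := by
      fin_cases i <;> simp [cr, dot3] <;> ring
    calc Y i = δ * dot3 A' (cr B' H') * Y i := by rw [hδ1, one_mul]
      _ = _ := by rw [mul_assoc, h1]; ring
  have h1 : aeval (fun i => s * algebraMap k R (H i) + ε * Y i) G =
      aeval x (sub3 A B H G) := by
    unfold sub3
    rw [← AlgHom.comp_apply]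
    congr 1
    apply MvPolynomial.algHom_ext
    intro i
    rw [aeval_X, AlgHom.comp_apply, aeval_X]
    have h0 : x 0 = ε * (δ * dot3 Y (cr B' H')) := rfl
    have h1 : x 1 = ε * (δ * dot3 Y (cr H' A')) := rfl
    have h2 : x 2 = s + ε * (δ * dot3 Y (cr A' B')) := rfl
    simp only [map_add, map_mul, aeval_X, aeval_C, h0, h1, h2]
    conv_lhs => rw [hY i]
    ring
  rw [h1, aeval_def, eval₂_eq']
  refine Finset.dvd_sum fun a ha => ?_
  have h2 := h a ha
  rw [Fin.prod_univ_three]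
  refine Dvd.dvd.mul_left (Dvd.dvd.mul_right ?_ _) _
  have h3 : x 0 ^ a 0 * x 1 ^ a 1 = ε ^ (a 0 + a 1) * ((δ * dot3 Y (cr B' H')) ^ a 0 *
      (δ * dot3 Y (cr H' A')) ^ a 1) := by
    simp only [hx, Matrix.cons_val_zero, Matrix.cons_val_one, mul_pow, pow_add]
    ring
  rw [h3]
  exact Dvd.dvd.mul_right (pow_dvd_pow _ h2) _

theorem exists_basis {H : Fin 3 → k} (hH : H ≠ 0) : ∃ A B : Fin 3 → k, dot3 A (cr B H) ≠ 0 := by
  obtain ⟨j, hj⟩ : ∃ j, H j ≠ 0 := by
    by_contra hcon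
    push Not at hcon
    exact hH (funext hcon)
  fin_cases j
  · exact ⟨![0, 1, 0], ![0, 0, 1], by simpa [dot3, cr] using hj⟩
  · exact ⟨![0, 0, 1], ![1, 0, 0], by simpa [dot3, cr] using hj⟩
  · exact ⟨![1, 0, 0], ![0, 1, 0], by simpa [dot3, cr] using hj⟩

end alg

section

variable {k L : Type*} [Field k] [Field L] [Algebra k L] (v : Place k L)
variable {G : MvPolynomial (Fin 3) k}

/-- one line -/
theorem Place.one_line_mult {A B H : Fin 3 → k} {t : ℕ} (hH : H ≠ 0) (hG : MultAt G A B H t)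
    (hdet : dot3 A (cr B H) ≠ 0) {g : Fin 3 → L} (hg : ∀ i, g i ∈ v.ge 0) {m : ℤ}
    (hm : ∀ i, cr g (fun i => algebraMap k L (H i)) i ∈ v.ge m) :
    MvPolynomial.aeval g G ∈ v.ge (t * m) := by
  obtain ⟨j, hj⟩ : ∃ j, H j ≠ 0 := by
    by_contra hcon
    push Not at hcon
    exact hH (funext hcon)
  have hj' : algebraMap k L (H j) ≠ 0 := by rwa [Ne, map_eq_zero]
  set lam : L := g j * (algebraMap k L (H j))⁻¹ with hlam
  have hlam0 : lam ∈ v.ge 0 := by
    have := v.mul_mem_ge (hg j) (v.ord_algebraMap_inv_mem (H j))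
    simpa using this
  have hsub : ∀ i, g i - lam * algebraMap k L (H i) ∈ v.ge m := by
    intro i
    have h3 : g i - lam * algebraMap k L (H i) =
        (algebraMap k L (H j))⁻¹ * (g i * algebraMap k L (H j) - g j * algebraMap k L (H i)) := by
      rw [hlam]; field_simp
    rw [h3]
    have h4 : g i * algebraMap k L (H j) - g j * algebraMap k L (H i) ∈ v.ge m := by
      rcases cr_pair g (fun i => algebraMap k L (H i)) i j with h5 | ⟨l, h5 | h5⟩
      · rw [h5]; exact zero_mem _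
      · rw [h5]; exact hm l
      · rw [h5]; exact neg_mem (hm l)
    have := v.mul_mem_ge (v.ord_algebraMap_inv_mem (H j)) h4
    simpa using this
  by_cases hm0 : m < 0
  · exact v.ge_anti (mul_nonpos_of_nonneg_of_nonpos (by positivity) hm0.le)
      (v.mvAeval_mem_ge_zero hg G)
  push Not at hm0
  set ϖ : L := v.unif ^ m with hϖ
  have hϖ0 : ϖ ≠ 0 := zpow_ne_zero _ v.unif_ne_zero
  have hϖord : v.ord ϖ = m := by rw [hϖ, v.ord_zpow, v.ord_unif, mul_one]
  have hdiv : ∀ y ∈ v.ge m, ϖ⁻¹ * y ∈ v.ge 0 := by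
    intro y hy
    have := v.mul_mem_ge (v.mem_ge_ord ϖ⁻¹) hy
    rw [v.ord_inv, hϖord] at this
    simpa using this
  obtain ⟨Q, hQ⟩ := hG.dvd hdet (R := MvPolynomial (Fin 5) k) (X 0) (X 1)
    (fun i => X (Fin.natAdd 2 i))
  set x : Fin 5 → L := ![ϖ, lam, ϖ⁻¹ * (g 0 - lam * algebraMap k L (H 0)),
    ϖ⁻¹ * (g 1 - lam * algebraMap k L (H 1)), ϖ⁻¹ * (g 2 - lam * algebraMap k L (H 2))] with hx
  have h1 : aeval g G = aeval x (aeval (fun i => X 1 * algebraMap k (MvPolynomial (Fin 5) k) (H i) +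
      X 0 * X (Fin.natAdd 2 i)) G : MvPolynomial (Fin 5) k) := by
    rw [← AlgHom.comp_apply]
    congr 1
    apply MvPolynomial.algHom_ext
    intro i
    rw [aeval_X, AlgHom.comp_apply, aeval_X]
    fin_cases i <;> simp [hx] <;> field_simp <;> ring
  have hx0 : ∀ i, x i ∈ v.ge 0 := by
    have hϖm : ϖ ∈ v.ge 0 := v.mem_ge_of_le (by rw [hϖord]; exact hm0)
    intro i
    fin_cases i
    · exact hϖm
    · exact hlam0
    · exact hdiv _ (hsub 0)
    · exact hdiv _ (hsub 1)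
    · exact hdiv _ (hsub 2)
  rw [h1, hQ, map_mul, map_pow, aeval_X]
  have h2 := v.mul_mem_ge (v.mem_ge_ord (x 0 ^ t)) (v.mvAeval_mem_ge_zero hx0 Q)
  have h3 : v.ord (x 0 ^ t) = t * m := by
    rw [v.ord_pow]; simp only [hx, Matrix.cons_val_zero, hϖord]
  rw [h3, add_zero] at h2
  exact h2

theorem isRelPrime_X {σ : Type*} {i j : σ} (hij : i ≠ j) (t : ℕ) :
    IsRelPrime ((X i : MvPolynomial σ k) ^ t) (X j ^ t) := by
  apply IsRelPrime.pow
  rw [(MvPolynomial.X_prime (R := k) (i := i)).irreducible.isRelPrime_iff_not_dvd]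
  rw [MvPolynomial.X_dvd_X]
  exact hij

/-- two lines -/
theorem Place.two_lines_mult {A B H A' B' H' : Fin 3 → k} {t : ℕ}
    (hG : MultAt G A B H t) (hdet : dot3 A (cr B H) ≠ 0)
    (hG' : MultAt G A' B' H' t) (hdet' : dot3 A' (cr B' H') ≠ 0)
    (hind : cr H H' ≠ 0)
    {g : Fin 3 → L} {a b : ℤ} (ha0 : 0 ≤ a) (hb0 : 0 ≤ b)
    (ha : ∀ i, cr g (fun i => algebraMap k L (H i)) i ∈ v.ge a)
    (hb : ∀ i, cr g (fun i => algebraMap k L (H' i)) i ∈ v.ge b)
    (hab : dot3 (cr (fun i => algebraMap k L (H i)) (fun i => algebraMap k L (H' i))) g ∈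
      v.ge (a + b)) :
    MvPolynomial.aeval g G ∈ v.ge (t * (a + b)) := by
  obtain ⟨l, hl⟩ : ∃ l, cr H H' l ≠ 0 := by
    by_contra hcon
    push Not at hcon
    exact hind (funext hcon)
  set H1 : Fin 3 → L := fun i => algebraMap k L (H i) with hH1
  set H1' : Fin 3 → L := fun i => algebraMap k L (H' i) with hH1'
  have hcr : cr H1 H1' l = algebraMap k L (cr H H' l) := by
    fin_cases l <;> simp [cr, hH1, hH1']
  set δ : L := (algebraMap k L (cr H H' l))⁻¹ with hδ
  have hc0 : algebraMap k L (cr H H' l) ≠ 0 := by rwa [Ne, map_eq_zero]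
  have hδ0 : δ ∈ v.ge 0 := v.ord_algebraMap_inv_mem _
  set ϖ : L := v.unif ^ a with hϖ
  have hϖ0 : ϖ ≠ 0 := zpow_ne_zero _ v.unif_ne_zero
  have hϖord : v.ord ϖ = a := by rw [hϖ, v.ord_zpow, v.ord_unif, mul_one]
  set ρ : L := v.unif ^ b with hρ
  have hρ0 : ρ ≠ 0 := zpow_ne_zero _ v.unif_ne_zero
  have hρord : v.ord ρ = b := by rw [hρ, v.ord_zpow, v.ord_unif, mul_one]
  have hdivϖ : ∀ y ∈ v.ge a, ϖ⁻¹ * y ∈ v.ge 0 := by
    intro y hy
    have := v.mul_mem_ge (v.mem_ge_ord ϖ⁻¹) hy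
    rw [v.ord_inv, hϖord] at this
    simpa using this
  have hdivρ : ∀ y ∈ v.ge b, ρ⁻¹ * y ∈ v.ge 0 := by
    intro y hy
    have := v.mul_mem_ge (v.mem_ge_ord ρ⁻¹) hy
    rw [v.ord_inv, hρord] at this
    simpa using this
  have hdiv : ∀ y ∈ v.ge (a + b), (ϖ * ρ)⁻¹ * y ∈ v.ge 0 := by
    intro y hy
    have := v.mul_mem_ge (v.mem_ge_ord (ϖ * ρ)⁻¹) hy
    rw [v.ord_inv, v.ord_mul _ _ hϖ0 hρ0, hϖord, hρord] at this
    simpa using this
  have hδm : ∀ {y : L} {n : ℤ}, y ∈ v.ge n → δ * y ∈ v.ge n := by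
    intro y n hy
    have := v.mul_mem_ge hδ0 hy
    simpa using this
  -- coordinates
  set U : Fin 3 → k := fun i => if l = i then 1 else 0 with hU
  have hdet3 : dot3 (cr g H1) H1' = dot3 (cr H1 H1') g := by
    simp [dot3, cr]; ring
  set x : Fin 5 → L := ![ϖ, ρ, ρ⁻¹ * (δ * cr g H1' l), ϖ⁻¹ * (δ * -(cr g H1 l)),
    (ϖ * ρ)⁻¹ * (δ * dot3 (cr H1 H1') g)] with hx
  have hx0 : ∀ i, x i ∈ v.ge 0 := by
    have hϖm : ϖ ∈ v.ge 0 := v.mem_ge_of_le (by rw [hϖord]; exact ha0)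
    have hρm : ρ ∈ v.ge 0 := v.mem_ge_of_le (by rw [hρord]; exact hb0)
    intro i
    fin_cases i
    · exact hϖm
    · exact hρm
    · exact hdivρ _ (hδm (hb l))
    · exact hdivϖ _ (hδm (neg_mem (ha l)))
    · exact hdiv _ (hδm hab)
  set p : Fin 3 → MvPolynomial (Fin 5) k := fun j =>
    X 1 * X 2 * C (H j) + X 0 * X 3 * C (H' j) + X 0 * X 1 * X 4 * C (U j) with hp
  have hg : ∀ j, g j = aeval x (p j) := by
    intro j
    have h1 := cr_outer g H1 H1' l j
    rw [hcr, hdet3] at h1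
    have h2 : aeval x (p j) = x 1 * x 2 * H1 j + x 0 * x 3 * H1' j +
        x 0 * x 1 * x 4 * algebraMap k L (U j) := by
      simp only [hp, map_add, map_mul, aeval_X, aeval_C, hH1, hH1']
    have e0 : x 0 = ϖ := rfl
    have e1 : x 1 = ρ := rfl
    have e2 : x 2 = ρ⁻¹ * (δ * cr g H1' l) := rfl
    have e3 : x 3 = ϖ⁻¹ * (δ * -(cr g H1 l)) := rfl
    have e4 : x 4 = (ϖ * ρ)⁻¹ * (δ * dot3 (cr H1 H1') g) := rfl
    rw [h2, e0, e1, e2, e3, e4]
    have h3 : (if l = j then dot3 (cr H1 H1') g else 0) =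
        dot3 (cr H1 H1') g * algebraMap k L (U j) := by
      simp only [hU]
      split_ifs <;> simp
    rw [h3] at h1
    have h4 : g j = δ * (algebraMap k L (cr H H' l) * g j) := by
      rw [hδ]; field_simp
    rw [h4, h1]
    field_simp
    ring
  have hGg : aeval g G = aeval x (aeval p G) := by
    rw [← AlgHom.comp_apply]
    congr 1
    apply MvPolynomial.algHom_ext
    intro i
    rw [aeval_X, AlgHom.comp_apply, aeval_X]
    exact hg i
  have hd1 : (X 0 : MvPolynomial (Fin 5) k) ^ t ∣ aeval p G := by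
    have h1 := hG.dvd hdet (R := MvPolynomial (Fin 5) k) (X 0) (X 1 * X 2)
      (fun j => X 3 * C (H' j) + X 1 * X 4 * C (U j))
    have h2 : (fun i => X 1 * X 2 * algebraMap k (MvPolynomial (Fin 5) k) (H i) +
        X 0 * (X 3 * C (H' i) + X 1 * X 4 * C (U i))) = p := by
      ext1 i
      simp only [hp, MvPolynomial.algebraMap_eq]
      ring
    rwa [h2] at h1
  have hd2 : (X 1 : MvPolynomial (Fin 5) k) ^ t ∣ aeval p G := by
    have h1 := hG'.dvd hdet' (R := MvPolynomial (Fin 5) k) (X 1) (X 0 * X 3)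
      (fun j => X 2 * C (H j) + X 0 * X 4 * C (U j))
    have h2 : (fun i => X 0 * X 3 * algebraMap k (MvPolynomial (Fin 5) k) (H' i) +
        X 1 * (X 2 * C (H i) + X 0 * X 4 * C (U i))) = p := by
      ext1 i
      simp only [hp, MvPolynomial.algebraMap_eq]
      ring
    rwa [h2] at h1
  obtain ⟨Q, hQ⟩ := (isRelPrime_X (k := k) (σ := Fin 5) (i := 0) (j := 1) (by decide) t).mul_dvd
    hd1 hd2
  rw [hGg, hQ, map_mul, map_mul, map_pow, map_pow, aeval_X, aeval_X]
  have h2 := v.mul_mem_ge (v.mem_ge_ord (x 0 ^ t * x 1 ^ t)) (v.mvAeval_mem_ge_zero hx0 Q)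
  have h3 : v.ord (x 0 ^ t * x 1 ^ t) = t * (a + b) := by
    have e0 : x 0 = ϖ := rfl
    have e1 : x 1 = ρ := rfl
    rw [e0, e1, v.ord_mul _ _ (pow_ne_zero _ hϖ0) (pow_ne_zero _ hρ0), v.ord_pow, v.ord_pow,
      hϖord, hρord]
    ring
  rw [h3, add_zero] at h2
  exact h2

end

section

variable {k L : Type*} [Field k] [Field L] [Algebra k L] [FunField k L] [CharZero k]
  [IsAlgClosed k]

/-- local inequality for a primitive tuple, form with multiplicities -/
theorem lines_local_mult (v : Place k L) {r : ℕ} {H : Fin r → Fin 3 → k} (hH : GenPos H)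
    {G : MvPolynomial (Fin 3) k} {A B : Fin r → Fin 3 → k} {t : ℕ}
    (hdet : ∀ i, dot3 (A i) (cr (B i) (H i)) ≠ 0) (hG : ∀ i, MultAt G (A i) (B i) (H i) t)
    {f : Fin 3 → L}
    (hf : ∀ i, f i ∈ v.ge 0) (hf0 : ∃ i, f i ∉ v.ge 1) (hfH : ∀ i, lin (H i) f ≠ 0)
    (hw : MvPolynomial.aeval (cr f (fun i => v.dv (f i))) G ≠ 0) :
    t * ∑ i, max 0 (v.ord (lin (H i) f) - 1) ≤
      v.ord (MvPolynomial.aeval (cr f (fun i => v.dv (f i))) G) := by
  set g := cr f (fun i => v.dv (f i)) with hg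
  have hg0 : ∀ i, g i ∈ v.ge 0 := by
    have h1 : ∀ i j, f i * v.dv (f j) ∈ v.ge 0 := fun i j => by
      have := v.mul_mem_ge (hf i) (v.dv_mem_ge_zero (hf j))
      simpa using this
    intro i
    fin_cases i
    · exact sub_mem (h1 1 2) (h1 2 1)
    · exact sub_mem (h1 2 0) (h1 0 2)
    · exact sub_mem (h1 0 1) (h1 1 0)
  have hone : ∀ i, ∀ l, cr g (fun a => algebraMap k L (H i a)) l ∈ v.ge (v.ord (lin (H i) f) - 1) :=
    fun i l => cr_cr_lin_mem v hf (v.mem_ge_ord _) l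
  have hnn : ∀ i, 0 ≤ v.ord (lin (H i) f) := fun i =>
    v.le_ord_of_mem (lin_mem_ge v hf _) (hfH i)
  have hmax : t * ∑ i, max 0 (v.ord (lin (H i) f) - 1) =
      ∑ i, max 0 (t * (v.ord (lin (H i) f) - 1)) := by
    rw [Finset.mul_sum]
    refine Finset.sum_congr rfl fun i _ => ?_
    rcases le_total 0 (v.ord (lin (H i) f) - 1) with h | h
    · rw [max_eq_right h, max_eq_right (mul_nonneg (by positivity) h)]
    · rw [max_eq_left h, max_eq_left (mul_nonpos_of_nonneg_of_nonpos (by positivity) h), mul_zero]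
  rw [hmax]
  have hpos : ∀ i, 0 < t * (v.ord (lin (H i) f) - 1) → 0 < v.ord (lin (H i) f) - 1 := by
    intro i hi
    by_contra hcon
    push Not at hcon
    exact absurd hi (not_lt.2 (mul_nonpos_of_nonneg_of_nonpos (by positivity) hcon))
  refine sum_two_le _ _ (v.le_ord_of_mem (v.mvAeval_mem_ge_zero hg0 G) hw) ?_ ?_ ?_
  · intro i
    exact v.le_ord_of_mem (v.one_line_mult (hH.ne i) (hG i) (hdet i) hg0 (hone i)) hw
  · intro i j hij hi hj
    have h1 := v.two_lines_mult (hG i) (hdet i) (hG j) (hdet j) (hH.two i j hij)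
      (hpos i hi).le (hpos j hj).le (hone i) (hone j) ?_
    · have := v.le_ord_of_mem h1 hw
      rw [mul_add] at this
      exact this
    · have h2 : dot3 (cr (fun i_1 => algebraMap k L (H i i_1)) fun i => algebraMap k L (H j i)) g =
          lin (H i) f * lin (H j) (fun a => v.dv (f a)) -
            lin (H j) f * lin (H i) (fun a => v.dv (f a)) := by
        simp only [hg, dot3, cr, lin, Matrix.cons_val_zero, Matrix.cons_val_one, Matrix.cons_val]
        ring
      rw [h2]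
      have h3 : ∀ i, lin (H i) (fun a => v.dv (f a)) ∈ v.ge (v.ord (lin (H i) f) - 1) := by
        intro i
        rw [← derivation_lin]; exact v.dv_mem_ge (v.mem_ge_ord _)
      have h4 := v.mul_mem_ge (v.mem_ge_ord (lin (H i) f)) (h3 j)
      have h5 := v.mul_mem_ge (v.mem_ge_ord (lin (H j) f)) (h3 i)
      exact sub_mem (v.ge_anti (by omega) h4) (v.ge_anti (by omega) h5)
  · intro i j l hij hil hjl hi hj
    have hi' := hpos i hi
    have hj' := hpos j hj
    have h1 := card_lines_le_two v hH hf0 hij hil hjl (v.mem_ge_of_le (by omega))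
      (v.mem_ge_of_le (by omega))
    by_contra h2
    push Not at h2
    have h2' := hpos l h2
    exact h1 (v.mem_ge_of_le (by omega))

/-- the main inequality, when the differential form does not vanish -/
theorem lines_main_mult {r : ℕ} {H : Fin r → Fin 3 → k} (hH : GenPos H)
    {G : MvPolynomial (Fin 3) k} {e : ℕ} (hG : G.IsHomogeneous e)
    {A B : Fin r → Fin 3 → k} {t : ℕ}
    (hdet : ∀ i, dot3 (A i) (cr (B i) (H i)) ≠ 0) (hGH : ∀ i, MultAt G (A i) (B i) (H i) t)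
    {f : Fin 3 → L}
    (hf : ∃ i, f i ≠ 0) (hfH : ∀ i, lin (H i) f ≠ 0) {x : L} (hx : Transcendental k x)
    (hW : MvPolynomial.aeval (cr f (fun i => der hx (f i))) G ≠ 0) :
    t * ((r : ℤ) * htP k f - ∑ i, ((hitSet (H i) f : Set (Place k L)).ncard : ℤ)) ≤
      e * chi k L + 2 * e * htP k f := by
  obtain ⟨hfin, hsum⟩ := excess_sum H hfH
  rw [← hsum, ← fs_const_mul]
  set W := MvPolynomial.aeval (cr f (fun i => der hx (f i))) G with hWdef
  obtain ⟨hfin3, hsum3⟩ := finsum_three (fun v : Place k L => v.ord W)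
    (fun v => v.ord (v.dv x)) (fun v => v.minOrd f) (supp_ord W) (finite_ord_dv_ne_zero hx)
    (supp_minOrd f) e (2 * e)
  have h1 : ∀ v : Place k L, t * ∑ i, max 0 (v.ord (lin (H i) f) - v.minOrd f - 1) ≤
      v.ord W + e * v.ord (v.dv x) - 2 * e * v.minOrd f := by
    intro v
    obtain ⟨g, hg0, hgord, hg1, hg2⟩ := exists_primitive v f hf
    set w := MvPolynomial.aeval (cr f (fun i => v.dv (f i))) G with hw
    have hWw : W = der hx v.unif ^ e * w := by
      rw [hWdef, cr_der_eq v, aeval_mul_of_homogeneous hG]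
    have hδ : der hx v.unif ≠ 0 := der_ne_zero hx v.transcendental_unif
    have hw0 : w ≠ 0 := by
      intro h; rw [h, mul_zero] at hWw; exact hW hWw
    have hord : v.ord W = - e * v.ord (v.dv x) + v.ord w := by
      rw [hWw, v.ord_mul _ _ (pow_ne_zero _ hδ) hw0, v.ord_pow, v.ord_der_unif hx]; ring
    have h2 : MvPolynomial.aeval (cr (fun i => g * f i) (fun i => v.dv (g * f i))) G =
        (g ^ 2) ^ e * w := by
      rw [cr_derivation_mul, aeval_mul_of_homogeneous hG]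
    have h3 := lines_local_mult v hH hdet hGH hg1 hg2
      (fun i => by rw [lin_mul]; exact mul_ne_zero hg0 (hfH i))
      (by rw [h2]; exact mul_ne_zero (pow_ne_zero _ (pow_ne_zero _ hg0)) hw0)
    rw [h2, v.ord_mul _ _ (pow_ne_zero _ (pow_ne_zero _ hg0)) hw0, v.ord_pow, v.ord_pow, hgord] at h3
    have h4 : ∀ i, v.ord (lin (H i) fun i => g * f i) - 1 =
        v.ord (lin (H i) f) - v.minOrd f - 1 := by
      intro i
      rw [lin_mul, v.ord_mul _ _ hg0 (hfH i), hgord]; ring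
    rw [Finset.sum_congr rfl fun i _ => by rw [h4 i]] at h3
    rw [hord]
    push_cast at h3
    linarith
  refine (fs_mono (supp_const_mul _ hfin) hfin3 h1).trans (le_of_eq ?_)
  rw [hsum3, finsum_ord, finsum_ord_dv hx]
  unfold htP
  rw [fs_neg]
  ring

end

end Pool.Agent.Helper11
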