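import Pool.Agent.Helper11.LinesGlobal
import Pool.Agent.Helper11.ExtChi

set_option linter.unusedSectionVars false

namespace Pool.Agent.Helper11

variable {k L : Type*} [Field k] [Field L] [Algebra k L] [FunField k L] [CharZero k]
  [IsAlgClosed k]

theorem exists_ne_zero_of_lin {H : Fin 3 → k} {f : Fin 3 → L} (h : lin H f ≠ 0) :
    ∃ i, f i ≠ 0 := by
  by_contra hcon
  push Not at hcon
  exact h (by simp [lin, dot3, hcon])

theorem minOrd_le_lin (v : Place k L) {H : Fin 3 → k} {f : Fin 3 → L} (h : lin H f ≠ 0) :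
    v.minOrd f ≤ v.ord (lin H f) :=
  v.le_ord_of_mem (lin_mem_ge v (fun i => v.mem_ge_minOrd f i) H) h

theorem lin_mul (H : Fin 3 → k) (f : Fin 3 → L) (g : L) :
    lin H (fun i => g * f i) = g * lin H f := by
  unfold lin
  rw [dot3_mul_right]

/-- the places where the point `f` lies on the line `H` -/
def hitSet {k L : Type*} [Field k] [Field L] [Algebra k L] (H : Fin 3 → k) (f : Fin 3 → L) :
    Set (Place k L) := {v | v.minOrd f < v.ord (lin H f)}

theorem finite_hit (H : Fin 3 → k) (f : Fin 3 → L) : (hitSet H f).Finite := by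
  apply ((supp_minOrd (k := k) f).union (supp_ord (k := k) (lin H f))).subset
  intro v hv
  by_contra hcon
  rw [Set.mem_union, not_or] at hcon
  obtain ⟨h1, h2⟩ := hcon
  simp only [Set.mem_ofPred_eq, not_not] at h1 h2
  have hv' : v.minOrd f < v.ord (lin H f) := hv
  omega

/-- the total excess intersection multiplicity -/
theorem excess_sum {r : ℕ} (H : Fin r → Fin 3 → k) {f : Fin 3 → L}
    (hfH : ∀ i, lin (H i) f ≠ 0) :
    {v : Place k L | ∑ i, max 0 (v.ord (lin (H i) f) - v.minOrd f - 1) ≠ 0}.Finite ∧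
    ∑ᶠ v : Place k L, ∑ i, max 0 (v.ord (lin (H i) f) - v.minOrd f - 1) =
      (r : ℤ) * htP k f -
        ∑ i, ((hitSet (H i) f : Set (Place k L)).ncard : ℤ) := by
  classical
  have h1 : ∀ i (v : Place k L), max 0 (v.ord (lin (H i) f) - v.minOrd f - 1) =
      v.ord (lin (H i) f) - v.minOrd f -
        (if v ∈ hitSet (H i) f then 1 else 0) := by
    intro i v
    have h2 := minOrd_le_lin v (hfH i)
    by_cases h3 : v ∈ hitSet (H i) f
    · have h3' : v.minOrd f < v.ord (lin (H i) f) := h3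
      rw [if_pos h3, max_eq_right (by omega)]
    · have h3' : ¬ v.minOrd f < v.ord (lin (H i) f) := h3
      rw [if_neg h3, max_eq_left (by omega)]; omega
  have hfin : ∀ i, {v : Place k L | max 0 (v.ord (lin (H i) f) - v.minOrd f - 1) ≠ 0}.Finite := by
    intro i
    have := supp_sub (supp_sub (supp_ord (k := k) (lin (H i) f)) (supp_minOrd (k := k) f))
      (supp_ind (finite_hit (H i) f))
    refine this.subset ?_
    intro v hv
    have hv' : max 0 (v.ord (lin (H i) f) - v.minOrd f - 1) ≠ 0 := hv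
    rw [h1 i v] at hv'
    exact hv'
  refine ⟨supp_sum _ _ fun i _ => hfin i, ?_⟩
  rw [fs_sum _ _ fun i _ => hfin i]
  have h4 : ∀ i, ∑ᶠ v : Place k L, max 0 (v.ord (lin (H i) f) - v.minOrd f - 1) =
      htP k f - ((hitSet (H i) f : Set (Place k L)).ncard : ℤ) := by
    intro i
    rw [finsum_congr (h1 i), fs_sub (supp_sub (supp_ord (k := k) (lin (H i) f))
      (supp_minOrd (k := k) f)) (supp_ind (finite_hit (H i) f)), fs_ind (finite_hit (H i) f),
      fs_sub (supp_ord (k := k) (lin (H i) f)) (supp_minOrd (k := k) f), finsum_ord]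
    unfold htP
    rw [fs_neg]
    ring
  rw [Finset.sum_congr rfl fun i _ => h4 i, Finset.sum_sub_distrib]
  simp

theorem cr_der_eq (v : Place k L) (δ : Derivation k L L) (f : Fin 3 → L) :
    cr f (fun i => δ (f i)) = fun i => δ v.unif * cr f (fun i => v.dv (f i)) i := by
  have h1 : (fun i => δ (f i)) = fun i => δ v.unif * v.dv (f i) := by
    ext i; rw [v.derivation_eq δ (f i)]; ring
  rw [h1, cr_mul_right]

theorem finsum_three (a b c : Place k L → ℤ) (ha : {v | a v ≠ 0}.Finite) (hb : {v | b v ≠ 0}.Finite)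
    (hc : {v | c v ≠ 0}.Finite) (e e' : ℤ) :
    {v | a v + e * b v - e' * c v ≠ 0}.Finite ∧
    ∑ᶠ v, (a v + e * b v - e' * c v) = ∑ᶠ v, a v + e * ∑ᶠ v, b v - e' * ∑ᶠ v, c v := by
  refine ⟨supp_sub (supp_add ha (supp_const_mul e hb)) (supp_const_mul e' hc), ?_⟩
  rw [fs_sub (supp_add ha (supp_const_mul e hb)) (supp_const_mul e' hc),
    fs_add ha (supp_const_mul e hb), fs_const_mul, fs_const_mul]

/-- the main inequality, when the differential form does not vanish -/
theorem lines_main {r : ℕ} {H : Fin r → Fin 3 → k} (hH : GenPos H)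
    {G : MvPolynomial (Fin 3) k} {e : ℕ} (hG : G.IsHomogeneous e)
    (he : 2 ≤ e) (hGH : ∀ i, MvPolynomial.eval (H i) G = 0) {f : Fin 3 → L}
    (hf : ∃ i, f i ≠ 0) (hfH : ∀ i, lin (H i) f ≠ 0) {x : L} (hx : Transcendental k x)
    (hW : MvPolynomial.aeval (cr f (fun i => der hx (f i))) G ≠ 0) :
    (r : ℤ) * htP k f - ∑ i, ((hitSet (H i) f : Set (Place k L)).ncard : ℤ) ≤
      e * chi k L + 2 * e * htP k f := by
  obtain ⟨hfin, hsum⟩ := excess_sum H hfH
  rw [← hsum]
  set W := MvPolynomial.aeval (cr f (fun i => der hx (f i))) G with hWdef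
  obtain ⟨hfin3, hsum3⟩ := finsum_three (fun v : Place k L => v.ord W)
    (fun v => v.ord (v.dv x)) (fun v => v.minOrd f) (supp_ord W) (finite_ord_dv_ne_zero hx)
    (supp_minOrd f) e (2 * e)
  have h1 : ∀ v : Place k L, ∑ i, max 0 (v.ord (lin (H i) f) - v.minOrd f - 1) ≤
      v.ord W + e * v.ord (v.dv x) - 2 * e * v.minOrd f := by
    intro v
    obtain ⟨g, hg0, hgord, hg1, hg2⟩ := exists_primitive v f hf
    set w := MvPolynomial.aeval (cr f (fun i => v.dv (f i))) G with hw
    have hWw : W = der hx v.unif ^ e * w := by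
      rw [hWdef, cr_der_eq v, aeval_mul_of_homogeneous hG]
    have hδ : der hx v.unif ≠ 0 := der_ne_zero hx v.transcendental_unif
    have hw0 : w ≠ 0 := by
      intro h; rw [h, mul_zero] at hWw; exact hW hWw
    have hord : v.ord W = - e * v.ord (v.dv x) + v.ord w := by
      rw [hWw, v.ord_mul _ _ (pow_ne_zero _ hδ) hw0, v.ord_pow, v.ord_der_unif hx]; ring
    have h2 : MvPolynomial.aeval (cr (fun i => g * f i) (fun i => v.dv (g * f i))) G =
        (g ^ 2) ^ e * w := by
      rw [cr_derivation_mul, aeval_mul_of_homogeneous hG]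
    have h3 := lines_local_primitive v hH hG he hGH hg1 hg2
      (fun i => by rw [lin_mul]; exact mul_ne_zero hg0 (hfH i))
      (by rw [h2]; exact mul_ne_zero (pow_ne_zero _ (pow_ne_zero _ hg0)) hw0)
    rw [h2, v.ord_mul _ _ (pow_ne_zero _ (pow_ne_zero _ hg0)) hw0, v.ord_pow, v.ord_pow, hgord] at h3
    have h4 : ∀ i, v.ord (lin (H i) fun i => g * f i) - 1 =
        v.ord (lin (H i) f) - v.minOrd f - 1 := by
      intro i
      rw [lin_mul, v.ord_mul _ _ hg0 (hfH i), hgord]; ring
    rw [Finset.sum_congr rfl fun i _ => by rw [h4 i]] at h3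
    rw [hord]
    push_cast at h3
    linarith
  refine (fs_mono hfin hfin3 h1).trans (le_of_eq ?_)
  rw [hsum3, finsum_ord, finsum_ord_dv hx]
  unfold htP
  rw [fs_neg]
  ring

/-- the inequality for points on a constant line -/
theorem lines_const {r : ℕ} {H : Fin r → Fin 3 → k} (hH : GenPos H) {f : Fin 3 → L}
    (hf : ∃ i, f i ≠ 0) (hfH : ∀ i, lin (H i) f ≠ 0) {x : L} (hx : Transcendental k x)
    {q : Fin 3 → k} (hq : ∀ i, cr q (H i) ≠ 0) (hq0 : q ≠ 0) {lam : L} (hlam0 : lam ≠ 0)
    (hlam : cr f (fun i => der hx (f i)) = fun i => lam * algebraMap k L (q i)) :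
    (r : ℤ) * htP k f - ∑ i, ((hitSet (H i) f : Set (Place k L)).ncard : ℤ) ≤
      2 * chi k L + 4 * htP k f := by
  obtain ⟨hfin, hsum⟩ := excess_sum H hfH
  rw [← hsum]
  obtain ⟨hfin3, hsum3⟩ := finsum_three (fun v : Place k L => 2 * v.ord lam)
    (fun v => v.ord (v.dv x)) (fun v => v.minOrd f) (supp_const_mul 2 (supp_ord lam))
    (finite_ord_dv_ne_zero hx) (supp_minOrd f) 2 4
  have h1 : ∀ v : Place k L, ∑ i, max 0 (v.ord (lin (H i) f) - v.minOrd f - 1) ≤
      2 * v.ord lam + 2 * v.ord (v.dv x) - 4 * v.minOrd f := by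
    intro v
    obtain ⟨g, hg0, hgord, hg1, hg2⟩ := exists_primitive v f hf
    have hδ : der hx v.unif ≠ 0 := der_ne_zero hx v.transcendental_unif
    have hcr : cr f (fun i => v.dv (f i)) = fun i => (der hx v.unif)⁻¹ * lam *
        algebraMap k L (q i) := by
      have h2 := cr_der_eq v (der hx) f
      rw [hlam] at h2
      ext i
      have h3 : lam * algebraMap k L (q i) = der hx v.unif * cr f (fun i => v.dv (f i)) i :=
        congrFun h2 i
      rw [mul_assoc, h3, ← mul_assoc, inv_mul_cancel₀ hδ, one_mul]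
    have h2 : cr (fun i => g * f i) (fun i => v.dv (g * f i)) =
        fun i => g ^ 2 * ((der hx v.unif)⁻¹ * lam) * algebraMap k L (q i) := by
      rw [cr_derivation_mul, hcr]
      ext i; ring
    have hne : g ^ 2 * ((der hx v.unif)⁻¹ * lam) ≠ 0 :=
      mul_ne_zero (pow_ne_zero _ hg0) (mul_ne_zero (inv_ne_zero hδ) hlam0)
    have h3 := lines_local_const v hH hg1 hg2
      (fun i => by rw [lin_mul]; exact mul_ne_zero hg0 (hfH i)) hq h2 hne hq0
    rw [v.ord_mul _ _ (pow_ne_zero _ hg0) (mul_ne_zero (inv_ne_zero hδ) hlam0), v.ord_pow, hgord,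
      v.ord_mul _ _ (inv_ne_zero hδ) hlam0, v.ord_inv, v.ord_der_unif hx] at h3
    have h4 : ∀ i, v.ord (lin (H i) fun i => g * f i) - 1 =
        v.ord (lin (H i) f) - v.minOrd f - 1 := by
      intro i
      rw [lin_mul, v.ord_mul _ _ hg0 (hfH i), hgord]; ring
    rw [Finset.sum_congr rfl fun i _ => by rw [h4 i]] at h3
    push_cast at h3
    linarith
  refine (fs_mono hfin hfin3 h1).trans (le_of_eq ?_)
  rw [hsum3, fs_const_mul, finsum_ord, finsum_ord_dv hx]
  unfold htP
  rw [fs_neg]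
  ring

end Pool.Agent.Helper11
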