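import Pool.Agent.Helper11.OscLocal
import Pool.Agent.Helper11.ExtChi

set_option linter.unusedSectionVars false

namespace Pool.Agent.Helper11

open Polynomial

section coefD

variable {k L : Type*} [Field k] [Field L] [Algebra k L]

/-- the coefficientwise derivative of a polynomial -/
noncomputable def coefD (δ : Derivation k L L) (f : L[X]) : L[X] :=
  ∑ i ∈ Finset.range (f.natDegree + 1), monomial i (δ (f.coeff i))

theorem coeff_coefD (δ : Derivation k L L) (f : L[X]) (j : ℕ) :
    (coefD δ f).coeff j = δ (f.coeff j) := by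
  rw [coefD, finsetSum_coeff]
  simp only [coeff_monomial]
  rw [Finset.sum_ite_eq']
  split_ifs with h
  · rfl
  · rw [Finset.mem_range] at h
    rw [coeff_eq_zero_of_natDegree_lt (by omega), map_zero]

theorem coefD_mul (δ : Derivation k L L) (f g : L[X]) :
    coefD δ (f * g) = coefD δ f * g + f * coefD δ g := by
  ext j
  rw [coeff_coefD, coeff_mul, map_sum, coeff_add, coeff_mul, coeff_mul, ← Finset.sum_add_distrib]
  refine Finset.sum_congr rfl fun a _ => ?_
  rw [Derivation.leibniz, coeff_coefD, coeff_coefD, smul_eq_mul, smul_eq_mul]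
  ring

theorem coefD_C_mul (δ : Derivation k L L) (c : L) (f : L[X]) :
    coefD δ (C c * f) = C c * coefD δ f + C (δ c) * f := by
  ext j
  rw [coeff_coefD, coeff_C_mul, Derivation.leibniz, coeff_add, coeff_C_mul, coeff_C_mul,
    coeff_coefD, smul_eq_mul, smul_eq_mul]
  ring

theorem natDegree_coefD_le (δ : Derivation k L L) (f : L[X]) :
    (coefD δ f).natDegree ≤ f.natDegree := by
  rw [natDegree_le_iff_coeff_eq_zero]
  intro j hj
  rw [coeff_coefD, coeff_eq_zero_of_natDegree_lt hj, map_zero]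

theorem homEval_coefD (δ : Derivation k L L) (m : ℕ) (f : L[X]) (x y : k) :
    homEval m (coefD δ f) (algebraMap k L x) (algebraMap k L y) =
      δ (homEval m f (algebraMap k L x) (algebraMap k L y)) := by
  rw [homEval, homEval, map_sum]
  refine Finset.sum_congr rfl fun s _ => ?_
  rw [← map_pow, ← map_pow, ← map_mul, Derivation.leibniz, Derivation.map_algebraMap,
    coeff_coefD, smul_zero, zero_add, smul_eq_mul]
  ring

theorem homEval_C_mul {R : Type*} [CommRing R] (m : ℕ) (c : R) (f : R[X]) (x y : R) :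
    homEval m (C c * f) x y = c * homEval m f x y := by
  rw [homEval, homEval, Finset.mul_sum]
  refine Finset.sum_congr rfl fun s _ => ?_
  rw [coeff_C_mul]; ring

end coefD

section excess

variable {k L : Type*} [Field k] [Field L] [Algebra k L] [FunField k L] [CharZero k]
  [IsAlgClosed k]

/-- the places at which the form with value `y` vanishes at the point `F` -/
def hitS {k L κ : Type*} [Field k] [Field L] [Algebra k L] (F : κ → L) (y : L) :
    Set (Place k L) := {v | v.minOrd F < v.ord y}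

/-- the total excess multiplicity for a family of linear forms `ℓ i` in the coordinates `F` -/
theorem excess_sum' {κ ι : Type*} [Finite κ] [Fintype ι] {F : κ → L} {ℓ : ι → L}
    (hle : ∀ (v : Place k L) i, v.minOrd F ≤ v.ord (ℓ i)) :
    {v : Place k L | ∑ i, max 0 (v.ord (ℓ i) - v.minOrd F - 1) ≠ 0}.Finite ∧
    ∑ᶠ v : Place k L, ∑ i, max 0 (v.ord (ℓ i) - v.minOrd F - 1) =
      (Fintype.card ι : ℤ) * htP k F -
        ∑ i, ((hitS F (ℓ i) : Set (Place k L)).ncard : ℤ) := by
  classical
  have hfinhit : ∀ i, (hitS F (ℓ i) : Set (Place k L)).Finite := by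
    intro i
    apply ((supp_minOrd (k := k) F).union (supp_ord (k := k) (ℓ i))).subset
    intro v hv
    by_contra hcon
    rw [Set.mem_union, not_or] at hcon
    obtain ⟨h1, h2⟩ := hcon
    simp only [Set.mem_ofPred_eq, not_not] at h1 h2
    have hv' : v.minOrd F < v.ord (ℓ i) := hv
    omega
  have h1 : ∀ i (v : Place k L), max 0 (v.ord (ℓ i) - v.minOrd F - 1) =
      v.ord (ℓ i) - v.minOrd F -
        (if v ∈ (hitS F (ℓ i) : Set (Place k L)) then 1 else 0) := by
    intro i v
    have h2 := hle v i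
    by_cases h3 : v ∈ (hitS F (ℓ i) : Set (Place k L))
    · have h3' : v.minOrd F < v.ord (ℓ i) := h3
      rw [if_pos h3, max_eq_right (by omega)]
    · have h3' : ¬ v.minOrd F < v.ord (ℓ i) := h3
      rw [if_neg h3, max_eq_left (by omega)]; omega
  have hfin : ∀ i, {v : Place k L | max 0 (v.ord (ℓ i) - v.minOrd F - 1) ≠ 0}.Finite := by
    intro i
    have := supp_sub (supp_sub (supp_ord (k := k) (ℓ i)) (supp_minOrd (k := k) F))
      (supp_ind (hfinhit i))
    refine this.subset ?_
    intro v hv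
    have hv' : max 0 (v.ord (ℓ i) - v.minOrd F - 1) ≠ 0 := hv
    rw [h1 i v] at hv'
    exact hv'
  refine ⟨supp_sum _ _ fun i _ => hfin i, ?_⟩
  rw [fs_sum _ _ fun i _ => hfin i]
  have h4 : ∀ i, ∑ᶠ v : Place k L, max 0 (v.ord (ℓ i) - v.minOrd F - 1) =
      htP k F - ((hitS F (ℓ i) : Set (Place k L)).ncard : ℤ) := by
    intro i
    rw [finsum_congr (h1 i), fs_sub (supp_sub (supp_ord (k := k) (ℓ i))
      (supp_minOrd (k := k) F)) (supp_ind (hfinhit i)), fs_ind (hfinhit i),
      fs_sub (supp_ord (k := k) (ℓ i)) (supp_minOrd (k := k) F), finsum_ord]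
    unfold htP
    rw [fs_neg]
    ring
  rw [Finset.sum_congr rfl fun i _ => h4 i, Finset.sum_sub_distrib]
  simp

end excess

section main

variable {k L : Type*} [Field k] [Field L] [Algebra k L]

/-- the resultant bound with any number of points -/
theorem Place.resultant_local (v : Place k L) {ι : Type*} [Fintype ι] {m : ℕ}
    (hcard : m + m ≤ Fintype.card ι) {x y : ι → k}
    (hxy : ∀ i j, i ≠ j → x j * y i - x i * y j ≠ 0) {f g : L[X]}
    (hf0 : ∀ j, f.coeff j ∈ v.ge 0) (hg0 : ∀ j, g.coeff j ∈ v.ge 0)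
    (hf1 : ∃ j ≤ m, f.coeff j ∉ v.ge 1) (μ : ι → ℤ) (hμ : ∀ i, 0 ≤ μ i)
    (hf : ∀ i, 0 < μ i →
      homEval m f (algebraMap k L (x i)) (algebraMap k L (y i)) ∈ v.ge (μ i))
    (hg : ∀ i, 0 < μ i →
      homEval m g (algebraMap k L (x i)) (algebraMap k L (y i)) ∈ v.ge (μ i)) :
    resultant f g m m ∈ v.ge (∑ i, μ i) := by
  classical
  set S : Finset ι := Finset.univ.filter (fun i => 0 < μ i) with hS
  have hScard : S.card ≤ m := by
    by_contra hcon
    push Not at hcon
    obtain ⟨T, hTS, hTcard⟩ := Finset.exists_subset_card_eq (s := S) (n := m + 1) (by omega)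
    have e : Fin (m + 1) ≃ T := (Fintype.equivFinOfCardEq (by rw [Fintype.card_coe, hTcard])).symm
    obtain ⟨j, hj, hj1⟩ := hf1
    refine hj1 (v.coeff_mem_of_values (x := fun a => x (e a)) (y := fun a => y (e a)) ?_ ?_ j hj)
    · intro a b hab
      apply hxy
      intro h
      exact hab (e.injective (Subtype.ext h))
    · intro a
      have h1 : 0 < μ (e a) := (Finset.mem_filter.1 (hTS (e a).2)).2
      exact v.ge_anti (by omega) (hf _ h1)
  obtain ⟨u, hSu, -, hucard⟩ := Finset.exists_subsuperset_card_eq (Finset.subset_univ S)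
    (n := m + m) (by omega) (by rw [Finset.card_univ]; exact hcard)
  have e : Fin (m + m) ≃ u := (Fintype.equivFinOfCardEq (by rw [Fintype.card_coe, hucard])).symm
  have hsum : ∑ i, μ i = ∑ a : Fin (m + m), μ (e a) := by
    rw [Equiv.sum_comp e (fun b : u => μ b), Finset.sum_coe_sort u μ]
    symm
    apply Finset.sum_subset (Finset.subset_univ u)
    intro i _ hi
    by_contra hne
    apply hi
    apply hSu
    rw [hS, Finset.mem_filter]
    exact ⟨Finset.mem_univ _, lt_of_le_of_ne (hμ i) (Ne.symm hne)⟩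
  rw [hsum]
  have hval : ∀ (p : L[X]), (∀ j, p.coeff j ∈ v.ge 0) → (∀ i, 0 < μ i →
      homEval m p (algebraMap k L (x i)) (algebraMap k L (y i)) ∈ v.ge (μ i)) →
      ∀ a : Fin (m + m), homEval m p (algebraMap k L (x (e a))) (algebraMap k L (y (e a))) ∈
        v.ge (μ (e a)) := by
    intro p hp0 hp a
    rcases (hμ (e a)).eq_or_lt with h | h
    · rw [← h]; exact v.homEval_mem_ge m hp0 _ _
    · exact hp _ h
  refine v.resultant_mem_ge (x := fun a => x (e a)) (y := fun a => y (e a)) ?_ _
    (hval f hf0 hf) (hval g hg0 hg)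
  intro a b hab
  apply hxy
  intro h
  exact hab (e.injective (Subtype.ext h))

end main

section global

variable {k L : Type*} [Field k] [Field L] [Algebra k L] [FunField k L] [CharZero k]
  [IsAlgClosed k]

/-- the coefficient vector of a polynomial of degree at most `n` -/
noncomputable def coeffVec {L : Type*} [Field L] (n : ℕ) (f : L[X]) : Fin (n + 1) → L :=
  fun j => f.coeff j

theorem homEval_mem_minOrd (v : Place k L) (n : ℕ) (f : L[X]) (x y : k) :
    homEval n f (algebraMap k L x) (algebraMap k L y) ∈ v.ge (v.minOrd (coeffVec n f)) := by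
  refine sum_mem fun s hs => ?_
  rw [Finset.mem_range] at hs
  rw [← map_pow, ← map_pow, ← map_mul]
  have h1 : f.coeff s ∈ v.ge (v.minOrd (coeffVec n f)) :=
    v.mem_ge_minOrd (coeffVec n f) ⟨s, hs⟩
  have := v.mul_mem_ge h1 (v.algebraMap_mem_ge (x ^ s * y ^ (n - s)))
  simpa using this

theorem resultant_coefD_C_mul (δ : Derivation k L L) {n : ℕ} {f : L[X]} (hf : f.natDegree ≤ n)
    (g : L) :
    resultant (C g * f) (coefD δ (C g * f)) n n = g ^ (n + n) * resultant f (coefD δ f) n n := by
  rw [resultant_C_mul_left, coefD_C_mul, mul_comm (C (δ g)) f, resultant_add_mul_right _ _ _ _ _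
    (by rw [natDegree_C]; omega) hf, resultant_C_mul_right, ← mul_assoc, ← pow_add]

/-- the main inequality when the resultant does not vanish -/
theorem osc_main {ι : Type*} [Fintype ι] {n : ℕ} (hcard : n + n ≤ Fintype.card ι) {x y : ι → k}
    (hxy : ∀ i j, i ≠ j → x j * y i - x i * y j ≠ 0) {f : L[X]} (hfdeg : f.natDegree ≤ n)
    (hf0 : f ≠ 0) {t : L} (ht : Transcendental k t)
    (hfH : ∀ i, homEval n f (algebraMap k L (x i)) (algebraMap k L (y i)) ≠ 0)
    (hW : resultant f (coefD (der ht) f) n n ≠ 0) :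
    (Fintype.card ι : ℤ) * htP k (coeffVec n f) -
        ∑ i, ((hitS (coeffVec n f) (homEval n f (algebraMap k L (x i)) (algebraMap k L (y i))) :
          Set (Place k L)).ncard : ℤ) ≤
      n * chi k L + 2 * n * htP k (coeffVec n f) := by
  set F := coeffVec n f with hF
  set ℓ : ι → L := fun i => homEval n f (algebraMap k L (x i)) (algebraMap k L (y i)) with hℓ
  have hle : ∀ (v : Place k L) i, v.minOrd F ≤ v.ord (ℓ i) := fun v i =>
    v.le_ord_of_mem (homEval_mem_minOrd v n f (x i) (y i)) (hfH i)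
  obtain ⟨hfin, hsum⟩ := excess_sum' hle
  have hFne : ∃ j, F j ≠ 0 := by
    refine ⟨⟨f.natDegree, by omega⟩, ?_⟩
    show f.coeff f.natDegree ≠ 0
    rwa [Ne, coeff_natDegree, leadingCoeff_eq_zero]
  set W := resultant f (coefD (der ht) f) n n with hWdef
  have hfin3 : {v : Place k L | v.ord W + n * v.ord (v.dv t) - 2 * n * v.minOrd F ≠ 0}.Finite :=
    supp_sub (supp_add (supp_ord W) (supp_const_mul _ (finite_ord_dv_ne_zero ht)))
      (supp_const_mul _ (supp_minOrd F))
  have hsum3 : ∑ᶠ v : Place k L, (v.ord W + n * v.ord (v.dv t) - 2 * n * v.minOrd F) =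
      n * chi k L + 2 * n * htP k F := by
    rw [fs_sub (supp_add (supp_ord W) (supp_const_mul _ (finite_ord_dv_ne_zero ht)))
      (supp_const_mul _ (supp_minOrd F)), fs_add (supp_ord W)
      (supp_const_mul _ (finite_ord_dv_ne_zero ht)), fs_const_mul, fs_const_mul, finsum_ord,
      finsum_ord_dv ht]
    unfold htP
    rw [fs_neg]
    ring
  rw [← hsum, ← hsum3]
  refine fs_mono hfin hfin3 fun v => ?_
  set g : L := v.unif ^ (-v.minOrd F) with hg
  have hg0 : g ≠ 0 := zpow_ne_zero _ v.unif_ne_zero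
  have hgord : v.ord g = -v.minOrd F := by rw [hg, v.ord_zpow, v.ord_unif, mul_one]
  set φ : L[X] := C g * f with hφ
  have hφ0 : ∀ j, φ.coeff j ∈ v.ge 0 := by
    intro j
    rw [hφ, coeff_C_mul]
    by_cases hj : j < n + 1
    · have h1 : f.coeff j ∈ v.ge (v.minOrd F) := v.mem_ge_minOrd F ⟨j, hj⟩
      have := v.mul_mem_ge (v.mem_ge_ord g) h1
      rwa [hgord, neg_add_cancel] at this
    · rw [coeff_eq_zero_of_natDegree_lt (by omega), mul_zero]; exact zero_mem _
  have hφ1 : ∃ j ≤ n, φ.coeff j ∉ v.ge 1 := by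
    obtain ⟨j, hj, h2⟩ := v.exists_minOrd F hFne
    refine ⟨j, by have := j.2; omega, fun h3 => ?_⟩
    have hj' : f.coeff j ≠ 0 := hj
    rw [hφ, coeff_C_mul] at h3
    have h4 := v.le_ord_of_mem h3 (mul_ne_zero hg0 hj')
    rw [v.ord_mul _ _ hg0 hj', hgord] at h4
    have h5 : v.minOrd F = v.ord (f.coeff j) := h2
    omega
  have hval : ∀ i, homEval n φ (algebraMap k L (x i)) (algebraMap k L (y i)) = g * ℓ i := by
    intro i; rw [hφ, homEval_C_mul]
  have hvalord : ∀ i, v.ord (g * ℓ i) = v.ord (ℓ i) - v.minOrd F := by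
    intro i
    rw [v.ord_mul _ _ hg0 (hfH i), hgord]; ring
  set w := resultant f (coefD v.dv f) n n with hw
  have hδ : der ht v.unif ≠ 0 := der_ne_zero ht v.transcendental_unif
  have hWw : W = der ht v.unif ^ n * w := by
    have h1 : coefD (der ht) f = C (der ht v.unif) * coefD v.dv f := by
      ext j
      rw [coeff_coefD, coeff_C_mul, coeff_coefD, v.derivation_eq (der ht) (f.coeff j)]
      ring
    rw [hWdef, h1, resultant_C_mul_right]
  have hw0 : w ≠ 0 := by
    intro h; rw [h, mul_zero] at hWw; exact hW hWw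
  have hordW : v.ord W = - n * v.ord (v.dv t) + v.ord w := by
    rw [hWw, v.ord_mul _ _ (pow_ne_zero _ hδ) hw0, v.ord_pow, v.ord_der_unif ht]; ring
  have h2 := resultant_coefD_C_mul v.dv hfdeg g
  rw [← hφ, ← hw] at h2
  have h3 := v.resultant_local hcard hxy hφ0 (g := coefD v.dv φ)
    (fun j => by rw [coeff_coefD]; exact v.dv_mem_ge_zero (hφ0 j)) hφ1
    (fun i => max 0 (v.ord (ℓ i) - v.minOrd F - 1)) (fun i => le_max_left _ _) ?_ ?_
  · rw [h2] at h3
    have h4 := v.le_ord_of_mem h3 (mul_ne_zero (pow_ne_zero _ hg0) hw0)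
    rw [v.ord_mul _ _ (pow_ne_zero _ hg0) hw0, v.ord_pow, hgord] at h4
    rw [hordW]
    push_cast at h4
    linarith
  · intro i hi
    rw [hval]
    have h5 := hvalord i
    exact v.mem_ge_of_le (by
      rw [h5]
      rcases max_choice 0 (v.ord (ℓ i) - v.minOrd F - 1) with h6 | h6
      · rw [h6] at hi; exact absurd hi (lt_irrefl _)
      · rw [h6]; omega)
  · intro i hi
    rw [homEval_coefD, hval]
    have h5 : g * ℓ i ∈ v.ge (v.ord (ℓ i) - v.minOrd F) := by
      rw [← hvalord i]; exact v.mem_ge_ord _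
    have h6 := v.dv_mem_ge h5
    refine v.ge_anti ?_ h6
    rcases max_choice 0 (v.ord (ℓ i) - v.minOrd F - 1) with h7 | h7
    · rw [h7] at hi; exact absurd hi (lt_irrefl _)
    · rw [h7]

end global

end Pool.Agent.Helper11
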