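import Pool.Agent.Helper11.Exceptional
import Pool.Agent.Helper11.OscGlobal

/-! Truncation level one: final assembly -/

set_option linter.unusedSectionVars false

namespace Pool.Agent.Helper11

open MvPolynomial

universe u w

section single

variable {k L ι : Type*} [Field k] [Field L] [Algebra k L] [FunField k L] [CharZero k]
  [IsAlgClosed k] [Fintype ι]

theorem minOrd_le_pairing (v : Place k L) {F : ι → L} {p : ι → k} (h : pairing F p ≠ 0) :
    v.minOrd F ≤ v.ord (pairing F p) :=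
  v.le_ord_of_mem (pairing_mem_ge v (fun i => v.mem_ge_minOrd F i) p) h

/-- the total excess of a hyperplane -/
theorem finsum_exc {F : ι → L} {p : ι → k} (h : pairing F p ≠ 0) :
    ∑ᶠ v : Place k L, exc v F p = htP k F - ((hitS F (pairing F p) : Set (Place k L)).ncard : ℤ) := by
  have h1 := (excess_sum' (k := k) (F := F) (ℓ := fun _ : Unit => pairing F p)
    (fun v _ => minOrd_le_pairing v h)).2
  simpa [exc] using h1

theorem Place.adj (v : Place k L) {t : L} (ht : Transcendental k t) {μ : ℤ} {z : L}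
    (hz : z ∈ v.ge μ) {e : ℤ} (he0 : 0 ≤ e) (he : e = 0 ∨ e = v.ord z - μ - 1) :
    z ∈ v.ge (μ + e) ∧ der ht z - der ht v.unif * μ * v.unif⁻¹ * z ∈
      v.ge (μ - v.ord (v.dv t) + e) := by
  have hctge : der ht v.unif ∈ v.ge (-v.ord (v.dv t)) := by
    apply v.mem_ge_of_le
    rw [v.ord_der_unif ht]
  have h2 : der ht z - der ht v.unif * μ * v.unif⁻¹ * z =
      der ht v.unif * (v.dv z - μ * v.unif⁻¹ * z) := by
    rw [v.der_eq ht z]; ring
  rw [h2]
  have h3 := v.dv_sub_mem hz
  have h4 : z ∈ v.ge (μ + e) ∧ v.dv z - μ * v.unif⁻¹ * z ∈ v.ge (μ + e) := by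
    rcases he with rfl | he
    · rw [add_zero]; exact ⟨hz, h3⟩
    · refine ⟨v.mem_ge_of_le (by omega), ?_⟩
      have h4 : v.dv z ∈ v.ge (v.ord z - 1) := v.dv_mem_ge (v.mem_ge_ord z)
      have h5 : (μ : L) * v.unif⁻¹ * z ∈ v.ge (v.ord z - 1) := by
        have h6 : v.unif⁻¹ ∈ v.ge (-1) := by
          apply v.mem_ge_of_le
          rw [v.ord_inv, v.ord_unif]
        have h7 := v.mul_mem_ge (v.mul_mem_ge (v.intCast_mem_ge μ) h6) (v.mem_ge_ord z)
        have h8 : (0 : ℤ) + -1 + v.ord z = v.ord z - 1 := by ring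
        rwa [h8] at h7
      have h9 := sub_mem h4 h5
      rwa [show v.ord z - 1 = μ + e by omega] at h9
  refine ⟨h4.1, ?_⟩
  have h5 := v.mul_mem_ge hctge h4.2
  have h6 : -v.ord (v.dv t) + (μ + e) = μ - v.ord (v.dv t) + e := by ring
  rwa [h6] at h5

/-- the bound for a single hyperplane -/
theorem finsum_exc_le {F : ι → L} (hF : ¬ IsConstPt k F) {p : ι → k} (h : pairing F p ≠ 0) :
    ∑ᶠ v : Place k L, exc v F p ≤ 2 * htP k F + chi k L := by
  classical
  obtain ⟨t, ht⟩ := FunField.exists_transcendental (k := k) (L := L)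
  -- some coordinate is not proportional to the value at `p`
  obtain ⟨i, hi⟩ : ∃ i, ¬ ∃ c : k, F i = algebraMap k L c * pairing F p := by
    by_contra hcon
    push Not at hcon
    choose c hc using hcon
    exact hF ⟨pairing F p, c, fun i => by rw [hc i]; ring⟩
  set a := pairing F p with ha
  set b := F i with hb
  set W : L := a * der ht b - b * der ht a with hW
  have hW0 : W ≠ 0 := by
    intro h0
    apply hi
    have h1 : der ht (b / a) = 0 := by
      have h2 : b / a * a = b := div_mul_cancel₀ b h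
      have h3 : der ht b = (b / a) * der ht a + a * der ht (b / a) := by
        conv_lhs => rw [← h2]
        rw [Derivation.leibniz, smul_eq_mul, smul_eq_mul]
      rw [hW, h3] at h0
      have h4 : a * a * der ht (b / a) = 0 := by
        have h5 : a * ((b / a) * der ht a + a * der ht (b / a)) - b * der ht a =
            a * a * der ht (b / a) + ((b / a * a) - b) * der ht a := by ring
        rw [h5, h2, sub_self, zero_mul, add_zero] at h0
        exact h0
      exact (mul_eq_zero.1 h4).resolve_left (mul_ne_zero h h)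
    rw [der_eq_zero_iff ht] at h1
    obtain ⟨c, hc⟩ := h1
    exact ⟨c, by rw [hc, div_mul_cancel₀ b h]⟩
  -- local estimate
  have hlocal : ∀ v : Place k L, exc v F p + 2 * v.minOrd F - v.ord (v.dv t) ≤ v.ord W := by
    intro v
    have ha1 := v.adj ht (pairing_mem_ge v (fun i => v.mem_ge_minOrd F i) p)
      (e := exc v F p) (le_max_left _ _) (by
        unfold exc
        rcases le_total 0 (v.ord (pairing F p) - v.minOrd F - 1) with h | h
        · right; rw [max_eq_right h]
        · left; rw [max_eq_left h])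
    have hb1 := v.adj ht (v.mem_ge_minOrd F i) (e := 0) le_rfl (Or.inl rfl)
    rw [add_zero, add_zero] at hb1
    have h1 := sub_mem (v.mul_mem_ge ha1.1 hb1.2) (by
      have := v.mul_mem_ge hb1.1 ha1.2
      have h2 : v.minOrd F + (v.minOrd F - v.ord (v.dv t) + exc v F p) =
        v.minOrd F + exc v F p + (v.minOrd F - v.ord (v.dv t)) := by ring
      rwa [h2] at this)
    have h3 : a * (der ht b - der ht v.unif * v.minOrd F * v.unif⁻¹ * b) -
        b * (der ht a - der ht v.unif * v.minOrd F * v.unif⁻¹ * a) = W := by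
      rw [hW]; ring
    rw [← ha, ← hb, h3] at h1
    have h4 := v.le_ord_of_mem h1 hW0
    linarith
  have hsum := fs_mono (f := fun v : Place k L =>
      exc v F p + 2 * v.minOrd F - v.ord (v.dv t)) (g := fun v => v.ord W) ?_ (supp_ord _) hlocal
  · rw [finsum_ord, fs_sub, fs_add, fs_const_mul, finsum_ord_dv ht] at hsum
    · have h1 : htP k F = - ∑ᶠ v : Place k L, v.minOrd F := by
        unfold htP
        rw [fs_neg]
      rw [h1]
      linarith
    · exact supp_exc
    · exact supp_const_mul _ (supp_minOrd F)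
    · exact supp_add supp_exc (supp_const_mul _ (supp_minOrd F))
    · exact finite_ord_dv_ne_zero ht
  · exact supp_sub (supp_add supp_exc (supp_const_mul _ (supp_minOrd F)))
      (finite_ord_dv_ne_zero ht)

/-- the reductions of a point of a projective variety lie on the variety -/
theorem reduction_mem_zs {I : Ideal (MvPolynomial ι k)} (hI : HomI I) {f : ι → L}
    (hf : ∀ F ∈ I, aeval f F = 0) (v : Place k L) {c : ι → k}
    (hc : ∀ i, f i - v.unif ^ v.minOrd f * algebraMap k L (c i) ∈ v.ge (v.minOrd f + 1)) :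
    c ∈ zs I := by
  classical
  set μ := v.minOrd f with hμ
  set w : L := v.unif ^ (-μ) with hw
  have hword : v.ord w = -μ := by rw [hw, v.ord_zpow, v.ord_unif, mul_one]
  have hz : ∀ i, w * f i ∈ v.O := by
    intro i
    have h1 := v.mul_mem_ge (v.mem_ge_ord w) (v.mem_ge_minOrd f i)
    rw [hword, neg_add_cancel] at h1
    exact h1
  let z : ι → v.O := fun i => ⟨w * f i, hz i⟩
  have hzc : ∀ i, v.resHom (z i) = c i := by
    intro i
    apply v.resO_eq
    change w * f i - algebraMap k L (c i) ∈ v.ge 1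
    have h1 := v.mul_mem_ge (v.mem_ge_ord w) (hc i)
    rw [hword, neg_add_cancel_left] at h1
    have h2 : w * (f i - v.unif ^ μ * algebraMap k L (c i)) = w * f i - algebraMap k L (c i) := by
      rw [mul_sub, ← mul_assoc, hw, ← zpow_add₀ v.unif_ne_zero, neg_add_cancel, zpow_zero, one_mul]
    rwa [h2] at h1
  let θ : k →+* v.O := (algebraMap k L).codRestrict v.O fun a => v.algebraMap_mem_ge a
  have hθ : ∀ a, v.resHom (θ a) = a := fun a => v.resHom_algebraMap a (v.algebraMap_mem_ge a)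
  let H : MvPolynomial ι k →+* v.O := eval₂Hom θ z
  have hH1 : ∀ F, ((H F : v.O) : L) = aeval (fun i => w * f i) F := by
    intro F
    have h3 : v.O.subtype.comp H = (aeval (fun i => w * f i) : MvPolynomial ι k →ₐ[k] L).toRingHom := by
      apply MvPolynomial.ringHom_ext
      · intro a
        change ((H (C a) : v.O) : L) = aeval (fun i => w * f i) (C a)
        rw [aeval_C]
        have : H (C a) = θ a := eval₂Hom_C _ _ _
        rw [this]; rfl
      · intro i
        change ((H (X i) : v.O) : L) = aeval (fun i => w * f i) (X i)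
        rw [aeval_X]
        have : H (X i) = z i := eval₂Hom_X' _ _ _
        rw [this]
    exact RingHom.congr_fun h3 F
  have hH2 : ∀ F, v.resHom (H F) = eval c F := by
    intro F
    have h3 : v.resHom.comp H = eval c := by
      apply MvPolynomial.ringHom_ext
      · intro a
        rw [RingHom.comp_apply, eval_C]
        have : H (C a) = θ a := eval₂Hom_C _ _ _
        rw [this, hθ]
      · intro i
        rw [RingHom.comp_apply, eval_X]
        have : H (X i) = z i := eval₂Hom_X' _ _ _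
        rw [this, hzc]
    exact RingHom.congr_fun h3 F
  intro F hF
  rw [← hH2]
  have h0 : H F = 0 := by
    apply Subtype.ext
    rw [hH1]
    exact aeval_scale_eq_zero hI hf w hF
  rw [h0, map_zero]

theorem reduction_ne_zero {f : ι → L} (hf : ∃ i, f i ≠ 0) (v : Place k L) {c : ι → k}
    (hc : ∀ i, f i - v.unif ^ v.minOrd f * algebraMap k L (c i) ∈ v.ge (v.minOrd f + 1)) :
    c ≠ 0 := by
  intro h0
  obtain ⟨i, hi, h2⟩ := v.exists_minOrd f hf
  have h1 := hc i
  rw [h0, Pi.zero_apply, map_zero, mul_zero, sub_zero] at h1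
  have h3 := v.le_ord_of_mem h1 hi
  omega

end single

section system

variable {k L ι α : Type*} [Field k] [Field L] [Algebra k L] [FunField k L] [CharZero k]
  [IsAlgClosed k] [Fintype ι] [Fintype α]

/-- the reduction of the value of a form -/
theorem aeval_sub_mem (v : Place k L) {f : ι → L} {c : ι → k}
    (hc : ∀ i, f i - v.unif ^ v.minOrd f * algebraMap k L (c i) ∈ v.ge (v.minOrd f + 1))
    {G : MvPolynomial ι k} {e : ℕ} (hG : G.IsHomogeneous e) :
    aeval f G - v.unif ^ (e * v.minOrd f) * algebraMap k L (eval c G) ∈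
      v.ge (e * v.minOrd f + 1) := by
  classical
  set μ := v.minOrd f with hμ
  set w : L := v.unif ^ (-μ) with hw
  have hw0 : w ≠ 0 := zpow_ne_zero _ v.unif_ne_zero
  have hword : v.ord w = -μ := by rw [hw, v.ord_zpow, v.ord_unif, mul_one]
  have h1 : ∀ i, w * f i - algebraMap k L (c i) ∈ v.ge 1 := by
    intro i
    have h1 := v.mul_mem_ge (v.mem_ge_ord w) (hc i)
    rw [hword, neg_add_cancel_left] at h1
    have h2 : w * (f i - v.unif ^ μ * algebraMap k L (c i)) = w * f i - algebraMap k L (c i) := by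
      rw [mul_sub, ← mul_assoc, hw, ← zpow_add₀ v.unif_ne_zero, neg_add_cancel, zpow_zero, one_mul]
    rwa [h2] at h1
  have h1' : ∀ i, w * f i ∈ v.ge 0 := by
    intro i
    have h2 := add_mem (v.ge_anti (by norm_num : (0 : ℤ) ≤ 1) (h1 i)) (v.algebraMap_mem_ge (c i))
    rwa [sub_add_cancel] at h2
  have h2 : ∀ P : MvPolynomial ι k,
      aeval (fun i => w * f i) P - algebraMap k L (eval c P) ∈ v.ge 1 ∧
      aeval (fun i => w * f i) P ∈ v.ge 0 := by
    intro P
    induction P using MvPolynomial.induction_on with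
    | C a =>
      rw [aeval_C, eval_C, sub_self]
      exact ⟨zero_mem _, v.algebraMap_mem_ge a⟩
    | add P Q hP hQ =>
      rw [map_add, map_add, map_add]
      refine ⟨?_, add_mem hP.2 hQ.2⟩
      have := add_mem hP.1 hQ.1
      rwa [sub_add_sub_comm] at this
    | mul_X P i hP =>
      rw [map_mul, map_mul, map_mul, aeval_X, eval_X]
      refine ⟨?_, by simpa using v.mul_mem_ge hP.2 (h1' i)⟩
      have h3 : aeval (fun i => w * f i) P * (w * f i) -
          algebraMap k L (eval c P) * algebraMap k L (c i) =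
          (aeval (fun i => w * f i) P - algebraMap k L (eval c P)) * (w * f i) +
          algebraMap k L (eval c P) * (w * f i - algebraMap k L (c i)) := by ring
      rw [h3]
      refine add_mem ?_ ?_
      · simpa using v.mul_mem_ge hP.1 (h1' i)
      · simpa using v.mul_mem_ge (v.algebraMap_mem_ge (eval c P)) (h1 i)
  have h3 := (h2 G).1
  rw [aeval_scale hG] at h3
  have h4 : v.unif ^ (e * μ) ∈ v.ge (e * μ) := by
    apply v.mem_ge_of_le
    rw [v.ord_zpow, v.ord_unif, mul_one]
  have h5 := v.mul_mem_ge h4 h3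
  have h6 : v.unif ^ (e * μ) * w ^ e = 1 := by
    rw [hw, ← zpow_natCast, ← zpow_mul, ← zpow_add₀ v.unif_ne_zero]
    have : (e : ℤ) * μ + -μ * e = 0 := by ring
    rw [this, zpow_zero]
  have h7 : v.unif ^ (e * μ) * (w ^ e * aeval f G - algebraMap k L (eval c G)) =
      aeval f G - v.unif ^ (e * μ) * algebraMap k L (eval c G) := by
    rw [mul_sub, ← mul_assoc, h6, one_mul]
  rwa [h7] at h5

/-- existence of reductions -/
theorem Place.exists_reduction (v : Place k L) (f : ι → L) :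
    ∃ c : ι → k, ∀ i, f i - v.unif ^ v.minOrd f * algebraMap k L (c i) ∈
      v.ge (v.minOrd f + 1) := by
  set μ := v.minOrd f with hμ
  set w : L := v.unif ^ (-μ) with hw
  have hword : v.ord w = -μ := by rw [hw, v.ord_zpow, v.ord_unif, mul_one]
  have hres : ∀ i, ∃ r : k, w * f i - algebraMap k L r ∈ v.ge 1 := by
    intro i
    apply v.exists_residue
    have h1 := v.mul_mem_ge (v.mem_ge_ord w) (v.mem_ge_minOrd f i)
    rwa [hword, neg_add_cancel] at h1
  choose c hc using hres
  refine ⟨c, fun i => ?_⟩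
  have h1 : v.unif ^ μ ∈ v.ge μ := by
    apply v.mem_ge_of_le
    rw [v.ord_zpow, v.ord_unif, mul_one]
  have h2 := v.mul_mem_ge h1 (hc i)
  have h3 : v.unif ^ μ * (w * f i - algebraMap k L (c i)) =
      f i - v.unif ^ μ * algebraMap k L (c i) := by
    rw [mul_sub, ← mul_assoc, hw, ← zpow_add₀ v.unif_ne_zero, add_neg_cancel, zpow_zero,
      one_mul]
  rwa [h3] at h2

variable {I : Ideal (MvPolynomial ι k)} {s : α → MvPolynomial ι k} {e : ℕ}

theorem minOrd_system (hI : HomI I) (hs : ∀ a, (s a).IsHomogeneous e)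
    (hbpf : ∀ x ∈ zs I, x ≠ 0 → ∃ a, eval x (s a) ≠ 0) {f : ι → L} (hf : ∀ G ∈ I, aeval f G = 0)
    (hf0 : ∃ i, f i ≠ 0) (v : Place k L) :
    v.minOrd (fun a => aeval f (s a)) = e * v.minOrd f ∧ ∃ a, aeval f (s a) ≠ 0 := by
  obtain ⟨c, hc⟩ := v.exists_reduction f
  have hcI := reduction_mem_zs hI hf v hc
  have hc0 := reduction_ne_zero hf0 v hc
  obtain ⟨a, ha⟩ := hbpf c hcI hc0
  have h1 := aeval_sub_mem v hc (hs a)
  have hne : aeval f (s a) ∉ v.ge (e * v.minOrd f + 1) := by
    intro h2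
    have h3 := sub_mem h2 h1
    rw [sub_sub_cancel] at h3
    have hne : v.unif ^ (e * v.minOrd f) * algebraMap k L (eval c (s a)) ≠ 0 :=
      mul_ne_zero (zpow_ne_zero _ v.unif_ne_zero) (by rwa [Ne, map_eq_zero])
    have h4 := v.le_ord_of_mem h3 hne
    rw [v.ord_mul _ _ (zpow_ne_zero _ v.unif_ne_zero) (by rwa [Ne, map_eq_zero]), v.ord_zpow,
      v.ord_unif, mul_one, v.ord_algebraMap] at h4
    linarith
  have hne0 : aeval f (s a) ≠ 0 := fun h => hne (by rw [h]; exact zero_mem _)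
  refine ⟨le_antisymm ?_ ?_, ⟨a, hne0⟩⟩
  · have h5 := v.minOrd_le (fun a => aeval f (s a)) hne0
    have h6 : ¬ e * v.minOrd f + 1 ≤ v.ord (aeval f (s a)) := fun h => hne (v.mem_ge_of_le h)
    have h7 := not_le.1 h6
    omega
  · refine v.le_minOrd _ ⟨a, hne0⟩ fun b => ?_
    have h7 := aeval_sub_mem v hc (hs b)
    have h8 : v.unif ^ (e * v.minOrd f) * algebraMap k L (eval c (s b)) ∈
        v.ge (e * v.minOrd f) := by
      have h9 : v.unif ^ (e * v.minOrd f) ∈ v.ge (e * v.minOrd f) := by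
        apply v.mem_ge_of_le
        rw [v.ord_zpow, v.ord_unif, mul_one]
      have := v.mul_mem_ge h9 (v.algebraMap_mem_ge (eval c (s b)))
      rwa [add_zero] at this
    have h10 := add_mem (v.ge_anti (by linarith : e * v.minOrd f ≤ e * v.minOrd f + 1) h7) h8
    rwa [sub_add_cancel] at h10

theorem htP_system (hI : HomI I) (hs : ∀ a, (s a).IsHomogeneous e)
    (hbpf : ∀ x ∈ zs I, x ≠ 0 → ∃ a, eval x (s a) ≠ 0) {f : ι → L} (hf : ∀ G ∈ I, aeval f G = 0)
    (hf0 : ∃ i, f i ≠ 0) : htP k (fun a => aeval f (s a)) = e * htP k f := by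
  unfold htP
  have h1 : ∀ v : Place k L, -v.minOrd (fun a => aeval f (s a)) = -(e * v.minOrd f) := by
    intro v
    rw [(minOrd_system hI hs hbpf hf hf0 v).1]
  rw [finsum_congr h1, fs_neg, fs_neg, fs_const_mul]
  ring

theorem htP_pos_of_not_const {κ : Type*} [Finite κ] {f : κ → L} (hf : ¬ IsConstPt k f) :
    0 < htP k f := by
  obtain ⟨i, j, hi, hj, htr⟩ := exists_transcendental_ratio hf
  have h1 := ht_pos htr
  have h2 := ht_ratio_le (k := k) hi hj
  omega

theorem not_const_of_htP_ne {κ : Type*} [Finite κ] {f : κ → L} (h : htP k f ≠ 0) :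
    ¬ IsConstPt k f := by
  rintro ⟨c, q, hq⟩
  apply h
  by_cases h0 : ∃ i, f i ≠ 0
  · obtain ⟨i, hi⟩ := h0
    have hc : c ≠ 0 := by
      rintro rfl
      exact hi (by rw [hq, zero_mul])
    have h1 : f = fun i => c * (fun i => algebraMap k L (q i)) i := funext hq
    have hq0 : ∃ i, algebraMap k L (q i) ≠ 0 := ⟨i, fun h => hi (by rw [hq, h, mul_zero])⟩
    rw [h1, htP_mul _ hq0 hc]
    unfold htP
    rw [finsum_congr (g := fun _ => 0), finsum_zero]
    intro v
    obtain ⟨j, hj, h2⟩ := v.exists_minOrd (fun i => algebraMap k L (q i)) hq0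
    rw [h2, v.ord_algebraMap, neg_zero]
  · push Not at h0
    unfold htP
    rw [finsum_congr (g := fun _ => 0), finsum_zero]
    intro v
    unfold Place.minOrd
    have h1 : {n : ℤ | ∃ i, f i ≠ 0 ∧ n = v.ord (f i)} = ∅ := by
      ext n
      simp only [Set.mem_ofPred_eq, Set.mem_empty_iff_false, iff_false]
      rintro ⟨i, hi, _⟩
      exact hi (h0 i)
    rw [h1, Int.csInf_empty, neg_zero]

theorem not_const_system (he : 1 ≤ e) (hI : HomI I) (hs : ∀ a, (s a).IsHomogeneous e)
    (hbpf : ∀ x ∈ zs I, x ≠ 0 → ∃ a, eval x (s a) ≠ 0) {f : ι → L} (hf : ∀ G ∈ I, aeval f G = 0)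
    (hfc : ¬ IsConstPt k f) : ¬ IsConstPt k (fun a => aeval f (s a)) := by
  apply not_const_of_htP_ne
  have hf0 : ∃ i, f i ≠ 0 := by
    by_contra hcon
    push Not at hcon
    exact hfc ⟨0, 0, fun i => by simp [hcon i]⟩
  rw [htP_system hI hs hbpf hf hf0]
  have h1 := htP_pos_of_not_const hfc
  have h2 : (0 : ℤ) < e := by exact_mod_cast he
  exact (mul_pos h2 h1).ne'

/-- the value of a member of the linear system -/
theorem pairing_system (s : α → MvPolynomial ι k) (f : ι → L) (p : α → k) :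
    pairing (fun a => aeval f (s a)) p = aeval f (mem' s p) := by
  unfold pairing mem'
  rw [map_sum]
  refine Finset.sum_congr rfl fun a _ => ?_
  rw [map_mul, aeval_C, mul_comm]

/-- the reductions of the point defined by a system -/
theorem nonDeg_system (hI : HomI I) (hs : ∀ a, (s a).IsHomogeneous e)
    (hbpf : ∀ x ∈ zs I, x ≠ 0 → ∃ a, eval x (s a) ≠ 0) {f : ι → L} (hf : ∀ G ∈ I, aeval f G = 0)
    (hf0 : ∃ i, f i ≠ 0) {q : Ideal (MvPolynomial α k)}
    (hq : ¬ ∃ x ∈ zs I, x ≠ 0 ∧ ∑ a, C (eval x (s a)) * X a ∈ q) :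
    NonDeg q (fun a => aeval f (s a)) := by
  intro v c' hc' hcq
  apply hq
  obtain ⟨c, hc⟩ := v.exists_reduction f
  refine ⟨c, reduction_mem_zs hI hf v hc, reduction_ne_zero hf0 v hc, ?_⟩
  have h1 : ∀ a, c' a = eval c (s a) := by
    intro a
    have h2 := hc' a
    rw [(minOrd_system hI hs hbpf hf hf0 v).1] at h2
    have h3 := sub_mem (aeval_sub_mem v hc (hs a)) h2
    have h4 : aeval f (s a) - v.unif ^ (e * v.minOrd f) * algebraMap k L (eval c (s a)) -
        (aeval f (s a) - v.unif ^ (e * v.minOrd f) * algebraMap k L (c' a)) =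
        v.unif ^ (e * v.minOrd f) * algebraMap k L (c' a - eval c (s a)) := by
      rw [map_sub]; ring
    rw [h4] at h3
    by_contra hne
    have hne' : algebraMap k L (c' a - eval c (s a)) ≠ 0 := by
      rw [Ne, map_eq_zero, sub_eq_zero]; exact hne
    have h5 := v.le_ord_of_mem h3 (mul_ne_zero (zpow_ne_zero _ v.unif_ne_zero) hne')
    rw [v.ord_mul _ _ (zpow_ne_zero _ v.unif_ne_zero) hne', v.ord_zpow,
      v.ord_unif, mul_one, v.ord_algebraMap] at h5
    linarith
  have h2 : (∑ a, C (eval c (s a)) * X a : MvPolynomial α k) = ∑ a, C (c' a) * X a :=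
    Finset.sum_congr rfl fun a _ => by rw [h1]
  rw [h2]
  exact hcq

end system

section final

/-- The data of the theorem. `I` is the homogeneous ideal of a smooth projective variety `X`,
`s` a linear system of forms of degree `e` without base points on `X`; `Γ₀` is a finite set of
members of it, which are smooth on `X` and at most `n` of which pass through any point of `X`. -/
structure SncData {k ι α : Type*} [Field k] [Fintype ι] [Fintype α] (I : Ideal (MvPolynomial ι k))
    (c n e : ℕ) (s : α → MvPolynomial ι k) (Γ₀ : Finset (α → k)) : Prop where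
  prime : I.IsPrime
  hom : HomI I
  irr : ∃ i, (X i : MvPolynomial ι k) ∉ I
  smooth : ∀ x ∈ zs I, x ≠ 0 → Module.finrank k (conormal I x) = c
  deg : ∀ a, (s a).IsHomogeneous e
  pos : 1 ≤ e
  bpf : ∀ x ∈ zs I, x ≠ 0 → ∃ a, eval x (s a) ≠ 0
  ne : ∀ p ∈ Γ₀, p ≠ 0
  trans : ∀ p ∈ Γ₀, ∀ x ∈ zs I, x ≠ 0 → eval x (mem' s p) = 0 →
    grad (mem' s p) x ∉ conormal I x
  snc : ∀ x ∈ zs I, x ≠ 0 → ∀ Γ ⊆ Γ₀, (∀ p ∈ Γ, eval x (mem' s p) = 0) → Γ.card ≤ n

/-- degenerate primes -/
def DegP {k ι α : Type*} [Field k] [Fintype ι] [Fintype α] (I : Ideal (MvPolynomial ι k))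
    (s : α → MvPolynomial ι k) (q : Ideal (MvPolynomial α k)) : Prop :=
  ∃ x ∈ zs I, x ≠ 0 ∧ ∑ a, C (eval x (s a)) * X a ∈ q

theorem exists_Z_prime {k : Type u} {ι α : Type*} [Field k] [Fintype ι] [Fintype α]
    [IsAlgClosed k] [CharZero k]
    {I : Ideal (MvPolynomial ι k)} {c n e : ℕ} {s : α → MvPolynomial ι k} {Γ₀ : Finset (α → k)}
    (S : SncData I c n e s Γ₀)
    {q : Ideal (MvPolynomial α k)} (hq : q.IsPrime) {p : α → k} (hp : p ∈ Γ₀) (hpq : p ∈ zs q) :
    ∃ (d : ℕ) (Z : MvPolynomial ι k), Z.IsHomogeneous d ∧ Z ∉ I ∧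
      ∀ (L : Type w) [Field L] [Algebra k L] [FunField k L] (t : L) (ht : Transcendental k t)
        (f : ι → L), (∀ F ∈ I, aeval f F = 0) → aeval f Z ≠ 0 →
        Good q (fun a => aeval f (s a)) (fun a => der ht (aeval f (s a))) := by
  obtain ⟨d, Z, hZd, hZI, hZ⟩ := exists_elim_homogeneous S.deg (p := p) S.prime S.hom S.irr
    S.smooth (fun x hx hx0 hpx => S.trans p hp x hx hx0 hpx) (genPt q) (by
      intro P hP
      rw [aeval_genPt] at hP
      have h1 : Ideal.Quotient.mk q P = 0 :=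
        (map_eq_zero_iff _ (IsFractionRing.injective _ _)).1 hP
      exact hpq P (Ideal.Quotient.eq_zero_iff_mem.1 h1))
  exact ⟨d, Z, hZd, hZI, fun L _ _ _ t ht f hf hfZ => good_of_not_exceptional s ht f hf hZ hfZ⟩

theorem trunc_main (m n : ℕ) (ε : ℝ) (hε : 0 < ε) : ∃ r₀ : ℕ, ∀ (k : Type u) (ι α : Type)
    [Field k] [IsAlgClosed k] [CharZero k] [Fintype ι] [Fintype α] (_ : Fintype.card α = m + 1)
    (I : Ideal (MvPolynomial ι k)) (c e : ℕ) (s : α → MvPolynomial ι k) (Γ₀ : Finset (α → k))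
    (_ : SncData I c n e s Γ₀)
    (_ : r₀ ≤ Γ₀.card), ∃ (d : ℕ) (Z : MvPolynomial ι k), Z.IsHomogeneous d ∧ Z ∉ I ∧
      ∀ (L : Type w) [Field L] [Algebra k L] [FunField k L] (f : ι → L),
        (∀ F ∈ I, aeval f F = 0) → ¬ IsConstPt k f → (∀ p ∈ Γ₀, aeval f (mem' s p) ≠ 0) →
        aeval f Z ≠ 0 →
        ∑ p ∈ Γ₀, ((e * htP k f : ℝ) -
          ({v : Place k L | e * v.minOrd f < v.ord (aeval f (mem' s p))}.ncard : ℝ)) ≤
          ε * Γ₀.card * (2 * (e * htP k f) + chi k L) := by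
  set K : ℝ := max 2 (2 / ε) with hK
  have hK1 : 1 < K := lt_of_lt_of_le one_lt_two (le_max_left _ _)
  obtain ⟨D₀, hD₀⟩ := exists_slow (m + 1) hK1
  set C₁ : ℝ := n * D₀ ^ (m + 1) * 2 ^ (m + 1) with hC₁
  obtain ⟨r₀, hr₀⟩ := exists_nat_ge (2 * C₁ / ε)
  refine ⟨r₀, fun k ι α _ _ _ _ _ hα I c e s Γ₀ S hr => ?_⟩
  classical
  obtain ⟨Q, hQ, hmain⟩ := greedy_total (k := k) (ι := α) hK1 (D₀ := D₀) (by rwa [hα]) (m := n)
    (DegP I s) Γ₀ S.ne (by
      rintro q ⟨x, hx, hx0, hxq⟩ Γ hΓ hΓq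
      refine S.snc x hx hx0 Γ hΓ fun p hp => ?_
      have h1 := hΓq p hp _ hxq
      rw [map_sum] at h1
      simp only [map_mul, eval_C, eval_X] at h1
      unfold mem'
      rw [map_sum, ← h1]
      exact Finset.sum_congr rfl fun i _ => by rw [map_mul, eval_C, mul_comm]) (by omega)
  have hZ : ∀ q : Ideal (MvPolynomial α k), ∃ (d : ℕ) (Z : MvPolynomial ι k), q ∈ Q →
      Z.IsHomogeneous d ∧ Z ∉ I ∧
      ∀ (L : Type w) [Field L] [Algebra k L] [FunField k L] (t : L) (ht : Transcendental k t)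
        (f : ι → L), (∀ F ∈ I, aeval f F = 0) → aeval f Z ≠ 0 →
        Good q (fun a => aeval f (s a)) (fun a => der ht (aeval f (s a))) := by
    intro q
    by_cases hq : q ∈ Q
    · obtain ⟨p, hp, hpq⟩ := (hQ q hq).2.2.2
      obtain ⟨d, Z, h⟩ := exists_Z_prime S (hQ q hq).1 hp hpq
      exact ⟨d, Z, fun _ => h⟩
    · exact ⟨0, 0, fun h => absurd h hq⟩
  choose d Z hdZ using hZ
  refine ⟨∑ q ∈ Q, d q, ∏ q ∈ Q, Z q, IsHomogeneous.prod _ _ _ fun q hq => (hdZ q hq).1, ?_, ?_⟩
  · intro h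
    rw [S.prime.prod_mem_iff] at h
    obtain ⟨q, hq, h⟩ := h
    exact (hdZ q hq).2.1 h
  intro L _ _ _ f hfI hfc hfΓ hfZ
  rw [map_prod, Finset.prod_ne_zero_iff] at hfZ
  obtain ⟨t, ht⟩ := FunField.exists_transcendental (k := k) (L := L)
  have hf0 : ∃ i, f i ≠ 0 := by
    by_contra hcon
    push Not at hcon
    exact hfc ⟨0, 0, fun i => by simp [hcon i]⟩
  set F : α → L := fun a => aeval f (s a) with hF
  have hFc : ¬ IsConstPt k F := not_const_system S.pos S.hom S.deg S.bpf hfI hfc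
  have hht : htP k F = e * htP k f := htP_system S.hom S.deg S.bpf hfI hf0
  have hmin : ∀ v : Place k L, v.minOrd F = e * v.minOrd f := fun v =>
    (minOrd_system S.hom S.deg S.bpf hfI hf0 v).1
  have hFΓ : ∀ p ∈ Γ₀, pairing F p ≠ 0 := by
    intro p hp
    rw [hF, pairing_system]
    exact hfΓ p hp
  set nn : (α → k) → ℝ := fun p => ((∑ᶠ v : Place k L, exc v F p : ℤ) : ℝ) with hnn
  set W : ℝ := ((2 * htP k F + chi k L : ℤ) : ℝ) with hW
  have hW0 : 0 ≤ W := by
    have := chi_add_two_htP_nonneg hFc (k := k)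
    rw [hW]
    exact_mod_cast (by linarith : (0 : ℤ) ≤ 2 * htP k F + chi k L)
  have h1 := hmain nn W hW0 (fun p hp => by
      change ((∑ᶠ v : Place k L, exc v F p : ℤ) : ℝ) ≤ W
      rw [hW]
      exact_mod_cast finsum_exc_le hFc (hFΓ p hp)) (by
      intro q hq j Γ hΓ hΓq hsurj _
      have hnd : NonDeg q F := nonDeg_system S.hom S.deg S.bpf hfI hf0 (hQ q hq).2.2.1
      have hgood := (hdZ q hq).2.2 L t ht f hfI (hfZ q hq)
      have h2 := mi_poly (hQ q hq).1 ht hFc hnd hgood (j := j) (Γ := Γ)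
        (fun p => (p : α → k)) (fun p => hΓq p p.2) (fun p => hFΓ p (hΓ p.2)) (by
          intro g
          obtain ⟨G, hG, hG2⟩ := hsurj (fun p => if h : p ∈ Γ then g ⟨p, h⟩ else 0)
          refine ⟨G, hG, fun p => ?_⟩
          rw [hG2 p p.2, dif_pos p.2])
      rw [hnn, hW]
      have h3 : (∑ p ∈ Γ, ((∑ᶠ v : Place k L, exc v F p : ℤ) : ℝ)) =
          ((∑ p : Γ, ∑ᶠ v : Place k L, exc v F (p : α → k) : ℤ) : ℝ) := by
        rw [Int.cast_sum, ← Finset.sum_coe_sort Γ]
      rw [h3]
      exact_mod_cast h2)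
  have h2 : ∑ p ∈ Γ₀, ((e * htP k f : ℝ) -
      ({v : Place k L | e * v.minOrd f < v.ord (aeval f (mem' s p))}.ncard : ℝ)) =
      ∑ p ∈ Γ₀, nn p := by
    refine Finset.sum_congr rfl fun p hp => ?_
    rw [hnn]
    simp only
    rw [finsum_exc (hFΓ p hp)]
    have h3 : (hitS F (pairing F p) : Set (Place k L)) =
        {v : Place k L | e * v.minOrd f < v.ord (aeval f (mem' s p))} := by
      ext v
      unfold hitS
      rw [Set.mem_ofPred_eq, Set.mem_ofPred_eq, hmin, hF, pairing_system]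
    rw [h3, hht]
    push_cast
    ring
  rw [h2]
  refine h1.trans ?_
  have h3 : W = 2 * (e * (htP k f : ℝ)) + chi k L := by
    rw [hW, hht]; push_cast; ring
  rw [← h3]
  apply mul_le_mul_of_nonneg_right _ hW0
  rw [hα, ← hC₁]
  have hKpos : 0 < K := by linarith
  have hr1 : (2 * C₁ / ε) ≤ Γ₀.card := hr₀.trans (by exact_mod_cast hr)
  have h4 : C₁ ≤ ε / 2 * Γ₀.card := by
    rw [div_le_iff₀ hε] at hr1
    linarith
  have h5 : (Γ₀.card : ℝ) / K ≤ ε / 2 * Γ₀.card := by
    rw [div_le_iff₀ hKpos]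
    have h6 : 2 / ε ≤ K := le_max_right _ _
    have h7 : 1 ≤ ε / 2 * K := by
      have h8 : ε / 2 * (2 / ε) ≤ ε / 2 * K := mul_le_mul_of_nonneg_left h6 (by positivity)
      have h9 : ε / 2 * (2 / ε) = 1 := by field_simp
      linarith
    calc (Γ₀.card : ℝ) = 1 * Γ₀.card := (one_mul _).symm
      _ ≤ (ε / 2 * K) * Γ₀.card := mul_le_mul_of_nonneg_right h7 (Nat.cast_nonneg _)
      _ = ε / 2 * Γ₀.card * K := by ring
  linarith

end final

end Pool.Agent.Helper11
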