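import Pool.Agent.Helper11.MIW
import Pool.Agent.Helper11.TruncFinal

/-! The main inequality for prime ideals, with degenerate places -/

set_option linter.unusedSectionVars false

namespace Pool.Agent.Helper11

open MvPolynomial

section

variable {k L ι : Type*} [Field k] [Field L] [Algebra k L] [FunField k L] [CharZero k]
  [IsAlgClosed k] [Fintype ι]

/-- **The main inequality** for a prime ideal, with degenerate places. -/
theorem mi_poly_w {q : Ideal (MvPolynomial ι k)} (hq : q.IsPrime) {F : ι → L} {t : L}
    (ht : Transcendental k t) (hF : ¬ IsConstPt k F)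
    (hgood : Good q F (fun i => der ht (F i))) {r : ℕ} {B : Fin r → ι → k}
    (hB : LinearIndependent k B) (hBq : ∀ l, B l ∈ zs q)
    (hBs : ∀ x ∈ zs q, x ∈ Submodule.span k (Set.range B)) {j : ℕ} {Γ : Type*} [Fintype Γ] [DecidableEq Γ]
    (pΓ : Γ → ι → k) (hΓ : ∀ p, pΓ p ∈ zs q) (hφΓ : ∀ p, pairing F (pΓ p) ≠ 0)
    (hsurj : ∀ g : Γ → k, ∃ G : MvPolynomial ι k, G.IsHomogeneous (j + 1) ∧
      ∀ p, eval (pΓ p) G = g p) :
    ∑ p, ∑ᶠ v : Place k L, exc v F (pΓ p) ≤
      (hilb q (j + 1) - hilb q j : ℤ) * (2 * htP k F + chi k L) + hilb q (j + 1) *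
        ∑ᶠ v : Place k L, (v.minOrd (fun l => pairing F (B l)) - v.minOrd F) := by
  classical
  set F' : ι → L := fun i => der ht (F i) with hF'
  obtain ⟨w, hw, A, B', hAB⟩ := hgood
  obtain ⟨M, hM, hM2, hM3⟩ := exists_basis_mod q (j + 1)
  set J := max A.totalDegree B'.totalDegree + (j + 1) with hJ
  obtain ⟨X₀, hX₀, hX₀2⟩ := exists_dense hq hw (J + 1)
  have hXzs : ∀ x ∈ X₀, x ∈ zs q := fun x hx => (hX₀ x hx).1
  have hφX : ∀ x ∈ X₀, pairing F x ≠ 0 := fun x hx =>
    Good.pairing_ne_zero hAB (hXzs x hx) (hX₀ x hx).2
  obtain ⟨d, u, hu, hu2, hu3⟩ := exists_basis_fn X₀ w J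
  set pt : X₀ ⊕ Γ → ι → k := Sum.elim (fun x : X₀ => (x : ι → k)) pΓ with hpt
  set m : Fin (hilb q (j + 1)) → X₀ ⊕ Γ → k := fun i x => eval (pt x) (M i) with hm
  have hptzs : ∀ x, pt x ∈ zs q := by
    rintro (x | p)
    · exact hXzs x x.2
    · exact hΓ p
  have hevm : ∀ (P : Fin (hilb q (j + 1)) → L) (x : X₀ ⊕ Γ),
      evL m P x = evalL (pt x) (combL M P) := by
    intro P x
    rw [evalL_combL]; rfl
  -- the values on the zero set of `q`
  obtain ⟨lam, hlam⟩ : ∃ lam : (ι → k) → Fin r → k, ∀ x ∈ zs q, x = ∑ l, lam x l • B l := by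
    have h1 : ∀ x : ι → k, ∃ c : Fin r → k, x ∈ zs q → x = ∑ l, c l • B l := by
      intro x
      by_cases hx : x ∈ zs q
      · obtain ⟨c, hc⟩ := (Submodule.mem_span_range_iff_exists_fun k).1 (hBs x hx)
        exact ⟨c, fun _ => hc.symm⟩
      · exact ⟨0, fun h => absurd h hx⟩
    choose lam hlam using h1
    exact ⟨lam, hlam⟩
  have hpair : ∀ x ∈ zs q, pairing F x = ∑ l, algebraMap k L (lam x l) * pairing F (B l) := by
    intro x hx
    have h1 : ∀ i, x i = ∑ l, lam x l * B l i := by
      intro i
      have := congrFun (hlam x hx) i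
      rw [Finset.sum_apply] at this
      simpa using this
    unfold pairing
    simp only [Finset.mul_sum]
    rw [Finset.sum_comm]
    refine Finset.sum_congr rfl fun i _ => ?_
    rw [h1 i, map_sum, Finset.mul_sum]
    refine Finset.sum_congr rfl fun l _ => ?_
    rw [map_mul]; ring
  set a : Place k L → ℤ := fun v => v.minOrd (fun l => pairing F (B l)) with ha
  have hFB : ∃ l, pairing F (B l) ≠ 0 := by
    by_contra hcon
    push Not at hcon
    have h1 : (1 : MvPolynomial ι k) ∈ q := by
      apply hX₀2
      · rw [totalDegree_one]; omega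
      · intro x hx
        have h2 : pairing F x = 0 := by
          rw [hpair x (hXzs x hx)]
          refine Finset.sum_eq_zero fun l _ => ?_
          rw [hcon, mul_zero]
        exact absurd h2 (hφX x hx)
    exact hq.ne_top ((Ideal.eq_top_iff_one _).2 h1)
  -- the main data
  have D : MIDataW k F F' pt m u a := by
    refine ⟨?_, hu, ?_, ?_, ?_, ?_, ?_⟩
    · rw [Fintype.linearIndependent_iff]
      intro c hc
      have h1 : ∑ i, C (c i) * M i ∈ q := by
        apply hX₀2
        · refine le_trans (IsHomogeneous.sum _ _ (j + 1) fun i _ => ?_ :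
            (∑ i, C (c i) * M i).IsHomogeneous (j + 1)).totalDegree_le (by omega)
          have := (isHomogeneous_C ι (c i)).mul (hM i)
          rwa [zero_add] at this
        · intro x hx
          have h2 := congrFun hc ⟨x, hx⟩
          rw [Finset.sum_apply] at h2
          rw [map_sum]
          simpa [hm, hpt] using h2
      exact fun i => congrFun (hM2 c h1) i
    · intro g
      obtain ⟨G, hG, hG2⟩ := hsurj g
      obtain ⟨c, hc⟩ := hM3 G hG
      refine ⟨c, fun p => ?_⟩
      have h1 := hΓ p _ hc
      rw [map_sub, map_sum, sub_eq_zero, hG2] at h1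
      rw [h1]
      refine Finset.sum_congr rfl fun i _ => ?_
      rw [map_mul, eval_C]
      rfl
    · rintro (x | p)
      · exact hφX x x.2
      · exact hφΓ p
    · intro P Q hPQ
      have hPdeg : (combL M P : MvPolynomial ι L).totalDegree ≤ j + 1 :=
        (isHomogeneous_combL hM P).totalDegree_le
      have hQdeg : (combL M Q : MvPolynomial ι L).totalDegree ≤ j + 1 :=
        (isHomogeneous_combL hM Q).totalDegree_le
      constructor
      · intro p
        set Δ : MvPolynomial ι L := linP F * combL M P - linP F' * combL M Q with hΔ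
        have hΔdeg : Δ.totalDegree ≤ J + 1 := by
          have h1 : Δ.IsHomogeneous (1 + (j + 1)) :=
            ((isHomogeneous_linP F).mul (isHomogeneous_combL hM P)).sub
              ((isHomogeneous_linP F').mul (isHomogeneous_combL hM Q))
          exact le_trans h1.totalDegree_le (by omega)
        obtain ⟨c, hc⟩ := exists_eval_comb hX₀2 (hΓ p)
        have h2 := eval_comb_map (L := L) hc hΔdeg
        have h3 : ∀ x : X₀, evalL (x : ι → k) Δ = 0 := by
          intro x
          rw [hΔ, evalL_sub, evalL_mul, evalL_mul, evalL_linP, evalL_linP]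
          have h4 := hPQ x
          rw [hevm, hevm] at h4
          exact sub_eq_zero.2 h4
        have h4 : evalL (pΓ p) Δ = 0 := by
          have h5 : evalL (pΓ p) Δ = ∑ x : X₀, algebraMap k L (c x) * evalL (x : ι → k) Δ := h2
          rw [h5]
          exact Finset.sum_eq_zero fun x _ => by rw [h3, mul_zero]
        rw [hΔ, evalL_sub, evalL_mul, evalL_mul, evalL_linP, evalL_linP] at h4
        rw [hevm, hevm]
        exact sub_eq_zero.1 h4
      · set T : MvPolynomial ι L := A * combL M Q + B' * combL M P with hT
        have hTdeg : T.totalDegree ≤ J := by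
          refine le_trans (totalDegree_add _ _) (max_le ?_ ?_)
          · refine le_trans (totalDegree_mul _ _) ?_
            have := le_max_left A.totalDegree B'.totalDegree
            omega
          · refine le_trans (totalDegree_mul _ _) ?_
            have := le_max_right A.totalDegree B'.totalDegree
            omega
        obtain ⟨g, hg⟩ := exists_coord_of_degree (L := L) hu2 hTdeg
        refine ⟨g, fun x => ?_⟩
        rw [← hg x, hevm]
        have h1 := hPQ x
        rw [hevm, hevm] at h1
        have h2 := hAB (x : ι → k) (hXzs x x.2)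
        have h3 : algebraMap k L (eval (x : ι → k) w) ≠ 0 := by
          rw [Ne, map_eq_zero]; exact (hX₀ x x.2).2
        have h4 : pt (Sum.inl x) = (x : ι → k) := rfl
        rw [h4] at h1 ⊢
        rw [hT, evalL_add, evalL_mul, evalL_mul]
        field_simp
        rw [h2]
        linear_combination (-evalL (x : ι → k) B') * h1
    · intro v x
      change pairing F (x : ι → k) ∈ _
      rw [hpair x (hXzs x x.2)]
      refine v.sum_mem_ge' _ _ _ fun l _ => ?_
      have := v.mul_mem_ge (v.algebraMap_mem_ge (lam x l))
        (v.mem_ge_minOrd (fun l => pairing F (B l)) l)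
      rwa [zero_add] at this
    · intro v rr hrr g hg
      obtain ⟨cb, hcb⟩ := v.exists_reduction fun l => pairing F (B l)
      have hcb0 := reduction_ne_zero hFB v hcb
      -- the linear form
      obtain ⟨ℓ, hℓ⟩ : ∃ ℓ : (ι → k) →ₗ[k] k, ∀ l, ℓ (B l) = cb l := by
        obtain ⟨ℓ, hℓ⟩ := LinearMap.exists_extend ((Module.Basis.span hB).constr k cb)
        refine ⟨ℓ, fun l => ?_⟩
        have h1 := LinearMap.congr_fun hℓ (Module.Basis.span hB l)
        rw [Module.Basis.constr_basis] at h1
        rw [← h1, LinearMap.comp_apply, Submodule.subtype_apply, Module.Basis.span_apply]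
      set c : ι → k := fun i => ℓ (Pi.single i 1) with hc
      have hℓc : ∀ x : ι → k, ℓ x = ∑ i, c i * x i := by
        intro x
        have h1 : x = ∑ i, x i • (Pi.single i 1 : ι → k) := by
          ext j
          simp [Finset.sum_apply, Pi.single_apply]
        conv_lhs => rw [h1]
        rw [map_sum]
        refine Finset.sum_congr rfl fun i _ => ?_
        rw [map_smul, smul_eq_mul, mul_comm]
      have hcq : ∑ i, C (c i) * X i ∉ q := by
        intro hmem
        apply hcb0
        funext l
        have h1 := hBq l _ hmem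
        rw [map_sum] at h1
        simp only [map_mul, eval_C, eval_X] at h1
        rw [← hℓc, hℓ] at h1
        exact h1
      have hrr2 : ∀ x : X₀, rr x = ∑ i, c i * (x : ι → k) i := by
        intro x
        rw [← hℓc]
        have h1 : ℓ (x : ι → k) = ∑ l, lam x l * cb l := by
          conv_lhs => rw [hlam x (hXzs x x.2)]
          rw [map_sum]
          refine Finset.sum_congr rfl fun l _ => ?_
          rw [map_smul, hℓ, smul_eq_mul]
        have h2 : pairing F (x : ι → k) - v.unif ^ a v * algebraMap k L (ℓ (x : ι → k)) ∈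
            v.ge (a v + 1) := by
          have h3 : pairing F (x : ι → k) - v.unif ^ a v * algebraMap k L (ℓ (x : ι → k)) =
              ∑ l, algebraMap k L (lam x l) *
                (pairing F (B l) - v.unif ^ a v * algebraMap k L (cb l)) := by
            rw [hpair x (hXzs x x.2), h1, map_sum, Finset.mul_sum, ← Finset.sum_sub_distrib]
            refine Finset.sum_congr rfl fun l _ => ?_
            rw [map_mul]; ring
          rw [h3]
          refine v.sum_mem_ge' _ _ _ fun l _ => ?_
          have := v.mul_mem_ge (v.algebraMap_mem_ge (lam x l)) (hcb l)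
          rwa [zero_add] at this
        have h4 := sub_mem h2 (hrr x)
        change pairing F (x : ι → k) - v.unif ^ a v * algebraMap k L (ℓ (x : ι → k)) -
          (pairing F (x : ι → k) - v.unif ^ a v * algebraMap k L (rr x)) ∈ _ at h4
        have h5 : pairing F (x : ι → k) - v.unif ^ a v * algebraMap k L (ℓ (x : ι → k)) -
          (pairing F (x : ι → k) - v.unif ^ a v * algebraMap k L (rr x)) =
          v.unif ^ a v * algebraMap k L (rr x - ℓ (x : ι → k)) := by
          rw [map_sub]; ring
        rw [h5] at h4
        by_contra hne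
        have hne' : algebraMap k L (rr x - ℓ (x : ι → k)) ≠ 0 := by
          rw [Ne, map_eq_zero, sub_eq_zero]; exact hne
        have h6 := v.le_ord_of_mem h4 (mul_ne_zero (zpow_ne_zero _ v.unif_ne_zero) hne')
        rw [v.ord_mul _ _ (zpow_ne_zero _ v.unif_ne_zero) hne', v.ord_zpow, v.ord_unif, mul_one,
          v.ord_algebraMap] at h6
        omega
      obtain ⟨G, hG, hG2⟩ := hu3 g
      have h1 : (∑ i, C (c i) * X i) * G ∈ q := by
        apply hX₀2
        · refine le_trans (totalDegree_mul _ _) ?_
          have h2 : (∑ i, C (c i) * X i : MvPolynomial ι k).IsHomogeneous 1 := by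
            refine IsHomogeneous.sum _ _ _ fun i _ => ?_
            have := (isHomogeneous_C ι (c i)).mul (isHomogeneous_X k i)
            rwa [zero_add] at this
          have := h2.totalDegree_le
          omega
        · intro x hx
          have h2 := hg ⟨x, hx⟩
          rw [hG2, hrr2] at h2
          rw [map_mul, map_sum]
          simp only [map_mul, eval_C, eval_X]
          have h3 : (∑ i, c i * x i) * ((eval x w)⁻¹ * eval x G) = 0 := h2
          have h4 := (hX₀ x hx).2
          have h5 : (∑ i, c i * x i) * eval x G = 0 := by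
            rw [mul_left_comm] at h3
            exact (mul_eq_zero.1 h3).resolve_left (inv_ne_zero h4)
          exact h5
      have h2 := (hq.mem_or_mem h1).resolve_left hcq
      rw [Fintype.linearIndependent_iff] at hu
      funext l
      refine hu g ?_ l
      funext x
      rw [Finset.sum_apply]
      have h3 : ∑ l, g l * u l x = 0 := by
        rw [hG2, hXzs x x.2 G h2, mul_zero]
      exact h3
  have hmain := D.main ht (supp_minOrd _)
  have hker := hilb_le_finrank_kerK (F' := F') hM3 hXzs (fun P hP => hX₀2 P (by omega)) hφX pΓ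
  have hW := chi_add_two_htP_nonneg hF (k := k)
  have hle : Module.finrank L (kerK F F' pt m) ≤ hilb q (j + 1) := by
    have := Submodule.finrank_le (kerK F F' pt m)
    rwa [Module.finrank_fintype_fun_eq_card, Fintype.card_fin] at this
  rw [Fintype.card_fin] at hmain
  refine le_trans hmain (add_le_add (mul_le_mul_of_nonneg_right ?_ (by linarith))
    (mul_le_mul_of_nonneg_right (by exact_mod_cast hle) (fs_nonneg fun v => ?_)))
  · have h1 : (hilb q j : ℤ) ≤ (Module.finrank L (kerK F F' pt m) : ℤ) := by exact_mod_cast hker
    linarith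
  · rw [sub_nonneg]
    exact v.le_minOrd _ hFB fun l => pairing_mem_ge v (fun i => v.mem_ge_minOrd F i) _

end

end Pool.Agent.Helper11
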