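import Pool.Agent.Helper11.ExcZ
import Pool.Agent.Helper11.MIPolyW

/-! Local estimates from the Nullstellensatz -/

set_option linter.unusedSectionVars false

namespace Pool.Agent.Helper11

open MvPolynomial

section

variable {k ι β γ : Type*} [Field k] [Fintype ι] [Fintype β] [Fintype γ] [IsAlgClosed k]

theorem exists_pow_mem {I : Ideal (MvPolynomial ι k)} {P : MvPolynomial ι k}
    (h : ∀ x ∈ zs I, eval x P = 0) : ∃ M : ℕ, P ^ M ∈ I := by
  have h1 : P ∈ I.radical := by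
    rw [← vanishingIdeal_zeroLocus_eq_radical (K := k), mem_vanishingIdeal_iff]
    intro x hx
    exact h x fun G hG => hx G hG
  exact h1

/-- a uniform exponent in the Nullstellensatz -/
theorem exists_null_exp {I : Ideal (MvPolynomial ι k)} {h : β → MvPolynomial ι k}
    {J : γ → MvPolynomial ι k}
    (hW : ∀ x ∈ zs I, x ≠ 0 → (∀ l, eval x (h l) = 0) → ∀ j, eval x (J j) = 0) :
    ∃ M : ℕ, ∀ i j, (X i * J j) ^ M ∈ I ⊔ Ideal.span (Set.range h) := by
  have h1 : ∀ i j, ∃ M : ℕ, (X i * J j) ^ M ∈ I ⊔ Ideal.span (Set.range h) := by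
    intro i j
    apply exists_pow_mem
    intro x hx
    rw [map_mul, eval_X]
    by_cases hx0 : x = 0
    · rw [hx0, Pi.zero_apply, zero_mul]
    · rw [hW x (fun F hF => hx F (Ideal.mem_sup_left hF)) hx0
        (fun l => hx _ (Ideal.mem_sup_right (Ideal.subset_span ⟨l, rfl⟩))) j, mul_zero]
  choose M hM using h1
  refine ⟨∑ i, ∑ j, M i j, fun i j => ?_⟩
  refine Ideal.pow_mem_of_pow_mem _ (hM i j) ?_
  exact (Finset.single_le_sum (fun j _ => Nat.zero_le (M i j)) (Finset.mem_univ j)).trans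
    (Finset.single_le_sum (f := fun i => ∑ j, M i j) (fun i _ => Nat.zero_le _)
      (Finset.mem_univ i))

end

section

variable {k L ι β γ : Type*} [Field k] [Field L] [Algebra k L] [FunField k L] [CharZero k]
  [IsAlgClosed k] [Fintype ι] [Fintype β] [Fintype γ]

theorem aeval_mem_ge_zero (v : Place k L) {z : ι → L} (hz : ∀ i, z i ∈ v.ge 0)
    (Q : MvPolynomial ι k) : aeval z Q ∈ v.ge 0 := by
  induction Q using MvPolynomial.induction_on with
  | C a =>
    rw [aeval_C]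
    exact v.algebraMap_mem_ge a
  | add P Q hP hQ =>
    rw [map_add]
    exact add_mem hP hQ
  | mul_X P i hP =>
    rw [map_mul, aeval_X]
    have := v.mul_mem_ge hP (hz i)
    rwa [add_zero] at this

theorem aeval_mem_ge_of_mem_sup (v : Place k L) {z : ι → L} (hz : ∀ i, z i ∈ v.ge 0)
    {I : Ideal (MvPolynomial ι k)} (hI : ∀ F ∈ I, aeval z F = 0) {h : β → MvPolynomial ι k}
    {a : ℤ} (hh : ∀ l, aeval z (h l) ∈ v.ge a) {P : MvPolynomial ι k}
    (hP : P ∈ I ⊔ Ideal.span (Set.range h)) : aeval z P ∈ v.ge a := by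
  rw [Submodule.mem_sup] at hP
  obtain ⟨A, hA, B, hB, rfl⟩ := hP
  rw [map_add, hI A hA, zero_add]
  refine Submodule.span_induction (p := fun B _ => aeval z B ∈ v.ge a) ?_ ?_ ?_ ?_ hB
  · rintro _ ⟨l, rfl⟩
    exact hh l
  · rw [map_zero]; exact zero_mem _
  · intro x y _ _ hx hy
    rw [map_add]; exact add_mem hx hy
  · intro x y _ hy
    rw [smul_eq_mul, map_mul]
    have := v.mul_mem_ge (aeval_mem_ge_zero v hz x) hy
    rwa [zero_add] at this

theorem le_minOrd_forms (v : Place k L) {h : β → MvPolynomial ι k} {e : ℕ}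
    (hh : ∀ l, (h l).IsHomogeneous e) (f : ι → L) (hne : ∃ l, aeval f (h l) ≠ 0) :
    e * v.minOrd f ≤ v.minOrd (fun l => aeval f (h l)) := by
  set μ := v.minOrd f with hμ
  set w : L := v.unif ^ (-μ) with hw
  have hw0 : w ≠ 0 := zpow_ne_zero _ v.unif_ne_zero
  have hword : v.ord w = -μ := by rw [hw, v.ord_zpow, v.ord_unif, mul_one]
  have hz : ∀ i, w * f i ∈ v.ge 0 := by
    intro i
    have h1 := v.mul_mem_ge (v.mem_ge_ord w) (v.mem_ge_minOrd f i)
    rwa [hword, neg_add_cancel] at h1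
  refine v.le_minOrd _ hne fun l => ?_
  have h1 := aeval_mem_ge_zero v hz (h l)
  rw [aeval_scale (hh l)] at h1
  have h2 : (w ^ e)⁻¹ ∈ v.ge (e * μ) := by
    apply v.mem_ge_of_le
    rw [v.ord_inv, v.ord_pow, hword]
    linarith
  have h3 := v.mul_mem_ge h2 h1
  rw [add_zero, inv_mul_cancel_left₀ (pow_ne_zero _ hw0)] at h3
  exact h3

/-- the local estimate given by the Nullstellensatz -/
theorem local_null (v : Place k L) {I : Ideal (MvPolynomial ι k)} (hI : HomI I)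
    {h : β → MvPolynomial ι k} {e : ℕ} (hh : ∀ l, (h l).IsHomogeneous e)
    {J : γ → MvPolynomial ι k} {b : ℕ} (hJ : ∀ j, (J j).IsHomogeneous b) {M : ℕ}
    (hM : ∀ i j, (X i * J j) ^ M ∈ I ⊔ Ideal.span (Set.range h)) {f : ι → L}
    (hf : ∀ F ∈ I, aeval f F = 0) (hf0 : ∃ i, f i ≠ 0) (hJf : ∃ j, aeval f (J j) ≠ 0) :
    v.minOrd (fun l => aeval f (h l)) - e * v.minOrd f ≤
      M * (v.minOrd (fun j => aeval f (J j)) - b * v.minOrd f) := by
  set μ := v.minOrd f with hμ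
  set w : L := v.unif ^ (-μ) with hw
  have hw0 : w ≠ 0 := zpow_ne_zero _ v.unif_ne_zero
  have hword : v.ord w = -μ := by rw [hw, v.ord_zpow, v.ord_unif, mul_one]
  have hz : ∀ i, w * f i ∈ v.ge 0 := by
    intro i
    have h1 := v.mul_mem_ge (v.mem_ge_ord w) (v.mem_ge_minOrd f i)
    rwa [hword, neg_add_cancel] at h1
  obtain ⟨i₀, hi₀, hi₀2⟩ := v.exists_minOrd f hf0
  obtain ⟨j₀, hj₀, hj₀2⟩ := v.exists_minOrd (fun j => aeval f (J j)) hJf
  set a : ℤ := v.minOrd (fun l => aeval f (h l)) - e * μ with ha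
  have hha : ∀ l, aeval (fun i => w * f i) (h l) ∈ v.ge a := by
    intro l
    rw [aeval_scale (hh l)]
    have h1 : w ^ e ∈ v.ge (-(e * μ)) := by
      apply v.mem_ge_of_le
      rw [v.ord_pow, hword]
      linarith
    have h2 := v.mul_mem_ge h1 (v.mem_ge_minOrd (fun l => aeval f (h l)) l)
    rwa [neg_add_eq_sub] at h2
  have h1 := aeval_mem_ge_of_mem_sup v hz (fun F hF => aeval_scale_eq_zero hI hf w hF) hha
    (hM i₀ j₀)
  rw [map_pow, map_mul, aeval_X, aeval_scale (hJ j₀)] at h1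
  have hne1 : w * f i₀ ≠ 0 := mul_ne_zero hw0 hi₀
  have hne2 : w ^ b * aeval f (J j₀) ≠ 0 := mul_ne_zero (pow_ne_zero _ hw0) hj₀
  have h2 := v.le_ord_of_mem h1 (pow_ne_zero _ (mul_ne_zero hne1 hne2))
  rw [v.ord_pow, v.ord_mul _ _ hne1 hne2, v.ord_mul _ _ hw0 hi₀,
    v.ord_mul _ _ (pow_ne_zero _ hw0) hj₀, v.ord_pow, hword, ← hi₀2] at h2
  rw [← hj₀2, ← hμ] at h2
  have h4 : (-μ + μ + ((b : ℤ) * -μ + v.minOrd fun j => aeval f (J j))) =
      (v.minOrd fun j => aeval f (J j)) - b * μ := by ring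
  rw [h4] at h2
  exact h2

end

end Pool.Agent.Helper11
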