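import Pool.Agent.Helper11.MinorTools

set_option linter.unusedSectionVars false

namespace Pool.Agent.Helper11

open Matrix

section Exchange

variable {L : Type*} [Field L] {α β γ X : Type*} [Fintype α] [Fintype β] [Fintype γ]
  [DecidableEq α] [DecidableEq β] [DecidableEq γ]

/-- the determinant of `x` completed by the rows of `Q` -/
def exE (x : Matrix β α L) (ε : β ⊕ γ → α) (Q : Matrix γ α L) : L :=
  ((fromRows x Q).submatrix id ε).det

/-- the determinant of `Φ` completed by the rows of `Q * Ψ`, on some columns -/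
def exF (Φ Ψ : Matrix α X L) (cols : α ⊕ γ → X) (Q : Matrix γ α L) : L :=
  ((fromRows Φ (Q * Ψ)).submatrix id cols).det

theorem submatrix_mul_right {m n o p : Type*} [Fintype n] (M : Matrix m n L) (N : Matrix n o L)
    (c : p → o) : (M * N).submatrix id c = M * N.submatrix id c := by
  ext i j; rfl

theorem exchange {x x' : Matrix β α L} {Φ Ψ : Matrix α X L} (hrel : x * Ψ = x' * Φ)
    (ε : β ⊕ γ ≃ α) (cols : α ⊕ γ → X) (Q₀ Q : Matrix γ α L) (hE : exE x ε Q₀ ≠ 0) :
    exF Φ Ψ cols Q * exE x ε Q₀ = exE x ε Q * exF Φ Ψ cols Q₀ := by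
  set B : Matrix (β ⊕ γ) (β ⊕ γ) L := (fromRows x Q₀).submatrix id ε with hB
  have hBdet : IsUnit B.det := isUnit_iff_ne_zero.2 hE
  set C : Matrix γ (β ⊕ γ) L := Q.submatrix id ε * B⁻¹ with hC
  have hCB : C * B = Q.submatrix id ε := by
    rw [hC, Matrix.mul_assoc, Matrix.nonsing_inv_mul _ hBdet, Matrix.mul_one]
  set A : Matrix γ β L := C.toCols₁ with hA
  set G : Matrix γ γ L := C.toCols₂ with hG
  have hQ : Q = A * x + G * Q₀ := by
    have h1 : C * fromRows x Q₀ = A * x + G * Q₀ := by
      rw [← Matrix.fromCols_mul_fromRows, hA, hG, Matrix.fromCols_toCols]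
    rw [← h1]
    have h2 : (C * fromRows x Q₀).submatrix id ε = Q.submatrix id ε := by
      rw [submatrix_mul_right, ← hB, hCB]
    ext i j
    have := congrFun (congrFun h2 i) (ε.symm j)
    simpa using this.symm
  have h1 : fromRows x Q = fromBlocks 1 0 A G * fromRows x Q₀ := by
    rw [Matrix.fromBlocks_mul_fromRows]
    congr 1
    simp
  have h2 : fromRows Φ (Q * Ψ) = fromBlocks 1 0 (A * x') G * fromRows Φ (Q₀ * Ψ) := by
    rw [Matrix.fromBlocks_mul_fromRows]
    congr 1
    · simp
    · rw [hQ, Matrix.add_mul, Matrix.mul_assoc, hrel, Matrix.mul_assoc, Matrix.mul_assoc]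
  have h3 : exE x ε Q = G.det * exE x ε Q₀ := by
    unfold exE
    rw [h1, submatrix_mul_right, Matrix.det_mul, Matrix.det_fromBlocks_zero₁₂, Matrix.det_one,
      one_mul]
  have h4 : exF Φ Ψ cols Q = G.det * exF Φ Ψ cols Q₀ := by
    unfold exF
    rw [h2, submatrix_mul_right, Matrix.det_mul, Matrix.det_fromBlocks_zero₁₂, Matrix.det_one,
      one_mul]
  rw [h3, h4]; ring

/-- adding multiples of `Φ` to `Ψ` does not change `exF` -/
theorem exF_add_smul (Φ Ψ : Matrix α X L) (cols : α ⊕ γ → X) (Q : Matrix γ α L) (s : L) :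
    exF Φ (Ψ + s • Φ) cols Q = exF Φ Ψ cols Q := by
  have h2 : fromRows Φ (Q * (Ψ + s • Φ)) =
      (fromBlocks 1 0 (s • Q) 1 : Matrix (α ⊕ γ) (α ⊕ γ) L) * fromRows Φ (Q * Ψ) := by
    rw [Matrix.fromBlocks_mul_fromRows]
    congr 1
    · simp
    · rw [Matrix.mul_add, Matrix.mul_smul, Matrix.smul_mul, Matrix.one_mul, add_comm]
  unfold exF
  rw [h2, submatrix_mul_right, Matrix.det_mul, Matrix.det_fromBlocks_zero₁₂, Matrix.det_one,
    Matrix.det_one, one_mul, one_mul]

/-- the coordinate rows complementary to some columns -/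
def coordRows (ε : β ⊕ γ ≃ α) : Matrix γ α L := fun l i => if i = ε (Sum.inr l) then 1 else 0

theorem exE_coordRows (x : Matrix β α L) (ε ε' : β ⊕ γ ≃ α) :
    exE x ε (coordRows ε') = (x.submatrix id fun j => ε' (Sum.inl j)).det ∨
      exE x ε (coordRows ε') = -(x.submatrix id fun j => ε' (Sum.inl j)).det := by
  have h1 : (fromRows x (coordRows (L := L) ε')).submatrix id ε' =
      fromBlocks (x.submatrix id fun j => ε' (Sum.inl j)) (x.submatrix id fun j => ε' (Sum.inr j))
        0 1 := by
    ext i j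
    rcases i with i | i <;> rcases j with j | j
    · rfl
    · rfl
    · simp [coordRows]
    · simp [coordRows, Matrix.one_apply, eq_comm]
  have h2 : (fromRows x (coordRows (L := L) ε')).submatrix id ε =
      ((fromRows x (coordRows (L := L) ε')).submatrix id ε').submatrix id (ε.trans ε'.symm) := by
    ext i j
    simp
  unfold exE
  rw [h2, Matrix.det_permute', h1, Matrix.det_fromBlocks_zero₂₁, Matrix.det_one, mul_one]
  rcases Int.units_eq_one_or (Equiv.Perm.sign (ε.trans ε'.symm)) with h | h
  · left; rw [h]; simp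
  · right; rw [h]; simp

end Exchange

section Dual

variable {k : Type*} [Field k]

/-- dual functionals of finitely many independent functions on a finite set -/
theorem exists_dual_fn {α X : Type*} [Fintype α] [DecidableEq α] [Fintype X] [DecidableEq X]
    {m : α → X → k} (hm : LinearIndependent k m) :
    ∃ κ : α → X → k, ∀ i j, ∑ x, κ i x * m j x = if i = j then 1 else 0 := by
  have hinj : LinearMap.ker (Fintype.linearCombination k m) = ⊥ := by
    rw [LinearMap.ker_eq_bot']
    intro c hc
    rw [Fintype.linearIndependent_iff] at hm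
    funext i
    exact hm c (by simpa [Fintype.linearCombination_apply] using hc) i
  obtain ⟨g, hg⟩ := LinearMap.exists_leftInverse_of_injective _ hinj
  refine ⟨fun i x => g (Pi.single x 1) i, fun i j => ?_⟩
  have h1 : g (m j) = Pi.single j 1 := by
    have := LinearMap.congr_fun hg (Pi.single j 1)
    simpa [Fintype.linearCombination_apply_single] using this
  have h2 : m j = ∑ x, m j x • (Pi.single x 1 : X → k) := by
    ext y
    simp [Finset.sum_apply, Pi.single_apply]
  have h3 : g (m j) i = ∑ x, g (Pi.single x 1) i * m j x := by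
    conv_lhs => rw [h2]
    rw [map_sum, Finset.sum_apply]
    refine Finset.sum_congr rfl fun x _ => ?_
    rw [map_smul, Pi.smul_apply, smul_eq_mul, mul_comm]
  rw [← h3, h1, Pi.single_apply]

end Dual

namespace Place

variable {k L : Type*} [Field k] [Field L] [Algebra k L] (v : Place k L)

theorem sum_mem_ge' {ι : Type*} (s : Finset ι) (f : ι → L) (n : ℤ) (h : ∀ i ∈ s, f i ∈ v.ge n) :
    ∑ i ∈ s, f i ∈ v.ge n := sum_mem h

theorem det_mem_ge2 {κ : Type*} [Fintype κ] [DecidableEq κ] (A : Matrix κ κ L) (r s : κ → ℤ)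
    (h : ∀ i j, A i j ∈ v.ge (r i + s j)) : A.det ∈ v.ge (∑ i, r i + ∑ j, s j) := by
  rw [Matrix.det_apply]
  refine v.sum_mem_ge' _ _ _ fun σ _ => ?_
  have h1 : ∏ i, A (σ i) i ∈ v.ge (∑ i, r i + ∑ j, s j) := by
    have h2 := v.prod_mem_ge Finset.univ (fun i => A (σ i) i) (fun i => r (σ i) + s i)
      (fun i _ => h (σ i) i)
    rw [Finset.sum_add_distrib, Equiv.sum_comp σ r] at h2
    exact h2
  rcases Int.units_eq_one_or (Equiv.Perm.sign σ) with h2 | h2
  · rw [h2, one_smul]; exact h1
  · rw [h2]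
    simp only [Units.neg_smul, one_smul]
    exact neg_mem h1

end Place

end Pool.Agent.Helper11
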