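import Pool.Agent.Helper11.DefsP
import Pool.Agent.Helper11.Height

set_option linter.unusedSectionVars false

namespace Pool.Agent.Helper11

section

variable {k L ι : Type*} [Field k] [Field L] [Algebra k L] [Finite ι] (v : Place k L)

theorem Place.minOrdSet_finite (x : ι → L) : {n : ℤ | ∃ i, x i ≠ 0 ∧ n = v.ord (x i)}.Finite := by
  apply (Set.finite_range fun i => v.ord (x i)).subset
  rintro n ⟨i, _, rfl⟩
  exact ⟨i, rfl⟩

theorem Place.minOrd_le (x : ι → L) {i : ι} (hi : x i ≠ 0) : v.minOrd x ≤ v.ord (x i) :=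
  csInf_le (v.minOrdSet_finite x).bddBelow ⟨i, hi, rfl⟩

theorem Place.exists_minOrd (x : ι → L) (hx : ∃ i, x i ≠ 0) :
    ∃ i, x i ≠ 0 ∧ v.minOrd x = v.ord (x i) := by
  obtain ⟨i, hi⟩ := hx
  have hne : {n : ℤ | ∃ i, x i ≠ 0 ∧ n = v.ord (x i)}.Nonempty := ⟨_, i, hi, rfl⟩
  exact hne.csInf_mem (v.minOrdSet_finite x)

theorem Place.mem_ge_minOrd (x : ι → L) (i : ι) : x i ∈ v.ge (v.minOrd x) := by
  by_cases hi : x i = 0
  · rw [hi]; exact zero_mem _
  · exact v.mem_ge_of_le (v.minOrd_le x hi)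

theorem Place.le_minOrd (x : ι → L) (hx : ∃ i, x i ≠ 0) {n : ℤ} (h : ∀ i, x i ∈ v.ge n) :
    n ≤ v.minOrd x := by
  obtain ⟨i, hi, h2⟩ := v.exists_minOrd x hx
  rw [h2]
  exact v.le_ord_of_mem (h i) hi

theorem Place.minOrd_mul (x : ι → L) (hx : ∃ i, x i ≠ 0) {g : L} (hg : g ≠ 0) :
    v.minOrd (fun i => g * x i) = v.ord g + v.minOrd x := by
  obtain ⟨i, hi⟩ := hx
  apply le_antisymm
  · obtain ⟨j, hj, h2⟩ := v.exists_minOrd x ⟨i, hi⟩
    rw [h2, ← v.ord_mul _ _ hg hj]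
    exact v.minOrd_le (fun i => g * x i) (mul_ne_zero hg hj)
  · refine v.le_minOrd _ ⟨i, mul_ne_zero hg hi⟩ fun j => ?_
    exact v.mul_mem_ge (v.mem_ge_ord g) (v.mem_ge_minOrd x j)

end

variable {k L ι : Type*} [Field k] [Field L] [Algebra k L] [FunField k L] [CharZero k]
  [IsAlgClosed k] [Finite ι]

theorem supp_minOrd (x : ι → L) : {v : Place k L | v.minOrd x ≠ 0}.Finite := by
  classical
  have : Fintype ι := Fintype.ofFinite ι
  by_cases hx : ∃ i, x i ≠ 0
  · have h : (⋃ i, {v : Place k L | v.ord (x i) ≠ 0}).Finite :=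
      Set.finite_iUnion fun i => supp_ord (x i)
    apply h.subset
    intro v hv
    obtain ⟨i, _, h2⟩ := v.exists_minOrd x hx
    have hv' : v.minOrd x ≠ 0 := hv
    rw [h2] at hv'
    exact Set.mem_iUnion.2 ⟨i, hv'⟩
  · convert Set.finite_empty
    ext v
    simp only [Set.mem_ofPred_eq, Set.mem_empty_iff_false, iff_false, not_not]
    unfold Place.minOrd
    have h1 : {n : ℤ | ∃ i, x i ≠ 0 ∧ n = v.ord (x i)} = ∅ := by
      ext n
      simp only [Set.mem_ofPred_eq, Set.mem_empty_iff_false, iff_false]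
      rintro ⟨i, hi, _⟩
      exact hx ⟨i, hi⟩
    rw [h1, Int.csInf_empty]

theorem htP_mul (x : ι → L) (hx : ∃ i, x i ≠ 0) {g : L} (hg : g ≠ 0) :
    htP k (fun i => g * x i) = htP k x := by
  unfold htP
  rw [fs_neg, fs_neg, finsum_congr fun v => v.minOrd_mul x hx hg,
    fs_add (supp_ord g) (supp_minOrd x), finsum_ord, zero_add]

theorem htP_nonneg (x : ι → L) : 0 ≤ htP k x := by
  by_cases hx : ∃ i, x i ≠ 0
  · obtain ⟨i, hi⟩ := hx
    have h1 := htP_mul x ⟨i, hi⟩ (inv_ne_zero hi) (k := k)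
    rw [← h1]
    unfold htP
    refine fs_nonneg fun v => ?_
    have h2 := v.minOrd_le (fun j => (x i)⁻¹ * x j) (i := i) (by simp [hi])
    rw [inv_mul_cancel₀ hi, v.ord_one] at h2
    omega
  · unfold htP
    have h0 : ∀ v : Place k L, -v.minOrd x = 0 := by
      intro v
      unfold Place.minOrd
      have h1 : {n : ℤ | ∃ i, x i ≠ 0 ∧ n = v.ord (x i)} = ∅ := by
        ext n
        simp only [Set.mem_ofPred_eq, Set.mem_empty_iff_false, iff_false]
        rintro ⟨i, hi, _⟩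
        exact hx ⟨i, hi⟩
      rw [h1, Int.csInf_empty, neg_zero]
    rw [finsum_congr h0, finsum_zero]

end Pool.Agent.Helper11
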