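import Pool.Agent.Helper11.MIAlg
import Pool.Agent.Helper11.ProjHeight
import Pool.Agent.Helper11.Chi

set_option linter.unusedSectionVars false

namespace Pool.Agent.Helper11

open Matrix

/-- value of the linear form with coefficients `F` at the point `p` -/
def pairing {k L ι : Type*} [Field k] [Field L] [Algebra k L] [Fintype ι] (F : ι → L)
    (p : ι → k) : L := ∑ i, F i * algebraMap k L (p i)

/-- value at `x` of the combination with coefficients `P` of the functions `m` -/
def evL {k L α X : Type*} [Field k] [Field L] [Algebra k L] [Fintype α] (m : α → X → k)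
    (P : α → L) (x : X) : L := ∑ i, P i * algebraMap k L (m i x)

section

variable {k L : Type*} [Field k] [Field L] [Algebra k L]
variable {α υ X X₀ Γ ι : Type*} [Fintype α] [DecidableEq α] [Fintype υ] [DecidableEq υ]
  [Fintype X₀] [DecidableEq X₀] [Fintype Γ] [DecidableEq Γ] [Fintype ι]

theorem evL_add (m : α → X → k) (P Q : α → L) (x : X) :
    evL m (P + Q) x = evL m P x + evL m Q x := by
  unfold evL
  rw [← Finset.sum_add_distrib]
  exact Finset.sum_congr rfl fun i _ => by rw [Pi.add_apply]; ring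

theorem evL_smul (m : α → X → k) (c : L) (P : α → L) (x : X) :
    evL m (c • P) x = c * evL m P x := by
  unfold evL
  rw [Finset.mul_sum]
  exact Finset.sum_congr rfl fun i _ => by rw [Pi.smul_apply, smul_eq_mul]; ring

theorem evL_zero (m : α → X → k) (x : X) : evL m (0 : α → L) x = 0 := by
  simp [evL]

theorem evL_sum {β : Type*} (s : Finset β) (m : α → X → k) (c : β → L) (P : β → α → L) (x : X) :
    evL m (∑ j ∈ s, c j • P j) x = ∑ j ∈ s, c j * evL m (P j) x := by
  classical
  induction s using Finset.induction_on with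
  | empty => simp [evL_zero]
  | insert a s ha ih => rw [Finset.sum_insert ha, Finset.sum_insert ha, evL_add, evL_smul, ih]

theorem evL_dual {m : α → X₀ → k} {κ : α → X₀ → k}
    (hκ : ∀ i j, ∑ x, κ i x * m j x = if i = j then 1 else 0) (P : α → L) (i : α) :
    P i = ∑ x, algebraMap k L (κ i x) * evL m P x := by
  unfold evL
  simp only [Finset.mul_sum]
  rw [Finset.sum_comm]
  have h1 : ∀ j, ∑ x, algebraMap k L (κ i x) * (P j * algebraMap k L (m j x)) =
      P j * (if i = j then 1 else 0) := by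
    intro j
    have h2 := congrArg (algebraMap k L) (hκ i j)
    rw [map_sum] at h2
    have h3 : ∑ x, algebraMap k L (κ i x) * (P j * algebraMap k L (m j x)) =
        P j * ∑ x, algebraMap k L (κ i x * m j x) := by
      rw [Finset.mul_sum]
      refine Finset.sum_congr rfl fun x _ => ?_
      rw [map_mul]; ring
    rw [h3, h2]
    congr 1
    split_ifs <;> simp
  rw [Finset.sum_congr rfl fun j _ => h1 j]
  simp

/-- the linear algebra data of the main inequality -/
structure MIData (k : Type*) {L α υ X₀ Γ ι : Type*} [Field k] [Field L] [Algebra k L]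
    [Fintype α] [Fintype υ] [Fintype X₀] [Fintype Γ] [Fintype ι] (F F' : ι → L)
    (pt : X₀ ⊕ Γ → ι → k) (m : α → X₀ ⊕ Γ → k) (u : υ → X₀ → k) : Prop where
  hm : LinearIndependent k fun (i : α) (x : X₀) => m i (Sum.inl x)
  hu : LinearIndependent k u
  hΓ : ∀ g : Γ → k, ∃ c : α → k, ∀ p, ∑ i, c i * m i (Sum.inr p) = g p
  hφ : ∀ x, pairing F (pt x) ≠ 0
  hrel : ∀ P Q : α → L,
    (∀ x : X₀, pairing F (pt (Sum.inl x)) * evL m P (Sum.inl x) =
      pairing F' (pt (Sum.inl x)) * evL m Q (Sum.inl x)) →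
    (∀ p : Γ, pairing F (pt (Sum.inr p)) * evL m P (Sum.inr p) =
      pairing F' (pt (Sum.inr p)) * evL m Q (Sum.inr p)) ∧
    ∃ g : υ → L, ∀ x : X₀, evL m Q (Sum.inl x) = pairing F (pt (Sum.inl x)) * evL u g x
  hred : ∀ (v : Place k L) (c : ι → k),
    (∀ i, F i - v.unif ^ v.minOrd F * algebraMap k L (c i) ∈ v.ge (v.minOrd F + 1)) →
    ∀ g : υ → k, (∀ x : X₀, (∑ i, c i * pt (Sum.inl x) i) * ∑ l, g l * u l x = 0) → g = 0

/-- the subspace `{Q : ψ Q ∈ φ M}` -/
def kerK (F F' : ι → L) (pt : X₀ ⊕ Γ → ι → k) (m : α → X₀ ⊕ Γ → k) : Submodule L (α → L) where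
  carrier := {Q | ∃ P : α → L, ∀ x : X₀, pairing F (pt (Sum.inl x)) * evL m P (Sum.inl x) =
      pairing F' (pt (Sum.inl x)) * evL m Q (Sum.inl x)}
  add_mem' := by
    rintro Q Q' ⟨P, hP⟩ ⟨P', hP'⟩
    refine ⟨P + P', fun x => ?_⟩
    rw [evL_add, evL_add, mul_add, mul_add, hP, hP']
  zero_mem' := ⟨0, fun x => by rw [evL_zero, mul_zero, mul_zero]⟩
  smul_mem' := by
    rintro c Q ⟨P, hP⟩
    refine ⟨c • P, fun x => ?_⟩
    rw [evL_smul, evL_smul, mul_left_comm, hP, mul_left_comm]

theorem exists_sum_equiv {b : ℕ} {σ : Fin b → α} (hσ : Function.Injective σ) :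
    ∃ ε : Fin b ⊕ Fin (Fintype.card α - b) ≃ α, ∀ j, ε (Sum.inl j) = σ j := by
  classical
  have hcard : Fintype.card {a : α // ¬ ∃ j, σ j = a} = Fintype.card α - b := by
    rw [Fintype.card_subtype_compl]
    congr 1
    have : Fintype.card {a : α // ∃ j, σ j = a} = Fintype.card (Fin b) :=
      Fintype.card_congr (Equiv.ofInjective σ hσ).symm
    rw [this, Fintype.card_fin]
  let e₁ : Fin b ≃ {a : α // ∃ j, σ j = a} := Equiv.ofInjective σ hσ
  let e₂ : Fin (Fintype.card α - b) ≃ {a : α // ¬ ∃ j, σ j = a} :=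
    Fintype.equivOfCardEq (by rw [Fintype.card_fin, hcard])
  refine ⟨(Equiv.sumCongr e₁ e₂).trans (Equiv.sumCompl fun a => ∃ j, σ j = a), fun j => ?_⟩
  rfl

theorem injective_of_minor {β n : Type*} [Fintype β] [DecidableEq β] {A : Matrix β n L}
    {σ : β → n} (h : (A.submatrix id σ).det ≠ 0) : Function.Injective σ := by
  intro i j hij
  by_contra hne
  apply h
  refine Matrix.det_zero_of_column_eq hne fun a => ?_
  simp [hij]

end

end Pool.Agent.Helper11
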