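import Pool.Agent.Helper11.MIData

set_option linter.unusedSectionVars false

namespace Pool.Agent.Helper11

open Matrix

section

variable {k L : Type*} [Field k] [Field L] [Algebra k L]
variable {α υ X X₀ Γ ι : Type*} [Fintype α] [DecidableEq α] [Fintype υ] [DecidableEq υ]
  [Fintype X₀] [DecidableEq X₀] [Fintype Γ] [DecidableEq Γ] [Fintype ι]

/-- the matrix of the functions `φ m_i` -/
def Phi (F : ι → L) (pt : X → ι → k) (m : α → X → k) : Matrix α X L :=
  fun i x => pairing F (pt x) * algebraMap k L (m i x)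

theorem mul_Phi {β : Type*} (Q : Matrix β α L) (F : ι → L) (pt : X → ι → k) (m : α → X → k)
    (l : β) (x : X) : (Q * Phi F pt m) l x = pairing F (pt x) * evL m (Q l) x := by
  unfold Phi evL
  rw [Matrix.mul_apply, Finset.mul_sum]
  exact Finset.sum_congr rfl fun i _ => by ring

theorem pairing_mem_ge (v : Place k L) {F : ι → L} {n : ℤ} (h : ∀ i, F i ∈ v.ge n) (p : ι → k) :
    pairing F p ∈ v.ge n := by
  refine v.sum_mem_ge' _ _ _ fun i _ => ?_
  have := v.mul_mem_ge (h i) (v.algebraMap_mem_ge (p i))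
  rwa [add_zero] at this

theorem derivation_pairing (δ : Derivation k L L) (F : ι → L) (p : ι → k) :
    δ (pairing F p) = pairing (fun i => δ (F i)) p := by
  unfold pairing
  rw [map_sum]
  refine Finset.sum_congr rfl fun i _ => ?_
  rw [δ.leibniz, δ.map_algebraMap, smul_zero, zero_add, smul_eq_mul, mul_comm]

theorem sum_cols_ge {A X : Type*} [Fintype A] [DecidableEq X] {Γ : Type*} [Fintype Γ]
    {cols : A → X} (hinj : Function.Injective cols) {j : Γ → X} (hj : Function.Injective j)
    (hsub : Set.range j ⊆ Set.range cols) (S : X → ℤ) (hS : ∀ x, 0 ≤ S x) :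
    ∑ p, S (j p) ≤ ∑ a, S (cols a) := by
  classical
  have h1 : ∑ a, S (cols a) = ∑ x ∈ Finset.univ.image cols, S x :=
    (Finset.sum_image fun a _ b _ h => hinj h).symm
  have h2 : ∑ p, S (j p) = ∑ x ∈ Finset.univ.image j, S x :=
    (Finset.sum_image fun a _ b _ h => hj h).symm
  rw [h1, h2]
  refine Finset.sum_le_sum_of_subset_of_nonneg ?_ fun x _ _ => hS x
  intro x hx
  simp only [Finset.mem_image, Finset.mem_univ, true_and] at hx ⊢
  exact hsub hx

end

section

variable {k L : Type*} [Field k] [Field L] [Algebra k L] [FunField k L] [CharZero k]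
  [IsAlgClosed k]
variable {α υ X X₀ Γ ι : Type*} [Fintype α] [DecidableEq α] [Fintype υ] [DecidableEq υ]
  [Fintype X₀] [DecidableEq X₀] [Fintype Γ] [DecidableEq Γ] [Fintype ι]

theorem Place.dv_sub_mem (v : Place k L) {μ : ℤ} {z : L} (hz : z ∈ v.ge μ) :
    v.dv z - μ * v.unif⁻¹ * z ∈ v.ge μ := by
  have h0 := v.unif_ne_zero
  set z₀ := v.unif ^ (-μ) * z with hz₀
  have h1 : z = v.unif ^ μ * z₀ := by
    rw [hz₀, ← mul_assoc, ← zpow_add₀ h0, add_neg_cancel, zpow_zero, one_mul]
  have h2 : z₀ ∈ v.ge 0 := by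
    have h3 : v.unif ^ (-μ) ∈ v.ge (-μ) := by
      apply v.mem_ge_of_le
      rw [v.ord_zpow, v.ord_unif]; omega
    have := v.mul_mem_ge h3 hz
    rwa [neg_add_cancel] at this
  have h3 : v.dv z - μ * v.unif⁻¹ * z = v.unif ^ μ * v.dv z₀ := by
    rw [h1, v.dv_unif_zpow_mul, zpow_sub_one₀ h0]
    ring
  rw [h3]
  have h4 : v.unif ^ μ ∈ v.ge μ := by
    apply v.mem_ge_of_le
    rw [v.ord_zpow, v.ord_unif]; omega
  have := v.mul_mem_ge h4 (v.dv_mem_ge_zero h2)
  rwa [add_zero] at this

/-- the excess at `v` of the value at `p` -/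
noncomputable def exc (v : Place k L) (F : ι → L) (p : ι → k) : ℤ :=
  max 0 (v.ord (pairing F p) - v.minOrd F - 1)

theorem local_F {F : ι → L} {t : L} (ht : Transcendental k t) {pt : X₀ ⊕ Γ → ι → k}
    {m : α → X₀ ⊕ Γ → k} (_hφ : ∀ x, pairing F (pt x) ≠ 0) (v : Place k L) {b' : ℕ}
    {cols : α ⊕ Fin b' → X₀ ⊕ Γ} (hinj : Function.Injective cols)
    (hsub : Set.range (Sum.inr : Γ → X₀ ⊕ Γ) ⊆ Set.range cols) (Q : Matrix (Fin b') α L)
    (hQ : ∀ l i, Q l i ∈ v.ge 0) :
    exF (Phi F pt m) (Phi (fun i => der ht (F i)) pt m) cols Q ∈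
      v.ge (Fintype.card α * v.minOrd F + b' * (v.minOrd F - v.ord (v.dv t)) +
        ∑ p : Γ, exc v F (pt (Sum.inr p))) := by
  classical
  set μ := v.minOrd F with hμ
  set w := v.ord (v.dv t) with hw
  set ct := der ht v.unif with hct
  have hctge : ct ∈ v.ge (-w) := by
    apply v.mem_ge_of_le
    rw [hct, v.ord_der_unif ht]
  set s : L := -(ct * μ * v.unif⁻¹) with hs
  rw [← exF_add_smul _ _ _ _ s]
  set S : X₀ ⊕ Γ → ℤ := Sum.elim (fun _ => 0) (fun p => exc v F (pt (Sum.inr p))) with hSdef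
  have hS0 : ∀ x, 0 ≤ S x := by
    rintro (x | p)
    · exact le_rfl
    · exact le_max_left _ _
  have hFge : ∀ i, F i ∈ v.ge μ := fun i => v.mem_ge_minOrd F i
  -- bounds on the two multipliers
  have hz : ∀ x, pairing F (pt x) ∈ v.ge (μ + S x) ∧
      pairing (fun i => der ht (F i)) (pt x) + s * pairing F (pt x) ∈ v.ge (μ - w + S x) := by
    intro x
    set z := pairing F (pt x) with hzdef
    have hzge : z ∈ v.ge μ := pairing_mem_ge v hFge _
    have h1 : pairing (fun i => der ht (F i)) (pt x) = ct * v.dv z := by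
      rw [← derivation_pairing, ← hzdef, v.der_eq ht]
    have h2 : pairing (fun i => der ht (F i)) (pt x) + s * z =
        ct * (v.dv z - μ * v.unif⁻¹ * z) := by
      rw [h1, hs]; ring
    rw [h2]
    have h3 := v.dv_sub_mem hzge
    have hcase : ∀ e : ℤ, 0 ≤ e → (e = 0 ∨ (e = v.ord z - μ - 1)) →
        z ∈ v.ge (μ + e) ∧ v.dv z - μ * v.unif⁻¹ * z ∈ v.ge (μ + e) := by
      intro e he0 he
      rcases he with rfl | he
      · rw [add_zero]; exact ⟨hzge, h3⟩
      · refine ⟨v.mem_ge_of_le (by omega), ?_⟩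
        have h4 : v.dv z ∈ v.ge (v.ord z - 1) := v.dv_mem_ge (v.mem_ge_ord z)
        have h5 : (μ : L) * v.unif⁻¹ * z ∈ v.ge (v.ord z - 1) := by
          have h6 : v.unif⁻¹ ∈ v.ge (-1) := by
            apply v.mem_ge_of_le
            rw [v.ord_inv, v.ord_unif]
          have h7 := v.mul_mem_ge (v.mul_mem_ge (v.intCast_mem_ge μ) h6) (v.mem_ge_ord z)
          have h8 : (0 : ℤ) + -1 + v.ord z = v.ord z - 1 := by ring
          rwa [h8] at h7
        have h9 := sub_mem h4 h5
        rwa [show v.ord z - 1 = μ + e by omega] at h9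
    have h4 : z ∈ v.ge (μ + S x) ∧ v.dv z - μ * v.unif⁻¹ * z ∈ v.ge (μ + S x) := by
      refine hcase (S x) (hS0 x) ?_
      rcases x with x | p
      · left; rfl
      · simp only [hSdef, Sum.elim_inr, exc]
        rcases le_total 0 (v.ord (pairing F (pt (Sum.inr p))) - v.minOrd F - 1) with h | h
        · right; rw [max_eq_right h]
        · left; rw [max_eq_left h]
    refine ⟨h4.1, ?_⟩
    have h5 := v.mul_mem_ge hctge h4.2
    have h6 : -w + (μ + S x) = μ - w + S x := by ring
    rwa [h6] at h5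
  unfold exF
  have hdet := v.det_mem_ge2 ((fromRows (Phi F pt m) (Q * (Phi (fun i => der ht (F i)) pt m +
      s • Phi F pt m))).submatrix id cols) (Sum.elim (fun _ => μ) (fun _ => μ - w))
      (fun j => S (cols j)) (by
    rintro (i | l) j
    · simp only [submatrix_apply, id_eq, fromRows_apply_inl, Sum.elim_inl, Phi]
      have h1 := v.mul_mem_ge (hz (cols j)).1 (v.algebraMap_mem_ge (m i (cols j)))
      rwa [add_zero] at h1
    · simp only [submatrix_apply, id_eq, fromRows_apply_inr, Sum.elim_inr, Matrix.mul_apply,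
        Matrix.add_apply, Matrix.smul_apply, smul_eq_mul, Phi]
      refine v.sum_mem_ge' _ _ _ fun i _ => ?_
      have h1 := v.mul_mem_ge (v.mul_mem_ge (hQ l i) (hz (cols j)).2)
        (v.algebraMap_mem_ge (m i (cols j)))
      rw [zero_add, add_zero] at h1
      have h2 : Q l i * (pairing (fun i => der ht (F i)) (pt (cols j)) *
          algebraMap k L (m i (cols j)) + s * (pairing F (pt (cols j)) *
          algebraMap k L (m i (cols j)))) = Q l i * (pairing (fun i => der ht (F i)) (pt (cols j)) +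
          s * pairing F (pt (cols j))) * algebraMap k L (m i (cols j)) := by ring
      rw [h2]
      exact h1)
  refine v.ge_anti ?_ hdet
  have h1 := sum_cols_ge hinj (j := (Sum.inr : Γ → X₀ ⊕ Γ)) Sum.inr_injective hsub S hS0
  have h2 : ∑ p : Γ, S (Sum.inr p) = ∑ p : Γ, exc v F (pt (Sum.inr p)) := rfl
  rw [Fintype.sum_sum_type]
  simp only [Sum.elim_inl, Sum.elim_inr, Finset.sum_const, Finset.card_univ, Fintype.card_fin,
    nsmul_eq_mul]
  rw [h2] at h1
  linarith

end

end Pool.Agent.Helper11
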