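import Pool.Agent.Helper11.MILocal

set_option linter.unusedSectionVars false

namespace Pool.Agent.Helper11

open Matrix

section

variable {k L : Type*} [Field k] [Field L] [Algebra k L]
variable {α υ X X₀ Γ ι : Type*} [Fintype α] [DecidableEq α] [Fintype υ] [DecidableEq υ]
  [Fintype X₀] [DecidableEq X₀] [Fintype Γ] [DecidableEq Γ] [Fintype ι]

/-- functions independent over `k` are independent over `L` -/
theorem evL_injective {m : α → X₀ → k} (hm : LinearIndependent k m) {P : α → L}
    (h : ∀ x, evL m P x = 0) : P = 0 := by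
  classical
  obtain ⟨κ, hκ⟩ := exists_dual_fn hm
  funext i
  rw [evL_dual hκ P i]
  simp [h]

/-- the linear algebra set-up of the main inequality -/
theorem MIData.setup {F F' : ι → L} {pt : X₀ ⊕ Γ → ι → k} {m : α → X₀ ⊕ Γ → k} {u : υ → X₀ → k}
    (D : MIData k F F' pt m u) :
    ∃ (x x' : Matrix (Fin (Module.finrank L (kerK F F' pt m))) α L)
      (g : Matrix (Fin (Module.finrank L (kerK F F' pt m))) υ L),
      LinearIndependent L x.row ∧ LinearIndependent L g.row ∧
      x * Phi F' pt m = x' * Phi F pt m ∧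
      (∀ j, ∀ y : X₀, evL (fun (i : α) (x : X₀) => m i (Sum.inl x)) (x j) y =
        pairing F (pt (Sum.inl y)) * evL u (g j) y) ∧
      (∀ Q ∈ kerK F F' pt m, ∃ d : Fin (Module.finrank L (kerK F F' pt m)) → L,
        Q = fun i => ∑ j, d j * x j i) := by
  classical
  set V := kerK F F' pt m with hV
  let bas := Module.finBasis L V
  have hex : ∀ j, ∃ (P : α → L) (g : υ → L),
      (∀ x : X₀, pairing F (pt (Sum.inl x)) * evL m P (Sum.inl x) =
        pairing F' (pt (Sum.inl x)) * evL m (bas j : α → L) (Sum.inl x)) ∧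
      (∀ p : Γ, pairing F (pt (Sum.inr p)) * evL m P (Sum.inr p) =
        pairing F' (pt (Sum.inr p)) * evL m (bas j : α → L) (Sum.inr p)) ∧
      ∀ x : X₀, evL m (bas j : α → L) (Sum.inl x) = pairing F (pt (Sum.inl x)) * evL u g x := by
    intro j
    obtain ⟨P, hP⟩ := (bas j).2
    obtain ⟨h1, g, hg⟩ := D.hrel P _ hP
    exact ⟨P, g, hP, h1, hg⟩
  choose x' g h1 h2 h3 using hex
  refine ⟨fun j => (bas j : α → L), x', g, ?_, ?_, ?_, ?_, ?_⟩
  · have := bas.linearIndependent.map' V.subtype (Submodule.ker_subtype V)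
    exact this
  · rw [Fintype.linearIndependent_iff]
    intro c hc
    have h4 : ∑ j, c j • (bas j : α → L) = 0 := by
      apply evL_injective D.hm
      intro y
      rw [evL_sum]
      have h5 : ∀ j, evL (fun (i : α) (x : X₀) => m i (Sum.inl x)) (bas j : α → L) y =
          pairing F (pt (Sum.inl y)) * evL u (g j) y := fun j => h3 j y
      have h6 : ∑ j, c j * (pairing F (pt (Sum.inl y)) * evL u (g j) y) =
          pairing F (pt (Sum.inl y)) * evL u (∑ j, c j • g j) y := by
        rw [evL_sum, Finset.mul_sum]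
        exact Finset.sum_congr rfl fun j _ => by ring
      rw [Finset.sum_congr rfl fun j _ => by rw [h5 j], h6]
      have h7 : ∑ j, c j • g j = 0 := hc
      rw [h7, evL_zero, mul_zero]
    have h8 : ∑ j, c j • bas j = 0 := by
      apply Subtype.ext
      rw [Submodule.coe_sum]
      simpa using h4
    exact (Fintype.linearIndependent_iff.1 bas.linearIndependent) c h8
  · ext j y
    rw [mul_Phi, mul_Phi]
    rcases y with y | p
    · exact (h1 j y).symm
    · exact (h2 j p).symm
  · exact fun j y => h3 j y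
  · intro Q hQ
    refine ⟨fun j => bas.repr ⟨Q, hQ⟩ j, ?_⟩
    have h4 := congrArg (Subtype.val) (bas.sum_repr ⟨Q, hQ⟩)
    rw [Submodule.coe_sum] at h4
    funext i
    have h5 := congrFun h4 i
    rw [Finset.sum_apply] at h5
    exact h5.symm

/-- the complementary rows and the columns -/
theorem MIData.columns {F F' : ι → L} {pt : X₀ ⊕ Γ → ι → k} {m : α → X₀ ⊕ Γ → k}
    {u : υ → X₀ → k} (D : MIData k F F' pt m u) {b : ℕ} {x : Matrix (Fin b) α L}
    (hxV : ∀ Q ∈ kerK F F' pt m, ∃ d : Fin b → L, Q = fun i => ∑ j, d j * x j i)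
    (ε : Fin b ⊕ Fin (Fintype.card α - b) ≃ α)
    (hε : exE x ε (coordRows ε) ≠ 0) :
    ∃ cols : α ⊕ Fin (Fintype.card α - b) → X₀ ⊕ Γ, Function.Injective cols ∧
      Set.range (Sum.inr : Γ → X₀ ⊕ Γ) ⊆ Set.range cols ∧
      exF (Phi F pt m) (Phi F' pt m) cols (coordRows ε) ≠ 0 := by
  classical
  set A : Matrix (α ⊕ Fin (Fintype.card α - b)) (X₀ ⊕ Γ) L :=
    fromRows (Phi F pt m)
      ((coordRows ε : Matrix (Fin (Fintype.card α - b)) α L) * (Phi F' pt m : Matrix α (X₀ ⊕ Γ) L) :
        Matrix (Fin (Fintype.card α - b)) (X₀ ⊕ Γ) L) with hA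
  have hrow : LinearIndependent L A.row := by
    rw [Fintype.linearIndependent_iff]
    intro c hc
    set P : α → L := fun i => c (Sum.inl i) with hP
    set Q : α → L := fun i => ∑ l, c (Sum.inr l) * (coordRows ε : Matrix _ α L) l i with hQ
    have h1 : ∀ y, pairing F (pt y) * evL m P y + pairing F' (pt y) * evL m Q y = 0 := by
      intro y
      have h2 := congrFun hc y
      rw [Finset.sum_apply, Fintype.sum_sum_type] at h2
      simp only [Pi.smul_apply, Matrix.row, smul_eq_mul, Pi.zero_apply] at h2
      have h3 : ∑ i, c (Sum.inl i) * A (Sum.inl i) y = pairing F (pt y) * evL m P y := by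
        unfold evL
        rw [Finset.mul_sum]
        refine Finset.sum_congr rfl fun i _ => ?_
        rw [hA, fromRows_apply_inl]
        simp only [Phi, hP]
        ring
      have h4 : ∑ l, c (Sum.inr l) * A (Sum.inr l) y = pairing F' (pt y) * evL m Q y := by
        have h5 : ∀ l, A (Sum.inr l) y =
            pairing F' (pt y) * evL m ((coordRows ε : Matrix _ α L) l) y := by
          intro l
          rw [hA, fromRows_apply_inr, mul_Phi]
        have h6 : Q = ∑ l, c (Sum.inr l) • (coordRows ε : Matrix _ α L) l := by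
          funext i
          rw [Finset.sum_apply]
          rfl
        rw [h6, evL_sum, Finset.mul_sum]
        refine Finset.sum_congr rfl fun l _ => ?_
        rw [h5]; ring
      rw [h3, h4] at h2
      exact h2
    have hQV : Q ∈ kerK F F' pt m := by
      refine ⟨-P, fun y => ?_⟩
      have h2 := h1 (Sum.inl y)
      have h3 : evL m (-P) (Sum.inl y) = - evL m P (Sum.inl y) := by
        have := evL_smul m (-1) P (Sum.inl y : X₀ ⊕ Γ)
        rw [neg_one_smul, neg_one_mul] at this
        exact this
      rw [h3]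
      linear_combination -h2
    obtain ⟨d, hd⟩ := hxV Q hQV
    -- independence of the rows of `x` and `coordRows`
    have hdet : IsUnit ((fromRows x (coordRows ε)).submatrix id ε).det :=
      isUnit_iff_ne_zero.2 hε
    have hli : LinearIndependent L ((fromRows x (coordRows ε)).submatrix id ε).row := by
      rw [Matrix.linearIndependent_rows_iff_isUnit, Matrix.isUnit_iff_isUnit_det]
      exact hdet
    rw [Fintype.linearIndependent_iff] at hli
    have h5 := hli (Sum.elim d fun l => - c (Sum.inr l)) (by
      funext y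
      rw [Finset.sum_apply, Fintype.sum_sum_type]
      simp only [Pi.smul_apply, Matrix.row, smul_eq_mul, Pi.zero_apply, Sum.elim_inl, Sum.elim_inr,
        submatrix_apply, id_eq, fromRows_apply_inl, fromRows_apply_inr]
      have h6 := congrFun hd (ε y)
      simp only [hQ] at h6
      rw [← h6, ← Finset.sum_add_distrib]
      exact Finset.sum_eq_zero fun l _ => by ring)
    have hc2 : ∀ l, c (Sum.inr l) = 0 := fun l => by simpa using h5 (Sum.inr l)
    have hQ0 : Q = 0 := by
      funext i
      simp [hQ, hc2]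
    have hP0 : P = 0 := by
      apply evL_injective D.hm
      intro y
      have h7 := h1 (Sum.inl y)
      rw [hQ0, evL_zero, mul_zero, add_zero] at h7
      exact (mul_eq_zero.1 h7).resolve_left (D.hφ _)
    rintro (i | l)
    · exact congrFun hP0 i
    · exact hc2 l
  have hcol : LinearIndepOn L A.col (Set.range (Sum.inr : Γ → X₀ ⊕ Γ)) := by
    rw [linearIndepOn_range_iff Sum.inr_injective]
    rw [Fintype.linearIndependent_iff]
    intro c hc p₀
    obtain ⟨e, he⟩ := D.hΓ (Pi.single p₀ 1)
    have h1 : ∀ i : α, ∑ p : Γ, c p * (pairing F (pt (Sum.inr p)) *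
        algebraMap k L (m i (Sum.inr p))) = 0 := by
      intro i
      have h2 := congrFun hc (Sum.inl i)
      rw [Finset.sum_apply] at h2
      exact h2
    have h2 : ∑ i, algebraMap k L (e i) * ∑ p : Γ, c p * (pairing F (pt (Sum.inr p)) *
        algebraMap k L (m i (Sum.inr p))) = 0 := by
      exact Finset.sum_eq_zero fun i _ => by rw [h1, mul_zero]
    simp only [Finset.mul_sum] at h2
    rw [Finset.sum_comm] at h2
    have h3 : ∀ p, ∑ i, algebraMap k L (e i) * (c p * (pairing F (pt (Sum.inr p)) *
        algebraMap k L (m i (Sum.inr p)))) =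
        c p * pairing F (pt (Sum.inr p)) * algebraMap k L ((Pi.single p₀ 1 : Γ → k) p) := by
      intro p
      rw [← he p, map_sum, Finset.mul_sum]
      refine Finset.sum_congr rfl fun i _ => ?_
      rw [map_mul]; ring
    rw [Finset.sum_congr rfl fun p _ => h3 p, Finset.sum_eq_single p₀] at h2
    · rw [Pi.single_eq_same, map_one, mul_one] at h2
      exact (mul_eq_zero.1 h2).resolve_right (D.hφ _)
    · intro p _ hp
      rw [Pi.single_eq_of_ne hp, map_zero, mul_zero]
    · intro h; exact absurd (Finset.mem_univ _) h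
  obtain ⟨cols, h1, h2, h3⟩ := exists_minor_extension A hrow _ hcol
  exact ⟨cols, h1, h2, h3⟩

theorem evL_mem_ge (v : Place k L) {m : α → X → k} {P : α → L} {n : ℤ} (h : ∀ i, P i ∈ v.ge n)
    (y : X) : evL m P y ∈ v.ge n := by
  refine v.sum_mem_ge' _ _ _ fun i _ => ?_
  have := v.mul_mem_ge (h i) (v.algebraMap_mem_ge (m i y))
  rwa [add_zero] at this

theorem evL_mul {β : Type*} [Fintype β] (m : α → X → k) (A : Matrix β β L) (x : Matrix β α L)
    (j : β) (y : X) : evL m ((A * x) j) y = ∑ l, A j l * evL m (x l) y := by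
  have h1 : (A * x) j = ∑ l, A j l • x l := by
    funext i
    rw [Finset.sum_apply, Matrix.mul_apply]
    rfl
  rw [h1, evL_sum]

end

section

variable {k L : Type*} [Field k] [Field L] [Algebra k L] [FunField k L] [CharZero k]
  [IsAlgClosed k]
variable {α υ X X₀ Γ ι : Type*} [Fintype α] [DecidableEq α] [Fintype υ] [DecidableEq υ]
  [Fintype X₀] [DecidableEq X₀] [Fintype Γ] [DecidableEq Γ] [Fintype ι]

/-- the local lower bound for the determinants `exE` -/
theorem MIData.local_E {F F' : ι → L} {pt : X₀ ⊕ Γ → ι → k} {m : α → X₀ ⊕ Γ → k}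
    {u : υ → X₀ → k} (D : MIData k F F' pt m u) (v : Place k L) {b : ℕ}
    {x : Matrix (Fin b) α L} {g : Matrix (Fin b) υ L} (hg : LinearIndependent L g.row)
    (hxg : ∀ j, ∀ y : X₀, evL (fun (i : α) (x : X₀) => m i (Sum.inl x)) (x j) y =
        pairing F (pt (Sum.inl y)) * evL u (g j) y)
    (τ : Fin b → υ) (hτ : (g.submatrix id τ).det ≠ 0) :
    ∃ σ' : Fin b → α, (x.submatrix id σ').det ≠ 0 ∧
      v.ord (x.submatrix id σ').det ≤ b * v.minOrd F + v.ord (g.submatrix id τ).det := by
  classical
  obtain ⟨σ, hσ, hσge, hint⟩ := v.exists_min_minor g hg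
  set μ := v.minOrd F with hμ
  set G : Matrix (Fin b) (Fin b) L := g.submatrix id σ with hG
  have hGu : IsUnit G.det := isUnit_iff_ne_zero.2 hσ
  set y : Matrix (Fin b) υ L := G⁻¹ * g with hy
  set w : L := v.unif ^ (-μ) with hw
  have hw0 : w ≠ 0 := zpow_ne_zero _ v.unif_ne_zero
  have hword : v.ord w = -μ := by rw [hw, v.ord_zpow, v.ord_unif, mul_one]
  set X' : Matrix (Fin b) α L := w • (G⁻¹ * x) with hX'
  set m₀ : α → X₀ → k := fun (i : α) (x : X₀) => m i (Sum.inl x) with hm₀
  have hevX : ∀ j, ∀ z : X₀, evL m₀ (X' j) z = w * pairing F (pt (Sum.inl z)) * evL u (y j) z := by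
    intro j z
    have h1 : X' j = w • (G⁻¹ * x) j := rfl
    rw [h1, evL_smul, evL_mul, hy, evL_mul, mul_assoc, Finset.mul_sum (a := pairing F _)]
    congr 1
    refine Finset.sum_congr rfl fun l _ => ?_
    rw [hxg]; ring
  have hwφ : ∀ z : X₀, w * pairing F (pt (Sum.inl z)) ∈ v.ge 0 := by
    intro z
    have h1 := v.mul_mem_ge (v.mem_ge_ord w) (pairing_mem_ge v (fun i => v.mem_ge_minOrd F i)
      (pt (Sum.inl z)))
    rwa [hword, neg_add_cancel] at h1
  have hevge : ∀ j, ∀ z : X₀, evL m₀ (X' j) z ∈ v.ge 0 := by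
    intro j z
    rw [hevX]
    have := v.mul_mem_ge (hwφ z) (evL_mem_ge v (fun l => hint j l) z (m := u))
    rwa [add_zero] at this
  obtain ⟨κ, hκ⟩ := exists_dual_fn D.hm
  have hX'ge : ∀ j i, X' j i ∈ v.ge 0 := by
    intro j i
    rw [evL_dual hκ (X' j) i]
    refine v.sum_mem_ge' _ _ _ fun z _ => ?_
    have := v.mul_mem_ge (v.algebraMap_mem_ge (κ i z)) (hevge j z)
    rwa [add_zero] at this
  obtain ⟨σ', hσ'0, hσ'ord⟩ := v.exists_unit_minor X' hX'ge (by
    intro c hc
    -- residues
    have hres : ∀ j l, ∃ r : k, y j l - algebraMap k L r ∈ v.ge 1 := fun j l =>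
      v.exists_residue (hint j l)
    choose r hr using hres
    have hres2 : ∀ i, ∃ r : k, w * F i - algebraMap k L r ∈ v.ge 1 := by
      intro i
      apply v.exists_residue
      have h1 := v.mul_mem_ge (v.mem_ge_ord w) (v.mem_ge_minOrd F i)
      rwa [hword, neg_add_cancel] at h1
    choose c' hc' using hres2
    have hc'2 : ∀ i, F i - v.unif ^ v.minOrd F * algebraMap k L (c' i) ∈ v.ge (v.minOrd F + 1) := by
      intro i
      have h1 : v.unif ^ μ ∈ v.ge μ := by
        apply v.mem_ge_of_le
        rw [v.ord_zpow, v.ord_unif, mul_one]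
      have h2 := v.mul_mem_ge h1 (hc' i)
      have h3 : v.unif ^ μ * (w * F i - algebraMap k L (c' i)) =
          F i - v.unif ^ μ * algebraMap k L (c' i) := by
        rw [mul_sub, ← mul_assoc, hw, ← zpow_add₀ v.unif_ne_zero, add_neg_cancel, zpow_zero,
          one_mul]
      rwa [h3] at h2
    have hzero : (fun l => ∑ j, c j * r j l) = 0 := by
      apply D.hred v c' hc'2
      intro z
      apply v.algebraMap_mem_ge_one
      set A : L := w * pairing F (pt (Sum.inl z)) with hA
      set A' : k := ∑ i, c' i * pt (Sum.inl z) i with hA'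
      set B : L := ∑ j, algebraMap k L (c j) * evL u (y j) z with hB
      set B' : k := ∑ l, (∑ j, c j * r j l) * u l z with hB'
      have h1 : A - algebraMap k L A' ∈ v.ge 1 := by
        have h2 : A - algebraMap k L A' =
            ∑ i, (w * F i - algebraMap k L (c' i)) * algebraMap k L (pt (Sum.inl z) i) := by
          rw [hA, hA', pairing, Finset.mul_sum, map_sum, ← Finset.sum_sub_distrib]
          refine Finset.sum_congr rfl fun i _ => ?_
          rw [map_mul]; ring
        rw [h2]
        refine v.sum_mem_ge' _ _ _ fun i _ => ?_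
        have := v.mul_mem_ge (hc' i) (v.algebraMap_mem_ge (pt (Sum.inl z) i))
        rwa [add_zero] at this
      have h2 : B - algebraMap k L B' ∈ v.ge 1 := by
        have h3 : B - algebraMap k L B' = ∑ j, algebraMap k L (c j) *
            ∑ l, (y j l - algebraMap k L (r j l)) * algebraMap k L (u l z) := by
          have h4 : algebraMap k L B' = ∑ j, algebraMap k L (c j) *
              ∑ l, algebraMap k L (r j l) * algebraMap k L (u l z) := by
            rw [hB', map_sum]
            simp only [map_mul, map_sum, Finset.sum_mul, Finset.mul_sum]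
            rw [Finset.sum_comm]
            refine Finset.sum_congr rfl fun j _ => Finset.sum_congr rfl fun l _ => ?_
            ring
          rw [h4, hB, ← Finset.sum_sub_distrib]
          refine Finset.sum_congr rfl fun j _ => ?_
          rw [← mul_sub, evL, ← Finset.sum_sub_distrib]
          congr 1
          refine Finset.sum_congr rfl fun l _ => ?_
          ring
        rw [h3]
        refine v.sum_mem_ge' _ _ _ fun j _ => ?_
        have h5 : ∑ l, (y j l - algebraMap k L (r j l)) * algebraMap k L (u l z) ∈ v.ge 1 := by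
          refine v.sum_mem_ge' _ _ _ fun l _ => ?_
          have := v.mul_mem_ge (hr j l) (v.algebraMap_mem_ge (u l z))
          rwa [add_zero] at this
        have := v.mul_mem_ge (v.algebraMap_mem_ge (c j)) h5
        rwa [zero_add] at this
      have h3 : A * B ∈ v.ge 1 := by
        have h4 : A * B = ∑ i, (∑ j, algebraMap k L (c j) * X' j i) *
            algebraMap k L (m₀ i z) := by
          have h5 : A * B = ∑ j, algebraMap k L (c j) * evL m₀ (X' j) z := by
            rw [hB, Finset.mul_sum]
            refine Finset.sum_congr rfl fun j _ => ?_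
            rw [hevX]; ring
          rw [h5]
          simp only [evL, Finset.mul_sum, Finset.sum_mul]
          rw [Finset.sum_comm]
          refine Finset.sum_congr rfl fun i _ => Finset.sum_congr rfl fun j _ => ?_
          ring
        rw [h4]
        refine v.sum_mem_ge' _ _ _ fun i _ => ?_
        have := v.mul_mem_ge (hc i) (v.algebraMap_mem_ge (m₀ i z))
        rwa [add_zero] at this
      have h4 : algebraMap k L (A' * B') = A * B - A * (B - algebraMap k L B') -
          (A - algebraMap k L A') * algebraMap k L B' := by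
        rw [map_mul]; ring
      rw [h4]
      refine sub_mem (sub_mem h3 ?_) ?_
      · have := v.mul_mem_ge (hwφ z) h2
        rwa [zero_add] at this
      · have := v.mul_mem_ge h1 (v.algebraMap_mem_ge B')
        rwa [add_zero] at this
    funext j₀
    have h1 := congrFun hzero (σ j₀)
    have h2 : ∀ j, r j (σ j₀) = if j = j₀ then 1 else 0 := by
      intro j
      have h3 : y j (σ j₀) = (1 : Matrix (Fin b) (Fin b) L) j j₀ := by
        have h4 : G⁻¹ * G = 1 := Matrix.nonsing_inv_mul _ hGu
        rw [← h4]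
        rfl
      have h5 := hr j (σ j₀)
      rw [h3, Matrix.one_apply] at h5
      have h6 : (if j = j₀ then (1 : L) else 0) - algebraMap k L (r j (σ j₀)) =
          algebraMap k L ((if j = j₀ then 1 else 0) - r j (σ j₀)) := by
        rw [map_sub]
        split_ifs <;> simp
      rw [h6] at h5
      have := v.algebraMap_mem_ge_one h5
      exact (sub_eq_zero.1 this).symm
    simp only [h2, mul_ite, mul_one, mul_zero, Finset.sum_ite_eq', Finset.mem_univ, if_true,
      Pi.zero_apply] at h1
    exact h1)
  have hdet : (X'.submatrix id σ').det = w ^ b * (G.det)⁻¹ * (x.submatrix id σ').det := by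
    have h1 : X'.submatrix id σ' = w • (G⁻¹ * x.submatrix id σ') := rfl
    rw [h1, Matrix.det_smul, Matrix.det_mul, Matrix.det_nonsing_inv, Fintype.card_fin,
      Ring.inverse_eq_inv', mul_assoc]
  have hx0 : (x.submatrix id σ').det ≠ 0 := by
    intro h0
    rw [hdet, h0, mul_zero] at hσ'0
    exact hσ'0 rfl
  refine ⟨σ', hx0, ?_⟩
  rw [hdet, v.ord_mul _ _ (mul_ne_zero (pow_ne_zero _ hw0) (inv_ne_zero hσ)) hx0,
    v.ord_mul _ _ (pow_ne_zero _ hw0) (inv_ne_zero hσ), v.ord_pow, v.ord_inv, hword] at hσ'ord
  have h1 := v.le_ord_of_mem (hσge τ) hτ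
  have h2 : (b : ℤ) * -μ = -(b * μ) := by ring
  rw [h2] at hσ'ord
  have h3 : v.ord G.det = v.ord (g.submatrix id σ).det := rfl
  linarith

theorem supp_exc {F : ι → L} {p : ι → k} : {v : Place k L | exc v F p ≠ 0}.Finite := by
  refine supp_of_imp ((supp_ord (k := k) (pairing F p)).union (supp_minOrd (k := k) F)) ?_
  intro v hv
  simp only [Set.mem_union, Set.mem_ofPred_eq, not_or, not_not] at hv
  unfold exc
  rw [hv.1, hv.2]
  rfl

/-- **The main inequality**, linear algebra form. -/
theorem MIData.main {F : ι → L} {t : L} (ht : Transcendental k t) {pt : X₀ ⊕ Γ → ι → k}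
    {m : α → X₀ ⊕ Γ → k} {u : υ → X₀ → k} (D : MIData k F (fun i => der ht (F i)) pt m u) :
    ∑ p : Γ, ∑ᶠ v : Place k L, exc v F (pt (Sum.inr p)) ≤
      (Fintype.card α - Module.finrank L (kerK F (fun i => der ht (F i)) pt m)) *
        (2 * htP k F + chi k L) := by
  classical
  set F' : ι → L := fun i => der ht (F i) with hF'
  have S := D.setup
  generalize hb : Module.finrank L (kerK F F' pt m) = b at S ⊢
  obtain ⟨x, x', g, hx, hg, hrel, hxg, hxV⟩ := S
  have hble : b ≤ Fintype.card α := by
    have := Submodule.finrank_le (kerK F F' pt m)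
    rwa [Module.finrank_fintype_fun_eq_card, hb] at this
  obtain ⟨σ₀, hσ₀⟩ := exists_minor_ne_zero x hx
  obtain ⟨ε, hε⟩ := exists_sum_equiv (injective_of_minor hσ₀)
  obtain ⟨τ, hτ⟩ := exists_minor_ne_zero g hg
  have hE0 : exE x ε (coordRows ε) ≠ 0 := by
    have h1 := exE_coordRows x ε ε
    have h2 : (x.submatrix id fun j => ε (Sum.inl j)) = x.submatrix id σ₀ := by
      ext i j
      simp [hε]
    rw [h2] at h1
    rcases h1 with h1 | h1
    · rw [h1]; exact hσ₀
    · rw [h1]; exact neg_ne_zero.2 hσ₀
  obtain ⟨cols, hinj, hsub, hF0⟩ := D.columns hxV ε hE0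
  set c : L := exF (Phi F pt m) (Phi F' pt m) cols (coordRows ε) / exE x ε (coordRows ε) with hc
  have hc0 : c ≠ 0 := div_ne_zero hF0 hE0
  set θ := (g.submatrix id τ).det with hθ
  -- the local inequality
  have hlocal : ∀ v : Place k L,
      ((Fintype.card α - b : ℕ) : ℤ) * (2 * v.minOrd F - v.ord (v.dv t)) +
        ∑ p : Γ, exc v F (pt (Sum.inr p)) ≤ v.ord (c * θ) := by
    intro v
    obtain ⟨σ', hσ'0, hσ'⟩ := D.local_E v hg hxg τ hτ
    obtain ⟨ε', hε'⟩ := exists_sum_equiv (injective_of_minor hσ'0)
    have h1 := exE_coordRows x ε ε'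
    have h2 : (x.submatrix id fun j => ε' (Sum.inl j)) = x.submatrix id σ' := by
      ext i j
      simp [hε']
    rw [h2] at h1
    have hE1 : exE x ε (coordRows ε') ≠ 0 ∧
        v.ord (exE x ε (coordRows ε')) = v.ord (x.submatrix id σ').det := by
      rcases h1 with h1 | h1
      · rw [h1]; exact ⟨hσ'0, rfl⟩
      · rw [h1, v.ord_neg]; exact ⟨neg_ne_zero.2 hσ'0, rfl⟩
    have h3 := exchange hrel ε cols (coordRows ε) (coordRows ε') hE0
    have h4 : exF (Phi F pt m) (Phi F' pt m) cols (coordRows ε') =
        c * exE x ε (coordRows ε') := by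
      rw [hc, div_mul_eq_mul_div, eq_div_iff hE0, h3]; ring
    have h5 := local_F ht D.hφ v hinj hsub (coordRows ε') (by
      intro l i
      unfold coordRows
      split_ifs
      · exact v.one_mem_ge
      · exact zero_mem _) (m := m)
    rw [h4] at h5
    have h6 := v.le_ord_of_mem h5 (mul_ne_zero hc0 hE1.1)
    rw [v.ord_mul _ _ hc0 hE1.1, hE1.2] at h6
    rw [v.ord_mul _ _ hc0 hτ]
    have h7 : ((Fintype.card α - b : ℕ) : ℤ) = (Fintype.card α : ℤ) - b := by
      rw [Nat.cast_sub hble]
    rw [h7] at h6 ⊢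
    linarith
  -- summation
  have hsum := fs_mono (f := fun v : Place k L =>
      ((Fintype.card α - b : ℕ) : ℤ) * (2 * v.minOrd F - v.ord (v.dv t)) +
        ∑ p : Γ, exc v F (pt (Sum.inr p))) (g := fun v => v.ord (c * θ)) ?_ (supp_ord _) hlocal
  · rw [finsum_ord, fs_add, fs_const_mul, fs_sub, fs_const_mul, finsum_ord_dv ht, fs_sum] at hsum
    · have h1 : htP k F = - ∑ᶠ v : Place k L, v.minOrd F := by
        unfold htP
        rw [fs_neg]
      have h7 : ((Fintype.card α - b : ℕ) : ℤ) = (Fintype.card α : ℤ) - b := by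
        rw [Nat.cast_sub hble]
      rw [h7] at hsum
      rw [h1]
      linarith
    · exact fun p _ => supp_exc
    · exact supp_const_mul _ (supp_minOrd F)
    · exact finite_ord_dv_ne_zero ht
    · exact supp_const_mul _ (supp_sub (supp_const_mul _ (supp_minOrd F))
        (finite_ord_dv_ne_zero ht))
    · exact supp_sum _ _ fun p _ => supp_exc
  · exact supp_add (supp_const_mul _ (supp_sub (supp_const_mul _ (supp_minOrd F))
      (finite_ord_dv_ne_zero ht))) (supp_sum _ _ fun p _ => supp_exc)

end

end Pool.Agent.Helper11
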