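import Pool.Agent.Helper11.FunFieldBasic

namespace Pool.Agent.Helper11

open IntermediateField Polynomial IsDedekindDomain

open scoped IntermediateField.algebraAdjoinAdjoin

section model

variable (k : Type*) {L : Type*} [Field k] [Field L] [Algebra k L] (x : L)

/-- the polynomial ring `k[x]` inside `L` -/
abbrev Rx : Subalgebra k L := Algebra.adjoin k {x}

/-- the integral closure of `k[x]` in `L` -/
abbrev Ox : Subalgebra (Rx k x) L := integralClosure (Rx k x) L

/-- `x` as an element of `k[x]` -/
def xR : Rx k x := ⟨x, Algebra.self_mem_adjoin_singleton k x⟩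

variable {x}

theorem isPrincipalIdealRing_Rx (hx : Transcendental k x) : IsPrincipalIdealRing (Rx k x) := by
  let e := Polynomial.algEquivOfTranscendental k x hx
  exact IsPrincipalIdealRing.of_surjective e.toRingHom e.surjective

theorem isDedekindDomain_Rx (hx : Transcendental k x) : IsDedekindDomain (Rx k x) := by
  have := isPrincipalIdealRing_Rx k hx
  infer_instance

variable [FunField k L]

theorem isFractionRing_Ox (hx : Transcendental k x) : IsFractionRing (Ox k x) L := by
  have := FunField.finiteDimensional_adjoin hx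
  exact integralClosure.isFractionRing_of_finite_extension k⟮x⟯ L

variable [CharZero k]

theorem isDedekindDomain_Ox (hx : Transcendental k x) : IsDedekindDomain (Ox k x) := by
  have := isDedekindDomain_Rx k hx
  have := FunField.finiteDimensional_adjoin hx
  have : CharZero k⟮x⟯ := charZero_of_injective_algebraMap (algebraMap k k⟮x⟯).injective
  exact integralClosure.isDedekindDomain (Rx k x) k⟮x⟯ L

theorem finite_Ox (hx : Transcendental k x) : Module.Finite (Rx k x) (Ox k x) := by
  have := isDedekindDomain_Rx k hx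
  have := FunField.finiteDimensional_adjoin hx
  have : CharZero k⟮x⟯ := charZero_of_injective_algebraMap (algebraMap k k⟮x⟯).injective
  exact IsIntegralClosure.finite (Rx k x) k⟮x⟯ L (Ox k x)

end model

section places

variable {k L : Type*} [Field k] [Field L] [Algebra k L] [FunField k L] [CharZero k] {x : L}
  [hxF : Fact (Transcendental k x)]

instance : IsDedekindDomain (Rx k x) := isDedekindDomain_Rx k hxF.out
instance : IsDedekindDomain (Ox k x) := isDedekindDomain_Ox k hxF.out
omit [CharZero k] in
instance : IsFractionRing (Ox k x) L := isFractionRing_Ox k hxF.out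
instance : Module.Finite (Rx k x) (Ox k x) := finite_Ox k hxF.out

theorem valuation_algebraMap_le_one (P : HeightOneSpectrum (Ox k x)) (c : k) :
    P.valuation L (algebraMap k L c) ≤ 1 := by
  have h : algebraMap k L c = algebraMap (Ox k x) L (algebraMap (Rx k x) (Ox k x) (algebraMap k (Rx k x) c)) := rfl
  rw [h]
  exact P.valuation_le_one _

/-- the place attached to a prime of the integral closure of `k[x]` -/
noncomputable def placeOfPrime (P : HeightOneSpectrum (Ox k x)) : Place k L where
  ord y := -(P.valuation L y).log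
  ord_zero := by simp
  ord_mul y z hy hz := by
    rw [map_mul, WithZero.log_mul ((Valuation.ne_zero_iff _).2 hy) ((Valuation.ne_zero_iff _).2 hz)]
    ring
  ord_add y z hy hz hyz := by
    have hy' := (Valuation.ne_zero_iff (P.valuation L)).2 hy
    have hz' := (Valuation.ne_zero_iff (P.valuation L)).2 hz
    have hyz' := (Valuation.ne_zero_iff (P.valuation L)).2 hyz
    have := (P.valuation L).map_add y z
    rcases le_max_iff.1 this with h | h
    · exact min_le_iff.2 (Or.inl (neg_le_neg ((WithZero.log_le_log hyz' hy').2 h)))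
    · exact min_le_iff.2 (Or.inr (neg_le_neg ((WithZero.log_le_log hyz' hz').2 h)))
  ord_algebraMap c := by
    by_cases hc : c = 0
    · simp [hc]
    · have h1 := valuation_algebraMap_le_one P c
      have h2 := valuation_algebraMap_le_one P c⁻¹
      rw [map_inv₀, map_inv₀] at h2
      have h3 : P.valuation L (algebraMap k L c) ≠ 0 := (Valuation.ne_zero_iff _).2 (by simpa using hc)
      have h4 : P.valuation L (algebraMap k L c) = 1 := by
        apply le_antisymm h1
        exact (inv_le_one₀ (zero_lt_iff.2 h3)).1 h2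
      rw [h4]; simp
  exists_ord_eq_one := by
    obtain ⟨π, hπ⟩ := P.valuation_exists_uniformizer L
    exact ⟨π, by rw [hπ]; simp⟩

theorem placeOfPrime_ord (P : HeightOneSpectrum (Ox k x)) (y : L) :
    (placeOfPrime P).ord y = -(P.valuation L y).log := rfl

omit [FunField k L] [CharZero k] hxF in
theorem Place.mem_ge_of_mem_Rx (v : Place k L) (hv : x ∈ v.ge 0) (a : Rx k x) : (a : L) ∈ v.ge 0 := by
  obtain ⟨a, ha⟩ := a
  obtain ⟨p, rfl⟩ := Algebra.adjoin_mem_exists_aeval _ _ ha
  simp only
  rw [Polynomial.aeval_eq_sum_range]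
  refine sum_mem fun i _ => v.smul_mem_ge _ ?_
  have := v.pow_mem_ge hv i
  rwa [mul_zero] at this

omit [FunField k L] [CharZero k] hxF in
theorem Place.mem_ge_of_mem_Ox (v : Place k L) (hv : x ∈ v.ge 0) (a : Ox k x) : (a : L) ∈ v.ge 0 := by
  obtain ⟨a, ha⟩ := a
  obtain ⟨p, hp, hpa⟩ := ha
  simp only
  by_contra hcon
  have ha0 : a ≠ 0 := by
    rintro rfl; exact hcon (zero_mem _)
  have hlt : v.ord a < 0 := by
    by_contra h
    exact hcon (Or.inr (not_lt.1 h))
  set n := p.natDegree with hn
  have hnpos : 0 < n := by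
    rcases Nat.eq_zero_or_pos n with h | h
    · exfalso
      rw [hn, hp.natDegree_eq_zero] at h
      rw [h] at hpa
      simp at hpa
    · exact h
  have h1 : a ^ n = - ∑ i ∈ Finset.range n, (p.coeff i : L) * a ^ i := by
    rw [hp.as_sum, Polynomial.eval₂_add, Polynomial.eval₂_pow, Polynomial.eval₂_X,
      Polynomial.eval₂_finsetSum] at hpa
    simp only [Polynomial.eval₂_mul, Polynomial.eval₂_C, Polynomial.eval₂_pow, Polynomial.eval₂_X] at hpa
    rw [← hn] at hpa
    exact eq_neg_of_add_eq_zero_left hpa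
  have h2 : a ^ n ∈ v.ge ((n - 1 : ℤ) * v.ord a) := by
    rw [h1]
    refine neg_mem (sum_mem fun i hi => ?_)
    have h3 := v.mul_mem_ge (v.mem_ge_of_mem_Rx hv (p.coeff i)) (v.pow_mem_ge (v.mem_ge_ord a) i)
    refine v.ge_anti ?_ h3
    have h4 : (i : ℤ) ≤ n - 1 := by
      have := Finset.mem_range.1 hi
      omega
    nlinarith
  have h3 := v.le_ord_of_mem h2 (pow_ne_zero _ ha0)
  rw [v.ord_pow] at h3
  nlinarith

/-- the center of a place on the integral closure of `k[x]` -/
def Place.centerIdeal (v : Place k L) (hv : x ∈ v.ge 0) : Ideal (Ox k x) where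
  carrier := {a | (a : L) ∈ v.ge 1}
  zero_mem' := by
    change ((0 : Ox k x) : L) ∈ v.ge 1
    exact (v.ge 1).zero_mem
  add_mem' := by
    intro a b ha hb
    change ((a + b : Ox k x) : L) ∈ v.ge 1
    simpa using (v.ge 1).add_mem ha hb
  smul_mem' := by
    intro c a ha
    change ((c * a : Ox k x) : L) ∈ v.ge 1
    have := v.mul_mem_ge (v.mem_ge_of_mem_Ox hv c) ha
    simpa using this

omit [FunField k L] [CharZero k] hxF in
theorem Place.mem_centerIdeal (v : Place k L) (hv : x ∈ v.ge 0) (a : Ox k x) :
    a ∈ v.centerIdeal hv ↔ (a : L) ∈ v.ge 1 := Iff.rfl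

omit [FunField k L] [CharZero k] hxF in
theorem Place.ord_eq_zero_of_notMem (v : Place k L) (hv : x ∈ v.ge 0) (a : Ox k x)
    (ha : a ∉ v.centerIdeal hv) : v.ord (a : L) = 0 := by
  rw [v.mem_centerIdeal, v.mem_ge] at ha
  push Not at ha
  have := v.le_ord_of_mem (v.mem_ge_of_mem_Ox hv a) ha.1
  omega

omit [CharZero k] in
theorem Place.centerIdeal_ne_bot (v : Place k L) (hv : x ∈ v.ge 0) : v.centerIdeal hv ≠ ⊥ := by
  obtain ⟨a, b, hb, hab⟩ := IsFractionRing.div_surjective (A := Ox k x) v.unif
  have hb0 : (b : L) ≠ 0 := by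
    intro h
    exact nonZeroDivisors.ne_zero hb (Subtype.ext h)
  have ha0 : (a : L) ≠ 0 := by
    intro h
    have : algebraMap (Ox k x) L a = (a : L) := rfl
    rw [this, h, zero_div] at hab
    exact v.unif_ne_zero hab.symm
  have h1 : v.ord (a : L) - v.ord (b : L) = 1 := by
    rw [← v.ord_div ha0 hb0, ← v.ord_unif, ← hab]; rfl
  have h2 := v.le_ord_of_mem (v.mem_ge_of_mem_Ox hv b) hb0
  intro hbot
  have h3 : a ∈ v.centerIdeal hv := Or.inr (by omega)
  rw [hbot, Ideal.mem_bot] at h3
  exact ha0 (by rw [h3]; rfl)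

omit [FunField k L] [CharZero k] hxF in
theorem Place.centerIdeal_isPrime (v : Place k L) (hv : x ∈ v.ge 0) : (v.centerIdeal hv).IsPrime := by
  refine ⟨?_, ?_⟩
  · rw [Ne, Ideal.eq_top_iff_one, v.mem_centerIdeal]
    intro h
    have := v.le_ord_of_mem h (by simp)
    have h1 : v.ord (((1 : Ox k x)) : L) = 0 := by
      simpa using v.ord_one
    omega
  · intro a b hab
    by_contra hcon
    push Not at hcon
    have h1 := v.ord_eq_zero_of_notMem hv a hcon.1
    have h2 := v.ord_eq_zero_of_notMem hv b hcon.2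
    have ha0 : (a : L) ≠ 0 := by
      intro h; exact hcon.1 (Or.inl h)
    have hb0 : (b : L) ≠ 0 := by
      intro h; exact hcon.2 (Or.inl h)
    rw [v.mem_centerIdeal] at hab
    have h3 : ((a * b : Ox k x) : L) = (a : L) * (b : L) := rfl
    rw [h3] at hab
    have := v.le_ord_of_mem hab (mul_ne_zero ha0 hb0)
    rw [v.ord_mul _ _ ha0 hb0] at this
    omega

/-- the center of a place, as a point of the height one spectrum -/
def Place.center (v : Place k L) (hv : x ∈ v.ge 0) : HeightOneSpectrum (Ox k x) where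
  asIdeal := v.centerIdeal hv
  isPrime := v.centerIdeal_isPrime hv
  ne_bot := v.centerIdeal_ne_bot hv

theorem Place.eq_placeOfPrime_center (v : Place k L) (hv : x ∈ v.ge 0) :
    v = placeOfPrime (v.center hv) := by
  set P := v.center hv with hP
  have key0 : ∀ y : L, P.valuation L y = 1 → v.ord y = 0 := by
    intro y hy
    obtain ⟨n, d, hnd⟩ := P.exists_primeCompl_mul_eq_of_integer y hy.le
    have hd : (d : Ox k x) ∉ v.centerIdeal hv := d.2
    have hd1 := v.ord_eq_zero_of_notMem hv _ hd
    have hvd : P.valuation L (algebraMap (Ox k x) L d) = 1 :=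
      (P.valuation_eq_one_iff_notMem (K := L)).2 hd
    have hvn : P.valuation L (algebraMap (Ox k x) L n) = 1 := by
      rw [← hnd, map_mul, hy, hvd, one_mul]
    have hn : n ∉ v.centerIdeal hv := (P.valuation_eq_one_iff_notMem (K := L)).1 hvn
    have hn1 := v.ord_eq_zero_of_notMem hv _ hn
    have hy0 : y ≠ 0 := by
      rintro rfl; simp at hy
    have hd0 : ((d : Ox k x) : L) ≠ 0 := by
      intro h; exact hd (Or.inl h)
    have h3 := v.ord_mul y ((d : Ox k x) : L) hy0 hd0
    have h4 : y * ((d : Ox k x) : L) = (n : L) := hnd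
    rw [h4, hn1, hd1] at h3
    omega
  obtain ⟨π, hπ⟩ := P.valuation_exists_uniformizer L
  have hπ0 : π ≠ 0 := by
    rintro rfl
    rw [map_zero] at hπ
    exact WithZero.exp_ne_zero hπ.symm
  have key1 : ∀ y : L, y ≠ 0 → v.ord y = (placeOfPrime P).ord y * v.ord π := by
    intro y hy
    set n := (placeOfPrime P).ord y with hn
    rw [placeOfPrime_ord] at hn
    have h1 : P.valuation L (y * π ^ (-n)) = 1 := by
      have h2 : P.valuation L y = WithZero.exp (-n) := by
        rw [hn, neg_neg, WithZero.exp_log ((Valuation.ne_zero_iff _).2 hy)]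
      rw [map_mul, map_zpow₀, h2, hπ, ← WithZero.exp_zsmul, ← WithZero.exp_add]
      simp
    have h2 := key0 _ h1
    rw [v.ord_mul _ _ hy (zpow_ne_zero _ hπ0), v.ord_zpow] at h2
    linarith
  have hm : v.ord π = 1 := by
    have h1 := key1 v.unif v.unif_ne_zero
    rw [v.ord_unif] at h1
    have h2 : 0 ≤ v.ord π := by
      obtain ⟨n, d, hnd⟩ := P.exists_primeCompl_mul_eq_of_integer π (by rw [hπ, ← WithZero.exp_zero, WithZero.exp_le_exp]; decide)
      have hd : (d : Ox k x) ∉ v.centerIdeal hv := d.2
      have hd1 := v.ord_eq_zero_of_notMem hv _ hd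
      have hd0 : ((d : Ox k x) : L) ≠ 0 := by
        intro h; exact hd (Or.inl h)
      have h3 := v.ord_mul π ((d : Ox k x) : L) hπ0 hd0
      have h4 : π * ((d : Ox k x) : L) = (n : L) := hnd
      have h5 : (n : L) ≠ 0 := by
        rw [← h4]; exact mul_ne_zero hπ0 hd0
      have h6 := v.le_ord_of_mem (v.mem_ge_of_mem_Ox hv n) h5
      rw [h4] at h3
      omega
    have h3 : v.ord π ∣ 1 := ⟨_, by rw [h1]; ring⟩
    have h4 := Int.isUnit_iff.1 (isUnit_of_dvd_one h3)
    omega
  ext y
  by_cases hy : y = 0
  · rw [hy, v.ord_zero, (placeOfPrime P).ord_zero]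
  · rw [key1 y hy, hm, mul_one]

end places

end Pool.Agent.Helper11
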