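import Pool.Agent.Helper11.OscLower

set_option linter.unusedSectionVars false

namespace Pool.Agent.Helper11

open Polynomial

/-- the monic polynomial `X ^ n + ∑ f_j X ^ j` -/
noncomputable def monicOf {R : Type*} [CommRing R] {n : ℕ} (f : Fin n → R) : R[X] :=
  X ^ n + ∑ j : Fin n, C (f j) * X ^ (j : ℕ)

section alg

variable {R : Type*} [CommRing R] {n : ℕ} (f : Fin n → R)

theorem coeff_sum_monicOf (i : ℕ) :
    (∑ j : Fin n, C (f j) * X ^ (j : ℕ)).coeff i = if h : i < n then f ⟨i, h⟩ else 0 := by
  classical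
  rw [finsetSum_coeff]
  simp only [coeff_C_mul_X_pow]
  split_ifs with h
  · rw [Finset.sum_eq_single ⟨i, h⟩]
    · simp
    · intro b _ hb
      rw [if_neg]
      intro h'
      exact hb (Fin.ext h'.symm)
    · intro h'; exact absurd (Finset.mem_univ _) h'
  · refine Finset.sum_eq_zero fun b _ => ?_
    rw [if_neg]
    intro h'
    exact h (by rw [h']; exact b.2)

theorem coeff_monicOf_lt {i : ℕ} (h : i < n) : (monicOf f).coeff i = f ⟨i, h⟩ := by
  rw [monicOf, coeff_add, coeff_X_pow, if_neg (by omega), zero_add, coeff_sum_monicOf, dif_pos h]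

theorem coeff_monicOf_self : (monicOf f).coeff n = 1 := by
  rw [monicOf, coeff_add, coeff_X_pow, if_pos rfl, coeff_sum_monicOf, dif_neg (lt_irrefl _),
    add_zero]

theorem coeff_monicOf_gt {i : ℕ} (h : n < i) : (monicOf f).coeff i = 0 := by
  rw [monicOf, coeff_add, coeff_X_pow, if_neg (by omega), coeff_sum_monicOf, dif_neg (by omega),
    add_zero]

theorem natDegree_monicOf_le : (monicOf f).natDegree ≤ n :=
  natDegree_le_iff_coeff_eq_zero.2 fun _ h => coeff_monicOf_gt f h

theorem natDegree_monicOf [Nontrivial R] : (monicOf f).natDegree = n :=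
  le_antisymm (natDegree_monicOf_le f)
    (le_natDegree_of_ne_zero (by rw [coeff_monicOf_self]; exact one_ne_zero))

theorem monic_monicOf [Nontrivial R] : (monicOf f).Monic := by
  rw [Monic, leadingCoeff, natDegree_monicOf, coeff_monicOf_self]

theorem eval_monicOf (x : R) : (monicOf f).eval x = x ^ n + ∑ j, f j * x ^ (j : ℕ) := by
  rw [monicOf, eval_add, eval_pow, eval_X, eval_finsetSum]
  simp

theorem eq_monicOf [Nontrivial R] {P : R[X]} (hP : P.Monic) (hn : P.natDegree = n) :
    P = monicOf (fun j : Fin n => P.coeff j) := by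
  ext i
  rcases lt_trichotomy i n with h | h | h
  · rw [coeff_monicOf_lt _ h]
  · rw [h, coeff_monicOf_self, ← hn]; exact hP
  · rw [coeff_monicOf_gt _ h, coeff_eq_zero_of_natDegree_lt (by omega)]

theorem map_monicOf {S : Type*} [CommRing S] (φ : R →+* S) :
    (monicOf f).map φ = monicOf (fun j => φ (f j)) := by
  simp [monicOf, Polynomial.map_sum]

end alg

theorem coeffVec_monicOf {L : Type*} [Field L] {n : ℕ} (f : Fin n → L) :
    coeffVec n (monicOf f) = Fin.snoc f 1 := by
  ext j
  refine Fin.lastCases ?_ (fun i => ?_) j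
  · rw [Fin.snoc_last]
    show (monicOf f).coeff (Fin.last n : ℕ) = 1
    rw [Fin.val_last]; exact coeff_monicOf_self f
  · rw [Fin.snoc_castSucc]
    show (monicOf f).coeff (Fin.castSucc i : ℕ) = f i
    rw [Fin.val_castSucc, coeff_monicOf_lt f i.2]

/-- the generic discriminant (as a polynomial in the coefficients) -/
noncomputable def discPoly (F : Type*) [Field F] (n : ℕ) : MvPolynomial (Fin n) F :=
  resultant (monicOf (fun j => MvPolynomial.X j)) (derivative (monicOf (fun j => MvPolynomial.X j)))
    n n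

theorem aeval_discPoly {F : Type*} [Field F] {n : ℕ} {L : Type*} [Field L] [Algebra F L]
    (f : Fin n → L) : MvPolynomial.aeval f (discPoly F n) =
      resultant (monicOf f) (derivative (monicOf f)) n n := by
  set Pg : (MvPolynomial (Fin n) F)[X] := monicOf (fun j => MvPolynomial.X j) with hPg
  have h1 := resultant_map_map Pg (derivative Pg) n n
    (MvPolynomial.aeval f : MvPolynomial (Fin n) F →ₐ[F] L).toRingHom
  rw [← derivative_map] at h1
  have h2 : Pg.map (MvPolynomial.aeval f : MvPolynomial (Fin n) F →ₐ[F] L).toRingHom =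
      monicOf f := by
    rw [hPg, map_monicOf]
    congr 1
    ext j
    simp
  rw [h2] at h1
  exact h1.symm

theorem discPoly_ne_zero (F : Type*) [Field F] [CharZero F] (n : ℕ) : discPoly F n ≠ 0 := by
  -- a separable specialization
  set P : F[X] := prodPoly (fun j => (j : F)) n with hP
  have hPm : P.Monic := prodPoly_monic _ _
  have hPd : P.natDegree = n := prodPoly_natDegree _ _
  have hsep : P.Separable := by
    rw [hP, prodPoly]
    refine separable_prod_X_sub_C_iff'.2 fun x _ y _ hxy => ?_
    exact Nat.cast_injective hxy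
  have hcop : IsCoprime P (derivative P) := hsep
  have h1 := resultant_ne_zero P _ hcop
  have h2 : (derivative P).natDegree ≤ n := by
    have := natDegree_derivative_le P
    omega
  have h3 := resultant_add_right_deg P (derivative P) P.natDegree
    (derivative P).natDegree (n - (derivative P).natDegree) le_rfl
  rw [Nat.add_sub_cancel' h2, coeff_natDegree, hPm.leadingCoeff, one_pow, one_mul] at h3
  intro h0
  have h4 := aeval_discPoly (F := F) (L := F) (fun j : Fin n => P.coeff j)
  rw [← eq_monicOf hPm hPd, h0, map_zero] at h4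
  apply h1
  rw [← h3, hPd, ← h4]

theorem squarefree_of_discPoly {F : Type*} [Field F] {n : ℕ} (hn : 1 ≤ n) {L : Type*} [Field L]
    [Algebra F L] {f : Fin n → L} (hf : MvPolynomial.aeval f (discPoly F n) ≠ 0) :
    Squarefree (monicOf f) := by
  rw [aeval_discPoly] at hf
  have h1 := natDegree_monicOf_le f
  have h2 : (derivative (monicOf f)).natDegree ≤ n :=
    (natDegree_derivative_le _).trans (by omega)
  obtain ⟨p, q, -, -, h3⟩ := exists_mul_add_mul_eq_C_resultant (monicOf f)
    (derivative (monicOf f)) h1 h2 (Or.inl (by omega))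
  have h4 : (monicOf f).Separable := by
    refine ⟨C (resultant (monicOf f) (derivative (monicOf f)) n n)⁻¹ * p,
      C (resultant (monicOf f) (derivative (monicOf f)) n n)⁻¹ * q, ?_⟩
    calc _ = C (resultant (monicOf f) (derivative (monicOf f)) n n)⁻¹ *
          (monicOf f * p + derivative (monicOf f) * q) := by ring
      _ = 1 := by rw [h3, ← C_mul, inv_mul_cancel₀ hf, C_1]
  exact h4.squarefree

section

variable {k L : Type*} [Field k] [Field L] [Algebra k L] [FunField k L] [CharZero k]
  [IsAlgClosed k]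

theorem finite_hitS {κ : Type*} [Finite κ] (F : κ → L) (y : L) :
    (hitS F y : Set (Place k L)).Finite := by
  apply ((supp_minOrd (k := k) F).union (supp_ord (k := k) y)).subset
  intro v hv
  by_contra hcon
  rw [Set.mem_union, not_or] at hcon
  obtain ⟨h1, h2⟩ := hcon
  simp only [Set.mem_ofPred_eq, not_not] at h1 h2
  have hv' : v.minOrd F < v.ord y := hv
  omega

/-- at most `n` of the forms vanish at a place -/
theorem card_hit_le {ι : Type*} [Fintype ι] {x y : ι → k}
    (hxy : ∀ i j, i ≠ j → x j * y i - x i * y j ≠ 0) {n : ℕ} {f : L[X]} (hfdeg : f.natDegree ≤ n)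
    (hf0 : f ≠ 0) (v : Place k L) (T : Finset ι)
    (hT : ∀ i ∈ T, v ∈ (hitS (coeffVec n f)
      (homEval n f (algebraMap k L (x i)) (algebraMap k L (y i))) : Set (Place k L))) :
    T.card ≤ n := by
  classical
  by_contra hcon
  push Not at hcon
  obtain ⟨U, hUT, hUcard⟩ := Finset.exists_subset_card_eq (s := T) (n := n + 1) (by omega)
  have e : Fin (n + 1) ≃ U := (Fintype.equivFinOfCardEq (by rw [Fintype.card_coe, hUcard])).symm
  have h1 := v.coeff_mem_of_values (f := f) (x := fun a => x (e a)) (y := fun a => y (e a))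
    (n := v.minOrd (coeffVec n f) + 1) (fun a b hab => hxy _ _ fun h =>
      hab (e.injective (Subtype.ext h))) (fun a => by
      have h2 := hT (e a) (hUT (e a).2)
      have h3 : v.minOrd (coeffVec n f) < v.ord (homEval n f (algebraMap k L (x (e a)))
        (algebraMap k L (y (e a)))) := h2
      exact v.mem_ge_of_le (by omega))
  have hex : ∃ i, coeffVec n f i ≠ 0 := by
    refine ⟨⟨f.natDegree, by omega⟩, ?_⟩
    show f.coeff f.natDegree ≠ 0
    rwa [Ne, coeff_natDegree, leadingCoeff_eq_zero]
  have h2 := v.le_minOrd (coeffVec n f) hex (n := v.minOrd (coeffVec n f) + 1)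
    (fun j => h1 j (by have := j.2; omega))
  omega

theorem sum_ncard_le {α ι : Type*} [Fintype ι] {A : ι → Set α} {U : Set α} (hU : U.Finite)
    (hA : ∀ i, A i ⊆ U) (n : ℕ) (h : ∀ v, ∀ T : Finset ι, (∀ i ∈ T, v ∈ A i) → T.card ≤ n) :
    ∑ i, (A i).ncard ≤ n * U.ncard := by
  classical
  have h1 : ∀ i, (A i).ncard = ∑ v ∈ hU.toFinset, if v ∈ A i then 1 else 0 := by
    intro i
    rw [← Finset.sum_filter, Finset.sum_const, smul_eq_mul, mul_one]
    rw [Set.ncard_eq_toFinset_card (A i) (hU.subset (hA i))]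
    congr 1
    ext v
    simp only [Set.Finite.mem_toFinset, Finset.mem_filter]
    exact ⟨fun hv => ⟨hA i hv, hv⟩, fun hv => hv.2⟩
  rw [Finset.sum_congr rfl fun i _ => h1 i, Finset.sum_comm]
  have h2 : ∀ v ∈ hU.toFinset, (∑ i, if v ∈ A i then 1 else 0) ≤ n := by
    intro v _
    rw [← Finset.sum_filter, Finset.sum_const, smul_eq_mul, mul_one]
    exact h v _ fun i hi => (Finset.mem_filter.1 hi).2
  refine (Finset.sum_le_sum h2).trans ?_
  rw [Finset.sum_const, smul_eq_mul, mul_comm, Set.ncard_eq_toFinset_card U hU]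

/-- the upper bound for a nonconstant point -/
theorem osc_upper {n s : ℕ} (hs : 2 * n ≤ s + 1) {a : Fin s → k} (ha : Function.Injective a)
    {f : Fin n → L} (hsq : Squarefree (monicOf f)) (hconst : ¬ IsConstPt k (Fin.snoc f 1 :
      Fin (n + 1) → L))
    (hH : ∀ i, algebraMap k L (a i) ^ n + ∑ j, f j * algebraMap k L (a i) ^ (j : ℕ) ≠ 0) :
    ((s : ℤ) + 1 - 2 * n) * htP k (Fin.snoc f 1 : Fin (n + 1) → L) ≤
      n * (chi k L + ({v : Place k L | (∃ j, v.ord (f j) < 0) ∨
        ∃ i, 0 < v.ord (algebraMap k L (a i) ^ n +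
          ∑ j, f j * algebraMap k L (a i) ^ (j : ℕ))}.ncard : ℤ)) := by
  classical
  set ι := Option (Fin s) with hι
  set x : ι → k := fun i => i.elim 1 a with hx
  set y : ι → k := fun i => i.elim 0 (fun _ => 1) with hy
  have hxy : ∀ i j : ι, i ≠ j → x j * y i - x i * y j ≠ 0 := by
    rintro (_ | i) (_ | j) hij
    · exact absurd rfl hij
    · simp [hx, hy]
    · simp [hx, hy]
    · simp only [hx, hy, Option.elim, mul_one]
      intro h
      apply hij
      rw [ha (sub_eq_zero.1 h)]
  set P := monicOf f with hP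
  have hPm : P.Monic := monic_monicOf f
  have hPd : P.natDegree = n := natDegree_monicOf f
  have hvec : coeffVec n P = Fin.snoc f 1 := coeffVec_monicOf f
  have hhom : ∀ i, homEval n P (algebraMap k L (x (some i))) (algebraMap k L (y (some i))) =
      algebraMap k L (a i) ^ n + ∑ j, f j * algebraMap k L (a i) ^ (j : ℕ) := by
    intro i
    have h1 : algebraMap k L (y (some i)) = 1 := map_one _
    have h2 : x (some i) = a i := rfl
    rw [h1, h2, homEval_one hPd.le, hP, eval_monicOf]
  have hhom0 : homEval n P (algebraMap k L (x none)) (algebraMap k L (y none)) = 1 := by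
    have h1 : algebraMap k L (y none) = 0 := map_zero _
    have h2 : algebraMap k L (x none) = 1 := map_one _
    rw [h1, h2, homEval_zero, one_pow, mul_one, hP, coeff_monicOf_self]
  have hfH : ∀ i, homEval n P (algebraMap k L (x i)) (algebraMap k L (y i)) ≠ 0 := by
    rintro (_ | i)
    · rw [hhom0]; exact one_ne_zero
    · rw [hhom]; exact hH i
  have hcard : Fintype.card ι = s + 1 := by simp [hι]
  have h1 := osc_all hxy n (by rw [hcard]; omega) P hPm hPd hsq (by rw [hvec]; exact hconst) hfH
  set U : Set (Place k L) := {v : Place k L | (∃ j, v.ord (f j) < 0) ∨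
        ∃ i, 0 < v.ord (algebraMap k L (a i) ^ n +
          ∑ j, f j * algebraMap k L (a i) ^ (j : ℕ))} with hU
  have hUfin : U.Finite := by
    have h2 : U ⊆ (⋃ j, {v : Place k L | v.ord (f j) ≠ 0}) ∪
        ⋃ i, {v : Place k L | v.ord (algebraMap k L (a i) ^ n +
          ∑ j, f j * algebraMap k L (a i) ^ (j : ℕ)) ≠ 0} := by
      rintro v (⟨j, hj⟩ | ⟨i, hi⟩)
      · exact Or.inl (Set.mem_iUnion.2 ⟨j, hj.ne⟩)
      · exact Or.inr (Set.mem_iUnion.2 ⟨i, hi.ne'⟩)
    exact ((Set.finite_iUnion fun j => supp_ord (f j)).union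
      (Set.finite_iUnion fun i => supp_ord _)).subset h2
  have hpole : ∀ v : Place k L, v.minOrd (coeffVec n P) < 0 → ∃ j, v.ord (f j) < 0 := by
    intro v hv
    have hex : ∃ i, coeffVec n P i ≠ 0 := by
      rw [hvec]
      exact ⟨Fin.last n, by rw [Fin.snoc_last]; exact one_ne_zero⟩
    obtain ⟨i, hi, h2⟩ := v.exists_minOrd (coeffVec n P) hex
    rw [h2] at hv
    rw [hvec] at hv
    revert hv
    refine Fin.lastCases ?_ (fun j => ?_) i
    · rw [Fin.snoc_last, v.ord_one]
      intro hv; exact absurd hv (lt_irrefl _)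
    · rw [Fin.snoc_castSucc]
      intro hv; exact ⟨j, hv⟩
  have hle0 : ∀ v : Place k L, v.minOrd (coeffVec n P) ≤ 0 := by
    intro v
    have h2 : coeffVec n P (Fin.last n) ≠ 0 := by
      rw [hvec, Fin.snoc_last]; exact one_ne_zero
    have h3 := v.minOrd_le (coeffVec n P) h2
    have h4 : v.ord (coeffVec n P (Fin.last n)) = 0 := by
      rw [hvec, Fin.snoc_last, v.ord_one]
    rwa [h4] at h3
  have hsub : ∀ i, (hitS (coeffVec n P) (homEval n P (algebraMap k L (x i))
      (algebraMap k L (y i))) : Set (Place k L)) ⊆ U := by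
    rintro (_ | i) v hv
    · have hv' : v.minOrd (coeffVec n P) < v.ord (homEval n P (algebraMap k L (x none))
        (algebraMap k L (y none))) := hv
      rw [hhom0, v.ord_one] at hv'
      exact Or.inl (hpole v hv')
    · have hv' : v.minOrd (coeffVec n P) < v.ord (homEval n P (algebraMap k L (x (some i)))
        (algebraMap k L (y (some i)))) := hv
      rw [hhom] at hv'
      rcases (hle0 v).lt_or_eq with h3 | h3
      · exact Or.inl (hpole v h3)
      · rw [h3] at hv'
        exact Or.inr ⟨i, hv'⟩
  have h2 := sum_ncard_le hUfin hsub n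
    (fun v T hT => card_hit_le hxy hPd.le hPm.ne_zero v T hT)
  have h3 : (∑ i, ((hitS (coeffVec n P) (homEval n P (algebraMap k L (x i))
      (algebraMap k L (y i))) : Set (Place k L)).ncard : ℤ)) ≤ n * (U.ncard : ℤ) := by
    exact_mod_cast h2
  rw [hcard, hvec] at h1
  rw [hvec] at h3
  push_cast at h1
  linarith

end

end Pool.Agent.Helper11
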