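import Pool.Agent.Helper11.ProjHeight
import Pool.Agent.Helper11.Mason

set_option linter.unusedSectionVars false

namespace Pool.Agent.Helper11

open Polynomial

/-- the value at `(x, y)` of the binary form of degree `m` attached to `f` -/
noncomputable def homEval {R : Type*} [CommRing R] (m : ℕ) (f : R[X]) (x y : R) : R :=
  ∑ s ∈ Finset.range (m + 1), f.coeff s * (x ^ s * y ^ (m - s))

section alg

variable {R : Type*} [CommRing R]

theorem homEval_one {m : ℕ} {f : R[X]} (hf : f.natDegree ≤ m) (x : R) :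
    homEval m f x 1 = f.eval x := by
  rw [homEval, eval_eq_sum_range' (n := m + 1) (by omega)]
  simp

theorem homEval_zero {m : ℕ} (f : R[X]) (x : R) :
    homEval m f x 0 = f.coeff m * x ^ m := by
  rw [homEval, Finset.sum_eq_single m]
  · simp
  · intro s hs hsm
    rw [Finset.mem_range] at hs
    rw [zero_pow (by omega)]; ring
  · intro h
    exact absurd (Finset.mem_range.2 (Nat.lt_succ_self m)) h

theorem sum_shift (m j : ℕ) (hj : j < m) (c : ℕ → R) (x y : R) :
    ∑ i : Fin (m + m), (x ^ (i : ℕ) * y ^ (m + m - 1 - (i : ℕ))) *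
      (if (i : ℕ) ∈ Set.Icc j (j + m) then c (i - j) else 0) =
    x ^ j * y ^ (m - 1 - j) * ∑ s ∈ Finset.range (m + 1), c s * (x ^ s * y ^ (m - s)) := by
  classical
  rw [Fin.sum_univ_eq_sum_range (fun i => (x ^ i * y ^ (m + m - 1 - i)) *
    (if i ∈ Set.Icc j (j + m) then c (i - j) else 0)) (m + m)]
  rw [Finset.mul_sum]
  simp only [mul_ite, mul_zero]
  rw [← Finset.sum_filter]
  have himg : (Finset.range (m + m)).filter (fun i => i ∈ Set.Icc j (j + m)) =
      (Finset.range (m + 1)).image (fun s => j + s) := by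
    ext i
    simp only [Finset.mem_filter, Finset.mem_range, Set.mem_Icc, Finset.mem_image]
    constructor
    · rintro ⟨h1, h2, h3⟩
      exact ⟨i - j, by omega, by omega⟩
    · rintro ⟨s, hs, rfl⟩
      omega
  rw [himg, Finset.sum_image (fun a _ b _ h => by simpa using h)]
  refine Finset.sum_congr rfl fun s hs => ?_
  rw [Finset.mem_range] at hs
  have h1 : m + m - 1 - (j + s) = (m - 1 - j) + (m - s) := by omega
  rw [h1, pow_add, pow_add, Nat.add_sub_cancel_left]
  ring

theorem proj_mul_sylvester (m : ℕ) (f g : R[X]) (x y : Fin (m + m) → R) (i j : Fin (m + m)) :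
    (Matrix.projVandermonde x y * sylvester f g m m) i j =
      j.addCases (fun j₁ => x i ^ (j₁ : ℕ) * y i ^ (m - 1 - (j₁ : ℕ)) * homEval m g (x i) (y i))
        (fun j₁ => x i ^ (j₁ : ℕ) * y i ^ (m - 1 - (j₁ : ℕ)) * homEval m f (x i) (y i)) := by
  have hrev : ∀ l : Fin (m + m), (l.rev : ℕ) = m + m - 1 - (l : ℕ) := by
    intro l
    rw [Fin.val_rev]; omega
  rw [Matrix.mul_apply]
  induction j using Fin.addCases with
  | left j₁ =>
    simp only [Matrix.projVandermonde_apply, sylvester, Matrix.of_apply, Fin.addCases_left, hrev]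
    exact sum_shift m j₁ j₁.2 _ _ _
  | right j₁ =>
    simp only [Matrix.projVandermonde_apply, sylvester, Matrix.of_apply, Fin.addCases_right, hrev]
    exact sum_shift m j₁ j₁.2 _ _ _

end alg

section place

variable {k L : Type*} [Field k] [Field L] [Algebra k L] (v : Place k L)

theorem Place.det_mem_ge {n : ℕ} (M : Matrix (Fin n) (Fin n) L) (m : Fin n → ℤ)
    (h : ∀ i j, M i j ∈ v.ge (m i)) : M.det ∈ v.ge (∑ i, m i) := by
  rw [Matrix.det_apply']
  refine sum_mem fun σ _ => ?_
  have h1 : ∏ i, M (σ i) i ∈ v.ge (∑ i, m (σ i)) := v.prod_mem_ge _ _ _ fun i _ => h _ _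
  rw [Equiv.sum_comp σ m] at h1
  rcases Int.units_eq_one_or (Equiv.Perm.sign σ) with h2 | h2
  · rw [h2]; simpa using h1
  · rw [h2]; simpa using neg_mem h1

theorem Place.homEval_mem_ge (m : ℕ) {f : L[X]} {n : ℤ} (hf : ∀ j, f.coeff j ∈ v.ge n) (x y : k) :
    homEval m f (algebraMap k L x) (algebraMap k L y) ∈ v.ge n := by
  refine sum_mem fun s _ => ?_
  rw [← map_pow, ← map_pow, ← map_mul]
  have := v.mul_mem_ge (hf s) (v.algebraMap_mem_ge (x ^ s * y ^ (m - s)))
  simpa using this

theorem det_proj_ne_zero {n : ℕ} {x y : Fin n → k} (hxy : ∀ i j, i ≠ j → x j * y i - x i * y j ≠ 0) :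
    (Matrix.projVandermonde x y).det ≠ 0 := by
  rw [Matrix.det_projVandermonde]
  refine Finset.prod_ne_zero_iff.2 fun i _ => Finset.prod_ne_zero_iff.2 fun j hj => ?_
  exact hxy i j (Finset.mem_Ioi.1 hj).ne

/-- lower bound for the order of the resultant from values at `2 m` points -/
theorem Place.resultant_mem_ge {m : ℕ} {f g : L[X]} {x y : Fin (m + m) → k}
    (hxy : ∀ i j, i ≠ j → x j * y i - x i * y j ≠ 0) (μ : Fin (m + m) → ℤ)
    (hf : ∀ i, homEval m f (algebraMap k L (x i)) (algebraMap k L (y i)) ∈ v.ge (μ i))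
    (hg : ∀ i, homEval m g (algebraMap k L (x i)) (algebraMap k L (y i)) ∈ v.ge (μ i)) :
    resultant f g m m ∈ v.ge (∑ i, μ i) := by
  set P := Matrix.projVandermonde (fun i => algebraMap k L (x i)) (fun i => algebraMap k L (y i))
    with hP
  have h1 : (P * sylvester f g m m).det ∈ v.ge (∑ i, μ i) := by
    refine v.det_mem_ge _ _ fun i j => ?_
    rw [hP, proj_mul_sylvester]
    have hc : ∀ a b : ℕ, algebraMap k L (x i) ^ a * algebraMap k L (y i) ^ b ∈ v.ge 0 := by
      intro a b
      rw [← map_pow, ← map_pow, ← map_mul]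
      exact v.algebraMap_mem_ge _
    induction j using Fin.addCases with
    | left j₁ =>
      rw [Fin.addCases_left]
      have := v.mul_mem_ge (hc j₁ (m - 1 - j₁)) (hg i)
      simpa using this
    | right j₁ =>
      rw [Fin.addCases_right]
      have := v.mul_mem_ge (hc j₁ (m - 1 - j₁)) (hf i)
      simpa using this
  rw [Matrix.det_mul] at h1
  have h2 : P.det = algebraMap k L (Matrix.projVandermonde x y).det := by
    rw [hP, Matrix.projVandermonde_map (algebraMap k L), RingHom.map_det]
  have h3 := det_proj_ne_zero hxy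
  have h4 : resultant f g m m = (algebraMap k L (Matrix.projVandermonde x y).det)⁻¹ *
      (P.det * (sylvester f g m m).det) := by
    rw [h2, ← mul_assoc, inv_mul_cancel₀ (by rwa [Ne, map_eq_zero]), one_mul]; rfl
  rw [h4, ← map_inv₀]
  have := v.mul_mem_ge (v.algebraMap_mem_ge (Matrix.projVandermonde x y).det⁻¹) h1
  simpa using this

/-- a form of degree `m` has at most `m` zeros modulo the place -/
theorem Place.coeff_mem_of_values {m : ℕ} {f : L[X]} {x y : Fin (m + 1) → k}
    (hxy : ∀ i j, i ≠ j → x j * y i - x i * y j ≠ 0) {n : ℤ}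
    (hf : ∀ i, homEval m f (algebraMap k L (x i)) (algebraMap k L (y i)) ∈ v.ge n) :
    ∀ j ≤ m, f.coeff j ∈ v.ge n := by
  classical
  set V := Matrix.projVandermonde x y with hV
  have hdet : IsUnit V.det := (det_proj_ne_zero hxy).isUnit
  have h1 : ∀ j : Fin (m + 1), f.coeff j =
      ∑ i, algebraMap k L (V⁻¹ j i) *
        homEval m f (algebraMap k L (x i)) (algebraMap k L (y i)) := by
    intro j
    have h2 : ∀ i, homEval m f (algebraMap k L (x i)) (algebraMap k L (y i)) =
        ∑ s : Fin (m + 1), f.coeff s * algebraMap k L (V i s) := by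
      intro i
      rw [homEval, ← Fin.sum_univ_eq_sum_range (fun s => f.coeff s *
        (algebraMap k L (x i) ^ s * algebraMap k L (y i) ^ (m - s))) (m + 1)]
      refine Finset.sum_congr rfl fun s _ => ?_
      rw [hV, Matrix.projVandermonde_apply, map_mul, map_pow, map_pow, Fin.val_rev]
      congr 3
      omega
    simp only [h2, Finset.mul_sum]
    rw [Finset.sum_comm]
    have h3 : ∀ s : Fin (m + 1), ∑ i, algebraMap k L (V⁻¹ j i) * (f.coeff s *
        algebraMap k L (V i s)) = f.coeff s * algebraMap k L ((V⁻¹ * V) j s) := by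
      intro s
      rw [Matrix.mul_apply, map_sum, Finset.mul_sum]
      refine Finset.sum_congr rfl fun i _ => ?_
      rw [map_mul]; ring
    rw [Finset.sum_congr rfl fun s _ => h3 s, Matrix.nonsing_inv_mul _ hdet,
      Finset.sum_eq_single j]
    · simp
    · intro s _ hs
      rw [Matrix.one_apply_ne hs.symm, map_zero, mul_zero]
    · intro h; exact absurd (Finset.mem_univ _) h
  intro j hj
  have h4 := h1 ⟨j, by omega⟩
  simp only at h4
  rw [h4]
  refine sum_mem fun i _ => ?_
  have := v.mul_mem_ge (v.algebraMap_mem_ge (V⁻¹ ⟨j, by omega⟩ i)) (hf i)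
  simpa using this

end place

end Pool.Agent.Helper11
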