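import Pool.Agent.Helper11.OscZero
import Pool.Agent.Helper11.Density

set_option linter.unusedSectionVars false

namespace Pool.Agent.Helper11

open Polynomial

/-- `∏_{j < n} (X - y_j)` -/
noncomputable def prodPoly {L : Type*} [Field L] (y : ℕ → L) (n : ℕ) : L[X] :=
  ∏ j ∈ Finset.range n, (X - C (y j))

section

variable {k L : Type*} [Field k] [Field L] [Algebra k L]

theorem prodPoly_succ (y : ℕ → L) (n : ℕ) :
    prodPoly y (n + 1) = (X - C (y n)) * prodPoly y n := by
  rw [prodPoly, Finset.prod_range_succ, mul_comm]; rfl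

theorem prodPoly_monic (y : ℕ → L) (n : ℕ) : (prodPoly y n).Monic :=
  monic_prod_of_monic _ _ fun j _ => monic_X_sub_C _

theorem prodPoly_natDegree (y : ℕ → L) (n : ℕ) : (prodPoly y n).natDegree = n := by
  rw [prodPoly, natDegree_prod_of_monic _ _ fun j _ => monic_X_sub_C _]
  simp

theorem eval_prodPoly (y : ℕ → L) (n : ℕ) (x : L) :
    (prodPoly y n).eval x = ∏ j ∈ Finset.range n, (x - y j) := by
  rw [prodPoly, eval_prod]
  refine Finset.prod_congr rfl fun j _ => ?_
  rw [eval_sub, eval_X, eval_C]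

/-- orders of the coefficients when the orders of the roots are positive and increasing -/
theorem Place.ord_coeff_prodPoly (v : Place k L) (y : ℕ → L) : ∀ n : ℕ,
    (∀ j < n, y j ≠ 0) → (∀ i j, i < j → j < n → v.ord (y i) < v.ord (y j)) → ∀ i ≤ n,
    (prodPoly y n).coeff i ≠ 0 ∧
      v.ord ((prodPoly y n).coeff i) = ∑ j ∈ Finset.range (n - i), v.ord (y j) := by
  intro n
  induction n with
  | zero =>
    intro _ _ i hi
    obtain rfl : i = 0 := by omega
    have h1 : prodPoly y 0 = 1 := by simp [prodPoly]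
    rw [h1]
    simp [v.ord_one]
  | succ n ih =>
    intro hy hlt i hi
    have ih' := ih (fun j hj => hy j (by omega)) (fun i j hij hj => hlt i j hij (by omega))
    rcases Nat.eq_zero_or_pos i with h0 | h0
    · subst h0
      obtain ⟨h1, h2⟩ := ih' 0 (Nat.zero_le _)
      have h3 : (prodPoly y (n + 1)).coeff 0 = -(y n * (prodPoly y n).coeff 0) := by
        rw [prodPoly_succ, mul_coeff_zero, coeff_sub, coeff_X_zero, coeff_C_zero]; ring
      rw [h3]
      refine ⟨neg_ne_zero.2 (mul_ne_zero (hy n (by omega)) h1), ?_⟩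
      rw [v.ord_neg, v.ord_mul _ _ (hy n (by omega)) h1, h2, Nat.sub_zero, Nat.sub_zero,
        Finset.sum_range_succ]
      ring
    · obtain ⟨l, rfl⟩ : ∃ l, i = l + 1 := ⟨i - 1, by omega⟩
      have h3 : (prodPoly y (n + 1)).coeff (l + 1) = (prodPoly y n).coeff l -
          y n * (prodPoly y n).coeff (l + 1) := by
        rw [prodPoly_succ, coeff_mul_X_sub]
      obtain ⟨h1, h2⟩ := ih' l (by omega)
      rw [h3, Nat.add_sub_add_right]
      by_cases hl : l + 1 ≤ n
      · obtain ⟨h4, h5⟩ := ih' (l + 1) hl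
        have h6 : v.ord (y n * (prodPoly y n).coeff (l + 1)) =
            v.ord (y n) + ∑ j ∈ Finset.range (n - (l + 1)), v.ord (y j) := by
          rw [v.ord_mul _ _ (hy n (by omega)) h4, h5]
        have h7 : n - l = (n - (l + 1)) + 1 := by omega
        have h8 : v.ord (y (n - (l + 1))) < v.ord (y n) := hlt _ _ (by omega) (by omega)
        have h9 : v.ord ((prodPoly y n).coeff l) <
            v.ord (-(y n * (prodPoly y n).coeff (l + 1))) := by
          rw [v.ord_neg, h6, h2, h7, Finset.sum_range_succ]; linarith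
        have h10 := v.ord_add_eq_left h1 (y := -(y n * (prodPoly y n).coeff (l + 1)))
          (Or.inr h9)
        rw [← sub_eq_add_neg] at h10
        rw [h10.2]
        exact ⟨h10.1, h2⟩
      · have h4 : (prodPoly y n).coeff (l + 1) = 0 :=
          coeff_eq_zero_of_natDegree_lt (by rw [prodPoly_natDegree]; omega)
        rw [h4, mul_zero, sub_zero]
        exact ⟨h1, h2⟩

/-- one half of the Gauss lemma -/
theorem Place.minOrd_linear_mul_le (v : Place k L) {N : ℕ} {P : L[X]} (hP : P.natDegree ≤ N)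
    (hP0 : P ≠ 0) (y : L) :
    v.minOrd (coeffVec (N + 1) ((X - C y) * P)) ≤
      v.minOrd (coeffVec N P) + min 0 (v.ord y) := by
  classical
  set m := v.minOrd (coeffVec N P) with hm
  have hmem : ∀ j, P.coeff j ∈ v.ge m := by
    intro j
    by_cases hj : j < N + 1
    · exact v.mem_ge_minOrd (coeffVec N P) ⟨j, hj⟩
    · rw [coeff_eq_zero_of_natDegree_lt (by omega)]; exact zero_mem _
  have hex : ∃ i, coeffVec N P i ≠ 0 := by
    refine ⟨⟨P.natDegree, by omega⟩, ?_⟩
    show P.coeff P.natDegree ≠ 0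
    rwa [Ne, coeff_natDegree, leadingCoeff_eq_zero]
  set S : Finset ℕ := (Finset.range (N + 1)).filter (fun j => P.coeff j ≠ 0 ∧ v.ord (P.coeff j) = m)
    with hS
  have hSne : S.Nonempty := by
    obtain ⟨i, hi, h2⟩ := v.exists_minOrd (coeffVec N P) hex
    refine ⟨i, Finset.mem_filter.2 ⟨Finset.mem_range.2 i.2, hi, ?_⟩⟩
    exact h2.symm
  -- enough: a coefficient of small order
  suffices h : ∃ i ≤ N + 1, ((X - C y) * P).coeff i ≠ 0 ∧
      v.ord (((X - C y) * P).coeff i) = m + min 0 (v.ord y) by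
    obtain ⟨i, hi, h1, h2⟩ := h
    rw [← h2]
    exact v.minOrd_le (coeffVec (N + 1) ((X - C y) * P)) (i := ⟨i, by omega⟩) h1
  rcases le_or_gt 0 (v.ord y) with hy | hy
  · rw [min_eq_left hy, add_zero]
    obtain ⟨hi, hi0, him⟩ := Finset.mem_filter.1 (S.max'_mem hSne)
    set i := S.max' hSne with hidef
    rw [Finset.mem_range] at hi
    have h1 : P.coeff (i + 1) ∈ v.ge (m + 1) := by
      by_cases h0 : P.coeff (i + 1) = 0
      · rw [h0]; exact zero_mem _
      · refine v.mem_ge_of_le ?_
        have h2 := v.le_ord_of_mem (hmem (i + 1)) h0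
        have h3 : v.ord (P.coeff (i + 1)) ≠ m := by
          intro h4
          have h5 : i + 1 ∈ S := by
            refine Finset.mem_filter.2 ⟨Finset.mem_range.2 ?_, h0, h4⟩
            by_contra hcon
            exact h0 (coeff_eq_zero_of_natDegree_lt (by omega))
          have := S.le_max' _ h5
          omega
        omega
    have h2 : y * P.coeff (i + 1) ∈ v.ge (m + 1) := by
      by_cases hy0 : y = 0
      · rw [hy0, zero_mul]; exact zero_mem _
      · have := v.mul_mem_ge (v.mem_ge_of_le hy) h1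
        simpa using this
    refine ⟨i + 1, by omega, ?_⟩
    rw [coeff_mul_X_sub, sub_eq_add_neg]
    have h3 := v.ord_add_eq_left hi0 (y := -(y * P.coeff (i + 1))) (by
      by_cases h0 : y * P.coeff (i + 1) = 0
      · left; rw [h0, neg_zero]
      · right
        rw [v.ord_neg, him]
        have := v.le_ord_of_mem h2 h0
        omega)
    exact ⟨h3.1, h3.2.trans him⟩
  · rw [min_eq_right hy.le]
    have hy0 : y ≠ 0 := v.ne_zero_of_ord_ne_zero hy.ne
    obtain ⟨i, hiS⟩ := hSne
    obtain ⟨hi, hi0, him⟩ := Finset.mem_filter.1 hiS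
    rw [Finset.mem_range] at hi
    have hyP : v.ord (y * P.coeff i) = m + v.ord y := by
      rw [v.ord_mul _ _ hy0 hi0, him]; ring
    refine ⟨i, by omega, ?_⟩
    rcases Nat.eq_zero_or_pos i with h0 | h0
    · rw [h0] at hi0 hyP ⊢
      rw [mul_coeff_zero, coeff_sub, coeff_X_zero, coeff_C_zero, zero_sub, neg_mul]
      exact ⟨neg_ne_zero.2 (mul_ne_zero hy0 hi0), by rw [v.ord_neg, hyP]⟩
    · obtain ⟨l, rfl⟩ : ∃ l, i = l + 1 := ⟨i - 1, by omega⟩
      rw [coeff_mul_X_sub, sub_eq_add_neg, add_comm]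
      have hne : -(y * P.coeff (l + 1)) ≠ 0 := neg_ne_zero.2 (mul_ne_zero hy0 hi0)
      have h3 := v.ord_add_eq_left hne (y := P.coeff l) (by
        by_cases h0 : P.coeff l = 0
        · exact Or.inl h0
        · right
          rw [v.ord_neg, hyP]
          have := v.le_ord_of_mem (hmem l) h0
          omega)
      exact ⟨h3.1, by rw [h3.2, v.ord_neg, hyP]⟩

theorem Place.minOrd_prodPoly_le (v : Place k L) (y : ℕ → L) (n : ℕ) :
    v.minOrd (coeffVec n (prodPoly y n)) ≤ ∑ j ∈ Finset.range n, min 0 (v.ord (y j)) := by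
  induction n with
  | zero =>
    have h1 : v.minOrd (coeffVec 0 (prodPoly y 0)) ≤ v.ord (coeffVec 0 (prodPoly y 0) 0) :=
      v.minOrd_le _ (by simp [coeffVec, prodPoly])
    refine h1.trans ?_
    simp [coeffVec, prodPoly, v.ord_one]
  | succ n ih =>
    rw [prodPoly_succ, Finset.sum_range_succ]
    refine (v.minOrd_linear_mul_le (prodPoly_natDegree y n).le (prodPoly_monic y n).ne_zero
      (y n)).trans ?_
    linarith

end

section

variable {k L : Type*} [Field k] [Field L] [Algebra k L] [FunField k L] [CharZero k]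
  [IsAlgClosed k]

theorem sum_ht_le_htP_prodPoly (y : ℕ → L) (n : ℕ) :
    ∑ j ∈ Finset.range n, ht k (y j) ≤ htP k (coeffVec n (prodPoly y n)) := by
  unfold ht
  rw [← fs_sum _ _ fun j _ => supp_negpart (y j)]
  unfold htP
  refine fs_mono (supp_sum _ _ fun j _ => supp_negpart (y j)) ?_ fun v => ?_
  · have := supp_minOrd (k := k) (coeffVec n (prodPoly y n))
    refine this.subset fun v hv => ?_
    have hv' : -v.minOrd (coeffVec n (prodPoly y n)) ≠ 0 := hv
    show v.minOrd (coeffVec n (prodPoly y n)) ≠ 0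
    omega
  · have h1 := v.minOrd_prodPoly_le y n
    have h2 : ∑ j ∈ Finset.range n, max 0 (-v.ord (y j)) =
        -∑ j ∈ Finset.range n, min 0 (v.ord (y j)) := by
      rw [← Finset.sum_neg_distrib]
      refine Finset.sum_congr rfl fun j _ => ?_
      omega
    rw [h2]
    linarith

end

end Pool.Agent.Helper11
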