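import Pool.Agent.Helper11.OscGlobal
import Pool.Agent.Helper11.LinesAssemble

set_option linter.unusedSectionVars false

namespace Pool.Agent.Helper11

open Polynomial

section

variable {k L : Type*} [Field k] [Field L] [Algebra k L] [FunField k L] [CharZero k]
  [IsAlgClosed k]

theorem exists_irreducible_common {f g : L[X]} (hf : f ≠ 0) (h : ¬ IsCoprime f g) :
    ∃ p, Irreducible p ∧ p ∣ f ∧ p ∣ g := by
  by_contra hcon
  push Not at hcon
  exact h (isCoprime_of_irreducible_dvd (fun h' => hf h'.1) fun z hz h1 h2 => hcon z hz h1 h2)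

/-- if the resultant with the coefficientwise derivative vanishes, then there is a constant
root -/
theorem exists_const_root {t : L} (ht : Transcendental k t) {f : L[X]} (hf : f.Monic)
    (hsq : Squarefree f) {n : ℕ} (hn : f.natDegree = n)
    (hW : resultant f (coefD (der ht) f) n n = 0) : ∃ c : k, f.eval (algebraMap k L c) = 0 := by
  have hcop : ¬ IsCoprime f (coefD (der ht) f) := by
    intro hc
    have h1 := resultant_ne_zero f _ hc
    have h2 := natDegree_coefD_le (der ht) f
    have h3 := resultant_add_right_deg f (coefD (der ht) f) f.natDegree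
      (coefD (der ht) f).natDegree (f.natDegree - (coefD (der ht) f).natDegree) le_rfl
    rw [Nat.add_sub_cancel' h2, hn, hW, ← hn, coeff_natDegree, hf.leadingCoeff, one_pow,
      one_mul] at h3
    exact h1 h3.symm
  obtain ⟨p₀, hp₀, hpf₀, hpD₀⟩ := exists_irreducible_common hf.ne_zero hcop
  -- a monic irreducible factor
  obtain ⟨p, hpm, hp, hpf, hpD⟩ : ∃ p : L[X], p.Monic ∧ Irreducible p ∧ p ∣ f ∧
      p ∣ coefD (der ht) f := by
    have hlc : p₀.leadingCoeff ≠ 0 := leadingCoeff_ne_zero.2 hp₀.ne_zero
    have hass : Associated p₀ (p₀ * C p₀.leadingCoeff⁻¹) :=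
      associated_mul_unit_right p₀ _ (isUnit_C.2 (inv_ne_zero hlc).isUnit)
    exact ⟨_, monic_mul_leadingCoeff_inv hp₀.ne_zero, hass.irreducible hp₀,
      hass.dvd_iff_dvd_left.1 hpf₀, hass.dvd_iff_dvd_left.1 hpD₀⟩
  obtain ⟨q, hq⟩ := hpf
  have h1 : p ∣ coefD (der ht) p * q := by
    rw [hq, coefD_mul] at hpD
    exact (dvd_add_left (dvd_mul_right p _)).1 hpD
  have h2 : p ∣ coefD (der ht) p := by
    rcases hp.prime.dvd_or_dvd h1 with h | h
    · exact h
    · exfalso
      apply hp.not_isUnit
      apply hsq p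
      rw [hq]
      exact mul_dvd_mul_left p h
  have h3 : coefD (der ht) p = 0 := by
    by_contra hne
    have h4 := natDegree_le_of_dvd h2 hne
    have h5 : (coefD (der ht) p).coeff (coefD (der ht) p).natDegree ≠ 0 := by
      rwa [Ne, coeff_natDegree, leadingCoeff_eq_zero]
    have h6 := natDegree_coefD_le (der ht) p
    have h7 : (coefD (der ht) p).natDegree = p.natDegree := le_antisymm h6 h4
    rw [h7, coeff_coefD, coeff_natDegree, hpm.leadingCoeff] at h5
    exact h5 (der ht).map_one_eq_zero
  -- the coefficients of `p` are constant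
  have h4 : ∀ j, ∃ c : k, algebraMap k L c = p.coeff j := by
    intro j
    rw [← der_eq_zero_iff ht, ← coeff_coefD, h3, coeff_zero]
  choose a ha using h4
  set p₁ : k[X] := ∑ j ∈ Finset.range (p.natDegree + 1), monomial j (a j) with hp₁
  have h5 : p₁.map (algebraMap k L) = p := by
    ext j
    rw [coeff_map, hp₁, finsetSum_coeff]
    simp only [coeff_monomial]
    rw [Finset.sum_ite_eq']
    split_ifs with h
    · exact ha j
    · rw [Finset.mem_range] at h
      rw [map_zero, coeff_eq_zero_of_natDegree_lt (by omega)]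
  have h6 : p₁.degree ≠ 0 := by
    rw [← degree_map p₁ (algebraMap k L), h5]
    intro h
    exact hp.not_isUnit (isUnit_iff_degree_eq_zero.2 h)
  obtain ⟨c, hc⟩ := IsAlgClosed.exists_root p₁ h6
  refine ⟨c, ?_⟩
  rw [hq, eval_mul]
  have h7 : p.eval (algebraMap k L c) = 0 := by
    rw [← h5, eval_map, eval₂_at_apply, hc, map_zero]
  rw [h7, zero_mul]

theorem coeff_mul_X_sub (g : L[X]) (c : L) (j : ℕ) :
    ((X - C c) * g).coeff (j + 1) = g.coeff j - c * g.coeff (j + 1) := by
  rw [sub_mul, coeff_sub, coeff_X_mul, coeff_C_mul]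

theorem minOrd_linear_mul (v : Place k L) {n : ℕ} {g : L[X]} (hg : g.natDegree ≤ n) (hg0 : g ≠ 0)
    (c : k) :
    v.minOrd (coeffVec (n + 1) ((X - C (algebraMap k L c)) * g)) = v.minOrd (coeffVec n g) := by
  set f := (X - C (algebraMap k L c)) * g with hf
  have hf0 : f ≠ 0 := mul_ne_zero (X_sub_C_ne_zero _) hg0
  have hfdeg : f.natDegree ≤ n + 1 := by
    rw [hf, natDegree_mul (X_sub_C_ne_zero _) hg0, natDegree_X_sub_C]; omega
  have hmul : ∀ {y : L} {m : ℤ}, y ∈ v.ge m → algebraMap k L c * y ∈ v.ge m := by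
    intro y m hy
    have := v.mul_mem_ge (v.algebraMap_mem_ge c) hy
    simpa using this
  have hgm : ∀ j, g.coeff j ∈ v.ge (v.minOrd (coeffVec n g)) := by
    intro j
    by_cases hj : j < n + 1
    · exact v.mem_ge_minOrd (coeffVec n g) ⟨j, hj⟩
    · rw [coeff_eq_zero_of_natDegree_lt (by omega)]; exact zero_mem _
  have hfm : ∀ j, f.coeff j ∈ v.ge (v.minOrd (coeffVec (n + 1) f)) := by
    intro j
    by_cases hj : j < n + 1 + 1
    · exact v.mem_ge_minOrd (coeffVec (n + 1) f) ⟨j, hj⟩
    · rw [coeff_eq_zero_of_natDegree_lt (by omega)]; exact zero_mem _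
  have hex : ∀ {m : ℕ} {p : L[X]}, p.natDegree ≤ m → p ≠ 0 → ∃ i, coeffVec m p i ≠ 0 := by
    intro m p hp hp0
    refine ⟨⟨p.natDegree, by omega⟩, ?_⟩
    show p.coeff p.natDegree ≠ 0
    rwa [Ne, coeff_natDegree, leadingCoeff_eq_zero]
  apply le_antisymm
  · apply v.le_minOrd _ (hex hg hg0)
    have key : ∀ i ≤ n + 1, g.coeff (n + 1 - i) ∈ v.ge (v.minOrd (coeffVec (n + 1) f)) := by
      intro i
      induction i with
      | zero =>
        intro _
        rw [coeff_eq_zero_of_natDegree_lt (by omega)]; exact zero_mem _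
      | succ i ih =>
        intro hi
        have h1 := ih (by omega)
        have h2 : n + 1 - i = (n + 1 - (i + 1)) + 1 := by omega
        have h3 := coeff_mul_X_sub g (algebraMap k L c) (n + 1 - (i + 1))
        rw [← hf, ← h2] at h3
        have h4 : g.coeff (n + 1 - (i + 1)) = f.coeff (n + 1 - i) +
            algebraMap k L c * g.coeff (n + 1 - i) := by
          rw [h3]; ring
        rw [h4]
        exact add_mem (hfm _) (hmul h1)
    intro j
    have h1 := key (n + 1 - j) (by omega)
    have h2 : n + 1 - (n + 1 - (j : ℕ)) = j := by have := j.2; omega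
    rw [h2] at h1
    exact h1
  · apply v.le_minOrd _ (hex hfdeg hf0)
    intro j
    show f.coeff j ∈ _
    rcases Nat.eq_zero_or_pos (j : ℕ) with hj | hj
    · rw [hj, hf, mul_coeff_zero, coeff_sub, coeff_X_zero, coeff_C_zero, zero_sub, neg_mul]
      exact neg_mem (hmul (hgm 0))
    · obtain ⟨i, hi⟩ : ∃ i, (j : ℕ) = i + 1 := ⟨j - 1, by omega⟩
      rw [hi, hf, coeff_mul_X_sub]
      exact sub_mem (hgm _) (hmul (hgm _))

theorem homEval_linear_mul (n : ℕ) {g : L[X]} (hg : g.natDegree ≤ n) (c x y : L) :
    homEval (n + 1) ((X - C c) * g) x y = (x - c * y) * homEval n g x y := by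
  have h1 : ∀ s ∈ Finset.range (n + 1), ((X - C c) * g).coeff (s + 1) * (x ^ (s + 1) *
      y ^ (n + 1 - (s + 1))) = x * (g.coeff s * (x ^ s * y ^ (n - s))) -
      c * (g.coeff (s + 1) * (x ^ (s + 1) * y ^ (n - s))) := by
    intro s _
    rw [coeff_mul_X_sub, Nat.add_sub_add_right]; ring
  have h2 : c * y * homEval n g x y = ∑ s ∈ Finset.range (n + 1),
      c * (g.coeff (s + 1) * (x ^ (s + 1) * y ^ (n - s))) + c * (g.coeff 0 * y ^ (n + 1)) := by
    rw [homEval, Finset.sum_range_succ' (fun s => g.coeff s * (x ^ s * y ^ (n - s))) n,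
      Finset.sum_range_succ (fun s => c * (g.coeff (s + 1) * (x ^ (s + 1) * y ^ (n - s)))) n,
      coeff_eq_zero_of_natDegree_lt (show g.natDegree < n + 1 by omega)]
    simp only [mul_add, Finset.mul_sum, zero_mul, mul_zero, add_zero, pow_zero, one_mul, Nat.sub_zero]
    congr 1
    · refine Finset.sum_congr rfl fun s hs => ?_
      rw [Finset.mem_range] at hs
      have h3 : n - s = (n - (s + 1)) + 1 := by omega
      rw [h3, pow_succ]; ring
    · rw [pow_succ]; ring
  have h3 : homEval (n + 1) ((X - C c) * g) x y = x * homEval n g x y -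
      ∑ s ∈ Finset.range (n + 1), c * (g.coeff (s + 1) * (x ^ (s + 1) * y ^ (n - s))) +
      (0 - c) * g.coeff 0 * (x ^ 0 * y ^ (n + 1 - 0)) := by
    rw [homEval, Finset.sum_range_succ', Finset.sum_congr rfl h1, Finset.sum_sub_distrib,
      ← Finset.mul_sum, mul_coeff_zero, coeff_sub, coeff_X_zero, coeff_C_zero]
    rfl
  rw [h3, sub_mul x (c * y) (homEval n g x y), h2]
  simp only [pow_zero, one_mul, Nat.sub_zero]
  ring

/-- the inequality for all squarefree monic polynomials -/
theorem osc_all {ι : Type*} [Fintype ι] {x y : ι → k}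
    (hxy : ∀ i j, i ≠ j → x j * y i - x i * y j ≠ 0) (n : ℕ) (hcard : n + n ≤ Fintype.card ι) :
    ∀ f : L[X], f.Monic → f.natDegree = n → Squarefree f → ¬ IsConstPt k (coeffVec n f) →
    (∀ i, homEval n f (algebraMap k L (x i)) (algebraMap k L (y i)) ≠ 0) →
    (Fintype.card ι : ℤ) * htP k (coeffVec n f) -
        ∑ i, ((hitS (coeffVec n f) (homEval n f (algebraMap k L (x i)) (algebraMap k L (y i))) :
          Set (Place k L)).ncard : ℤ) ≤
      n * (chi k L + 2 * htP k (coeffVec n f)) := by
  obtain ⟨t, ht⟩ := FunField.exists_transcendental (k := k) (L := L)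
  induction n with
  | zero =>
    intro f hf hdeg _ hconst _
    exfalso
    apply hconst
    have h1 : f = 1 := hf.natDegree_eq_zero.1 hdeg
    refine ⟨1, fun _ => 1, fun i => ?_⟩
    rw [h1]
    have hi : (i : ℕ) = 0 := by have := i.2; omega
    show (1 : L[X]).coeff i = _
    rw [hi]
    simp
  | succ n ih =>
    intro f hf hdeg hsq hconst hfH
    by_cases hW : resultant f (coefD (der ht) f) (n + 1) (n + 1) = 0
    · obtain ⟨c, hc⟩ := exists_const_root ht hf hsq hdeg hW
      obtain ⟨g, hg⟩ := dvd_iff_isRoot.2 (show f.IsRoot (algebraMap k L c) from hc)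
      have hg0 : g ≠ 0 := by
        rintro rfl
        rw [mul_zero] at hg
        exact hf.ne_zero hg
      have hgm : g.Monic := by
        have h1 : ((X - C (algebraMap k L c)) * g).Monic := by rw [← hg]; exact hf
        exact (monic_X_sub_C _).of_mul_monic_left h1
      have hgdeg : g.natDegree = n := by
        have h1 := congrArg natDegree hg
        rw [hdeg, natDegree_mul (X_sub_C_ne_zero _) hg0, natDegree_X_sub_C] at h1
        omega
      have hgsq : Squarefree g := by
        rw [hg] at hsq
        exact hsq.of_mul_right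
      have hmin : ∀ v : Place k L, v.minOrd (coeffVec (n + 1) f) = v.minOrd (coeffVec n g) := by
        intro v; rw [hg]; exact minOrd_linear_mul v hgdeg.le hg0 c
      have hht : htP k (coeffVec (n + 1) f) = htP k (coeffVec n g) := by
        unfold htP
        exact finsum_congr fun v => by rw [hmin v]
      have hhom : ∀ i, homEval (n + 1) f (algebraMap k L (x i)) (algebraMap k L (y i)) =
          algebraMap k L (x i - c * y i) *
            homEval n g (algebraMap k L (x i)) (algebraMap k L (y i)) := by
        intro i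
        rw [hg, homEval_linear_mul n hgdeg.le, map_sub, map_mul]
      have hgH : ∀ i, homEval n g (algebraMap k L (x i)) (algebraMap k L (y i)) ≠ 0 := by
        intro i h
        apply hfH i
        rw [hhom, h, mul_zero]
      have hci : ∀ i, algebraMap k L (x i - c * y i) ≠ 0 := by
        intro i h
        apply hfH i
        rw [hhom, h, zero_mul]
      have hconst' : ¬ IsConstPt k (coeffVec n g) := by
        rintro ⟨a, q, hq⟩
        apply hconst
        refine ⟨a, fun j => (if h : (j : ℕ) = 0 then 0 else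
          (if h' : (j : ℕ) - 1 < n + 1 then q ⟨(j : ℕ) - 1, h'⟩ else 0)) -
          c * (if h' : (j : ℕ) < n + 1 then q ⟨j, h'⟩ else 0), fun j => ?_⟩
        have hq' : ∀ i : ℕ, g.coeff i = a * algebraMap k L (if h' : i < n + 1 then q ⟨i, h'⟩ else 0)
            := by
          intro i
          by_cases hi : i < n + 1
          · rw [dif_pos hi]; exact hq ⟨i, hi⟩
          · rw [dif_neg hi, map_zero, mul_zero, coeff_eq_zero_of_natDegree_lt (by omega)]
        show f.coeff j = _
        rw [map_sub, map_mul]
        rcases Nat.eq_zero_or_pos (j : ℕ) with hj | hj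
        · rw [dif_pos hj, hj, hg, mul_coeff_zero, coeff_sub, coeff_X_zero, coeff_C_zero, zero_sub,
            hq' 0, map_zero]
          ring
        · obtain ⟨i, hi⟩ : ∃ i, (j : ℕ) = i + 1 := ⟨j - 1, by omega⟩
          rw [dif_neg (by omega), hi, hg, coeff_mul_X_sub, hq' i, hq' (i + 1), Nat.add_sub_cancel]
          ring
      have h1 := ih (by omega) g hgm hgdeg hgsq hconst' hgH
      have h2 := chi_add_two_htP_nonneg hconst'
      have h3 : ∀ i, (hitS (coeffVec (n + 1) f)
          (homEval (n + 1) f (algebraMap k L (x i)) (algebraMap k L (y i))) : Set (Place k L)) =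
          hitS (coeffVec n g) (homEval n g (algebraMap k L (x i)) (algebraMap k L (y i))) := by
        intro i
        unfold hitS
        ext v
        simp only [Set.mem_ofPred_eq]
        rw [hmin v, hhom, v.ord_mul _ _ (hci i) (hgH i), v.ord_algebraMap, zero_add]
      rw [hht]
      simp only [h3]
      push_cast
      linarith
    · have h1 := osc_main hcard hxy hdeg.le hf.ne_zero ht hfH hW
      push_cast at h1 ⊢
      linarith

end

end Pool.Agent.Helper11
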