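import Mathlib
import Pool.Agent.Helper11.LinesLocal

set_option linter.unusedSectionVars false

namespace Pool.Agent.Helper11

open MvPolynomial

/-- the point `T p` over `L[T]` -/
noncomputable def conePt {L : Type*} [CommRing L] {σ : Type*} (p : σ → L) :
    σ → Polynomial L := fun i => Polynomial.X * Polynomial.C (p i)

theorem coeff_aeval_conePt {k L : Type*} [CommRing k] [CommRing L] [Algebra k L] {σ : Type*}
    [Fintype σ] (p : σ → L) (G : MvPolynomial σ k) (d : ℕ) :
    (aeval (conePt p) G).coeff d = aeval p (homogeneousComponent d G) := by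
  classical
  rw [homogeneousComponent_apply, map_sum]
  simp only [aeval_monomial]
  rw [aeval_def, eval₂_eq', Polynomial.finset_sum_coeff, Finset.sum_filter]
  refine Finset.sum_congr rfl fun a _ => ?_
  have h1 : ∏ i, conePt p i ^ a i = Polynomial.C (∏ i, p i ^ a i) * Polynomial.X ^ (∑ i, a i) := by
    simp only [conePt, mul_pow]
    rw [Finset.prod_mul_distrib, Finset.prod_pow_eq_pow_sum, map_prod]
    simp only [map_pow]
    ring
  have h2 : a.degree = ∑ i, a i := by
    rw [Finsupp.degree_eq_sum]
  rw [h1, h2, Finsupp.prod_fintype _ _ (fun i => pow_zero _), Polynomial.algebraMap_apply,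
    ← mul_assoc, ← Polynomial.C_mul, Polynomial.coeff_C_mul_X_pow]
  by_cases h : ∑ i, a i = d
  · rw [if_pos h, if_pos h.symm]
  · rw [if_neg h, if_neg (fun h' => h h'.symm)]

theorem aeval_conePt_eq_zero_iff {k L : Type*} [CommRing k] [CommRing L] [Algebra k L] {σ : Type*}
    [Fintype σ] (p : σ → L) (G : MvPolynomial σ k) :
    aeval (conePt p) G = 0 ↔ ∀ d, aeval p (homogeneousComponent d G) = 0 := by
  rw [Polynomial.ext_iff]
  refine forall_congr' fun d => ?_
  rw [coeff_aeval_conePt, Polynomial.coeff_zero]

/-- a homogeneous polynomial in two variables vanishing at `(u, 1)`, `u` transcendental, is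
zero -/
theorem eq_zero_of_homogeneous_two {k L : Type*} [Field k] [Field L] [Algebra k L]
    {c : MvPolynomial (Fin 2) k} {d : ℕ} (hc : c.IsHomogeneous d) {u : L}
    (hu : Transcendental k u) (h : aeval ![u, 1] c = 0) : c = 0 := by
  classical
  by_contra hne
  set Q : Polynomial k := aeval ![Polynomial.X, 1] c with hQ
  have h1 : Polynomial.aeval u Q = aeval ![u, 1] c := by
    rw [hQ, ← AlgHom.comp_apply]
    congr 1
    ext i
    fin_cases i <;> simp
  have h2 : Q = 0 := by
    by_contra hQ0
    exact hu ⟨Q, hQ0, by rw [h1, h]⟩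
  obtain ⟨a, ha⟩ := MvPolynomial.ne_zero_iff.1 hne
  have h3 : Q.coeff (a 0) = coeff a c := by
    rw [hQ, aeval_def, eval₂_eq', Polynomial.finset_sum_coeff]
    have hdeg : ∀ b ∈ c.support, b 0 + b 1 = d := by
      intro b hb
      have := hc (mem_support_iff.1 hb)
      rw [Finsupp.weight_apply, Finsupp.sum_fintype _ _ (fun _ => by simp), Fin.sum_univ_two] at this
      simpa using this
    rw [Finset.sum_eq_single a]
    · simp [Fin.prod_univ_two, Polynomial.algebraMap_apply, Polynomial.coeff_C_mul_X_pow]
    · intro b hb hba
      have h4 : b 0 ≠ a 0 := by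
        intro h5
        apply hba
        have h6 := hdeg b hb
        have h7 := hdeg a (mem_support_iff.2 ha)
        ext i
        fin_cases i
        · exact h5
        · simp only [Fin.mk_one]; omega
      simp only [Fin.prod_univ_two, Matrix.cons_val_zero, Matrix.cons_val_one, one_pow, mul_one,
        Polynomial.algebraMap_apply, Polynomial.coeff_C_mul_X_pow]
      rw [if_neg (fun h5 => h4 h5.symm)]
    · intro h5
      simp [notMem_support_iff.1 h5]
  rw [h2, Polynomial.coeff_zero] at h3
  exact ha h3.symm

/-- `T p_i` and `T p_j` are algebraically independent if `p_i / p_j` is transcendental -/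
theorem algebraicIndependent_conePt {k L : Type*} [Field k] [Field L] [Algebra k L]
    {a b : L} (hb : b ≠ 0) (hab : Transcendental k (a / b)) :
    AlgebraicIndependent k ![Polynomial.X * Polynomial.C a, Polynomial.X * Polynomial.C b] := by
  rw [algebraicIndependent_iff]
  intro c hc
  have h1 : aeval (conePt ![a, b]) c = 0 := by
    have : conePt ![a, b] = ![Polynomial.X * Polynomial.C a, Polynomial.X * Polynomial.C b] := by
      ext i
      fin_cases i <;> simp [conePt]
    rw [this]; exact hc
  rw [aeval_conePt_eq_zero_iff] at h1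
  rw [← sum_homogeneousComponent c]
  refine Finset.sum_eq_zero fun d _ => ?_
  apply eq_zero_of_homogeneous_two (homogeneousComponent_isHomogeneous d c) hab
  have h2 : ![a, b] = fun i => b * (![a / b, 1] : Fin 2 → L) i := by
    ext i
    fin_cases i
    · simp; field_simp
    · simp
  have h3 := h1 d
  rw [h2, aeval_mul_of_homogeneous (homogeneousComponent_isHomogeneous d c)] at h3
  exact (mul_eq_zero.1 h3).resolve_left (pow_ne_zero _ hb)

end Pool.Agent.Helper11
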