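import Pool.Agent.Helper11.ExtChi

set_option linter.unusedSectionVars false

namespace Pool.Agent.Helper11

open IntermediateField Polynomial

/-- the Landen (arithmetic-geometric mean) tower over `t ^ M`, with Kummer elements -/
structure IsTower {F L : Type*} [Field F] [Field L] [Algebra F L] (t : F) (M m q : ℕ)
    (s y : ℕ → L) : Prop where
  zero : s 0 = algebraMap F L (t ^ M)
  succ : ∀ i < m, s (i + 1) ^ 2 * (1 + s i ^ 2) = 2 * s i
  ypow : ∀ i ≤ m, y i ^ q = s i ^ 4
  top : IntermediateField.adjoin F (s '' {i | i ≤ m} ∪ y '' {i | i ≤ m}) = ⊤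

section Local

variable {k L : Type*} [Field k] [Field L] [Algebra k L] [FunField k L] [CharZero k] [IsAlgClosed k]

theorem two_ne_zero_L (k : Type*) {L : Type*} [Field k] [Field L] [Algebra k L] [CharZero k] :
    (2 : L) ≠ 0 := by
  have h1 : (algebraMap k L) 2 ≠ 0 := by rw [Ne, map_eq_zero]; exact two_ne_zero
  have h2 : (algebraMap k L) 2 = 2 := map_ofNat _ 2
  rwa [h2] at h1

theorem Place.ord_two (w : Place k L) : w.ord 2 = 0 := by
  have h1 := w.ord_algebraMap 2
  have h2 : (algebraMap k L) 2 = 2 := map_ofNat _ 2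
  rwa [h2] at h1

omit [FunField k L] in
theorem transcendental_step {a b : L} (ha : Transcendental k a) (h : b ^ 2 * (1 + a ^ 2) = 2 * a) :
    Transcendental k b := by
  intro hb
  obtain ⟨c, rfl⟩ := mem_range_of_isAlgebraic hb
  apply ha
  by_cases hc : c = 0
  · subst hc
    rw [map_zero] at h
    have h2 : (2 : L) ≠ 0 := two_ne_zero_L k
    have h3 : a = 0 := by
      have : 2 * a = 0 := by rw [← h]; ring
      exact (mul_eq_zero.1 this).resolve_left h2
    rw [h3]; exact isAlgebraic_zero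
  · refine ⟨C (c ^ 2) * X ^ 2 - C 2 * X + C (c ^ 2), ?_, ?_⟩
    · intro h0
      have := congrArg (fun p => eval 0 p) h0
      simp at this
      exact hc this
    · simp only [map_add, map_sub, map_mul, aeval_C, map_pow, aeval_X]
      have h2 : (algebraMap k L) 2 = 2 := map_ofNat _ 2
      rw [h2]
      linear_combination h

omit [FunField k L] [CharZero k] [IsAlgClosed k] in
theorem one_add_sq_ne_zero {a : L} (ha : Transcendental k a) : 1 + a ^ 2 ≠ 0 := by
  intro h
  apply ha
  refine ⟨1 + X ^ 2, ?_, ?_⟩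
  · intro h0
    have := congrArg (fun p => coeff p 0) h0
    simp at this
  · simpa using h

theorem one_sub_sq_ne_zero {a : L} (ha : Transcendental k a) : 1 - a ^ 2 ≠ 0 := by
  intro h
  apply ha
  refine ⟨1 - X ^ 2, ?_, ?_⟩
  · intro h0
    have := congrArg (fun p => coeff p 0) h0
    simp at this
  · simpa using h

theorem ne_zero_of_transcendental {a : L} (ha : Transcendental k a) : a ≠ 0 := by
  rintro rfl
  exact ha isAlgebraic_zero

namespace Place

variable (w : Place k L)

theorem ord_one_add_sq_of_pos {a : L} (h : 0 < w.ord a) : w.ord (1 + a ^ 2) = 0 := by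
  have := w.ord_add_eq_left (x := 1) (y := a ^ 2) one_ne_zero (by
    right; rw [w.ord_pow, w.ord_one]; push_cast; omega)
  rw [w.ord_one] at this
  exact this.2

theorem ord_one_add_sq_of_neg {a : L} (h : w.ord a < 0) : w.ord (1 + a ^ 2) = 2 * w.ord a := by
  have := w.ord_add_eq_right (x := 1) (y := a ^ 2)
    (pow_ne_zero _ (w.ne_zero_of_ord_ne_zero h.ne)) (by
    right; rw [w.ord_pow, w.ord_one]; push_cast; omega)
  rw [w.ord_pow] at this
  push_cast at this
  exact this.2

theorem ord_one_add_sq_nonneg {a : L} (ha : 0 ≤ w.ord a) : 0 ≤ w.ord (1 + a ^ 2) := by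
  by_cases h : 1 + a ^ 2 = 0
  · rw [h, w.ord_zero]
  · refine w.le_ord_of_mem (add_mem w.one_mem_ge ?_) h
    have := w.pow_mem_ge (w.mem_ge_of_le ha) 2
    simpa using this

theorem ord_one_sub_sq_nonneg {a : L} (ha : 0 ≤ w.ord a) : 0 ≤ w.ord (1 - a ^ 2) := by
  by_cases h : 1 - a ^ 2 = 0
  · rw [h, w.ord_zero]
  · refine w.le_ord_of_mem (sub_mem w.one_mem_ge ?_) h
    have := w.pow_mem_ge (w.mem_ge_of_le ha) 2
    simpa using this

/-- the basic relation between the orders in the tower -/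
theorem ord_step {a b : L} (ha : Transcendental k a) (h : b ^ 2 * (1 + a ^ 2) = 2 * a) :
    2 * w.ord b + w.ord (1 + a ^ 2) = w.ord a := by
  have hb := transcendental_step ha h
  have h1 := congrArg w.ord h
  rw [w.ord_mul _ _ (pow_ne_zero _ (ne_zero_of_transcendental hb)) (one_add_sq_ne_zero ha),
    w.ord_mul _ _ (two_ne_zero_L k) (ne_zero_of_transcendental ha), w.ord_pow, w.ord_two] at h1
  push_cast at h1
  omega

theorem ord_step_of_pos {a b : L} (ha : Transcendental k a) (h : b ^ 2 * (1 + a ^ 2) = 2 * a)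
    (hp : 0 < w.ord a) : 2 * w.ord b = w.ord a := by
  have h1 := w.ord_step ha h
  rw [w.ord_one_add_sq_of_pos hp] at h1
  omega

theorem ord_step_of_neg {a b : L} (ha : Transcendental k a) (h : b ^ 2 * (1 + a ^ 2) = 2 * a)
    (hp : w.ord a < 0) : 2 * w.ord b = - w.ord a := by
  have h1 := w.ord_step ha h
  rw [w.ord_one_add_sq_of_neg hp] at h1
  omega

theorem ord_step_pos_of_ne {a b : L} (ha : Transcendental k a) (h : b ^ 2 * (1 + a ^ 2) = 2 * a)
    (hp : w.ord a ≠ 0) : 0 < w.ord b := by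
  rcases lt_or_gt_of_ne hp with h1 | h1
  · have := w.ord_step_of_neg ha h h1; omega
  · have := w.ord_step_of_pos ha h h1; omega

theorem four_eq {a b : L} (_ha : Transcendental k a) (h : b ^ 2 * (1 + a ^ 2) = 2 * a) :
    (1 - b ^ 4) * (1 + a ^ 2) ^ 2 = (1 - a ^ 2) ^ 2 := by
  linear_combination (-(b ^ 2 * (1 + a ^ 2)) - 2 * a) * h

theorem one_sub_four_ne_zero {a : L} (ha : Transcendental k a) : 1 - a ^ 4 ≠ 0 := by
  have h1 := one_add_sq_ne_zero ha
  have h2 := one_sub_sq_ne_zero ha
  have h3 : 1 - a ^ 4 = (1 - a ^ 2) * (1 + a ^ 2) := by ring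
  rw [h3]; exact mul_ne_zero h2 h1

theorem mem_suppS_iff {a : L} (ha : Transcendental k a) :
    w ∉ suppS k (a ^ 4) ↔ w.ord a = 0 ∧ w.ord (1 + a ^ 2) = 0 ∧ w.ord (1 - a ^ 2) = 0 := by
  have h3 : 1 - a ^ 4 = (1 - a ^ 2) * (1 + a ^ 2) := by ring
  have h1 := one_add_sq_ne_zero ha
  have h2 := one_sub_sq_ne_zero ha
  unfold suppS
  simp only [Set.mem_ofPred_eq, not_or, not_not]
  rw [h3, w.ord_mul _ _ h2 h1, w.ord_pow]
  constructor
  · rintro ⟨h4, h5⟩
    push_cast at h4
    have h6 : w.ord a = 0 := by omega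
    have h7 := w.ord_one_add_sq_nonneg h6.ge
    have h8 := w.ord_one_sub_sq_nonneg h6.ge
    exact ⟨h6, by omega, by omega⟩
  · rintro ⟨h4, h5, h6⟩
    rw [h4, h5, h6]; simp

theorem mem_suppS_step {a b : L} (ha : Transcendental k a) (h : b ^ 2 * (1 + a ^ 2) = 2 * a) :
    w ∈ suppS k (b ^ 4) ↔ w ∈ suppS k (a ^ 4) := by
  rw [← not_iff_not, w.mem_suppS_iff ha, w.mem_suppS_iff (transcendental_step ha h)]
  have hb := transcendental_step ha h
  have h1 := w.ord_step ha h
  have h2 := congrArg w.ord (four_eq ha h)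
  have h3 : 1 - b ^ 4 = (1 - b ^ 2) * (1 + b ^ 2) := by ring
  rw [w.ord_mul _ _ (one_sub_four_ne_zero hb) (pow_ne_zero _ (one_add_sq_ne_zero ha)), w.ord_pow,
    w.ord_pow, h3, w.ord_mul _ _ (one_sub_sq_ne_zero hb) (one_add_sq_ne_zero hb)] at h2
  push_cast at h2
  constructor
  · rintro ⟨h4, h5, h6⟩
    have h7 : w.ord a = 0 := by
      by_contra h8
      have := w.ord_step_pos_of_ne ha h h8
      omega
    have h9 : w.ord (1 + a ^ 2) = 0 := by omega
    exact ⟨h7, h9, by omega⟩
  · rintro ⟨h4, h5, h6⟩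
    have h7 : w.ord b = 0 := by omega
    have h8 := w.ord_one_add_sq_nonneg h7.ge
    have h9 := w.ord_one_sub_sq_nonneg h7.ge
    exact ⟨h7, by omega, by omega⟩

end Place

theorem ht_step {a b : L} (ha : Transcendental k a) (h : b ^ 2 * (1 + a ^ 2) = 2 * a) :
    ht k b = ht k a := by
  have h1 : ∀ w : Place k L, 2 * max 0 (-w.ord b) = max 0 (w.ord (1 + a ^ 2)) := by
    intro w
    have h2 := w.ord_step ha h
    rcases lt_trichotomy (w.ord a) 0 with h3 | h3 | h3
    · have := w.ord_step_of_neg ha h h3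
      have := w.ord_one_add_sq_of_neg h3
      rw [max_eq_left (by omega), max_eq_left (by omega)]
      rfl
    · have := w.ord_one_add_sq_nonneg h3.ge
      rw [max_eq_right (by omega), max_eq_right (by omega)]
      omega
    · have := w.ord_step_of_pos ha h h3
      have := w.ord_one_add_sq_of_pos h3
      rw [max_eq_left (by omega), max_eq_left (by omega)]
      rfl
  have h2 : 2 * ht k b = ht k (1 + a ^ 2) := by
    rw [ht_eq_pos (1 + a ^ 2)]
    unfold ht
    rw [← fs_const_mul]
    exact finsum_congr h1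
  have h3 : (1 + X ^ 2 : k[X]).natDegree = 2 := by
    rw [add_comm]; exact natDegree_X_pow_add_C (r := 1)
  have h4 : (1 + X ^ 2 : k[X]) ≠ 0 := by
    intro h0
    rw [h0, natDegree_zero] at h3
    omega
  have h5 := ht_aeval (k := k) a h4
  rw [h3] at h5
  simp only [map_add, map_one, map_pow, aeval_X] at h5
  rw [h5] at h2
  push_cast at h2
  omega

end Local

end Pool.Agent.Helper11
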