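import Pool.Agent.Helper11.TowerGlobal

set_option linter.unusedSectionVars false

namespace Pool.Agent.Helper11

open IntermediateField Polynomial

/-- successive elements of the tower in an algebraically closed field -/
noncomputable def towerSeq {Ω : Type*} [Field Ω] [IsAlgClosed Ω] (a : Ω) : ℕ → Ω
  | 0 => a
  | n + 1 => (IsAlgClosed.exists_pow_nat_eq (2 * towerSeq a n / (1 + towerSeq a n ^ 2))
      (n := 2) two_pos).choose

theorem towerSeq_succ {Ω : Type*} [Field Ω] [IsAlgClosed Ω] (a : Ω) (n : ℕ) :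
    towerSeq a (n + 1) ^ 2 = 2 * towerSeq a n / (1 + towerSeq a n ^ 2) := by
  rw [towerSeq]
  exact (IsAlgClosed.exists_pow_nat_eq (2 * towerSeq a n / (1 + towerSeq a n ^ 2))
      (n := 2) two_pos).choose_spec

variable {k F : Type*} [Field k] [Field F] [Algebra k F] [FunField k F] [CharZero k]
  [IsAlgClosed k]

theorem exists_tower {t : F} (htr : Transcendental k t) {M q : ℕ} (m : ℕ) (hM : 1 ≤ M)
    (hq : 1 ≤ q) :
    ∃ L : IntermediateField F (AlgebraicClosure F), FiniteDimensional F L ∧
      ∃ s y : ℕ → L, IsTower t M m q s y := by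
  classical
  set Ω := AlgebraicClosure F with hΩ
  set r : ℕ → Ω := towerSeq (algebraMap F Ω (t ^ M)) with hr
  have hrtr : ∀ i, Transcendental k (r i) := by
    intro i
    induction i with
    | zero =>
      have h0 : r 0 = algebraMap F Ω (t ^ M) := rfl
      rw [h0]
      intro h
      exact (htr.pow (by omega)) ((isAlgebraic_algHom_iff (IsScalarTower.toAlgHom k F Ω)
        (algebraMap F Ω).injective).1 h)
    | succ i ih =>
      apply transcendental_step ih
      have h1 := one_add_sq_ne_zero ih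
      have h2 : r (i + 1) ^ 2 = 2 * r i / (1 + r i ^ 2) := towerSeq_succ _ i
      rw [h2, div_mul_cancel₀ _ h1]
  have hrs : ∀ i, r (i + 1) ^ 2 * (1 + r i ^ 2) = 2 * r i := by
    intro i
    have h1 := one_add_sq_ne_zero (hrtr i)
    have h2 : r (i + 1) ^ 2 = 2 * r i / (1 + r i ^ 2) := towerSeq_succ _ i
    rw [h2, div_mul_cancel₀ _ h1]
  have hz : ∀ i, ∃ z : Ω, z ^ q = r i ^ 4 := fun i => IsAlgClosed.exists_pow_nat_eq _ (by omega)
  choose z hz using hz
  set S : Set Ω := r '' {i | i ≤ m} ∪ z '' {i | i ≤ m} with hS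
  have hSfin : S.Finite := ((Set.finite_Iic m).image r).union ((Set.finite_Iic m).image z)
  have : Finite S := hSfin
  have hint : ∀ x ∈ S, IsIntegral F x := fun x _ => Algebra.IsIntegral.isIntegral x
  refine ⟨IntermediateField.adjoin F S, IntermediateField.finiteDimensional_adjoin hint, ?_⟩
  have hrS : ∀ i ≤ m, r i ∈ IntermediateField.adjoin F S := fun i hi =>
    IntermediateField.subset_adjoin F S (Or.inl ⟨i, hi, rfl⟩)
  have hzS : ∀ i ≤ m, z i ∈ IntermediateField.adjoin F S := fun i hi =>
    IntermediateField.subset_adjoin F S (Or.inr ⟨i, hi, rfl⟩)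
  set s : ℕ → IntermediateField.adjoin F S := fun i => if h : i ≤ m then ⟨r i, hrS i h⟩ else 0
    with hs
  set y : ℕ → IntermediateField.adjoin F S := fun i => if h : i ≤ m then ⟨z i, hzS i h⟩ else 0
    with hy
  have hsr : ∀ i ≤ m, ((s i : IntermediateField.adjoin F S) : Ω) = r i := by
    intro i hi
    simp only [hs, dif_pos hi]
  have hyz : ∀ i ≤ m, ((y i : IntermediateField.adjoin F S) : Ω) = z i := by
    intro i hi
    simp only [hy, dif_pos hi]
  refine ⟨s, y, ?_, ?_, ?_, ?_⟩
  · apply Subtype.ext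
    rw [hsr 0 (Nat.zero_le _)]
    rfl
  · intro i hi
    apply Subtype.ext
    have h1 := hrs i
    rw [← hsr i (by omega), ← hsr (i + 1) (by omega)] at h1
    exact h1
  · intro i hi
    apply Subtype.ext
    have h1 := hz i
    rw [← hsr i hi, ← hyz i hi] at h1
    exact h1
  · apply IntermediateField.lift_injective (IntermediateField.adjoin F S)
    rw [IntermediateField.lift_adjoin, IntermediateField.lift_top]
    congr 1
    rw [Set.image_union]
    refine congrArg₂ _ ?_ ?_
    · ext x
      constructor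
      · rintro ⟨_, ⟨i, hi, rfl⟩, rfl⟩
        exact ⟨i, hi, (hsr i hi).symm⟩
      · rintro ⟨i, hi, rfl⟩
        exact ⟨s i, ⟨i, hi, rfl⟩, hsr i hi⟩
    · ext x
      constructor
      · rintro ⟨_, ⟨i, hi, rfl⟩, rfl⟩
        exact ⟨i, hi, (hyz i hi).symm⟩
      · rintro ⟨i, hi, rfl⟩
        exact ⟨y i, ⟨i, hi, rfl⟩, hyz i hi⟩

end Pool.Agent.Helper11
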