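import Pool.Agent.Helper11.Tower

set_option linter.unusedSectionVars false

namespace Pool.Agent.Helper11

open IntermediateField Polynomial

variable {k F L : Type*} [Field k] [Field F] [Field L] [Algebra k F] [Algebra k L] [Algebra F L]
  [IsScalarTower k F L] [FunField k F] [FunField k L] [CharZero k] [IsAlgClosed k]
  [FiniteDimensional F L]

theorem Place.der_algebraMap_unif (w : Place k L) (v : Place k F) (y : F) :
    der (transcendental_algebraMap (L := L) v.transcendental_unif) (algebraMap F L y) =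
      algebraMap F L (v.dv y) := by
  set δ := der (transcendental_algebraMap (L := L) v.transcendental_unif) with hδ
  have h1 := w.dv_algebraMap v y
  have h2 := w.derivation_eq δ (algebraMap F L y)
  have h3 := w.derivation_eq δ (algebraMap F L v.unif)
  have h4 : δ (algebraMap F L v.unif) = 1 := der_self _
  rw [h2, h1]
  rw [h4] at h3
  linear_combination -(algebraMap F L (v.dv y)) * h3

namespace IsTower

variable {t : F} {M m q : ℕ} {s y : ℕ → L} (T : IsTower t M m q s y)

include T

theorem transcendental_s (htr : Transcendental k t) (hM : 1 ≤ M) : ∀ i ≤ m, Transcendental k (s i) := by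
  intro i
  induction i with
  | zero =>
    intro _
    rw [T.zero]
    exact transcendental_algebraMap (htr.pow (by omega))
  | succ i ih =>
    intro hi
    exact transcendental_step (ih (by omega)) (T.succ i (by omega))

theorem ht_s (htr : Transcendental k t) (hM : 1 ≤ M) :
    ∀ i ≤ m, ht k (s i) = M * ((Module.finrank F L : ℤ) * ht k t) := by
  intro i
  induction i with
  | zero =>
    intro _
    rw [T.zero, ht_ext, ht_pow]; ring
  | succ i ih =>
    intro hi
    rw [ht_step (T.transcendental_s htr hM i (by omega)) (T.succ i (by omega))]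
    exact ih (by omega)

theorem suppS_eq (htr : Transcendental k t) (hM : 1 ≤ M) :
    ∀ i ≤ m, suppS k (s i ^ 4) = suppS k (s 0 ^ 4) := by
  intro i
  induction i with
  | zero => intro _; rfl
  | succ i ih =>
    intro hi
    rw [← ih (by omega)]
    ext w
    exact w.mem_suppS_step (T.transcendental_s htr hM i (by omega)) (T.succ i (by omega))

theorem y_ne_zero (htr : Transcendental k t) (hM : 1 ≤ M) (hq : 1 ≤ q) {i : ℕ} (hi : i ≤ m) :
    y i ≠ 0 := by
  intro h0
  have h1 := T.ypow i hi
  rw [h0, zero_pow (by omega)] at h1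
  exact pow_ne_zero 4 (ne_zero_of_transcendental (T.transcendental_s htr hM i hi)) h1.symm

theorem ord_y {i : ℕ} (hi : i ≤ m) (w : Place k L) :
    q * w.ord (y i) = 4 * w.ord (s i) := by
  have h1 := congrArg w.ord (T.ypow i hi)
  rw [w.ord_pow, w.ord_pow] at h1
  exact_mod_cast h1

theorem unramified (htr : Transcendental k t) (hM : 1 ≤ M) (hq : 1 ≤ q) (w : Place k L)
    (hw : w ∉ suppS k (s 0 ^ 4)) : w.ram F = 1 := by
  have hs : ∀ i ≤ m, s i ≠ 0 ∧ 1 + s i ^ 2 ≠ 0 ∧ w.ord (s i) = 0 ∧ w.ord (1 + s i ^ 2) = 0 := by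
    intro i hi
    have h1 := T.transcendental_s htr hM i hi
    rw [← T.suppS_eq htr hM i hi, w.mem_suppS_iff h1] at hw
    exact ⟨ne_zero_of_transcendental h1, one_add_sq_ne_zero h1, hw.1, hw.2.1⟩
  have hy : ∀ i ≤ m, y i ≠ 0 ∧ w.ord (y i) = 0 := by
    intro i hi
    refine ⟨T.y_ne_zero htr hM hq hi, ?_⟩
    have h1 := T.ord_y hi w
    rw [(hs i hi).2.2.1] at h1
    have h2 : (q : ℤ) ≠ 0 := by omega
    exact (mul_eq_zero.1 (by simpa using h1)).resolve_left h2
  set G : Set L := {x | ∃ i ≤ m, x = s i ∨ x = (s i)⁻¹ ∨ x = (1 + s i ^ 2)⁻¹ ∨ x = y i ∨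
    x = (y i)⁻¹} with hG
  refine w.ram_eq_one G ?_ ?_ ?_
  · rw [eq_top_iff, ← T.top]
    apply IntermediateField.adjoin.mono
    rintro x (⟨i, hi, rfl⟩ | ⟨i, hi, rfl⟩)
    · exact ⟨i, hi, Or.inl rfl⟩
    · exact ⟨i, hi, Or.inr (Or.inr (Or.inr (Or.inl rfl)))⟩
  · rintro x ⟨i, hi, rfl | rfl | rfl | rfl | rfl⟩
    · exact w.mem_ge_of_le (hs i hi).2.2.1.ge
    · exact w.mem_ge_of_le (by rw [w.ord_inv, (hs i hi).2.2.1, neg_zero])
    · exact w.mem_ge_of_le (by rw [w.ord_inv, (hs i hi).2.2.2, neg_zero])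
    · exact w.mem_ge_of_le (hy i hi).2.ge
    · exact w.mem_ge_of_le (by rw [w.ord_inv, (hy i hi).2, neg_zero])
  · set v := w.res F with hv
    set δ := der (transcendental_algebraMap (L := L) v.transcendental_unif) with hδ
    set A := Algebra.adjoin k ((algebraMap F L '' {y | y ∈ v.ge 0}) ∪ G) with hA
    have hGA : ∀ x ∈ G, x ∈ A := fun x hx => Algebra.subset_adjoin (Or.inr hx)
    have hsA : ∀ i ≤ m, s i ∈ A := fun i hi => hGA _ ⟨i, hi, Or.inl rfl⟩
    have hsA' : ∀ i ≤ m, (s i)⁻¹ ∈ A := fun i hi => hGA _ ⟨i, hi, Or.inr (Or.inl rfl)⟩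
    have hsA'' : ∀ i ≤ m, (1 + s i ^ 2)⁻¹ ∈ A := fun i hi =>
      hGA _ ⟨i, hi, Or.inr (Or.inr (Or.inl rfl))⟩
    have hyA : ∀ i ≤ m, y i ∈ A := fun i hi =>
      hGA _ ⟨i, hi, Or.inr (Or.inr (Or.inr (Or.inl rfl)))⟩
    have hyA' : ∀ i ≤ m, (y i)⁻¹ ∈ A := fun i hi =>
      hGA _ ⟨i, hi, Or.inr (Or.inr (Or.inr (Or.inr rfl)))⟩
    have hδs : ∀ i ≤ m, δ (s i) ∈ A := by
      intro i
      induction i with
      | zero =>
        intro hi
        rw [T.zero, hδ, w.der_algebraMap_unif v]
        refine Algebra.subset_adjoin (Or.inl ⟨_, v.dv_mem_ge_zero ?_, rfl⟩)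
        apply v.mem_ge_of_le
        have h1 := (hs 0 hi).2.2.1
        rw [T.zero, w.ord_restrict] at h1
        have h2 := w.ram_pos F
        rcases mul_eq_zero.1 h1 with h3 | h3
        · omega
        · exact h3.ge
      | succ i ih =>
        intro hi
        have h1 := congrArg δ (T.succ i (by omega))
        have h2 : δ 1 = 0 := Derivation.map_one_eq_zero δ
        have h3 : δ 2 = 0 := by
          have := Derivation.map_algebraMap δ 2
          have h4 : (algebraMap k L) 2 = 2 := map_ofNat _ 2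
          rwa [h4] at this
        simp only [Derivation.leibniz, map_add, h2, h3, Derivation.leibniz_pow, smul_eq_mul,
          mul_zero, add_zero, zero_add, nsmul_eq_mul] at h1
        have h5 := hs i (by omega)
        have h6 := hs (i + 1) hi
        have h7 : δ (s (i + 1)) = δ (s i) * (1 - s (i + 1) ^ 2 * s i) * (s (i + 1))⁻¹ *
            (1 + s i ^ 2)⁻¹ := by
          have h8 : (2 : L) ≠ 0 := two_ne_zero_L k
          have h9 := h5.2.1
          have h10 := h6.1
          rw [eq_mul_inv_iff_mul_eq₀ h9, eq_mul_inv_iff_mul_eq₀ h10]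
          apply mul_left_cancel₀ h8
          push_cast at h1
          linear_combination h1
        rw [h7]
        exact mul_mem (mul_mem (mul_mem (ih (by omega)) (sub_mem (one_mem _)
          (mul_mem (pow_mem (hsA _ hi) 2) (hsA _ (by omega))))) (hsA' _ hi)) (hsA'' _ (by omega))
    have hδy : ∀ i ≤ m, δ (y i) ∈ A := by
      intro i hi
      have h1 := congrArg δ (T.ypow i hi)
      simp only [Derivation.leibniz_pow, smul_eq_mul, nsmul_eq_mul] at h1
      have h5 := hs i hi
      have h6 := hy i hi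
      have hq0 : (q : k) ≠ 0 := by
        have : q ≠ 0 := by omega
        exact_mod_cast this
      have hqL : (q : L) ≠ 0 := by
        have : algebraMap k L q ≠ 0 := by rwa [Ne, map_eq_zero]
        simpa using this
      have h7 : δ (y i) = algebraMap k L (4 * (q : k)⁻¹) * δ (s i) * s i ^ 3 * y i * (s i)⁻¹ ^ 4 := by
        have h8 : algebraMap k L (4 * (q : k)⁻¹) = 4 * (q : L)⁻¹ := by
          rw [map_mul, map_inv₀, map_natCast, map_ofNat]
        have h9 : y i ^ (q - 1) * y i = s i ^ 4 := by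
          rw [← pow_succ, Nat.sub_add_cancel hq, T.ypow i hi]
        rw [h8, inv_pow, eq_mul_inv_iff_mul_eq₀ (pow_ne_zero _ h5.1)]
        apply mul_left_cancel₀ hqL
        have h10 : (q : L) * (4 * (q : L)⁻¹ * δ (s i) * s i ^ 3 * y i) =
          4 * δ (s i) * s i ^ 3 * y i := by field_simp
        rw [h10, ← h9]
        push_cast at h1
        linear_combination (y i) * h1
      rw [h7]
      exact mul_mem (mul_mem (mul_mem (mul_mem (Subalgebra.algebraMap_mem _ _) (hδs i hi))
        (pow_mem (hsA i hi) 3)) (hyA i hi)) (pow_mem (hsA' i hi) 4)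
    have hinv : ∀ a : L, a⁻¹ ∈ A → δ a ∈ A → δ a⁻¹ ∈ A := by
      intro a h1 h2
      rw [Derivation.leibniz_inv, smul_eq_mul]
      exact mul_mem (neg_mem (pow_mem h1 2)) h2
    rintro x ⟨i, hi, rfl | rfl | rfl | rfl | rfl⟩
    · exact hδs i hi
    · exact hinv _ (hsA' i hi) (hδs i hi)
    · refine hinv _ (hsA'' i hi) ?_
      rw [map_add, Derivation.map_one_eq_zero, zero_add, Derivation.leibniz_pow, smul_eq_mul,
        nsmul_eq_mul]
      have : ((2 : ℕ) : L) ∈ A := by
        have := Subalgebra.algebraMap_mem A ((2 : ℕ) : k)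
        rwa [map_natCast] at this
      exact mul_mem this (mul_mem (pow_mem (hsA i hi) _) (hδs i hi))
    · exact hδy i hi
    · exact hinv _ (hyA' i hi) (hδy i hi)

theorem chi_bound (htr : Transcendental k t) (hM : 1 ≤ M) (hq : 1 ≤ q) :
    chi k L + ((suppS k (s 0 ^ 4)).ncard : ℤ) ≤ (Module.finrank F L : ℤ) *
      ((∑ᶠ v : Place k F, max 0 (v.ord (v.dv t)) * ht k v.unif) + (4 * M + 2) * ht k t) := by
  classical
  have hS := finite_suppS (k := k) (s 0 ^ 4)
  have h1 := chi_add_card_le (L := L) htr (suppS k (s 0 ^ 4)) hS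
    (fun w hw => T.unramified htr hM hq w hw)
  set a : L := algebraMap F L t with ha
  have hs0 : s 0 = a ^ M := by rw [T.zero, map_pow]
  have h2 : ∑ᶠ w ∈ suppS k (s 0 ^ 4), (w.ram F : ℤ) ≤
      ∑ᶠ w : Place k L, (max 0 (w.ord a) + max 0 (-w.ord a) + max 0 (w.ord (1 - s 0 ^ 4))) := by
    have h3 : ∑ᶠ w ∈ suppS k (s 0 ^ 4), (w.ram F : ℤ) =
        ∑ᶠ w : Place k L, (if w ∈ suppS k (s 0 ^ 4) then (w.ram F : ℤ) else 0) := by
      refine finsum_congr fun w => ?_
      by_cases hw : w ∈ suppS k (s 0 ^ 4)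
      · simp [hw]
      · simp [hw]
    rw [h3]
    refine fs_mono (supp_of_imp hS fun w hw => if_neg hw)
      (supp_add (supp_add (supp_pospart _) (supp_negpart _)) (supp_pospart _)) fun w => ?_
    have hram := w.ram_pos F
    have e1 : 1 - s 0 ^ 4 = algebraMap F L (1 - (t ^ M) ^ 4) := by
      simp only [T.zero, map_sub, map_one, map_pow]
    by_cases hw : w ∈ suppS k (s 0 ^ 4)
    · rw [if_pos hw]
      have key : ∀ z : ℤ, z ≠ 0 → (w.ram F : ℤ) ≤ |(w.ram F : ℤ) * z| := by
        intro z hz
        rw [abs_mul, abs_of_nonneg (by omega : (0 : ℤ) ≤ w.ram F)]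
        have : 1 ≤ |z| := Int.one_le_abs hz
        nlinarith
      have hmax : ∀ z : ℤ, |z| = max 0 z + max 0 (-z) := by
        intro z
        rcases le_total 0 z with h | h
        · rw [abs_of_nonneg h, max_eq_right h, max_eq_left (by omega)]; ring
        · rw [abs_of_nonpos h, max_eq_left h, max_eq_right (by omega)]; ring
      by_cases h4 : w.ord (s 0) = 0
      · have h5 : 0 ≤ w.ord (1 - s 0 ^ 4) := by
          have h6 : w.ord (s 0 ^ 2) = 0 := by rw [w.ord_pow, h4, mul_zero]
          have := w.ord_one_sub_sq_nonneg h6.ge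
          rwa [← pow_mul] at this
        have h7 : w.ord (1 - s 0 ^ 4) ≠ 0 := by
          intro h8
          rcases hw with h9 | h9
          · rw [w.ord_pow, h4, mul_zero] at h9; exact h9 rfl
          · exact h9 h8
        have h10 : (w.ram F : ℤ) ≤ |w.ord (1 - s 0 ^ 4)| := by
          rw [e1, w.ord_restrict]
          refine key _ fun h11 => ?_
          rw [e1, w.ord_restrict, h11, mul_zero] at h7
          exact h7 rfl
        rw [abs_of_nonneg h5] at h10
        have := le_max_left 0 (w.ord a)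
        have := le_max_left 0 (-w.ord a)
        have := le_max_right 0 (w.ord (1 - s 0 ^ 4))
        linarith
      · have h5 : w.ord a ≠ 0 := by
          intro h6
          rw [hs0, w.ord_pow, h6, mul_zero] at h4
          exact h4 rfl
        have h10 : (w.ram F : ℤ) ≤ |w.ord a| := by
          rw [ha, w.ord_restrict]
          refine key _ fun h11 => ?_
          rw [ha, w.ord_restrict, h11, mul_zero] at h5
          exact h5 rfl
        rw [hmax] at h10
        have := le_max_left 0 (w.ord (1 - s 0 ^ 4))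
        linarith
    · rw [if_neg hw]
      have := le_max_left 0 (w.ord a)
      have := le_max_left 0 (-w.ord a)
      have := le_max_left 0 (w.ord (1 - s 0 ^ 4))
      linarith
  rw [fs_add (supp_add (supp_pospart _) (supp_negpart _)) (supp_pospart _),
    fs_add (supp_pospart _) (supp_negpart _), ← ht_eq_pos, ← ht_eq_pos, ht_one_sub, ht_pow,
    T.ht_s htr hM 0 (Nat.zero_le _)] at h2
  have h3 : ∑ᶠ w : Place k L, max 0 (-w.ord a) = ht k a := rfl
  rw [h3, ha, ht_ext] at h2
  push_cast at h2
  linarith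

end IsTower

end Pool.Agent.Helper11
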