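import Pool.Agent.Helper11.TruncFinal

/-! Consequences of the truncation level one theorem -/

set_option linter.unusedSectionVars false

namespace Pool.Agent.Helper11

open MvPolynomial

universe u w

section

variable {k L ι α : Type*} [Field k] [Field L] [Algebra k L] [FunField k L] [CharZero k]
  [IsAlgClosed k] [Fintype ι] [Fintype α]

/-- members of the system through the reduction of a point -/
theorem eval_eq_zero_of_lt (v : Place k L) {f : ι → L} {c : ι → k}
    (hc : ∀ i, f i - v.unif ^ v.minOrd f * algebraMap k L (c i) ∈ v.ge (v.minOrd f + 1))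
    {G : MvPolynomial ι k} {e : ℕ} (hG : G.IsHomogeneous e)
    (h : e * v.minOrd f < v.ord (aeval f G)) : eval c G = 0 := by
  by_contra hne
  have h1 := aeval_sub_mem v hc hG
  have h2 : aeval f G ∈ v.ge (e * v.minOrd f + 1) := v.mem_ge_of_le (by omega)
  have h3 := sub_mem h2 h1
  rw [sub_sub_cancel] at h3
  have hne' : algebraMap k L (eval c G) ≠ 0 := by rwa [Ne, map_eq_zero]
  have h4 := v.le_ord_of_mem h3 (mul_ne_zero (zpow_ne_zero _ v.unif_ne_zero) hne')
  rw [v.ord_mul _ _ (zpow_ne_zero _ v.unif_ne_zero) hne', v.ord_zpow, v.ord_unif, mul_one,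
    v.ord_algebraMap] at h4
  omega

theorem isHomogeneous_mem' {s : α → MvPolynomial ι k} {e : ℕ} (hs : ∀ a, (s a).IsHomogeneous e)
    (p : α → k) : (mem' s p).IsHomogeneous e := by
  refine IsHomogeneous.sum _ _ _ fun i _ => ?_
  have := (isHomogeneous_C ι (p i)).mul (hs i)
  rwa [zero_add] at this

theorem hitS_finite (F : ι → L) (y : L) : (hitS F y : Set (Place k L)).Finite := by
  apply ((supp_minOrd (k := k) F).union (supp_ord (k := k) y)).subset
  intro v hv
  by_contra hcon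
  rw [Set.mem_union, not_or] at hcon
  obtain ⟨h1, h2⟩ := hcon
  simp only [Set.mem_ofPred_eq, not_not] at h1 h2
  have hv' : v.minOrd F < v.ord y := hv
  omega

/-- the places of multiplicity one -/
def oneS {k L κ : Type*} [Field k] [Field L] [Algebra k L] (F : κ → L) (y : L) :
    Set (Place k L) := {v | v.ord y = v.minOrd F + 1}

/-- multiplicity at least two except at the places of multiplicity one -/
theorem two_mul_ncard_le {F : ι → L} {p : ι → k} (h : pairing F p ≠ 0) :
    2 * ((hitS F (pairing F p) : Set (Place k L)).ncard : ℤ) ≤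
      htP k F + ((oneS F (pairing F p) : Set (Place k L)).ncard : ℤ) := by
  classical
  set H : Set (Place k L) := hitS F (pairing F p) with hH
  set O : Set (Place k L) := oneS F (pairing F p) with hO
  have hHf : H.Finite := hitS_finite F _
  have hOH : O ⊆ H := by
    intro v hv
    have hv' : v.ord (pairing F p) = v.minOrd F + 1 := hv
    change v.minOrd F < v.ord (pairing F p)
    omega
  obtain ⟨D, hD⟩ : ∃ D : Set (Place k L), D = H \ O := ⟨_, rfl⟩
  have hdf : D.Finite := by rw [hD]; exact hHf.sdiff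
  have h1 := fs_mono (f := fun v => if v ∈ D then (1 : ℤ) else 0)
    (g := fun v => exc v F p) (supp_ind hdf) supp_exc (by
      intro v
      by_cases hv : v ∈ D
      · rw [if_pos hv]
        rw [hD] at hv
        have hv1 : v.minOrd F < v.ord (pairing F p) := hv.1
        have hv2 : ¬ v.ord (pairing F p) = v.minOrd F + 1 := hv.2
        unfold exc
        exact le_max_of_le_right (by omega)
      · rw [if_neg hv]
        exact le_max_left _ _)
  rw [fs_ind hdf, finsum_exc h] at h1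
  have h2 := Set.ncard_sdiff_add_ncard_of_subset hOH hHf
  rw [← hH] at h1
  rw [← hD] at h2
  have h3 : (D.ncard : ℤ) + O.ncard = H.ncard := by exact_mod_cast h2
  linarith

end

/-- **Truncation level one for many divisors**: the final form. -/
theorem trunc_final (m n : ℕ) (ε : ℝ) (hε : 0 < ε) : ∃ r₀ : ℕ, ∀ (k : Type u) (ι α : Type)
    [Field k] [IsAlgClosed k] [CharZero k] [Fintype ι] [Fintype α] (_ : Fintype.card α = m + 1)
    (I : Ideal (MvPolynomial ι k)) (c e : ℕ) (s : α → MvPolynomial ι k) (Γ₀ : Finset (α → k))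
    (_ : SncData I c n e s Γ₀)
    (_ : r₀ ≤ Γ₀.card), ∃ (d : ℕ) (Z : MvPolynomial ι k), Z.IsHomogeneous d ∧ Z ∉ I ∧
      ∀ (L : Type w) [Field L] [Algebra k L] [FunField k L] (f : ι → L),
        (∀ F ∈ I, aeval f F = 0) → ¬ IsConstPt k f → (∀ p ∈ Γ₀, aeval f (mem' s p) ≠ 0) →
        aeval f Z ≠ 0 →
        ∑ p ∈ Γ₀, ((e * htP k f : ℝ) -
          ({v : Place k L | e * v.minOrd f < v.ord (aeval f (mem' s p))}.ncard : ℝ)) ≤
          ε * Γ₀.card * (2 * (e * htP k f) + chi k L) ∧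
        (e * htP k f : ℝ) ≤ ε * (chi k L + ({v : Place k L | ∃ p ∈ Γ₀,
          v.ord (aeval f (mem' s p)) = e * v.minOrd f + 1}.ncard : ℝ)) := by
  obtain ⟨r₁, hr₁⟩ := trunc_main.{u, w} m n ε hε
  set ε' : ℝ := ε / (2 * (1 + 2 * ε)) with hε'
  have hε'0 : 0 < ε' := by positivity
  obtain ⟨r₂, hr₂⟩ := trunc_main.{u, w} m n ε' hε'0
  obtain ⟨r₃, hr₃⟩ := exists_nat_ge (n / (2 * ε'))
  refine ⟨max r₁ (max r₂ (r₃ + 1)), fun k ι α _ _ _ _ _ hα I c e s Γ₀ S hr => ?_⟩
  obtain ⟨d₁, Z₁, hZ₁, hZI₁, h₁⟩ := hr₁ k ι α hα I c e s Γ₀ S ((le_max_left _ _).trans hr)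
  obtain ⟨d₂, Z₂, hZ₂, hZI₂, h₂⟩ := hr₂ k ι α hα I c e s Γ₀ S
    (((le_max_left _ _).trans (le_max_right _ _)).trans hr)
  have hr₃' : r₃ + 1 ≤ Γ₀.card := ((le_max_right _ _).trans (le_max_right _ _)).trans hr
  refine ⟨d₁ + d₂, Z₁ * Z₂, hZ₁.mul hZ₂, fun h => (S.prime.mem_or_mem h).elim hZI₁ hZI₂, ?_⟩
  intro L _ _ _ f hfI hfc hfΓ hfZ
  rw [map_mul, mul_ne_zero_iff] at hfZ
  refine ⟨h₁ L f hfI hfc hfΓ hfZ.1, ?_⟩
  have hmain := h₂ L f hfI hfc hfΓ hfZ.2
  classical
  have hf0 : ∃ i, f i ≠ 0 := by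
    by_contra hcon
    push Not at hcon
    exact hfc ⟨0, 0, fun i => by simp [hcon i]⟩
  set F : α → L := fun a => aeval f (s a) with hF
  have hht : htP k F = e * htP k f := htP_system S.hom S.deg S.bpf hfI hf0
  have hmin : ∀ v : Place k L, v.minOrd F = e * v.minOrd f := fun v =>
    (minOrd_system S.hom S.deg S.bpf hfI hf0 v).1
  set N : (α → k) → Set (Place k L) := fun p =>
    {v : Place k L | e * v.minOrd f < v.ord (aeval f (mem' s p))} with hN
  set O : (α → k) → Set (Place k L) := fun p =>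
    {v : Place k L | v.ord (aeval f (mem' s p)) = e * v.minOrd f + 1} with hO
  set T : Set (Place k L) := {v : Place k L | ∃ p ∈ Γ₀,
    v.ord (aeval f (mem' s p)) = e * v.minOrd f + 1} with hT
  have hNeq : ∀ p, N p = hitS F (pairing F p) := by
    intro p
    ext v
    unfold hitS
    rw [hN, Set.mem_ofPred_eq, Set.mem_ofPred_eq, hmin, hF, pairing_system]
  have hOeq : ∀ p, O p = oneS F (pairing F p) := by
    intro p
    ext v
    unfold oneS
    rw [hO, Set.mem_ofPred_eq, Set.mem_ofPred_eq, hmin, hF, pairing_system]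
  have hNf : ∀ p, (N p).Finite := fun p => by rw [hNeq]; exact hitS_finite _ _
  have hON : ∀ p, O p ⊆ N p := by
    intro p v hv
    have hv' : v.ord (aeval f (mem' s p)) = e * v.minOrd f + 1 := hv
    change e * v.minOrd f < v.ord (aeval f (mem' s p))
    omega
  have hOf : ∀ p, (O p).Finite := fun p => (hNf p).subset (hON p)
  have hTU : T = ⋃ p ∈ Γ₀, O p := by
    ext v
    simp [hT, hO]
  have hTf : T.Finite := by
    rw [hTU]
    exact Set.Finite.biUnion Γ₀.finite_toSet fun p _ => hOf p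
  -- pointwise
  have hA : ∀ p ∈ Γ₀, 2 * ((N p).ncard : ℝ) ≤ e * htP k f + ((O p).ncard : ℝ) := by
    intro p hp
    have h3 := two_mul_ncard_le (k := k) (F := F) (p := p) (by
      rw [hF, pairing_system]; exact hfΓ p hp)
    rw [← hNeq, ← hOeq, hht] at h3
    exact_mod_cast h3
  -- double counting
  have hB : ∑ p ∈ Γ₀, (O p).ncard ≤ n * T.ncard := by
    have h4 : ∀ p ∈ Γ₀, (O p).ncard = (hTf.toFinset.filter (fun v => v ∈ O p)).card := by
      intro p hp
      rw [Set.ncard_eq_toFinset_card _ (hOf p)]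
      congr 1
      ext v
      rw [Set.Finite.mem_toFinset, Finset.mem_filter, Set.Finite.mem_toFinset]
      exact ⟨fun h => ⟨⟨p, hp, h⟩, h⟩, fun h => h.2⟩
    rw [Finset.sum_congr rfl h4, Set.ncard_eq_toFinset_card _ hTf]
    have h5 := Finset.sum_card_bipartiteAbove_eq_sum_card_bipartiteBelow
      (s := Γ₀) (t := hTf.toFinset) (fun p v => v ∈ O p)
    unfold Finset.bipartiteAbove Finset.bipartiteBelow at h5
    rw [h5, mul_comm, ← smul_eq_mul]
    refine Finset.sum_le_card_nsmul _ _ _ fun v _ => ?_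
    obtain ⟨x, hx⟩ := v.exists_reduction f
    refine S.snc x (reduction_mem_zs S.hom hfI v hx) (reduction_ne_zero hf0 v hx) _
      (Finset.filter_subset _ _) fun p hp => ?_
    rw [Finset.mem_filter] at hp
    exact eval_eq_zero_of_lt v hx (isHomogeneous_mem' S.deg p) (hON p hp.2)
  have hB' : ∑ p ∈ Γ₀, ((O p).ncard : ℝ) ≤ n * T.ncard := by exact_mod_cast hB
  have hC := Finset.sum_le_sum hA
  rw [← Finset.mul_sum, Finset.sum_add_distrib, Finset.sum_const, nsmul_eq_mul] at hC
  rw [Finset.sum_sub_distrib, Finset.sum_const, nsmul_eq_mul] at hmain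
  have hr : (n / (2 * ε') : ℝ) + 1 ≤ Γ₀.card := by
    have : ((r₃ + 1 : ℕ) : ℝ) ≤ Γ₀.card := by exact_mod_cast hr₃'
    push_cast at this
    linarith
  set R : ℝ := (Γ₀.card : ℝ) with hR
  have hRpos : 0 < R := by
    have : (0 : ℝ) ≤ n / (2 * ε') := by positivity
    linarith
  have hnR : (n : ℝ) ≤ 2 * ε' * R := by
    have h6 : (n / (2 * ε') : ℝ) ≤ R := by linarith
    rw [div_le_iff₀ (by positivity)] at h6
    linarith
  set h : ℝ := (e * htP k f : ℝ) with hh
  set χ : ℝ := (chi k L : ℝ) with hχ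
  set τ : ℝ := (T.ncard : ℝ) with hτ
  have hτ0 : 0 ≤ τ := Nat.cast_nonneg _
  -- combine
  have h7 : R * h - 2 * ε' * R * (2 * h + χ) ≤ 2 * ε' * R * τ := by
    have h8 : (n : ℝ) * τ ≤ 2 * ε' * R * τ := mul_le_mul_of_nonneg_right hnR hτ0
    have h9 : R * h - ∑ p ∈ Γ₀, ((N p).ncard : ℝ) ≤ ε' * R * (2 * h + χ) := hmain
    linarith
  have h8 : h - 2 * ε' * (2 * h + χ) ≤ 2 * ε' * τ := by
    have h9 : R * (h - 2 * ε' * (2 * h + χ)) ≤ R * (2 * ε' * τ) := by linarith
    exact le_of_mul_le_mul_left h9 hRpos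
  have h9 : 2 * ε' * (1 + 2 * ε) = ε := by
    rw [hε']; field_simp
  -- `(1 - 4 ε') ε = 2 ε'`
  have h10 : (1 - 4 * ε') * ε = 2 * ε' := by nlinarith [h9]
  have h11 : 0 < 1 - 4 * ε' := by
    have h14 : 0 < (1 - 4 * ε') * ε := by rw [h10]; positivity
    by_contra hcon
    have := mul_nonpos_of_nonpos_of_nonneg (not_lt.1 hcon) hε.le
    linarith
  have h12 : (1 - 4 * ε') * h ≤ (1 - 4 * ε') * (ε * (χ + τ)) := by
    have h13 : (1 - 4 * ε') * (ε * (χ + τ)) = 2 * ε' * (χ + τ) := by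
      rw [← mul_assoc, h10]
    rw [h13]
    linarith
  exact le_of_mul_le_mul_left h12 h11

end Pool.Agent.Helper11
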