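import Pool.Agent.Helper11.LocalNull
import Pool.Agent.Helper11.Greedy

/-! Truncation level one for generically reduced divisors, with a bad locus -/

set_option linter.unusedSectionVars false

namespace Pool.Agent.Helper11

open MvPolynomial

universe u w

/-- The data of the theorem. `I` is the homogeneous ideal of a projective variety `X`, `s` a
system of forms of degree `e`, the forms `J j` of degree `b` define the bad locus; `Γ₀` is a finite
set of generically reduced members of the system, at most `n` of which pass through any point of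
`X` outside the bad locus. -/
structure ArrData {k ι α γ : Type*} [Field k] [Fintype ι] [Fintype α]
    (I : Ideal (MvPolynomial ι k)) (c n e b : ℕ) (s : α → MvPolynomial ι k)
    (J : γ → MvPolynomial ι k) (Γ₀ : Finset (α → k)) : Prop where
  prime : I.IsPrime
  hom : HomI I
  dim : 2 ≤ tdeg I
  cod : Fintype.card ι ≤ c + tdeg I
  deg : ∀ a, (s a).IsHomogeneous e
  pos : 1 ≤ e
  degJ : ∀ j, (J j).IsHomogeneous b
  bpf : ∀ x ∈ zs I, x ≠ 0 → (∀ a, eval x (s a) = 0) → ∀ j, eval x (J j) = 0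
  red : ∀ p ∈ Γ₀, RedMem I c s p
  cross : ∀ x ∈ zs I, x ≠ 0 → (∃ j, eval x (J j) ≠ 0) → ∀ Γ ⊆ Γ₀,
    (∀ p ∈ Γ, eval x (mem' s p) = 0) → Γ.card ≤ n

/-- degenerate primes -/
def DegW {k ι α γ : Type*} [Field k] [Fintype ι] [Fintype α] (I : Ideal (MvPolynomial ι k))
    (s : α → MvPolynomial ι k) (J : γ → MvPolynomial ι k) (q : Ideal (MvPolynomial α k)) : Prop :=
  ∃ x ∈ zs I, x ≠ 0 ∧ (∃ j, eval x (J j) ≠ 0) ∧ ∑ a, C (eval x (s a)) * X a ∈ q

theorem eval_mem' {k ι α : Type*} [Field k] [Fintype ι] [Fintype α] (s : α → MvPolynomial ι k)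
    (p : α → k) (x : ι → k) : eval x (mem' s p) = ∑ a, p a * eval x (s a) := by
  unfold mem'
  rw [map_sum]
  exact Finset.sum_congr rfl fun a _ => by rw [map_mul, eval_C]

theorem isHomogeneous_mem' {k ι α : Type*} [Field k] [Fintype ι] [Fintype α]
    {s : α → MvPolynomial ι k} {e : ℕ} (hs : ∀ a, (s a).IsHomogeneous e) (p : α → k) :
    (mem' s p).IsHomogeneous e := by
  unfold mem'
  refine IsHomogeneous.sum _ _ _ fun a _ => ?_
  have := (isHomogeneous_C ι (p a)).mul (hs a)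
  rwa [zero_add] at this

theorem exists_M_prime {k ι α γ : Type*} [Field k] [Fintype ι] [Fintype α] [Fintype γ]
    [IsAlgClosed k] {I : Ideal (MvPolynomial ι k)} {s : α → MvPolynomial ι k}
    {J : γ → MvPolynomial ι k} {q : Ideal (MvPolynomial α k)} (hq : q.IsPrime)
    (hdeg : ¬ DegW I s J q) :
    ∃ (M r : ℕ) (B : Fin r → α → k), LinearIndependent k B ∧ (∀ l, B l ∈ zs q) ∧
      (∀ x ∈ zs q, x ∈ Submodule.span k (Set.range B)) ∧
      ∀ i j, (X i * J j) ^ M ∈ I ⊔ Ideal.span (Set.range fun l => mem' s (B l)) := by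
  classical
  obtain ⟨B, hB1, hB2, hB3⟩ := Submodule.exists_fun_fin_finrank_span_eq k (zs q)
  have hBs : ∀ x ∈ zs q, x ∈ Submodule.span k (Set.range B) := by
    intro x hx
    rw [hB2]
    exact Submodule.subset_span hx
  obtain ⟨M, hM⟩ := exists_null_exp (I := I) (h := fun l => mem' s (B l)) (J := J) (by
    intro x hx hx0 h j
    by_contra hne
    apply hdeg
    refine ⟨x, hx, hx0, ⟨j, hne⟩, mem_of_zero_on_zs hq fun p hp => ?_⟩
    have h1 : ∀ p ∈ Submodule.span k (Set.range B), ∑ a, p a * eval x (s a) = 0 := by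
      intro p hp
      refine Submodule.span_induction (p := fun p _ => ∑ a, p a * eval x (s a) = 0)
        ?_ ?_ ?_ ?_ hp
      · rintro _ ⟨l, rfl⟩
        rw [← eval_mem']
        exact h l
      · simp
      · intro y z _ _ hy hz
        simp only [Pi.add_apply, add_mul, Finset.sum_add_distrib]
        rw [hy, hz, add_zero]
      · intro a y _ hy
        simp only [Pi.smul_apply, smul_eq_mul, mul_assoc]
        rw [← Finset.mul_sum, hy, mul_zero]
    rw [map_sum, ← h1 p (hBs p hp)]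
    refine Finset.sum_congr rfl fun a _ => ?_
    rw [map_mul, eval_C, eval_X, mul_comm])
  exact ⟨M, _, B, hB3, hB1, hBs, hM⟩

section

variable {k L ι β γ : Type*} [Field k] [Field L] [Algebra k L] [FunField k L] [CharZero k]
  [IsAlgClosed k] [Fintype ι] [Fintype β] [Fintype γ]

theorem exists_ne_zero_of_null {I : Ideal (MvPolynomial ι k)} {h : β → MvPolynomial ι k}
    {J : γ → MvPolynomial ι k} {M : ℕ}
    (hM : ∀ i j, (X i * J j) ^ M ∈ I ⊔ Ideal.span (Set.range h)) {f : ι → L}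
    (hf : ∀ F ∈ I, aeval f F = 0) (hf0 : ∃ i, f i ≠ 0) (hJf : ∃ j, aeval f (J j) ≠ 0) :
    ∃ l, aeval f (h l) ≠ 0 := by
  by_contra hcon
  push Not at hcon
  obtain ⟨i, hi⟩ := hf0
  obtain ⟨j, hj⟩ := hJf
  have hle : I ⊔ Ideal.span (Set.range h) ≤
      RingHom.ker (aeval f : MvPolynomial ι k →ₐ[k] L).toRingHom := by
    rw [sup_le_iff]
    refine ⟨fun F hF => hf F hF, ?_⟩
    rw [Ideal.span_le]
    rintro _ ⟨l, rfl⟩
    exact hcon l
  have h1 : aeval f ((X i * J j) ^ M) = 0 := hle (hM i j)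
  rw [map_pow, map_mul, aeval_X] at h1
  exact pow_ne_zero _ (mul_ne_zero hi hj) h1

theorem htP_eq_zero_of_const {κ : Type*} [Finite κ] {F : κ → L} (h : IsConstPt k F) :
    htP k F = 0 := by
  by_contra hne
  exact not_const_of_htP_ne hne h

/-- the contact order with the bad locus -/
theorem contact_eq (J : γ → MvPolynomial ι k) (b : ℕ) (f : ι → L) :
    ∑ᶠ v : Place k L, (v.minOrd (fun j => aeval f (J j)) - b * v.minOrd f) =
      b * htP k f - htP k (fun j => aeval f (J j)) := by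
  rw [fs_sub (supp_minOrd _) (supp_const_mul _ (supp_minOrd f)), fs_const_mul]
  unfold htP
  rw [fs_neg, fs_neg]
  ring

theorem contact_nonneg {J : γ → MvPolynomial ι k} {b : ℕ} (hJ : ∀ j, (J j).IsHomogeneous b)
    {f : ι → L} (hJf : ∃ j, aeval f (J j) ≠ 0) :
    0 ≤ b * htP k f - htP k (fun j => aeval f (J j)) := by
  rw [← contact_eq]
  refine fs_nonneg fun v => ?_
  have := le_minOrd_forms v hJ f hJf
  linarith

/-- the global form of the estimate given by the Nullstellensatz -/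
theorem global_null {I : Ideal (MvPolynomial ι k)} (hI : HomI I)
    {h : β → MvPolynomial ι k} {e : ℕ} (hh : ∀ l, (h l).IsHomogeneous e)
    {J : γ → MvPolynomial ι k} {b : ℕ} (hJ : ∀ j, (J j).IsHomogeneous b) {M : ℕ}
    (hM : ∀ i j, (X i * J j) ^ M ∈ I ⊔ Ideal.span (Set.range h)) {f : ι → L}
    (hf : ∀ F ∈ I, aeval f F = 0) (hf0 : ∃ i, f i ≠ 0) (hJf : ∃ j, aeval f (J j) ≠ 0) :
    ∑ᶠ v : Place k L, (v.minOrd (fun l => aeval f (h l)) - e * v.minOrd f) ≤
      M * (b * htP k f - htP k (fun j => aeval f (J j))) := by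
  rw [← contact_eq, ← fs_const_mul]
  refine fs_mono (supp_sub (supp_minOrd _) (supp_const_mul _ (supp_minOrd f)))
    (supp_const_mul _ (supp_sub (supp_minOrd _) (supp_const_mul _ (supp_minOrd f)))) fun v => ?_
  exact local_null v hI hh hJ hM hf hf0 hJf

end

theorem trunc_main_w (m n : ℕ) (ε : ℝ) (hε : 0 < ε) : ∃ r₀ : ℕ, ∀ (k : Type u) (ι α γ : Type)
    [Field k] [IsAlgClosed k] [CharZero k] [Fintype ι] [Fintype α] [Fintype γ]
    (_ : Fintype.card α = m + 1) (I : Ideal (MvPolynomial ι k)) (c e b : ℕ)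
    (s : α → MvPolynomial ι k) (J : γ → MvPolynomial ι k) (Γ₀ : Finset (α → k))
    (_ : ArrData I c n e b s J Γ₀)
    (_ : r₀ ≤ Γ₀.card), ∃ (d : ℕ) (Z : MvPolynomial ι k) (C₀ : ℕ), Z.IsHomogeneous d ∧ Z ∉ I ∧
      ∀ (L : Type w) [Field L] [Algebra k L] [FunField k L] (f : ι → L),
        (∀ F ∈ I, aeval f F = 0) → ¬ IsConstPt k f → (∀ p ∈ Γ₀, aeval f (mem' s p) ≠ 0) →
        (∃ j, aeval f (J j) ≠ 0) → aeval f Z ≠ 0 →
        ∑ p ∈ Γ₀, ((e * htP k f : ℝ) -
          ({v : Place k L | e * v.minOrd f < v.ord (aeval f (mem' s p))}.ncard : ℝ)) ≤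
          ε * Γ₀.card * (2 * (e * htP k f) + chi k L) +
            C₀ * (b * htP k f - htP k (fun j => aeval f (J j))) := by
  set K : ℝ := max 2 (2 / ε) with hK
  have hK1 : 1 < K := lt_of_lt_of_le one_lt_two (le_max_left _ _)
  obtain ⟨D₀, hD₀⟩ := exists_slow (m + 1) hK1
  set C₁ : ℝ := n * D₀ ^ (m + 1) * 2 ^ (m + 1) with hC₁
  obtain ⟨r₀, hr₀⟩ := exists_nat_ge (2 * C₁ / ε)
  refine ⟨r₀, fun k ι α γ _ _ _ _ _ _ hα I c e b s J Γ₀ S hr => ?_⟩
  classical
  have hne : ∀ p ∈ Γ₀, p ≠ 0 := by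
    rintro p hp rfl
    apply (S.red 0 hp).notMem S.prime
    have : mem' s (0 : α → k) = 0 := by simp [mem']
    rw [this]
    exact zero_mem _
  obtain ⟨Q, hQ, hmain⟩ := greedy_total (k := k) (ι := α) hK1 (D₀ := D₀) (by rwa [hα]) (m := n)
    (DegW I s J) Γ₀ hne (by
      rintro q ⟨x, hx, hx0, hxJ, hxq⟩ Γ hΓ hΓq
      refine S.cross x hx hx0 hxJ Γ hΓ fun p hp => ?_
      have h1 := hΓq p hp _ hxq
      rw [map_sum] at h1
      simp only [map_mul, eval_C, eval_X] at h1
      rw [eval_mem', ← h1]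
      exact Finset.sum_congr rfl fun i _ => by rw [mul_comm]) (by omega)
  have hZ : ∀ q : Ideal (MvPolynomial α k), ∃ (d : ℕ) (Z : MvPolynomial ι k), q ∈ Q →
      Z.IsHomogeneous d ∧ Z ∉ I ∧
      ∀ (L : Type w) [Field L] [Algebra k L] [FunField k L] (t : L) (ht : Transcendental k t)
        (f : ι → L), (∀ F ∈ I, aeval f F = 0) → aeval f Z ≠ 0 →
        Good q (fun a => aeval f (s a)) (fun a => der ht (aeval f (s a))) := by
    intro q
    by_cases hq : q ∈ Q
    · obtain ⟨p, hp, hpq⟩ := (hQ q hq).2.2.2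
      obtain ⟨d, Z, h⟩ := exists_Z_prime' S.prime S.hom S.cod S.dim S.deg (S.red p hp)
        (hQ q hq).1 (hQ q hq).2.1 hpq
      exact ⟨d, Z, fun _ => h⟩
    · exact ⟨0, 0, fun h => absurd h hq⟩
  choose d Z hdZ using hZ
  have hM : ∀ q : Ideal (MvPolynomial α k), ∃ (M r : ℕ) (B : Fin r → α → k), q ∈ Q →
      LinearIndependent k B ∧ (∀ l, B l ∈ zs q) ∧
      (∀ x ∈ zs q, x ∈ Submodule.span k (Set.range B)) ∧
      ∀ i j, (X i * J j) ^ M ∈ I ⊔ Ideal.span (Set.range fun l => mem' s (B l)) := by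
    intro q
    by_cases hq : q ∈ Q
    · obtain ⟨M, r, B, h⟩ := exists_M_prime (hQ q hq).1 (hQ q hq).2.2.1
      exact ⟨M, r, B, fun _ => h⟩
    · exact ⟨0, 0, fun i => i.elim0, fun h => absurd h hq⟩
  choose M rB B hMB using hM
  obtain ⟨M₀, hM₀⟩ := exists_null_exp (I := I) (h := s) (J := J) S.bpf
  set MQ : ℕ := ∑ q ∈ Q, M q with hMQ
  refine ⟨∑ q ∈ Q, d q, ∏ q ∈ Q, Z q, Γ₀.card * (MQ + M₀),
    IsHomogeneous.prod _ _ _ fun q hq => (hdZ q hq).1, ?_, ?_⟩
  · intro h
    rw [S.prime.prod_mem_iff] at h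
    obtain ⟨q, hq, h⟩ := h
    exact (hdZ q hq).2.1 h
  intro L _ _ _ f hfI hfc hfΓ hfJ hfZ
  rw [map_prod, Finset.prod_ne_zero_iff] at hfZ
  obtain ⟨t, ht⟩ := FunField.exists_transcendental (k := k) (L := L)
  have hf0 : ∃ i, f i ≠ 0 := by
    by_contra hcon
    push Not at hcon
    exact hfc ⟨0, 0, fun i => by simp [hcon i]⟩
  set F : α → L := fun a => aeval f (s a) with hF
  set NW : ℤ := b * htP k f - htP k (fun j => aeval f (J j)) with hNW
  have hNW0 : 0 ≤ NW := contact_nonneg S.degJ hfJ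
  have hF0 : ∃ a, F a ≠ 0 := exists_ne_zero_of_null hM₀ hfI hf0 hfJ
  have hminF : ∀ v : Place k L, e * v.minOrd f ≤ v.minOrd F := fun v =>
    le_minOrd_forms v S.deg f hF0
  have hhtF : e * htP k f - htP k F ≤ M₀ * NW := by
    have h1 := global_null (L := L) S.hom S.deg S.degJ hM₀ hfI hf0 hfJ
    have h2 : ∑ᶠ v : Place k L, (v.minOrd (fun a => aeval f (s a)) - e * v.minOrd f) =
        e * htP k f - htP k F := contact_eq s e f
    rwa [h2] at h1
  have hhtF0 : htP k F ≤ e * htP k f := by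
    have h2 : ∑ᶠ v : Place k L, (v.minOrd (fun a => aeval f (s a)) - e * v.minOrd f) =
        e * htP k f - htP k F := contact_eq s e f
    have h3 : 0 ≤ ∑ᶠ v : Place k L, (v.minOrd (fun a => aeval f (s a)) - e * v.minOrd f) :=
      fs_nonneg fun v => by
        have := hminF v
        rw [hF] at this
        linarith
    linarith
  have hchi : (0 : ℝ) ≤ 2 * (e * htP k f) + chi k L := by
    have h1 := chi_add_two_htP_nonneg hfc (k := k)
    have h2 := htP_pos_of_not_const hfc (k := k)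
    have h3 : (1 : ℤ) ≤ e := by exact_mod_cast S.pos
    have h4 : htP k f ≤ e * htP k f := by nlinarith
    exact_mod_cast (by linarith : (0 : ℤ) ≤ 2 * (e * htP k f) + chi k L)
  have hcard0 : (0 : ℝ) ≤ Γ₀.card := Nat.cast_nonneg _
  have hNWR : (0 : ℝ) ≤ (NW : ℝ) := by exact_mod_cast hNW0
  have hgoalNW : ((b : ℝ) * (htP k f : ℝ) - (htP k (fun j => aeval f (J j)) : ℝ)) = (NW : ℝ) := by
    rw [hNW]; push_cast; ring
  rw [hgoalNW]
  by_cases hFc : IsConstPt k F
  · -- the constant case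
    have h1 : htP k F = 0 := htP_eq_zero_of_const hFc
    rw [h1, sub_zero] at hhtF
    have h2 : ((e : ℝ) * (htP k f : ℝ)) ≤ M₀ * NW := by exact_mod_cast hhtF
    have h3 : ∑ p ∈ Γ₀, ((e * htP k f : ℝ) -
        ({v : Place k L | e * v.minOrd f < v.ord (aeval f (mem' s p))}.ncard : ℝ)) ≤
        ∑ _p ∈ Γ₀, ((M₀ : ℝ) * NW) := by
      refine Finset.sum_le_sum fun p _ => ?_
      have h4 : (0 : ℝ) ≤
        ({v : Place k L | e * v.minOrd f < v.ord (aeval f (mem' s p))}.ncard : ℝ) :=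
        Nat.cast_nonneg _
      linarith
    rw [Finset.sum_const, nsmul_eq_mul] at h3
    refine h3.trans ?_
    have h5 : (0 : ℝ) ≤ ε * Γ₀.card * (2 * (e * htP k f) + chi k L) := by positivity
    have h6 : (Γ₀.card : ℝ) * (M₀ * NW) ≤ ((Γ₀.card * (MQ + M₀) : ℕ) : ℝ) * NW := by
      push_cast
      have h7 : (0 : ℝ) ≤ (Γ₀.card : ℝ) * MQ * NW := by positivity
      nlinarith
    linarith
  -- the main case
  have hFΓ : ∀ p ∈ Γ₀, pairing F p ≠ 0 := by
    intro p hp
    rw [hF, pairing_system]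
    exact hfΓ p hp
  set nn : (α → k) → ℝ := fun p => ((∑ᶠ v : Place k L, exc v F p : ℤ) : ℝ) - MQ * NW with hnn
  set W : ℝ := ((2 * htP k F + chi k L : ℤ) : ℝ) with hW
  have hMQNW : (0 : ℝ) ≤ (MQ : ℝ) * NW := by positivity
  have hW0 : 0 ≤ W := by
    have := chi_add_two_htP_nonneg hFc (k := k)
    rw [hW]
    exact_mod_cast (by linarith : (0 : ℤ) ≤ 2 * htP k F + chi k L)
  have h1 := hmain nn W hW0 (fun p hp => by
      have h2 : ((∑ᶠ v : Place k L, exc v F p : ℤ) : ℝ) ≤ W := by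
        rw [hW]
        exact_mod_cast finsum_exc_le hFc (hFΓ p hp)
      change ((∑ᶠ v : Place k L, exc v F p : ℤ) : ℝ) - MQ * NW ≤ W
      linarith) (by
      intro q hq j Γ hΓ hΓq hsurj hcard
      have hgood := (hdZ q hq).2.2 L t ht f hfI (hfZ q hq)
      obtain ⟨hB1, hB2, hB3, hB4⟩ := hMB q hq
      have h2 := mi_poly_w (hQ q hq).1 ht hFc hgood hB1 hB2 hB3 (j := j) (Γ := Γ)
        (fun p => (p : α → k)) (fun p => hΓq p p.2) (fun p => hFΓ p (hΓ p.2)) (by
          intro g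
          obtain ⟨G, hG, hG2⟩ := hsurj (fun p => if h : p ∈ Γ then g ⟨p, h⟩ else 0)
          refine ⟨G, hG, fun p => ?_⟩
          rw [hG2 p p.2, dif_pos p.2])
      have h3 : ∑ᶠ v : Place k L, (v.minOrd (fun l => pairing F (B q l)) - v.minOrd F) ≤
          MQ * NW := by
        have h4 : ∑ᶠ v : Place k L, (v.minOrd (fun l => pairing F (B q l)) - v.minOrd F) ≤
            ∑ᶠ v : Place k L, (v.minOrd (fun l => aeval f (mem' s (B q l))) - e * v.minOrd f) := by
          have h5 : (fun l => pairing F (B q l)) = fun l => aeval f (mem' s (B q l)) :=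
            funext fun l => pairing_system s f (B q l)
          rw [h5]
          refine fs_mono (supp_sub (supp_minOrd _) (supp_minOrd _))
            (supp_sub (supp_minOrd _) (supp_const_mul _ (supp_minOrd f))) fun v => ?_
          have := hminF v
          linarith
        have h5 := global_null (L := L) S.hom (fun l => isHomogeneous_mem' S.deg (B q l)) S.degJ
          hB4 hfI hf0 hfJ
        refine h4.trans (h5.trans ?_)
        apply mul_le_mul_of_nonneg_right _ hNW0
        rw [hMQ]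
        exact_mod_cast Finset.single_le_sum (f := M) (fun q _ => Nat.zero_le _) hq
      have h4 : (∑ p ∈ Γ, nn p) =
          ((∑ p : Γ, ∑ᶠ v : Place k L, exc v F (p : α → k) : ℤ) : ℝ) -
            hilb q (j + 1) * (MQ * NW) := by
        rw [hnn, Finset.sum_sub_distrib, Finset.sum_const, nsmul_eq_mul, hcard, Int.cast_sum,
          ← Finset.sum_coe_sort Γ]
      rw [h4]
      have h5 : ((∑ p : Γ, ∑ᶠ v : Place k L, exc v F (p : α → k) : ℤ) : ℝ) ≤
          (((hilb q (j + 1) - hilb q j : ℤ) * (2 * htP k F + chi k L) + hilb q (j + 1) *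
            (MQ * NW) : ℤ) : ℝ) := by
        have h6 : (0 : ℤ) ≤ hilb q (j + 1) := Nat.cast_nonneg _
        exact_mod_cast h2.trans (add_le_add le_rfl (mul_le_mul_of_nonneg_left h3 h6))
      push_cast at h5
      rw [hW]
      push_cast
      linarith)
  have h2 : ∑ p ∈ Γ₀, ((e * htP k f : ℝ) -
      ({v : Place k L | e * v.minOrd f < v.ord (aeval f (mem' s p))}.ncard : ℝ)) ≤
      ∑ p ∈ Γ₀, (nn p + (MQ + M₀) * NW) := by
    refine Finset.sum_le_sum fun p hp => ?_
    have h3 := finsum_exc (hFΓ p hp) (k := k)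
    have h4 : (hitS F (pairing F p) : Set (Place k L)).ncard ≤
        {v : Place k L | e * v.minOrd f < v.ord (aeval f (mem' s p))}.ncard := by
      apply Set.ncard_le_ncard
      · intro v hv
        unfold hitS at hv
        rw [Set.mem_ofPred_eq, hF, pairing_system] at hv
        rw [Set.mem_ofPred_eq]
        exact lt_of_le_of_lt (hminF v) hv
      · apply ((supp_minOrd (k := k) f).union (supp_ord (k := k) (aeval f (mem' s p)))).subset
        intro v hv
        by_contra hcon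
        simp only [Set.mem_union, Set.mem_ofPred_eq, not_or, not_not] at hcon
        rw [Set.mem_ofPred_eq, hcon.1, hcon.2, mul_zero] at hv
        exact lt_irrefl _ hv
    have h5 : ((e : ℝ) * htP k f) ≤ htP k F + M₀ * NW := by
      exact_mod_cast (by linarith : (e : ℤ) * htP k f ≤ htP k F + M₀ * NW)
    have h6 : ((hitS F (pairing F p) : Set (Place k L)).ncard : ℝ) ≤
        ({v : Place k L | e * v.minOrd f < v.ord (aeval f (mem' s p))}.ncard : ℝ) := by
      exact_mod_cast h4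
    have h7 : ((∑ᶠ v : Place k L, exc v F p : ℤ) : ℝ) =
        htP k F - ((hitS F (pairing F p) : Set (Place k L)).ncard : ℝ) := by
      rw [h3]; push_cast; ring
    rw [hnn]
    simp only
    rw [h7]
    linarith
  refine h2.trans ?_
  rw [Finset.sum_add_distrib, Finset.sum_const, nsmul_eq_mul]
  have h3 : W ≤ 2 * (e * (htP k f : ℝ)) + chi k L := by
    rw [hW]
    exact_mod_cast (by linarith : 2 * htP k F + chi k L ≤ 2 * (e * htP k f) + chi k L)
  have hKpos : 0 < K := by linarith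
  have hr1 : (2 * C₁ / ε) ≤ Γ₀.card := hr₀.trans (by exact_mod_cast hr)
  have h4 : C₁ ≤ ε / 2 * Γ₀.card := by
    rw [div_le_iff₀ hε] at hr1
    linarith
  have h5 : (Γ₀.card : ℝ) / K ≤ ε / 2 * Γ₀.card := by
    rw [div_le_iff₀ hKpos]
    have h6 : 2 / ε ≤ K := le_max_right _ _
    have h7 : 1 ≤ ε / 2 * K := by
      have h8 : ε / 2 * (2 / ε) ≤ ε / 2 * K := mul_le_mul_of_nonneg_left h6 (by positivity)
      have h9 : ε / 2 * (2 / ε) = 1 := by field_simp
      linarith
    calc (Γ₀.card : ℝ) = 1 * Γ₀.card := (one_mul _).symm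
      _ ≤ (ε / 2 * K) * Γ₀.card := mul_le_mul_of_nonneg_right h7 (Nat.cast_nonneg _)
      _ = ε / 2 * Γ₀.card * K := by ring
  have h6 : ∑ p ∈ Γ₀, nn p ≤ ε * Γ₀.card * (2 * (e * htP k f) + chi k L) := by
    refine h1.trans ?_
    rw [hα, ← hC₁]
    refine le_trans (mul_le_mul_of_nonneg_right (by linarith : _ ≤ ε * Γ₀.card) hW0) ?_
    exact mul_le_mul_of_nonneg_left h3 (by positivity)
  refine le_trans (add_le_add h6 le_rfl) ?_
  push_cast
  linarith

end Pool.Agent.Helper11
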