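import Pool.Agent.Helper11.TruncW

/-! A formulation without coordinates on the linear system -/

set_option linter.unusedSectionVars false

namespace Pool.Agent.Helper11

open MvPolynomial

universe u w

section

variable {k L ι : Type*} [Field k] [Field L] [Algebra k L] [FunField k L] [CharZero k]
  [IsAlgClosed k] [Fintype ι]

/-- a variety with a nonconstant point has positive dimension -/
theorem two_le_tdeg {I : Ideal (MvPolynomial ι k)} (hIp : I.IsPrime) (hI : HomI I) {f : ι → L}
    (hf : ∀ F ∈ I, aeval f F = 0) (hfc : ¬ IsConstPt k f) : 2 ≤ tdeg I := by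
  obtain ⟨i, j, hi, hj, hτ⟩ := exists_transcendental_ratio hfc
  have hinf : Infinite k := IsAlgClosed.instInfinite
  apply le_tdeg hIp (Z := ![(X i : MvPolynomial ι k), X j])
  intro P hP
  -- the values of `P`
  have hval : ∀ x y : k, eval ![x * y, y] P = 0 := by
    intro x y
    have h1 := aeval_scale_eq_zero hI hf (algebraMap k L y / f j) hP
    have h2 : aeval (fun l => algebraMap k L y / f j * f l)
        (aeval ![(X i : MvPolynomial ι k), X j] P) =
        aeval ![algebraMap k L y * (f i / f j), algebraMap k L y] P := by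
      have h3 : ((aeval (fun l => algebraMap k L y / f j * f l) : MvPolynomial ι k →ₐ[k] L).comp
          (aeval ![(X i : MvPolynomial ι k), X j])) =
          aeval ![algebraMap k L y * (f i / f j), algebraMap k L y] := by
        apply MvPolynomial.algHom_ext
        intro l
        fin_cases l
        · simp only [Fin.zero_eta, AlgHom.comp_apply, aeval_X, Matrix.cons_val_zero]
          ring
        · simp only [Fin.mk_one, AlgHom.comp_apply, aeval_X, Matrix.cons_val_one,
            Matrix.cons_val_fin_one]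
          field_simp
      exact AlgHom.congr_fun h3 P
    rw [h2] at h1
    set Q : Polynomial k := aeval ![Polynomial.X * Polynomial.C y, Polynomial.C y] P with hQ
    have h4 : Polynomial.aeval (f i / f j) Q = 0 := by
      rw [← h1, hQ]
      have h3 : ((Polynomial.aeval (f i / f j) : Polynomial k →ₐ[k] L).comp
          (aeval ![Polynomial.X * Polynomial.C y, Polynomial.C y])) =
          aeval ![algebraMap k L y * (f i / f j), algebraMap k L y] := by
        apply MvPolynomial.algHom_ext
        intro l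
        fin_cases l
        · rw [AlgHom.comp_apply, aeval_X, aeval_X]
          change Polynomial.aeval (f i / f j) (Polynomial.X * Polynomial.C y) = _
          rw [map_mul, Polynomial.aeval_X, Polynomial.aeval_C, mul_comm]
          rfl
        · rw [AlgHom.comp_apply, aeval_X, aeval_X]
          change Polynomial.aeval (f i / f j) (Polynomial.C y) = _
          rw [Polynomial.aeval_C]
          rfl
      exact AlgHom.congr_fun h3 P
    have h5 : Q = 0 := by
      by_contra hne
      exact hτ ⟨Q, hne, h4⟩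
    have h6 : Polynomial.eval x Q = eval ![x * y, y] P := by
      rw [hQ]
      have h3 : ((Polynomial.aeval x : Polynomial k →ₐ[k] k).comp
          (aeval ![Polynomial.X * Polynomial.C y, Polynomial.C y])) =
          aeval ![x * y, y] := by
        apply MvPolynomial.algHom_ext
        intro l
        fin_cases l
        · rw [AlgHom.comp_apply, aeval_X, aeval_X]
          change Polynomial.aeval x (Polynomial.X * Polynomial.C y) = _
          rw [map_mul, Polynomial.aeval_X, Polynomial.aeval_C]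
          rfl
        · rw [AlgHom.comp_apply, aeval_X, aeval_X]
          change Polynomial.aeval x (Polynomial.C y) = _
          rw [Polynomial.aeval_C]
          rfl
      have := AlgHom.congr_fun h3 P
      rw [AlgHom.comp_apply, Polynomial.coe_aeval_eq_eval] at this
      rw [this]
      rfl
    rw [← h6, h5, Polynomial.eval_zero]
  have h1 : P * X 1 = 0 := by
    apply MvPolynomial.funext
    intro z
    rw [map_mul, eval_X, map_zero]
    by_cases hz : z 1 = 0
    · rw [hz, mul_zero]
    · have h2 := hval (z 0 / z 1) (z 1)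
      have h3 : ![z 0 / z 1 * z 1, z 1] = z := by
        funext l
        fin_cases l
        · simp only [Fin.zero_eta, Matrix.cons_val_zero]
          exact div_mul_cancel₀ _ hz
        · simp
      rw [h3] at h2
      rw [h2, zero_mul]
  exact (mul_eq_zero.1 h1).resolve_right (X_ne_zero 1)

end

/-- every component of the divisor `{G = 0}` contains a smooth point of it and of `X` -/
def RedDiv {k ι : Type*} [Field k] [Fintype ι] (I : Ideal (MvPolynomial ι k)) (c : ℕ)
    (G : MvPolynomial ι k) : Prop :=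
  ∀ 𝔮 ∈ (I ⊔ Ideal.span {G}).minimalPrimes, ∃ x ∈ zs 𝔮, x ≠ 0 ∧
    Module.finrank k (conormal I x) = c ∧ grad G x ∉ conormal I x

open Classical in
theorem trunc_main_forms (m n : ℕ) (ε : ℝ) (hε : 0 < ε) : ∃ r₀ : ℕ, ∀ (k : Type u) (ι γ : Type)
    [Field k] [IsAlgClosed k] [CharZero k] [Fintype ι] [Fintype γ]
    (I : Ideal (MvPolynomial ι k)) (e b : ℕ)
    (J : γ → MvPolynomial ι k) (Γ : Finset (MvPolynomial ι k))
    (_ : I.IsPrime) (_ : HomI I) (_ : 1 ≤ e) (_ : ∀ G ∈ Γ, G.IsHomogeneous e)
    (_ : ∀ j, (J j).IsHomogeneous b) (_ : ∀ G ∈ Γ, RedDiv I (Fintype.card ι - tdeg I) G)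
    (_ : ∀ x ∈ zs I, x ≠ 0 → (∃ j, eval x (J j) ≠ 0) →
      (Γ.filter fun G => eval x G = 0).card ≤ n)
    (_ : Module.finrank k (Submodule.span k (Γ : Set (MvPolynomial ι k))) ≤ m + 1)
    (_ : r₀ ≤ Γ.card), ∃ (d : ℕ) (Z : MvPolynomial ι k) (C₀ : ℕ), Z.IsHomogeneous d ∧ Z ∉ I ∧
      ∀ (L : Type w) [Field L] [Algebra k L] [FunField k L] (f : ι → L),
        (∀ F ∈ I, aeval f F = 0) → ¬ IsConstPt k f → (∀ G ∈ Γ, aeval f G ≠ 0) →
        (∃ j, aeval f (J j) ≠ 0) → aeval f Z ≠ 0 →
        ∑ G ∈ Γ, ((e * htP k f : ℝ) -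
          ({v : Place k L | e * v.minOrd f < v.ord (aeval f G)}.ncard : ℝ)) ≤
          ε * Γ.card * (2 * (e * htP k f) + chi k L) +
            C₀ * (b * htP k f - htP k (fun j => aeval f (J j))) := by
  obtain ⟨r₀, hr₀⟩ := trunc_main_w.{u, w} m n ε hε
  refine ⟨max r₀ (n + 1), fun k ι γ _ _ _ _ _ I e b J Γ hIp hI he hΓ hJ hred hcross hfin hr => ?_⟩
  by_cases hdim : 2 ≤ tdeg I
  swap
  · refine ⟨0, 1, 0, isHomogeneous_one _ _, fun h => hIp.ne_top ((Ideal.eq_top_iff_one _).2 h), ?_⟩
    intro L _ _ _ f hf hfc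
    exact absurd (two_le_tdeg hIp hI hf hfc) hdim
  -- coordinates
  obtain ⟨r, hrm, s', hs'Γ, hs'span⟩ : ∃ r ≤ m + 1, ∃ s' : Fin r → MvPolynomial ι k,
      (∀ i, s' i ∈ Γ) ∧ Submodule.span k (Set.range s') =
        Submodule.span k (Γ : Set (MvPolynomial ι k)) := by
    obtain ⟨s', hs'Γ, hs'span, -⟩ := Submodule.exists_fun_fin_finrank_span_eq k
      (Γ : Set (MvPolynomial ι k))
    exact ⟨_, hfin, s', hs'Γ, hs'span⟩
  set s : Fin (m + 1) → MvPolynomial ι k := fun a => if h : (a : ℕ) < r then s' ⟨a, h⟩ else 0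
    with hs
  have hsmem : ∀ a, s a = 0 ∨ s a ∈ Γ := by
    intro a
    rw [hs]
    simp only
    split_ifs with h
    · exact Or.inr (hs'Γ _)
    · exact Or.inl rfl
  have hsdeg : ∀ a, (s a).IsHomogeneous e := by
    intro a
    rcases hsmem a with h | h
    · rw [h]; exact isHomogeneous_zero _ _ _
    · exact hΓ _ h
  have hspan : Submodule.span k (Γ : Set (MvPolynomial ι k)) ≤
      Submodule.span k (Set.range s) := by
    rw [← hs'span, Submodule.span_le]
    rintro _ ⟨a, rfl⟩
    apply Submodule.subset_span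
    refine ⟨⟨a, by omega⟩, ?_⟩
    rw [hs]
    simp only
    rw [dif_pos a.2]
  have hcoord : ∀ G : MvPolynomial ι k, ∃ p : Fin (m + 1) → k, G ∈ Γ → mem' s p = G := by
    intro G
    by_cases hG : G ∈ Γ
    · obtain ⟨p, hp⟩ := (Submodule.mem_span_range_iff_exists_fun k).1
        (hspan (Submodule.subset_span hG))
      refine ⟨p, fun _ => ?_⟩
      unfold mem'
      rw [← hp]
      exact Finset.sum_congr rfl fun a _ => by rw [smul_eq_C_mul]
    · exact ⟨0, fun h => absurd h hG⟩
  choose co hco using hcoord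
  have hinj : Set.InjOn co (Γ : Set (MvPolynomial ι k)) := by
    intro G hG G' hG' h
    rw [← hco G hG, ← hco G' hG', h]
  set Γ₀ : Finset (Fin (m + 1) → k) := Γ.image co with hΓ₀
  have hcard : Γ₀.card = Γ.card := Finset.card_image_of_injOn hinj
  have hΓ₀mem : ∀ p ∈ Γ₀, mem' s p ∈ Γ ∧ co (mem' s p) = p := by
    intro p hp
    rw [hΓ₀, Finset.mem_image] at hp
    obtain ⟨G, hG, rfl⟩ := hp
    rw [hco G hG]
    exact ⟨hG, rfl⟩
  have S : ArrData I (Fintype.card ι - tdeg I) n e b s J Γ₀ := by
    refine ⟨hIp, hI, hdim, by omega, hsdeg, he, hJ, ?_, ?_, ?_⟩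
    · intro x hx hx0 hsx j
      by_contra hne
      have h1 := hcross x hx hx0 ⟨j, hne⟩
      have h2 : (Γ.filter fun G => eval x G = 0) = Γ := by
        rw [Finset.filter_true_of_mem]
        intro G hG
        rw [← hco G hG, eval_mem']
        exact Finset.sum_eq_zero fun a _ => by rw [hsx a, mul_zero]
      rw [h2] at h1
      have := le_max_right r₀ (n + 1)
      omega
    · intro p hp 𝔮 h𝔮
      exact hred _ (hΓ₀mem p hp).1 𝔮 h𝔮
    · intro x hx hx0 hxJ Γ' hΓ' h
      refine le_trans ?_ (hcross x hx hx0 hxJ)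
      apply Finset.card_le_card_of_injOn (fun p => mem' s p)
      · intro p hp
        rw [Finset.mem_coe, Finset.mem_filter]
        exact ⟨(hΓ₀mem p (hΓ' hp)).1, h p hp⟩
      · intro p hp p' hp' hpp
        rw [← (hΓ₀mem p (hΓ' hp)).2, ← (hΓ₀mem p' (hΓ' hp')).2]
        exact congrArg co hpp
  obtain ⟨d, Z, C₀, hZd, hZI, hmain⟩ := hr₀ k ι (Fin (m + 1)) γ (Fintype.card_fin _) I _ e b s J Γ₀ S
    (by rw [hcard]; exact le_trans (le_max_left _ _) hr)
  refine ⟨d, Z, C₀, hZd, hZI, fun L _ _ _ f hf hfc hfΓ hfJ hfZ => ?_⟩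
  have h1 := hmain L f hf hfc (fun p hp => hfΓ _ (hΓ₀mem p hp).1) hfJ hfZ
  rw [hcard] at h1
  have h2 : ∑ p ∈ Γ₀, ((e * htP k f : ℝ) -
      ({v : Place k L | e * v.minOrd f < v.ord (aeval f (mem' s p))}.ncard : ℝ)) =
      ∑ G ∈ Γ, ((e * htP k f : ℝ) -
      ({v : Place k L | e * v.minOrd f < v.ord (aeval f G)}.ncard : ℝ)) := by
    rw [hΓ₀, Finset.sum_image hinj]
    refine Finset.sum_congr rfl fun G hG => ?_
    rw [hco G hG]
  rw [← h2]
  exact h1

end Pool.Agent.Helper11
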