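import Pool.Agent.Helper11.TruncW
import Pool.Agent.Helper11.Greedy2

/-! Truncation level one for generically reduced divisors, explicit constants -/

set_option linter.unusedSectionVars false

namespace Pool.Agent.Helper11

open MvPolynomial

universe u w

theorem trunc_main_x {k : Type u} {ι α γ : Type} [Field k] [IsAlgClosed k] [CharZero k]
    [Fintype ι] [Fintype α] [Fintype γ] {m : ℕ} (hα : Fintype.card α = m + 1) {K : ℕ} (hK : 1 ≤ K)
    {I : Ideal (MvPolynomial ι k)} {c n e b : ℕ}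
    {s : α → MvPolynomial ι k} {J : γ → MvPolynomial ι k} {Γ₀ : Finset (α → k)}
    (S : ArrData I c n e b s J Γ₀) :
    ∃ (d : ℕ) (Z : MvPolynomial ι k) (C₀ : ℕ), Z.IsHomogeneous d ∧ Z ∉ I ∧
      ∀ (L : Type w) [Field L] [Algebra k L] [FunField k L] (f : ι → L),
        (∀ F ∈ I, aeval f F = 0) → ¬ IsConstPt k f → (∀ p ∈ Γ₀, aeval f (mem' s p) ≠ 0) →
        (∃ j, aeval f (J j) ≠ 0) → aeval f Z ≠ 0 →
        ∑ p ∈ Γ₀, ((e * htP k f : ℝ) -
          ({v : Place k L | e * v.minOrd f < v.ord (aeval f (mem' s p))}.ncard : ℝ)) ≤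
          (Γ₀.card / K + n * ((K * m) ^ m : ℕ)) * (2 * (e * htP k f) + chi k L) +
            C₀ * (b * htP k f - htP k (fun j => aeval f (J j))) := by
  classical
  have hne : ∀ p ∈ Γ₀, p ≠ 0 := by
    rintro p hp rfl
    apply (S.red 0 hp).notMem S.prime
    have : mem' s (0 : α → k) = 0 := by simp [mem']
    rw [this]
    exact zero_mem _
  obtain ⟨Q, hQ, hmain⟩ := greedy_total2 (k := k) (ι := α) hK (m := n)
    (DegW I s J) Γ₀ hne (by
      rintro q ⟨x, hx, hx0, hxJ, hxq⟩ Γ hΓ hΓq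
      refine S.cross x hx hx0 hxJ Γ hΓ fun p hp => ?_
      have h1 := hΓq p hp _ hxq
      rw [map_sum] at h1
      simp only [map_mul, eval_C, eval_X] at h1
      rw [eval_mem', ← h1]
      exact Finset.sum_congr rfl fun i _ => by rw [mul_comm]) (by omega)
  have hZ : ∀ q : Ideal (MvPolynomial α k), ∃ (d : ℕ) (Z : MvPolynomial ι k), q ∈ Q →
      Z.IsHomogeneous d ∧ Z ∉ I ∧
      ∀ (L : Type w) [Field L] [Algebra k L] [FunField k L] (t : L) (ht : Transcendental k t)
        (f : ι → L), (∀ F ∈ I, aeval f F = 0) → aeval f Z ≠ 0 →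
        Good q (fun a => aeval f (s a)) (fun a => der ht (aeval f (s a))) := by
    intro q
    by_cases hq : q ∈ Q
    · obtain ⟨p, hp, hpq⟩ := (hQ q hq).2.2.2
      obtain ⟨d, Z, h⟩ := exists_Z_prime' S.prime S.hom S.cod S.dim S.deg (S.red p hp)
        (hQ q hq).1 (hQ q hq).2.1 hpq
      exact ⟨d, Z, fun _ => h⟩
    · exact ⟨0, 0, fun h => absurd h hq⟩
  choose d Z hdZ using hZ
  have hM : ∀ q : Ideal (MvPolynomial α k), ∃ (M r : ℕ) (B : Fin r → α → k), q ∈ Q →
      LinearIndependent k B ∧ (∀ l, B l ∈ zs q) ∧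
      (∀ x ∈ zs q, x ∈ Submodule.span k (Set.range B)) ∧
      ∀ i j, (X i * J j) ^ M ∈ I ⊔ Ideal.span (Set.range fun l => mem' s (B l)) := by
    intro q
    by_cases hq : q ∈ Q
    · obtain ⟨M, r, B, h⟩ := exists_M_prime (hQ q hq).1 (hQ q hq).2.2.1
      exact ⟨M, r, B, fun _ => h⟩
    · exact ⟨0, 0, fun i => i.elim0, fun h => absurd h hq⟩
  choose M rB B hMB using hM
  obtain ⟨M₀, hM₀⟩ := exists_null_exp (I := I) (h := s) (J := J) S.bpf
  set MQ : ℕ := ∑ q ∈ Q, M q with hMQ
  refine ⟨∑ q ∈ Q, d q, ∏ q ∈ Q, Z q, Γ₀.card * (MQ + M₀),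
    IsHomogeneous.prod _ _ _ fun q hq => (hdZ q hq).1, ?_, ?_⟩
  · intro h
    rw [S.prime.prod_mem_iff] at h
    obtain ⟨q, hq, h⟩ := h
    exact (hdZ q hq).2.1 h
  intro L _ _ _ f hfI hfc hfΓ hfJ hfZ
  rw [map_prod, Finset.prod_ne_zero_iff] at hfZ
  obtain ⟨t, ht⟩ := FunField.exists_transcendental (k := k) (L := L)
  have hf0 : ∃ i, f i ≠ 0 := by
    by_contra hcon
    push Not at hcon
    exact hfc ⟨0, 0, fun i => by simp [hcon i]⟩
  set F : α → L := fun a => aeval f (s a) with hF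
  set NW : ℤ := b * htP k f - htP k (fun j => aeval f (J j)) with hNW
  have hNW0 : 0 ≤ NW := contact_nonneg S.degJ hfJ
  have hF0 : ∃ a, F a ≠ 0 := exists_ne_zero_of_null hM₀ hfI hf0 hfJ
  have hminF : ∀ v : Place k L, e * v.minOrd f ≤ v.minOrd F := fun v =>
    le_minOrd_forms v S.deg f hF0
  have hhtF : e * htP k f - htP k F ≤ M₀ * NW := by
    have h1 := global_null (L := L) S.hom S.deg S.degJ hM₀ hfI hf0 hfJ
    have h2 : ∑ᶠ v : Place k L, (v.minOrd (fun a => aeval f (s a)) - e * v.minOrd f) =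
        e * htP k f - htP k F := contact_eq s e f
    rwa [h2] at h1
  have hhtF0 : htP k F ≤ e * htP k f := by
    have h2 : ∑ᶠ v : Place k L, (v.minOrd (fun a => aeval f (s a)) - e * v.minOrd f) =
        e * htP k f - htP k F := contact_eq s e f
    have h3 : 0 ≤ ∑ᶠ v : Place k L, (v.minOrd (fun a => aeval f (s a)) - e * v.minOrd f) :=
      fs_nonneg fun v => by
        have := hminF v
        rw [hF] at this
        linarith
    linarith
  have hchi : (0 : ℝ) ≤ 2 * (e * htP k f) + chi k L := by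
    have h1 := chi_add_two_htP_nonneg hfc (k := k)
    have h2 := htP_pos_of_not_const hfc (k := k)
    have h3 : (1 : ℤ) ≤ e := by exact_mod_cast S.pos
    have h4 : htP k f ≤ e * htP k f := by nlinarith
    exact_mod_cast (by linarith : (0 : ℤ) ≤ 2 * (e * htP k f) + chi k L)
  have hcard0 : (0 : ℝ) ≤ Γ₀.card := Nat.cast_nonneg _
  set κ : ℝ := Γ₀.card / K + n * ((K * m) ^ m : ℕ) with hκ
  have hκ0 : 0 ≤ κ := by positivity
  have hNWR : (0 : ℝ) ≤ (NW : ℝ) := by exact_mod_cast hNW0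
  have hgoalNW : ((b : ℝ) * (htP k f : ℝ) - (htP k (fun j => aeval f (J j)) : ℝ)) = (NW : ℝ) := by
    rw [hNW]; push_cast; ring
  rw [hgoalNW]
  by_cases hFc : IsConstPt k F
  · -- the constant case
    have h1 : htP k F = 0 := htP_eq_zero_of_const hFc
    rw [h1, sub_zero] at hhtF
    have h2 : ((e : ℝ) * (htP k f : ℝ)) ≤ M₀ * NW := by exact_mod_cast hhtF
    have h3 : ∑ p ∈ Γ₀, ((e * htP k f : ℝ) -
        ({v : Place k L | e * v.minOrd f < v.ord (aeval f (mem' s p))}.ncard : ℝ)) ≤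
        ∑ _p ∈ Γ₀, ((M₀ : ℝ) * NW) := by
      refine Finset.sum_le_sum fun p _ => ?_
      have h4 : (0 : ℝ) ≤
        ({v : Place k L | e * v.minOrd f < v.ord (aeval f (mem' s p))}.ncard : ℝ) :=
        Nat.cast_nonneg _
      linarith
    rw [Finset.sum_const, nsmul_eq_mul] at h3
    refine h3.trans ?_
    have h5 : (0 : ℝ) ≤ κ * (2 * (e * htP k f) + chi k L) := by positivity
    have h6 : (Γ₀.card : ℝ) * (M₀ * NW) ≤ ((Γ₀.card * (MQ + M₀) : ℕ) : ℝ) * NW := by
      push_cast
      have h7 : (0 : ℝ) ≤ (Γ₀.card : ℝ) * MQ * NW := by positivity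
      nlinarith
    linarith
  -- the main case
  have hFΓ : ∀ p ∈ Γ₀, pairing F p ≠ 0 := by
    intro p hp
    rw [hF, pairing_system]
    exact hfΓ p hp
  set nn : (α → k) → ℝ := fun p => ((∑ᶠ v : Place k L, exc v F p : ℤ) : ℝ) - MQ * NW with hnn
  set W : ℝ := ((2 * htP k F + chi k L : ℤ) : ℝ) with hW
  have hMQNW : (0 : ℝ) ≤ (MQ : ℝ) * NW := by positivity
  have hW0 : 0 ≤ W := by
    have := chi_add_two_htP_nonneg hFc (k := k)
    rw [hW]
    exact_mod_cast (by linarith : (0 : ℤ) ≤ 2 * htP k F + chi k L)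
  have h1 := hmain nn W hW0 (fun p hp => by
      have h2 : ((∑ᶠ v : Place k L, exc v F p : ℤ) : ℝ) ≤ W := by
        rw [hW]
        exact_mod_cast finsum_exc_le hFc (hFΓ p hp)
      change ((∑ᶠ v : Place k L, exc v F p : ℤ) : ℝ) - MQ * NW ≤ W
      linarith) (by
      intro q hq j Γ hΓ hΓq hsurj hcard
      have hgood := (hdZ q hq).2.2 L t ht f hfI (hfZ q hq)
      obtain ⟨hB1, hB2, hB3, hB4⟩ := hMB q hq
      have h2 := mi_poly_w (hQ q hq).1 ht hFc hgood hB1 hB2 hB3 (j := j) (Γ := Γ)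
        (fun p => (p : α → k)) (fun p => hΓq p p.2) (fun p => hFΓ p (hΓ p.2)) (by
          intro g
          obtain ⟨G, hG, hG2⟩ := hsurj (fun p => if h : p ∈ Γ then g ⟨p, h⟩ else 0)
          refine ⟨G, hG, fun p => ?_⟩
          rw [hG2 p p.2, dif_pos p.2])
      have h3 : ∑ᶠ v : Place k L, (v.minOrd (fun l => pairing F (B q l)) - v.minOrd F) ≤
          MQ * NW := by
        have h4 : ∑ᶠ v : Place k L, (v.minOrd (fun l => pairing F (B q l)) - v.minOrd F) ≤
            ∑ᶠ v : Place k L, (v.minOrd (fun l => aeval f (mem' s (B q l))) - e * v.minOrd f) := by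
          have h5 : (fun l => pairing F (B q l)) = fun l => aeval f (mem' s (B q l)) :=
            funext fun l => pairing_system s f (B q l)
          rw [h5]
          refine fs_mono (supp_sub (supp_minOrd _) (supp_minOrd _))
            (supp_sub (supp_minOrd _) (supp_const_mul _ (supp_minOrd f))) fun v => ?_
          have := hminF v
          linarith
        have h5 := global_null (L := L) S.hom (fun l => isHomogeneous_mem' S.deg (B q l)) S.degJ
          hB4 hfI hf0 hfJ
        refine h4.trans (h5.trans ?_)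
        apply mul_le_mul_of_nonneg_right _ hNW0
        rw [hMQ]
        exact_mod_cast Finset.single_le_sum (f := M) (fun q _ => Nat.zero_le _) hq
      have h4 : (∑ p ∈ Γ, nn p) =
          ((∑ p : Γ, ∑ᶠ v : Place k L, exc v F (p : α → k) : ℤ) : ℝ) -
            hilb q (j + 1) * (MQ * NW) := by
        rw [hnn, Finset.sum_sub_distrib, Finset.sum_const, nsmul_eq_mul, hcard, Int.cast_sum,
          ← Finset.sum_coe_sort Γ]
      rw [h4]
      have h5 : ((∑ p : Γ, ∑ᶠ v : Place k L, exc v F (p : α → k) : ℤ) : ℝ) ≤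
          (((hilb q (j + 1) - hilb q j : ℤ) * (2 * htP k F + chi k L) + hilb q (j + 1) *
            (MQ * NW) : ℤ) : ℝ) := by
        have h6 : (0 : ℤ) ≤ hilb q (j + 1) := Nat.cast_nonneg _
        exact_mod_cast h2.trans (add_le_add le_rfl (mul_le_mul_of_nonneg_left h3 h6))
      push_cast at h5
      rw [hW]
      push_cast
      linarith)
  have h2 : ∑ p ∈ Γ₀, ((e * htP k f : ℝ) -
      ({v : Place k L | e * v.minOrd f < v.ord (aeval f (mem' s p))}.ncard : ℝ)) ≤
      ∑ p ∈ Γ₀, (nn p + (MQ + M₀) * NW) := by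
    refine Finset.sum_le_sum fun p hp => ?_
    have h3 := finsum_exc (hFΓ p hp) (k := k)
    have h4 : (hitS F (pairing F p) : Set (Place k L)).ncard ≤
        {v : Place k L | e * v.minOrd f < v.ord (aeval f (mem' s p))}.ncard := by
      apply Set.ncard_le_ncard
      · intro v hv
        unfold hitS at hv
        rw [Set.mem_ofPred_eq, hF, pairing_system] at hv
        rw [Set.mem_ofPred_eq]
        exact lt_of_le_of_lt (hminF v) hv
      · apply ((supp_minOrd (k := k) f).union (supp_ord (k := k) (aeval f (mem' s p)))).subset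
        intro v hv
        by_contra hcon
        simp only [Set.mem_union, Set.mem_ofPred_eq, not_or, not_not] at hcon
        rw [Set.mem_ofPred_eq, hcon.1, hcon.2, mul_zero] at hv
        exact lt_irrefl _ hv
    have h5 : ((e : ℝ) * htP k f) ≤ htP k F + M₀ * NW := by
      exact_mod_cast (by linarith : (e : ℤ) * htP k f ≤ htP k F + M₀ * NW)
    have h6 : ((hitS F (pairing F p) : Set (Place k L)).ncard : ℝ) ≤
        ({v : Place k L | e * v.minOrd f < v.ord (aeval f (mem' s p))}.ncard : ℝ) := by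
      exact_mod_cast h4
    have h7 : ((∑ᶠ v : Place k L, exc v F p : ℤ) : ℝ) =
        htP k F - ((hitS F (pairing F p) : Set (Place k L)).ncard : ℝ) := by
      rw [h3]; push_cast; ring
    rw [hnn]
    simp only
    rw [h7]
    linarith
  refine h2.trans ?_
  rw [Finset.sum_add_distrib, Finset.sum_const, nsmul_eq_mul]
  have h3 : W ≤ 2 * (e * (htP k f : ℝ)) + chi k L := by
    rw [hW]
    exact_mod_cast (by linarith : 2 * htP k F + chi k L ≤ 2 * (e * htP k f) + chi k L)
  have h6 : ∑ p ∈ Γ₀, nn p ≤ κ * (2 * (e * htP k f) + chi k L) := by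
    refine h1.trans ?_
    rw [hα, Nat.add_sub_cancel, ← hκ]
    exact mul_le_mul_of_nonneg_left h3 hκ0
  refine le_trans (add_le_add h6 le_rfl) ?_
  push_cast
  linarith

end Pool.Agent.Helper11
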