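import Pool.Agent.Helper11.TruncX
import Pool.Agent.Helper11.TruncWCor

/-! Truncation level one for generically reduced divisors, explicit constants -/

set_option linter.unusedSectionVars false

namespace Pool.Agent.Helper11

open MvPolynomial

universe u w

section single

variable {k L ι : Type*} [Field k] [Field L] [Algebra k L] [FunField k L] [CharZero k]
  [IsAlgClosed k] [Fintype ι]

theorem two_mul_add_chi_nonneg {e : ℕ} (he : 1 ≤ e) {f : ι → L} (hfc : ¬ IsConstPt k f) :
    (0 : ℝ) ≤ 2 * (e * htP k f) + chi k L := by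
  have h1 := chi_add_two_htP_nonneg hfc (k := k)
  have h2 := htP_pos_of_not_const hfc (k := k)
  have h3 : (1 : ℤ) ≤ e := by exact_mod_cast he
  have h4 : htP k f ≤ e * htP k f := by nlinarith
  exact_mod_cast (by linarith : (0 : ℤ) ≤ 2 * (e * htP k f) + chi k L)

/-- a linear form is determined by its coefficients -/
theorem linear_eq_pairing {G : MvPolynomial ι k} (hG : G.IsHomogeneous 1) :
    ∃ p : ι → k, ∀ f : ι → L, aeval f G = pairing f p := by
  classical
  refine ⟨fun i => coeff (Finsupp.single i 1) G, fun f => ?_⟩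
  have h1 : G = ∑ i, C (coeff (Finsupp.single i 1) G) * X i := by
    ext d
    rw [coeff_sum]
    simp only [coeff_C_mul, coeff_X]
    by_cases hd : ∃ i, d = Finsupp.single i 1
    · obtain ⟨i, rfl⟩ := hd
      rw [Finset.sum_eq_single i]
      · simp
      · intro l _ hl
        rw [if_neg, mul_zero]
        intro h
        exact hl ((Finsupp.single_left_inj one_ne_zero).1 h)
      · intro h; exact absurd (Finset.mem_univ _) h
    · push Not at hd
      have h2 : coeff d G = 0 := by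
        by_contra hne
        have h3 : d.degree = 1 := by
          have := hG hne
          rwa [Finsupp.degree_eq_weight_one]
        obtain ⟨i, hi⟩ := (Finsupp.sum_eq_one_iff d).1 h3
        exact hd i hi
      rw [h2, Finset.sum_eq_zero]
      intro i _
      rw [if_neg (fun h => hd i h.symm), mul_zero]
  conv_lhs => rw [h1]
  unfold pairing
  rw [map_sum]
  refine Finset.sum_congr rfl fun i _ => ?_
  rw [map_mul, aeval_C, aeval_X, mul_comm]

theorem single_bound {e : ℕ} (he : 1 ≤ e) {G : MvPolynomial ι k} (hG : G.IsHomogeneous e)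
    {f : ι → L} (hfc : ¬ IsConstPt k f) (hfG : aeval f G ≠ 0) :
    (e * htP k f : ℝ) - ({v : Place k L | e * v.minOrd f < v.ord (aeval f G)}.ncard : ℝ) ≤
      2 * (e * htP k f) + chi k L := by
  by_cases he2 : 2 ≤ e
  · have h1 := chi_add_two_htP_nonneg hfc (k := k)
    have h2 := htP_pos_of_not_const hfc (k := k)
    have h3 : (2 : ℤ) ≤ e := by exact_mod_cast he2
    have h4 : 2 * htP k f ≤ e * htP k f := by nlinarith
    have h5 : (0 : ℝ) ≤ (e * htP k f) + chi k L := by
      exact_mod_cast (by linarith : (0 : ℤ) ≤ (e * htP k f) + chi k L)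
    have h6 : (0 : ℝ) ≤
      ({v : Place k L | e * v.minOrd f < v.ord (aeval f G)}.ncard : ℝ) := Nat.cast_nonneg _
    linarith
  · have he1 : e = 1 := by omega
    subst he1
    obtain ⟨p, hp⟩ := linear_eq_pairing (L := L) hG
    rw [hp] at hfG
    have h1 := finsum_exc_le hfc hfG
    rw [finsum_exc hfG] at h1
    have h2 : (hitS f (pairing f p) : Set (Place k L)) =
        {v : Place k L | ((1 : ℕ) : ℤ) * v.minOrd f < v.ord (aeval f G)} := by
      ext v
      unfold hitS
      rw [Set.mem_ofPred_eq, Set.mem_ofPred_eq, hp, Nat.cast_one, one_mul]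
    rw [h2] at h1
    have h3 : ((htP k f : ℤ) : ℝ) -
      ({v : Place k L | ((1 : ℕ) : ℤ) * v.minOrd f < v.ord (aeval f G)}.ncard : ℝ) ≤
        2 * htP k f + chi k L := by exact_mod_cast h1
    rw [Nat.cast_one, one_mul]
    exact h3

end single

open Classical in
theorem trunc_forms_x {k : Type u} {ι γ : Type} [Field k] [IsAlgClosed k] [CharZero k]
    [Fintype ι] [Fintype γ] {I : Ideal (MvPolynomial ι k)} {m n e b K : ℕ}
    {J : γ → MvPolynomial ι k} {Γ : Finset (MvPolynomial ι k)} (hK : 1 ≤ K)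
    (hIp : I.IsPrime) (hI : HomI I) (he : 1 ≤ e) (hΓ : ∀ G ∈ Γ, G.IsHomogeneous e)
    (hJ : ∀ j, (J j).IsHomogeneous b) (hred : ∀ G ∈ Γ, RedDiv I (Fintype.card ι - tdeg I) G)
    (hcross : ∀ x ∈ zs I, x ≠ 0 → (∃ j, eval x (J j) ≠ 0) →
      (Γ.filter fun G => eval x G = 0).card ≤ n)
    (hfin : Module.finrank k (Submodule.span k (Γ : Set (MvPolynomial ι k))) ≤ m + 1) :
    ∃ (d : ℕ) (Z : MvPolynomial ι k) (C₀ : ℕ), Z.IsHomogeneous d ∧ Z ∉ I ∧
      ∀ (L : Type w) [Field L] [Algebra k L] [FunField k L] (f : ι → L),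
        (∀ F ∈ I, aeval f F = 0) → ¬ IsConstPt k f → (∀ G ∈ Γ, aeval f G ≠ 0) →
        (∃ j, aeval f (J j) ≠ 0) → aeval f Z ≠ 0 →
        ∑ G ∈ Γ, ((e * htP k f : ℝ) -
          ({v : Place k L | e * v.minOrd f < v.ord (aeval f G)}.ncard : ℝ)) ≤
          (Γ.card / K + n * ((K * m) ^ m : ℕ)) * (2 * (e * htP k f) + chi k L) +
            C₀ * (b * htP k f - htP k (fun j => aeval f (J j))) := by
  by_cases hrn : Γ.card ≤ n
  · -- few divisors: the trivial bound
    refine ⟨0, 1, 0, isHomogeneous_one _ _, fun h => hIp.ne_top ((Ideal.eq_top_iff_one _).2 h), ?_⟩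
    intro L _ _ _ f hf hfc hfΓ _ _
    have h1 : ∀ G ∈ Γ, ((e * htP k f : ℝ) -
          ({v : Place k L | e * v.minOrd f < v.ord (aeval f G)}.ncard : ℝ)) ≤
          2 * (e * htP k f) + chi k L := fun G hG =>
      single_bound he (hΓ G hG) hfc (hfΓ G hG)
    have h2 := Finset.sum_le_card_nsmul _ _ _ h1
    rw [nsmul_eq_mul] at h2
    have hchi := two_mul_add_chi_nonneg he hfc (k := k)
    have h3 : (Γ.card : ℝ) ≤ Γ.card / K + n * ((K * m) ^ m : ℕ) := by
      have h4 : 1 ≤ (K * m) ^ m := by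
        rcases Nat.eq_zero_or_pos m with h | h
        · rw [h]; simp
        · exact Nat.one_le_pow _ _ (Nat.mul_pos hK h)
      have h5 : (1 : ℝ) ≤ ((K * m) ^ m : ℕ) := by exact_mod_cast h4
      have h6 : (Γ.card : ℝ) ≤ n := by exact_mod_cast hrn
      have h7 : (0 : ℝ) ≤ Γ.card / K := by positivity
      nlinarith
    have h4 := mul_le_mul_of_nonneg_right h3 hchi
    rw [Nat.cast_zero, zero_mul, add_zero]
    exact h2.trans h4
  push Not at hrn
  by_cases hdim : 2 ≤ tdeg I
  swap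
  · refine ⟨0, 1, 0, isHomogeneous_one _ _, fun h => hIp.ne_top ((Ideal.eq_top_iff_one _).2 h), ?_⟩
    intro L _ _ _ f hf hfc
    exact absurd (two_le_tdeg hIp hI hf hfc) hdim
  -- coordinates
  obtain ⟨r, hrm, s', hs'Γ, hs'span⟩ : ∃ r ≤ m + 1, ∃ s' : Fin r → MvPolynomial ι k,
      (∀ i, s' i ∈ Γ) ∧ Submodule.span k (Set.range s') =
        Submodule.span k (Γ : Set (MvPolynomial ι k)) := by
    obtain ⟨s', hs'Γ, hs'span, -⟩ := Submodule.exists_fun_fin_finrank_span_eq k
      (Γ : Set (MvPolynomial ι k))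
    exact ⟨_, hfin, s', hs'Γ, hs'span⟩
  set s : Fin (m + 1) → MvPolynomial ι k := fun a => if h : (a : ℕ) < r then s' ⟨a, h⟩ else 0
    with hs
  have hsmem : ∀ a, s a = 0 ∨ s a ∈ Γ := by
    intro a
    rw [hs]
    simp only
    split_ifs with h
    · exact Or.inr (hs'Γ _)
    · exact Or.inl rfl
  have hsdeg : ∀ a, (s a).IsHomogeneous e := by
    intro a
    rcases hsmem a with h | h
    · rw [h]; exact isHomogeneous_zero _ _ _
    · exact hΓ _ h
  have hspan : Submodule.span k (Γ : Set (MvPolynomial ι k)) ≤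
      Submodule.span k (Set.range s) := by
    rw [← hs'span, Submodule.span_le]
    rintro _ ⟨a, rfl⟩
    apply Submodule.subset_span
    refine ⟨⟨a, by omega⟩, ?_⟩
    rw [hs]
    simp only
    rw [dif_pos a.2]
  have hcoord : ∀ G : MvPolynomial ι k, ∃ p : Fin (m + 1) → k, G ∈ Γ → mem' s p = G := by
    intro G
    by_cases hG : G ∈ Γ
    · obtain ⟨p, hp⟩ := (Submodule.mem_span_range_iff_exists_fun k).1
        (hspan (Submodule.subset_span hG))
      refine ⟨p, fun _ => ?_⟩
      unfold mem'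
      rw [← hp]
      exact Finset.sum_congr rfl fun a _ => by rw [smul_eq_C_mul]
    · exact ⟨0, fun h => absurd h hG⟩
  choose co hco using hcoord
  have hinj : Set.InjOn co (Γ : Set (MvPolynomial ι k)) := by
    intro G hG G' hG' h
    rw [← hco G hG, ← hco G' hG', h]
  set Γ₀ : Finset (Fin (m + 1) → k) := Γ.image co with hΓ₀
  have hcard : Γ₀.card = Γ.card := Finset.card_image_of_injOn hinj
  have hΓ₀mem : ∀ p ∈ Γ₀, mem' s p ∈ Γ ∧ co (mem' s p) = p := by
    intro p hp
    rw [hΓ₀, Finset.mem_image] at hp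
    obtain ⟨G, hG, rfl⟩ := hp
    rw [hco G hG]
    exact ⟨hG, rfl⟩
  have S : ArrData I (Fintype.card ι - tdeg I) n e b s J Γ₀ := by
    refine ⟨hIp, hI, hdim, by omega, hsdeg, he, hJ, ?_, ?_, ?_⟩
    · intro x hx hx0 hsx j
      by_contra hne
      have h1 := hcross x hx hx0 ⟨j, hne⟩
      have h2 : (Γ.filter fun G => eval x G = 0) = Γ := by
        rw [Finset.filter_true_of_mem]
        intro G hG
        rw [← hco G hG, eval_mem']
        exact Finset.sum_eq_zero fun a _ => by rw [hsx a, mul_zero]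
      rw [h2] at h1
      omega
    · intro p hp 𝔮 h𝔮
      exact hred _ (hΓ₀mem p hp).1 𝔮 h𝔮
    · intro x hx hx0 hxJ Γ' hΓ' h
      refine le_trans ?_ (hcross x hx hx0 hxJ)
      apply Finset.card_le_card_of_injOn (fun p => mem' s p)
      · intro p hp
        rw [Finset.mem_coe, Finset.mem_filter]
        exact ⟨(hΓ₀mem p (hΓ' hp)).1, h p hp⟩
      · intro p hp p' hp' hpp
        rw [← (hΓ₀mem p (hΓ' hp)).2, ← (hΓ₀mem p' (hΓ' hp')).2]
        exact congrArg co hpp
  obtain ⟨d, Z, C₀, hZd, hZI, hmain⟩ := trunc_main_x.{u, w} (Fintype.card_fin _) hK S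
  refine ⟨d, Z, C₀, hZd, hZI, fun L _ _ _ f hf hfc hfΓ hfJ hfZ => ?_⟩
  have h1 := hmain L f hf hfc (fun p hp => hfΓ _ (hΓ₀mem p hp).1) hfJ hfZ
  rw [hcard] at h1
  have h2 : ∑ p ∈ Γ₀, ((e * htP k f : ℝ) -
      ({v : Place k L | e * v.minOrd f < v.ord (aeval f (mem' s p))}.ncard : ℝ)) =
      ∑ G ∈ Γ, ((e * htP k f : ℝ) -
      ({v : Place k L | e * v.minOrd f < v.ord (aeval f G)}.ncard : ℝ)) := by
    rw [hΓ₀, Finset.sum_image hinj]
    refine Finset.sum_congr rfl fun G hG => ?_
    rw [hco G hG]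
  rw [← h2]
  exact h1

end Pool.Agent.Helper11
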