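import Pool.Agent.Helper11.BBIdentity
import Pool.Agent.Helper11.ProjHeight
import Pool.Agent.Helper11.Density

set_option linter.unusedSectionVars false

namespace Pool.Agent.Helper11

open IntermediateField Polynomial

/-- stick breaking -/
def stick {R : Type*} [CommRing R] (x : ℕ → R) (d i : ℕ) : R :=
  (if i + 1 = d then 1 else x i) * ∏ j ∈ Finset.range i, (1 - x j)

theorem sum_stick_aux {R : Type*} [CommRing R] (x : ℕ → R) (m : ℕ) :
    ∑ i ∈ Finset.range m, x i * ∏ j ∈ Finset.range i, (1 - x j) =
      1 - ∏ j ∈ Finset.range m, (1 - x j) := by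
  induction m with
  | zero => simp
  | succ m ih =>
    rw [Finset.sum_range_succ, ih, Finset.prod_range_succ]
    ring

theorem sum_stick {R : Type*} [CommRing R] (x : ℕ → R) (m : ℕ) :
    ∑ i ∈ Finset.range (m + 1), stick x (m + 1) i = 1 := by
  rw [Finset.sum_range_succ]
  have h1 : ∑ i ∈ Finset.range m, stick x (m + 1) i =
      ∑ i ∈ Finset.range m, x i * ∏ j ∈ Finset.range i, (1 - x j) := by
    refine Finset.sum_congr rfl fun i hi => ?_
    rw [Finset.mem_range] at hi
    rw [stick, if_neg (by omega)]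
  rw [h1, sum_stick_aux, stick, if_pos rfl]
  ring

variable {k F L : Type*} [Field k] [Field F] [Field L] [Algebra k F] [Algebra k L] [Algebra F L]
  [IsScalarTower k F L] [FunField k F] [FunField k L] [CharZero k] [IsAlgClosed k]
  [FiniteDimensional F L]

theorem Place.ord_natCast (v : Place k L) {n : ℕ} (hn : n ≠ 0) :
    (n : L) ≠ 0 ∧ v.ord (n : L) = 0 := by
  have := v.ord_intCast (n := (n : ℤ)) (by exact_mod_cast hn)
  simpa using this

namespace IsTower

variable {t : F} {M m q : ℕ} {s y : ℕ → L} (T : IsTower t M m q s y)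

include T

/-- after a zero or a pole all deeper elements have zeros -/
theorem ord_pos_of_lt (htr : Transcendental k t) (hM : 1 ≤ M) (v : Place k L) {a b : ℕ}
    (hab : a < b) (hb : b ≤ m) (ha : v.ord (s a) ≠ 0) : 0 < v.ord (s b) := by
  induction b with
  | zero => omega
  | succ b ih =>
    have h1 := T.transcendental_s htr hM b (by omega)
    have h2 := T.succ b (by omega)
    rcases Nat.lt_or_eq_of_le (Nat.le_of_lt_succ hab) with h | h
    · exact v.ord_step_pos_of_ne h1 h2 (ih h (by omega)).ne'
    · rw [← h] at h2 h1 ⊢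
      exact v.ord_step_pos_of_ne h1 h2 ha

end IsTower

/-- the points of the unit equation attached to elements `x i` and `z` -/
noncomputable def unitPoint {L : Type*} [Field L] (d j : ℕ) (x : ℕ → L) (z : L) : Fin (d + (j + 1)) → L :=
  Fin.append (fun i : Fin d => z ^ (2 * j + 1) * stick x d i)
    (fun i : Fin (j + 1) => -((bbS j).coeff i : L) * (z - 1) ^ (2 * (i : ℕ) + 1) * z ^ (j - i))

theorem sum_unitPoint {L : Type*} [Field L] (d j : ℕ) (hd : 1 ≤ d) (x : ℕ → L) {z : L}
    (hz : z ≠ 0) : ∑ i, unitPoint d j x z i = 1 := by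
  obtain ⟨d, rfl⟩ : ∃ e, d = e + 1 := ⟨d - 1, by omega⟩
  rw [Fin.sum_univ_add]
  simp only [unitPoint, Fin.append_left, Fin.append_right]
  rw [← Finset.mul_sum, Fin.sum_univ_eq_sum_range (fun i => stick x (d + 1) i), sum_stick, mul_one,
    Fin.sum_univ_eq_sum_range
      (fun i => -((bbS j).coeff i : L) * (z - 1) ^ (2 * i + 1) * z ^ (j - i))]
  exact bb_identity hz j

/-- everything we need about the points -/
structure UnitData (k : Type*) {L : Type*} [Field k] [Field L] [Algebra k L] (d : ℕ) (x : ℕ → L)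
    (z : L) : Prop where
  x_tr : ∀ i < d - 1, Transcendental k (x i)
  z_tr : Transcendental k z
  x_pos : ∀ (v : Place k L) (i j : ℕ), i < j → j < d - 1 → v.ord (x j) ≠ 0 → 0 < v.ord (x i)
  z_pos : ∀ (v : Place k L) (i : ℕ), i < d - 1 → v.ord z ≠ 0 → 0 < v.ord (x i)
  x_supp : ∀ i < d - 1, suppS k (x i) = suppS k z

section Points

variable {d j : ℕ} {x : ℕ → L} {z : L}

theorem one_sub_ne_zero_of_tr {a : L} (ha : Transcendental k a) : 1 - a ≠ 0 := by
  intro h
  apply ha
  rw [← sub_eq_zero.1 h]
  exact isAlgebraic_one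

theorem sub_one_ne_zero_of_tr {a : L} (ha : Transcendental k a) : a - 1 ≠ 0 := by
  intro h
  apply ha
  rw [sub_eq_zero.1 h]
  exact isAlgebraic_one

theorem Place.ord_sub_one (v : Place k L) (a : L) : v.ord (a - 1) = v.ord (1 - a) := by
  rw [← v.ord_neg]; congr 1; ring

theorem stick_ne_zero (U : UnitData k d x z) {i : ℕ} (hi : i < d) : stick x d i ≠ 0 := by
  unfold stick
  refine mul_ne_zero ?_ (Finset.prod_ne_zero_iff.2 fun j hj => ?_)
  · split_ifs with h
    · exact one_ne_zero
    · exact ne_zero_of_transcendental (U.x_tr i (by omega))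
  · rw [Finset.mem_range] at hj
    exact one_sub_ne_zero_of_tr (U.x_tr j (by omega))

theorem ord_stick (U : UnitData k d x z) (v : Place k L) {i : ℕ} (hi : i < d) :
    v.ord (stick x d i) = (if i + 1 = d then 0 else v.ord (x i)) +
      ∑ j ∈ Finset.range i, v.ord (1 - x j) := by
  unfold stick
  rw [v.ord_mul, v.ord_prod]
  · split_ifs with h
    · rw [v.ord_one]
    · rfl
  · intro j hj
    rw [Finset.mem_range] at hj
    exact one_sub_ne_zero_of_tr (U.x_tr j (by omega))
  · split_ifs with h
    · exact one_ne_zero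
    · exact ne_zero_of_transcendental (U.x_tr i (by omega))
  · refine Finset.prod_ne_zero_iff.2 fun j hj => ?_
    rw [Finset.mem_range] at hj
    exact one_sub_ne_zero_of_tr (U.x_tr j (by omega))

theorem unitPoint_left (d j : ℕ) (x : ℕ → L) (z : L) (i : Fin d) :
    unitPoint d j x z (Fin.castAdd (j + 1) i) = z ^ (2 * j + 1) * stick x d i := by
  simp only [unitPoint, Fin.append_left]

theorem unitPoint_right (d j : ℕ) (x : ℕ → L) (z : L) (i : Fin (j + 1)) :
    unitPoint d j x z (Fin.natAdd d i) =
      -((bbS j).coeff i : L) * (z - 1) ^ (2 * (i : ℕ) + 1) * z ^ (j - i) := by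
  simp only [unitPoint, Fin.append_right]

theorem unitPoint_ne_zero (U : UnitData k d x z) (v₀ : Place k L) (i : Fin (d + (j + 1))) :
    unitPoint d j x z i ≠ 0 := by
  refine Fin.addCases (fun i => ?_) (fun i => ?_) i
  · rw [unitPoint_left]
    exact mul_ne_zero (pow_ne_zero _ (ne_zero_of_transcendental U.z_tr)) (stick_ne_zero U i.2)
  · rw [unitPoint_right]
    have h1 := (v₀.ord_natCast (bbS_coeff_pos j i (by omega)).ne').1
    exact mul_ne_zero (mul_ne_zero (neg_ne_zero.2 h1)
      (pow_ne_zero _ (sub_one_ne_zero_of_tr U.z_tr)))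
      (pow_ne_zero _ (ne_zero_of_transcendental U.z_tr))

theorem ord_unitPoint_left (U : UnitData k d x z) (v : Place k L) (i : Fin d) :
    v.ord (unitPoint d j x z (Fin.castAdd (j + 1) i)) = (2 * j + 1 : ℕ) * v.ord z +
      ((if (i : ℕ) + 1 = d then 0 else v.ord (x i)) + ∑ j ∈ Finset.range i, v.ord (1 - x j)) := by
  rw [unitPoint_left, v.ord_mul _ _ (pow_ne_zero _ (ne_zero_of_transcendental U.z_tr))
    (stick_ne_zero U i.2), v.ord_pow, ord_stick U v i.2]

theorem ord_unitPoint_right (U : UnitData k d x z) (v : Place k L) (i : Fin (j + 1)) :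
    v.ord (unitPoint d j x z (Fin.natAdd d i)) =
      (2 * (i : ℕ) + 1 : ℕ) * v.ord (1 - z) + (j - i : ℕ) * v.ord z := by
  have h1 := v.ord_natCast (bbS_coeff_pos j i (by omega)).ne'
  rw [unitPoint_right, v.ord_mul _ _ (mul_ne_zero (neg_ne_zero.2 h1.1)
      (pow_ne_zero _ (sub_one_ne_zero_of_tr U.z_tr)))
      (pow_ne_zero _ (ne_zero_of_transcendental U.z_tr)),
    v.ord_mul _ _ (neg_ne_zero.2 h1.1) (pow_ne_zero _ (sub_one_ne_zero_of_tr U.z_tr)), v.ord_neg,
    h1.2, v.ord_pow, v.ord_pow, v.ord_sub_one, zero_add]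

theorem supp_unitPoint (U : UnitData k d x z) (hd : 1 ≤ d) :
    {v : Place k L | ∃ i, v.ord (unitPoint d j x z i) ≠ 0} = suppS k z := by
  ext v
  constructor
  · rintro ⟨i, hi⟩
    by_contra hv
    have hv' : v.ord z = 0 ∧ v.ord (1 - z) = 0 := by
      simp only [suppS, Set.mem_ofPred_eq, not_or, not_not] at hv
      exact hv
    have hx : ∀ i < d - 1, v.ord (x i) = 0 ∧ v.ord (1 - x i) = 0 := by
      intro i hi
      rw [← U.x_supp i hi] at hv
      simp only [suppS, Set.mem_ofPred_eq, not_or, not_not] at hv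
      exact hv
    apply hi
    refine Fin.addCases (fun i => ?_) (fun i => ?_) i
    · rw [ord_unitPoint_left U, hv'.1]
      have h1 : ∑ j ∈ Finset.range (i : ℕ), v.ord (1 - x j) = 0 := by
        refine Finset.sum_eq_zero fun j hj => ?_
        rw [Finset.mem_range] at hj
        exact (hx j (by omega)).2
      rw [h1]
      split_ifs with h
      · simp
      · rw [(hx i (by omega)).1]; simp
    · rw [ord_unitPoint_right U, hv'.1, hv'.2]; simp
  · intro hv
    by_cases h1 : v.ord (1 - z) = 0
    · have h2 : v.ord z ≠ 0 := by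
        rcases hv with h | h
        · exact h
        · exact absurd h1 h
      refine ⟨Fin.castAdd (j + 1) ⟨d - 1, by omega⟩, ?_⟩
      rw [ord_unitPoint_left U, if_pos (by simp only; omega)]
      have h3 : ∑ j ∈ Finset.range (d - 1), v.ord (1 - x j) = 0 := by
        refine Finset.sum_eq_zero fun j hj => ?_
        rw [Finset.mem_range] at hj
        exact v.ord_one_sub_of_pos (U.z_pos v j hj h2)
      simp only [h3, add_zero]
      have h4 : ((2 * j + 1 : ℕ) : ℤ) ≠ 0 := by positivity
      exact mul_ne_zero h4 h2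
    · refine ⟨Fin.natAdd d ⟨j, by omega⟩, ?_⟩
      rw [ord_unitPoint_right U]
      simp only [Nat.sub_self, Nat.cast_zero, zero_mul, add_zero]
      have h4 : ((2 * j + 1 : ℕ) : ℤ) ≠ 0 := by positivity
      exact mul_ne_zero h4 h1

theorem unitPoint_local (U : UnitData k d x z) (hd : 1 ≤ d) (v : Place k L) :
    (2 * j + 1 : ℕ) * max 0 (-v.ord z) + ∑ i ∈ Finset.range (d - 1), max 0 (-v.ord (x i)) ≤
      -v.minOrd (unitPoint d j x z) := by
  have hone : v.minOrd (unitPoint d j x z) ≤ 0 := by
    by_contra hneg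
    push Not at hneg
    have h1 : (1 : L) ∈ v.ge 1 := by
      rw [← sum_unitPoint d j hd x (ne_zero_of_transcendental U.z_tr)]
      exact sum_mem fun i _ => v.ge_anti (by omega) (v.mem_ge_minOrd _ i)
    have h2 := v.le_ord_of_mem h1 one_ne_zero
    rw [v.ord_one] at h2
    omega
  set u := unitPoint d j x z with hu
  have hle : ∀ i, v.minOrd u ≤ v.ord (u i) := fun i => v.minOrd_le u (unitPoint_ne_zero U v i)
  rcases lt_or_ge (v.ord z) 0 with hz | hz
  · -- pole of z
    have hx : ∀ i < d - 1, 0 < v.ord (x i) := fun i hi => U.z_pos v i hi hz.ne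
    have h1 : ∑ i ∈ Finset.range (d - 1), max 0 (-v.ord (x i)) = 0 := by
      refine Finset.sum_eq_zero fun i hi => ?_
      rw [Finset.mem_range] at hi
      have := hx i hi
      exact max_eq_left (by omega)
    have h2 := hle (Fin.castAdd (j + 1) ⟨d - 1, by omega⟩)
    rw [hu, ord_unitPoint_left U, if_pos (by simp only; omega)] at h2
    have h3 : ∑ j ∈ Finset.range (d - 1), v.ord (1 - x j) = 0 := by
      refine Finset.sum_eq_zero fun j hj => ?_
      rw [Finset.mem_range] at hj
      exact v.ord_one_sub_of_pos (hx j hj)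
    simp only [h3, add_zero] at h2
    rw [h1, max_eq_right (by omega), ← hu] at *
    linarith
  · by_cases hp : ∃ p < d - 1, v.ord (x p) < 0
    · obtain ⟨p, hp1, hp2⟩ := hp
      have hz0 : v.ord z = 0 := by
        by_contra h
        have := U.z_pos v p hp1 h
        omega
      have hx1 : ∀ i < p, 0 < v.ord (x i) := fun i hi => U.x_pos v i p hi hp1 hp2.ne
      have hx2 : ∀ i, p < i → i < d - 1 → v.ord (x i) = 0 := by
        intro i hi hi2
        by_contra h
        have := U.x_pos v p i hi hi2 h
        omega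
      have h1 : ∑ i ∈ Finset.range (d - 1), max 0 (-v.ord (x i)) = -v.ord (x p) := by
        rw [Finset.sum_eq_single_of_mem p (Finset.mem_range.2 hp1)]
        · exact max_eq_right (by omega)
        · intro i hi hip
          rw [Finset.mem_range] at hi
          rcases lt_or_gt_of_ne hip with h | h
          · have := hx1 i h
            exact max_eq_left (by omega)
          · rw [hx2 i h hi]; rfl
      have h2 := hle (Fin.castAdd (j + 1) ⟨p, by omega⟩)
      rw [hu, ord_unitPoint_left U, if_neg (by simp only; omega)] at h2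
      have h3 : ∑ j ∈ Finset.range p, v.ord (1 - x j) = 0 := by
        refine Finset.sum_eq_zero fun j hj => ?_
        rw [Finset.mem_range] at hj
        exact v.ord_one_sub_of_pos (hx1 j hj)
      simp only [h3, add_zero, hz0, mul_zero, zero_add] at h2
      rw [h1, hz0, neg_zero, max_self, mul_zero, zero_add, ← hu] at *
      linarith
    · push Not at hp
      have h1 : ∑ i ∈ Finset.range (d - 1), max 0 (-v.ord (x i)) = 0 := by
        refine Finset.sum_eq_zero fun i hi => ?_
        rw [Finset.mem_range] at hi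
        have := hp i hi
        exact max_eq_left (by omega)
      rw [h1, max_eq_left (by omega), mul_zero, add_zero]
      omega

theorem unitPoint_height (U : UnitData k d x z) (hd : 1 ≤ d) :
    (2 * j + 1 : ℕ) * ht k z + ∑ i ∈ Finset.range (d - 1), ht k (x i) ≤
      htP k (unitPoint d j x z) := by
  unfold ht htP
  rw [← fs_const_mul, ← fs_sum _ _ (fun i _ => supp_negpart (x i)),
    ← fs_add (supp_const_mul _ (supp_negpart z)) (supp_sum _ _ fun i _ => supp_negpart (x i))]
  refine fs_mono (supp_add (supp_const_mul _ (supp_negpart z))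
    (supp_sum _ _ fun i _ => supp_negpart (x i))) ?_ fun v => unitPoint_local U hd v
  have := supp_minOrd (k := k) (unitPoint d j x z)
  simpa using this

end Points

end Pool.Agent.Helper11
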